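import Pool.Agent.Work.MP_b0c12c_px.B_CCUd

/-! # Block CCV (helper94): prescribed clusters, assembly of the constants -/

set_option autoImplicit false

namespace Pool.PP

open Finset Filter

theorem CCV_card (H : ℕ) : Fintype.card (CCUs H) = H := by
  rw [Fintype.card_coe, Nat.card_Icc]
  omega

theorem CCV_sh (H : ℕ) (h : CCUs H) : 1 ≤ CCUsh H h ∧ CCUsh H h ≤ H := by
  have := h.2
  rw [Finset.mem_Icc] at this
  unfold CCUsh
  omega

theorem CCV_a1 (L Θ : ℝ) (hL : 0 ≤ L) (hΘ : 4 ≤ Θ) : L / (512 * Θ) ≤ L := by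
  rw [div_le_iff₀ (by positivity)]
  nlinarith

theorem CCV_a2 (X : ℝ) (h : 1 ≤ X) : √X ≤ X := by
  rw [Real.sqrt_le_left (by linarith)]
  nlinarith

theorem CCV_a3 (a K : ℝ) (hK : 0 ≤ K) : a * K ≤ (a + 1) * K := by nlinarith

theorem CCV_a4 (c₀ Z m : ℝ) (hc : c₀ ≤ Z) (hZ : 0 ≤ Z) (hm : 1 ≤ m) : c₀ + Z ≤ 12 * m * Z := by
  nlinarith

theorem p_CCV (h1 : Stmt_GENV) (h2 : Stmt_LOCU) (h3 : Stmt_SVL) (h4 : Stmt_LDPS) (h5 : Stmt_LDA)
    (h6 : Stmt_PLBS) (h7 : Stmt_UPM) (h8 : Stmt_QXB) (h9 : Stmt_QPB) (h10 : Stmt_QSZ)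
    (h11 : Stmt_BMR) : Stmt_CCV := by
  classical
  intro k eps heps
  obtain ⟨β, cs, Cs, hβ0, hβ2, hcs, hCs, hprod, hsvl⟩ := h3
  obtain ⟨cp, hcp, hplb⟩ := h6
  obtain ⟨Cx, zx, hCx, hzx, hqxb⟩ := h8
  obtain ⟨Cz, hCz, hqsz⟩ := h10
  obtain ⟨Cl, hCl, hlocu⟩ := h2
  obtain ⟨Cb, zb, hzb, hbm⟩ := h11
  obtain ⟨Θ, hΘ4, hΘe⟩ : ∃ Θ : ℕ, 4 ≤ Θ ∧ 1 / (512 * (Θ : ℝ)) ≤ eps := by
    refine ⟨max 4 ⌈1 / eps⌉₊, le_max_left _ _, ?_⟩
    have e1 : 1 / eps ≤ ((max 4 ⌈1 / eps⌉₊ : ℕ) : ℝ) :=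
      (Nat.le_ceil _).trans (by exact_mod_cast le_max_right _ _)
    have e2 : 0 < 1 / eps := by positivity
    rw [div_le_iff₀ (by linarith)]
    rw [div_le_iff₀ heps] at e1
    nlinarith
  have hΘ1 : 1 ≤ Θ := by omega
  have hΘr : (4 : ℝ) ≤ Θ := by exact_mod_cast hΘ4
  obtain ⟨cm, hcmd⟩ : ∃ cm : ℝ, cm = min 1 (cp * cs) := ⟨_, rfl⟩
  have hcm0 : 0 < cm := by rw [hcmd]; exact lt_min one_pos (by positivity)
  have hcm1 : cm ≤ 1 := by rw [hcmd]; exact min_le_left _ _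
  have hcm2 : cm ≤ cp * cs := by rw [hcmd]; exact min_le_right _ _
  obtain ⟨c1, hc1d⟩ : ∃ c1 : ℝ, c1 = cm / (Cz * Θ) := ⟨_, rfl⟩
  have hc10 : 0 < c1 := by rw [hc1d]; positivity
  obtain ⟨Ct, hCtd⟩ : ∃ Ct : ℝ, Ct = Cz * Θ * Cs + 1 := ⟨_, rfl⟩
  have hCt1 : 1 ≤ Ct := by
    rw [hCtd]
    have : 0 ≤ Cz * Θ * Cs := by positivity
    linarith
  obtain ⟨D, hDd⟩ : ∃ D : ℝ, D = Cs / cs := ⟨_, rfl⟩
  have hD0 : 0 ≤ D := by rw [hDd]; positivity
  have hCx0 : 0 < Cx := by linarith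
  have hCl0 : 0 ≤ Cl := by linarith
  obtain ⟨C, hCd⟩ : ∃ C : ℝ, C = 2 * Cx + Cl + Cl * Ct ^ 2 + Cl * Ct ^ 2 * D + 1 := ⟨_, rfl⟩
  have q1 : 0 ≤ Cl * Ct ^ 2 := by positivity
  have q2 : 0 ≤ Cl * Ct ^ 2 * D := by positivity
  have hC1 : 1 ≤ C := by rw [hCd]; linarith
  have hCC1 : 2 * Cx ≤ C := by rw [hCd]; linarith
  have hCC2 : Cl ≤ C := by rw [hCd]; linarith
  have hCC3 : Cl * Ct ^ 2 ≤ C := by rw [hCd]; linarith
  have hCC4 : Cl * Ct ^ 2 * D ≤ C := by rw [hCd]; linarith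
  obtain ⟨c, hcd⟩ : ∃ c : ℝ, c = min 1 (c1 / (2 * Cx)) := ⟨_, rfl⟩
  have hc0 : 0 < c := by rw [hcd]; exact lt_min one_pos (by positivity)
  have hc1' : c ≤ 1 := by rw [hcd]; exact min_le_left _ _
  have hc2 : c ≤ c1 / (2 * Cx) := by rw [hcd]; exact min_le_right _ _
  obtain ⟨θ, A, μ, J₁, hθ0, hθ1, hθA, hmA, hA3, hμ, hJ₁, hcμ, hu1, hu2, huR⟩ :=
    h7 C c (k + 1) hC1 hc0 hc1' (by omega)
  refine ⟨J₁, hJ₁, ?_⟩
  intro δ K a hδ ha0 ha1 haK
  have hJ₁r : (1 : ℝ) ≤ J₁ := by exact_mod_cast hJ₁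
  have hJ₁0 : (0 : ℝ) < J₁ := by linarith
  have hK0 : δ ≤ K := by
    have e1 := haK 0 hJ₁
    have e2 := ha0 0 hJ₁
    linarith
  have hK : 0 < K := by linarith
  obtain ⟨δ', hδ'd⟩ : ∃ δ' : ℝ, δ' = min δ (1 / J₁) := ⟨_, rfl⟩
  have hδ'0 : 0 < δ' := by rw [hδ'd]; exact lt_min hδ (by positivity)
  have hδ'1 : δ' ≤ δ := by rw [hδ'd]; exact min_le_left _ _
  have hδ'2 : J₁ * δ' ≤ 1 := by
    have : δ' ≤ 1 / J₁ := by rw [hδ'd]; exact min_le_right _ _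
    rw [le_div_iff₀ hJ₁0] at this
    linarith
  obtain ⟨R, hRd⟩ : ∃ R : ℝ, R = Ct * K := ⟨_, rfl⟩
  have hR : 0 < R := by rw [hRd]; positivity
  obtain ⟨J, k0, hJ, hu3, hu4, hν1, hν2⟩ := huR R hR
  have hJr : (1 : ℝ) ≤ J := by exact_mod_cast hJ
  obtain ⟨κ, hκd⟩ : ∃ κ : ℝ, κ = J₁ * (cs * (δ' / 2)) * ((1 / Cx) * (2 ^ J / (J : ℝ) ^ 2)) *
      ((1 / Cz) * Θ) := ⟨_, rfl⟩
  have hκ0 : 0 < κ := by rw [hκd]; positivity
  obtain ⟨Zm, hZmd⟩ : ∃ Zm : ℝ, Zm = (κ / 2) ^ (k0 + 1) / ((k0 + 1).factorial : ℝ) := ⟨_, rfl⟩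
  have hZm0 : 0 < Zm := by rw [hZmd]; positivity
  obtain ⟨m, hmd⟩ : ∃ m : ℝ, m = ((k + 1 : ℕ) : ℝ) := ⟨_, rfl⟩
  rw [← hmd] at hmA hcμ hu1 hu2 hu3
  have hm1 : 1 ≤ m := by
    rw [hmd]
    push_cast
    have : (0 : ℝ) ≤ k := Nat.cast_nonneg _
    linarith
  have hA0 : 0 ≤ A := by linarith
  obtain ⟨ε, hεd⟩ : ∃ ε : ℝ, ε = Zm / (m + 2 + A) := ⟨_, rfl⟩
  have hε : 0 < ε := by rw [hεd]; positivity
  obtain ⟨c₀, hc₀d⟩ : ∃ c₀ : ℝ, c₀ = min 1 Zm := ⟨_, rfl⟩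
  have hc₀ : 0 < c₀ := by rw [hc₀d]; exact lt_min one_pos hZm0
  have hc₀1 : c₀ ≤ 1 := by rw [hc₀d]; exact min_le_left _ _
  have hfin : c₀ + (m + 2 + A) * ε ≤ 12 * m * Zm := by
    have e1 : (m + 2 + A) * ε = Zm := by
      rw [hεd]
      have : m + 2 + A ≠ 0 := by positivity
      field_simp
    have e2 : c₀ ≤ Zm := by rw [hc₀d]; exact min_le_right _ _
    rw [e1]
    exact CCV_a4 _ _ _ e2 hZm0.le hm1
  obtain ⟨z0, B, hz0, hloc⟩ := hlocu J k0 R ε (A + 1) hJ hR hε (by linarith)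
  obtain ⟨N, hgen⟩ := h1 J (k0 + 1) (k + 1) A hJ (by linarith)
  obtain ⟨Cd, hCd0, hldps⟩ := h4 N (N + 1)
  have hlda := h5 N (N + 1)
  refine ⟨c₀ ^ 2 / (16 * A ^ 2 * (max B 0 + 2)), by positivity, ?_⟩
  have hlog : Tendsto (fun X : ℕ => Real.log X) atTop atTop :=
    Real.tendsto_log_atTop.comp tendsto_natCast_atTop_atTop
  filter_upwards [hldps, hlog.eventually hlda, hlog.eventually (hqsz Θ hΘ1 J),
    hlog.eventually (CCU_large K δ' c₀ Cd (2 * (k0 + 1)) cs J₁ z0 zx zb N hK hδ'0 hc₀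
      hCd0.le hcs hJ₁0), hlog.eventually (CCU_pow β hβ0 hβ2), hlog.eventually hprod,
    hlog.eventually (hsvl (δ' / 2) (by positivity)), CCU_sqrt K hK, hplb,
    eventually_ge_atTop 1] with X hLD hLA hSZ hLG hPW hPR hSV hSQ hPL hX1
  obtain ⟨L, hLdef⟩ : ∃ L : ℝ, L = Real.log X := ⟨_, rfl⟩
  rw [← hLdef] at hLD hLA hSZ hLG hPW hPR hSV hSQ hPL ⊢
  obtain ⟨s1, s2, s3, s4, s5, s6, s7⟩ := hSZ
  obtain ⟨l1, l2, l3, l4, l5, l6, l7, l8, l9, l10, l11, l12, l13⟩ := hLG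
  obtain ⟨z, hz⟩ : ∃ z : ℕ, z = zL L := ⟨_, rfl⟩
  obtain ⟨I, hI⟩ : ∃ I : ℕ, I = iL Θ L := ⟨_, rfl⟩
  obtain ⟨w, hw⟩ : ∃ w : ℕ, w = ⌊L ^ β⌋₊ := ⟨_, rfl⟩
  obtain ⟨H, hH⟩ : ∃ H : ℕ, H = ⌊K * L⌋₊ := ⟨_, rfl⟩
  obtain ⟨len, hlen⟩ : ∃ len : ℕ, len = ⌊δ * L⌋₊ := ⟨_, rfl⟩
  obtain ⟨len', hlen'⟩ : ∃ len' : ℕ, len' = ⌊δ' * L⌋₊ := ⟨_, rfl⟩
  obtain ⟨x, hxd⟩ : ∃ x : ℕ → ℕ, x = fun i => ⌊a i * L⌋₊ := ⟨_, rfl⟩
  rw [← hI] at s1 s2 s3 s4
  rw [← hz] at s2 s5 s6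
  rw [← hw] at hPR hSV
  rw [← hH, ← hlen, ← hxd]
  obtain ⟨t, ht⟩ : ∃ t : ℝ, t = (1 / 2 : ℝ) ^ I := ⟨_, rfl⟩
  rw [← ht] at s3 s4
  have ht0 : 0 < t := by rw [ht]; positivity
  have hX1r : (1 : ℝ) ≤ X := by exact_mod_cast hX1
  have hX0 : (0 : ℝ) < X := by linarith
  have hexpL : Real.exp L = X := by rw [hLdef, Real.exp_log hX0]
  have hL0 : 0 < L := by linarith
  have hlg0 : 0 < Real.log L := by linarith
  -- sizes
  have hzr : (2 : ℝ) ≤ z := by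
    have : L ≤ L ^ 12 := by
      calc L = L ^ 1 := (pow_one L).symm
        _ ≤ L ^ 12 := pow_le_pow_right₀ (by linarith) (by norm_num)
    linarith
  have hz2 : 2 ≤ z := by exact_mod_cast hzr
  have hz0z : z0 ≤ z := by exact_mod_cast l4.trans s6
  have hzxz : zx ≤ z := by exact_mod_cast l5.trans s6
  have hzbz : zb ≤ z := by exact_mod_cast l6.trans s6
  have hwL : w ≤ wL L := by
    rw [hw]
    exact Nat.floor_mono hPW
  have hwz : w ≤ z := hwL.trans s5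
  have hHle : (H : ℝ) ≤ K * L := by rw [hH]; exact Nat.floor_le (by positivity)
  have hlenle : (len : ℝ) ≤ δ * L := by rw [hlen]; exact Nat.floor_le (by positivity)
  have hlen'le : (len' : ℝ) ≤ δ' * L := by rw [hlen']; exact Nat.floor_le (by positivity)
  have hll : len' ≤ len := by
    rw [hlen, hlen']
    exact Nat.floor_mono (by gcongr)
  have hlH : len' ≤ H := by
    rw [hH, hlen']
    apply Nat.floor_mono
    have : δ' ≤ K := by linarith
    gcongr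
  have hlen'ge : δ' / 2 * L ≤ len' := by
    have := Nat.lt_floor_add_one (δ' * L)
    rw [← hlen'] at this
    linarith
  have hHL2 : (H : ℝ) ≤ L ^ 2 := hHle.trans l9
  have hx1 : ∀ i, i + 1 < J₁ → x i + len ≤ x (i + 1) := by
    intro i hi
    rw [hxd]
    show ⌊a i * L⌋₊ + len ≤ ⌊a (i + 1) * L⌋₊
    apply Nat.le_floor
    push_cast
    have e1 : (⌊a i * L⌋₊ : ℝ) ≤ a i * L :=
      Nat.floor_le (mul_nonneg (ha0 i (by omega)) hL0.le)
    have e2 : (a i + δ) * L ≤ a (i + 1) * L := by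
      have := ha1 i hi
      gcongr
    linarith
  have hxH : ∀ i < J₁, x i + len ≤ H := by
    intro i hi
    rw [hxd, hH]
    show ⌊a i * L⌋₊ + len ≤ ⌊K * L⌋₊
    apply Nat.le_floor
    push_cast
    have e1 : (⌊a i * L⌋₊ : ℝ) ≤ a i * L := Nat.floor_le (mul_nonneg (ha0 i hi) hL0.le)
    have e2 : (a i + δ) * L ≤ K * L := by
      have := haK i hi
      gcongr
    linarith
  have hx1' : ∀ i, i + 1 < J₁ → x i + len' ≤ x (i + 1) := fun i hi => by
    have := hx1 i hi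
    omega
  have hxH' : ∀ i < J₁, x i + len' ≤ H := fun i hi => by
    have := hxH i hi
    omega
  -- the local data
  have hPB := h9 z I hz2
  obtain ⟨hBlk, -, -⟩ := hbm z I hzbz (LPt z I) (fun x : LPt z I => (x : ℕ)) (bQ z I) hPB 0
    (by norm_num)
  obtain ⟨-, -, -, -, -, -, -, -, hX1', hX2', -, -⟩ := hqxb z I J (LPt z I)
    (fun x : LPt z I => (x : ℕ)) (bQ z I) hzxz hJ s1 hPB
  obtain ⟨KK, hKK⟩ : ∃ KK : Finset (CCUs H), KK = CCUK J₁ x len' H := ⟨_, rfl⟩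
  obtain ⟨cl, hcl⟩ : ∃ cl : CCUs H → ℕ, cl = CCUc J₁ x len' H := ⟨_, rfl⟩
  obtain ⟨P, hP⟩ : ∃ P : ℝ, P = ∏ y : SPt w, (y : ℝ) / ((y : ℝ) - 1) := ⟨_, rfl⟩
  rw [← hP] at hPR
  have hP0 : 0 < P := lt_of_lt_of_le (by positivity) hPR
  obtain ⟨M₁, hM₁⟩ : ∃ M₁ : ℝ, M₁ = cm * (X * (Real.log L / L)) / P := ⟨_, rfl⟩
  have hM₁0 : 0 < M₁ := by rw [hM₁]; positivity
  have hG : M₁ / X * P = cm * (Real.log L / L) := by
    rw [hM₁]
    field_simp
  have hlL : Real.log L / L ≤ 1 := by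
    rw [div_le_one hL0]; exact l3
  have hlL0 : 0 < Real.log L / L := by positivity
  have hcardR : (Fintype.card (CCUs H) : ℝ) = H := by rw [CCV_card]
  have hδc : ∀ b : ℝ, b / L ^ (N + 1) * (2 + K * L) ^ N ≤ c₀ →
      b * (X / L ^ (N + 1)) ≤ c₀ * X / (2 + (Fintype.card (CCUs H) : ℝ)) ^ N := by
    intro b hb
    rw [hcardR]
    rw [le_div_iff₀ (by positivity)]
    by_cases hb0 : 0 ≤ b
    · calc b * (X / L ^ (N + 1)) * (2 + (H : ℝ)) ^ N ≤
          b * (X / L ^ (N + 1)) * (2 + K * L) ^ N := by gcongr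
        _ = b / L ^ (N + 1) * (2 + K * L) ^ N * X := by ring
        _ ≤ c₀ * X := by gcongr
    · push Not at hb0
      have e1 : b * (X / L ^ (N + 1)) * (2 + (H : ℝ)) ^ N ≤ 0 := by
        apply mul_nonpos_of_nonpos_of_nonneg
        · apply mul_nonpos_of_nonpos_of_nonneg hb0.le
          positivity
        · positivity
      have e2 : 0 ≤ c₀ * X := by positivity
      linarith
  have hres := hgen w z I X (CCUs H) (CCUsh H) KK cl θ M₁ (max B 0) c₀ (Real.exp (L / 8))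
    hz2 hwz s1
    (by
      have e1 : ((z ^ 2 ^ I : ℕ) : ℝ) ≤ X := by
        push_cast
        refine s2.trans ?_
        rw [← hexpL]
        exact Real.exp_le_exp.2 (CCV_a1 L Θ hL0.le hΘr)
      exact_mod_cast e1)
    (by
      rw [CCV_card]
      have : (H : ℝ) < z := lt_of_le_of_lt hHle (l7.trans_le s6)
      exact_mod_cast this)
    hBlk
    (by
      intro h h' hne
      have r1 := CCV_sh H h
      have r2 := CCV_sh H h'
      have r3 : (H : ℝ) < z := lt_of_le_of_lt hHle (l7.trans_le s6)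
      have r4 : (H : ℤ) < z := by exact_mod_cast r3
      refine ⟨?_, ?_⟩
      · intro he
        apply hne
        unfold CCUsh at he
        apply Subtype.ext
        exact_mod_cast he
      · rw [abs_le]
        constructor <;> linarith)
    (fun h => (CCV_sh H h).1) hθ0 hθ1 hθA (by rw [← hmd]; exact hmA) hM₁0 (le_max_right _ _) hc₀
    hc₀1 (CCU_Q w z I Θ L hL0.le hwL hΘ4 s2 s7)
    (by
      intro ω
      -- counts of the survivors
      have hWc : ∀ y : ℤ, cs * (len' / Real.log L) ≤ ((CCUW w ω y len').card : ℝ) ∧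
          ((CCUW w ω y len').card : ℝ) ≤ Cs * (len' / Real.log L) := by
        intro y
        exact hSV (fun p => if hp : p ∈ SP w then ω ⟨p, hp⟩ else 0) y len' hlen'ge
          (le_trans (by exact_mod_cast hlH) hHL2)
      obtain ⟨n1, n2, n3⟩ := CCU_cnt hx1' hxH' ω _ _ hWc
      rw [← hKK] at n1 n2 n3
      rw [← hcl] at n3
      have hWH : ((CCUW w ω 0 H).card : ℝ) ≤ Cs * (H / Real.log L) :=
        (hSV (fun p => if hp : p ∈ SP w then ω ⟨p, hp⟩ else 0) 0 H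
          (hlen'ge.trans (by exact_mod_cast hlH)) hHL2).2
      have hSc : ((SwU (CCUsh H) ω).card : ℝ) * (1 / 2 : ℝ) ^ I ≤ R := by
        rw [← ht]
        have e1 : ((SwU (CCUsh H) ω).card : ℝ) ≤ Cs * (H / Real.log L) :=
          le_trans (by exact_mod_cast CCU_all ω) hWH
        calc ((SwU (CCUsh H) ω).card : ℝ) * t ≤
            Cs * (K * L / Real.log L) * (Cz * (Θ * (Real.log L / L))) := by
              gcongr
              exact e1.trans (by gcongr)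
          _ = Cz * Θ * Cs * K := by
              field_simp
          _ ≤ R := by
              rw [hRd, hCtd]
              exact CCV_a3 _ _ hK.le
      obtain ⟨S, hS⟩ : ∃ S : Finset (CCUs H), S = SwU (CCUsh H) ω := ⟨_, rfl⟩
      rw [← hS] at n1 n2 n3 hSc ⊢
      have hcard8 : Fintype.card (CCUs H) ^ 8 * z0 ≤ z := by
        have e3 : ((Fintype.card (CCUs H) ^ 8 * z0 : ℕ) : ℝ) ≤ z := by
          push_cast
          rw [hcardR]
          calc (H : ℝ) ^ 8 * z0 ≤ (K * L) ^ 8 * z0 := by gcongr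
            _ ≤ L ^ 12 := l8
            _ ≤ z := s6
        exact_mod_cast e3
      obtain ⟨v1, v2, v3, v4, v5⟩ := hloc z I (LPt z I) (CCUs H) (fun x : LPt z I => (x : ℕ))
        (bQ z I) S KK (xQ z I J)
        (Cl * (((k0 : ℝ) + 1) * J / 2 ^ J + R / J)) hz0z s1 hPB hSc hcard8 rfl rfl
      refine ⟨?_, v2.trans (le_max_left _ _)⟩
      have v4' := v4 (alU θ A cl) (by
        intro b b'
        unfold alU
        split_ifs <;> constructor <;> linarith) (by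
        intro b
        unfold alU
        rw [if_pos rfl])
      -- number of the survivors in the windows
      have hℓ1 : (len' : ℝ) / Real.log L ≤ δ' * L / Real.log L := by gcongr
      have hℓ2 : δ' / 2 * L / Real.log L ≤ (len' : ℝ) / Real.log L := by gcongr
      have hnlow : J₁ * (cs * (δ' / 2 * L / Real.log L)) ≤ ((S \ KK).card : ℝ) := by
        refine le_trans ?_ n1
        gcongr
      rw [← hP, hG, ← hmd]
      refine CCU_loc1 (xQ z I J) S KK cl k0 I _ _ _ _ C Cx Cl Ct D c1 θ A μ R m κ t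
        (((k0 : ℝ) + 1) * J / 2 ^ J + R / J) (Cs * (len' / Real.log L)) J₁
        (cm * (Real.log L / L)) c₀ ε _ Zm hCx0 hCl0 hCt1 hD0 hCC1 hCC2 hCC3 hCC4 hθ0.le hA0 hμ.le
        hR.le (by linarith) ht ?_ ?_ hJ hν1 hν2 ?_ ?_ hJ₁0 (by positivity) rfl hu1 hu2 hu3 hu4 n3
        ?_ ?_ ?_ (by positivity) hc10.le ?_ hε.le hκ0.le ?_ hZmd hfin v1 v3 v4' v5
      · rw [ht]; exact hX1'
      · rw [ht]; exact hX2'
      · have e1 : ((2 * (k0 + 1) : ℕ) : ℝ) ≤ ((S \ KK).card : ℝ) := by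
          push_cast
          exact l13.trans hnlow
        exact_mod_cast e1
      · calc t * ((S \ KK).card : ℝ) ≤
            (Cz * (Θ * (Real.log L / L))) * (J₁ * (Cs * (δ' * L / Real.log L))) := by
              have : ((S \ KK).card : ℝ) ≤ J₁ * (Cs * (δ' * L / Real.log L)) := by
                refine n2.trans ?_
                gcongr
              gcongr
          _ = Cz * Θ * Cs * (J₁ * δ') := by
              field_simp
          _ ≤ Cz * Θ * Cs * 1 := by gcongr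
          _ ≤ Ct := by rw [hCtd]; linarith
      · calc Cs * (len' / Real.log L) * J₁ = Cs / cs * (J₁ * (cs * (len' / Real.log L))) := by
              field_simp
          _ ≤ D * ((S \ KK).card : ℝ) := by
              rw [hDd]
              gcongr
      · rw [hc1d]
        calc cm / (Cz * Θ) * t ≤ cm / (Cz * Θ) * (Cz * (Θ * (Real.log L / L))) := by gcongr
          _ = cm * (Real.log L / L) := by field_simp
      · calc cm * (Real.log L / L) ≤ 1 * 1 := by gcongr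
          _ = 1 := by norm_num
      · calc 16 * m = c * μ := hcμ.symm
          _ ≤ c1 / (2 * Cx) * μ := by gcongr
      · have e2 : (1 / Cx) * (2 ^ J * ((1 / Cz) * (Θ * (Real.log L / L))) / (J : ℝ) ^ 2) ≤
            sX (xQ z I J) := by
          refine le_trans ?_ (show (1 / Cx) * (2 ^ J * t / (J : ℝ) ^ 2) ≤ sX (xQ z I J) by
            rw [ht]; exact hX1')
          gcongr
        calc κ = (J₁ * (cs * (δ' / 2 * L / Real.log L))) *
              ((1 / Cx) * (2 ^ J * ((1 / Cz) * (Θ * (Real.log L / L))) / (J : ℝ) ^ 2)) := by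
              rw [hκd]
              field_simp
          _ ≤ ((S \ KK).card : ℝ) * sX (xQ z I J) := by gcongr)
    (by
      have e1 := hLA X X (by
        rw [← hexpL]
        apply Real.exp_le_exp.2
        linarith)
      have e2 : LV N 0 (Ioc X (2 * X)) X (Real.exp (L / 8)) ((X : ℝ) / L ^ (N + 1)) := by
        intro VV hVV b hb
        have := e1 VV hVV b hb
        rwa [← two_mul] at this
      refine CCU_LV e2 le_rfl ?_
      have := hδc 1 l12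
      rwa [one_mul] at this)
    (by
      intro h0 _
      have r1 := CCV_sh H h0
      have r2 : (((CCUsh H h0).toNat : ℕ) : ℝ) ≤ H := by
        have : (CCUsh H h0).toNat ≤ H := by omega
        exact_mod_cast this
      have r3 : (((CCUsh H h0).toNat : ℕ) : ℝ) ≤ √X := r2.trans (hHle.trans hSQ)
      have r4 : (CCUsh H h0).toNat ≤ X := by
        have e1 : √(X : ℝ) ≤ X := CCV_a2 _ hX1r
        exact_mod_cast r3.trans e1
      refine ⟨_, ?_, CCU_LV (hLD _ r4) ?_ (hδc Cd l11)⟩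
      · refine le_trans ?_ (hPL _ r3)
        rw [hM₁, div_le_iff₀ hP0]
        calc cm * (X * (Real.log L / L)) ≤ cp * cs * (X * (Real.log L / L)) := by gcongr
          _ = cp * (X / L) * (cs * Real.log L) := by ring
          _ ≤ cp * (X / L) * P := by gcongr
      · rw [Real.rpow_def_of_pos hX0, ← hLdef]
        apply Real.exp_le_exp.2
        linarith)
  have hc' : c₀ ^ 2 / (16 * A ^ 2 * (max B 0 + 2)) * X =
      c₀ ^ 2 * X / (16 * A ^ 2 * (max B 0 + 2)) := by ring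
  rw [hc']
  refine hres.trans ?_
  have hY : ((z ^ 2 ^ I : ℕ) : ℝ) ≤ (X : ℝ) ^ eps := by
    push_cast
    refine s2.trans ?_
    rw [Real.rpow_def_of_pos hX0, ← hLdef]
    apply Real.exp_le_exp.2
    calc L / (512 * Θ) = L * (1 / (512 * (Θ : ℝ))) := by ring
      _ ≤ L * eps := by gcongr
  have hsub : (Ioc X (2 * X)).filter (fun n : ℕ => GoodV (CCUsh H) KK cl (k + 1) (z ^ 2 ^ I) n) ⊆
      (Ioc X (2 * X)).filter (fun n : ℕ => GdV J₁ x len H k ((X : ℝ) ^ eps) n) := by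
    intro n hn
    rw [Finset.mem_filter] at hn ⊢
    refine ⟨hn.1, ?_⟩
    have := hn.2
    rw [hKK, hcl] at this
    exact CCU_good hY hx1 hxH hll this
  exact_mod_cast Finset.card_le_card hsub

end Pool.PP
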