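import Pool.Agent.Work.MP_b0c12c_px.UDefs

/-! # Block GENU (helper50): the general theorem -/

set_option autoImplicit false

namespace Pool.PP

open Finset Filter

theorem GENU_SP {w : ℕ} (y : SPt w) : (y : ℕ).Prime ∧ (y : ℕ) ≤ w := by
  have := y.2
  unfold SP at this
  rw [Finset.mem_filter, Finset.mem_Icc] at this
  exact ⟨this.2, this.1.2⟩

theorem GENU_LP {z I : ℕ} (x : LPt z I) :
    (x : ℕ).Prime ∧ z < (x : ℕ) ∧ (x : ℕ) ≤ z ^ 2 ^ I := by
  have := x.2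
  unfold LP at this
  rw [Finset.mem_filter, Finset.mem_Ioc] at this
  exact ⟨this.2, this.1.1, this.1.2⟩

theorem GENU_OmQ_nonneg {ι π : Type} [Fintype ι] [DecidableEq ι] {J : ℕ}
    (f : Fin J → Finset π → ℝ) (S KK : Finset ι) (k : ℕ) (Θ : ℝ) (t : ι → Finset π) :
    0 ≤ OmQ f S KK k Θ t := by
  unfold OmQ
  exact Finset.sum_nonneg fun A _ => sq_nonneg _

theorem GENU_PrQ_nonneg {ι π : Type} [Fintype ι] [DecidableEq ι] {J : ℕ}
    (f : Fin J → Finset π → ℝ) (S KK : Finset ι) (k : ℕ) (Θ : ℝ) (h0 : ι) (t : ι → Finset π) :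
    0 ≤ PrQ f S KK k Θ h0 t := by
  unfold PrQ
  exact Finset.sum_nonneg fun A _ => sq_nonneg _

theorem GENU_LV (N N' u : ℕ) (h : N' ≤ N) (NN : Finset ℕ) (M Q δ : ℝ) (H : LV N u NN M Q δ) :
    LV N' u NN M Q δ := by
  intro VV hVV a ha
  refine le_trans (Finset.sum_le_sum fun V _ => ?_) (H VV hVV a ha)
  have h0 : 0 ≤ err (fun p : ℕ => p) (fun p => Ico u p) NN M (a V) V := by
    unfold err; exact abs_nonneg _
  have h1 : (2 ^ N' : ℝ) ≤ 2 ^ N := pow_le_pow_right₀ (by norm_num) h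
  gcongr

/-- The mean over the labels of a nonnegative function is nonnegative. -/
theorem GENU_EN_nonneg {ι π : Type} [Fintype ι] [DecidableEq ι] [Fintype π] [DecidableEq π]
    (q : π → ℝ) (hq : ∀ x, 0 ≤ q x) (hq1 : ∀ x, (Fintype.card ι : ℝ) * q x ≤ 1)
    (Φ : (ι → Finset π) → ℝ) (hΦ : ∀ t, 0 ≤ Φ t) : 0 ≤ EN q Φ := by
  unfold EN
  refine Finset.sum_nonneg fun ω _ => mul_nonneg ?_ (hΦ _)
  unfold wl
  refine Finset.prod_nonneg fun x _ => ?_
  cases ω x with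
  | none => simpa using hq1 x
  | some a => exact hq x

/-- The average over the residues is monotone. -/
theorem GENU_av_mono (u w : ℕ) (hu : u ≤ 1) (G G' : (SPt w → ℕ) → ℝ)
    (h : ∀ ω ∈ Fintype.piFinset (fun y : SPt w => Ico u (y : ℕ)), G ω ≤ G' ω) :
    avQ u w G ≤ avQ u w G' := by
  unfold avQ
  have h0 : (0 : ℝ) ≤ ∏ y : SPt w, ((y : ℝ) - u) := by
    refine Finset.prod_nonneg fun y _ => ?_
    have h1 := (GENU_SP y).1.one_lt
    have h2 : (u : ℝ) ≤ 1 := by exact_mod_cast hu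
    have h3 : (1 : ℝ) < ((y : ℕ) : ℝ) := by exact_mod_cast h1
    linarith
  exact div_le_div_of_nonneg_right (Finset.sum_le_sum h) h0

theorem GENU_av_const (w : ℕ) (c : ℝ) : avQ 0 w (fun _ => c) = c := by
  unfold avQ
  rw [Finset.sum_const, Fintype.card_piFinset, nsmul_eq_mul]
  have h1 : ∀ y : SPt w, ((Ico 0 (y : ℕ)).card : ℝ) = ((y : ℕ) : ℝ) - (0 : ℕ) := by
    intro y; rw [Nat.card_Ico]; simp
  have h2 : ((∏ y : SPt w, (Ico 0 (y : ℕ)).card : ℕ) : ℝ) = ∏ y : SPt w, ((y : ℝ) - (0 : ℕ)) := by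
    push_cast
    exact Finset.prod_congr rfl fun y _ => by simp
  rw [h2]
  have h3 : (∏ y : SPt w, ((y : ℝ) - (0 : ℕ))) ≠ 0 := by
    refine Finset.prod_ne_zero_iff.2 fun y _ => ?_
    have h1 := (GENU_SP y).1.pos
    have : (0 : ℝ) < ((y : ℕ) : ℝ) := by exact_mod_cast h1
    push_cast
    linarith
  field_simp

theorem GENU_av_add (w : ℕ) (G G' : (SPt w → ℕ) → ℝ) :
    avQ 0 w (fun ω => G ω + G' ω) = avQ 0 w G + avQ 0 w G' := by
  unfold avQ
  rw [Finset.sum_add_distrib, add_div]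

theorem GENU_av_mul (w : ℕ) (c : ℝ) (G : (SPt w → ℕ) → ℝ) :
    avQ 0 w (fun ω => c * G ω) = c * avQ 0 w G := by
  unfold avQ
  rw [← Finset.mul_sum, mul_div_assoc]

theorem GENU_av_sum (w : ℕ) {α : Type} (s : Finset α) (G : α → (SPt w → ℕ) → ℝ) :
    avQ 0 w (fun ω => ∑ a ∈ s, G a ω) = ∑ a ∈ s, avQ 0 w (G a) := by
  unfold avQ
  rw [Finset.sum_comm, Finset.sum_div]

/-- One site: the integers `n` with a prime at the site and the primes. -/
theorem GENU_shift (X s : ℕ) (F G : ℕ → ℝ)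
    (h : ∀ n ∈ Ioc X (2 * X), (n + s).Prime → F n = G (n + s)) :
    ∑ n ∈ Ioc X (2 * X), (if (n + s).Prime then F n else 0) =
      ∑ p ∈ (Ioc (X + s) (2 * X + s)).filter Nat.Prime, G p := by
  rw [← Finset.sum_filter]
  refine Finset.sum_bij (fun n _ => n + s) ?_ ?_ ?_ ?_
  · intro n hn
    rw [Finset.mem_filter, Finset.mem_Ioc] at hn ⊢
    exact ⟨⟨by omega, by omega⟩, hn.2⟩
  · intro a _ b _ hab
    omega
  · intro p hp
    rw [Finset.mem_filter, Finset.mem_Ioc] at hp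
    refine ⟨p - s, ?_, by omega⟩
    rw [Finset.mem_filter, Finset.mem_Ioc]
    have : p - s + s = p := by omega
    rw [this]
    exact ⟨⟨by omega, by omega⟩, hp.2⟩
  · intro n hn
    rw [Finset.mem_filter] at hn
    exact h n hn.1 hn.2

/-- The pointwise inequality at the integer `n`. -/
theorem GENU_point (hPWU : Stmt_PWU) (hFRE : Stmt_FRE) (w z I J k m X : ℕ) (ι : Type) [Fintype ι]
    [DecidableEq ι] (sh : ι → ℤ) (KK : Finset ι) (cl : ι → ℕ) (θ A : ℝ) (hJ : 1 ≤ J)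
    (hwz : w ≤ z) (hJI : J ≤ I) (hX : z ^ 2 ^ I ≤ X) (hB : Blk (dQ 0 z I) (bQ z I) I)
    (hsh : ∀ h, 1 ≤ sh h) (hθ : 0 < θ) (hθ1 : θ ≤ 1) (hA : 1 / θ ≤ A) (n : ℕ) (hn : X < n) :
    ∑ h0 ∈ univ \ KK, (if (n + (sh h0).toNat).Prime then
      PrQ (fQ z I J) (Sset (tb (prQ w z I) sh n)) KK k 2 h0 (lg (tb (prQ w z I) sh n)) else 0) -
      (m * OmQ (fQ z I J) (Sset (tb (prQ w z I) sh n)) KK k 2 (lg (tb (prQ w z I) sh n)) +
        PaQ (fQ z I J) (rQ z I) (alU θ A cl) (Sset (tb (prQ w z I) sh n)) KK k 2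
          (lg (tb (prQ w z I) sh n)) +
        A * BdQ (fQ z I J) (rQ z I) (Sset (tb (prQ w z I) sh n)) KK k 2
          (lg (tb (prQ w z I) sh n))) ≤
      open Classical in if GoodU sh KK cl m n then
        A * OmQ (fQ z I J) (Sset (tb (prQ w z I) sh n)) KK k 2 (lg (tb (prQ w z I) sh n))
      else 0 := by
  classical
  set P : Finset ι := univ.filter (fun h => ((n : ℤ) + sh h).toNat.Prime) with hP
  have hnat : ∀ h, ((n : ℤ) + sh h).toNat = n + (sh h).toNat := by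
    intro h
    have := hsh h
    omega
  have hcast : ∀ h, ((n + (sh h).toNat : ℕ) : ℤ) = (n : ℤ) + sh h := by
    intro h
    have := hsh h
    push_cast
    omega
  have hzI : z ≤ z ^ 2 ^ I := Nat.le_self_pow (by positivity) z
  have hndiv : ∀ h ∈ P, ∀ x : SPt w ⊕ LPt z I, ¬ ((prQ w z I x : ℕ) : ℤ) ∣ (n : ℤ) + sh h := by
    intro h hh x hd
    rw [hP, Finset.mem_filter, hnat] at hh
    have hpr := hh.2
    rw [← hcast, Int.natCast_dvd_natCast] at hd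
    have hprx : (prQ w z I x).Prime ∧ prQ w z I x ≤ X := by
      rcases x with y | x
      · exact ⟨(GENU_SP y).1, ((GENU_SP y).2.trans (hwz.trans hzI)).trans hX⟩
      · exact ⟨(GENU_LP x).1, (GENU_LP x).2.2.trans hX⟩
    have h1 := (Nat.prime_dvd_prime_iff_eq hprx.1 hpr).1 hd
    omega
  have hPS : P ⊆ Sset (tb (prQ w z I) sh n) := by
    intro h hh
    simp only [Sset, tb, Finset.mem_filter, Finset.mem_univ, true_and]
    intro y
    exact hndiv h hh (Sum.inl y)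
  have hPt : ∀ h ∈ P, lg (tb (prQ w z I) sh n) h = ∅ := by
    intro h hh
    simp only [lg, tb, Finset.mem_filter, Finset.mem_univ, true_and]
    refine Finset.filter_eq_empty_iff.mpr ?_
    intro y _
    exact hndiv h hh (Sum.inr y)
  obtain ⟨hf1, hr1, hr0⟩ := hFRE (LPt z I) (dQ 0 z I) (bQ z I) I hB
  have key := hPWU (LPt z I) ι J (fQ z I J) (rQ z I) (Sset (tb (prQ w z I) sh n)) KK P k m 2 θ A
    cl (lg (tb (prQ w z I) sh n)) (by omega) (fun s => hf1 s (by have := s.2; omega)) hr1 hr0 hθ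
    hθ1 hA hPS hPt
  have hsum : ∑ h0 ∈ univ \ KK, (if (n + (sh h0).toNat).Prime then
      PrQ (fQ z I J) (Sset (tb (prQ w z I) sh n)) KK k 2 h0 (lg (tb (prQ w z I) sh n)) else 0) =
      ∑ h0 ∈ P \ KK,
        PrQ (fQ z I J) (Sset (tb (prQ w z I) sh n)) KK k 2 h0 (lg (tb (prQ w z I) sh n)) := by
    rw [← Finset.sum_filter]
    refine Finset.sum_congr ?_ fun _ _ => rfl
    ext h
    simp only [hP, Finset.mem_filter, Finset.mem_sdiff, Finset.mem_univ, true_and, hnat]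
    tauto
  rw [hsum]
  refine key.trans ?_
  have hOm : 0 ≤ A * OmQ (fQ z I J) (Sset (tb (prQ w z I) sh n)) KK k 2
      (lg (tb (prQ w z I) sh n)) :=
    mul_nonneg (le_trans (by positivity) hA) (GENU_OmQ_nonneg _ _ _ _ _ _)
  by_cases hc : P ∩ KK = ∅ ∧ (∀ i, ((P \ KK).filter (fun h => cl h = i)).card ≤ 1) ∧
      m + 1 ≤ (P \ KK).card
  · have hPK : P \ KK = (univ \ KK).filter (fun h => ((n : ℤ) + sh h).toNat.Prime) := by
      ext h
      simp only [hP, Finset.mem_filter, Finset.mem_sdiff, Finset.mem_univ, true_and]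
      tauto
    have hG : GoodU sh KK cl m n := by
      refine ⟨?_, ?_, ?_⟩
      · intro h hh hpr
        have : h ∈ P ∩ KK := Finset.mem_inter.2 ⟨by
          rw [hP, Finset.mem_filter]; exact ⟨Finset.mem_univ _, hpr⟩, hh⟩
        rw [hc.1] at this
        exact absurd this (Finset.notMem_empty _)
      · intro i
        refine le_trans (Finset.card_le_card ?_) (hc.2.1 i)
        intro h hh
        rw [hPK]
        simp only [Finset.mem_filter] at hh ⊢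
        tauto
      · rw [← hPK]
        exact hc.2.2
    rw [if_pos hG, if_pos hc]
  · split_ifs
    exacts [hOm, le_refl _]

/-- Powers of `2 + card`. -/
theorem GENU_pow (c : ℕ) (N0 N3 : ℕ) (A : ℝ) (hA : 1 ≤ A) (h3 : 8 * (2 * A + 3) ≤ 2 ^ N3) :
    ((c : ℝ) + 2 * A + 3) * (2 + (c : ℝ)) ^ N0 * 4 ≤ (2 + (c : ℝ)) ^ (N0 + N3 + 1) := by
  have hc : (0 : ℝ) ≤ c := Nat.cast_nonneg c
  have h1 : (2 : ℝ) ^ N3 ≤ (2 + (c : ℝ)) ^ N3 := by
    apply pow_le_pow_left₀ (by norm_num)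
    linarith
  have h2 : ((c : ℝ) + 2 * A + 3) * 4 ≤ (2 + (c : ℝ)) ^ N3 * (2 + (c : ℝ)) := by
    have h4 : 8 * (2 * A + 3) * (2 + (c : ℝ)) ≤ (2 + (c : ℝ)) ^ N3 * (2 + (c : ℝ)) := by
      gcongr
      exact h3.trans h1
    nlinarith
  have h5 : (0 : ℝ) ≤ (2 + (c : ℝ)) ^ N0 := by positivity
  calc ((c : ℝ) + 2 * A + 3) * (2 + (c : ℝ)) ^ N0 * 4
      = (((c : ℝ) + 2 * A + 3) * 4) * (2 + (c : ℝ)) ^ N0 := by ring
    _ ≤ ((2 + (c : ℝ)) ^ N3 * (2 + (c : ℝ))) * (2 + (c : ℝ)) ^ N0 := by gcongr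
    _ = (2 + (c : ℝ)) ^ (N0 + N3 + 1) := by ring

/-- The final step: Cauchy and Schwarz. -/
theorem GENU_fin (NN : Finset ℕ) (Om : ℕ → ℝ) (G : ℕ → Prop) [DecidablePred G] (A B c₀ X T : ℝ)
    (hA : 1 ≤ A) (hB : 0 ≤ B) (hc : 0 < c₀) (hX : 0 < X) (hT : c₀ * X / 2 ≤ T)
    (h1 : T ≤ ∑ n ∈ NN, if G n then A * Om n else 0) (h2 : ∑ n ∈ NN, Om n ^ 2 ≤ X * (B + 2)) :
    c₀ ^ 2 * X / (16 * A ^ 2 * (B + 2)) ≤ ((NN.filter G).card : ℝ) := by
  rw [← Finset.sum_filter, ← Finset.mul_sum] at h1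
  have h3 : (∑ n ∈ NN.filter G, Om n) ^ 2 ≤ ((NN.filter G).card : ℝ) * ∑ n ∈ NN.filter G, Om n ^ 2 :=
    sq_sum_le_card_mul_sum_sq
  have h4 : ∑ n ∈ NN.filter G, Om n ^ 2 ≤ X * (B + 2) :=
    le_trans (Finset.sum_le_sum_of_subset_of_nonneg (Finset.filter_subset _ _)
      fun _ _ _ => sq_nonneg _) h2
  have h5 : c₀ * X / 2 ≤ A * ∑ n ∈ NN.filter G, Om n := hT.trans h1
  have h6 : 0 ≤ c₀ * X / 2 := by positivity
  have h7 : (c₀ * X / 2) ^ 2 ≤ (A * ∑ n ∈ NN.filter G, Om n) ^ 2 := pow_le_pow_left₀ h6 h5 2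
  have hcard : (0 : ℝ) ≤ ((NN.filter G).card : ℝ) := Nat.cast_nonneg _
  have h8 : (c₀ * X / 2) ^ 2 ≤ A ^ 2 * (((NN.filter G).card : ℝ) * (X * (B + 2))) := by
    calc (c₀ * X / 2) ^ 2 ≤ (A * ∑ n ∈ NN.filter G, Om n) ^ 2 := h7
      _ = A ^ 2 * (∑ n ∈ NN.filter G, Om n) ^ 2 := by ring
      _ ≤ A ^ 2 * (((NN.filter G).card : ℝ) * (X * (B + 2))) := by
          gcongr
          exact h3.trans (by gcongr)
  rw [div_le_iff₀ (by positivity)]
  have h9 : c₀ ^ 2 * X * X ≤ ((NN.filter G).card : ℝ) * (16 * A ^ 2 * (B + 2)) * X := by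
    have e1 : 0 ≤ A ^ 2 * (((NN.filter G).card : ℝ) * (X * (B + 2))) := by positivity
    nlinarith
  exact le_of_mul_le_mul_right h9 hX

theorem p_GENU (hUSA : Stmt_USA) (hUSP : Stmt_USP) (hUIN : Stmt_UIN) (hPWU : Stmt_PWU)
    (hFRE : Stmt_FRE) : Stmt_GENU := by
  classical
  intro J k m A hJ hA
  obtain ⟨N1, hN1⟩ := hUSA J k (A + 1) (by linarith) hJ
  obtain ⟨N2, hN2⟩ := hUSP J k hJ
  obtain ⟨N3, hN3⟩ : ∃ N3 : ℕ, 8 * (2 * A + 3) ≤ (2 : ℝ) ^ N3 := by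
    obtain ⟨N3, h⟩ := pow_unbounded_of_one_lt (8 * (2 * A + 3)) (by norm_num : (1 : ℝ) < 2)
    exact ⟨N3, h.le⟩
  refine ⟨max N1 N2 + N3 + 1, ?_⟩
  intro w z I X ι _ _ sh KK cl θ M₁ B c₀ Q hz hwz hJI hX hcard hBlk hshd hsh hθ hθ1 hθA hmA hM hB
    hc₀ hc₁ hQ hloc hLV0 hLV1
  set c : ℕ := Fintype.card ι with hc
  set N0 := max N1 N2 with hN0
  set δ : ℝ := c₀ * X / (2 + (c : ℝ)) ^ (N0 + N3 + 1) with hδ
  have hzI : z ≤ z ^ 2 ^ I := Nat.le_self_pow (by positivity) z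
  have hXpos : 0 < X := by omega
  have hX0 : (0 : ℝ) < X := by exact_mod_cast hXpos
  have hK : (0 : ℝ) < (2 + (c : ℝ)) ^ (N0 + N3 + 1) := by positivity
  have hδ0 : 0 ≤ δ := by rw [hδ]; positivity
  -- the errors
  have herr : ((c : ℝ) + 2 * A + 3) * ((2 + (c : ℝ)) ^ N0 * δ) ≤ c₀ * X / 4 := by
    have h1 := GENU_pow c N0 N3 A hA hN3
    have h2 : ((c : ℝ) + 2 * A + 3) * ((2 + (c : ℝ)) ^ N0 * δ) =
        (((c : ℝ) + 2 * A + 3) * (2 + (c : ℝ)) ^ N0 * 4) * (c₀ * X / 4) /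
          (2 + (c : ℝ)) ^ (N0 + N3 + 1) := by
      rw [hδ]; field_simp
    rw [h2, div_le_iff₀ hK]
    have h3 : (0 : ℝ) ≤ c₀ * X / 4 := by positivity
    nlinarith
  have hc0 : (0 : ℝ) ≤ c := Nat.cast_nonneg c
  have hE0 : 0 ≤ (2 + (c : ℝ)) ^ N0 * δ := by positivity
  have hp1 : (2 + (c : ℝ)) ^ N1 * δ ≤ (2 + (c : ℝ)) ^ N0 * δ := by
    gcongr
    · linarith
    · exact le_max_left _ _
  have hp2 : (2 + (c : ℝ)) ^ N2 * δ ≤ (2 + (c : ℝ)) ^ N0 * δ := by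
    gcongr
    · linarith
    · exact le_max_right _ _
  set E : ℝ := (2 + (c : ℝ)) ^ N0 * δ with hE
  -- all integers
  have hα : ∀ a a', |alU θ A cl a a'| ≤ A + 1 := by
    intro a a'
    unfold alU
    split_ifs
    · simp; linarith
    · rw [abs_of_nonneg (by linarith)]; linarith
    · rw [abs_of_nonneg (by linarith)]; linarith
  obtain ⟨a1, a2, a3, a4⟩ := hN1 w z I ι sh KK (alU θ A cl) (Ioc X (2 * X)) X Q δ hz hwz hJI hBlk
    hshd hα hQ (GENU_LV _ N1 0 (by omega) _ _ _ _ hLV0)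
  set OMN : ℕ → ℝ := fun n =>
    OmQ (fQ z I J) (Sset (tb (prQ w z I) sh n)) KK k 2 (lg (tb (prQ w z I) sh n)) with hOMN
  set BDN : ℕ → ℝ := fun n =>
    BdQ (fQ z I J) (rQ z I) (Sset (tb (prQ w z I) sh n)) KK k 2 (lg (tb (prQ w z I) sh n))
    with hBDN
  set PAN : ℕ → ℝ := fun n =>
    PaQ (fQ z I J) (rQ z I) (alU θ A cl) (Sset (tb (prQ w z I) sh n)) KK k 2
      (lg (tb (prQ w z I) sh n)) with hPAN
  set PRN : ι → ℕ → ℝ := fun h0 n =>
    PrQ (fQ z I J) (Sset (tb (prQ w z I) sh n)) KK k 2 h0 (lg (tb (prQ w z I) sh n)) with hPRN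
  set mOm : (SPt w → ℕ) → ℝ := fun ω => EN (dQ 0 z I) (OmQ (fQ z I J) (SwU sh ω) KK k 2)
    with hmOm
  set mO2 : (SPt w → ℕ) → ℝ := fun ω =>
    EN (dQ 0 z I) (fun t => OmQ (fQ z I J) (SwU sh ω) KK k 2 t ^ 2) with hmO2
  set mBd : (SPt w → ℕ) → ℝ := fun ω =>
    EN (dQ 0 z I) (BdQ (fQ z I J) (rQ z I) (SwU sh ω) KK k 2) with hmBd
  set mPa : (SPt w → ℕ) → ℝ := fun ω =>
    EN (dQ 0 z I) (PaQ (fQ z I J) (rQ z I) (alU θ A cl) (SwU sh ω) KK k 2) with hmPa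
  set mPr : ι → (SPt w → ℕ) → ℝ := fun h0 ω =>
    EN (dQ 1 z I) (fun t : {h : ι // h ≠ h0} → Finset (LPt z I) =>
      PrQ (fQ z I J) (SwU sh ω) KK k 2 h0 (ext h0 t)) with hmPr
  set VP : ℝ := ∏ y : SPt w, (y : ℝ) / ((y : ℝ) - 1) with hVP
  have hVP0 : 0 ≤ VP := by
    rw [hVP]
    refine Finset.prod_nonneg fun y _ => ?_
    have h1 := (GENU_SP y).1.one_lt
    have h3 : (1 : ℝ) < ((y : ℕ) : ℝ) := by exact_mod_cast h1
    exact div_nonneg (by linarith) (by linarith)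
  have hmPr0 : ∀ h0 ω, 0 ≤ mPr h0 ω := by
    intro h0 ω
    refine GENU_EN_nonneg _ ?_ ?_ _ fun t => GENU_PrQ_nonneg _ _ _ _ _ _ _
    · intro x
      have h1 := (GENU_LP x).1.one_lt
      have h3 : (1 : ℝ) < ((x : ℕ) : ℝ) := by exact_mod_cast h1
      unfold dQ qc
      exact div_nonneg zero_le_one (by push_cast; linarith)
    · intro x
      have h1 := (GENU_LP x).2.1
      have h2 : Fintype.card {h : ι // h ≠ h0} ≤ Fintype.card ι := Fintype.card_subtype_le _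
      have h3 : (z : ℝ) + 1 ≤ ((x : ℕ) : ℝ) := by exact_mod_cast h1
      have h4 : ((Fintype.card {h : ι // h ≠ h0} : ℕ) : ℝ) ≤ z := by
        exact_mod_cast (h2.trans hcard.le)
      have h5 : (0 : ℝ) < (z : ℝ) := by
        have : 0 < z := by omega
        exact_mod_cast this
      unfold dQ qc
      rw [mul_one_div, div_le_one (by push_cast; linarith)]
      push_cast
      linarith
  -- the primes
  have hprime : ∀ h0 ∈ univ \ KK, M₁ * (VP * avQ 0 w (fun ω => if h0 ∈ SwU sh ω then mPr h0 ω else 0)) -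
      E ≤ ∑ n ∈ Ioc X (2 * X), (if (n + (sh h0).toNat).Prime then PRN h0 n else 0) := by
    intro h0 hh0
    have hh0' : h0 ∉ KK := (Finset.mem_sdiff.1 hh0).2
    obtain ⟨M', hM', hLV⟩ := hLV1 h0 hh0'
    have hs := hsh h0
    have hshift := GENU_shift X (sh h0).toNat (PRN h0) (fun p => prU w z I J k KK sh h0 p) (by
      intro n hn hpr
      rw [Finset.mem_Ioc] at hn
      refine (hUIN w z I J k ι KK sh h0 n (n + (sh h0).toNat) hz hwz ?_ hpr ?_).symm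
      · push_cast
        omega
      · omega)
    rw [hshift]
    have h1 := hN2 w z I ι sh KK h0
      ((Ioc (X + (sh h0).toNat) (2 * X + (sh h0).toNat)).filter Nat.Prime) M' Q δ hz hwz hJI hBlk
      hh0' hshd (by
        intro n hn p hp hpz hd
        rw [Finset.mem_filter, Finset.mem_Ioc] at hn
        have := (Nat.prime_dvd_prime_iff_eq hp hn.2).1 hd
        omega) hQ (GENU_LV _ N2 1 (by omega) _ _ _ _ hLV)
    have h2 := (abs_le.1 h1).1
    have h3 : 0 ≤ VP * avQ 0 w (fun ω => if h0 ∈ SwU sh ω then mPr h0 ω else 0) := by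
      refine mul_nonneg hVP0 ?_
      have := GENU_av_mono 0 w (by norm_num) (fun _ => 0)
        (fun ω => if h0 ∈ SwU sh ω then mPr h0 ω else 0) (by
          intro ω _
          split_ifs
          · exact hmPr0 h0 ω
          · exact le_refl _)
      rwa [GENU_av_const] at this
    have h4 : M₁ * (VP * avQ 0 w (fun ω => if h0 ∈ SwU sh ω then mPr h0 ω else 0)) ≤
        M' * (VP * avQ 0 w (fun ω => if h0 ∈ SwU sh ω then mPr h0 ω else 0)) := by
      gcongr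
    linarith
  have hR : ∀ ω : SPt w → ℕ, ∑ h0 ∈ univ \ KK, (if h0 ∈ SwU sh ω then mPr h0 ω else 0) =
      ∑ h0 ∈ SwU sh ω \ KK, mPr h0 ω := by
    intro ω
    rw [← Finset.sum_filter]
    refine Finset.sum_congr ?_ fun _ _ => rfl
    ext h
    simp only [Finset.mem_filter, Finset.mem_sdiff, Finset.mem_univ, true_and]
    tauto
  -- the average of the local inequality
  have hav : c₀ + (m * avQ 0 w mOm + avQ 0 w mPa + A * avQ 0 w mBd) ≤
      M₁ / X * VP * avQ 0 w (fun ω => ∑ h0 ∈ SwU sh ω \ KK, mPr h0 ω) := by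
    have h1 := GENU_av_mono 0 w (by norm_num)
      (fun ω => c₀ + (m * mOm ω + mPa ω + A * mBd ω))
      (fun ω => M₁ / X * VP * ∑ h0 ∈ SwU sh ω \ KK, mPr h0 ω) (fun ω _ => (hloc ω).1)
    rw [GENU_av_mul] at h1
    have h2 : avQ 0 w (fun ω => c₀ + (m * mOm ω + mPa ω + A * mBd ω)) =
        c₀ + (m * avQ 0 w mOm + avQ 0 w mPa + A * avQ 0 w mBd) := by
      rw [GENU_av_add, GENU_av_const, GENU_av_add, GENU_av_add, GENU_av_mul, GENU_av_mul]
    rw [h2] at h1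
    exact h1
  rw [← hc] at a1 a2 a3 a4
  set S1 : ℝ := ∑ n ∈ Ioc X (2 * X), ∑ h0 ∈ univ \ KK,
    (if (n + (sh h0).toNat).Prime then PRN h0 n else 0) with hS1
  have hS1' : M₁ * VP * avQ 0 w (fun ω => ∑ h0 ∈ SwU sh ω \ KK, mPr h0 ω) - c * E ≤ S1 := by
    have e1 : S1 = ∑ h0 ∈ univ \ KK, ∑ n ∈ Ioc X (2 * X),
        (if (n + (sh h0).toNat).Prime then PRN h0 n else 0) := by
      rw [hS1, Finset.sum_comm]
    have e2 := Finset.sum_le_sum hprime
    rw [← e1, Finset.sum_sub_distrib, Finset.sum_const, nsmul_eq_mul, ← Finset.mul_sum,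
      ← Finset.mul_sum, ← GENU_av_sum] at e2
    simp only [hR] at e2
    have e3 : (((univ \ KK : Finset ι).card : ℕ) : ℝ) ≤ c := by
      rw [hc]
      exact_mod_cast Finset.card_le_univ _
    have e4 : (((univ \ KK : Finset ι).card : ℕ) : ℝ) * E ≤ c * E := by gcongr
    linarith
  have hXM : X * (M₁ / X * VP * avQ 0 w (fun ω => ∑ h0 ∈ SwU sh ω \ KK, mPr h0 ω)) =
      M₁ * VP * avQ 0 w (fun ω => ∑ h0 ∈ SwU sh ω \ KK, mPr h0 ω) := by
    field_simp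
  have hav' := mul_le_mul_of_nonneg_left hav hX0.le
  rw [hXM] at hav'
  have b1 : ∑ n ∈ Ioc X (2 * X), OMN n ≤ X * avQ 0 w mOm + E := by
    have := (abs_le.1 a1).2
    linarith
  have b2 : ∑ n ∈ Ioc X (2 * X), OMN n ^ 2 ≤ X * avQ 0 w mO2 + E := by
    have := (abs_le.1 a2).2
    simp only [hOMN]
    linarith
  have b3 : ∑ n ∈ Ioc X (2 * X), BDN n ≤ X * avQ 0 w mBd + E := by
    have := (abs_le.1 a3).2
    linarith
  have b4 : ∑ n ∈ Ioc X (2 * X), PAN n ≤ X * avQ 0 w mPa + E := by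
    have := (abs_le.1 a4).2
    linarith
  have hm0 : (0 : ℝ) ≤ m := Nat.cast_nonneg m
  have b1' := mul_le_mul_of_nonneg_left b1 hm0
  have b3' := mul_le_mul_of_nonneg_left b3 (by linarith : (0 : ℝ) ≤ A)
  have hO2 : avQ 0 w mO2 ≤ B := by
    have h1 := GENU_av_mono 0 w (by norm_num) mO2 (fun _ => B) (fun ω _ => (hloc ω).2)
    rwa [GENU_av_const] at h1
  have hEX : E ≤ X := by
    have h1 : 1 * E ≤ ((c : ℝ) + 2 * A + 3) * E := by
      gcongr
      linarith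
    have h2 : c₀ * X ≤ 1 * X := by gcongr
    linarith
  have hmE : (m : ℝ) * E ≤ A * E := by gcongr
  refine GENU_fin (Ioc X (2 * X)) OMN (fun n => GoodU sh KK cl m n) A B c₀ X
    (S1 - (m * ∑ n ∈ Ioc X (2 * X), OMN n + ∑ n ∈ Ioc X (2 * X), PAN n +
      A * ∑ n ∈ Ioc X (2 * X), BDN n)) hA hB hc₀ hX0 ?_ ?_ ?_
  · have hcX := mul_pos hc₀ hX0
    linarith
  · have e1 : S1 - (m * ∑ n ∈ Ioc X (2 * X), OMN n + ∑ n ∈ Ioc X (2 * X), PAN n +
        A * ∑ n ∈ Ioc X (2 * X), BDN n) = ∑ n ∈ Ioc X (2 * X),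
        (∑ h0 ∈ univ \ KK, (if (n + (sh h0).toNat).Prime then PRN h0 n else 0) -
          (m * OMN n + PAN n + A * BDN n)) := by
      rw [Finset.sum_sub_distrib, Finset.sum_add_distrib, Finset.sum_add_distrib,
        ← Finset.mul_sum, ← Finset.mul_sum]
    rw [e1]
    refine Finset.sum_le_sum fun n hn => ?_
    exact GENU_point hPWU hFRE w z I J k m X ι sh KK cl θ A hJ hwz hJI hX hBlk hsh hθ hθ1 hθA
      n (Finset.mem_Ioc.1 hn).1
  · have h1 : X * avQ 0 w mO2 ≤ X * B := by gcongr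
    linarith

end Pool.PP
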