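import Pool.Agent.Work.MP_b0c12c_px.UDefs

/-! # Block PLBS: many primes in short shifts of (X, 2X] (helper94) -/

set_option autoImplicit false

namespace Pool.PP

open Finset Filter

theorem p_PLBS (h : Stmt_PLB) : Stmt_PLBS := by
  obtain ⟨c, hc, hev⟩ := h
  refine ⟨c / 2, by positivity, ?_⟩
  -- primes of (X, 2X] minus the primes of (X, X + s]
  have hlog : ∀ᶠ X : ℕ in atTop, 2 * Real.log X ≤ c * √X := by
    have h1 := (isLittleO_log_rpow_atTop (show (0 : ℝ) < 1 / 2 by norm_num)).def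
      (show 0 < c / 2 by positivity)
    have h2 := tendsto_natCast_atTop_atTop (R := ℝ) |>.eventually h1
    filter_upwards [h2, eventually_ge_atTop 1] with X hX h1X
    have hX1 : (1 : ℝ) ≤ X := by exact_mod_cast h1X
    have h3 : ‖Real.log (X : ℝ)‖ ≤ c / 2 * ‖(X : ℝ) ^ (1 / 2 : ℝ)‖ := hX
    rw [Real.norm_of_nonneg (Real.log_nonneg hX1), ← Real.sqrt_eq_rpow,
      Real.norm_of_nonneg (Real.sqrt_nonneg _)] at h3
    linarith
  filter_upwards [hev, hlog, eventually_ge_atTop 2] with X hX hXl hX2 s hs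
  have hXr : (2 : ℝ) ≤ X := by exact_mod_cast hX2
  have hL : 0 < Real.log X := Real.log_pos (by linarith)
  have hsub : (Ioc X (2 * X)).filter Nat.Prime ⊆
      (Ioc (X + s) (2 * X + s)).filter Nat.Prime ∪ Ioc X (X + s) := by
    intro p hp
    rw [Finset.mem_filter, Finset.mem_Ioc] at hp
    rw [Finset.mem_union, Finset.mem_filter, Finset.mem_Ioc, Finset.mem_Ioc]
    by_cases h1 : X + s < p
    · left
      exact ⟨⟨h1, by omega⟩, hp.2⟩
    · right
      exact ⟨hp.1.1, by omega⟩
  have hcard := (Finset.card_le_card hsub).trans (Finset.card_union_le _ _)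
  rw [Nat.card_Ioc, Nat.add_sub_cancel_left] at hcard
  have hcard' : (((Ioc X (2 * X)).filter Nat.Prime).card : ℝ) ≤
      (((Ioc (X + s) (2 * X + s)).filter Nat.Prime).card : ℝ) + s := by exact_mod_cast hcard
  have hsX : (s : ℝ) ≤ c / 2 * (X / Real.log X) := by
    refine hs.trans ?_
    rw [mul_div_assoc', le_div_iff₀ hL]
    have h1 : √(X : ℝ) * √(X : ℝ) = X := Real.mul_self_sqrt (by linarith)
    have h2 : 0 ≤ √(X : ℝ) := Real.sqrt_nonneg _
    calc √(X : ℝ) * Real.log X ≤ √(X : ℝ) * (c / 2 * √(X : ℝ)) := by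
          gcongr
          linarith
      _ = c / 2 * (√(X : ℝ) * √(X : ℝ)) := by ring
      _ = c / 2 * X := by rw [h1]
  linarith

end Pool.PP
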