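import Pool.Agent.Work.MP_b0c12c_px.UDefs
import Pool.Agent.Work.MP_3a3367_nt_log.SAP
import Pool.Agent.Work.MP_3a3367_nt_log.FL
import Pool.Agent.Work.MP_3a3367_nt_log.MER

/-! # Block SVL (helper19): survivors of the small primes in every interval -/

set_option autoImplicit false

namespace Pool.PP

open Finset Filter

namespace SVL

open Pool.Agent.Work.MP_3a3367_nt_log

/-- Simultaneous residues, as large as one likes. -/
lemma crt (w : ℕ) (ω : ℕ → ℕ) (B : ℕ) :
    ∃ n : ℕ, B ≤ n ∧ ∀ p ∈ SP w, n ≡ ω p [MOD p] := by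
  classical
  have hpr : ∀ p ∈ SP w, p.Prime := fun p hp => (mem_filter.mp hp).2
  obtain ⟨k, hk⟩ := Nat.chineseRemainderOfFinset ω id (SP w)
    (fun p hp => (hpr p hp).ne_zero)
    (fun p hp q hq hpq => (Nat.coprime_primes (hpr p hp) (hpr q hq)).mpr hpq)
  refine ⟨k + B * ∏ p ∈ SP w, p, ?_, fun p hp => ?_⟩
  · have : 0 < ∏ p ∈ SP w, p := prod_pos fun p hp => (hpr p hp).pos
    nlinarith
  · have h1 : p ∣ B * ∏ p ∈ SP w, p := Dvd.dvd.mul_left (dvd_prod_of_mem _ hp) _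
    have h2 : k + B * ∏ p ∈ SP w, p ≡ k [MOD p] := by
      have := (Nat.modEq_zero_iff_dvd.mpr h1)
      simpa using this.add_left k
    exact h2.trans (hk p hp)

/-- The survivors as integers without small prime factor. -/
lemma card_eq (w : ℕ) (ω : ℕ → ℕ) (x : ℤ) (len : ℕ) :
    ∃ y : ℕ, ((Ioc x (x + len)).filter (fun h : ℤ => ∀ p ∈ SP w,
      ¬ (p : ℤ) ∣ (ω p : ℤ) + h)).card = (Rg (SP w) y len).card := by
  classical
  obtain ⟨n, hn, hmod⟩ := crt w ω x.natAbs
  have hnx : 0 ≤ (n : ℤ) + x := by omega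
  obtain ⟨y, hy⟩ := Int.eq_ofNat_of_zero_le hnx
  refine ⟨y, ?_⟩
  have hdv : ∀ p ∈ SP w, ∀ h : ℤ, (p : ℤ) ∣ (ω p : ℤ) + h ↔ (p : ℤ) ∣ (n : ℤ) + h := by
    intro p hp h
    have h1 : (p : ℤ) ∣ (n : ℤ) - (ω p : ℤ) := by
      have := (Nat.modEq_iff_dvd.mp (hmod p hp).symm)
      exact this
    constructor
    · intro h2
      have := dvd_add h1 h2
      rwa [show (n : ℤ) - (ω p : ℤ) + ((ω p : ℤ) + h) = (n : ℤ) + h by ring] at this
    · intro h2
      have := dvd_sub h2 h1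
      rwa [show (n : ℤ) + h - ((n : ℤ) - (ω p : ℤ)) = (ω p : ℤ) + h by ring] at this
  refine card_bij (fun h _ => ((n : ℤ) + h).toNat) ?_ ?_ ?_
  · intro h hh
    rw [mem_filter, mem_Ioc] at hh
    unfold Rg
    rw [mem_filter, mem_Ioc]
    have h0 : 0 ≤ (n : ℤ) + h := by omega
    refine ⟨⟨by omega, by omega⟩, fun p hp hd => ?_⟩
    apply hh.2 p hp
    rw [hdv p hp]
    have : (p : ℤ) ∣ ((((n : ℤ) + h).toNat : ℕ) : ℤ) := by exact_mod_cast hd
    rwa [Int.toNat_of_nonneg h0] at this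
  · intro h hh h' hh' he
    rw [mem_filter, mem_Ioc] at hh hh'
    omega
  · intro m hm
    unfold Rg at hm
    rw [mem_filter, mem_Ioc] at hm
    refine ⟨(m : ℤ) - n, ?_, by simp⟩
    rw [mem_filter, mem_Ioc]
    refine ⟨⟨by omega, by omega⟩, fun p hp hd => ?_⟩
    rw [hdv p hp] at hd
    apply hm.2 p hp
    have : (p : ℤ) ∣ (m : ℤ) := by simpa using hd
    exact_mod_cast this

end SVL

open SVL Pool.Agent.Work.MP_3a3367_nt_log in
theorem p_SVL : Stmt_SVL := by
  classical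
  obtain ⟨s, hs, hSAP⟩ := stmt_SAP stmt_FL (1 / 2) (by norm_num)
  obtain ⟨C, c, hC, hc, hM⟩ := stmt_MER
  have hs0 : 0 < s := by linarith
  have hC0 : 0 < C := by linarith
  obtain ⟨β, hβ⟩ : ∃ β : ℝ, β = 1 / (2 * s) := ⟨_, rfl⟩
  have hβ0 : 0 < β := by rw [hβ]; positivity
  have hβ1 : β ≤ 1 / 2 := by
    rw [hβ, div_le_div_iff₀ (by positivity) (by norm_num)]
    linarith
  have hβs : β * s = 1 / 2 := by rw [hβ]; field_simp
  have hSP : ∀ z : ℝ, SP ⌊z⌋₊ = UP ∅ z := by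
    intro z
    rw [MERaux.UP_eq]
    rfl
  have hz2 : ∀ᶠ L : ℝ in atTop, 2 ≤ L ^ β ∧ 2 ≤ L := by
    filter_upwards [(tendsto_rpow_atTop hβ0).eventually_ge_atTop 2, eventually_ge_atTop 2]
      with L h1 h2
    exact ⟨h1, h2⟩
  refine ⟨β, min (c / (4 * β)) (β / C), 2 * C / β, hβ0, hβ1, by positivity, by positivity, ?_, ?_⟩
  · filter_upwards [hz2] with L ⟨hL1, hL2⟩
    have hL0 : 0 < L := by linarith
    have hlogL : 0 < Real.log L := Real.log_pos (by linarith)
    have hlz : Real.log (L ^ β) = β * Real.log L := Real.log_rpow hL0 β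
    have hV := (hM (L ^ β) hL1).2.2.2.2.1
    have hVV : VV (UP ∅ (L ^ β)) ≤ C / (β * Real.log L) := by rw [← hlz]; exact hV
    have hprod : (∏ y : SPt ⌊L ^ β⌋₊, (y : ℝ) / ((y : ℝ) - 1)) =
        (VV (UP ∅ (L ^ β)))⁻¹ := by
      have h1 : (∏ y : SPt ⌊L ^ β⌋₊, (y : ℝ) / ((y : ℝ) - 1)) =
          ∏ p ∈ SP ⌊L ^ β⌋₊, (p : ℝ) / ((p : ℝ) - 1) :=
        Finset.prod_coe_sort (SP ⌊L ^ β⌋₊) (fun p : ℕ => (p : ℝ) / ((p : ℝ) - 1))
      rw [h1, ← hSP]
      unfold VV
      rw [← prod_inv_distrib]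
      refine prod_congr rfl fun p hp => ?_
      have hpp : p.Prime := (mem_filter.mp hp).2
      have : (1 : ℝ) < p := by exact_mod_cast hpp.one_lt
      have h3 : (p : ℝ) - 1 ≠ 0 := by linarith
      have h4 : (p : ℝ) ≠ 0 := by linarith
      field_simp
    have hVpos : 0 < VV (UP ∅ (L ^ β)) := by
      have h1 := (hM (L ^ β) hL1).2.2.2.1
      rw [hlz] at h1
      exact lt_of_lt_of_le (by positivity) h1
    rw [hprod]
    calc min (c / (4 * β)) (β / C) * Real.log L ≤ β / C * Real.log L :=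
          mul_le_mul_of_nonneg_right (min_le_right _ _) hlogL.le
      _ = (C / (β * Real.log L))⁻¹ := by field_simp
      _ ≤ (VV (UP ∅ (L ^ β)))⁻¹ := inv_anti₀ hVpos hVV
  · intro δ hδ
    have hsmall : ∀ᶠ L : ℝ in atTop, Real.log L * L ^ (1 / 2 : ℝ) ≤
        min (c / (4 * β)) (C / (2 * β)) * δ * L := by
      have h0 : 0 < min (c / (4 * β)) (C / (2 * β)) * δ := by positivity
      have h := (isLittleO_log_rpow_atTop (r := 1 / 2) (by norm_num)).bound h0
      filter_upwards [h, eventually_ge_atTop 1] with L hL hL1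
      have hL0 : 0 < L := by linarith
      rw [Real.norm_eq_abs, Real.norm_eq_abs, abs_of_nonneg (Real.log_nonneg hL1),
        abs_of_nonneg (by positivity)] at hL
      calc Real.log L * L ^ (1 / 2 : ℝ) ≤
          (min (c / (4 * β)) (C / (2 * β)) * δ * L ^ (1 / 2 : ℝ)) * L ^ (1 / 2 : ℝ) :=
            mul_le_mul_of_nonneg_right hL (by positivity)
        _ = min (c / (4 * β)) (C / (2 * β)) * δ * (L ^ (1 / 2 : ℝ) * L ^ (1 / 2 : ℝ)) := by ring
        _ = _ := by
          rw [← Real.rpow_add hL0]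
          norm_num
    filter_upwards [hz2, hsmall] with L ⟨hL1, hL2⟩ hL3 ω x len hlen _
    have hL0 : 0 < L := by linarith
    have hlogL : 0 < Real.log L := Real.log_pos (by linarith)
    have hlz : Real.log (L ^ β) = β * Real.log L := Real.log_rpow hL0 β
    obtain ⟨y, hy⟩ := card_eq ⌊L ^ β⌋₊ ω x len
    rw [hy]
    have hPp : ∀ p ∈ SP ⌊L ^ β⌋₊, p.Prime ∧ (p : ℝ) ≤ L ^ β := by
      intro p hp
      unfold SP at hp
      rw [mem_filter, mem_Icc] at hp
      exact ⟨hp.2, (Nat.le_floor_iff (by linarith)).mp hp.1.2⟩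
    obtain ⟨hlo, hup⟩ := hSAP (SP ⌊L ^ β⌋₊) (L ^ β) hL1 hPp y len 1 0 one_pos
      (fun p _ => Nat.coprime_one_left p)
    have hfil : (Rg (SP ⌊L ^ β⌋₊) y len).filter (fun m => m ≡ 0 [MOD 1]) =
        Rg (SP ⌊L ^ β⌋₊) y len := by
      rw [filter_true_of_mem]
      intro m _
      exact Nat.modEq_one
    have hfilc : (#((Rg (SP ⌊L ^ β⌋₊) y len).filter (fun m => m ≡ 0 [MOD 1])) : ℝ) =
        ((Rg (SP ⌊L ^ β⌋₊) y len).card : ℝ) := by
      rw [← hfil]
      congr 2
      ext m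
      simp [Nat.modEq_one]
    rw [hfilc] at hlo hup
    have hzs : (L ^ β) ^ s = L ^ (1 / 2 : ℝ) := by
      rw [← Real.rpow_mul hL0.le, hβs]
    rw [hzs] at hlo hup
    have hV1 := (hM (L ^ β) hL1).2.2.2.1
    have hV2 := (hM (L ^ β) hL1).2.2.2.2.1
    rw [hlz, ← hSP] at hV1 hV2
    have hlen0 : (0 : ℝ) ≤ len := by positivity
    have hd1 : ((len : ℝ) / ((1 : ℕ) : ℝ)) = len := by simp
    rw [hd1] at hlo hup
    have hsm1 : L ^ (1 / 2 : ℝ) ≤ c / (4 * β) * (len / Real.log L) := by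
      rw [← mul_div_assoc, le_div_iff₀ hlogL]
      calc L ^ (1 / 2 : ℝ) * Real.log L = Real.log L * L ^ (1 / 2 : ℝ) := by ring
        _ ≤ min (c / (4 * β)) (C / (2 * β)) * δ * L := hL3
        _ = min (c / (4 * β)) (C / (2 * β)) * (δ * L) := by ring
        _ ≤ c / (4 * β) * len :=
          mul_le_mul (min_le_left _ _) hlen (by positivity) (by positivity)
    have hsm2 : L ^ (1 / 2 : ℝ) ≤ C / (2 * β) * (len / Real.log L) := by
      rw [← mul_div_assoc, le_div_iff₀ hlogL]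
      calc L ^ (1 / 2 : ℝ) * Real.log L = Real.log L * L ^ (1 / 2 : ℝ) := by ring
        _ ≤ min (c / (4 * β)) (C / (2 * β)) * δ * L := hL3
        _ = min (c / (4 * β)) (C / (2 * β)) * (δ * L) := by ring
        _ ≤ C / (2 * β) * len :=
          mul_le_mul (min_le_right _ _) hlen (by positivity) (by positivity)
    have hq0 : 0 ≤ (len : ℝ) / Real.log L := by positivity
    constructor
    · have h1 : (len : ℝ) * (c / (β * Real.log L)) ≤ len * VV (SP ⌊L ^ β⌋₊) :=
        mul_le_mul_of_nonneg_left hV1 hlen0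
      have h2 : (len : ℝ) * (c / (β * Real.log L)) = 4 * (c / (4 * β) * (len / Real.log L)) := by
        field_simp
      have h3 : min (c / (4 * β)) (β / C) * (len / Real.log L) ≤
          c / (4 * β) * (len / Real.log L) :=
        mul_le_mul_of_nonneg_right (min_le_left _ _) hq0
      linarith
    · have h1 : len * VV (SP ⌊L ^ β⌋₊) ≤ (len : ℝ) * (C / (β * Real.log L)) :=
        mul_le_mul_of_nonneg_left hV2 hlen0
      have h2 : (len : ℝ) * (C / (β * Real.log L)) = 2 * (C / (2 * β) * (len / Real.log L)) := by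
        field_simp
      have h3 : 2 * C / β * (len / Real.log L) = 4 * (C / (2 * β) * (len / Real.log L)) := by
        field_simp
        ring
      linarith

end Pool.PP
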