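import Pool.Agent.Work.MP_b0c12c_px.UDefs

/-! # Block UAV: change of variables for a general family of shifts (helper30, after B_QAV) -/

set_option autoImplicit false

namespace Pool.PP

open Finset Filter

lemma UAV_prime {w : ℕ} (y : SPt w) : (y : ℕ).Prime := (mem_filter.1 y.2).2

lemma UAV_pos {w : ℕ} (y : SPt w) : (0 : ℤ) < ((y : ℕ) : ℤ) := by
  exact_mod_cast (UAV_prime y).pos

/-- The shifted residue. -/
def UAV_f {w : ℕ} (c : ℤ) (ω : SPt w → ℕ) (y : SPt w) : ℕ :=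
  (((ω y : ℤ) + c) % ((y : ℕ) : ℤ)).toNat

lemma UAV_cast {w : ℕ} (c : ℤ) (ω : SPt w → ℕ) (y : SPt w) :
    ((UAV_f c ω y : ℕ) : ℤ) = ((ω y : ℤ) + c) % ((y : ℕ) : ℤ) := by
  unfold UAV_f
  exact Int.toNat_of_nonneg (Int.emod_nonneg _ (UAV_pos y).ne')

lemma UAV_lt {w : ℕ} (c : ℤ) (ω : SPt w → ℕ) (y : SPt w) : UAV_f c ω y < (y : ℕ) := by
  have h : ((UAV_f c ω y : ℕ) : ℤ) < ((y : ℕ) : ℤ) := by
    rw [UAV_cast]; exact Int.emod_lt_of_pos _ (UAV_pos y)
  exact_mod_cast h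

lemma UAV_dvd {w : ℕ} (c d : ℤ) (ω : SPt w → ℕ) (y : SPt w) :
    ((y : ℕ) : ℤ) ∣ ((UAV_f c ω y : ℕ) : ℤ) + d ↔ ((y : ℕ) : ℤ) ∣ (ω y : ℤ) + c + d := by
  rw [UAV_cast, Int.dvd_iff_emod_eq_zero, Int.dvd_iff_emod_eq_zero, Int.emod_add_emod]

lemma UAV_inv {w : ℕ} (c : ℤ) (ω : SPt w → ℕ) (y : SPt w) (h : ω y < (y : ℕ)) :
    UAV_f (-c) (UAV_f c ω) y = ω y := by
  have h1 : ((UAV_f (-c) (UAV_f c ω) y : ℕ) : ℤ) = ((ω y : ℕ) : ℤ) := by
    rw [UAV_cast, UAV_cast, Int.emod_add_emod]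
    have : (ω y : ℤ) + c + -c = ω y := by ring
    rw [this]
    exact Int.emod_eq_of_lt (by positivity) (by exact_mod_cast h)
  exact_mod_cast h1

theorem p_UAV : Stmt_UAV := by
  classical
  intro w ι _ _ sh h0 G
  have key : ∑ ω ∈ Fintype.piFinset (fun y : SPt w => Ico 1 (y : ℕ)),
      G (exS h0 (SwU (fun h : {h : ι // h ≠ h0} => sh h.1 - sh h0) ω)) =
      ∑ ω ∈ Fintype.piFinset (fun y : SPt w => Ico 0 (y : ℕ)),
        (if h0 ∈ SwU sh ω then G (SwU sh ω) else 0) := by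
    rw [← Finset.sum_filter]
    refine Finset.sum_nbij' (UAV_f (-(sh h0))) (UAV_f (sh h0)) ?_ ?_ ?_ ?_ ?_
    · intro ω hω
      rw [Fintype.mem_piFinset] at hω
      rw [mem_filter, Fintype.mem_piFinset]
      refine ⟨fun y => mem_Ico.2 ⟨Nat.zero_le _, UAV_lt _ _ _⟩, ?_⟩
      unfold SwU Sw
      rw [mem_filter]
      refine ⟨mem_univ _, fun y hy => ?_⟩
      have hy' : ((y : ℕ) : ℤ) ∣ ((UAV_f (-(sh h0)) ω y : ℕ) : ℤ) + (sh h0) := hy
      rw [UAV_dvd] at hy'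
      have e : (ω y : ℤ) + -(sh h0) + (sh h0) = ω y := by ring
      rw [e] at hy'
      have h1 := mem_Ico.1 (hω y)
      have h2 : (y : ℕ) ∣ ω y := by exact_mod_cast hy'
      have h3 := Nat.le_of_dvd (by omega) h2
      omega
    · intro ω hω
      rw [mem_filter, Fintype.mem_piFinset] at hω
      obtain ⟨h1, h2⟩ := hω
      rw [Fintype.mem_piFinset]
      intro y
      rw [mem_Ico]
      refine ⟨?_, UAV_lt _ _ _⟩
      by_contra h3
      have h4 : UAV_f (sh h0) ω y = 0 := by omega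
      have h5 : ((y : ℕ) : ℤ) ∣ ((UAV_f (sh h0) ω y : ℕ) : ℤ) + 0 := by rw [h4]; simp
      rw [UAV_dvd] at h5
      unfold SwU Sw at h2
      rw [mem_filter] at h2
      refine h2.2 y ?_
      have e : (ω y : ℤ) + (sh h0) + 0 = (ω y : ℤ) + (sh h0) := by ring
      rw [e] at h5
      exact h5
    · intro ω hω
      rw [Fintype.mem_piFinset] at hω
      funext y
      have h1 := mem_Ico.1 (hω y)
      have h2 := UAV_inv (-(sh h0)) ω y h1.2
      rw [neg_neg] at h2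
      exact h2
    · intro ω hω
      rw [mem_filter, Fintype.mem_piFinset] at hω
      funext y
      have h1 := mem_Ico.1 (hω.1 y)
      exact UAV_inv (sh h0) ω y h1.2
    · intro ω hω
      rw [Fintype.mem_piFinset] at hω
      congr 1
      ext h
      unfold exS SwU Sw
      simp only [mem_insert, mem_image, mem_filter, mem_univ, true_and]
      constructor
      · rintro (rfl | ⟨a, ha, rfl⟩)
        · intro y hy
          have hy' : ((y : ℕ) : ℤ) ∣ ((UAV_f (-(sh h)) ω y : ℕ) : ℤ) + (sh h) := hy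
          rw [UAV_dvd] at hy'
          have e : (ω y : ℤ) + -(sh h) + (sh h) = ω y := by ring
          rw [e] at hy'
          have h1 := mem_Ico.1 (hω y)
          have h2 : (y : ℕ) ∣ ω y := by exact_mod_cast hy'
          have h3 := Nat.le_of_dvd (by omega) h2
          omega
        · intro y hy
          refine ha y ?_
          have hy' : ((y : ℕ) : ℤ) ∣ ((UAV_f (-(sh h0)) ω y : ℕ) : ℤ) + (sh a.1) := hy
          rw [UAV_dvd] at hy'
          have e : (ω y : ℤ) + -(sh h0) + (sh a.1) = (ω y : ℤ) + ((sh a.1) - (sh h0)) := by ring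
          rw [e] at hy'
          exact hy'
      · intro hh
        by_cases hx : h = h0
        · exact Or.inl hx
        · refine Or.inr ⟨⟨h, hx⟩, fun y hy => ?_, rfl⟩
          refine hh y ?_
          rw [UAV_dvd]
          have e : (ω y : ℤ) + -(sh h0) + (sh h) = (ω y : ℤ) + ((sh h) - (sh h0)) := by ring
          rw [e]
          exact hy
  unfold avQ
  rw [key, Finset.prod_div_distrib]
  have hP : (∏ y : SPt w, ((y : ℕ) : ℝ)) ≠ 0 :=
    Finset.prod_ne_zero_iff.2 fun y _ => by exact_mod_cast (UAV_prime y).ne_zero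
  have hQ : (∏ y : SPt w, (((y : ℕ) : ℝ) - 1)) ≠ 0 :=
    Finset.prod_ne_zero_iff.2 fun y _ => by
      have := (UAV_prime y).one_lt
      have h2 : (1 : ℝ) < ((y : ℕ) : ℝ) := by exact_mod_cast this
      linarith
  have e1 : (∏ y : SPt w, (((y : ℕ) : ℝ) - ((1 : ℕ) : ℝ))) = ∏ y : SPt w, (((y : ℕ) : ℝ) - 1) := by
    simp
  have e0 : (∏ y : SPt w, (((y : ℕ) : ℝ) - ((0 : ℕ) : ℝ))) = ∏ y : SPt w, ((y : ℕ) : ℝ) := by
    simp
  rw [e1, e0]
  field_simp

end Pool.PP
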