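import Pool.Agent.Work.MP_b0c12c_px.UDefs

/-! # Block UIN (helper43, after B_QIN) -/

set_option autoImplicit false

namespace Pool.PP

open Finset

theorem UIN_le {w z I : ℕ} (hw : w ≤ z) (x : SPt w ⊕ LPt z I) :
    1 < prQ w z I x ∧ prQ w z I x ≤ z ^ 2 ^ I := by
  have h1 : z ≤ z ^ 2 ^ I := Nat.le_self_pow (by positivity) z
  rcases x with y | x
  · have := y.2
    unfold SP at this
    rw [mem_filter, mem_Icc] at this
    exact ⟨this.2.one_lt, (this.1.2.trans hw).trans h1⟩
  · have := x.2
    unfold LP at this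
    rw [mem_filter, mem_Ioc] at this
    exact ⟨this.2.one_lt, this.1.2⟩

/-- **Block UIN.** -/
theorem p_UIN : Stmt_UIN := by
  intro w z I J k ι _ _ KK sh h0 n p _ hw hn hp hpz
  have hnd : ∀ x : SPt w ⊕ LPt z I, ¬ (prQ w z I x : ℤ) ∣ (n : ℤ) + sh h0 := by
    intro x hx
    obtain ⟨h1, h2⟩ := UIN_le hw x
    rw [hn, Int.natCast_dvd_natCast] at hx
    rcases (Nat.dvd_prime hp).1 hx with h | h
    · omega
    · omega
  have htab : ∀ h : {h : ι // h ≠ h0},
      tb (prQ w z I) (fun h : {h : ι // h ≠ h0} => sh h.1 - sh h0) p h =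
        tb (prQ w z I) sh n h.1 := by
    intro h
    unfold tb
    refine filter_congr fun x _ => ?_
    have : (p : ℤ) + (sh h.1 - sh h0) = (n : ℤ) + sh h.1 := by rw [← hn]; ring
    rw [this]
  have htab0 : tb (prQ w z I) sh n h0 = ∅ := by
    unfold tb
    rw [filter_eq_empty_iff]
    intro x _
    exact hnd x
  have e1 : exS h0 (Sset (tb (prQ w z I) (fun h : {h : ι // h ≠ h0} => sh h.1 - sh h0) p))
      = Sset (tb (prQ w z I) sh n) := by
    ext h
    unfold exS Sset
    rw [mem_insert, mem_image, mem_filter]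
    constructor
    · rintro (h1 | ⟨h', h1, h2⟩)
      · refine ⟨mem_univ _, fun y => ?_⟩
        rw [h1, htab0]
        exact notMem_empty _
      · rw [mem_filter] at h1
        refine ⟨mem_univ _, fun y => ?_⟩
        have := h1.2 y
        rw [htab h'] at this
        rw [← h2]
        exact this
    · rintro ⟨-, h1⟩
      by_cases hh : h = h0
      · exact Or.inl hh
      · refine Or.inr ⟨⟨h, hh⟩, ?_, rfl⟩
        rw [mem_filter]
        refine ⟨mem_univ _, fun y => ?_⟩
        rw [htab ⟨h, hh⟩]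
        exact h1 y
  have e2 : ext h0 (lg (tb (prQ w z I) (fun h : {h : ι // h ≠ h0} => sh h.1 - sh h0) p))
      = lg (tb (prQ w z I) sh n) := by
    funext h
    unfold ext
    by_cases hh : h = h0
    · rw [dif_neg (by simpa using hh)]
      unfold lg
      rw [hh, htab0]
      simp
    · rw [dif_pos hh]
      unfold lg
      rw [htab ⟨h, hh⟩]
  unfold prU
  rw [e1, e2]

end Pool.PP
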