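import Pool.Agent.Work.MP_b0c12c_px.UDefs

/-! # Theorem W: block UPM (helper92) -/

set_option autoImplicit false

namespace Pool.PP

open Finset Filter

theorem p_UPM : Stmt_UPM := by
  intro C c m hC hc hc1 hm
  have hm' : (1 : ℝ) ≤ m := by exact_mod_cast hm
  have hm0 : (0 : ℝ) < m := by linarith
  have hC0 : (0 : ℝ) < C := by linarith
  obtain ⟨μ, hμ⟩ : ∃ μ : ℝ, μ = 16 * m / c := ⟨_, rfl⟩
  have hμ0 : 0 < μ := by rw [hμ]; positivity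
  obtain ⟨W, hW⟩ : ∃ W : ℝ, W = (1 + C * μ) ^ 2 := ⟨_, rfl⟩
  have hW0 : 0 < W := by rw [hW]; positivity
  obtain ⟨θ, hθ⟩ : ∃ θ : ℝ, θ = min 1 (m / (C * W)) := ⟨_, rfl⟩
  have hθ0 : 0 < θ := by rw [hθ]; exact lt_min one_pos (by positivity)
  have hθ1 : θ ≤ 1 := by rw [hθ]; exact min_le_left _ _
  have hθ2 : C * θ * W ≤ m := by
    have h1 : θ ≤ m / (C * W) := by rw [hθ]; exact min_le_right _ _
    have h2 : θ * (C * W) ≤ m := (le_div_iff₀ (by positivity)).1 h1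
    linarith [mul_comm θ (C * W), mul_assoc C θ W, mul_comm C θ, mul_assoc θ C W]
  obtain ⟨A, hA⟩ : ∃ A : ℝ, A = max (1 / θ) (max (m : ℝ) 3) := ⟨_, rfl⟩
  have hA1 : 1 / θ ≤ A := by rw [hA]; exact le_max_left _ _
  have hA2 : (m : ℝ) ≤ A := by rw [hA]; exact (le_max_left _ _).trans (le_max_right _ _)
  have hA3 : 3 ≤ A := by rw [hA]; exact (le_max_right _ _).trans (le_max_right _ _)
  have hA0 : 0 < A := by linarith
  obtain ⟨J₁, hJ₁⟩ := exists_nat_ge (max 1 (C * A * W / m))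
  have hJ1 : (1 : ℝ) ≤ J₁ := (le_max_left _ _).trans hJ₁
  have hJ0 : (0 : ℝ) < J₁ := by linarith
  have hJ2 : C * A * W / m ≤ J₁ := (le_max_right _ _).trans hJ₁
  refine ⟨θ, A, μ, J₁, hθ0, hθ1, hA1, hA2, hA3, hμ0, by exact_mod_cast hJ1, ?_, ?_, ?_, ?_⟩
  · rw [hμ]; field_simp
  · rw [← hW]; exact hθ2
  · rw [← hW]
    rw [div_le_iff₀ hm0] at hJ2
    rw [div_mul_eq_mul_div, div_le_iff₀ hJ0]
    linarith [mul_comm (J₁ : ℝ) m]
  · intro R hR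
    have t1 : ∀ᶠ J : ℕ in atTop, ((J : ℝ) ^ 2 / 2 ^ J) ≤ μ := by
      have := tendsto_pow_const_div_const_pow_of_one_lt 2 (r := (2 : ℝ)) one_lt_two
      exact (this.eventually (gt_mem_nhds hμ0)).mono fun J h => le_of_lt h
    obtain ⟨X, hX⟩ : ∃ X : ℝ, X = max 1 (max (C * R * A * (C * (2 * μ + R)) / m)
      (2 * (C * (2 * μ + R)))) := ⟨_, rfl⟩
    have t2 : ∀ᶠ J : ℕ in atTop, X ≤ (J : ℝ) := by
      obtain ⟨N, hN⟩ := exists_nat_ge X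
      filter_upwards [eventually_ge_atTop N] with J hJ
      exact hN.trans (by exact_mod_cast hJ)
    obtain ⟨J, hJa, hJb⟩ := (t1.and t2).exists
    have hJX1 : (1 : ℝ) ≤ J := le_trans (by rw [hX]; exact le_max_left _ _) hJb
    have hJX2 : C * R * A * (C * (2 * μ + R)) / m ≤ J :=
      le_trans (by rw [hX]; exact (le_max_left _ _).trans (le_max_right _ _)) hJb
    have hJX3 : 2 * (C * (2 * μ + R)) ≤ J :=
      le_trans (by rw [hX]; exact (le_max_right _ _).trans (le_max_right _ _)) hJb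
    have hJp : (0 : ℝ) < J := by linarith
    have h2J : (0 : ℝ) < 2 ^ J := by positivity
    obtain ⟨Y, hY⟩ : ∃ Y : ℝ, Y = μ * 2 ^ J / (J : ℝ) ^ 2 := ⟨_, rfl⟩
    have hY0 : 0 < Y := by rw [hY]; positivity
    have hc0 : 0 < ⌈Y⌉₊ := Nat.ceil_pos.2 hY0
    have hk : (((⌈Y⌉₊ - 1 : ℕ) : ℝ) + 1) = (⌈Y⌉₊ : ℝ) := by
      rw [Nat.cast_sub hc0]; simp
    have hk1 : Y ≤ (⌈Y⌉₊ : ℝ) := Nat.le_ceil Y
    have hk2 : (⌈Y⌉₊ : ℝ) ≤ Y + 1 := (Nat.ceil_lt_add_one hY0.le).le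
    have hYm : Y * (J : ℝ) ^ 2 / 2 ^ J = μ := by
      rw [hY]; field_simp
    have hq1 : μ ≤ (⌈Y⌉₊ : ℝ) * (J : ℝ) ^ 2 / 2 ^ J := by
      rw [← hYm]; gcongr
    have hq2 : (⌈Y⌉₊ : ℝ) * (J : ℝ) ^ 2 / 2 ^ J ≤ 2 * μ := by
      calc (⌈Y⌉₊ : ℝ) * (J : ℝ) ^ 2 / 2 ^ J ≤ (Y + 1) * (J : ℝ) ^ 2 / 2 ^ J := by gcongr
        _ = Y * (J : ℝ) ^ 2 / 2 ^ J + (J : ℝ) ^ 2 / 2 ^ J := by ring
        _ ≤ 2 * μ := by rw [hYm]; linarith
    have hq3 : (⌈Y⌉₊ : ℝ) * J / 2 ^ J + R / J ≤ (2 * μ + R) / J := by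
      have : (⌈Y⌉₊ : ℝ) * J / 2 ^ J = ((⌈Y⌉₊ : ℝ) * (J : ℝ) ^ 2 / 2 ^ J) / J := by
        field_simp
      rw [this, add_div]
      gcongr
    have hq4 : C * ((⌈Y⌉₊ : ℝ) * J / 2 ^ J + R / J) ≤ C * (2 * μ + R) / J := by
      rw [mul_div_assoc C (2 * μ + R) (J : ℝ)]
      exact mul_le_mul_of_nonneg_left hq3 hC0.le
    refine ⟨J, ⌈Y⌉₊ - 1, by exact_mod_cast hJX1, ?_, ?_, ?_, ?_⟩
    · rw [hk]
      calc C * R * A * (C * ((⌈Y⌉₊ : ℝ) * J / 2 ^ J + R / J))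
          ≤ C * R * A * (C * (2 * μ + R) / J) :=
            mul_le_mul_of_nonneg_left hq4 (by positivity)
        _ = C * R * A * (C * (2 * μ + R)) / J := by ring
        _ ≤ m := by
          rw [div_le_iff₀ hJp]
          rw [div_le_iff₀ hm0] at hJX2
          linarith [mul_comm (J : ℝ) m]
    · rw [hk]
      refine hq4.trans ?_
      rw [div_le_iff₀ hJp]
      linarith
    · rw [hk]; exact hq1
    · rw [hk]; exact hq2

end Pool.PP
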