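import Pool.Agent.Work.MP_b0c12c_px.QTr

/-! # Theorem Q, block QPB (helper64) -/

set_option autoImplicit false

namespace Pool.PP

open Finset

theorem QPB_nonempty {z I : ℕ} (x : LPt z I) :
    ({i : ℕ | (x : ℕ) ≤ z ^ 2 ^ (i + 1)} : Set ℕ).Nonempty := by
  have hx := (mem_filter.1 x.2).1
  rw [mem_Ioc] at hx
  have hz : 1 ≤ z := by
    rcases Nat.eq_zero_or_pos z with h | h
    · subst h
      have h2 : (0 : ℕ) ^ 2 ^ I = 0 := zero_pow (by positivity)
      rw [h2] at hx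
      omega
    · exact h
  exact ⟨I, hx.2.trans (Nat.pow_le_pow_right hz (Nat.pow_le_pow_right (by norm_num) (by omega)))⟩

theorem p_QPB : Stmt_QPB := by
  intro z I hz
  refine ⟨Subtype.val_injective, ?_, ?_, ?_⟩
  · intro p
    constructor
    · rintro ⟨x, rfl⟩
      have hx := mem_filter.1 x.2
      rw [mem_Ioc] at hx
      exact ⟨hx.2, hx.1.1, hx.1.2⟩
    · rintro ⟨h1, h2, h3⟩
      exact ⟨⟨p, mem_filter.2 ⟨mem_Ioc.2 ⟨h2, h3⟩, h1⟩⟩, rfl⟩
  · intro x
    have hx := (mem_filter.1 x.2).1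
    rw [mem_Ioc] at hx
    rcases Nat.eq_zero_or_pos (bQ z I x) with h | h
    · rw [h, pow_zero, pow_one]
      exact hx.1
    · by_contra hcon
      have h1 : (bQ z I x - 1) ∈ ({i : ℕ | (x : ℕ) ≤ z ^ 2 ^ (i + 1)} : Set ℕ) := by
        show (x : ℕ) ≤ z ^ 2 ^ (bQ z I x - 1 + 1)
        rw [Nat.sub_add_cancel h]
        exact not_lt.1 hcon
      have h2 : bQ z I x ≤ bQ z I x - 1 := Nat.sInf_le h1
      omega
  · intro x
    exact Nat.sInf_mem (QPB_nonempty x)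

end Pool.PP
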