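import Pool.Agent.Work.MP_b0c12c_px.UDefs
import Pool.Agent.Work.MP_b0c12c_px.B_QPB

/-! # Block USP (helper89): the sums over the primes `p = n + sh h0` -/

set_option autoImplicit false

namespace Pool.PP

open Finset Filter

/-- The data of the expansions. -/
theorem USP_data (h5 : Stmt_COE) (h6 : Stmt_SIZ) (z I J : ℕ) (hz : 2 ≤ z)
    (hJI : J ≤ I) (hBlk : Blk (dQ 0 z I) (bQ z I) I) :
    ∃ (a : Fin J → Finset (LPt z I) → ℝ) (aρ : Finset (LPt z I) → ℝ),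
      (∀ s U, |a s U| ≤ 3) ∧ (∀ U, |aρ U| ≤ 3) ∧
      (∀ s U, a s U ≠ 0 → ∏ x ∈ U, (((x : LPt z I) : ℕ) : ℝ) ≤
        ((z : ℝ) ^ 2 ^ (I + 3)) ^ ((1 / 2 : ℝ) ^ (s : ℕ))) ∧
      (∀ U, aρ U ≠ 0 → ∏ x ∈ U, (((x : LPt z I) : ℕ) : ℝ) ≤ (z : ℝ) ^ 2 ^ (I + 3)) ∧
      (∀ s T, fQ z I J s T = ∑ U ∈ T.powerset, a s U) ∧
      (∀ T, rQ z I T = ∑ U ∈ T.powerset, aρ U) := by
  have hPB := p_QPB z I hz
  obtain ⟨hco, aρ, hρ1, hρ2⟩ := h5 (LPt z I) (dQ 0 z I) (bQ z I) I hBlk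
  have hco' := fun s : Fin J => hco (I - 1 - s) (by have := s.2; omega)
  choose a ha1 ha2 using hco'
  obtain ⟨hs1, hs2⟩ := h6 (LPt z I) z I (fun x : LPt z I => (x : ℕ)) (bQ z I) hz hPB
  have hz1r : (1 : ℝ) ≤ z := by
    have : 1 ≤ z := by omega
    exact_mod_cast this
  refine ⟨a, aρ, fun s U => (ha2 s U).1, fun U => (hρ2 U).1.trans (by norm_num), ?_, ?_, ?_, hρ1⟩
  · intro s U hU
    have hsJ := s.2
    have e1 := hs1 (I - 1 - s) (by omega) U ((ha2 s U).2 hU).1 ((ha2 s U).2 hU).2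
    have e2 : ∏ x ∈ U, (((x : LPt z I) : ℕ) : ℝ) ≤ (z : ℝ) ^ 2 ^ (I - 1 - (s : ℕ) + 4) := by
      exact_mod_cast e1
    refine e2.trans (le_of_eq ?_)
    have e3 : (2 : ℝ) ^ (I + 3) * (1 / 2 : ℝ) ^ (s : ℕ) =
        ((2 ^ (I - 1 - (s : ℕ) + 4) : ℕ) : ℝ) := by
      have : I + 3 = (I - 1 - (s : ℕ) + 4) + (s : ℕ) := by omega
      rw [this, pow_add]
      push_cast
      rw [mul_assoc, ← mul_pow]
      norm_num
    rw [← Real.rpow_natCast (z : ℝ) (2 ^ (I + 3)), ← Real.rpow_mul (by linarith)]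
    have e4 : ((2 ^ (I + 3) : ℕ) : ℝ) * (1 / 2 : ℝ) ^ (s : ℕ) =
        ((2 ^ (I - 1 - (s : ℕ) + 4) : ℕ) : ℝ) := by
      rw [← e3]; push_cast; ring
    rw [e4, Real.rpow_natCast]
  · intro U hU
    have e1 := hs2 U ((hρ2 U).2 hU)
    exact_mod_cast e1
  · intro s T
    exact ha1 s T

theorem p_USP (h1 : Stmt_QCT) (h2 : Stmt_QEX) (h3 : Stmt_UAV) (h4 : Stmt_COE)
    (h5 : Stmt_SIZ) : Stmt_USP := by
  intro J k hJ
  obtain ⟨N, hEX⟩ := h2 J 2 k 3 (by norm_num) hJ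
  refine ⟨N, ?_⟩
  intro w z I ι _ _ sh KK h0 NN M Q δ hz hwz hJI hBlk hh0 hsh hNN hQ hLV
  obtain ⟨a, aρ, d1, d2, d3, d4, d5, d6⟩ := USP_data h4 h5 z I J hz hJI hBlk
  have hz1 : (1 : ℝ) ≤ z := by
    have : 1 ≤ z := by omega
    exact_mod_cast this
  have hE := (hEX (SPt w) (LPt z I) ι (fun x : LPt z I => (x : ℕ)) KK
    (fQ z I J) (rQ z I) a aρ ((z : ℝ) ^ 2 ^ (I + 3))
    (fun x => by
      have hx := x.2
      unfold LP at hx
      exact (Finset.mem_filter.1 hx).2.one_lt.le)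
    (one_le_pow₀ hz1) d1 d2 d3 d4 d5 d6).2.2.2 h0 hh0
  have hQQ : (∏ p ∈ SP w, (p : ℝ)) * ((z : ℝ) ^ 2 ^ (I + 3)) ^ (4 * 2 + 1) ≤ Q := by
    refine le_trans ?_ hQ
    apply mul_le_mul_of_nonneg_left _ (Finset.prod_nonneg fun p _ => Nat.cast_nonneg p)
    rw [← pow_mul]
    apply pow_le_pow_right₀ hz1
    rw [pow_add, pow_add]
    omega
  have hmain := h1 N w z I 1 {h : ι // h ≠ h0} (fun h : {h : ι // h ≠ h0} => sh h.1 - sh h0) NN M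
    ((2 + (Fintype.card ι : ℝ)) ^ N) (((z : ℝ) ^ 2 ^ (I + 3)) ^ (4 * 2 + 1)) Q δ
    (fun S t => PrQ (fQ z I J) (exS h0 S) KK k 2 h0 (ext h0 t)) le_rfl hz hwz
    (by
      intro h h' hne
      have h6 : h.1 ≠ h'.1 := fun h7 => hne (Subtype.ext h7)
      obtain ⟨h7, h8⟩ := hsh h.1 h'.1 h6
      constructor
      · intro heq
        apply h7
        linarith
      · rwa [sub_sub_sub_cancel_right])
    (by
      intro _ h
      obtain ⟨h7, h8⟩ := hsh h.1 h0 h.2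
      constructor
      · intro heq
        apply h7
        linarith
      · exact h8)
    (fun _ => hNN) (by positivity) (by positivity) hQQ hE hLV
  have hav := h3 w ι sh h0 (fun S => EN (dQ 1 z I)
    (fun t : {h : ι // h ≠ h0} → Finset (LPt z I) =>
      PrQ (fQ z I J) S KK k 2 h0 (ext h0 t)))
  rw [← hav]
  exact hmain

end Pool.PP
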