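import Pool.Agent.Work.MP_b0c12c_px.UDefs
import Pool.Agent.Work.MP_b0c12c_px.B_USP
import Pool.Agent.Work.MP_b0c12c_pp.B_EXC

/-! # Block USA (helper37): the sums over the integers -/

set_option autoImplicit false

namespace Pool.PP

open Finset Filter

theorem USA_one (h1 : Stmt_QCT) (N w z I : ℕ) (ι : Type) [Fintype ι] [DecidableEq ι]
    (sh : ι → ℤ) (NN : Finset ℕ) (M Q δ K₁ κ₁ D₁ : ℝ)
    (Ψ : Finset ι → (ι → Finset (LPt z I)) → ℝ) (hz : 2 ≤ z) (hwz : w ≤ z)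
    (hsh : ∀ h h', h ≠ h' → sh h ≠ sh h' ∧ |sh h - sh h'| ≤ z)
    (hQ : (∏ p ∈ SP w, (p : ℝ)) * (z : ℝ) ^ 2 ^ (I + 7) ≤ Q) (hLV : LV N 0 NN M Q δ)
    (hK0 : 0 ≤ K₁) (hκ0 : 0 ≤ κ₁)
    (hK : K₁ ≤ (2 + (Fintype.card ι : ℝ)) ^ N) (hκ : κ₁ ≤ 2 ^ N)
    (hD : D₁ ≤ (z : ℝ) ^ 2 ^ (I + 7))
    (hE : Ex (rr (σ := SPt w) (fun x : LPt z I => (x : ℕ)))
      (fun t : ι → Finset (SPt w ⊕ LPt z I) => Ψ (Sset t) (lg t)) K₁ κ₁ D₁) :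
    |∑ n ∈ NN, Ψ (Sset (tb (prQ w z I) sh n)) (lg (tb (prQ w z I) sh n)) -
      M * avQ 0 w (fun ω => EN (dQ 0 z I) (Ψ (SwU sh ω)))| ≤
        (2 + (Fintype.card ι : ℝ)) ^ N * δ := by
  have hz1 : (1 : ℝ) ≤ z := by
    have : 1 ≤ z := by omega
    exact_mod_cast this
  have hE' := (p_EXC (SPt w ⊕ LPt z I) ι (rr (σ := SPt w) (fun x : LPt z I => (x : ℕ)))).2
    (fun t : ι → Finset (SPt w ⊕ LPt z I) => Ψ (Sset t) (lg t)) K₁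
    ((2 + (Fintype.card ι : ℝ)) ^ N) κ₁ (2 ^ N) D₁ ((z : ℝ) ^ 2 ^ (I + 7)) hK0 hK hκ0 hκ hD hE
  have hmain := h1 N w z I 0 ι sh NN M ((2 + (Fintype.card ι : ℝ)) ^ N)
    ((z : ℝ) ^ 2 ^ (I + 7)) Q δ Ψ (by norm_num) hz hwz hsh
    (fun h => absurd h (by norm_num)) (fun h => absurd h (by norm_num)) (by positivity)
    (by positivity) hQ hE' hLV
  exact hmain

theorem p_USA (h1 : Stmt_QCT) (h2 : Stmt_QEX) (h3 : Stmt_UEX) (h4 : Stmt_COE)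
    (h5 : Stmt_SIZ) : Stmt_USA := by
  intro J k A hA hJ
  obtain ⟨N₁, hEX⟩ := h2 J 2 k 3 (by norm_num) hJ
  obtain ⟨N₂, hEU⟩ := h3 J k (max A 3) (le_max_of_le_left hA) hJ
  refine ⟨max N₁ N₂, ?_⟩
  intro w z I ι _ _ sh KK α NN M Q δ hz hwz hJI hBlk hsh hα hQ hLV
  obtain ⟨a, aρ, d1, d2, d3, d4, d5, d6⟩ := USP_data h4 h5 z I J hz hJI hBlk
  have hz1 : (1 : ℝ) ≤ z := by
    have : 1 ≤ z := by omega
    exact_mod_cast this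
  have hpr : ∀ x : LPt z I, 1 ≤ ((x : LPt z I) : ℕ) := fun x => by
    have hx := x.2
    unfold LP at hx
    exact (Finset.mem_filter.1 hx).2.one_lt.le
  obtain ⟨e1, e2, e3, -⟩ := hEX (SPt w) (LPt z I) ι (fun x : LPt z I => (x : ℕ)) KK
    (fQ z I J) (rQ z I) a aρ ((z : ℝ) ^ 2 ^ (I + 3)) hpr (one_le_pow₀ hz1) d1 d2 d3 d4 d5 d6
  have e4 := hEU (SPt w) (LPt z I) ι (fun x : LPt z I => (x : ℕ)) KK
    (fQ z I J) (rQ z I) α a aρ ((z : ℝ) ^ 2 ^ (I + 3)) hpr (one_le_pow₀ hz1)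
    (fun s U => (d1 s U).trans (le_max_right _ _)) (fun U => (d2 U).trans (le_max_right _ _))
    (fun c c' => (hα c c').trans (le_max_left _ _)) d3 d4 d5 d6
  have hb1 : (1 : ℝ) ≤ 2 + (Fintype.card ι : ℝ) := by
    have : (0 : ℝ) ≤ Fintype.card ι := Nat.cast_nonneg _
    linarith
  have hD : ∀ e : ℕ, e ≤ 16 → ((z : ℝ) ^ 2 ^ (I + 3)) ^ e ≤ (z : ℝ) ^ 2 ^ (I + 7) := by
    intro e he
    rw [← pow_mul]
    apply pow_le_pow_right₀ hz1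
    rw [pow_add 2 I 7, pow_add 2 I 3]
    have : 2 ^ I * 2 ^ 3 * e ≤ 2 ^ I * 2 ^ 3 * 16 := Nat.mul_le_mul_left _ he
    omega
  have hk1 : (2 + (Fintype.card ι : ℝ)) ^ N₁ ≤ (2 + (Fintype.card ι : ℝ)) ^ max N₁ N₂ :=
    pow_le_pow_right₀ hb1 (le_max_left _ _)
  have hk2 : (2 + (Fintype.card ι : ℝ)) ^ N₂ ≤ (2 + (Fintype.card ι : ℝ)) ^ max N₁ N₂ :=
    pow_le_pow_right₀ hb1 (le_max_right _ _)
  have hp1 : (2 : ℝ) ^ N₁ ≤ 2 ^ max N₁ N₂ := pow_le_pow_right₀ (by norm_num) (le_max_left _ _)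
  have hp2 : (2 : ℝ) ^ N₂ ≤ 2 ^ max N₁ N₂ := pow_le_pow_right₀ (by norm_num) (le_max_right _ _)
  refine ⟨?_, ?_, ?_, ?_⟩
  · exact USA_one h1 (max N₁ N₂) w z I ι sh NN M Q δ _ _ _
      (fun S t => OmQ (fQ z I J) S KK k 2 t) hz hwz hsh hQ hLV (by positivity) (by positivity)
      hk1 hp1 (hD _ (by norm_num)) e1
  · exact USA_one h1 (max N₁ N₂) w z I ι sh NN M Q δ _ _ _
      (fun S t => OmQ (fQ z I J) S KK k 2 t ^ 2) hz hwz hsh hQ hLV (by positivity)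
      (by positivity) hk1 hp1 (hD _ (by norm_num)) e2
  · exact USA_one h1 (max N₁ N₂) w z I ι sh NN M Q δ _ _ _
      (fun S t => BdQ (fQ z I J) (rQ z I) S KK k 2 t) hz hwz hsh hQ hLV (by positivity)
      (by positivity) hk1 hp1 (hD _ (by norm_num)) e3
  · exact USA_one h1 (max N₁ N₂) w z I ι sh NN M Q δ _ _ _
      (fun S t => PaQ (fQ z I J) (rQ z I) α S KK k 2 t) hz hwz hsh hQ hLV (by positivity)
      (by positivity) hk2 hp2 (hD _ (by norm_num)) e4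

end Pool.PP
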