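import Pool.Agent.Work.MP_b0c12c_px.PartU
import Pool.Agent.Work.MP_b0c12c_px.B_CCV
import Pool.Agent.Work.MP_b0c12c_px.B_GENV
import Pool.Agent.Work.MP_b0c12c_px.B_LDPS
import Pool.Agent.Work.MP_b0c12c_px.B_PLBS
import Pool.Agent.Work.MP_b0c12c_px.B_SVL
import Pool.Agent.Work.MP_b0c12c_px.B_UAV
import Pool.Agent.Work.MP_b0c12c_px.B_UIN
import Pool.Agent.Work.MP_b0c12c_px.B_UPM
import Pool.Agent.Work.MP_b0c12c_px.B_USA
import Pool.Agent.Work.MP_b0c12c_px.B_USP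
import Pool.Agent.Work.MP_b0c12c_px.B_UWV

/-! # Theorem W (window patterns): assembly (helper37) -/

set_option autoImplicit false

namespace Pool.PP

theorem w_USA : Stmt_USA := p_USA q_QCT q_QEX q_UEX COE_green p_SIZ

theorem w_USP : Stmt_USP := p_USP q_QCT q_QEX p_UAV COE_green p_SIZ

theorem w_GENV : Stmt_GENV := p_GENV w_USA w_USP p_UIN q_PWV FRE_green

theorem w_CCV : Stmt_CCV :=
  p_CCV w_GENV q_LOCU p_SVL p_LDPS p_LDA (p_PLBS p_PLB) p_UPM q_QXB p_QPB p_QSZ BMR_holds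

theorem w_UWV : Stmt_UWV := p_UWV w_CCV

end Pool.PP
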