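import Pool.Agent.Work.MP_b0c12c_px.VDefs

/-! # Block CCU, part a (helper94): windows and survivors -/

set_option autoImplicit false

namespace Pool.PP

open Finset Filter

/-- The sites `1, ..., H`. -/
abbrev CCUs (H : ℕ) : Type := {h : ℕ // h ∈ Icc 1 H}

/-- The shift of a site. -/
def CCUsh (H : ℕ) (h : CCUs H) : ℤ := ((h : ℕ) : ℤ)

/-- `h` lies in the window `i`. -/
def CCUin (x : ℕ → ℕ) (len i h : ℕ) : Prop := x i < h ∧ h ≤ x i + len

/-- The sites outside the windows. -/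
noncomputable def CCUK (J₁ : ℕ) (x : ℕ → ℕ) (len H : ℕ) : Finset (CCUs H) :=
  open Classical in univ.filter (fun h => ¬ ∃ i, i < J₁ ∧ CCUin x len i h)

/-- The index of the window. -/
noncomputable def CCUc (J₁ : ℕ) (x : ℕ → ℕ) (len H : ℕ) (h : CCUs H) : ℕ :=
  open Classical in if hh : ∃ i, i < J₁ ∧ CCUin x len i h then Classical.choose hh else 0

theorem CCU_mono {J₁ : ℕ} {x : ℕ → ℕ} {len : ℕ} (hx : ∀ i, i + 1 < J₁ → x i + len ≤ x (i + 1)) :
    ∀ {i j : ℕ}, i < j → j < J₁ → x i + len ≤ x j := by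
  intro i j hij hj
  induction j with
  | zero => omega
  | succ j ih =>
    rcases Nat.lt_succ_iff_lt_or_eq.1 hij with h | h
    · have h1 := ih h (by omega)
      have h2 := hx j hj
      omega
    · subst h
      exact hx i hj

theorem CCU_disj {J₁ : ℕ} {x : ℕ → ℕ} {len : ℕ} (hx : ∀ i, i + 1 < J₁ → x i + len ≤ x (i + 1))
    {i j h : ℕ} (hi : i < J₁) (hj : j < J₁) (h1 : CCUin x len i h) (h2 : CCUin x len j h) :
    i = j := by
  rcases lt_trichotomy i j with hij | hij | hij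
  · have := CCU_mono hx hij hj
    have := h1.2
    have := h2.1
    omega
  · exact hij
  · have := CCU_mono hx hij hi
    have := h2.2
    have := h1.1
    omega

theorem CCU_notK {J₁ : ℕ} {x : ℕ → ℕ} {len H : ℕ} {h : CCUs H} :
    h ∉ CCUK J₁ x len H ↔ ∃ i, i < J₁ ∧ CCUin x len i h := by
  classical
  unfold CCUK
  rw [Finset.mem_filter]
  simp

theorem CCU_spec {J₁ : ℕ} {x : ℕ → ℕ} {len H : ℕ} {h : CCUs H} (hh : h ∉ CCUK J₁ x len H) :
    CCUc J₁ x len H h < J₁ ∧ CCUin x len (CCUc J₁ x len H h) h := by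
  classical
  rw [CCU_notK] at hh
  unfold CCUc
  rw [dif_pos hh]
  exact Classical.choose_spec hh

theorem CCU_cl_eq {J₁ : ℕ} {x : ℕ → ℕ} {len len' H : ℕ}
    (hx : ∀ i, i + 1 < J₁ → x i + len ≤ x (i + 1)) (hl : len' ≤ len) {h : CCUs H}
    (hh : h ∉ CCUK J₁ x len' H) {i : ℕ} (hi : i < J₁) (h1 : CCUin x len i h) :
    CCUc J₁ x len' H h = i := by
  obtain ⟨h2, h3⟩ := CCU_spec hh
  exact CCU_disj hx h2 hi ⟨h3.1, h3.2.trans (Nat.add_le_add_left hl _)⟩ h1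

/-- The good integers. -/
theorem CCU_good {J₁ : ℕ} {x : ℕ → ℕ} {len len' H k n y : ℕ} {Y : ℝ} (hY : (y : ℝ) ≤ Y)
    (hx : ∀ i, i + 1 < J₁ → x i + len ≤ x (i + 1)) (hH : ∀ i < J₁, x i + len ≤ H)
    (hl : len' ≤ len)
    (hg : GoodV (CCUsh H) (CCUK J₁ x len' H) (CCUc J₁ x len' H) (k + 1) y n) :
    GdV J₁ x len H k Y n := by
  classical
  obtain ⟨g1, g2, g3⟩ := hg
  have hcast : ∀ h : CCUs H, ((n : ℤ) + CCUsh H h).toNat = n + (h : ℕ) := by
    intro h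
    unfold CCUsh
    omega
  have hdv : ∀ h : CCUs H, (∃ p : ℕ, p.Prime ∧ p ≤ y ∧ (p : ℤ) ∣ (n : ℤ) + CCUsh H h) →
      ∃ p : ℕ, p.Prime ∧ (p : ℝ) ≤ Y ∧ p ∣ n + (h : ℕ) := by
    rintro h ⟨p, hp1, hp2, hp3⟩
    refine ⟨p, hp1, le_trans (by exact_mod_cast hp2) hY, ?_⟩
    unfold CCUsh at hp3
    exact_mod_cast hp3
  have hnK : ∀ h : CCUs H, (¬ ∃ p : ℕ, p.Prime ∧ (p : ℝ) ≤ Y ∧ p ∣ n + (h : ℕ)) →
      h ∉ CCUK J₁ x len' H := by
    intro h hp hK
    exact hp (hdv h (g1 h hK))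
  refine ⟨?_, ?_, ?_⟩
  · intro h hh
    by_cases hp : ∃ p : ℕ, p.Prime ∧ (p : ℝ) ≤ Y ∧ p ∣ n + h
    · exact Or.inl hp
    · obtain ⟨i, hi, h1, h2⟩ := CCU_notK.1 (hnK ⟨h, hh⟩ hp)
      exact Or.inr ⟨i, hi, h1, h2.trans (Nat.add_le_add_left hl _)⟩
  · intro i hi
    have hsub : (Ioc (x i) (x i + len)).filter (fun h =>
        ¬ ∃ p : ℕ, p.Prime ∧ (p : ℝ) ≤ Y ∧ p ∣ n + h) ⊆
        ((univ \ CCUK J₁ x len' H).filter (fun h : CCUs H => CCUc J₁ x len' H h = i ∧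
          ¬ ∃ p : ℕ, p.Prime ∧ p ≤ y ∧ (p : ℤ) ∣ (n : ℤ) + CCUsh H h)).image Subtype.val := by
      intro h hh
      rw [Finset.mem_filter, Finset.mem_Ioc] at hh
      have h1 : h ∈ Icc 1 H := by
        rw [Finset.mem_Icc]
        have := hH i hi
        omega
      rw [Finset.mem_image]
      have h2 := hnK ⟨h, h1⟩ hh.2
      refine ⟨⟨h, h1⟩, ?_, rfl⟩
      rw [Finset.mem_filter, Finset.mem_sdiff]
      exact ⟨⟨mem_univ _, h2⟩, CCU_cl_eq hx hl h2 hi hh.1, fun hcon => hh.2 (hdv ⟨h, h1⟩ hcon)⟩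
    exact (Finset.card_le_card hsub).trans (Finset.card_image_le.trans (g2 i))
  · have hsub : ((univ \ CCUK J₁ x len' H).filter (fun h : CCUs H =>
          ((n : ℤ) + CCUsh H h).toNat.Prime)).image Subtype.val ⊆
        (Icc 1 H).filter (fun h => (n + h).Prime) := by
      intro h hh
      rw [Finset.mem_image] at hh
      obtain ⟨h', h1, rfl⟩ := hh
      rw [Finset.mem_filter, hcast] at h1
      rw [Finset.mem_filter]
      exact ⟨h'.2, h1.2⟩
    have h1 := Finset.card_le_card hsub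
    rw [Finset.card_image_of_injective _ Subtype.val_injective] at h1
    omega

/-- The survivors of the window `i`. -/
noncomputable def CCUW (w : ℕ) (ω : SPt w → ℕ) (y : ℤ) (len : ℕ) : Finset ℤ :=
  (Ioc y (y + len)).filter (fun h : ℤ => ∀ p ∈ SP w,
    ¬ (p : ℤ) ∣ ((if hp : p ∈ SP w then ω ⟨p, hp⟩ else 0 : ℕ) : ℤ) + h)

theorem CCU_memS {H w : ℕ} {ω : SPt w → ℕ} {h : CCUs H} : h ∈ SwU (CCUsh H) ω ↔
    ∀ p ∈ SP w, ¬ (p : ℤ) ∣ ((if hp : p ∈ SP w then ω ⟨p, hp⟩ else 0 : ℕ) : ℤ) + ((h : ℕ) : ℤ) := by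
  unfold SwU Sw
  rw [Finset.mem_filter]
  constructor
  · rintro ⟨-, h1⟩ p hp
    rw [dif_pos hp]
    exact h1 ⟨p, hp⟩
  · intro h1
    refine ⟨mem_univ _, fun y => ?_⟩
    have := h1 y y.2
    rw [dif_pos y.2] at this
    exact this

/-- One window. -/
theorem CCU_fib {J₁ : ℕ} {x : ℕ → ℕ} {len H w : ℕ}
    (hx : ∀ i, i + 1 < J₁ → x i + len ≤ x (i + 1)) (hH : ∀ i < J₁, x i + len ≤ H)
    (ω : SPt w → ℕ) {i : ℕ} (hi : i < J₁) :
    ((SwU (CCUsh H) ω \ CCUK J₁ x len H).filter (fun h => CCUc J₁ x len H h = i)).card =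
      (CCUW w ω (x i : ℤ) len).card := by
  classical
  refine Finset.card_bij (fun h _ => (((h : ℕ) : ℤ))) ?_ ?_ ?_
  · intro h hh
    rw [Finset.mem_filter, Finset.mem_sdiff] at hh
    obtain ⟨⟨h1, h2⟩, h3⟩ := hh
    obtain ⟨-, h4⟩ := CCU_spec h2
    rw [h3] at h4
    unfold CCUW
    rw [Finset.mem_filter, Finset.mem_Ioc]
    have := h4.1
    have := h4.2
    exact ⟨⟨by omega, by omega⟩, CCU_memS.1 h1⟩
  · intro h _ h' _ he
    apply Subtype.ext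
    exact_mod_cast he
  · intro h hh
    unfold CCUW at hh
    rw [Finset.mem_filter, Finset.mem_Ioc] at hh
    obtain ⟨⟨h1, h2⟩, h3⟩ := hh
    have h4 := hH i hi
    have h5 : h.toNat ∈ Icc 1 H := by
      rw [Finset.mem_Icc]
      omega
    have h6 : ((h.toNat : ℕ) : ℤ) = h := by omega
    have h7 : CCUin x len i h.toNat := ⟨by omega, by omega⟩
    have h8 : (⟨h.toNat, h5⟩ : CCUs H) ∉ CCUK J₁ x len H := CCU_notK.2 ⟨i, hi, h7⟩
    refine ⟨⟨h.toNat, h5⟩, ?_, h6⟩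
    rw [Finset.mem_filter, Finset.mem_sdiff]
    refine ⟨⟨CCU_memS.2 ?_, h8⟩, CCU_cl_eq hx le_rfl h8 hi h7⟩
    show ∀ p ∈ SP w, ¬ (p : ℤ) ∣ _ + ((h.toNat : ℕ) : ℤ)
    rw [h6]
    exact h3

/-- The number of survivors in the windows. -/
theorem CCU_cnt {J₁ : ℕ} {x : ℕ → ℕ} {len H w : ℕ}
    (hx : ∀ i, i + 1 < J₁ → x i + len ≤ x (i + 1)) (hH : ∀ i < J₁, x i + len ≤ H)
    (ω : SPt w → ℕ) (lo hi : ℝ)
    (hW : ∀ y : ℤ, lo ≤ ((CCUW w ω y len).card : ℝ) ∧ ((CCUW w ω y len).card : ℝ) ≤ hi) :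
    J₁ * lo ≤ ((SwU (CCUsh H) ω \ CCUK J₁ x len H).card : ℝ) ∧
    ((SwU (CCUsh H) ω \ CCUK J₁ x len H).card : ℝ) ≤ J₁ * hi ∧
    ∀ a ∈ SwU (CCUsh H) ω \ CCUK J₁ x len H,
      (((SwU (CCUsh H) ω \ CCUK J₁ x len H).filter
        (fun h => CCUc J₁ x len H a = CCUc J₁ x len H h)).card : ℝ) ≤ hi := by
  classical
  have hmaps : ∀ h ∈ SwU (CCUsh H) ω \ CCUK J₁ x len H, CCUc J₁ x len H h ∈ range J₁ := by
    intro h hh
    rw [Finset.mem_range]
    exact (CCU_spec (Finset.mem_sdiff.1 hh).2).1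
  have h1 := Finset.card_eq_sum_card_fiberwise hmaps
  have h2 : ((SwU (CCUsh H) ω \ CCUK J₁ x len H).card : ℝ) =
      ∑ i ∈ range J₁, ((CCUW w ω (x i : ℤ) len).card : ℝ) := by
    rw [h1]
    push_cast
    refine Finset.sum_congr rfl fun i hi' => ?_
    rw [CCU_fib hx hH ω (Finset.mem_range.1 hi')]
  refine ⟨?_, ?_, ?_⟩
  · rw [h2]
    calc (J₁ : ℝ) * lo = ∑ i ∈ range J₁, lo := by rw [Finset.sum_const, card_range, nsmul_eq_mul]
      _ ≤ _ := Finset.sum_le_sum fun i _ => (hW _).1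
  · rw [h2]
    calc _ ≤ ∑ i ∈ range J₁, hi := Finset.sum_le_sum fun i _ => (hW _).2
      _ = (J₁ : ℝ) * hi := by rw [Finset.sum_const, card_range, nsmul_eq_mul]
  · intro a ha
    have h3 := (CCU_spec (Finset.mem_sdiff.1 ha).2).1
    have h4 : (SwU (CCUsh H) ω \ CCUK J₁ x len H).filter
        (fun h => CCUc J₁ x len H a = CCUc J₁ x len H h) =
        (SwU (CCUsh H) ω \ CCUK J₁ x len H).filter
        (fun h => CCUc J₁ x len H h = CCUc J₁ x len H a) :=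
      Finset.filter_congr fun h _ => eq_comm
    rw [h4, CCU_fib hx hH ω h3]
    exact (hW _).2

/-- The number of all survivors. -/
theorem CCU_all {H w : ℕ} (ω : SPt w → ℕ) :
    (SwU (CCUsh H) ω).card ≤ (CCUW w ω 0 H).card := by
  classical
  refine Finset.card_le_card_of_injOn (fun h => ((h : ℕ) : ℤ)) ?_ ?_
  · intro h hh
    have h1 := h.2
    rw [Finset.mem_Icc] at h1
    have hh' : h ∈ SwU (CCUsh H) ω := hh
    have goal : ((h : ℕ) : ℤ) ∈ CCUW w ω 0 H := by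
      unfold CCUW
      rw [Finset.mem_filter, Finset.mem_Ioc]
      exact ⟨⟨by omega, by omega⟩, CCU_memS.1 hh'⟩
    exact goal
  · intro h _ h' _ he
    apply Subtype.ext
    have he' : ((h : ℕ) : ℤ) = ((h' : ℕ) : ℤ) := he
    exact_mod_cast he'

/-- The sum of the coefficients of the pairs. -/
theorem CCU_al {ι : Type} [DecidableEq ι] (T : Finset ι) (cl : ι → ℕ) (θ A hi : ℝ) (hθ : 0 ≤ θ)
    (hA : 0 ≤ A)
    (h : ∀ a ∈ T, ((T.filter (fun h => cl a = cl h)).card : ℝ) ≤ hi) :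
    ∑ a ∈ T, ∑ a' ∈ T, alU θ A cl a a' ≤ θ * (T.card : ℝ) ^ 2 + A * (T.card * hi) := by
  have h1 : ∀ a ∈ T, ∑ a' ∈ T, alU θ A cl a a' ≤ θ * T.card + A * hi := by
    intro a ha
    calc ∑ a' ∈ T, alU θ A cl a a' ≤ ∑ a' ∈ T, (θ + if cl a = cl a' then A else 0) := by
          refine Finset.sum_le_sum fun a' _ => ?_
          unfold alU
          split_ifs <;> linarith
      _ = θ * T.card + A * ((T.filter (fun h => cl a = cl h)).card : ℝ) := by
          rw [Finset.sum_add_distrib, Finset.sum_const, nsmul_eq_mul, ← Finset.sum_filter,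
            Finset.sum_const, nsmul_eq_mul]
          ring
      _ ≤ θ * T.card + A * hi := by
          have := h a ha
          gcongr
  calc ∑ a ∈ T, ∑ a' ∈ T, alU θ A cl a a' ≤ ∑ a ∈ T, (θ * T.card + A * hi) :=
        Finset.sum_le_sum h1
    _ = θ * (T.card : ℝ) ^ 2 + A * (T.card * hi) := by
        rw [Finset.sum_const, nsmul_eq_mul]
        ring

end Pool.PP
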