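import Pool.Agent.Work.MP_b0c12c_px.UDefs

/-! # Block CCU, part b (helper94): the constants -/

set_option autoImplicit false

namespace Pool.PP

open Finset Filter

theorem CCU_sX0 {J : ℕ} {ι : Type} [DecidableEq ι] (x : Fin J → ℝ) (S KK : Finset ι) (k : ℕ) :
    mU x S KK (k + 1) = sX x * mU x S KK k := by
  unfold mU
  rw [pow_succ]
  ring

theorem CCU_Z0 {J : ℕ} {ι : Type} [DecidableEq ι] (x : Fin J → ℝ) (S KK : Finset ι) (k : ℕ)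
    (hx : 0 ≤ sX x) : 0 ≤ ZU x S KK k := by
  unfold ZU mU
  positivity

/-- Lower bound for the total mass. -/
theorem CCU_Z {J : ℕ} {ι : Type} [DecidableEq ι] (x : Fin J → ℝ) (S KK : Finset ι) (k : ℕ)
    (κ : ℝ) (hκ : 0 ≤ κ) (hx : 0 ≤ sX x) (hn : 2 * (k + 1) ≤ (S \ KK).card)
    (h : κ ≤ ((S \ KK).card : ℝ) * sX x) :
    (κ / 2) ^ (k + 1) / ((k + 1).factorial : ℝ) ≤ ZU x S KK (k + 1) := by
  unfold ZU mU
  set n := (S \ KK).card with hnd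
  have h1 := Nat.pow_le_choose (α := ℝ) (k + 1) n
  have h2 : (n : ℝ) / 2 ≤ ((n + 1 - (k + 1) : ℕ) : ℝ) := by
    rw [Nat.cast_sub (by omega)]
    push_cast
    have : (2 : ℝ) * (k + 1) ≤ n := by exact_mod_cast hn
    linarith
  have h3 : ((n : ℝ) / 2) ^ (k + 1) / ((k + 1).factorial : ℝ) ≤ (n.choose (k + 1) : ℝ) := by
    refine le_trans ?_ h1
    gcongr
  have h4 : (1 : ℝ) ≤ (1 + sX x) ^ (KK ∩ S).card := one_le_pow₀ (by linarith)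
  calc (κ / 2) ^ (k + 1) / ((k + 1).factorial : ℝ) ≤
      ((n : ℝ) * sX x / 2) ^ (k + 1) / ((k + 1).factorial : ℝ) := by gcongr
    _ = ((n : ℝ) / 2) ^ (k + 1) / ((k + 1).factorial : ℝ) * sX x ^ (k + 1) := by
        rw [show (n : ℝ) * sX x / 2 = (n : ℝ) / 2 * sX x by ring, mul_pow]
        ring
    _ ≤ (n.choose (k + 1) : ℝ) * sX x ^ (k + 1) := by gcongr
    _ = (n.choose (k + 1) : ℝ) * (sX x ^ (k + 1) * 1) := by ring
    _ ≤ (n.choose (k + 1) : ℝ) * (sX x ^ (k + 1) * (1 + sX x) ^ (KK ∩ S).card) := by gcongr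

/-- The sum over the free sites. -/
theorem CCU_main {J : ℕ} {ι : Type} [Fintype ι] [DecidableEq ι] (x : Fin J → ℝ)
    (S KK : Finset ι) (k : ℕ) (t₀ ε : ℝ) (P : ι → ℝ) (hx : 0 < sX x) (hε : 0 ≤ ε)
    (hP : ∀ h ∈ S \ KK, (1 - t₀) * (((S \ KK).card - 1).choose k : ℝ) * mU x S KK k -
      ε / (Fintype.card ι : ℝ) ≤ P h) :
    (1 - t₀) * (((k : ℝ) + 1) / sX x) * ZU x S KK (k + 1) - ε ≤ ∑ h ∈ S \ KK, P h := by
  set n := (S \ KK).card with hnd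
  have h1 : (n : ℝ) * ((n - 1).choose k : ℝ) = ((k : ℝ) + 1) * (n.choose (k + 1) : ℝ) := by
    rcases Nat.eq_zero_or_pos n with h0 | h0
    · rw [h0]
      simp
    · obtain ⟨n', hn'⟩ : ∃ n', n = n' + 1 := ⟨n - 1, by omega⟩
      have := Nat.add_one_mul_choose_eq n' k
      rw [hn', Nat.add_sub_cancel]
      have h2 : ((n' + 1 : ℕ) : ℝ) * (n'.choose k : ℝ) =
          ((n' + 1).choose (k + 1) : ℝ) * ((k + 1 : ℕ) : ℝ) := by exact_mod_cast this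
      rw [h2]
      push_cast
      ring
  have h2 : (n : ℝ) / (Fintype.card ι : ℝ) ≤ 1 := by
    apply div_le_one_of_le₀ _ (Nat.cast_nonneg _)
    exact_mod_cast Finset.card_le_univ _
  have h3 : (1 - t₀) * (((k : ℝ) + 1) / sX x) * ZU x S KK (k + 1) =
      n * ((1 - t₀) * ((n - 1).choose k : ℝ) * mU x S KK k) := by
    unfold ZU
    rw [CCU_sX0, ← hnd]
    have h4 : (n : ℝ) * ((1 - t₀) * ((n - 1).choose k : ℝ) * mU x S KK k) =
        (1 - t₀) * ((n : ℝ) * ((n - 1).choose k : ℝ)) * mU x S KK k := by ring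
    rw [h4, h1]
    field_simp
  calc (1 - t₀) * (((k : ℝ) + 1) / sX x) * ZU x S KK (k + 1) - ε ≤
      (1 - t₀) * (((k : ℝ) + 1) / sX x) * ZU x S KK (k + 1) -
        ε * ((n : ℝ) / (Fintype.card ι : ℝ)) := by nlinarith
    _ = ∑ h ∈ S \ KK, ((1 - t₀) * ((n - 1).choose k : ℝ) * mU x S KK k -
        ε / (Fintype.card ι : ℝ)) := by
        rw [Finset.sum_const, nsmul_eq_mul, ← hnd, h3]
        ring
    _ ≤ _ := Finset.sum_le_sum hP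

/-- The final inequality. -/
theorem CCU_fin (C Cx Cl Ct D c1 θ A μ R m Z X n t s W Sg hi J₁ k1 G c₀ ε t₀ : ℝ)
    (hCx : 0 < Cx) (hCl : 0 ≤ Cl) (hCt : 1 ≤ Ct) (hD : 0 ≤ D) (hC1 : 2 * Cx ≤ C) (hC2 : Cl ≤ C)
    (hC3 : Cl * Ct ^ 2 ≤ C) (hC4 : Cl * Ct ^ 2 * D ≤ C) (hθ : 0 ≤ θ) (hA : 0 ≤ A) (hμ : 0 ≤ μ)
    (hR : 0 ≤ R) (hm : 0 ≤ m) (hZ : 0 ≤ Z) (hX : 0 < X) (hn : 0 < n) (ht : 0 < t)
    (hk1 : 0 ≤ k1) (hs : s = k1 * t / X) (hs1 : μ / Cx ≤ s) (hs2 : s ≤ 2 * Cx * μ)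
    (htn : t * n ≤ Ct) (hJ₁ : 0 < J₁) (hW : 0 ≤ W) (ht₀ : t₀ = Cl * W)
    (hu1 : C * θ * (1 + C * μ) ^ 2 ≤ m) (hu2 : C * A / J₁ * (1 + C * μ) ^ 2 ≤ m)
    (hu3 : C * R * A * (C * W) ≤ m) (hu4 : C * W ≤ 1 / 2)
    (hSg0 : Sg ≤ θ * n ^ 2 + A * (n * hi)) (hhi : hi * J₁ ≤ D * n) (hG1 : c1 * t ≤ G)
    (hG2 : G ≤ 1) (hG0 : 0 ≤ G) (hc1 : 0 ≤ c1) (hc : 16 * m ≤ c1 / (2 * Cx) * μ) (hε : 0 ≤ ε)
    (hfin : c₀ + (m + 2 + A) * ε ≤ 12 * m * Z) :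
    c₀ + (m * (Z + ε) + (Cl * (t ^ 2 * Sg) * (1 + k1 / (n * X)) ^ 2 * Z + ε) +
      A * (Cl * R * t₀ * Z + ε)) ≤ G * ((1 - t₀) * (k1 / X) * Z - ε) := by
  have hC0 : 0 ≤ C := by linarith
  have ht₀' : t₀ ≤ 1 / 2 := by
    rw [ht₀]
    calc Cl * W ≤ C * W := by gcongr
      _ ≤ 1 / 2 := hu4
  have ht₀0 : 0 ≤ t₀ := by rw [ht₀]; positivity
  -- the main term
  have e1 : 0 ≤ (1 - t₀) * (k1 / X) * Z := by
    have : 0 ≤ 1 - t₀ := by linarith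
    positivity
  have main : 16 * m * Z - ε ≤ G * ((1 - t₀) * (k1 / X) * Z - ε) := by
    have e2 : c1 * t * ((1 - t₀) * (k1 / X) * Z) ≤ G * ((1 - t₀) * (k1 / X) * Z) := by gcongr
    have e3 : G * ε ≤ ε := by nlinarith
    have e4 : c1 * t * ((1 - t₀) * (k1 / X) * Z) = c1 * ((1 - t₀) * (s * Z)) := by
      rw [hs]; ring
    have e5 : c1 * (1 / 2 * (μ / Cx * Z)) ≤ c1 * ((1 - t₀) * (s * Z)) := by
      have : 0 ≤ μ / Cx := by positivity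
      have : 1 / 2 ≤ 1 - t₀ := by linarith
      gcongr
    have e6 : 16 * m * Z ≤ c1 * (1 / 2 * (μ / Cx * Z)) := by
      have : c1 * (1 / 2 * (μ / Cx * Z)) = c1 / (2 * Cx) * μ * Z := by
        field_simp
      rw [this]
      gcongr
    have e7 : G * ((1 - t₀) * (k1 / X) * Z - ε) = G * ((1 - t₀) * (k1 / X) * Z) - G * ε := by ring
    rw [e7]
    linarith
  -- the pairs
  have hs0 : 0 ≤ s := le_trans (by positivity) hs1
  have pairs : Cl * (t ^ 2 * Sg) * (1 + k1 / (n * X)) ^ 2 * Z ≤ 2 * m * Z := by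
    have f1 : Sg ≤ (θ + A * D / J₁) * n ^ 2 := by
      refine hSg0.trans ?_
      have f2 : hi ≤ D * n / J₁ := by
        rw [le_div_iff₀ hJ₁]; exact hhi
      calc θ * n ^ 2 + A * (n * hi) ≤ θ * n ^ 2 + A * (n * (D * n / J₁)) := by gcongr
        _ = (θ + A * D / J₁) * n ^ 2 := by ring
    have f3 : t * n * (1 + k1 / (n * X)) = t * n + s := by
      rw [hs]
      field_simp
    have f4 : t * n + s ≤ Ct * (1 + C * μ) := by
      have : 2 * Cx * μ ≤ Ct * (C * μ) := by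
        calc 2 * Cx * μ ≤ C * μ := by gcongr
          _ = 1 * (C * μ) := by ring
          _ ≤ Ct * (C * μ) := by gcongr
      calc t * n + s ≤ Ct + 2 * Cx * μ := by linarith
        _ ≤ Ct + Ct * (C * μ) := by linarith
        _ = Ct * (1 + C * μ) := by ring
    have f5 : 0 ≤ t * n + s := by positivity
    have f6 : Cl * (t ^ 2 * Sg) * (1 + k1 / (n * X)) ^ 2 ≤ 2 * m := by
      calc Cl * (t ^ 2 * Sg) * (1 + k1 / (n * X)) ^ 2 ≤
          Cl * (t ^ 2 * ((θ + A * D / J₁) * n ^ 2)) * (1 + k1 / (n * X)) ^ 2 := by gcongr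
        _ = Cl * (θ + A * D / J₁) * (t * n * (1 + k1 / (n * X))) ^ 2 := by ring
        _ = Cl * (θ + A * D / J₁) * (t * n + s) ^ 2 := by rw [f3]
        _ ≤ Cl * (θ + A * D / J₁) * (Ct * (1 + C * μ)) ^ 2 := by gcongr
        _ = (Cl * Ct ^ 2) * θ * (1 + C * μ) ^ 2 +
            (Cl * Ct ^ 2 * D) * A / J₁ * (1 + C * μ) ^ 2 := by ring
        _ ≤ C * θ * (1 + C * μ) ^ 2 + C * A / J₁ * (1 + C * μ) ^ 2 := by gcongr
        _ ≤ 2 * m := by linarith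
    gcongr
  have killed : A * (Cl * R * t₀ * Z) ≤ m * Z := by
    have g1 : A * (Cl * R * t₀) ≤ m := by
      calc A * (Cl * R * t₀) = Cl * R * A * (Cl * W) := by rw [ht₀]; ring
        _ ≤ C * R * A * (C * W) := by gcongr
        _ ≤ m := hu3
    calc A * (Cl * R * t₀ * Z) = A * (Cl * R * t₀) * Z := by ring
      _ ≤ m * Z := by gcongr
  nlinarith [main, pairs, killed]

end Pool.PP
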