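import Pool.Agent.Work.MP_b0c12c_px.UDefs

/-! # Block CCU, part c (helper94): large parameters -/

set_option autoImplicit false

namespace Pool.PP

open Finset Filter

/-- A power with exponent at most one half is small. -/
theorem CCU_pow (β : ℝ) (hβ : 0 < β) (hβ2 : β ≤ 1 / 2) : ∀ᶠ L : ℝ in atTop,
    L ^ β ≤ L / 100 := by
  filter_upwards [eventually_ge_atTop (10000 : ℝ)] with L hL
  have h1 : L ^ β ≤ L ^ (1 / 2 : ℝ) := Real.rpow_le_rpow_of_exponent_le (by linarith) hβ2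
  rw [← Real.sqrt_eq_rpow] at h1
  have h2 : √L * √L = L := Real.mul_self_sqrt (by linarith)
  have h3 : 100 ≤ √L := by
    rw [show (100 : ℝ) = √(100 ^ 2) by rw [Real.sqrt_sq (by norm_num)]]
    exact Real.sqrt_le_sqrt (by linarith)
  nlinarith

/-- The elementary inequalities for large `L`. -/
theorem CCU_large (K δ c₀ Cl q cs J₁ : ℝ) (z0 z1 z2 N : ℕ) (hK : 0 < K) (hδ : 0 < δ)
    (hc₀ : 0 < c₀) (hCl : 0 ≤ Cl) (hcs : 0 < cs) (hJ₁ : 0 < J₁) :
    ∀ᶠ L : ℝ in atTop, 2 ≤ L ∧ 1 ≤ Real.log L ∧ Real.log L ≤ L ∧ (z0 : ℝ) ≤ L ^ 12 ∧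
      (z1 : ℝ) ≤ L ^ 12 ∧ (z2 : ℝ) ≤ L ^ 12 ∧ K * L < L ^ 12 ∧ (K * L) ^ 8 * z0 ≤ L ^ 12 ∧
      K * L ≤ L ^ 2 ∧ 1 ≤ δ / 2 * L ∧ Cl / L ^ (N + 1) * (2 + K * L) ^ N ≤ c₀ ∧
      1 / L ^ (N + 1) * (2 + K * L) ^ N ≤ c₀ ∧ q ≤ J₁ * (cs * (δ / 2 * L / Real.log L)) := by
  have hlog : Tendsto (fun L : ℝ => L / Real.log L) atTop atTop := by
    have h1 : Tendsto (fun x : ℝ => Real.log x / x) atTop (nhdsWithin 0 (Set.Ioi 0)) := by
      rw [tendsto_nhdsWithin_iff]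
      refine ⟨?_, ?_⟩
      · have := Real.isLittleO_log_id_atTop.tendsto_div_nhds_zero
        exact this
      · filter_upwards [eventually_gt_atTop (1 : ℝ)] with x hx
        exact div_pos (Real.log_pos hx) (by linarith)
    have h2 := h1.inv_tendsto_nhdsGT_zero
    refine h2.congr fun x => ?_
    simp
  have hq : ∀ᶠ L : ℝ in atTop, q / (J₁ * cs * (δ / 2)) ≤ L / Real.log L :=
    hlog.eventually_ge_atTop _
  filter_upwards [eventually_ge_atTop (2 : ℝ), eventually_ge_atTop (Real.exp 1),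
    eventually_ge_atTop (z0 : ℝ), eventually_ge_atTop (z1 : ℝ), eventually_ge_atTop (z2 : ℝ),
    eventually_gt_atTop K, eventually_ge_atTop (K ^ 8 * z0), eventually_ge_atTop (2 / δ),
    eventually_ge_atTop (Cl * (2 + K) ^ N / c₀), eventually_ge_atTop ((2 + K) ^ N / c₀), hq]
    with L a1 a2 a3 a4 a5 a6 a7 a8 a9 a10 a11
  have hL0 : 0 < L := by linarith
  have hL1 : 1 ≤ L := by linarith
  have hLp : L ≤ L ^ 12 := by
    calc L = L ^ 1 := (pow_one L).symm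
      _ ≤ L ^ 12 := pow_le_pow_right₀ hL1 (by norm_num)
  have hlog1 : 1 ≤ Real.log L := by
    rw [Real.le_log_iff_exp_le hL0]
    exact a2
  have h2K : 2 + K * L ≤ (2 + K) * L := by nlinarith
  refine ⟨a1, hlog1, ?_, by linarith, by linarith, by linarith, ?_, ?_, ?_, ?_, ?_, ?_, ?_⟩
  · have := Real.log_le_sub_one_of_pos hL0
    linarith
  · calc K * L < L * L := by gcongr
      _ = L ^ 2 := by ring
      _ ≤ L ^ 12 := pow_le_pow_right₀ hL1 (by norm_num)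
  · calc (K * L) ^ 8 * z0 = (K ^ 8 * z0) * L ^ 8 := by ring
      _ ≤ L * L ^ 8 := by gcongr
      _ = L ^ 9 := by ring
      _ ≤ L ^ 12 := pow_le_pow_right₀ hL1 (by norm_num)
  · calc K * L ≤ L * L := by gcongr
      _ = L ^ 2 := by ring
  · rw [div_le_iff₀ hδ] at a8
    linarith
  · calc Cl / L ^ (N + 1) * (2 + K * L) ^ N ≤ Cl / L ^ (N + 1) * ((2 + K) * L) ^ N := by gcongr
      _ = Cl * (2 + K) ^ N / L := by
          rw [mul_pow, pow_succ]
          field_simp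
      _ ≤ c₀ := by
          rw [div_le_iff₀ hL0]
          rw [div_le_iff₀ hc₀] at a9
          linarith
  · calc 1 / L ^ (N + 1) * (2 + K * L) ^ N ≤ 1 / L ^ (N + 1) * ((2 + K) * L) ^ N := by gcongr
      _ = (2 + K) ^ N / L := by
          rw [mul_pow, pow_succ]
          field_simp
      _ ≤ c₀ := by
          rw [div_le_iff₀ hL0]
          rw [div_le_iff₀ hc₀] at a10
          linarith
  · rw [div_le_iff₀ (by positivity)] at a11
    calc q ≤ L / Real.log L * (J₁ * cs * (δ / 2)) := a11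
      _ = J₁ * (cs * (δ / 2 * L / Real.log L)) := by ring

/-- The logarithm squared is below the square root. -/
theorem CCU_sqrt (K : ℝ) (hK : 0 < K) : ∀ᶠ X : ℕ in atTop, K * Real.log X ≤ √X := by
  have h1 := (isLittleO_log_rpow_atTop (show (0 : ℝ) < 1 / 2 by norm_num)).def
    (show 0 < 1 / K by positivity)
  have h2 := tendsto_natCast_atTop_atTop (R := ℝ) |>.eventually h1
  filter_upwards [h2, eventually_ge_atTop 1] with X hX h1X
  have hX1 : (1 : ℝ) ≤ X := by exact_mod_cast h1X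
  have h3 : ‖Real.log (X : ℝ)‖ ≤ 1 / K * ‖(X : ℝ) ^ (1 / 2 : ℝ)‖ := hX
  rw [Real.norm_of_nonneg (Real.log_nonneg hX1), ← Real.sqrt_eq_rpow,
    Real.norm_of_nonneg (Real.sqrt_nonneg _)] at h3
  calc K * Real.log X ≤ K * (1 / K * √X) := by gcongr
    _ = √X := by field_simp

/-- Monotonicity of the level of distribution. -/
theorem CCU_LV {N u : ℕ} {NN : Finset ℕ} {M Q Q' δ δ' : ℝ} (h : LV N u NN M Q δ) (hQ : Q' ≤ Q)
    (hδ : δ ≤ δ') : LV N u NN M Q' δ' := by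
  intro VV hVV a ha
  exact (h VV (fun V hV => ⟨(hVV V hV).1, (hVV V hV).2.trans hQ⟩) a ha).trans hδ

/-- The size of the moduli. -/
theorem CCU_Q (w z I Θ : ℕ) (L : ℝ) (hL : 0 ≤ L) (hw : w ≤ wL L) (hΘ : 4 ≤ Θ)
    (h1 : (z : ℝ) ^ 2 ^ I ≤ Real.exp (L / (512 * Θ)))
    (h2 : (∏ p ∈ SP (wL L), (p : ℝ)) ≤ Real.exp (L / 50)) :
    (∏ p ∈ SP w, (p : ℝ)) * (z : ℝ) ^ 2 ^ (I + 7) ≤ Real.exp (L / 8) := by
  have h3 : (∏ p ∈ SP w, (p : ℝ)) ≤ ∏ p ∈ SP (wL L), (p : ℝ) := by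
    have h0 : ∏ p ∈ SP w, p ≤ ∏ p ∈ SP (wL L), p := by
      apply Finset.prod_le_prod_of_subset_of_one_le'
      · intro p hp
        unfold SP at hp ⊢
        rw [Finset.mem_filter, Finset.mem_Icc] at hp ⊢
        exact ⟨⟨hp.1.1, hp.1.2.trans hw⟩, hp.2⟩
      · intro p hp _
        unfold SP at hp
        rw [Finset.mem_filter, Finset.mem_Icc] at hp
        exact hp.1.1
    have h1 : ((∏ p ∈ SP w, p : ℕ) : ℝ) ≤ ((∏ p ∈ SP (wL L), p : ℕ) : ℝ) := by exact_mod_cast h0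
    rw [Nat.cast_prod, Nat.cast_prod] at h1
    exact h1
  have h4 : (z : ℝ) ^ 2 ^ (I + 7) ≤ Real.exp (L / 16) := by
    have e1 : (z : ℝ) ^ 2 ^ (I + 7) = ((z : ℝ) ^ 2 ^ I) ^ 128 := by
      rw [← pow_mul]
      congr 1
      rw [pow_add]
      norm_num
    rw [e1]
    have hΘr : (4 : ℝ) ≤ Θ := by exact_mod_cast hΘ
    calc ((z : ℝ) ^ 2 ^ I) ^ 128 ≤ Real.exp (L / (512 * Θ)) ^ 128 := by gcongr
      _ = Real.exp (((128 : ℕ) : ℝ) * (L / (512 * Θ))) := by rw [← Real.exp_nat_mul]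
      _ ≤ Real.exp (((128 : ℕ) : ℝ) * (L / (512 * 4))) := by
          apply Real.exp_le_exp.2
          gcongr
      _ = Real.exp (L / 16) := by
          congr 1
          push_cast
          ring
  have h5 : 0 ≤ ∏ p ∈ SP w, (p : ℝ) := Finset.prod_nonneg fun _ _ => Nat.cast_nonneg _
  calc (∏ p ∈ SP w, (p : ℝ)) * (z : ℝ) ^ 2 ^ (I + 7) ≤ Real.exp (L / 50) * Real.exp (L / 16) := by
        gcongr
        exact h3.trans h2
    _ = Real.exp (L / 50 + L / 16) := by rw [Real.exp_add]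
    _ ≤ Real.exp (L / 8) := Real.exp_le_exp.2 (by linarith)

end Pool.PP
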