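import Pool.Agent.Work.MP_b0c12c_px.B_CCUa
import Pool.Agent.Work.MP_b0c12c_px.B_CCUb
import Pool.Agent.Work.MP_b0c12c_px.B_CCUc

/-! # Block CCV, part d (helper94): the local inequality for one set of survivors -/

set_option autoImplicit false

namespace Pool.PP

open Finset Filter

theorem CCU_loc1 {J : ℕ} {ι : Type} [Fintype ι] [DecidableEq ι] (xx : Fin J → ℝ)
    (S KK : Finset ι) (cl : ι → ℕ) (k I : ℕ) (EOm EBd EPa : ℝ) (EPr : ι → ℝ)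
    (C Cx Cl Ct D c1 θ A μ R m κ t W hi J₁ G c₀ ε t₀ Zm : ℝ)
    (hCx : 0 < Cx) (hCl : 0 ≤ Cl) (hCt : 1 ≤ Ct) (hD : 0 ≤ D) (hC1 : 2 * Cx ≤ C) (hC2 : Cl ≤ C)
    (hC3 : Cl * Ct ^ 2 ≤ C) (hC4 : Cl * Ct ^ 2 * D ≤ C) (hθ : 0 ≤ θ) (hA : 0 ≤ A) (hμ : 0 ≤ μ)
    (hR : 0 ≤ R) (hm : 0 ≤ m) (ht : t = (1 / 2 : ℝ) ^ I)
    (hX1 : (1 / Cx) * (2 ^ J * t / (J : ℝ) ^ 2) ≤ sX xx)
    (hX2 : sX xx ≤ Cx * (2 ^ J * t / (J : ℝ) ^ 2)) (hJ : 1 ≤ J)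
    (hν1 : μ ≤ ((k : ℝ) + 1) * J ^ 2 / 2 ^ J) (hν2 : ((k : ℝ) + 1) * J ^ 2 / 2 ^ J ≤ 2 * μ)
    (hn2 : 2 * (k + 1) ≤ (S \ KK).card)
    (htn : t * ((S \ KK).card : ℝ) ≤ Ct) (hJ₁ : 0 < J₁) (hW : 0 ≤ W) (ht₀ : t₀ = Cl * W)
    (hu1 : C * θ * (1 + C * μ) ^ 2 ≤ m) (hu2 : C * A / J₁ * (1 + C * μ) ^ 2 ≤ m)
    (hu3 : C * R * A * (C * W) ≤ m) (hu4 : C * W ≤ 1 / 2)
    (hcl : ∀ a ∈ S \ KK, (((S \ KK).filter (fun h => cl a = cl h)).card : ℝ) ≤ hi)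
    (hhi : hi * J₁ ≤ D * ((S \ KK).card : ℝ)) (hG1 : c1 * t ≤ G)
    (hG2 : G ≤ 1) (hG0 : 0 ≤ G) (hc1 : 0 ≤ c1) (hc : 16 * m ≤ c1 / (2 * Cx) * μ) (hε : 0 ≤ ε)
    (hκ0 : 0 ≤ κ) (hκ : κ ≤ ((S \ KK).card : ℝ) * sX xx)
    (hZm : Zm = (κ / 2) ^ (k + 1) / ((k + 1).factorial : ℝ))
    (hfin : c₀ + (m + 2 + A) * ε ≤ 12 * m * Zm)
    (h1 : EOm ≤ ZU xx S KK (k + 1) + ε)
    (h3 : EBd ≤ Cl * R * t₀ * ZU xx S KK (k + 1) + ε)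
    (h4 : EPa ≤ Cl * ((1 / 4 : ℝ) ^ I * ∑ a ∈ S \ KK, ∑ a' ∈ S \ KK, alU θ A cl a a') *
      (1 + (k + 1) / (((S \ KK).card : ℝ) * sX xx)) ^ 2 * ZU xx S KK (k + 1) + ε)
    (h5 : ∀ h0 ∈ S \ KK, (1 - t₀) * (((S \ KK).card - 1).choose k : ℝ) * mU xx S KK k -
      ε / (Fintype.card ι : ℝ) ≤ EPr h0) :
    c₀ + (m * EOm + EPa + A * EBd) ≤ G * ∑ h0 ∈ S \ KK, EPr h0 := by
  have hJr : (1 : ℝ) ≤ J := by exact_mod_cast hJ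
  have ht0 : 0 < t := by rw [ht]; positivity
  have hν : 0 < 2 ^ J * t / (J : ℝ) ^ 2 := by positivity
  have hX0 : 0 < sX xx := lt_of_lt_of_le (by positivity) hX1
  have hn0 : (0 : ℝ) < ((S \ KK).card : ℝ) := by
    have : 0 < (S \ KK).card := by omega
    exact_mod_cast this
  have hk1 : (0 : ℝ) ≤ (k : ℝ) + 1 := by positivity
  have hZ := CCU_Z xx S KK k κ hκ0 hX0.le hn2 hκ
  rw [← hZm] at hZ
  have hZ0 : 0 ≤ ZU xx S KK (k + 1) := CCU_Z0 xx S KK (k + 1) hX0.le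
  have hmain := CCU_main xx S KK k t₀ ε EPr hX0 hε h5
  have hal := CCU_al (S \ KK) cl θ A hi hθ hA hcl
  have hs1 : μ / Cx ≤ ((k : ℝ) + 1) * t / sX xx := by
    rw [div_le_div_iff₀ hCx hX0]
    calc μ * sX xx ≤ ((k : ℝ) + 1) * J ^ 2 / 2 ^ J * (Cx * (2 ^ J * t / (J : ℝ) ^ 2)) := by
          gcongr
      _ = ((k : ℝ) + 1) * t * Cx := by
          field_simp
  have hs2 : ((k : ℝ) + 1) * t / sX xx ≤ 2 * Cx * μ := by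
    rw [div_le_iff₀ hX0]
    calc ((k : ℝ) + 1) * t = Cx * (((k : ℝ) + 1) * J ^ 2 / 2 ^ J) *
          ((1 / Cx) * (2 ^ J * t / (J : ℝ) ^ 2)) := by
          field_simp
      _ ≤ Cx * (2 * μ) * sX xx := by gcongr
      _ = 2 * Cx * μ * sX xx := by ring
  have hfin' : c₀ + (m + 2 + A) * ε ≤ 12 * m * ZU xx S KK (k + 1) := by
    refine hfin.trans ?_
    gcongr
  have ht4 : (1 / 4 : ℝ) ^ I = t ^ 2 := by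
    rw [ht, ← pow_mul, mul_comm I 2, pow_mul]
    norm_num
  have key := CCU_fin C Cx Cl Ct D c1 θ A μ R m (ZU xx S KK (k + 1)) (sX xx)
    ((S \ KK).card : ℝ) t (((k : ℝ) + 1) * t / sX xx) W
    (∑ a ∈ S \ KK, ∑ a' ∈ S \ KK, alU θ A cl a a') hi J₁ ((k : ℝ) + 1) G c₀ ε t₀
    hCx hCl hCt hD hC1 hC2 hC3 hC4 hθ hA hμ hR hm hZ0 hX0 hn0 ht0 hk1 rfl hs1 hs2 htn hJ₁ hW ht₀
    hu1 hu2 hu3 hu4 hal hhi hG1 hG2 hG0 hc1 hc hε hfin'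
  rw [ht4] at h4
  calc c₀ + (m * EOm + EPa + A * EBd) ≤ _ := by
        have e1 : m * EOm ≤ m * (ZU xx S KK (k + 1) + ε) := by gcongr
        have e2 : A * EBd ≤ A * (Cl * R * t₀ * ZU xx S KK (k + 1) + ε) := by gcongr
        exact add_le_add_right (add_le_add (add_le_add e1 h4) e2) c₀
    _ ≤ _ := key
    _ ≤ G * ∑ h0 ∈ S \ KK, EPr h0 := by gcongr

end Pool.PP
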