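import Pool.Agent.Work.MP_b0c12c_px.VDefs

/-! # Block CVU (helper19): `Stmt_CCU` is the case `eps = 1 / 2` of `Stmt_CCV` -/

set_option autoImplicit false

namespace Pool.PP

open Finset Filter

theorem p_CVU : Stmt_CVU := by
  classical
  intro h k
  obtain ⟨J₁, hJ₁, h1⟩ := h k (1 / 2) (by norm_num)
  refine ⟨J₁, hJ₁, fun δ K a hδ ha0 ha1 haK => ?_⟩
  obtain ⟨c, hc, h2⟩ := h1 δ K a hδ ha0 ha1 haK
  refine ⟨c, hc, ?_⟩
  filter_upwards [h2, eventually_ge_atTop 1] with X hX hX1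
  refine hX.trans ?_
  have hX1' : (1 : ℝ) ≤ X := by exact_mod_cast hX1
  have hsq : (X : ℝ) ^ (1 / 2 : ℝ) ≤ X := by
    calc (X : ℝ) ^ (1 / 2 : ℝ) ≤ (X : ℝ) ^ (1 : ℝ) :=
          Real.rpow_le_rpow_of_exponent_le hX1' (by norm_num)
      _ = X := Real.rpow_one _
  have key : ∀ n ∈ Ioc X (2 * X), ∀ h : ℕ, (n + h).Prime →
      ¬ ∃ p : ℕ, p.Prime ∧ (p : ℝ) ≤ (X : ℝ) ^ (1 / 2 : ℝ) ∧ p ∣ n + h := by
    rintro n hn h hp ⟨p, hpp, hpX, hpd⟩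
    rw [mem_Ioc] at hn
    have h3 : p = n + h := (Nat.prime_dvd_prime_iff_eq hpp hp).1 hpd
    have h4 : (p : ℝ) ≤ X := hpX.trans hsq
    have h5 : p ≤ X := by exact_mod_cast h4
    omega
  have hsub : (Ioc X (2 * X)).filter (fun n : ℕ =>
      GdV J₁ (fun i => ⌊a i * Real.log X⌋₊) ⌊δ * Real.log X⌋₊ ⌊K * Real.log X⌋₊ k
        ((X : ℝ) ^ (1 / 2 : ℝ)) n) ⊆ (Ioc X (2 * X)).filter (fun n : ℕ =>
      Gd J₁ (fun i => ⌊a i * Real.log X⌋₊) ⌊δ * Real.log X⌋₊ ⌊K * Real.log X⌋₊ k n) := by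
    intro n hn
    rw [mem_filter] at hn ⊢
    obtain ⟨hn1, g1, g2, g3⟩ := hn
    refine ⟨hn1, ?_, ?_, g3⟩
    · intro h hh hp
      rcases g1 h hh with h3 | h3
      · exact absurd h3 (key n hn1 h hp)
      · exact h3
    · intro i hi
      refine le_trans (card_le_card ?_) (g2 i hi)
      intro h hh
      rw [mem_filter] at hh ⊢
      exact ⟨hh.1, key n hn1 h hh.2⟩
  exact_mod_cast card_le_card hsub

end Pool.PP
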