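import Pool.Agent.Work.MP_b0c12c_px.UDefs
import Pool.Agent.Work.MP_b0c12c_pp.B_GMO

/-! Block GRO: second moments of the site functions against `rho` (helper10). -/

set_option autoImplicit false
set_option linter.unusedSectionVars false

namespace Pool.PP.BGRO

open Finset BGMO

variable {π : Type} [Fintype π] [DecidableEq π]

theorem young {a b : ℝ} (ha : 0 ≤ a) (hb : 0 ≤ b) :
    a ^ 2 * b ≤ 2 / 3 * a ^ 3 + 1 / 3 * b ^ 3 := by
  nlinarith [mul_nonneg (sq_nonneg (b - a)) (by linarith : 0 ≤ b + 2 * a)]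

theorem E1_comb {q : π → ℝ} (h0 : ∀ x, 0 ≤ q x) (h1 : ∀ x, q x ≤ 1)
    {f g h : Finset π → ℝ} (hh : ∀ T, f T ≤ 2 / 3 * g T + 1 / 3 * h T) :
    E1 q f ≤ 2 / 3 * E1 q g + 1 / 3 * E1 q h := by
  refine le_trans (E1_mono h0 h1 hh) (le_of_eq ?_)
  unfold E1
  rw [mul_sum, mul_sum, ← sum_add_distrib]
  refine sum_congr rfl fun T _ => ?_
  ring

/-- The factors of `gj ^ 2 * rho`. -/
noncomputable def FFr (q : π → ℝ) (b : π → ℕ) (j I : ℕ) (i n : ℕ) : ℝ :=
  if i < j then tau (2 * (j - i + 1)) n ^ 2 * tau (2 * (I - i)) n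
  else if i = j then ((tau 2 n - mt q b j) / (1 - mt q b j)) ^ 2 * tau (2 * (I - j)) n
  else tau (2 * (I - i)) n

theorem FFr_prod (q : π → ℝ) (b : π → ℕ) (j m : ℕ) (T : Finset π) :
    gj q b j T ^ 2 * rho b (j + 1 + m) T =
      ∏ i ∈ range (j + 1 + m), FFr q b j (j + 1 + m) i (om b T i) := by
  have h1 : ∏ i ∈ range j, FFr q b j (j + 1 + m) i (om b T i) =
      low b j T ^ 2 * ∏ i ∈ range j, tau (2 * (j + 1 + m - i)) (om b T i) := by
    unfold low
    rw [← prod_pow, ← prod_mul_distrib]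
    refine prod_congr rfl fun i hi => ?_
    simp [FFr, mem_range.mp hi]
  have h2 : FFr q b j (j + 1 + m) j (om b T j) =
      ((tau 2 (om b T j) - mt q b j) / (1 - mt q b j)) ^ 2 *
        tau (2 * (j + 1 + m - j)) (om b T j) := by
    simp [FFr]
  have h3 : ∏ x ∈ range m, FFr q b j (j + 1 + m) (j + 1 + x) (om b T (j + 1 + x)) =
      ∏ x ∈ range m, tau (2 * (j + 1 + m - (j + 1 + x))) (om b T (j + 1 + x)) := by
    refine prod_congr rfl fun x _ => ?_
    have h4 : ¬ (j + 1 + x < j) := by omega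
    have h5 : ¬ (j + 1 + x = j) := by omega
    simp only [FFr, h4, h5, if_false]
  rw [prod_range_add, prod_range_succ, h1, h2, h3]
  unfold rho gj
  rw [prod_range_add, prod_range_succ]
  ring

end Pool.PP.BGRO

namespace Pool.PP

open Finset BGMO BGRO

/-- Block GRO. -/
theorem p_GRO (hPRB : Stmt_PRB) (hBLM : Stmt_BLM) (hEBJ : Stmt_EBJ) (hTAU : Stmt_TAU) :
    Stmt_GRO := by
  set K : ℝ := Real.exp 512 * Real.exp 2 with hKdef
  have hK : 0 < K := by positivity
  set C1 : ℝ := 2 / 3 * ((8 / 3 : ℝ) ^ 8 * (2 + Real.exp K)) + 1 / 3 * Real.exp K with hC1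
  have hC1p : 0 < C1 := by positivity
  refine ⟨Real.exp K * (C1 * Real.exp 2) * Real.exp K, by positivity, ?_⟩
  intro π _ _ q b I hB j hj
  have hq1 : ∀ x, q x ≤ 1 := fun x => by linarith [hB.half x]
  have hee0 : ∀ i, i < I → 0 ≤ ee q b i := fun i hi =>
    le_trans (Real.exp_pos _).le (ee_ge hB hi)
  have htau0 : ∀ d n, 0 ≤ tau (2 * d) n := fun d n => (hTAU.2 d n).1
  obtain ⟨m, rfl⟩ : ∃ m, I = j + 1 + m := ⟨I - (j + 1), by omega⟩
  have h1 : (fun T => gj q b j T ^ 2 * rho b (j + 1 + m) T) =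
      fun T => ∏ i ∈ range (j + 1 + m), FFr q b j (j + 1 + m) i (om b T i) :=
    funext (FFr_prod q b j m)
  rw [h1, hPRB π q b (range (j + 1 + m)) (FFr q b j (j + 1 + m))]
  -- factor bounds
  have hlow : ∀ i, i < j → E1 q (fun T => FFr q b j (j + 1 + m) i (om b T i)) ≤
      ee q b i * Real.exp ((1 / 4 : ℝ) ^ (j - i + 1) * K) := by
    intro i hi
    have h2 : ∀ T : Finset π, FFr q b j (j + 1 + m) i (om b T i) ≤
        2 / 3 * tau (2 * (j - i + 1)) (om b T i) ^ 3 +
          1 / 3 * tau (2 * (j + 1 + m - i)) (om b T i) ^ 3 := by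
      intro T
      simp only [FFr, hi, if_true]
      exact young (htau0 _ _) (htau0 _ _)
    have h3 := E1_comb hB.nonneg hq1 h2
    have h4 := blockbound hBLM hB (r := 3) (by norm_num) (by norm_num) (i := i) (by omega)
      (j - i + 1)
    have h5 := blockbound hBLM hB (r := 3) (by norm_num) (by norm_num) (i := i) (by omega)
      (j + 1 + m - i)
    have h6 : (1 / 4 : ℝ) ^ (j + 1 + m - i) ≤ (1 / 4 : ℝ) ^ (j - i + 1) :=
      pow_le_pow_of_le_one (by norm_num) (by norm_num) (by omega)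
    have h7 : Real.exp ((1 / 4 : ℝ) ^ (j + 1 + m - i) * K) ≤
        Real.exp ((1 / 4 : ℝ) ^ (j - i + 1) * K) :=
      Real.exp_le_exp.mpr (mul_le_mul_of_nonneg_right h6 hK.le)
    have h8 := mul_le_mul_of_nonneg_left h7 (hee0 i (by omega))
    linarith
  have hmid : E1 q (fun T => FFr q b j (j + 1 + m) j (om b T j)) ≤
      ee q b j * (C1 * Real.exp 2) := by
    have h2 : ∀ T : Finset π, FFr q b j (j + 1 + m) j (om b T j) ≤
        2 / 3 * |(tau 2 (om b T j) - mt q b j) / (1 - mt q b j)| ^ 3 +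
          1 / 3 * tau (2 * (j + 1 + m - j)) (om b T j) ^ 3 := by
      intro T
      have h3 : FFr q b j (j + 1 + m) j (om b T j) =
          |(tau 2 (om b T j) - mt q b j) / (1 - mt q b j)| ^ 2 *
            tau (2 * (j + 1 + m - j)) (om b T j) := by
        rw [sq_abs]
        simp [FFr]
      rw [h3]
      exact young (abs_nonneg _) (htau0 _ _)
    have h3 := E1_comb hB.nonneg hq1 h2
    have h4 := topbound hPRB hTAU hBLM hEBJ hB (r := 3) (by norm_num) (by norm_num)
      (j := j) (by omega)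
    have h5 := blockbound hBLM hB (r := 3) (by norm_num) (by norm_num) (i := j) (by omega)
      (j + 1 + m - j)
    have h6 : ee q b j * Real.exp ((1 / 4 : ℝ) ^ (j + 1 + m - j) * K) ≤ 1 * Real.exp K := by
      refine mul_le_mul (ee_le hB j) (Real.exp_le_exp.mpr ?_) (Real.exp_pos _).le zero_le_one
      have h7 : (1 / 4 : ℝ) ^ (j + 1 + m - j) ≤ 1 := pow_le_one₀ (by norm_num) (by norm_num)
      nlinarith
    have h8 : E1 q (fun T => FFr q b j (j + 1 + m) j (om b T j)) ≤ C1 := by
      rw [hC1]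
      linarith
    have h9 : 1 ≤ ee q b j * Real.exp 2 := by
      have h10 : Real.exp (-2) * Real.exp 2 = 1 := by rw [← Real.exp_add]; simp
      rw [← h10]
      exact mul_le_mul_of_nonneg_right (ee_ge hB (by omega)) (Real.exp_pos _).le
    calc E1 q (fun T => FFr q b j (j + 1 + m) j (om b T j)) ≤ C1 * 1 := by linarith
      _ ≤ C1 * (ee q b j * Real.exp 2) := mul_le_mul_of_nonneg_left h9 hC1p.le
      _ = ee q b j * (C1 * Real.exp 2) := by ring
  have hhigh : ∀ x, x < m → E1 q (fun T => FFr q b j (j + 1 + m) (j + 1 + x)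
      (om b T (j + 1 + x))) ≤
      ee q b (j + 1 + x) * Real.exp ((1 / 4 : ℝ) ^ (m - x) * K) := by
    intro x hx
    have h2 : (fun T : Finset π => FFr q b j (j + 1 + m) (j + 1 + x) (om b T (j + 1 + x))) =
        fun T => tau (2 * (m - x)) (om b T (j + 1 + x)) ^ 1 := by
      funext T
      have h4 : ¬ (j + 1 + x < j) := by omega
      have h5 : ¬ (j + 1 + x = j) := by omega
      have h6 : j + 1 + m - (j + 1 + x) = m - x := by omega
      simp only [FFr, h4, h5, if_false, h6, pow_one]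
    rw [h2]
    exact blockbound hBLM hB le_rfl (by norm_num) (i := j + 1 + x) (by omega) (m - x)
  have hFF0 : ∀ i (T : Finset π), 0 ≤ FFr q b j (j + 1 + m) i (om b T i) := by
    intro i T
    unfold FFr
    split_ifs
    · exact mul_nonneg (sq_nonneg _) (htau0 _ _)
    · exact mul_nonneg (sq_nonneg _) (htau0 _ _)
    · exact htau0 _ _
  have hE0 : ∀ i, 0 ≤ E1 q (fun T => FFr q b j (j + 1 + m) i (om b T i)) := fun i =>
    E1_nonneg hB.nonneg hq1 fun T => hFF0 i T
  have P1 : ∏ i ∈ range j, E1 q (fun T => FFr q b j (j + 1 + m) i (om b T i)) ≤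
      (∏ i ∈ range j, ee q b i) * Real.exp K := by
    calc _ ≤ ∏ i ∈ range j, (ee q b i * Real.exp ((1 / 4 : ℝ) ^ (j - i + 1) * K)) :=
          prod_le_prod (fun i _ => hE0 i) fun i hi => hlow i (mem_range.mp hi)
      _ = (∏ i ∈ range j, ee q b i) *
            Real.exp ((∑ i ∈ range j, (1 / 4 : ℝ) ^ (j - i + 1)) * K) := by
          rw [prod_mul_distrib, ← Real.exp_sum, ← sum_mul]
      _ ≤ _ := by
          refine mul_le_mul_of_nonneg_left (Real.exp_le_exp.mpr ?_)
            (prod_nonneg fun i hi => hee0 i (by have := mem_range.mp hi; omega))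
          have := geo' j
          nlinarith
  have P3 : ∏ x ∈ range m, E1 q (fun T => FFr q b j (j + 1 + m) (j + 1 + x)
      (om b T (j + 1 + x))) ≤ (∏ x ∈ range m, ee q b (j + 1 + x)) * Real.exp K := by
    calc _ ≤ ∏ x ∈ range m, (ee q b (j + 1 + x) * Real.exp ((1 / 4 : ℝ) ^ (m - x) * K)) :=
          prod_le_prod (fun x _ => hE0 (j + 1 + x)) fun x hx => hhigh x (mem_range.mp hx)
      _ = (∏ x ∈ range m, ee q b (j + 1 + x)) *
            Real.exp ((∑ x ∈ range m, (1 / 4 : ℝ) ^ (m - x)) * K) := by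
          rw [prod_mul_distrib, ← Real.exp_sum, ← sum_mul]
      _ ≤ _ := by
          refine mul_le_mul_of_nonneg_left (Real.exp_le_exp.mpr ?_)
            (prod_nonneg fun x hx => hee0 (j + 1 + x) (by have := mem_range.mp hx; omega))
          have := geo m
          nlinarith
  rw [prod_range_add, prod_range_succ, fr_eq, prod_range_add, prod_range_succ]
  have A1 : 0 ≤ ∏ i ∈ range j, ee q b i :=
    prod_nonneg fun i hi => hee0 i (by have := mem_range.mp hi; omega)
  have A2 : 0 ≤ ee q b j := hee0 j (by omega)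
  calc _ ≤ ((∏ i ∈ range j, ee q b i) * Real.exp K * (ee q b j * (C1 * Real.exp 2))) *
        ((∏ x ∈ range m, ee q b (j + 1 + x)) * Real.exp K) := by
        refine mul_le_mul (mul_le_mul P1 hmid (hE0 j) (by positivity)) P3
          (prod_nonneg fun x _ => hE0 (j + 1 + x)) (by positivity)
    _ = _ := by ring

end Pool.PP
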