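import Pool.Agent.Work.MP_b0c12c_px.QLoc
import Pool.Agent.Work.MP_b0c12c_pp.PartL

/-! # Block LOCQ (helper13) -/

set_option autoImplicit false

namespace Pool.PP

open Finset

section
variable {π ι : Type} [Fintype π] [DecidableEq π] [Fintype ι] [DecidableEq ι]

lemma LOCQ_EM_const (q : π → ℝ) (a : ℝ) : EM q (fun _ : ι → Finset π => a) = a := by
  have h := p_PMU π ι q (fun _ _ => 1)
  have e1 : E1 q (fun _ : Finset π => (1 : ℝ)) = 1 := by
    unfold E1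
    simp only [mul_one]
    exact (p_W1S π q).1
  have h2 : EM q (fun _ : ι → Finset π => (1 : ℝ)) = 1 := by
    have h3 := h
    simp only [Finset.prod_const_one] at h3
    rw [h3]
    refine Finset.prod_eq_one fun h _ => ?_
    exact e1
  have h4 := EM_mul' q a (fun _ : ι → Finset π => (1 : ℝ))
  simp only [mul_one] at h4
  rw [h4, h2, mul_one]

lemma LOCQ_EM_site (q : π → ℝ) (r : Finset π → ℝ) (m : ι) :
    EM q (fun t : ι → Finset π => r (t m)) = E1 q r := by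
  have h := IND_green π ι q (fun _ => 1) r m (fun _ _ => rfl)
  simp only [one_mul] at h
  rw [h, LOCQ_EM_const, one_mul]

/-- Comparison in the form used here. -/
lemma LOCQ_cmp (hC : Stmt_QCM) (q q' : π → ℝ) (z : ℕ) (k W E : ℝ)
    (Φ : (ι → Finset π) → ℝ) (h0 : ∀ x, 0 ≤ q x) (h1 : ∀ x, q x ≤ 1 / z)
    (h2 : ∀ x, 0 ≤ q' x) (h3 : ∀ x, |q' x - q x| ≤ 2 * q x ^ 2)
    (hq : q2 q ≤ 4 / z) (hz : 2 ≤ z) (hk : (Fintype.card ι : ℝ) ≤ k) (hk1 : 1 ≤ k)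
    (hkz : 40 * k ^ 4 ≤ z) (hW : EM q (fun t => Φ t ^ 2) ≤ W) (hE : 0 ≤ E)
    (hWE : 256 * k ^ 2 * W ≤ E ^ 2 * z) : |EN q' Φ - EM q Φ| ≤ E := by
  have hzp : (0 : ℝ) < z := by
    have : (2 : ℝ) ≤ z := by exact_mod_cast hz
    linarith
  have hc0 : (0 : ℝ) ≤ Fintype.card ι := Nat.cast_nonneg _
  have hz2 : (2 : ℝ) ≤ z := by exact_mod_cast hz
  have hk2 : k ≤ k ^ 4 := by
    calc k = k ^ 1 := (pow_one k).symm
      _ ≤ k ^ 4 := pow_le_pow_right₀ hk1 (by norm_num)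
  have hk3 : k ^ 2 ≤ k ^ 4 := pow_le_pow_right₀ hk1 (by norm_num)
  have hq0 : 0 ≤ q2 q := Finset.sum_nonneg fun x _ => sq_nonneg _
  have hW0 : 0 ≤ EM q (fun t => Φ t ^ 2) := by
    have := EM_le p_W1S q h0 (fun x => (h1 x).trans (by
      rw [div_le_one hzp]; linarith)) (fun _ => 0) (fun t => Φ t ^ 2) (fun t => sq_nonneg _)
    rwa [LOCQ_EM_const] at this
  have hcard2 : (Fintype.card ι : ℝ) ^ 2 ≤ k ^ 2 := pow_le_pow_left₀ hc0 hk 2
  have h := hC π ι q q' Φ h0 (fun x => (h1 x).trans (by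
      rw [div_le_iff₀ hzp]; linarith)) h2 h3 (fun x => by
      calc (Fintype.card ι : ℝ) * q x ≤ k * (1 / z) :=
            mul_le_mul hk (h1 x) (h0 x) (by linarith)
        _ = k / z := by ring
        _ ≤ 1 / 10 := by rw [div_le_iff₀ hzp]; nlinarith) (by
      calc (Fintype.card ι : ℝ) ^ 2 * q2 q ≤ k ^ 2 * (4 / z) :=
            mul_le_mul hcard2 hq hq0 (sq_nonneg _)
        _ = 4 * k ^ 2 / z := by ring
        _ ≤ 1 / 10 := by rw [div_le_iff₀ hzp]; nlinarith)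
  have h5 : 64 * (Fintype.card ι : ℝ) ^ 2 * q2 q * EM q (fun t => Φ t ^ 2) ≤ E ^ 2 := by
    calc 64 * (Fintype.card ι : ℝ) ^ 2 * q2 q * EM q (fun t => Φ t ^ 2)
        ≤ 64 * k ^ 2 * (4 / z) * W := by
          refine mul_le_mul ?_ hW hW0 (by positivity)
          refine mul_le_mul ?_ hq hq0 (by positivity)
          exact mul_le_mul_of_nonneg_left hcard2 (by norm_num)
      _ = 256 * k ^ 2 * W / z := by ring
      _ ≤ E ^ 2 := by rw [div_le_iff₀ hzp]; exact hWE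
  exact abs_le_of_sq_le_sq (h.trans h5) hE

end

theorem p_LOCQ (h1 : Stmt_QI1) (h2 : Stmt_QI2) (h3 : Stmt_QI3) (hJ : Stmt_QMJ) (hG : Stmt_QGM)
    (hF : Stmt_QFM) (hR : Stmt_QRE) (hC : Stmt_QCM) (hX : Stmt_QXB) : Stmt_LOCQ := by
  obtain ⟨C0, z1, hC0, hz1, hX⟩ := hX
  refine ⟨C0 ^ 2, by nlinarith, ?_⟩
  intro J k Θ R ε hJ1 hΘ hRp hε hp1 hp2
  obtain ⟨B1, hB1⟩ : ∃ B1 : ℝ, B1 = Real.exp (2 ^ 8 * (C0 * 2 ^ J * R)) := ⟨_, rfl⟩
  have hB1p : 0 < B1 := by rw [hB1]; exact Real.exp_pos _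
  obtain ⟨B2, hB2⟩ : ∃ B2 : ℝ, B2 = B1 + C0 := ⟨_, rfl⟩
  have hB2p : 0 < B2 := by rw [hB2]; linarith
  obtain ⟨z2, hz2⟩ := exists_nat_ge (max 40 (256 * B2 / ε ^ 2))
  have hz2a : (40 : ℝ) ≤ z2 := (le_max_left _ _).trans hz2
  have hz2b : 256 * B2 ≤ ε ^ 2 * z2 := by
    have h := (le_max_right _ _).trans hz2
    rw [div_le_iff₀ (by positivity)] at h
    linarith
  refine ⟨max z1 z2, B1 + ε, le_max_of_le_left hz1, ?_⟩
  intro z I π ι _ _ _ _ pr b S KK hz hJI hPB hS hcard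
  have hzz1 : z1 ≤ z := (le_max_left _ _).trans hz
  have hzz2 : z2 ≤ z := (le_max_right _ _).trans hz
  obtain ⟨hO, hf0, hr0, hrn, hq, hqq, hq2, hmom, hXl, hXu, hY0, hYu⟩ :=
    hX z I J π pr b hzz1 hJ1 hJI hPB
  have hz2' : 2 ≤ z := hz1.trans hzz1
  have hzp : (0 : ℝ) < z := by
    have : (2 : ℝ) ≤ z := by exact_mod_cast hz2'
    linarith
  have hz1r : (1 : ℝ) / z ≤ 1 := by
    rw [div_le_one hzp]
    have : (2 : ℝ) ≤ z := by exact_mod_cast hz2'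
    linarith
  have hq0 : ∀ x, 0 ≤ qc 0 pr x := fun x => (hq x).1
  have hqz : ∀ x, qc 0 pr x ≤ 1 / z := fun x => (hq x).2
  have hq1 : ∀ x, qc 0 pr x ≤ 1 := fun x => (hqz x).trans hz1r
  have hJp : (0 : ℝ) < J := by exact_mod_cast hJ1
  obtain ⟨f, hf⟩ : ∃ f : Fin J → Finset π → ℝ, f = fun s : Fin J => gs (qc 0 pr) b I s := ⟨_, rfl⟩
  rw [← hf] at hO hXl hXu hY0 hYu ⊢
  obtain ⟨q, hqdef⟩ : ∃ q : π → ℝ, q = qc 0 pr := ⟨_, rfl⟩
  rw [← hqdef] at hO hq0 hqz hq1 hq2 hXl hXu hY0 hYu hmom ⊢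
  obtain ⟨V, hV⟩ : ∃ V : ℝ, V = (1 / 2 : ℝ) ^ I := ⟨_, rfl⟩
  have hVp : 0 < V := by rw [hV]; positivity
  have hV1 : V ≤ 1 := by rw [hV]; exact pow_le_one₀ (by norm_num) (by norm_num)
  rw [← hV] at hXl hXu hYu hS hmom
  have h2J : (0 : ℝ) < 2 ^ J := by positivity
  have hsX : 0 < sX (xs q f) := lt_of_lt_of_le (by positivity) hXl
  have hΘ1 : (1 : ℝ) ≤ Θ := by exact_mod_cast hΘ
  -- level
  have hKS : ((KK ∩ S).card : ℝ) ≤ S.card := by
    exact_mod_cast Finset.card_le_card Finset.inter_subset_right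
  have hlev2 : ((KK ∩ S).card : ℝ) * sY (xs q f) ≤ Θ / 16 := by
    calc ((KK ∩ S).card : ℝ) * sY (xs q f) ≤ S.card * (C0 * V / J) :=
          mul_le_mul hKS hYu hY0 (Nat.cast_nonneg _)
      _ = C0 * (S.card * V) / J := by ring
      _ ≤ C0 * R / J := by gcongr
      _ ≤ C0 ^ 2 * R / J := by
          gcongr
          nlinarith
      _ ≤ Θ / 16 := hp1
  have hlev1 : sY (xs q f) / sX (xs q f) ≤ C0 ^ 2 * J / 2 ^ J := by
    rw [div_le_div_iff₀ hsX h2J]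
    calc sY (xs q f) * 2 ^ J ≤ (C0 * V / J) * 2 ^ J := by gcongr
      _ = C0 ^ 2 * J * ((1 / C0) * (2 ^ J * V / (J : ℝ) ^ 2)) := by
          field_simp
      _ ≤ C0 ^ 2 * J * sX (xs q f) := by gcongr
  have hlev0 : 0 ≤ sY (xs q f) / sX (xs q f) := div_nonneg hY0 hsX.le
  have htl : ∀ n : ℕ, n ≤ k + 1 →
      tl (xs q f) S KK n (Θ - 1) ≤ Real.exp (1 - 3 * (Θ : ℝ) / 4) := by
    intro n hn
    unfold tl
    refine Real.exp_le_exp.mpr ?_
    have hn' : (n : ℝ) ≤ (k : ℝ) + 1 := by exact_mod_cast hn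
    have : (n : ℝ) * (sY (xs q f) / sX (xs q f)) ≤ Θ / 16 := by
      calc (n : ℝ) * (sY (xs q f) / sX (xs q f)) ≤ ((k : ℝ) + 1) * (C0 ^ 2 * J / 2 ^ J) :=
            mul_le_mul hn' hlev1 hlev0 (by positivity)
        _ = C0 ^ 2 * ((k : ℝ) + 1) * J / 2 ^ J := by ring
        _ ≤ Θ / 16 := hp2
    linarith
  have hmU : ∀ n : ℕ, 0 ≤ mU (xs q f) S KK n := fun n => by unfold mU; positivity
  -- moments of the majorant
  obtain ⟨A, hA⟩ : ∃ A : ℝ, A = C0 * 2 ^ J * V := ⟨_, rfl⟩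
  have hA0 : 0 ≤ A := by rw [hA]; positivity
  have hAf : ∀ s, ∀ j, 1 ≤ j → j ≤ 8 → E1 q (fun T => |f s T| ^ j) ≤ A := by
    intro s j hj hj8
    have h := (hmom j hj hj8).1 s
    rw [hf, ← hqdef]
    refine h.trans ?_
    rw [hA]
    have : (2 : ℝ) ^ (s : ℕ) ≤ 2 ^ J := pow_le_pow_right₀ (by norm_num) s.2.le
    gcongr
  have hAS : A * S.card ≤ C0 * 2 ^ J * R := by
    calc A * S.card = C0 * 2 ^ J * (S.card * V) := by rw [hA]; ring
      _ ≤ C0 * 2 ^ J * R := by gcongr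
  have hMaj : ∀ (T : Finset ι) (r : ℕ), T ⊆ S → r ≤ 8 →
      EM q (fun t => (∏ h ∈ T, (1 + gt f (t h))) ^ r) ≤ B1 := by
    intro T r hT hr
    refine (hG π ι q J f T A r hJ1 hq0 hq1 hA0
      (fun s j hj hjr => hAf s j hj (hjr.trans hr))).trans ?_
    rw [hB1]
    refine Real.exp_le_exp.mpr ?_
    have hTS : (T.card : ℝ) ≤ S.card := by exact_mod_cast Finset.card_le_card hT
    have h2r : (2 : ℝ) ^ r ≤ 2 ^ 8 := pow_le_pow_right₀ (by norm_num) hr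
    calc 2 ^ r * A * T.card ≤ 2 ^ 8 * A * S.card := by gcongr
      _ = 2 ^ 8 * (A * S.card) := by ring
      _ ≤ 2 ^ 8 * (C0 * 2 ^ J * R) := by gcongr
  have hgt : ∀ T : Finset π, 0 ≤ gt f T := fun T => by
    unfold gt
    exact mul_nonneg (by positivity) (Finset.sum_nonneg fun s _ => abs_nonneg _)
  have hprod : ∀ (T : Finset ι) (t : ι → Finset π), 0 ≤ ∏ h ∈ T, (1 + gt f (t h)) :=
    fun T t => Finset.prod_nonneg fun h _ => by linarith [hgt (t h)]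
  -- the number of shifts
  obtain ⟨c, hc⟩ : ∃ c : ℝ, c = max 1 (Fintype.card ι : ℝ) := ⟨_, rfl⟩
  have hc1 : 1 ≤ c := by rw [hc]; exact le_max_left _ _
  have hcc : (Fintype.card ι : ℝ) ≤ c := by rw [hc]; exact le_max_right _ _
  have hcz : c ^ 4 * z2 ≤ z := by
    have hzz2' : (z2 : ℝ) ≤ z := by exact_mod_cast hzz2
    rw [hc]
    rcases le_total (1 : ℝ) (Fintype.card ι : ℝ) with h | h
    · rw [max_eq_right h]
      have h4 : Fintype.card ι ^ 4 * z2 ≤ z :=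
        (Nat.mul_le_mul_left _ (le_max_right z1 z2)).trans hcard
      exact_mod_cast h4
    · rw [max_eq_left h]; simpa using hzz2'
  have hc4 : 0 ≤ c ^ 4 := by positivity
  have hkz : 40 * c ^ 4 ≤ z := by
    calc 40 * c ^ 4 = c ^ 4 * 40 := by ring
      _ ≤ c ^ 4 * z2 := by gcongr
      _ ≤ z := hcz
  have hbig : 256 * c ^ 4 * B2 ≤ ε ^ 2 * z := by
    calc 256 * c ^ 4 * B2 = c ^ 4 * (256 * B2) := by ring
      _ ≤ c ^ 4 * (ε ^ 2 * z2) := by gcongr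
      _ = ε ^ 2 * (c ^ 4 * z2) := by ring
      _ ≤ ε ^ 2 * z := by gcongr
  have hc24 : c ^ 2 ≤ c ^ 4 := pow_le_pow_right₀ hc1 (by norm_num)
  have hB12 : B1 ≤ B2 := by rw [hB2]; linarith
  have hbig1 : 256 * c ^ 2 * B1 ≤ ε ^ 2 * z := by
    calc 256 * c ^ 2 * B1 ≤ 256 * c ^ 4 * B2 := by gcongr
      _ ≤ _ := hbig
  have hqself : ∀ x, |q x - q x| ≤ 2 * q x ^ 2 := fun x => by
    rw [sub_self, abs_zero]; positivity
  have hScard : (S.card : ℝ) ≤ c := by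
    refine le_trans ?_ hcc
    exact_mod_cast Finset.card_le_univ S
  refine ⟨?_, ?_, ?_, ?_⟩
  · -- Om
    have hM2 : EM q (fun t => OmQ f S KK (k + 1) Θ t ^ 2) ≤ B1 := by
      refine le_trans (EM_le p_W1S q hq0 hq1 _ _ fun t => ?_) (hMaj S 4 le_rfl (by norm_num))
      obtain ⟨g0, g1, -⟩ := hJ π ι J f (rho b I) S KK (k + 1) Θ t hJ1 hrn
      calc OmQ f S KK (k + 1) Θ t ^ 2 ≤ ((∏ h ∈ S, (1 + gt f (t h))) ^ 2) ^ 2 :=
            pow_le_pow_left₀ g0 g1 2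
        _ = (∏ h ∈ S, (1 + gt f (t h))) ^ 4 := by ring
    have hcmp := LOCQ_cmp hC q q z c B1 ε (OmQ f S KK (k + 1) Θ) hq0 hqz hq0 hqself hq2 hz2' hcc
      hc1 hkz hM2 hε.le hbig1
    have h := h1 π ι q J f S KK (k + 1) Θ hq0 hq1 hO
    have := (abs_le.mp hcmp).2
    linarith
  · -- Om ^ 2
    have hM1 : EM q (fun t => OmQ f S KK (k + 1) Θ t ^ 2) ≤ B1 := by
      refine le_trans (EM_le p_W1S q hq0 hq1 _ _ fun t => ?_) (hMaj S 4 le_rfl (by norm_num))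
      obtain ⟨g0, g1, -⟩ := hJ π ι J f (rho b I) S KK (k + 1) Θ t hJ1 hrn
      calc OmQ f S KK (k + 1) Θ t ^ 2 ≤ ((∏ h ∈ S, (1 + gt f (t h))) ^ 2) ^ 2 :=
            pow_le_pow_left₀ g0 g1 2
        _ = (∏ h ∈ S, (1 + gt f (t h))) ^ 4 := by ring
    have hM2 : EM q (fun t => (OmQ f S KK (k + 1) Θ t ^ 2) ^ 2) ≤ B1 := by
      refine le_trans (EM_le p_W1S q hq0 hq1 _ _ fun t => ?_) (hMaj S 8 le_rfl (by norm_num))
      obtain ⟨g0, g1, -⟩ := hJ π ι J f (rho b I) S KK (k + 1) Θ t hJ1 hrn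
      calc (OmQ f S KK (k + 1) Θ t ^ 2) ^ 2 ≤ (((∏ h ∈ S, (1 + gt f (t h))) ^ 2) ^ 2) ^ 2 := by
            gcongr
        _ = (∏ h ∈ S, (1 + gt f (t h))) ^ 8 := by ring
    have hcmp := LOCQ_cmp hC q q z c B1 ε (fun t => OmQ f S KK (k + 1) Θ t ^ 2) hq0 hqz hq0
      hqself hq2 hz2' hcc hc1 hkz hM2 hε.le hbig1
    have := (abs_le.mp hcmp).2
    linarith
  · -- Bd
    have hM2 : EM q (fun t => BdQ f (rho b I) S KK (k + 1) Θ t ^ 2) ≤ c ^ 2 * B2 := by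
      have hpt : ∀ t : ι → Finset π, BdQ f (rho b I) S KK (k + 1) Θ t ^ 2 ≤
          c * ∑ m ∈ KK ∩ S, ((∏ h ∈ S.erase m, (1 + gt f (t h))) ^ 8 + rho b I (t m) ^ 4) := by
        intro t
        obtain ⟨-, -, g2, g3, -⟩ := hJ π ι J f (rho b I) S KK (k + 1) Θ t hJ1 hrn
        have hcs : (∑ m ∈ KK ∩ S, (∏ h ∈ S.erase m, (1 + gt f (t h))) ^ 2 * rho b I (t m)) ^ 2 ≤
            ((KK ∩ S).card : ℝ) *
              ∑ m ∈ KK ∩ S, ((∏ h ∈ S.erase m, (1 + gt f (t h))) ^ 2 * rho b I (t m)) ^ 2 :=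
          sq_sum_le_card_mul_sum_sq
        calc BdQ f (rho b I) S KK (k + 1) Θ t ^ 2
            ≤ (∑ m ∈ KK ∩ S, (∏ h ∈ S.erase m, (1 + gt f (t h))) ^ 2 * rho b I (t m)) ^ 2 :=
              pow_le_pow_left₀ g2 g3 2
          _ ≤ ((KK ∩ S).card : ℝ) *
              ∑ m ∈ KK ∩ S, ((∏ h ∈ S.erase m, (1 + gt f (t h))) ^ 2 * rho b I (t m)) ^ 2 := hcs
          _ ≤ c * ∑ m ∈ KK ∩ S, ((∏ h ∈ S.erase m, (1 + gt f (t h))) ^ 8 + rho b I (t m) ^ 4) := by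
              refine mul_le_mul (hKS.trans hScard) ?_
                (Finset.sum_nonneg fun m _ => sq_nonneg _) (by linarith)
              refine Finset.sum_le_sum fun m _ => ?_
              nlinarith [sq_nonneg ((∏ h ∈ S.erase m, (1 + gt f (t h))) ^ 4 - rho b I (t m) ^ 2),
                sq_nonneg ((∏ h ∈ S.erase m, (1 + gt f (t h))) ^ 4 + rho b I (t m) ^ 2)]
      refine (EM_le p_W1S q hq0 hq1 _ _ hpt).trans ?_
      rw [EM_mul', EM_sum']
      have hterm : ∀ m ∈ KK ∩ S,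
          EM q (fun t => (∏ h ∈ S.erase m, (1 + gt f (t h))) ^ 8 + rho b I (t m) ^ 4) ≤ B2 := by
        intro m _
        rw [EM_add']
        have e1 := hMaj (S.erase m) 8 (Finset.erase_subset _ _) le_rfl
        have e2 : EM q (fun t : ι → Finset π => rho b I (t m) ^ 4) ≤ C0 := by
          rw [LOCQ_EM_site q (fun T => rho b I T ^ 4) m]
          refine ((hmom 4 (by norm_num) (by norm_num)).2.1).trans ?_
          calc C0 * V ≤ C0 * 1 := by gcongr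
            _ = C0 := mul_one _
        rw [hB2]
        exact add_le_add e1 e2
      calc c * ∑ m ∈ KK ∩ S,
            EM q (fun t => (∏ h ∈ S.erase m, (1 + gt f (t h))) ^ 8 + rho b I (t m) ^ 4)
          ≤ c * ∑ m ∈ KK ∩ S, B2 := by
            refine mul_le_mul_of_nonneg_left (Finset.sum_le_sum hterm) (by linarith)
        _ = c * ((KK ∩ S).card * B2) := by rw [Finset.sum_const, nsmul_eq_mul]
        _ ≤ c * (c * B2) := by
            refine mul_le_mul_of_nonneg_left ?_ (by linarith)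
            exact mul_le_mul_of_nonneg_right (hKS.trans hScard) hB2p.le
        _ = c ^ 2 * B2 := by ring
    have hbig2 : 256 * c ^ 2 * (c ^ 2 * B2) ≤ ε ^ 2 * z := by
      calc 256 * c ^ 2 * (c ^ 2 * B2) = 256 * c ^ 4 * B2 := by ring
        _ ≤ _ := hbig
    have hcmp := LOCQ_cmp hC q q z c (c ^ 2 * B2) ε (BdQ f (rho b I) S KK (k + 1) Θ) hq0 hqz hq0
      hqself hq2 hz2' hcc hc1 hkz hM2 hε.le hbig2
    have h := h2 π ι q J f (rho b I) S KK (k + 1) Θ hq0 hq1 hO hJ1 hrn hsX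
    have hU : 0 ≤ ((S \ KK).card.choose (k + 1) : ℝ) * mU (xs q f) S KK (k + 1) :=
      mul_nonneg (Nat.cast_nonneg _) (hmU _)
    have hE : ((KK ∩ S).card : ℝ) * E1 q (rho b I) ≤ C0 ^ 2 * R := by
      have e1 : E1 q (rho b I) ≤ C0 * V := by
        have := (hmom 1 le_rfl (by norm_num)).2.1
        simpa using this
      calc ((KK ∩ S).card : ℝ) * E1 q (rho b I) ≤ (KK ∩ S).card * (C0 * V) := by gcongr
        _ ≤ S.card * (C0 * V) := by gcongr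
        _ = C0 * (S.card * V) := by ring
        _ ≤ C0 * R := by gcongr
        _ ≤ C0 ^ 2 * R := by
            gcongr
            nlinarith
    have hfin : ((KK ∩ S).card : ℝ) * E1 q (rho b I) * tl (xs q f) S KK (k + 1) (Θ - 1) *
        (((S \ KK).card.choose (k + 1) : ℝ) * mU (xs q f) S KK (k + 1)) ≤
        C0 ^ 2 * R * Real.exp (1 - 3 * (Θ : ℝ) / 4) *
          (((S \ KK).card.choose (k + 1) : ℝ) * mU (xs q f) S KK (k + 1)) := by
      refine mul_le_mul_of_nonneg_right ?_ hU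
      refine mul_le_mul hE (htl (k + 1) le_rfl) (Real.exp_pos _).le (by positivity)
    have := (abs_le.mp hcmp).2
    linarith
  · -- Pr
    intro h0 hh0
    obtain ⟨hh0S, hh0K⟩ := Finset.mem_sdiff.mp hh0
    have hcardpos : 0 < Fintype.card ι := Fintype.card_pos_iff.mpr ⟨h0⟩
    have hcpos : (0 : ℝ) < (Fintype.card ι : ℝ) := by exact_mod_cast hcardpos
    have hc_eq : c = (Fintype.card ι : ℝ) := by
      rw [hc]
      refine max_eq_right ?_
      exact_mod_cast hcardpos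
    have hinv : ∀ t a, PrQ f S KK (k + 1) Θ h0 (Function.update t h0 a) =
        PrQ f S KK (k + 1) Θ h0 t := fun t a => hF π ι J f S KK (k + 1) Θ h0 t a
    have hred := hR π ι q (PrQ f S KK (k + 1) Θ h0) h0 hinv
    have hred2 := hR π ι q (fun t => PrQ f S KK (k + 1) Θ h0 t ^ 2) h0
      (fun t a => by rw [hinv])
    have hM2 : EM q (fun t : {h : ι // h ≠ h0} → Finset π =>
        PrQ f S KK (k + 1) Θ h0 (ext h0 t) ^ 2) ≤ B1 := by
      rw [hred2]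
      refine le_trans (EM_le p_W1S q hq0 hq1 _ _ fun t => ?_) (hMaj S 4 le_rfl (by norm_num))
      obtain ⟨-, -, -, -, g⟩ := hJ π ι J f (rho b I) S KK (k + 1) Θ t hJ1 hrn
      obtain ⟨g0, g1⟩ := g h0 hh0K
      calc PrQ f S KK (k + 1) Θ h0 t ^ 2 ≤ ((∏ h ∈ S, (1 + gt f (t h))) ^ 2) ^ 2 :=
            pow_le_pow_left₀ g0 g1 2
        _ = (∏ h ∈ S, (1 + gt f (t h))) ^ 4 := by ring
    have hcard' : (Fintype.card {h : ι // h ≠ h0} : ℝ) ≤ c := by
      refine le_trans ?_ hcc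
      exact_mod_cast Fintype.card_subtype_le _
    have hq'0 : ∀ x, 0 ≤ qc 1 pr x := by
      intro x
      unfold qc
      have h2 := hqz x
      rw [hqdef] at h2
      have h3 := hPB.blo x
      have h4 : 1 ≤ pr x := by omega
      have h5 : (1 : ℝ) ≤ pr x := by exact_mod_cast h4
      exact div_nonneg zero_le_one (by push_cast; linarith)
    have hbig3 : 256 * c ^ 2 * B1 ≤ (ε / c) ^ 2 * z := by
      have hcp : 0 < c := by linarith
      have e : (ε / c) ^ 2 * z = ε ^ 2 * z / c ^ 2 := by ring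
      rw [e, le_div_iff₀ (by positivity)]
      calc 256 * c ^ 2 * B1 * c ^ 2 = 256 * c ^ 4 * B1 := by ring
        _ ≤ 256 * c ^ 4 * B2 := by gcongr
        _ ≤ _ := hbig
    have hqq' : ∀ x, |qc 1 pr x - q x| ≤ 2 * q x ^ 2 := by rw [hqdef]; exact hqq
    have hcmp := LOCQ_cmp hC q (qc 1 pr) z c B1 (ε / c)
      (fun t : {h : ι // h ≠ h0} → Finset π => PrQ f S KK (k + 1) Θ h0 (ext h0 t))
      hq0 hqz hq'0 hqq' hq2 hz2' hcard' hc1 hkz hM2 (by positivity) hbig3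
    have h := h3 π ι q J f S KK k Θ h0 hq0 hq1 hO hJ1 hsX hh0S hh0K
    rw [hred] at hcmp
    have hlow := (abs_le.mp hcmp).1
    rw [hc_eq] at hlow
    have hch : (0 : ℝ) ≤ ((S \ KK).card - 1).choose k * mU (xs q f) S KK k :=
      mul_nonneg (Nat.cast_nonneg _) (hmU _)
    have hfin : (1 - Real.exp (1 - 3 * (Θ : ℝ) / 4)) * (((S \ KK).card - 1).choose k : ℝ) *
        mU (xs q f) S KK k ≤ (1 - tl (xs q f) S KK k (Θ - 1)) *
        (((S \ KK).card - 1).choose k : ℝ) * mU (xs q f) S KK k := by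
      rw [mul_assoc, mul_assoc]
      refine mul_le_mul_of_nonneg_right ?_ hch
      have := htl k (Nat.le_succ k)
      linarith
    linarith

end Pool.PP
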