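import Pool.Agent.Work.MP_b0c12c_px.UDefs
import Pool.Agent.Work.MP_b0c12c_px.B_LOCQ

/-! # Block LOCU (helper13) -/

set_option autoImplicit false

namespace Pool.PP

open Finset

section
variable {π ι : Type} [Fintype π] [DecidableEq π] [Fintype ι] [DecidableEq ι]

lemma LOCU_EM_two (q : π → ℝ) (r : Finset π → ℝ) (a a' : ι) (h : a ≠ a') :
    EM q (fun t : ι → Finset π => r (t a) * r (t a')) = E1 q r * E1 q r := by
  have h1 := IND_green π ι q (fun t => r (t a)) r a' (fun t T => by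
    simp only [Function.update_of_ne h])
  rw [h1, LOCQ_EM_site]

end

theorem p_LOCU (h1 : Stmt_QI1) (h2 : Stmt_UI2) (h3 : Stmt_UI3) (hP : Stmt_UPA) (hJ : Stmt_QMJ)
    (hG : Stmt_QGM) (hF : Stmt_QFM) (hR : Stmt_QRE) (hC : Stmt_QCM) (hX : Stmt_QXB)
    (hO : Stmt_GRO) (hM : Stmt_BMR) : Stmt_LOCU := by
  obtain ⟨C0, z1, hC0, hz1, hX⟩ := hX
  obtain ⟨C1, hC1, hGRO⟩ := hO
  obtain ⟨C2, z3, hz3, hBMR⟩ := hM
  obtain ⟨C2', hC2', hC21⟩ : ∃ C2' : ℝ, C2 ≤ C2' ∧ 1 ≤ C2' :=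
    ⟨max C2 1, le_max_left _ _, le_max_right _ _⟩
  obtain ⟨C3, hC3a, hC3b⟩ : ∃ C3 : ℝ, C0 ≤ C3 ∧ C1 * C2' ≤ C3 :=
    ⟨max C0 (C1 * C2'), le_max_left _ _, le_max_right _ _⟩
  have hC31 : 1 ≤ C3 := hC0.trans hC3a
  have hC3sq : C3 ≤ C3 ^ 2 := by nlinarith
  have hC03sq : C0 ≤ C3 ^ 2 := hC3a.trans hC3sq
  have hC0sq : C0 ^ 2 ≤ C3 ^ 2 := by
    have : 0 ≤ C0 := by linarith
    gcongr
  refine ⟨C3 ^ 2, by nlinarith, ?_⟩
  intro J k R ε A hJ1 hRp hε hA
  obtain ⟨B1, hB1⟩ : ∃ B1 : ℝ, B1 = Real.exp (2 ^ 8 * (C0 * 2 ^ J * R)) := ⟨_, rfl⟩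
  have hB1p : 0 < B1 := by rw [hB1]; exact Real.exp_pos _
  obtain ⟨B2, hB2⟩ : ∃ B2 : ℝ, B2 = (1 + A ^ 2) * (B1 + C0 ^ 2) := ⟨_, rfl⟩
  have hB2p : 0 < B2 := by rw [hB2]; positivity
  have hB12 : B1 + C0 ≤ B2 := by
    rw [hB2]
    have : C0 ≤ C0 ^ 2 := by nlinarith
    nlinarith [mul_nonneg (sq_nonneg A) (by positivity : (0:ℝ) ≤ B1 + C0 ^ 2)]
  have hB12' : B1 ≤ B2 := by linarith
  have hB12A : A ^ 2 * (B1 + C0 ^ 2) ≤ B2 := by
    rw [hB2]
    nlinarith [(by positivity : (0:ℝ) ≤ B1 + C0 ^ 2)]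
  obtain ⟨z2, hz2⟩ := exists_nat_ge (max 40 (256 * B2 / ε ^ 2))
  have hz2a : (40 : ℝ) ≤ z2 := (le_max_left _ _).trans hz2
  have hz2b : 256 * B2 ≤ ε ^ 2 * z2 := by
    have h := (le_max_right _ _).trans hz2
    rw [div_le_iff₀ (by positivity)] at h
    linarith
  refine ⟨max (max z1 z2) z3, B1 + ε, le_max_of_le_left (le_max_of_le_left hz1), ?_⟩
  intro z I π ι _ _ _ _ pr b S KK x t₀ hz hJI hPB hS hcard hx ht₀
  have hzz1 : z1 ≤ z := (le_max_left _ _).trans ((le_max_left _ _).trans hz)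
  have hzz2 : z2 ≤ z := (le_max_right _ _).trans ((le_max_left _ _).trans hz)
  have hzz3 : z3 ≤ z := (le_max_right _ _).trans hz
  obtain ⟨hOr, hf0, hr0, hrn, hq, hqq, hq2, hmom, hXl, hXu, hY0, hYu⟩ :=
    hX z I J π pr b hzz1 hJ1 hJI hPB
  obtain ⟨hBlk, hfr, -⟩ := hBMR z I hzz3 π pr b hPB 0 (by norm_num)
  have hgro := hGRO π (qc 0 pr) b I hBlk
  have hz2' : 2 ≤ z := hz1.trans hzz1
  have hzp : (0 : ℝ) < z := by
    have : (2 : ℝ) ≤ z := by exact_mod_cast hz2'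
    linarith
  have hz1r : (1 : ℝ) / z ≤ 1 := by
    rw [div_le_one hzp]
    have : (2 : ℝ) ≤ z := by exact_mod_cast hz2'
    linarith
  have hq0 : ∀ x, 0 ≤ qc 0 pr x := fun x => (hq x).1
  have hqz : ∀ x, qc 0 pr x ≤ 1 / z := fun x => (hq x).2
  have hq1 : ∀ x, qc 0 pr x ≤ 1 := fun x => (hqz x).trans hz1r
  have hJp : (0 : ℝ) < J := by exact_mod_cast hJ1
  have hC1V : E1 (qc 0 pr) (rho b I) ≤ C0 * (1 / 2 : ℝ) ^ I := by
    have := (hmom 1 le_rfl (by norm_num)).2.1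
    simpa using this
  have hGr : ∀ s : Fin J, E1 (qc 0 pr) (fun T => gs (qc 0 pr) b I s T ^ 2 * rho b I T) ≤
      C3 * (1 / 2 : ℝ) ^ I := by
    intro s
    have hsI : (s : ℕ) < I := lt_of_lt_of_le s.2 hJI
    calc E1 (qc 0 pr) (fun T => gs (qc 0 pr) b I s T ^ 2 * rho b I T)
        ≤ C1 * fr (qc 0 pr) b I := hgro (I - 1 - s) (by omega)
      _ ≤ C1 * (C2 * (1 / 2 : ℝ) ^ I) := by
          have := hfr I le_rfl
          gcongr
      _ ≤ C1 * (C2' * (1 / 2 : ℝ) ^ I) := by gcongr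
      _ = C1 * C2' * (1 / 2 : ℝ) ^ I := by ring
      _ ≤ C3 * (1 / 2 : ℝ) ^ I := by gcongr
  obtain ⟨f, hf⟩ : ∃ f : Fin J → Finset π → ℝ, f = fun s : Fin J => gs (qc 0 pr) b I s := ⟨_, rfl⟩
  rw [← hf] at hOr hXl hXu hY0 hYu hx ⊢
  obtain ⟨q, hqdef⟩ : ∃ q : π → ℝ, q = qc 0 pr := ⟨_, rfl⟩
  rw [← hqdef] at hOr hq0 hqz hq1 hq2 hXl hXu hY0 hYu hmom hx hC1V hGr ⊢
  have hGr' : ∀ s : Fin J, E1 q (fun T => f s T ^ 2 * rho b I T) ≤ C3 * (1 / 2 : ℝ) ^ I := by
    intro s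
    rw [hf, ← hqdef]
    exact hGr s
  obtain ⟨V, hV⟩ : ∃ V : ℝ, V = (1 / 2 : ℝ) ^ I := ⟨_, rfl⟩
  have hVp : 0 < V := by rw [hV]; positivity
  have hV1 : V ≤ 1 := by rw [hV]; exact pow_le_one₀ (by norm_num) (by norm_num)
  have hV4 : V ^ 2 = (1 / 4 : ℝ) ^ I := by
    rw [hV, ← pow_mul, mul_comm, pow_mul]; norm_num
  rw [← hV] at hXl hXu hYu hS hmom hC1V hGr'
  subst hx
  have h2J : (0 : ℝ) < 2 ^ J := by positivity
  have hsX : 0 < sX (xs q f) := lt_of_lt_of_le (by positivity) hXl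
  -- level
  have hKS : ((KK ∩ S).card : ℝ) ≤ S.card := by
    exact_mod_cast Finset.card_le_card Finset.inter_subset_right
  have hlev2 : ((KK ∩ S).card : ℝ) * sY (xs q f) ≤ C3 ^ 2 * (R / J) := by
    calc ((KK ∩ S).card : ℝ) * sY (xs q f) ≤ S.card * (C0 * V / J) :=
          mul_le_mul hKS hYu hY0 (Nat.cast_nonneg _)
      _ = C0 * (S.card * V) / J := by ring
      _ ≤ C0 * R / J := by gcongr
      _ = C0 * (R / J) := by ring
      _ ≤ C3 ^ 2 * (R / J) := by gcongr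
  have hlev1 : sY (xs q f) / sX (xs q f) ≤ C3 ^ 2 * J / 2 ^ J := by
    refine le_trans ?_ (show C0 ^ 2 * J / 2 ^ J ≤ C3 ^ 2 * J / 2 ^ J by gcongr)
    rw [div_le_div_iff₀ hsX h2J]
    calc sY (xs q f) * 2 ^ J ≤ (C0 * V / J) * 2 ^ J := by gcongr
      _ = C0 ^ 2 * J * ((1 / C0) * (2 ^ J * V / (J : ℝ) ^ 2)) := by
          field_simp
      _ ≤ C0 ^ 2 * J * sX (xs q f) := by gcongr
  have hlev0 : 0 ≤ sY (xs q f) / sX (xs q f) := div_nonneg hY0 hsX.le
  have htm : ∀ n : ℕ, n ≤ k + 1 → tm (xs q f) S KK n ≤ t₀ := by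
    intro n hn
    unfold tm
    rw [ht₀]
    have hn' : (n : ℝ) ≤ (k : ℝ) + 1 := by exact_mod_cast hn
    have : (n : ℝ) * (sY (xs q f) / sX (xs q f)) ≤ C3 ^ 2 * (((k : ℝ) + 1) * J / 2 ^ J) := by
      calc (n : ℝ) * (sY (xs q f) / sX (xs q f)) ≤ ((k : ℝ) + 1) * (C3 ^ 2 * J / 2 ^ J) :=
            mul_le_mul hn' hlev1 hlev0 (by positivity)
        _ = C3 ^ 2 * (((k : ℝ) + 1) * J / 2 ^ J) := by ring
    linarith
  have htm0 : ∀ n : ℕ, 0 ≤ tm (xs q f) S KK n := by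
    intro n
    unfold tm
    positivity
  have ht0 : 0 ≤ t₀ := (htm0 (k + 1)).trans (htm (k + 1) le_rfl)
  have hmU : ∀ n : ℕ, 0 ≤ mU (xs q f) S KK n := fun n => by unfold mU; positivity
  have hZU : ∀ n : ℕ, 0 ≤ ZU (xs q f) S KK n := fun n => by
    unfold ZU
    exact mul_nonneg (Nat.cast_nonneg _) (hmU n)
  -- moments of the majorant
  obtain ⟨Am, hAm⟩ : ∃ Am : ℝ, Am = C0 * 2 ^ J * V := ⟨_, rfl⟩
  have hAm0 : 0 ≤ Am := by rw [hAm]; positivity
  have hAf : ∀ s, ∀ j, 1 ≤ j → j ≤ 8 → E1 q (fun T => |f s T| ^ j) ≤ Am := by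
    intro s j hj hj8
    have h := (hmom j hj hj8).1 s
    rw [hf, ← hqdef]
    refine h.trans ?_
    rw [hAm]
    have : (2 : ℝ) ^ (s : ℕ) ≤ 2 ^ J := pow_le_pow_right₀ (by norm_num) s.2.le
    gcongr
  have hAS : Am * S.card ≤ C0 * 2 ^ J * R := by
    calc Am * S.card = C0 * 2 ^ J * (S.card * V) := by rw [hAm]; ring
      _ ≤ C0 * 2 ^ J * R := by gcongr
  have hMaj : ∀ (T : Finset ι) (r : ℕ), T ⊆ S → r ≤ 8 →
      EM q (fun t => (∏ h ∈ T, (1 + gt f (t h))) ^ r) ≤ B1 := by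
    intro T r hT hr
    refine (hG π ι q J f T Am r hJ1 hq0 hq1 hAm0
      (fun s j hj hjr => hAf s j hj (hjr.trans hr))).trans ?_
    rw [hB1]
    refine Real.exp_le_exp.mpr ?_
    have hTS : (T.card : ℝ) ≤ S.card := by exact_mod_cast Finset.card_le_card hT
    have h2r : (2 : ℝ) ^ r ≤ 2 ^ 8 := pow_le_pow_right₀ (by norm_num) hr
    calc 2 ^ r * Am * T.card ≤ 2 ^ 8 * Am * S.card := by gcongr
      _ = 2 ^ 8 * (Am * S.card) := by ring
      _ ≤ 2 ^ 8 * (C0 * 2 ^ J * R) := by gcongr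
  have hgt : ∀ T : Finset π, 0 ≤ gt f T := fun T => by
    unfold gt
    exact mul_nonneg (by positivity) (Finset.sum_nonneg fun s _ => abs_nonneg _)
  have hprod : ∀ (T : Finset ι) (t : ι → Finset π), 0 ≤ ∏ h ∈ T, (1 + gt f (t h)) :=
    fun T t => Finset.prod_nonneg fun h _ => by linarith [hgt (t h)]
  -- the number of shifts
  obtain ⟨c, hc⟩ : ∃ c : ℝ, c = max 1 (Fintype.card ι : ℝ) := ⟨_, rfl⟩
  have hc1 : 1 ≤ c := by rw [hc]; exact le_max_left _ _
  have hcc : (Fintype.card ι : ℝ) ≤ c := by rw [hc]; exact le_max_right _ _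
  have hcz : c ^ 8 * z2 ≤ z := by
    have hzz2' : (z2 : ℝ) ≤ z := by exact_mod_cast hzz2
    rw [hc]
    rcases le_total (1 : ℝ) (Fintype.card ι : ℝ) with h | h
    · rw [max_eq_right h]
      have h4 : Fintype.card ι ^ 8 * z2 ≤ z :=
        (Nat.mul_le_mul_left _ ((le_max_right z1 z2).trans (le_max_left _ _))).trans hcard
      exact_mod_cast h4
    · rw [max_eq_left h]; simpa using hzz2'
  have hc8 : 0 ≤ c ^ 8 := by positivity
  have hc48 : c ^ 4 ≤ c ^ 8 := pow_le_pow_right₀ hc1 (by norm_num)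
  have hc68 : c ^ 6 ≤ c ^ 8 := pow_le_pow_right₀ hc1 (by norm_num)
  have hc28 : c ^ 2 ≤ c ^ 8 := pow_le_pow_right₀ hc1 (by norm_num)
  have hkz : 40 * c ^ 4 ≤ z := by
    calc 40 * c ^ 4 ≤ 40 * c ^ 8 := by gcongr
      _ = c ^ 8 * 40 := by ring
      _ ≤ c ^ 8 * z2 := by gcongr
      _ ≤ z := hcz
  have hbig : 256 * c ^ 8 * B2 ≤ ε ^ 2 * z := by
    calc 256 * c ^ 8 * B2 = c ^ 8 * (256 * B2) := by ring
      _ ≤ c ^ 8 * (ε ^ 2 * z2) := by gcongr
      _ = ε ^ 2 * (c ^ 8 * z2) := by ring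
      _ ≤ ε ^ 2 * z := by gcongr
  have hbig1 : 256 * c ^ 2 * B1 ≤ ε ^ 2 * z := by
    calc 256 * c ^ 2 * B1 ≤ 256 * c ^ 8 * B2 := by gcongr
      _ ≤ _ := hbig
  have hqself : ∀ x, |q x - q x| ≤ 2 * q x ^ 2 := fun x => by
    rw [sub_self, abs_zero]; positivity
  have hScard : (S.card : ℝ) ≤ c := by
    refine le_trans ?_ hcc
    exact_mod_cast Finset.card_le_univ S
  have hSKcard : ((S \ KK).card : ℝ) ≤ c := by
    refine le_trans ?_ hcc
    exact_mod_cast Finset.card_le_univ (S \ KK)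
  have hOmM : ∀ t : ι → Finset π, 0 ≤ OmQ f S KK (k + 1) 2 t ∧
      OmQ f S KK (k + 1) 2 t ≤ (∏ h ∈ S, (1 + gt f (t h))) ^ 2 := by
    intro t
    obtain ⟨g0, g1, -⟩ := hJ π ι J f (rho b I) S KK (k + 1) 2 t hJ1 hrn
    exact ⟨g0, g1⟩
  refine ⟨?_, ?_, ?_, ?_, ?_⟩
  · -- Om
    have hM2 : EM q (fun t => OmQ f S KK (k + 1) 2 t ^ 2) ≤ B1 := by
      refine le_trans (EM_le p_W1S q hq0 hq1 _ _ fun t => ?_) (hMaj S 4 le_rfl (by norm_num))
      obtain ⟨g0, g1⟩ := hOmM t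
      calc OmQ f S KK (k + 1) 2 t ^ 2 ≤ ((∏ h ∈ S, (1 + gt f (t h))) ^ 2) ^ 2 :=
            pow_le_pow_left₀ g0 g1 2
        _ = (∏ h ∈ S, (1 + gt f (t h))) ^ 4 := by ring
    have hcmp := LOCQ_cmp hC q q z c B1 ε (OmQ f S KK (k + 1) 2) hq0 hqz hq0 hqself hq2 hz2' hcc
      hc1 hkz hM2 hε.le hbig1
    have h := h1 π ι q J f S KK (k + 1) 2 hq0 hq1 hOr
    have := (abs_le.mp hcmp).2
    unfold ZU
    linarith
  · -- Om ^ 2
    have hM1 : EM q (fun t => OmQ f S KK (k + 1) 2 t ^ 2) ≤ B1 := by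
      refine le_trans (EM_le p_W1S q hq0 hq1 _ _ fun t => ?_) (hMaj S 4 le_rfl (by norm_num))
      obtain ⟨g0, g1⟩ := hOmM t
      calc OmQ f S KK (k + 1) 2 t ^ 2 ≤ ((∏ h ∈ S, (1 + gt f (t h))) ^ 2) ^ 2 :=
            pow_le_pow_left₀ g0 g1 2
        _ = (∏ h ∈ S, (1 + gt f (t h))) ^ 4 := by ring
    have hM2 : EM q (fun t => (OmQ f S KK (k + 1) 2 t ^ 2) ^ 2) ≤ B1 := by
      refine le_trans (EM_le p_W1S q hq0 hq1 _ _ fun t => ?_) (hMaj S 8 le_rfl (by norm_num))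
      obtain ⟨g0, g1⟩ := hOmM t
      calc (OmQ f S KK (k + 1) 2 t ^ 2) ^ 2 ≤ (((∏ h ∈ S, (1 + gt f (t h))) ^ 2) ^ 2) ^ 2 := by
            gcongr
        _ = (∏ h ∈ S, (1 + gt f (t h))) ^ 8 := by ring
    have hcmp := LOCQ_cmp hC q q z c B1 ε (fun t => OmQ f S KK (k + 1) 2 t ^ 2) hq0 hqz hq0
      hqself hq2 hz2' hcc hc1 hkz hM2 hε.le hbig1
    have := (abs_le.mp hcmp).2
    linarith
  · -- Bd
    have hM2 : EM q (fun t => BdQ f (rho b I) S KK (k + 1) 2 t ^ 2) ≤ c ^ 2 * B2 := by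
      have hpt : ∀ t : ι → Finset π, BdQ f (rho b I) S KK (k + 1) 2 t ^ 2 ≤
          c * ∑ m ∈ KK ∩ S, ((∏ h ∈ S.erase m, (1 + gt f (t h))) ^ 8 + rho b I (t m) ^ 4) := by
        intro t
        obtain ⟨-, -, g2, g3, -⟩ := hJ π ι J f (rho b I) S KK (k + 1) 2 t hJ1 hrn
        have hcs : (∑ m ∈ KK ∩ S, (∏ h ∈ S.erase m, (1 + gt f (t h))) ^ 2 * rho b I (t m)) ^ 2 ≤
            ((KK ∩ S).card : ℝ) *
              ∑ m ∈ KK ∩ S, ((∏ h ∈ S.erase m, (1 + gt f (t h))) ^ 2 * rho b I (t m)) ^ 2 :=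
          sq_sum_le_card_mul_sum_sq
        calc BdQ f (rho b I) S KK (k + 1) 2 t ^ 2
            ≤ (∑ m ∈ KK ∩ S, (∏ h ∈ S.erase m, (1 + gt f (t h))) ^ 2 * rho b I (t m)) ^ 2 :=
              pow_le_pow_left₀ g2 g3 2
          _ ≤ ((KK ∩ S).card : ℝ) *
              ∑ m ∈ KK ∩ S, ((∏ h ∈ S.erase m, (1 + gt f (t h))) ^ 2 * rho b I (t m)) ^ 2 := hcs
          _ ≤ c * ∑ m ∈ KK ∩ S, ((∏ h ∈ S.erase m, (1 + gt f (t h))) ^ 8 + rho b I (t m) ^ 4) := by
              refine mul_le_mul (hKS.trans hScard) ?_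
                (Finset.sum_nonneg fun m _ => sq_nonneg _) (by linarith)
              refine Finset.sum_le_sum fun m _ => ?_
              nlinarith [sq_nonneg ((∏ h ∈ S.erase m, (1 + gt f (t h))) ^ 4 - rho b I (t m) ^ 2),
                sq_nonneg ((∏ h ∈ S.erase m, (1 + gt f (t h))) ^ 4 + rho b I (t m) ^ 2)]
      refine (EM_le p_W1S q hq0 hq1 _ _ hpt).trans ?_
      rw [EM_mul', EM_sum']
      have hterm : ∀ m ∈ KK ∩ S,
          EM q (fun t => (∏ h ∈ S.erase m, (1 + gt f (t h))) ^ 8 + rho b I (t m) ^ 4) ≤ B2 := by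
        intro m _
        rw [EM_add']
        have e1 := hMaj (S.erase m) 8 (Finset.erase_subset _ _) le_rfl
        have e2 : EM q (fun t : ι → Finset π => rho b I (t m) ^ 4) ≤ C0 := by
          rw [LOCQ_EM_site q (fun T => rho b I T ^ 4) m]
          refine ((hmom 4 (by norm_num) (by norm_num)).2.1).trans ?_
          calc C0 * V ≤ C0 * 1 := by gcongr
            _ = C0 := mul_one _
        linarith
      calc c * ∑ m ∈ KK ∩ S,
            EM q (fun t => (∏ h ∈ S.erase m, (1 + gt f (t h))) ^ 8 + rho b I (t m) ^ 4)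
          ≤ c * ∑ m ∈ KK ∩ S, B2 := by
            refine mul_le_mul_of_nonneg_left (Finset.sum_le_sum hterm) (by linarith)
        _ = c * ((KK ∩ S).card * B2) := by rw [Finset.sum_const, nsmul_eq_mul]
        _ ≤ c * (c * B2) := by
            refine mul_le_mul_of_nonneg_left ?_ (by linarith)
            exact mul_le_mul_of_nonneg_right (hKS.trans hScard) hB2p.le
        _ = c ^ 2 * B2 := by ring
    have hbig2 : 256 * c ^ 2 * (c ^ 2 * B2) ≤ ε ^ 2 * z := by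
      calc 256 * c ^ 2 * (c ^ 2 * B2) = 256 * c ^ 4 * B2 := by ring
        _ ≤ 256 * c ^ 8 * B2 := by gcongr
        _ ≤ _ := hbig
    have hcmp := LOCQ_cmp hC q q z c (c ^ 2 * B2) ε (BdQ f (rho b I) S KK (k + 1) 2) hq0 hqz hq0
      hqself hq2 hz2' hcc hc1 hkz hM2 hε.le hbig2
    have h := h2 π ι q J f (rho b I) S KK (k + 1) hq0 hq1 hOr hJ1 hrn hsX
    have hE : ((KK ∩ S).card : ℝ) * E1 q (rho b I) ≤ C3 ^ 2 * R := by
      calc ((KK ∩ S).card : ℝ) * E1 q (rho b I) ≤ (KK ∩ S).card * (C0 * V) := by gcongr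
        _ ≤ S.card * (C0 * V) := by gcongr
        _ = C0 * (S.card * V) := by ring
        _ ≤ C0 * R := by gcongr
        _ ≤ C3 ^ 2 * R := by gcongr
    have hfin : ((KK ∩ S).card : ℝ) * E1 q (rho b I) * tm (xs q f) S KK (k + 1) *
        ZU (xs q f) S KK (k + 1) ≤ C3 ^ 2 * R * t₀ * ZU (xs q f) S KK (k + 1) := by
      refine mul_le_mul_of_nonneg_right ?_ (hZU _)
      refine mul_le_mul hE (htm (k + 1) le_rfl) (htm0 _) (by positivity)
    have := (abs_le.mp hcmp).2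
    linarith
  · -- Pa
    intro α hα hα0
    have hM2 : EM q (fun t => PaQ f (rho b I) α S KK (k + 1) 2 t ^ 2) ≤ c ^ 4 * B2 := by
      have hpt : ∀ t : ι → Finset π, PaQ f (rho b I) α S KK (k + 1) 2 t ^ 2 ≤
          c ^ 2 * ∑ a ∈ S \ KK, ∑ a' ∈ S \ KK, α a a' ^ 2 *
            ((∏ h ∈ S, (1 + gt f (t h))) ^ 8 + rho b I (t a) ^ 4 * rho b I (t a') ^ 4) := by
        intro t
        obtain ⟨g0, g1⟩ := hOmM t
        unfold PaQ
        have hcs1 := sq_sum_le_card_mul_sum_sq (s := S \ KK) (f := fun a => ∑ a' ∈ S \ KK,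
          α a a' * (OmQ f S KK (k + 1) 2 t * (rho b I (t a) * rho b I (t a'))))
        refine hcs1.trans ?_
        have hcs2 : ∀ a ∈ S \ KK, (∑ a' ∈ S \ KK,
            α a a' * (OmQ f S KK (k + 1) 2 t * (rho b I (t a) * rho b I (t a')))) ^ 2 ≤
            c * ∑ a' ∈ S \ KK, α a a' ^ 2 *
            ((∏ h ∈ S, (1 + gt f (t h))) ^ 8 + rho b I (t a) ^ 4 * rho b I (t a') ^ 4) := by
          intro a _
          have hcs := sq_sum_le_card_mul_sum_sq (s := S \ KK) (f := fun a' =>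
            α a a' * (OmQ f S KK (k + 1) 2 t * (rho b I (t a) * rho b I (t a'))))
          refine hcs.trans ?_
          refine mul_le_mul hSKcard ?_ (Finset.sum_nonneg fun m _ => sq_nonneg _) (by linarith)
          refine Finset.sum_le_sum fun a' _ => ?_
          rw [mul_pow]
          refine mul_le_mul_of_nonneg_left ?_ (sq_nonneg _)
          have e1 : OmQ f S KK (k + 1) 2 t ^ 2 ≤ (∏ h ∈ S, (1 + gt f (t h))) ^ 4 := by
            calc OmQ f S KK (k + 1) 2 t ^ 2 ≤ ((∏ h ∈ S, (1 + gt f (t h))) ^ 2) ^ 2 :=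
                  pow_le_pow_left₀ g0 g1 2
              _ = (∏ h ∈ S, (1 + gt f (t h))) ^ 4 := by ring
          have e2 : (OmQ f S KK (k + 1) 2 t * (rho b I (t a) * rho b I (t a'))) ^ 2 ≤
              (∏ h ∈ S, (1 + gt f (t h))) ^ 4 * (rho b I (t a) * rho b I (t a')) ^ 2 := by
            rw [mul_pow]
            exact mul_le_mul_of_nonneg_right e1 (sq_nonneg _)
          refine e2.trans ?_
          nlinarith [sq_nonneg ((∏ h ∈ S, (1 + gt f (t h))) ^ 4 -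
            (rho b I (t a) * rho b I (t a')) ^ 2),
            sq_nonneg ((∏ h ∈ S, (1 + gt f (t h))) ^ 4 + (rho b I (t a) * rho b I (t a')) ^ 2)]
        calc ((S \ KK).card : ℝ) * ∑ a ∈ S \ KK, (∑ a' ∈ S \ KK,
              α a a' * (OmQ f S KK (k + 1) 2 t * (rho b I (t a) * rho b I (t a')))) ^ 2
            ≤ c * ∑ a ∈ S \ KK, (c * ∑ a' ∈ S \ KK, α a a' ^ 2 *
              ((∏ h ∈ S, (1 + gt f (t h))) ^ 8 + rho b I (t a) ^ 4 * rho b I (t a') ^ 4)) := by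
              refine mul_le_mul hSKcard (Finset.sum_le_sum hcs2)
                (Finset.sum_nonneg fun m _ => sq_nonneg _) (by linarith)
          _ = c ^ 2 * ∑ a ∈ S \ KK, ∑ a' ∈ S \ KK, α a a' ^ 2 *
              ((∏ h ∈ S, (1 + gt f (t h))) ^ 8 + rho b I (t a) ^ 4 * rho b I (t a') ^ 4) := by
              rw [← Finset.mul_sum]; ring
      refine (EM_le p_W1S q hq0 hq1 _ _ hpt).trans ?_
      rw [EM_mul', EM_sum']
      have hterm : ∀ a ∈ S \ KK, EM q (fun t : ι → Finset π => ∑ a' ∈ S \ KK, α a a' ^ 2 *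
            ((∏ h ∈ S, (1 + gt f (t h))) ^ 8 + rho b I (t a) ^ 4 * rho b I (t a') ^ 4)) ≤
            c * B2 := by
        intro a _
        rw [EM_sum']
        have hterm' : ∀ a' ∈ S \ KK, EM q (fun t : ι → Finset π => α a a' ^ 2 *
            ((∏ h ∈ S, (1 + gt f (t h))) ^ 8 + rho b I (t a) ^ 4 * rho b I (t a') ^ 4)) ≤ B2 := by
          intro a' _
          rw [EM_mul']
          rcases eq_or_ne a a' with haa | haa
          · rw [← haa, hα0 a]
            have : (0 : ℝ) ^ 2 = 0 := by norm_num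
            rw [this, zero_mul]
            exact hB2p.le
          · have hsq : α a a' ^ 2 ≤ A ^ 2 := pow_le_pow_left₀ (hα a a').1 (hα a a').2 2
            have e1 := hMaj S 8 le_rfl le_rfl
            have e3 : E1 q (fun T => rho b I T ^ 4) ≤ C0 := by
              refine ((hmom 4 (by norm_num) (by norm_num)).2.1).trans ?_
              calc C0 * V ≤ C0 * 1 := by gcongr
                _ = C0 := mul_one _
            have e4 : 0 ≤ E1 q (fun T => rho b I T ^ 4) := by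
              unfold E1
              exact Finset.sum_nonneg fun T _ => mul_nonneg ((p_W1S π q).2 hq0 hq1 T)
                (by have := hrn T; positivity)
            have e2 : EM q (fun t : ι → Finset π => rho b I (t a) ^ 4 * rho b I (t a') ^ 4) ≤
                C0 ^ 2 := by
              rw [LOCU_EM_two q (fun T => rho b I T ^ 4) a a' haa]
              calc E1 q (fun T => rho b I T ^ 4) * E1 q (fun T => rho b I T ^ 4) ≤ C0 * C0 :=
                    mul_le_mul e3 e3 e4 (by linarith)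
                _ = C0 ^ 2 := by ring
            rw [EM_add']
            have e5 : 0 ≤ EM q (fun t : ι → Finset π => (∏ h ∈ S, (1 + gt f (t h))) ^ 8) := by
              have := EM_le p_W1S q hq0 hq1 (fun _ : ι → Finset π => 0)
                (fun t => (∏ h ∈ S, (1 + gt f (t h))) ^ 8)
                (fun t => by have := hprod S t; positivity)
              rwa [LOCQ_EM_const] at this
            have e6 : 0 ≤ EM q (fun t : ι → Finset π => rho b I (t a) ^ 4 * rho b I (t a') ^ 4) := by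
              rw [LOCU_EM_two q (fun T => rho b I T ^ 4) a a' haa]
              positivity
            calc α a a' ^ 2 * (EM q (fun t : ι → Finset π => (∏ h ∈ S, (1 + gt f (t h))) ^ 8) +
                  EM q (fun t : ι → Finset π => rho b I (t a) ^ 4 * rho b I (t a') ^ 4))
                ≤ A ^ 2 * (B1 + C0 ^ 2) :=
                  mul_le_mul hsq (add_le_add e1 e2) (by linarith) (sq_nonneg _)
              _ ≤ B2 := hB12A
        calc ∑ a' ∈ S \ KK, EM q (fun t : ι → Finset π => α a a' ^ 2 *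
              ((∏ h ∈ S, (1 + gt f (t h))) ^ 8 + rho b I (t a) ^ 4 * rho b I (t a') ^ 4))
            ≤ ∑ a' ∈ S \ KK, B2 := Finset.sum_le_sum hterm'
          _ = (S \ KK).card * B2 := by rw [Finset.sum_const, nsmul_eq_mul]
          _ ≤ c * B2 := mul_le_mul_of_nonneg_right hSKcard hB2p.le
      calc c ^ 2 * ∑ a ∈ S \ KK, EM q (fun t : ι → Finset π => ∑ a' ∈ S \ KK, α a a' ^ 2 *
            ((∏ h ∈ S, (1 + gt f (t h))) ^ 8 + rho b I (t a) ^ 4 * rho b I (t a') ^ 4))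
          ≤ c ^ 2 * ∑ a ∈ S \ KK, (c * B2) := by
            refine mul_le_mul_of_nonneg_left (Finset.sum_le_sum hterm) (by positivity)
        _ = c ^ 2 * ((S \ KK).card * (c * B2)) := by rw [Finset.sum_const, nsmul_eq_mul]
        _ ≤ c ^ 2 * (c * (c * B2)) := by
            refine mul_le_mul_of_nonneg_left ?_ (by positivity)
            exact mul_le_mul_of_nonneg_right hSKcard (by positivity)
        _ = c ^ 4 * B2 := by ring
    have hbig2 : 256 * c ^ 2 * (c ^ 4 * B2) ≤ ε ^ 2 * z := by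
      calc 256 * c ^ 2 * (c ^ 4 * B2) = 256 * c ^ 6 * B2 := by ring
        _ ≤ 256 * c ^ 8 * B2 := by gcongr
        _ ≤ _ := hbig
    have hcmp := LOCQ_cmp hC q q z c (c ^ 4 * B2) ε (PaQ f (rho b I) α S KK (k + 1) 2) hq0 hqz hq0
      hqself hq2 hz2' hcc hc1 hkz hM2 hε.le hbig2
    have hmain : EM q (PaQ f (rho b I) α S KK (k + 1) 2) ≤
        C3 ^ 2 * ((1 / 4 : ℝ) ^ I * ∑ a ∈ S \ KK, ∑ a' ∈ S \ KK, α a a') *
            (1 + ((k : ℝ) + 1) / ((S \ KK).card * sX (xs q f))) ^ 2 * ZU (xs q f) S KK (k + 1) := by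
      have hexp : EM q (PaQ f (rho b I) α S KK (k + 1) 2) =
          ∑ a ∈ S \ KK, ∑ a' ∈ S \ KK, α a a' *
            EM q (fun t => OmQ f S KK (k + 1) 2 t * (rho b I (t a) * rho b I (t a'))) := by
        have e : (PaQ f (rho b I) α S KK (k + 1) 2) = fun t : ι → Finset π =>
          ∑ a ∈ S \ KK, ∑ a' ∈ S \ KK, α a a' *
            (OmQ f S KK (k + 1) 2 t * (rho b I (t a) * rho b I (t a'))) := rfl
        rw [e, EM_sum']
        refine Finset.sum_congr rfl fun a _ => ?_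
        rw [EM_sum']
        refine Finset.sum_congr rfl fun a' _ => ?_
        rw [EM_mul']
      rw [hexp]
      have hterm : ∀ a ∈ S \ KK, ∀ a' ∈ S \ KK, α a a' *
            EM q (fun t => OmQ f S KK (k + 1) 2 t * (rho b I (t a) * rho b I (t a'))) ≤
            α a a' * (C3 ^ 2 * (1 / 4 : ℝ) ^ I *
            ((1 + ((k : ℝ) + 1) / ((S \ KK).card * sX (xs q f))) ^ 2 *
              ZU (xs q f) S KK (k + 1))) := by
        intro a ha a' ha'
        rcases eq_or_ne a a' with haa | haa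
        · rw [← haa, hα0 a, zero_mul, zero_mul]
        · refine mul_le_mul_of_nonneg_left ?_ (hα a a').1
          have hE1 : E1 q (rho b I) ≤ C3 * V := hC1V.trans (by gcongr)
          have h := hP π ι q J f (rho b I) S KK (k + 1) 2 (C3 * V) a a' hq0 hq1 hOr hJ1 hsX hrn
            hGr' hE1 haa ha ha'
          refine h.trans (le_of_eq ?_)
          rw [← hV4]
          push_cast
          ring
      calc ∑ a ∈ S \ KK, ∑ a' ∈ S \ KK, α a a' *
            EM q (fun t => OmQ f S KK (k + 1) 2 t * (rho b I (t a) * rho b I (t a')))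
          ≤ ∑ a ∈ S \ KK, ∑ a' ∈ S \ KK, α a a' * (C3 ^ 2 * (1 / 4 : ℝ) ^ I *
            ((1 + ((k : ℝ) + 1) / ((S \ KK).card * sX (xs q f))) ^ 2 *
              ZU (xs q f) S KK (k + 1))) :=
            Finset.sum_le_sum fun a ha => Finset.sum_le_sum fun a' ha' => hterm a ha a' ha'
        _ = (∑ a ∈ S \ KK, ∑ a' ∈ S \ KK, α a a') * (C3 ^ 2 * (1 / 4 : ℝ) ^ I *
            ((1 + ((k : ℝ) + 1) / ((S \ KK).card * sX (xs q f))) ^ 2 *
              ZU (xs q f) S KK (k + 1))) := by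
            rw [Finset.sum_mul]
            refine Finset.sum_congr rfl fun a _ => ?_
            rw [Finset.sum_mul]
        _ = _ := by ring
    have := (abs_le.mp hcmp).2
    linarith
  · -- Pr
    intro h0 hh0
    obtain ⟨hh0S, hh0K⟩ := Finset.mem_sdiff.mp hh0
    have hcardpos : 0 < Fintype.card ι := Fintype.card_pos_iff.mpr ⟨h0⟩
    have hcpos : (0 : ℝ) < (Fintype.card ι : ℝ) := by exact_mod_cast hcardpos
    have hc_eq : c = (Fintype.card ι : ℝ) := by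
      rw [hc]
      refine max_eq_right ?_
      exact_mod_cast hcardpos
    have hinv : ∀ t a, PrQ f S KK (k + 1) 2 h0 (Function.update t h0 a) =
        PrQ f S KK (k + 1) 2 h0 t := fun t a => hF π ι J f S KK (k + 1) 2 h0 t a
    have hred := hR π ι q (PrQ f S KK (k + 1) 2 h0) h0 hinv
    have hred2 := hR π ι q (fun t => PrQ f S KK (k + 1) 2 h0 t ^ 2) h0
      (fun t a => by rw [hinv])
    have hM2 : EM q (fun t : {h : ι // h ≠ h0} → Finset π =>
        PrQ f S KK (k + 1) 2 h0 (ext h0 t) ^ 2) ≤ B1 := by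
      rw [hred2]
      refine le_trans (EM_le p_W1S q hq0 hq1 _ _ fun t => ?_) (hMaj S 4 le_rfl (by norm_num))
      obtain ⟨-, -, -, -, g⟩ := hJ π ι J f (rho b I) S KK (k + 1) 2 t hJ1 hrn
      obtain ⟨g0, g1⟩ := g h0 hh0K
      calc PrQ f S KK (k + 1) 2 h0 t ^ 2 ≤ ((∏ h ∈ S, (1 + gt f (t h))) ^ 2) ^ 2 :=
            pow_le_pow_left₀ g0 g1 2
        _ = (∏ h ∈ S, (1 + gt f (t h))) ^ 4 := by ring
    have hcard' : (Fintype.card {h : ι // h ≠ h0} : ℝ) ≤ c := by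
      refine le_trans ?_ hcc
      exact_mod_cast Fintype.card_subtype_le _
    have hq'0 : ∀ x, 0 ≤ qc 1 pr x := by
      intro x
      unfold qc
      have h3 := hPB.blo x
      have h4 : 1 ≤ pr x := by omega
      have h5 : (1 : ℝ) ≤ pr x := by exact_mod_cast h4
      exact div_nonneg zero_le_one (by push_cast; linarith)
    have hbig3 : 256 * c ^ 2 * B1 ≤ (ε / c) ^ 2 * z := by
      have hcp : 0 < c := by linarith
      have e : (ε / c) ^ 2 * z = ε ^ 2 * z / c ^ 2 := by ring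
      rw [e, le_div_iff₀ (by positivity)]
      calc 256 * c ^ 2 * B1 * c ^ 2 = 256 * c ^ 4 * B1 := by ring
        _ ≤ 256 * c ^ 8 * B2 := by gcongr
        _ ≤ _ := hbig
    have hqq' : ∀ x, |qc 1 pr x - q x| ≤ 2 * q x ^ 2 := by rw [hqdef]; exact hqq
    have hcmp := LOCQ_cmp hC q (qc 1 pr) z c B1 (ε / c)
      (fun t : {h : ι // h ≠ h0} → Finset π => PrQ f S KK (k + 1) 2 h0 (ext h0 t))
      hq0 hqz hq'0 hqq' hq2 hz2' hcard' hc1 hkz hM2 (by positivity) hbig3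
    have h := h3 π ι q J f S KK k h0 hq0 hq1 hOr hJ1 hsX hh0S hh0K
    rw [hred] at hcmp
    have hlow := (abs_le.mp hcmp).1
    rw [hc_eq] at hlow
    have hch : (0 : ℝ) ≤ ((S \ KK).card - 1).choose k * mU (xs q f) S KK k :=
      mul_nonneg (Nat.cast_nonneg _) (hmU _)
    have hfin : (1 - t₀) * (((S \ KK).card - 1).choose k : ℝ) *
        mU (xs q f) S KK k ≤ (1 - tm (xs q f) S KK k) *
        (((S \ KK).card - 1).choose k : ℝ) * mU (xs q f) S KK k := by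
      rw [mul_assoc, mul_assoc]
      refine mul_le_mul_of_nonneg_right ?_ hch
      have := htm k (Nat.le_succ k)
      linarith
    linarith

end Pool.PP
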