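import Pool.Agent.Work.MP_b0c12c_px.QTr
import Pool.Agent.Work.MP_b0c12c_pp.B_NUK

/-! # Block NUT: the number of choices of level at most `Θ` (helper53, after helper36) -/

set_option autoImplicit false

namespace Pool.PP

open Finset Filter

theorem p_NUT : Stmt_NUT := by
  classical
  intro ι _ _ J Θ
  have key : ∀ κ : ι → Option (Fin J), lev κ ≤ Θ →
      (univ.filter (fun h => κ h ≠ none)).card ≤ Θ * 2 ^ J := by
    intro κ hκ
    have h1 : ((univ.filter (fun h => κ h ≠ none)).card : ℝ) * (1 / 2 : ℝ) ^ J ≤ lev κ := by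
      unfold lev
      calc ((univ.filter (fun h => κ h ≠ none)).card : ℝ) * (1 / 2 : ℝ) ^ J
          = ∑ h ∈ univ.filter (fun h => κ h ≠ none), (1 / 2 : ℝ) ^ J := by
            rw [Finset.sum_const, nsmul_eq_mul]
        _ ≤ ∑ h ∈ univ.filter (fun h => κ h ≠ none), lev1 (κ h) := by
            refine Finset.sum_le_sum fun h hh => ?_
            simp only [mem_filter, mem_univ, true_and] at hh
            obtain ⟨s, hs⟩ := Option.ne_none_iff_exists'.mp hh
            rw [hs]
            simp only [lev1]
            exact pow_le_pow_of_le_one (by norm_num) (by norm_num) s.2.le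
        _ ≤ ∑ h, lev1 (κ h) := by
            apply Finset.sum_le_univ_sum_of_nonneg
            intro h
            rcases κ h with _ | s
            · simp [lev1]
            · simp only [lev1]
              positivity
    have h2 : ((univ.filter (fun h => κ h ≠ none)).card : ℝ) ≤ (Θ : ℝ) * 2 ^ J := by
      have h3 : ((univ.filter (fun h => κ h ≠ none)).card : ℝ) * (1 / 2 : ℝ) ^ J ≤ Θ :=
        h1.trans hκ
      have h4 : (1 / 2 : ℝ) ^ J * 2 ^ J = 1 := by
        rw [← mul_pow]
        norm_num
      calc ((univ.filter (fun h => κ h ≠ none)).card : ℝ)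
          = ((univ.filter (fun h => κ h ≠ none)).card : ℝ) * ((1 / 2 : ℝ) ^ J * 2 ^ J) := by
            rw [h4, mul_one]
        _ = ((univ.filter (fun h => κ h ≠ none)).card : ℝ) * (1 / 2 : ℝ) ^ J * 2 ^ J := by ring
        _ ≤ (Θ : ℝ) * 2 ^ J := mul_le_mul_of_nonneg_right h3 (by positivity)
    exact_mod_cast h2
  refine ⟨key, ?_⟩
  have h1 := NUK_.card_le (ι := ι) (β := Fin J) (Θ * 2 ^ J)
  rw [Fintype.card_fin] at h1
  have h2 : (univ.filter (fun κ : ι → Option (Fin J) => lev κ ≤ Θ)).card ≤
      (1 + Fintype.card ι * J) ^ (Θ * 2 ^ J) := by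
    refine le_trans (Finset.card_le_card ?_) h1
    intro κ hκ
    simp only [mem_filter, mem_univ, true_and] at hκ ⊢
    exact key κ hκ
  exact_mod_cast h2

end Pool.PP
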