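import Pool.Agent.Work.MP_b0c12c_px.UDefs

/-! # Block PWU (helper29) -/

set_option autoImplicit false

namespace Pool.PP

open Finset

theorem p_PWU (h1 : Stmt_RID) : Stmt_PWU := by
  intro π ι _ _ _ _ J f r S KK P k m Θ θ A cl t hJ hf hr0 hr hθ hθ1 hθA hPS hPt
  classical
  have hA0 : 0 ≤ A := le_trans (by positivity) hθA
  set W : Finset ι → ℝ := fun A => PF (cQ KK A Θ) (tab f S t) ^ 2 with hW
  have hW0 : ∀ A, 0 ≤ W A := fun A => sq_nonneg _
  have hOm : OmQ f S KK k Θ t = ∑ A ∈ AA KK k, W A := rfl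
  have hOm0 : 0 ≤ ∑ A ∈ AA KK k, W A := Finset.sum_nonneg fun A _ => hW0 A
  have hG : ∀ h ∈ P, ∀ s, tab f S t h s = 1 := by
    intro h hh s
    simp [tab, hPS hh, hPt h hh, hf s]
  have hR : ∀ h ∈ P, ∀ A, PF (cM (cQ KK A Θ) h) (tab f S t) ^ 2 = W A := by
    intro h hh A
    show _ = PF (cQ KK A Θ) (tab f S t) ^ 2
    rw [h1 ι J (cQ KK A Θ) h (tab f S t) (hG h hh)]
  -- the sum over the primes
  have hsum : ∑ h0 ∈ P \ KK, PrQ f S KK k Θ h0 t =
      ∑ A ∈ AA KK k, ((A ∩ (P \ KK)).card : ℝ) * W A := by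
    have e1 : ∑ h0 ∈ P \ KK, PrQ f S KK k Θ h0 t =
        ∑ h0 ∈ P \ KK, ∑ A ∈ AA KK k, if h0 ∈ A then W A else 0 := by
      refine Finset.sum_congr rfl fun h hh => ?_
      have hhP : h ∈ P := (Finset.mem_sdiff.1 hh).1
      unfold PrQ
      rw [Finset.sum_filter]
      refine Finset.sum_congr rfl fun A _ => ?_
      rw [hR h hhP A]
    rw [e1, Finset.sum_comm]
    refine Finset.sum_congr rfl fun A _ => ?_
    rw [← Finset.sum_filter, Finset.sum_const, nsmul_eq_mul]
    congr 2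
    rw [Finset.inter_comm, ← Finset.filter_mem_eq_inter]
  have hle2 : ∑ h0 ∈ P \ KK, PrQ f S KK k Θ h0 t ≤ ((P \ KK).card : ℝ) * ∑ A ∈ AA KK k, W A := by
    rw [hsum, Finset.mul_sum]
    refine Finset.sum_le_sum fun A hA => ?_
    have : ((A ∩ (P \ KK)).card : ℝ) ≤ ((P \ KK).card : ℝ) := by
      exact_mod_cast Finset.card_le_card Finset.inter_subset_right
    exact mul_le_mul_of_nonneg_right this (hW0 A)
  -- the killed sites
  have hB : ((P ∩ KK).card : ℝ) * ∑ A ∈ AA KK k, W A ≤ BdQ f r S KK k Θ t := by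
    unfold BdQ
    rw [Finset.mul_sum]
    refine Finset.sum_le_sum fun A _ => ?_
    have hsub : P ∩ KK ⊆ KK ∩ S := by
      intro h hh
      rw [Finset.mem_inter] at hh ⊢
      exact ⟨hh.2, hPS hh.1⟩
    calc ((P ∩ KK).card : ℝ) * W A = ∑ h ∈ P ∩ KK,
          PF (cM (cQ KK A Θ) h) (tab f S t) ^ 2 * r (t h) := by
          rw [Finset.sum_congr rfl (g := fun _ => W A)]
          · rw [Finset.sum_const, nsmul_eq_mul]
          · intro h hh
            have hhP : h ∈ P := (Finset.mem_inter.1 hh).1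
            rw [hR h hhP A, hPt h hhP, hr0, mul_one]
      _ ≤ _ := Finset.sum_le_sum_of_subset_of_nonneg hsub fun h _ _ =>
          mul_nonneg (sq_nonneg _) (hr _)
  rw [hOm]
  set O := ∑ A ∈ AA KK k, W A with hO
  set B := BdQ f r S KK k Θ t with hBdef
  have hB0 : 0 ≤ B := le_trans (by positivity) hB
  -- the pairs
  set Q := P \ KK with hQ
  have hQS : Q ⊆ S \ KK := Finset.sdiff_subset_sdiff hPS (Finset.Subset.refl _)
  have hal0 : ∀ a a', 0 ≤ alU θ A cl a a' := by
    intro a a'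
    unfold alU
    split_ifs <;> positivity
  have hPa : (∑ a ∈ Q, ∑ a' ∈ Q, alU θ A cl a a') * O ≤ PaQ f r (alU θ A cl) S KK k Θ t := by
    have hterm : ∀ a a', 0 ≤ alU θ A cl a a' * (OmQ f S KK k Θ t * (r (t a) * r (t a'))) :=
      fun a a' => mul_nonneg (hal0 a a') (mul_nonneg hOm0 (mul_nonneg (hr _) (hr _)))
    unfold PaQ
    calc (∑ a ∈ Q, ∑ a' ∈ Q, alU θ A cl a a') * O
        = ∑ a ∈ Q, ∑ a' ∈ Q, alU θ A cl a a' * (OmQ f S KK k Θ t * (r (t a) * r (t a'))) := by
          rw [Finset.sum_mul]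
          refine Finset.sum_congr rfl fun a ha => ?_
          rw [Finset.sum_mul]
          refine Finset.sum_congr rfl fun a' ha' => ?_
          rw [hPt a (Finset.mem_sdiff.1 ha).1, hPt a' (Finset.mem_sdiff.1 ha').1, hr0, hOm]
          ring
      _ ≤ ∑ a ∈ Q, ∑ a' ∈ S \ KK,
          alU θ A cl a a' * (OmQ f S KK k Θ t * (r (t a) * r (t a'))) :=
          Finset.sum_le_sum fun a _ =>
            Finset.sum_le_sum_of_subset_of_nonneg hQS fun a' _ _ => hterm a a'
      _ ≤ _ := Finset.sum_le_sum_of_subset_of_nonneg hQS fun a _ _ =>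
          Finset.sum_nonneg fun a' _ => hterm a a'
  set N : ℝ := (Q.card : ℝ) with hN
  have hN0 : 0 ≤ N := Nat.cast_nonneg _
  have hbase : ∑ a ∈ Q, ∑ a' ∈ Q, (if a = a' then (0 : ℝ) else θ) = θ * (N * (N - 1)) := by
    have h2 : ∀ a ∈ Q, ∑ a' ∈ Q, (if a = a' then (0 : ℝ) else θ) = (N - 1) * θ := by
      intro a ha
      have h3 : ∀ a' ∈ Q, (if a = a' then (0 : ℝ) else θ) = θ - (if a = a' then θ else 0) := by
        intro a' _
        split_ifs <;> ring
      rw [Finset.sum_congr rfl h3, Finset.sum_sub_distrib, Finset.sum_const, nsmul_eq_mul,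
        Finset.sum_ite_eq, if_pos ha]
      ring
    rw [Finset.sum_congr rfl h2, Finset.sum_const, nsmul_eq_mul]
    ring
  have hsplit : ∑ a ∈ Q, ∑ a' ∈ Q, alU θ A cl a a' = θ * (N * (N - 1)) +
      ∑ a ∈ Q, ∑ a' ∈ Q, (if a = a' then (0 : ℝ) else if cl a = cl a' then A else 0) := by
    rw [← hbase, ← Finset.sum_add_distrib]
    refine Finset.sum_congr rfl fun a _ => ?_
    rw [← Finset.sum_add_distrib]
    refine Finset.sum_congr rfl fun a' _ => ?_
    unfold alU
    by_cases h : a = a'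
    · simp [h]
    · simp [h]
  have hd0 : ∀ a a', 0 ≤ (if a = a' then (0 : ℝ) else if cl a = cl a' then A else 0) := by
    intro a a'
    split_ifs <;> first | exact le_rfl | exact hA0
  set D := ∑ a ∈ Q, ∑ a' ∈ Q, (if a = a' then (0 : ℝ) else if cl a = cl a' then A else 0) with hD
  have hD0 : 0 ≤ D := Finset.sum_nonneg fun a _ => Finset.sum_nonneg fun a' _ => hd0 a a'
  rw [hsplit] at hPa
  set Pa := PaQ f r (alU θ A cl) S KK k Θ t with hPadef
  have hquad : N - θ * (N * (N - 1)) ≤ A := by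
    refine le_trans ?_ hθA
    rw [le_div_iff₀ hθ]
    nlinarith [sq_nonneg (2 * θ * N - (1 + θ)), mul_pos hθ hθ]
  have hm0 : (0 : ℝ) ≤ m := Nat.cast_nonneg m
  have hmain : (N - θ * (N * (N - 1))) * O ≤ A * O := mul_le_mul_of_nonneg_right hquad hOm0
  have hDO : 0 ≤ D * O := mul_nonneg hD0 hOm0
  have hmO : 0 ≤ m * O := mul_nonneg hm0 hOm0
  have hAB : 0 ≤ A * B := mul_nonneg hA0 hB0
  have hqn : 0 ≤ θ * (N * (N - 1)) * O := by
    refine mul_nonneg (mul_nonneg hθ.le ?_) hOm0
    by_cases hz : Q.card = 0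
    · rw [hN, hz]; simp
    · have : (1 : ℝ) ≤ N := by
        rw [hN]; exact_mod_cast Nat.one_le_iff_ne_zero.2 hz
      exact mul_nonneg hN0 (by linarith)
  by_cases hPK : P ∩ KK = ∅
  · by_cases hcl : ∀ i, (Q.filter (fun h => cl h = i)).card ≤ 1
    · by_cases hc : m + 1 ≤ Q.card
      · rw [if_pos ⟨hPK, hcl, hc⟩]
        nlinarith
      · rw [if_neg (fun h => hc h.2.2)]
        have hc' : N ≤ m := by
          rw [hN]
          exact_mod_cast (by omega : Q.card ≤ m)
        have := mul_le_mul_of_nonneg_right hc' hOm0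
        nlinarith
    · rw [if_neg (fun h => hcl h.2.1)]
      push Not at hcl
      obtain ⟨i, hi⟩ := hcl
      obtain ⟨a, ha, a', ha', hne⟩ := Finset.one_lt_card.1 hi
      rw [Finset.mem_filter] at ha ha'
      have hDA : A ≤ D := by
        have s1 : (if a = a' then (0 : ℝ) else if cl a = cl a' then A else 0) = A := by
          rw [if_neg hne, if_pos (ha.2.trans ha'.2.symm)]
        calc A = (if a = a' then (0 : ℝ) else if cl a = cl a' then A else 0) := s1.symm
          _ ≤ ∑ a' ∈ Q, (if a = a' then (0 : ℝ) else if cl a = cl a' then A else 0) :=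
            Finset.single_le_sum (f := fun a' =>
              (if a = a' then (0 : ℝ) else if cl a = cl a' then A else 0))
              (fun a' _ => hd0 a a') ha'.1
          _ ≤ D := Finset.single_le_sum (f := fun a => ∑ a' ∈ Q,
              (if a = a' then (0 : ℝ) else if cl a = cl a' then A else 0))
              (fun a _ => Finset.sum_nonneg fun a' _ => hd0 a a') ha.1
      have := mul_le_mul_of_nonneg_right hDA hOm0
      nlinarith
  · rw [if_neg (fun h => hPK h.1)]
    have h1c : (1 : ℝ) ≤ ((P ∩ KK).card : ℝ) := by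
      have : 0 < (P ∩ KK).card := Finset.card_pos.2 (Finset.nonempty_iff_ne_empty.2 hPK)
      exact_mod_cast this
    have h2 : O ≤ B := le_trans (by nlinarith) hB
    have h3 := mul_le_mul_of_nonneg_left h2 hA0
    nlinarith

end Pool.PP
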