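import Pool.Agent.Work.MP_b0c12c_px.QLoc

/-! # Block QCA: coefficients after removing a site of `A` (helper39) -/

set_option autoImplicit false

namespace Pool.PP

open Finset

theorem qca_lev {ι : Type} [Fintype ι] [DecidableEq ι] {J : ℕ} (κ : ι → Option (Fin J))
    (m : ι) (s : Fin J) (hm : κ m = none) :
    lev (Function.update κ m (some s)) = lev κ + (1 / 2 : ℝ) ^ (s : ℕ) := by
  unfold lev
  rw [← Finset.add_sum_erase univ _ (Finset.mem_univ m),
    ← Finset.add_sum_erase univ (fun h => lev1 (κ h)) (Finset.mem_univ m)]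
  have h1 : ∑ x ∈ univ.erase m, lev1 (Function.update κ m (some s) x) =
      ∑ x ∈ univ.erase m, lev1 (κ x) := by
    apply Finset.sum_congr rfl
    intro x hx
    rw [Function.update_of_ne (Finset.ne_of_mem_erase hx)]
  have h2 : lev1 (some s) = (1 / 2 : ℝ) ^ (s : ℕ) := rfl
  have h3 : lev1 (none : Option (Fin J)) = 0 := rfl
  rw [h1, Function.update_self, hm, h2, h3]
  ring

theorem qca_mat {ι : Type} [Fintype ι] [DecidableEq ι] {J : ℕ} (KK A : Finset ι)
    (κ : ι → Option (Fin J)) (h0 : ι) (s : Fin J) (hA : h0 ∈ A) (hn : κ h0 = none) :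
    mat KK A (Function.update κ h0 (some s)) ↔ mat KK (A.erase h0) κ := by
  unfold mat
  constructor
  · intro h x hx
    by_cases hxm : x = h0
    · subst hxm
      simp [hn]
    · have := h x hx
      rw [Function.update_of_ne hxm] at this
      rw [this, Finset.mem_erase]
      simp [hxm]
  · intro h x hx
    by_cases hxm : x = h0
    · subst hxm
      simp [hA]
    · have := h x hx
      rw [Function.update_of_ne hxm, this, Finset.mem_erase]
      simp [hxm]

theorem p_QCA : Stmt_QCA := by
  intro ι _ _ J KK A Θ h0 κ hJ hA hK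
  have hJ' : (0 : ℝ) < J := by exact_mod_cast hJ
  by_cases hm : κ h0 = none
  · have h1 : cQ KK A Θ κ = 0 := by
      unfold cQ
      rw [if_neg]
      rintro ⟨ha, -⟩
      exact ((ha h0 hK).2 hA) hm
    have hc : cM (cQ KK A Θ) h0 κ =
        -((1 / J : ℝ) * ∑ s : Fin J, cQ KK A Θ (Function.update κ h0 (some s))) := by
      unfold cM
      rw [if_pos hm, h1]
      ring
    have hb : ∀ s : Fin J, 0 ≤ cQ KK A Θ (Function.update κ h0 (some s)) ∧
        cQ KK A Θ (Function.update κ h0 (some s)) ≤ 1 := by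
      intro s
      unfold cQ
      split_ifs
      · exact ⟨zero_le_one, le_refl _⟩
      · exact ⟨le_refl _, zero_le_one⟩
    have h2 : 0 ≤ ∑ s : Fin J, cQ KK A Θ (Function.update κ h0 (some s)) :=
      Finset.sum_nonneg fun s _ => (hb s).1
    have h3 : ∑ s : Fin J, cQ KK A Θ (Function.update κ h0 (some s)) ≤ J := by
      calc ∑ s : Fin J, cQ KK A Θ (Function.update κ h0 (some s)) ≤ ∑ _s : Fin J, (1 : ℝ) :=
            Finset.sum_le_sum fun s _ => (hb s).2
        _ = J := by simp
    have h4 : 0 ≤ (1 / J : ℝ) * ∑ s : Fin J, cQ KK A Θ (Function.update κ h0 (some s)) := by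
      positivity
    have h5 : (1 / J : ℝ) * ∑ s : Fin J, cQ KK A Θ (Function.update κ h0 (some s)) ≤ 1 := by
      rw [one_div, inv_mul_le_iff₀ hJ', mul_one]
      exact h3
    refine ⟨by rw [hc]; linarith, by rw [hc]; linarith, ?_, ?_⟩
    · intro h6
      have h7 : ∃ s : Fin J, cQ KK A Θ (Function.update κ h0 (some s)) ≠ 0 := by
        by_contra hcon
        push Not at hcon
        apply h6
        rw [hc, Finset.sum_congr rfl (fun s _ => hcon s)]
        simp
      obtain ⟨s, hs⟩ := h7
      have h8 : mat KK A (Function.update κ h0 (some s)) ∧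
          lev (Function.update κ h0 (some s)) ≤ Θ := by
        by_contra hcon
        apply hs
        unfold cQ
        rw [if_neg hcon]
      have h9 : 0 ≤ (1 / 2 : ℝ) ^ (s : ℕ) := by positivity
      have h10 := h8.2
      rw [qca_lev κ h0 s hm] at h10
      exact ⟨(qca_mat KK A κ h0 s hA hm).1 h8.1, by linarith⟩
    · intro h6 h7
      have h8 : ∀ s : Fin J, cQ KK A Θ (Function.update κ h0 (some s)) = 1 := by
        intro s
        have h9 : (1 / 2 : ℝ) ^ (s : ℕ) ≤ 1 := pow_le_one₀ (by norm_num) (by norm_num)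
        unfold cQ
        rw [if_pos ⟨(qca_mat KK A κ h0 s hA hm).2 h6, by rw [qca_lev κ h0 s hm]; linarith⟩]
      rw [hc, Finset.sum_congr rfl (fun s _ => h8 s)]
      simp only [Finset.sum_const, Finset.card_univ, Fintype.card_fin, nsmul_eq_mul, mul_one]
      field_simp
  · have hc : cM (cQ KK A Θ) h0 κ = 0 := by
      unfold cM
      rw [if_neg hm]
    rw [hc]
    refine ⟨by norm_num, le_refl _, fun h => absurd rfl h, fun h6 _ => ?_⟩
    exact absurd ((h6 h0 hK).1 hm) (Finset.notMem_erase h0 A)

end Pool.PP
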