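import Pool.Agent.Work.MP_b0c12c_px.QLoc

/-! # Block QCK: coefficients after removing a killed site (helper39) -/

set_option autoImplicit false

namespace Pool.PP

open Finset

theorem qck_lev {ι : Type} [Fintype ι] [DecidableEq ι] {J : ℕ} (κ : ι → Option (Fin J))
    (m : ι) (s : Fin J) (hm : κ m = none) :
    lev (Function.update κ m (some s)) = lev κ + (1 / 2 : ℝ) ^ (s : ℕ) := by
  unfold lev
  rw [← Finset.add_sum_erase univ _ (Finset.mem_univ m),
    ← Finset.add_sum_erase univ (fun h => lev1 (κ h)) (Finset.mem_univ m)]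
  have h1 : ∑ x ∈ univ.erase m, lev1 (Function.update κ m (some s) x) =
      ∑ x ∈ univ.erase m, lev1 (κ x) := by
    apply Finset.sum_congr rfl
    intro x hx
    rw [Function.update_of_ne (Finset.ne_of_mem_erase hx)]
  have h2 : lev1 (some s) = (1 / 2 : ℝ) ^ (s : ℕ) := rfl
  have h3 : lev1 (none : Option (Fin J)) = 0 := rfl
  rw [h1, Function.update_self, hm, h2, h3]
  ring

theorem qck_mat {ι : Type} [Fintype ι] [DecidableEq ι] {J : ℕ} (KK A : Finset ι)
    (κ : ι → Option (Fin J)) (m : ι) (o : Option (Fin J)) (hm : m ∈ KK) :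
    mat KK A (Function.update κ m o) ↔ mat KK A κ := by
  unfold mat
  constructor
  · intro h x hx
    have hxm : x ≠ m := fun e => hx (e ▸ hm)
    have := h x hx
    rwa [Function.update_of_ne hxm] at this
  · intro h x hx
    have hxm : x ≠ m := fun e => hx (e ▸ hm)
    rw [Function.update_of_ne hxm]
    exact h x hx

theorem qck_one {ι : Type} [Fintype ι] [DecidableEq ι] {J : ℕ} {KK A : Finset ι} {Θ : ℝ}
    {κ : ι → Option (Fin J)} (h1 : mat KK A κ) (h2 : lev κ ≤ Θ) : cQ KK A Θ κ = 1 := by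
  unfold cQ
  rw [if_pos ⟨h1, h2⟩]

theorem qck_zero {ι : Type} [Fintype ι] [DecidableEq ι] {J : ℕ} {KK A : Finset ι} {Θ : ℝ}
    {κ : ι → Option (Fin J)} (h : ¬ (mat KK A κ ∧ lev κ ≤ Θ)) : cQ KK A Θ κ = 0 := by
  unfold cQ
  rw [if_neg h]

theorem qck_bd {ι : Type} [Fintype ι] [DecidableEq ι] {J : ℕ} (KK A : Finset ι) (Θ : ℝ)
    (κ : ι → Option (Fin J)) : 0 ≤ cQ KK A Θ κ ∧ cQ KK A Θ κ ≤ 1 := by
  unfold cQ
  split_ifs
  · exact ⟨zero_le_one, le_refl _⟩
  · exact ⟨le_refl _, zero_le_one⟩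

theorem qck_avg {J : ℕ} (hJ : 0 < J) (g : Fin J → ℝ) (hg : ∀ s, 0 ≤ g s ∧ g s ≤ 1) :
    0 ≤ (1 / J : ℝ) * ∑ s, g s ∧ (1 / J : ℝ) * ∑ s, g s ≤ 1 := by
  have hJ' : (0 : ℝ) < J := by exact_mod_cast hJ
  have h2 : 0 ≤ ∑ s, g s := Finset.sum_nonneg fun s _ => (hg s).1
  have h3 : ∑ s, g s ≤ J := by
    calc ∑ s, g s ≤ ∑ _s : Fin J, (1 : ℝ) := Finset.sum_le_sum fun s _ => (hg s).2
      _ = J := by simp
  refine ⟨by positivity, ?_⟩
  rw [one_div, inv_mul_le_iff₀ hJ', mul_one]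
  exact h3

theorem qck_avg_one {J : ℕ} (hJ : 0 < J) (g : Fin J → ℝ) (hg : ∀ s, g s = 1) :
    (1 / J : ℝ) * ∑ s, g s = 1 := by
  have hJ' : (0 : ℝ) < J := by exact_mod_cast hJ
  rw [Finset.sum_congr rfl (fun s _ => hg s)]
  simp only [Finset.sum_const, Finset.card_univ, Fintype.card_fin, nsmul_eq_mul, mul_one]
  field_simp

theorem p_QCK : Stmt_QCK := by
  intro ι _ _ J KK A Θ m κ hJ hmK
  by_cases hm : κ m = none
  · have hc : cM (cQ KK A Θ) m κ =
        cQ KK A Θ κ - (1 / J : ℝ) * ∑ s : Fin J, cQ KK A Θ (Function.update κ m (some s)) := by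
      unfold cM
      rw [if_pos hm]
    by_cases hl : mat KK A κ ∧ lev κ ≤ Θ
    · have h1 : cQ KK A Θ κ = 1 := qck_one hl.1 hl.2
      have h4 := qck_avg hJ (fun s => cQ KK A Θ (Function.update κ m (some s)))
        (fun s => qck_bd KK A Θ _)
      refine ⟨by rw [hc, h1]; linarith [h4.2], by rw [hc, h1]; linarith [h4.1], ?_⟩
      intro h6
      refine ⟨hm, hl.1, ?_⟩
      by_contra h7
      rw [not_lt] at h7
      apply h6
      rw [hc, h1, qck_avg_one hJ (fun s => cQ KK A Θ (Function.update κ m (some s)))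
        (fun s => ?_)]
      · ring
      · have h9 : (1 / 2 : ℝ) ^ (s : ℕ) ≤ 1 := pow_le_one₀ (by norm_num) (by norm_num)
        exact qck_one ((qck_mat KK A κ m _ hmK).2 hl.1) (by rw [qck_lev κ m s hm]; linarith)
    · have h1 : cQ KK A Θ κ = 0 := qck_zero hl
      have h8 : ∀ s : Fin J, cQ KK A Θ (Function.update κ m (some s)) = 0 := by
        intro s
        have h9 : 0 ≤ (1 / 2 : ℝ) ^ (s : ℕ) := by positivity
        apply qck_zero
        rintro ⟨ha, hb⟩
        rw [qck_lev κ m s hm] at hb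
        exact hl ⟨(qck_mat KK A κ m _ hmK).1 ha, by linarith⟩
      have h11 : cM (cQ KK A Θ) m κ = 0 := by
        rw [hc, h1, Finset.sum_congr rfl (fun s _ => h8 s)]
        simp
      rw [h11]
      exact ⟨le_refl _, zero_le_one, fun h => absurd rfl h⟩
  · have hc : cM (cQ KK A Θ) m κ = 0 := by
      unfold cM
      rw [if_neg hm]
    rw [hc]
    exact ⟨le_refl _, zero_le_one, fun h => absurd rfl h⟩

end Pool.PP
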