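import Pool.Agent.Work.MP_b0c12c_px.QLoc
import Pool.Agent.Work.MP_b0c12c_pp.B_CMP
import Pool.Agent.Work.MP_b0c12c_pp.B_W1S

set_option autoImplicit false

namespace Pool.PP

open Finset

namespace QCM

variable {π ι : Type} [Fintype π] [DecidableEq π] [Fintype ι] [DecidableEq ι]

/-- The quotient of the weights. -/
noncomputable def Wy (k : ℕ) (q q' : ℝ) : ℕ → ℝ
  | 0 => (1 - (k : ℝ) * q') / (1 - q) ^ k
  | 1 => q' / (q * (1 - q) ^ (k - 1))
  | _ => 0

lemma vx_eq (k : ℕ) (q q' : ℝ) (hq : 1 - q ≠ 0) (h0 : q = 0 → q' = 0) (n : ℕ) :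
    q ^ n * (1 - q) ^ (k - n) * Wy k q q' n = CMP.vx k q' n := by
  match n with
  | 0 =>
    have h1 : (1 - q) ^ k ≠ 0 := pow_ne_zero _ hq
    simp only [Wy, CMP.vx, pow_zero, one_mul, Nat.sub_zero]
    field_simp
  | 1 =>
    have h1 : (1 - q) ^ (k - 1) ≠ 0 := pow_ne_zero _ hq
    simp only [Wy, CMP.vx, pow_one]
    by_cases h : q = 0
    · rw [h0 h, h]
      simp
    · field_simp
  | n + 2 => simp [Wy, CMP.vx]

/-- The density. -/
noncomputable def W (q q' : π → ℝ) (t : ι → Finset π) : ℝ :=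
  ∏ x, Wy (Fintype.card ι) (q x) (q' x) (CMP.nx t x)

lemma EN_eq_EM (q q' : π → ℝ) (hq : ∀ x, 1 - q x ≠ 0) (h0 : ∀ x, q x = 0 → q' x = 0)
    (Φ : (ι → Finset π) → ℝ) :
    EN q' Φ = EM q (fun t => W q q' t * Φ t) := by
  rw [CMP.EN_eq]
  unfold EM
  apply Finset.sum_congr rfl
  intro t _
  rw [← mul_assoc]
  congr 1
  rw [CMP.prod_w1]
  unfold W
  rw [← Finset.prod_mul_distrib]
  apply Finset.prod_congr rfl
  intro x _
  rw [vx_eq _ _ _ (hq x) (h0 x)]

lemma site_bound (k : ℕ) (q q' : ℝ) (h0 : 0 ≤ q) (h1 : q ≤ 1 / 2) (hd : |q' - q| ≤ 2 * q ^ 2)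
    (h2 : (k : ℝ) * q ≤ 1 / 10) :
    (1 - (k : ℝ) * q') * Wy k q q' 0 + (k : ℝ) * (q' * Wy k q q' 1) ≤
      1 + 3 * ((k : ℝ) * q) ^ 2 := by
  rcases Nat.eq_zero_or_pos k with hk | hk
  · subst hk
    simp [Wy]
  have hk1 : (1 : ℝ) ≤ k := by exact_mod_cast hk
  rcases h0.eq_or_lt with hq0 | hq0
  · have hq' : q' = 0 := by
      rw [← hq0] at hd
      have h3 : |q' - 0| ≤ 0 := by simpa using hd
      have h4 := abs_nonpos_iff.1 h3
      simpa using h4
    rw [hq', ← hq0]
    simp [Wy]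
  set u := (k : ℝ) * q with hu
  have hu0 : 0 < u := by positivity
  have hqu : q ≤ u := by
    rw [hu]
    nlinarith
  have hb : 1 - u ≤ (1 - q) ^ k := by
    have h3 := one_add_mul_le_pow (a := -q) (by linarith) k
    have h4 : 1 + (k : ℝ) * -q = 1 - u := by rw [hu]; ring
    have h5 : (1 : ℝ) + -q = 1 - q := by ring
    rw [h4, h5] at h3
    exact h3
  have hb1 : (1 - q) ^ k ≤ (1 - q) ^ (k - 1) :=
    pow_le_pow_of_le_one (by linarith) (by linarith) (Nat.sub_le k 1)
  have hp : 0 < 1 - u := by linarith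
  simp only [Wy]
  set δ := q' - q with hδ
  have hq'e : q' = q + δ := by rw [hδ]; ring
  have e1 : (1 - (k : ℝ) * q') * ((1 - (k : ℝ) * q') / (1 - q) ^ k) ≤
      (1 - u - k * δ) ^ 2 / (1 - u) := by
    have h6 : (1 - (k : ℝ) * q') * ((1 - (k : ℝ) * q') / (1 - q) ^ k) =
        (1 - u - k * δ) ^ 2 / (1 - q) ^ k := by
      rw [hq'e, hu]
      ring
    rw [h6]
    exact div_le_div_of_nonneg_left (sq_nonneg _) hp hb
  have e2 : (k : ℝ) * (q' * (q' / (q * (1 - q) ^ (k - 1)))) ≤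
      (u + 2 * (k * δ) + k * δ ^ 2 / q) / (1 - u) := by
    have h7 : (k : ℝ) * (q' * (q' / (q * (1 - q) ^ (k - 1)))) =
        (u + 2 * (k * δ) + k * δ ^ 2 / q) / (1 - q) ^ (k - 1) := by
      rw [hq'e, hu]
      have : (1 - q) ^ (k - 1) ≠ 0 := (lt_of_lt_of_le hp (hb.trans hb1)).ne'
      have hqn : q ≠ 0 := hq0.ne'
      field_simp
      ring
    rw [h7]
    have h8 : 0 ≤ u + 2 * (k * δ) + k * δ ^ 2 / q := by
      have h9 : u + 2 * (k * δ) + k * δ ^ 2 / q = k * (q + δ) ^ 2 / q := by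
        rw [hu]
        have hqn : q ≠ 0 := hq0.ne'
        field_simp
        ring
      rw [h9]
      positivity
    exact div_le_div_of_nonneg_left h8 hp (hb.trans hb1)
  have hkd : |(k : ℝ) * δ| ≤ 2 * q * u := by
    rw [abs_mul, abs_of_nonneg (by linarith : (0 : ℝ) ≤ k)]
    calc (k : ℝ) * |δ| ≤ k * (2 * q ^ 2) := mul_le_mul_of_nonneg_left hd (by linarith)
      _ = 2 * q * u := by rw [hu]; ring
  have hkd2 : (k : ℝ) * δ ^ 2 / q ≤ 4 * q * u ^ 2 := by
    have h10 : δ ^ 2 ≤ (2 * q ^ 2) ^ 2 := by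
      rw [← sq_abs δ]
      exact pow_le_pow_left₀ (abs_nonneg _) hd 2
    rw [div_le_iff₀ hq0]
    calc (k : ℝ) * δ ^ 2 ≤ k * (2 * q ^ 2) ^ 2 := mul_le_mul_of_nonneg_left h10 (by linarith)
      _ = 4 * q * (k * q ^ 2) * q := by ring
      _ ≤ 4 * q * (k * (k * q ^ 2)) * q := by
          have h11 : (k : ℝ) * q ^ 2 ≤ k * (k * q ^ 2) := by
            have : 0 ≤ (k : ℝ) * q ^ 2 := by positivity
            nlinarith
          have h12 : 0 ≤ 4 * q * q := by positivity
          nlinarith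
      _ = 4 * q * u ^ 2 * q := by rw [hu]; ring
  have hsum : (1 - u - k * δ) ^ 2 / (1 - u) + (u + 2 * (k * δ) + k * δ ^ 2 / q) / (1 - u) ≤
      1 + 3 * u ^ 2 := by
    rw [← add_div, div_le_iff₀ hp]
    have h13 := abs_le.1 hkd
    set v := (k : ℝ) * δ with hv
    have h14 : v ^ 2 ≤ (2 * q * u) ^ 2 := by
      rw [← sq_abs v]
      exact pow_le_pow_left₀ (abs_nonneg _) hkd 2
    have h15 : (2 * q * u) ^ 2 ≤ u ^ 2 * (4 * (1 / 10) ^ 2) := by
      have : q ^ 2 ≤ (1 / 10) ^ 2 := pow_le_pow_left₀ h0 (by linarith) 2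
      have h16 : 0 ≤ u ^ 2 := sq_nonneg u
      nlinarith
    have h17 : 2 * u * v ≤ u ^ 2 * (4 / 10) := by
      have h18 : 2 * u * v ≤ 2 * u * (2 * q * u) := by
        have := h13.2
        nlinarith
      have h19 : 2 * u * (2 * q * u) ≤ u ^ 2 * (4 / 10) := by
        have h16 : 0 ≤ u ^ 2 := sq_nonneg u
        nlinarith
      linarith
    have h20 : 4 * q * u ^ 2 ≤ u ^ 2 * (4 / 10) := by
      have h16 : 0 ≤ u ^ 2 := sq_nonneg u
      nlinarith
    have h21 : u ^ 3 ≤ u ^ 2 * (1 / 10) := by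
      have h16 : 0 ≤ u ^ 2 := sq_nonneg u
      nlinarith
    have h22 : (1 - u - v) ^ 2 + (u + 2 * v + k * δ ^ 2 / q) =
        1 - u + u ^ 2 + 2 * u * v + v ^ 2 + k * δ ^ 2 / q := by ring
    rw [h22]
    nlinarith [sq_nonneg u]
  exact (add_le_add e1 e2).trans hsum

end QCM

open QCM in
theorem p_QCM : Stmt_QCM := by
  intro π ι _ _ _ _ q q' Φ h0 h1 h0' hd h2 h3
  have hW : Stmt_W1S := p_W1S
  have hq : ∀ x, 1 - q x ≠ 0 := fun x => by
    have := h1 x
    have h4 : 0 < 1 - q x := by linarith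
    exact h4.ne'
  have hz : ∀ x, q x = 0 → q' x = 0 := fun x hx => by
    have h5 := hd x
    rw [hx] at h5
    have h6 : |q' x - 0| ≤ 0 := by simpa using h5
    have h7 := abs_nonpos_iff.1 h6
    simpa using h7
  have hw : ∀ T, 0 ≤ w1 q T := (hW π q).2 h0 fun x => by
    have := h1 x
    linarith
  have hE1 : EM q (fun _ : ι → Finset π => (1 : ℝ)) = 1 := by
    unfold EM
    have h5 := Finset.prod_univ_sum (fun _ : ι => (univ : Finset (Finset π)))
      (fun (_ : ι) (T : Finset π) => w1 q T)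
    rw [Fintype.piFinset_univ] at h5
    rw [Finset.sum_congr rfl (fun t _ => mul_one _), ← h5]
    apply Finset.prod_eq_one
    intro i _
    exact (hW π q).1
  have hEW : EM q (fun t : ι → Finset π => W q q' t) = 1 := by
    have h6 := EN_eq_EM (ι := ι) q q' hq hz (fun _ => 1)
    simp only [mul_one] at h6
    rw [← h6]
    have h7 := CMP.EN_prod (ι := ι) q' (fun _ _ => 1)
    simp only [Finset.prod_const_one, mul_one] at h7
    rw [h7]
    apply Finset.prod_eq_one
    intro x _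
    ring
  have hq2 : 0 ≤ q2 q := Finset.sum_nonneg fun x _ => sq_nonneg _
  have hEW2 : EM q (fun t : ι → Finset π => W q q' t ^ 2) ≤
      1 + 6 * (Fintype.card ι : ℝ) ^ 2 * q2 q := by
    have h8 := EN_eq_EM (ι := ι) q q' hq hz (fun t => W q q' t)
    have h9 : (fun t : ι → Finset π => W q q' t * W q q' t) = fun t => W q q' t ^ 2 := by
      funext t
      ring
    rw [h9] at h8
    rw [← h8]
    have h10 := CMP.EN_prod (ι := ι) q' (fun x n => Wy (Fintype.card ι) (q x) (q' x) n)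
    have h11 : EN q' (fun t : ι → Finset π => W q q' t) =
        EN q' (fun t : ι → Finset π =>
          ∏ x, Wy (Fintype.card ι) (q x) (q' x) (CMP.nx t x)) := rfl
    rw [h11, h10]
    have h12 : ∏ x, ((1 - (Fintype.card ι : ℝ) * q' x) * Wy (Fintype.card ι) (q x) (q' x) 0 +
        (Fintype.card ι : ℝ) * (q' x * Wy (Fintype.card ι) (q x) (q' x) 1)) ≤
        ∏ x, Real.exp (3 * ((Fintype.card ι : ℝ) * q x) ^ 2) := by
      apply Finset.prod_le_prod
      · intro x _
        have hx1 : 0 < 1 - q x := by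
          have := h1 x
          linarith
        have hx3 := h0 x
        simp only [Wy]
        have hA : 0 ≤ (1 - (Fintype.card ι : ℝ) * q' x) *
            ((1 - (Fintype.card ι : ℝ) * q' x) / (1 - q x) ^ Fintype.card ι) := by
          rw [← mul_div_assoc]
          exact div_nonneg (mul_self_nonneg _) (by positivity)
        have hB : 0 ≤ q' x * (q' x / (q x * (1 - q x) ^ (Fintype.card ι - 1))) := by
          rw [← mul_div_assoc]
          exact div_nonneg (mul_self_nonneg _) (by positivity)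
        have hC : (0 : ℝ) ≤ Fintype.card ι := by positivity
        exact add_nonneg hA (mul_nonneg hC hB)
      · intro x _
        have h13 := site_bound (Fintype.card ι) (q x) (q' x) (h0 x) (h1 x) (hd x) (h2 x)
        have h14 := Real.add_one_le_exp (3 * ((Fintype.card ι : ℝ) * q x) ^ 2)
        linarith
    refine h12.trans ?_
    rw [← Real.exp_sum]
    have h15 : ∑ x, 3 * ((Fintype.card ι : ℝ) * q x) ^ 2 =
        3 * (Fintype.card ι : ℝ) ^ 2 * q2 q := by
      unfold q2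
      rw [Finset.mul_sum]
      apply Finset.sum_congr rfl
      intro x _
      ring
    rw [h15]
    set y := 3 * (Fintype.card ι : ℝ) ^ 2 * q2 q with hy
    have hy0 : 0 ≤ y := by positivity
    have hy1 : y ≤ 1 := by
      rw [hy]
      linarith
    have h16 := Real.abs_exp_sub_one_sub_id_le (x := y) (by rw [abs_of_nonneg hy0]; exact hy1)
    have h17 := (abs_le.1 h16).2
    have h18 : y ^ 2 ≤ y := by nlinarith
    have h19 : 1 + 6 * (Fintype.card ι : ℝ) ^ 2 * q2 q = 1 + 2 * y := by rw [hy]; ring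
    rw [h19]
    linarith
  have hdiff : EN q' Φ - EM q Φ = EM q (fun t => (W q q' t - 1) * Φ t) := by
    rw [EN_eq_EM q q' hq hz Φ, ← CMP.EM_sub]
    unfold EM
    apply Finset.sum_congr rfl
    intro t _
    ring
  have hvar : EM q (fun t : ι → Finset π => (W q q' t - 1) ^ 2) ≤
      64 * (Fintype.card ι : ℝ) ^ 2 * q2 q := by
    have h20 : EM q (fun t : ι → Finset π => (W q q' t - 1) ^ 2) =
        EM q (fun t : ι → Finset π => W q q' t ^ 2) - 2 * EM q (fun t : ι → Finset π => W q q' t) +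
          EM q (fun _ : ι → Finset π => (1 : ℝ)) := by
      unfold EM
      rw [Finset.mul_sum, ← Finset.sum_sub_distrib, ← Finset.sum_add_distrib]
      apply Finset.sum_congr rfl
      intro t _
      ring
    rw [h20, hEW, hE1]
    have h21 : 0 ≤ (Fintype.card ι : ℝ) ^ 2 * q2 q := by positivity
    nlinarith
  rw [hdiff]
  refine (CMP.EM_cs q hw _ _).trans ?_
  apply mul_le_mul_of_nonneg_right hvar
  unfold EM
  apply Finset.sum_nonneg
  intro t _
  exact mul_nonneg (Finset.prod_nonneg fun h _ => hw _) (sq_nonneg _)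

end Pool.PP
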