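import Pool.Agent.Work.MP_b0c12c_px.QTr
import Pool.Agent.Work.MP_b0c12c_pp.B_CGEa

/-! # Block QCT (helper50): the transfer for the concrete primes -/

set_option autoImplicit false

namespace Pool.PP

open Finset Filter

theorem QCT_SP {w : ℕ} (y : SPt w) : (y : ℕ).Prime ∧ (y : ℕ) ≤ w := by
  have := y.2
  unfold SP at this
  rw [Finset.mem_filter, Finset.mem_Icc] at this
  exact ⟨this.2, this.1.2⟩

theorem QCT_LP {z I : ℕ} (x : LPt z I) :
    (x : ℕ).Prime ∧ z < (x : ℕ) ∧ (x : ℕ) ≤ z ^ 2 ^ I := by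
  have := x.2
  unfold LP at this
  rw [Finset.mem_filter, Finset.mem_Ioc] at this
  exact ⟨this.2, this.1.1, this.1.2⟩

theorem QCT_inj {w z I : ℕ} (hwz : w ≤ z) : Function.Injective (prQ w z I) := by
  rintro (y | x) (y' | x') h
  · simp only [prQ, Sum.elim_inl] at h
    rw [Subtype.ext h]
  · simp only [prQ, Sum.elim_inl, Sum.elim_inr] at h
    have h1 := (QCT_SP y).2
    have h2 := (QCT_LP x').2
    omega
  · simp only [prQ, Sum.elim_inl, Sum.elim_inr] at h
    have h1 := (QCT_SP y').2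
    have h2 := (QCT_LP x).2
    omega
  · simp only [prQ, Sum.elim_inr] at h
    rw [Subtype.ext h]

theorem QCT_prime {w z I : ℕ} (x : SPt w ⊕ LPt z I) : (prQ w z I x).Prime := by
  rcases x with y | x
  · exact (QCT_SP y).1
  · exact (QCT_LP x).1

/-- A large prime which divides a small integer. -/
theorem QCT_dvd {z I : ℕ} (x : LPt z I) (m : ℤ) (hm : |m| ≤ z) (hd : ((x : ℕ) : ℤ) ∣ m) :
    m = 0 := by
  by_contra hne
  have e1 := Int.le_of_dvd (abs_pos.2 hne) ((dvd_abs _ _).2 hd)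
  have e2 : ((z : ℕ) : ℤ) < ((x : ℕ) : ℤ) := by exact_mod_cast (QCT_LP x).2.1
  omega

theorem p_QCT (hT : Stmt_TRA) (hMo : Stmt_MOD) : Stmt_QCT := by
  classical
  intro N w z I u ι _ _ sh NN M K D Q δ Ψ hu hz hwz hsh hsh1 hNN hK hD hQ hEx hlev
  have hR : Sum.elim (fun y : SPt w => Ico u (y : ℕ)) (fun x : LPt z I => Ico u (x : ℕ)) =
      fun x => Ico u (prQ w z I x) := by
    funext x
    rcases x with y | x <;> rfl
  have hRne : ∀ x : SPt w ⊕ LPt z I, (Ico u (prQ w z I x)).Nonempty := fun x =>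
    ⟨1, Finset.mem_Ico.2 ⟨hu, (QCT_prime x).one_lt⟩⟩
  have hRlt : ∀ x : SPt w ⊕ LPt z I, ∀ r ∈ Ico u (prQ w z I x), r < prQ w z I x :=
    fun x r hr => (Finset.mem_Ico.1 hr).2
  have hzI : z ≤ z ^ 2 ^ I := Nat.le_self_pow (by positivity) z
  have hple : ∀ x : SPt w ⊕ LPt z I, prQ w z I x ≤ z ^ 2 ^ I := by
    rintro (y | x)
    · exact ((QCT_SP y).2.trans hwz).trans hzI
    · exact (QCT_LP x).2.2
  have hNr : ∀ n ∈ NN, ∀ x : SPt w ⊕ LPt z I, n % prQ w z I x ∈ Ico u (prQ w z I x) := by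
    intro n hn x
    rw [Finset.mem_Ico]
    refine ⟨?_, Nat.mod_lt _ (QCT_prime x).pos⟩
    rcases Nat.eq_zero_or_pos u with hu0 | hu0
    · omega
    · have hu1 : u = 1 := by omega
      have := hNN hu1 n hn _ (QCT_prime x) (hple x)
      have e3 : n % prQ w z I x ≠ 0 := fun h0 => this (Nat.dvd_of_mod_eq_zero h0)
      omega
  have t1 := hT (SPt w ⊕ LPt z I) ι (prQ w z I) (fun x => Ico u (prQ w z I x)) sh
    (rr (fun x : LPt z I => (x : ℕ))) (fun t => Ψ (Sset t) (lg t)) K (2 ^ N) D NN M δ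
    hRne hRlt hNr hK (by positivity) hEx (by
      intro a' ha'
      refine CGE_err (prQ w z I) (QCT_inj hwz) QCT_prime u hu NN M Q (2 ^ N) δ hlev _ ?_ a' ha'
      intro V hV
      rw [Finset.mem_filter] at hV
      have h1 : ∏ x ∈ V, (prQ w z I x : ℝ) = (∏ y ∈ V.toLeft, (((y : SPt w) : ℕ) : ℝ)) *
          ∏ x ∈ V.toRight, (((x : LPt z I) : ℕ) : ℝ) := by
        conv_lhs => rw [← Finset.toLeft_disjSum_toRight (u := V)]
        rw [Finset.prod_disjSum]
        rfl
      have h2 : ∏ x ∈ V, rr (fun x : LPt z I => (x : ℕ)) x =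
          ∏ x ∈ V.toRight, (((x : LPt z I) : ℕ) : ℝ) := by
        conv_lhs => rw [← Finset.toLeft_disjSum_toRight (u := V)]
        rw [Finset.prod_disjSum]
        simp [rr]
      have h3 : ∏ y ∈ V.toLeft, (((y : SPt w) : ℕ) : ℝ) ≤ ∏ p ∈ SP w, (p : ℝ) := by
        have e0 : ∏ y ∈ V.toLeft, ((y : SPt w) : ℕ) ≤ ∏ p ∈ SP w, p := by
          have e1 : ∏ y ∈ V.toLeft, ((y : SPt w) : ℕ) =
              ∏ p ∈ V.toLeft.map (Function.Embedding.subtype _), p := by
            rw [Finset.prod_map]; rfl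
          rw [e1]
          apply Finset.prod_le_prod_of_subset_of_one_le'
          · intro p hp
            rw [Finset.mem_map] at hp
            obtain ⟨y, _, rfl⟩ := hp
            exact y.2
          · intro p hp _
            unfold SP at hp
            rw [Finset.mem_filter] at hp
            exact hp.2.one_lt.le
        have e2 : ((∏ y ∈ V.toLeft, ((y : SPt w) : ℕ) : ℕ) : ℝ) ≤ ((∏ p ∈ SP w, p : ℕ) : ℝ) := by
          exact_mod_cast e0
        rw [Nat.cast_prod, Nat.cast_prod] at e2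
        exact e2
      rw [h1]
      refine le_trans (mul_le_mul h3 (h2 ▸ hV.2) (by positivity) (by positivity)) hQ)
  have m1 := hMo (SPt w) (LPt z I) ι (fun y => (y : ℕ)) (fun x => (x : ℕ))
    (fun y => Ico u (y : ℕ)) (fun x => Ico u (x : ℕ)) sh Ψ
    (fun y => ⟨1, Finset.mem_Ico.2 ⟨hu, (QCT_SP y).1.one_lt⟩⟩)
    (fun x => ⟨1, Finset.mem_Ico.2 ⟨hu, (QCT_LP x).1.one_lt⟩⟩)
    (fun x r hr => (Finset.mem_Ico.1 hr).2)
    (by
      intro x h
      have hxpos : (0 : ℤ) < ((x : ℕ) : ℤ) := by exact_mod_cast (QCT_LP x).1.pos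
      have e1 := Int.emod_nonneg (-(sh h)) hxpos.ne'
      have e2 := Int.emod_lt_of_pos (-(sh h)) hxpos
      change ((-(sh h)) % ((x : ℕ) : ℤ)).toNat ∈ Ico u (x : ℕ)
      rw [Finset.mem_Ico]
      refine ⟨?_, by omega⟩
      rcases Nat.eq_zero_or_pos u with hu0 | hu0
      · omega
      · have hu1 : u = 1 := by omega
        have e3 : (-(sh h)) % ((x : ℕ) : ℤ) ≠ 0 := by
          intro h0
          have h4 : ((x : ℕ) : ℤ) ∣ sh h := by
            have := Int.dvd_of_emod_eq_zero h0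
            rwa [dvd_neg] at this
          exact (hsh1 hu1 h).1 (QCT_dvd x _ (hsh1 hu1 h).2 h4)
        omega)
    (by
      intro x h h' hne hd
      have := QCT_dvd x _ (hsh h h' hne).2 hd
      exact (hsh h h' hne).1 (by linarith))
  have hcard : ∀ y : SPt w, ((Ico u (y : ℕ)).card : ℝ) = ((y : ℕ) : ℝ) - u := by
    intro y
    have := (QCT_SP y).1.one_lt
    rw [Nat.card_Ico, Nat.cast_sub (by omega)]
  have hcardL : (fun x : LPt z I => 1 / ((Ico u (x : ℕ)).card : ℝ)) = dQ u z I := by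
    funext x
    have := (QCT_LP x).1.one_lt
    unfold dQ qc
    rw [Nat.card_Ico, Nat.cast_sub (by omega)]
  rw [hcardL, Finset.prod_congr rfl (fun y _ => hcard y)] at m1
  have m2 : EW (prQ w z I) (fun x => Ico u (prQ w z I x)) sh (fun t => Ψ (Sset t) (lg t)) =
      avQ u w (fun ω => EN (dQ u z I) (Ψ (Sw (fun y : SPt w => (y : ℕ)) sh ω))) := by
    rw [← hR]
    exact m1
  rw [m2] at t1
  exact t1

end Pool.PP
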