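import Pool.Agent.Work.MP_b0c12c_px.QTr

/-! # Block QEM: exactly m primes in the window -/

set_option autoImplicit false

namespace Pool.PP

open Finset Filter

theorem QEM_zero (hQGD : Stmt_QGD) (a b : ℝ) (ha : 0 < a) (hab : a ≤ b) :
    ∃ c : ℝ, 0 < c ∧ ∀ᶠ X : ℕ in atTop,
    ∀ H3 H1 : ℕ, (H3 : ℝ) ≤ b * Real.log X → a * Real.log X ≤ H1 → (H1 : ℝ) ≤ b * Real.log X →
      c * X ≤ ((exQ X H3 H1 0).card : ℝ) := by
  obtain ⟨c, hc, hev⟩ := hQGD a (2 * b) 1 ha (by linarith) le_rfl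
  refine ⟨c, hc, ?_⟩
  have hlog : ∀ᶠ X : ℕ in atTop, b * Real.log X ≤ X := by
    have h1 : (fun x : ℝ => Real.log x) =o[atTop] (fun x : ℝ => x) := Real.isLittleO_log_id_atTop
    have hb : 0 < 1 / b := by have : 0 < b := by linarith
                              positivity
    have h2 := (h1.def hb)
    have h3 := tendsto_natCast_atTop_atTop (R := ℝ) |>.eventually h2
    filter_upwards [h3, eventually_ge_atTop 1] with X hX hX1
    have hb0 : 0 < b := by linarith
    have hX1' : (1 : ℝ) ≤ X := by exact_mod_cast hX1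
    have h4 : Real.log X ≤ 1 / b * X := by
      have h5 : ‖Real.log (X : ℝ)‖ ≤ 1 / b * ‖(X : ℝ)‖ := hX
      rw [Real.norm_of_nonneg (Real.log_nonneg hX1'), Real.norm_of_nonneg (by linarith)] at h5
      exact h5
    calc b * Real.log X ≤ b * (1 / b * X) := by gcongr
      _ = X := by field_simp
  filter_upwards [hev, hlog] with X hX hXl H3 H1 hH3 hH1a hH1b
  have h1 : (((H1 + H3 : ℕ) : ℝ)) ≤ 2 * b * Real.log X := by push_cast; linarith
  have hlog0 : 0 ≤ b * Real.log X := le_trans (Nat.cast_nonneg _) hH1b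
  have h2 : (H1 : ℝ) ≤ 2 * b * Real.log X := by linarith
  have h3 := hX (H1 + H3) H1 h1 hH1a h2
  refine h3.trans ?_
  have hH1X : H1 ≤ X := by
    have : (H1 : ℝ) ≤ X := hH1b.trans hXl
    exact_mod_cast this
  have h4 : (gdQ X (H1 + H3) H1 1).card ≤ (exQ X H3 H1 0).card := by
    refine Finset.card_le_card_of_injOn (fun n => n - H1) ?_ ?_
    · intro n hn
      have hn' : n ∈ gdQ X (H1 + H3) H1 1 := hn
      simp only [gdQ, mem_filter, mem_Ioc] at hn'
      obtain ⟨⟨hn1, hn2⟩, hn3, -⟩ := hn'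
      have goal : (n - H1) ∈ exQ X H3 H1 0 := by
        simp only [exQ, mem_filter, mem_Ioc]
        refine ⟨⟨by omega, by omega⟩, ?_, ?_⟩
        · intro p hp
          exact hn3 p ⟨by omega, by omega⟩
        · rw [Finset.card_eq_zero, Finset.filter_eq_empty_iff]
          intro p hp
          rw [mem_Ioc] at hp
          exact hn3 p ⟨by omega, by omega⟩
      exact goal
    · intro n hn n' hn' h
      have hn1 : n ∈ gdQ X (H1 + H3) H1 1 := hn
      have hn2 : n' ∈ gdQ X (H1 + H3) H1 1 := hn'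
      simp only [gdQ, mem_filter, mem_Ioc] at hn1 hn2
      have h' : n - H1 = n' - H1 := h
      omega
  exact_mod_cast h4

theorem p_QEM (hQGD : Stmt_QGD) (hQRU : Stmt_QRU) (hQPA : Stmt_QPA) : Stmt_QEM := by
  intro a b m ha hab
  rcases Nat.eq_zero_or_pos m with hm | hm
  · subst hm
    exact QEM_zero hQGD a b ha hab
  have hb0 : 0 < b := by linarith
  obtain ⟨c, hc, hev⟩ := hQGD a (2 * b) m ha (by linarith) hm
  obtain ⟨C, hC, hpa⟩ := hQPA b hb0
  set η : ℝ := min (c / (4 * b * C)) a with hη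
  have hη0 : 0 < η := lt_min (by positivity) ha
  have hηc : 2 * b * C * η ≤ c / 2 := by
    calc 2 * b * C * η ≤ 2 * b * C * (c / (4 * b * C)) := by
          gcongr
          exact min_le_left _ _
      _ = c / 2 := by field_simp; ring
  have hηa : η ≤ a := min_le_right _ _
  refine ⟨c * η / (8 * b), by positivity, ?_⟩
  have hlogt : Tendsto (fun X : ℕ => Real.log (X : ℝ)) atTop atTop :=
    Real.tendsto_log_atTop.comp tendsto_natCast_atTop_atTop
  have hlog : ∀ᶠ X : ℕ in atTop, 2 * b * Real.log X ≤ X := by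
    have h1 : (fun x : ℝ => Real.log x) =o[atTop] (fun x : ℝ => x) := Real.isLittleO_log_id_atTop
    have hb : 0 < 1 / (2 * b) := by positivity
    have h2 := (h1.def hb)
    have h3 := tendsto_natCast_atTop_atTop (R := ℝ) |>.eventually h2
    filter_upwards [h3, eventually_ge_atTop 1] with X hX hX1
    have hX1' : (1 : ℝ) ≤ X := by exact_mod_cast hX1
    have h4 : Real.log X ≤ 1 / (2 * b) * X := by
      have h5 : ‖Real.log (X : ℝ)‖ ≤ 1 / (2 * b) * ‖(X : ℝ)‖ := hX
      rw [Real.norm_of_nonneg (Real.log_nonneg hX1'), Real.norm_of_nonneg (by linarith)] at h5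
      exact h5
    calc 2 * b * Real.log X ≤ 2 * b * (1 / (2 * b) * X) := by gcongr
      _ = X := by field_simp
  filter_upwards [hev, hpa η hη0, hlog, hlogt.eventually_ge_atTop (1 / b),
    hlogt.eventually_ge_atTop (2 / η)] with X hX hXpa hXl hX1 hX2 H3 H1 hH3 hH1a hH1b
  set L : ℝ := Real.log X with hL
  have hL0 : 0 < L := lt_of_lt_of_le (by positivity) hX1
  have hbL : 1 ≤ b * L := by
    have := mul_le_mul_of_nonneg_left hX1 hb0.le
    rwa [mul_one_div, div_self hb0.ne'] at this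
  have hηL : 2 ≤ η * L := by
    have := mul_le_mul_of_nonneg_left hX2 hη0.le
    rwa [mul_div_cancel₀ _ hη0.ne'] at this
  have h1 : (((H1 + H3 : ℕ) : ℝ)) ≤ 2 * b * L := by push_cast; linarith
  have h2 : (H1 : ℝ) ≤ 2 * b * L := by linarith
  have h3 := hX (H1 + H3) H1 h1 hH1a h2
  set l : ℕ := ⌊η * L⌋₊ with hl
  have hl1 : (l : ℝ) ≤ η * L := Nat.floor_le (by linarith)
  have hl2 : η * L / 2 ≤ l := by
    have := Nat.lt_floor_add_one (η * L)
    rw [← hl] at this
    linarith
  have hl0 : 1 ≤ l := by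
    have : (1 : ℝ) ≤ l := by linarith
    exact_mod_cast this
  have hlH : l ≤ H1 := by
    have : (l : ℝ) ≤ H1 := by
      calc (l : ℝ) ≤ η * L := hl1
        _ ≤ a * L := by gcongr
        _ ≤ H1 := hH1a
    exact_mod_cast this
  have hHX : H1 + H3 ≤ X := by
    have : (((H1 + H3 : ℕ) : ℝ)) ≤ X := h1.trans hXl
    exact_mod_cast this
  have h4 := hQRU X H3 (H1 + H3) H1 m l hm hl0 hlH le_rfl hHX
  have h5 := hXpa H1 l hH1b hl1 hlH
  have hlr : (0 : ℝ) < l := by exact_mod_cast hl0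
  set E : ℝ := ((exQ X H3 H1 m).card : ℝ) with hE
  have hE0 : 0 ≤ E := Nat.cast_nonneg _
  have hH1' : (H1 : ℝ) + 1 ≤ 2 * b * L := by linarith
  have h6 : E / (l : ℝ) ≤ 2 * E / (η * L) := by
    rw [div_le_div_iff₀ hlr (by positivity)]
    nlinarith
  have h7 : c * X ≤ 2 * b * L * (C * η * (X / L) + 2 * E / (η * L)) := by
    calc c * X ≤ _ := h3
      _ ≤ _ := h4
      _ ≤ _ := by gcongr
  have h8 : 2 * b * L * (C * η * (X / L) + 2 * E / (η * L)) = 2 * b * C * η * X + 4 * b * E / η := by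
    field_simp
    ring
  have hX0 : (0 : ℝ) ≤ X := Nat.cast_nonneg _
  have h9 : c / 2 * X ≤ 4 * b * E / η := by
    have : 2 * b * C * η * X ≤ c / 2 * X := by gcongr
    rw [h8] at h7
    linarith
  rw [div_mul_eq_mul_div, div_le_iff₀ (by positivity)]
  rw [le_div_iff₀ hη0] at h9
  nlinarith

end Pool.PP
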