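import Pool.Agent.Work.MP_b0c12c_px.QTr

/-! # Block QEX (helper86) -/

set_option autoImplicit false

namespace Pool.PP

open Finset Filter

theorem QEX_lev_update {ι : Type} [Fintype ι] [DecidableEq ι] {J : ℕ} (κ : ι → Option (Fin J))
    (m : ι) (s : Fin J) (hm : κ m = none) : lev κ ≤ lev (Function.update κ m (some s)) := by
  unfold lev
  apply Finset.sum_le_sum
  intro h _
  by_cases hh : h = m
  · subst hh
    rw [Function.update_self, hm]
    simp only [lev1]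
    positivity
  · rw [Function.update_of_ne hh]

theorem QEX_cQ_mem {ι : Type} [Fintype ι] [DecidableEq ι] {J : ℕ} (KK A : Finset ι) (Θ : ℝ)
    (κ : ι → Option (Fin J)) : |cQ KK A Θ κ| ≤ 1 := by
  unfold cQ
  split_ifs <;> simp

theorem QEX_cQ_lev {ι : Type} [Fintype ι] [DecidableEq ι] {J : ℕ} (KK A : Finset ι) (Θ : ℝ)
    (κ : ι → Option (Fin J)) (h : cQ KK A Θ κ ≠ 0) : lev κ ≤ Θ := by
  by_contra h1
  apply h
  unfold cQ
  rw [if_neg (fun h2 => h1 h2.2)]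

theorem QEX_cM_lev {ι : Type} [Fintype ι] [DecidableEq ι] {J : ℕ} (KK A : Finset ι) (Θ : ℝ)
    (m : ι) (κ : ι → Option (Fin J)) (h : cM (cQ KK A Θ) m κ ≠ 0) : lev κ ≤ Θ := by
  by_contra h1
  apply h
  unfold cM
  split_ifs with hm
  · have h2 : cQ KK A Θ κ = 0 := by
      by_contra h3
      exact h1 (QEX_cQ_lev KK A Θ κ h3)
    have h4 : ∀ s : Fin J, cQ KK A Θ (Function.update κ m (some s)) = 0 := by
      intro s
      by_contra h3
      exact h1 ((QEX_lev_update κ m s hm).trans (QEX_cQ_lev KK A Θ _ h3))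
    simp [h2, h4]
  · rfl

theorem QEX_card {ι : Type} [Fintype ι] [DecidableEq ι] (KK : Finset ι) (k : ℕ)
    (B : Finset (Finset ι)) (hB : B ⊆ AA KK k) :
    (B.card : ℝ) ≤ (2 + (Fintype.card ι : ℝ)) ^ k := by
  have e1 : B.card ≤ (univ \ KK).card.choose k := by
    have := Finset.card_le_card hB
    unfold AA at this
    rwa [Finset.card_powersetCard] at this
  have e2 : (univ \ KK).card.choose k ≤ (univ \ KK).card ^ k := Nat.choose_le_pow _ _
  have e3 : (univ \ KK).card ≤ Fintype.card ι := Finset.card_le_univ _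
  have e4 : B.card ≤ (2 + Fintype.card ι) ^ k :=
    (e1.trans e2).trans (Nat.pow_le_pow_left (by omega) k)
  exact_mod_cast e4

theorem QEX_mem_exS {ι : Type} [Fintype ι] [DecidableEq ι] (h0 : ι)
    (S : Finset {h : ι // h ≠ h0}) (h : {h : ι // h ≠ h0}) : h.1 ∈ exS h0 S ↔ h ∈ S := by
  unfold exS
  rw [Finset.mem_insert, Finset.mem_image]
  constructor
  · rintro (h1 | ⟨a, ha, h1⟩)
    · exact absurd h1 h.2
    · rwa [← Subtype.ext h1]
  · intro h1
    exact Or.inr ⟨h, h1, rfl⟩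

theorem p_QEX (h1 : Stmt_EXM) (h2 : Stmt_EXS) (h3 : Stmt_EXC) (h4 : Stmt_EXI) (h5 : Stmt_EXT)
    (h6 : Stmt_QPS) (h7 : Stmt_QCK) (h8 : Stmt_QCA) : Stmt_QEX := by
  intro J Θ k A hA hJ
  obtain ⟨N₁, hN₁⟩ := h5 J Θ A hA
  obtain ⟨N₂, hN₂⟩ := pow_unbounded_of_one_lt A (one_lt_two)
  refine ⟨2 * k + 4 * N₁ + 7 + N₂, ?_⟩
  intro σ π ι _ _ _ _ _ _ pr KK f r a aρ D hpr hD haA haρ hsz hszρ hf hrr
  set n : ℝ := (Fintype.card ι : ℝ) with hn
  have hn0 : 0 ≤ n := Nat.cast_nonneg _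
  have hn2 : (1 : ℝ) ≤ 2 + n := by linarith
  have hA0 : 0 ≤ A := by linarith
  set K₁ : ℝ := (2 + n) ^ N₁ with hK₁
  set κ₁ : ℝ := (2 : ℝ) ^ N₁ with hκ₁
  have hK₁1 : 1 ≤ K₁ := one_le_pow₀ hn2
  have hκ₁1 : 1 ≤ κ₁ := one_le_pow₀ one_le_two
  have hr : ∀ x : σ ⊕ π, 1 ≤ rr (σ := σ) pr x := by
    intro x
    rcases x with y | x
    · simp [rr]
    · simp only [rr, Sum.elim_inr]
      exact_mod_cast hpr x
  -- the functions `PF c`
  have hPF : ∀ c : (ι → Option (Fin J)) → ℝ, (∀ κ, |c κ| ≤ 1) → (∀ κ, c κ ≠ 0 → lev κ ≤ Θ) →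
      Ex (rr (σ := σ) pr) (fun t : ι → Finset (σ ⊕ π) => PF c (tab f (Sset t) (lg t)))
        K₁ κ₁ (D ^ Θ) := by
    intro c hc1 hc2
    have e6 := hN₁ σ π ι pr a D c hpr hD haA hsz hc1 hc2
    have e7 : (fun t : ι → Finset (σ ⊕ π) => PF c (tab f (Sset t) (lg t))) =
        (fun t : ι → Finset (σ ⊕ π) =>
          PF c (fun h s => open Classical in
            if h ∈ Sset t then ∑ U ∈ (lg t h).powerset, a s U else 0)) := by
      funext t
      congr 1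
      funext h s
      unfold tab
      split_ifs with hh
      · exact hf s (lg t h)
      · rfl
    rw [e7]
    exact e6
  have hDΘ : 0 ≤ D ^ Θ := by positivity
  -- squares
  have hsq : ∀ (ι' : Type) [Fintype ι'] [DecidableEq ι'] (Φ : (ι' → Finset (σ ⊕ π)) → ℝ),
      Ex (rr (σ := σ) pr) Φ K₁ κ₁ (D ^ Θ) →
      Ex (rr (σ := σ) pr) (fun t => Φ t ^ 2) (K₁ ^ 2) ((1 + κ₁) ^ 2) (D ^ (2 * Θ)) := by
    intro ι' _ _ Φ hΦ
    have e8 := h1 (σ ⊕ π) ι' (rr (σ := σ) pr) Φ Φ K₁ K₁ κ₁ κ₁ (D ^ Θ) (D ^ Θ) hr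
      (by linarith) (by linarith) (by linarith) (by linarith) hDΘ hDΘ hΦ hΦ
    have e1 : (fun t : ι' → Finset (σ ⊕ π) => Φ t ^ 2) = fun t => Φ t * Φ t := by
      funext t; ring
    have e2 : K₁ ^ 2 = K₁ * K₁ := by ring
    have e3 : (1 + κ₁) ^ 2 = (1 + κ₁) * (1 + κ₁) := by ring
    have e4 : D ^ (2 * Θ) = D ^ Θ * D ^ Θ := by ring
    rw [e1, e2, e3, e4]
    exact e8
  set κ₂ : ℝ := (1 + κ₁) ^ 2 with hκ₂
  have hκ₂1 : 1 ≤ κ₂ := one_le_pow₀ (by linarith)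
  have hκ₂le : κ₂ ≤ (2 : ℝ) ^ (2 * N₁ + 2) := by
    have e5 : (2 : ℝ) ^ (2 * N₁ + 2) = (κ₁ * 2) ^ 2 := by
      rw [hκ₁, ← pow_succ, ← pow_mul]
      congr 1
      ring
    rw [e5, hκ₂]
    apply pow_le_pow_left₀ (by linarith)
    linarith
  have hK12 : K₁ ^ 2 = (2 + n) ^ (2 * N₁) := by rw [hK₁, ← pow_mul]; congr 1; ring
  have hAn : A ≤ (2 + n) ^ N₂ := hN₂.le.trans (pow_le_pow_left₀ (by norm_num) (by linarith) _)
  -- sums over a family of sets `A`
  have hsum : ∀ (ι' : Type) [Fintype ι'] [DecidableEq ι'] (B : Finset (Finset ι))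
      (Ψ : Finset ι → (ι' → Finset (σ ⊕ π)) → ℝ) (K κ E : ℝ), B ⊆ AA KK k → 0 ≤ K → 0 ≤ κ →
      (∀ A' ∈ B, Ex (rr (σ := σ) pr) (Ψ A') K κ E) →
      Ex (rr (σ := σ) pr) (fun t => ∑ A' ∈ B, Ψ A' t) ((2 + n) ^ k * K) κ E := by
    intro ι' _ _ B Ψ K κ E hB hK hκ hΨ
    have e1 := h2 (σ ⊕ π) ι' (Finset ι) (rr (σ := σ) pr) B (fun _ => 1) Ψ (fun _ => K) κ E hκ
      (fun A' hA' _ => hΨ A' hA')
    have e2 : (fun t : ι' → Finset (σ ⊕ π) => ∑ A' ∈ B, Ψ A' t) =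
        fun t => ∑ A' ∈ B, (1 : ℝ) * Ψ A' t := by
      funext t
      simp only [one_mul]
    rw [e2]
    refine (h3 (σ ⊕ π) ι' (rr (σ := σ) pr)).2 _ _ _ κ κ E E ?_ ?_ hκ (le_refl _) (le_refl _) e1
    · apply Finset.sum_nonneg
      intro A' _
      positivity
    · simp only [abs_one, one_mul, Finset.sum_const, nsmul_eq_mul]
      exact mul_le_mul_of_nonneg_right (QEX_card KK k B hB) hK
  -- the weight
  have hOm : Ex (rr (σ := σ) pr) (fun t : ι → Finset (σ ⊕ π) => OmQ f (Sset t) KK k Θ (lg t))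
      ((2 + n) ^ k * K₁ ^ 2) κ₂ (D ^ (2 * Θ)) := by
    unfold OmQ
    exact hsum ι (AA KK k) (fun A' t => PF (cQ KK A' Θ) (tab f (Sset t) (lg t)) ^ 2) (K₁ ^ 2) κ₂
      (D ^ (2 * Θ)) (Finset.Subset.refl _) (by positivity) (by linarith)
      (fun A' _ => hsq ι _ (hPF (cQ KK A' Θ) (QEX_cQ_mem KK A' Θ) (QEX_cQ_lev KK A' Θ)))
  have hD2 : (0 : ℝ) ≤ D ^ (2 * Θ) := by positivity
  have hK₃ : (2 + n) ^ k * K₁ ^ 2 = (2 + n) ^ (k + 2 * N₁) := by rw [hK12, ← pow_add]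
  refine ⟨?_, ?_, ?_, ?_⟩
  · refine (h3 (σ ⊕ π) ι (rr (σ := σ) pr)).2 _ _ _ κ₂ _ (D ^ (2 * Θ)) _ (by positivity) ?_
      (by linarith) ?_ ?_ hOm
    · rw [hK₃]
      exact pow_le_pow_right₀ hn2 (by omega)
    · exact hκ₂le.trans (pow_le_pow_right₀ one_le_two (by omega))
    · exact pow_le_pow_right₀ hD (by omega)
  · have e8 := h1 (σ ⊕ π) ι (rr (σ := σ) pr) _ _ _ _ κ₂ κ₂ (D ^ (2 * Θ)) (D ^ (2 * Θ)) hr
      (by positivity) (by positivity) (by linarith) (by linarith) hD2 hD2 hOm hOm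
    have e1 : (fun t : ι → Finset (σ ⊕ π) => OmQ f (Sset t) KK k Θ (lg t) ^ 2) =
        fun t => OmQ f (Sset t) KK k Θ (lg t) * OmQ f (Sset t) KK k Θ (lg t) := by
      funext t; ring
    rw [e1]
    refine (h3 (σ ⊕ π) ι (rr (σ := σ) pr)).2 _ _ _ _ _ _ _ (by positivity) ?_
      (by positivity) ?_ ?_ e8
    · rw [hK₃, ← pow_add]
      exact pow_le_pow_right₀ hn2 (by omega)
    · calc (1 + κ₂) * (1 + κ₂) ≤ (2 ^ (2 * N₁ + 2) * 2) * (2 ^ (2 * N₁ + 2) * 2) := by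
            have e9 : (1 : ℝ) ≤ 2 ^ (2 * N₁ + 2) := one_le_pow₀ one_le_two
            have e10 : 1 + κ₂ ≤ 2 ^ (2 * N₁ + 2) * 2 := by linarith
            gcongr
        _ = 2 ^ (4 * N₁ + 6) := by ring
        _ ≤ 2 ^ (2 * k + 4 * N₁ + 7 + N₂) := pow_le_pow_right₀ one_le_two (by omega)
    · rw [← pow_add]
      exact pow_le_pow_right₀ hD (by omega)
  · -- the killed sites
    set κ₃ : ℝ := (1 + κ₂) * (1 + 1) with hκ₃
    have hterm : ∀ (A' : Finset ι) (m : ι), m ∈ KK → Ex (rr (σ := σ) pr)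
        (fun t : ι → Finset (σ ⊕ π) => PF (cM (cQ KK A' Θ) m) (tab f (Sset t) (lg t)) ^ 2 *
          (open Classical in if m ∈ Sset t then ∑ U ∈ (lg t m).powerset, aρ U else 0))
        (K₁ ^ 2 * A) κ₃ (D ^ (2 * Θ) * D) := by
      intro A' m hm
      refine h1 (σ ⊕ π) ι (rr (σ := σ) pr) _ _ (K₁ ^ 2) A κ₂ 1 (D ^ (2 * Θ)) D hr
        (by positivity) hA0 (by linarith) zero_le_one hD2 (by linarith)
        (hsq ι _ (hPF (cM (cQ KK A' Θ) m) ?_ (QEX_cM_lev KK A' Θ m)))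
        (h4 σ π ι pr aρ A D m hA0 haρ hszρ)
      intro κ
      have e1 := h7 ι J KK A' Θ m κ hJ hm
      rw [abs_le]
      exact ⟨by linarith [e1.1], e1.2.1⟩
    have hin : ∀ A' ∈ AA KK k, Ex (rr (σ := σ) pr)
        (fun t : ι → Finset (σ ⊕ π) => ∑ m ∈ KK,
          (1 : ℝ) * (PF (cM (cQ KK A' Θ) m) (tab f (Sset t) (lg t)) ^ 2 *
            (open Classical in if m ∈ Sset t then ∑ U ∈ (lg t m).powerset, aρ U else 0)))
        ((2 + n) * (K₁ ^ 2 * A)) κ₃ (D ^ (2 * Θ) * D) := by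
      intro A' _
      have e1 := h2 (σ ⊕ π) ι ι (rr (σ := σ) pr) KK (fun _ => 1)
        (fun m (t : ι → Finset (σ ⊕ π)) => PF (cM (cQ KK A' Θ) m) (tab f (Sset t) (lg t)) ^ 2 *
          (open Classical in if m ∈ Sset t then ∑ U ∈ (lg t m).powerset, aρ U else 0))
        (fun _ => K₁ ^ 2 * A) κ₃ (D ^ (2 * Θ) * D) (by positivity)
        (fun m hm _ => hterm A' m hm)
      refine (h3 (σ ⊕ π) ι (rr (σ := σ) pr)).2 _ _ _ κ₃ κ₃ _ _ ?_ ?_ (by positivity)
        (le_refl _) (le_refl _) e1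
      · apply Finset.sum_nonneg
        intro m _
        positivity
      · simp only [abs_one, one_mul, Finset.sum_const, nsmul_eq_mul]
        have e3 : (KK.card : ℝ) ≤ n := by
          rw [hn]
          exact_mod_cast Finset.card_le_univ KK
        have e4 : 0 ≤ K₁ ^ 2 * A := by positivity
        exact mul_le_mul_of_nonneg_right (by linarith) e4
    have hBd := hsum ι (AA KK k) (fun A' t => ∑ m ∈ KK,
          (1 : ℝ) * (PF (cM (cQ KK A' Θ) m) (tab f (Sset t) (lg t)) ^ 2 *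
            (open Classical in if m ∈ Sset t then ∑ U ∈ (lg t m).powerset, aρ U else 0)))
      ((2 + n) * (K₁ ^ 2 * A)) κ₃ (D ^ (2 * Θ) * D) (Finset.Subset.refl _) (by positivity)
      (by positivity) hin
    have e1 : (fun t : ι → Finset (σ ⊕ π) => BdQ f r (Sset t) KK k Θ (lg t)) =
        fun t => ∑ A' ∈ AA KK k, ∑ m ∈ KK,
          (1 : ℝ) * (PF (cM (cQ KK A' Θ) m) (tab f (Sset t) (lg t)) ^ 2 *
            (open Classical in if m ∈ Sset t then ∑ U ∈ (lg t m).powerset, aρ U else 0)) := by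
      funext t
      unfold BdQ
      apply Finset.sum_congr rfl
      intro A' _
      rw [← Finset.filter_mem_eq_inter, Finset.sum_filter]
      apply Finset.sum_congr rfl
      intro m _
      rw [one_mul]
      by_cases hm : m ∈ Sset t
      · rw [if_pos hm, if_pos hm, hrr]
      · rw [if_neg hm, if_neg hm, mul_zero]
    rw [e1]
    refine (h3 (σ ⊕ π) ι (rr (σ := σ) pr)).2 _ _ _ _ _ _ _ (by positivity) ?_
      (by positivity) ?_ ?_ hBd
    · calc (2 + n) ^ k * ((2 + n) * (K₁ ^ 2 * A))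
            ≤ (2 + n) ^ k * ((2 + n) * (K₁ ^ 2 * (2 + n) ^ N₂)) := by gcongr
        _ = (2 + n) ^ (k + 1 + 2 * N₁ + N₂) := by rw [hK12]; ring
        _ ≤ (2 + n) ^ (2 * k + 4 * N₁ + 7 + N₂) := pow_le_pow_right₀ hn2 (by omega)
    · calc κ₃ ≤ 2 ^ (2 * N₁ + 2) * 2 * 2 := by
            rw [hκ₃]
            have e9 : (1 : ℝ) ≤ 2 ^ (2 * N₁ + 2) := one_le_pow₀ one_le_two
            linarith
        _ = 2 ^ (2 * N₁ + 4) := by ring
        _ ≤ 2 ^ (2 * k + 4 * N₁ + 7 + N₂) := pow_le_pow_right₀ one_le_two (by omega)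
    · rw [← pow_succ]
      exact pow_le_pow_right₀ hD (by omega)
  · -- the free site
    intro h0 hh0
    set n' : ℝ := (Fintype.card {h : ι // h ≠ h0} : ℝ) with hn'
    have hn'n : n' ≤ n := by
      rw [hn', hn]
      exact_mod_cast Fintype.card_subtype_le _
    have hn'0 : 0 ≤ n' := Nat.cast_nonneg _
    have hPr : ∀ A' ∈ (AA KK k).filter (fun A' => h0 ∈ A'), Ex (rr (σ := σ) pr)
        (fun t : {h : ι // h ≠ h0} → Finset (σ ⊕ π) =>
          PF (cM (cQ KK A' Θ) h0) (tab f (exS h0 (Sset t)) (ext h0 (lg t))) ^ 2)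
        (K₁ ^ 2) κ₂ (D ^ (2 * Θ)) := by
      intro A' hA'
      have hA'0 : h0 ∈ A' := (Finset.mem_filter.mp hA').2
      apply hsq
      set c : (ι → Option (Fin J)) → ℝ := cM (cQ KK A' Θ) h0 with hc
      obtain ⟨q1, q2⟩ := h6 ι J c h0 (by
        intro κ hκ
        rw [hc]
        unfold cM
        rw [if_neg hκ])
      have hcabs : ∀ κ, |c κ| ≤ 1 := by
        intro κ
        have e1 := h8 ι J KK A' Θ h0 κ hJ hA'0 hh0
        rw [abs_le]
        exact ⟨e1.1, by linarith [e1.2.1]⟩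
      have e6 := hN₁ σ π {h : ι // h ≠ h0} pr a D
        (fun κ => c (fun h => if H : h ≠ h0 then κ ⟨h, H⟩ else none)) hpr hD haA hsz
        (fun κ => hcabs _) (by
          intro κ hκ
          rw [← q2 κ]
          exact QEX_cM_lev KK A' Θ h0 _ hκ)
      have e7 : (fun t : {h : ι // h ≠ h0} → Finset (σ ⊕ π) =>
            PF c (tab f (exS h0 (Sset t)) (ext h0 (lg t)))) =
          (fun t : {h : ι // h ≠ h0} → Finset (σ ⊕ π) =>
            PF (fun κ => c (fun h => if H : h ≠ h0 then κ ⟨h, H⟩ else none))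
              (fun h s => open Classical in
                if h ∈ Sset t then ∑ U ∈ (lg t h).powerset, a s U else 0)) := by
        funext t
        rw [q1]
        congr 1
        funext h s
        unfold tab
        by_cases hh : h ∈ Sset t
        · rw [if_pos ((QEX_mem_exS h0 (Sset t) h).mpr hh), if_pos hh]
          have e8 : ext h0 (lg t) h.1 = lg t h := by
            unfold ext
            rw [dif_pos h.2]
          rw [e8]
          exact hf s (lg t h)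
        · rw [if_neg (fun hh' => hh ((QEX_mem_exS h0 (Sset t) h).mp hh')), if_neg hh]
      rw [e7]
      refine (h3 (σ ⊕ π) {h : ι // h ≠ h0} (rr (σ := σ) pr)).2 _ _ _ κ₁ κ₁ _ _ (by positivity)
        ?_ (by positivity) (le_refl _) (le_refl _) e6
      rw [hK₁]
      exact pow_le_pow_left₀ (by linarith) (by linarith) _
    have hP := hsum {h : ι // h ≠ h0} ((AA KK k).filter (fun A' => h0 ∈ A'))
      (fun A' t => PF (cM (cQ KK A' Θ) h0) (tab f (exS h0 (Sset t)) (ext h0 (lg t))) ^ 2)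
      (K₁ ^ 2) κ₂ (D ^ (2 * Θ)) (Finset.filter_subset _ _) (by positivity) (by linarith) hPr
    unfold PrQ
    refine (h3 (σ ⊕ π) {h : ι // h ≠ h0} (rr (σ := σ) pr)).2 _ _ _ κ₂ _ (D ^ (2 * Θ)) _
      (by positivity) ?_ (by linarith) ?_ ?_ hP
    · rw [hK₃]
      exact pow_le_pow_right₀ hn2 (by omega)
    · exact hκ₂le.trans (pow_le_pow_right₀ one_le_two (by omega))
    · exact pow_le_pow_right₀ hD (by omega)

end Pool.PP
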