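import Pool.Agent.Work.MP_b0c12c_px.QLoc
import Pool.Agent.Work.MP_b0c12c_pp.B_GNF
import Pool.Agent.Work.MP_b0c12c_pp.B_W1S

/-! # Theorem Q: block QFA, lower bound for the second moments (helper96) -/

set_option autoImplicit false

namespace Pool.PP

open Finset

theorem p_QFA (h1 : Stmt_FRE) : Stmt_QFA := by
  intro π _ _ q b I hB s hs
  classical
  have hw : ∀ T : Finset π, 0 ≤ w1 q T :=
    (p_W1S π q).2 hB.nonneg (fun x => (hB.half x).trans (by norm_num))
  set c : π → ℝ := fun x => if b x < I - s then 0 else 1 with hc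
  have hfr : fr q b (I - s) = E1 q (fun T => ∏ x ∈ T, c x) := by
    rw [p_GNF π q c]
    unfold fr
    rw [Finset.prod_filter]
    refine Finset.prod_congr rfl fun x _ => ?_
    by_cases hx : b x < I - s
    · simp [hc, hx]
    · simp [hc, hx]
  rw [hfr]
  unfold E1
  refine Finset.sum_le_sum fun T _ => mul_le_mul_of_nonneg_left ?_ (hw T)
  show ∏ x ∈ T, c x ≤ gs q b I s T ^ 2
  by_cases hT : ∀ x ∈ T, ¬ b x < I - s
  · have e1 : ∏ x ∈ T, c x = 1 := Finset.prod_eq_one fun x hx => by simp [hc, hT x hx]
    have hom : ∀ i, i < I - s → om b T i = om b (∅ : Finset π) i := by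
      intro i hi
      unfold om
      congr 1
      ext x
      simp only [Finset.mem_filter, Finset.notMem_empty, false_and, iff_false, not_and]
      intro hx hbx
      exact hT x hx (by omega)
    have e2 : gs q b I s T = gs q b I s ∅ := by
      unfold gs gj low
      rw [hom (I - 1 - s) (by omega)]
      congr 1
      refine Finset.prod_congr rfl fun i hi => ?_
      rw [hom i (by have := Finset.mem_range.1 hi; omega)]
    rw [e1, e2, (h1 π q b I hB).1 s hs]
    norm_num
  · push Not at hT
    obtain ⟨x, hx, hx'⟩ := hT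
    have e1 : ∏ x ∈ T, c x = 0 := Finset.prod_eq_zero hx (by simp [hc, hx'])
    rw [e1]
    positivity

end Pool.PP
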