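import Pool.Agent.Work.MP_b0c12c_px.QLoc
import Pool.Agent.Work.MP_b0c12c_pp.B_BMR

/-! # Theorem Q, local part: block QFB (helper60) -/

set_option autoImplicit false

namespace Pool.PP

open Finset

theorem p_QFB : Stmt_QFB := by
  obtain ⟨C, hC, hM⟩ := Pool.Agent.Work.MP_b0c12c_nt_helper41.mertens2
  refine ⟨Real.exp (-1), max 10 ⌈Real.exp (C / 0.19)⌉₊, Real.exp_pos _, by omega, ?_⟩
  intro z I hz π _ _ pr b hP u hu j hj
  classical
  have hz10 : 10 ≤ z := le_trans (le_max_left _ _) hz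
  have hz1 : 1 ≤ z := by omega
  have hz2 : 2 ≤ z := by omega
  have hzR : (10 : ℝ) ≤ z := by exact_mod_cast hz10
  have hlz : 0 < Real.log z := Real.log_pos (by linarith)
  have hClog : C / Real.log z ≤ 0.19 := by
    have e1 : Real.exp (C / 0.19) ≤ z := by
      have := le_trans (Nat.le_ceil (Real.exp (C / 0.19)))
        (by exact_mod_cast le_trans (le_max_right 10 _) hz : ((⌈Real.exp (C / 0.19)⌉₊ : ℕ) : ℝ) ≤ z)
      exact this
    have e2 : C / 0.19 ≤ Real.log z := by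
      rw [Real.le_log_iff_exp_le (by linarith)]
      exact e1
    rw [div_le_iff₀ hlz]
    rw [div_le_iff₀ (by norm_num)] at e2
    linarith
  have hprz : ∀ x, z < pr x := fun x => ((hP.range (pr x)).mp ⟨x, rfl⟩).2.1
  have hprp : ∀ x, (pr x).Prime := fun x => ((hP.range (pr x)).mp ⟨x, rfl⟩).1
  have huR : (u : ℝ) ≤ 1 := by exact_mod_cast hu
  have hu0 : (0 : ℝ) ≤ u := Nat.cast_nonneg _
  have hprR : ∀ x, (z : ℝ) + 1 ≤ pr x := by
    intro x
    exact_mod_cast hprz x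
  -- one factor
  have hfac : ∀ x, Real.exp (-(1 / (pr x : ℝ) + 4 * (1 / ((pr x : ℝ) * ((pr x : ℝ) - 1))))) ≤
      1 - qc u pr x := by
    intro x
    have h1 := hprR x
    have h2 : (0 : ℝ) < (pr x : ℝ) - 2 := by linarith
    have h3 : (0 : ℝ) < (pr x : ℝ) := by linarith
    have h4 : (0 : ℝ) < (pr x : ℝ) - 1 := by linarith
    have h5 : (0 : ℝ) < (pr x : ℝ) - u := by linarith
    have h6 : qc u pr x ≤ 1 / ((pr x : ℝ) - 1) := by
      unfold qc
      apply one_div_le_one_div_of_le h4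
      linarith
    have h7 : 1 - 1 / ((pr x : ℝ) - 1) = ((pr x : ℝ) - 2) / ((pr x : ℝ) - 1) := by
      field_simp
      ring
    have h8 : ((pr x : ℝ) - 1) / ((pr x : ℝ) - 2) ≤ Real.exp (1 / ((pr x : ℝ) - 2)) := by
      have h9 := Real.add_one_le_exp (1 / ((pr x : ℝ) - 2))
      have h10 : ((pr x : ℝ) - 1) / ((pr x : ℝ) - 2) = 1 / ((pr x : ℝ) - 2) + 1 := by
        field_simp
        ring
      rw [h10]
      exact h9
    have h9 : 1 / ((pr x : ℝ) - 2) ≤ 1 / (pr x : ℝ) + 4 * (1 / ((pr x : ℝ) * ((pr x : ℝ) - 1))) := by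
      have e1 : 1 / ((pr x : ℝ) - 2) = 1 / (pr x : ℝ) + 2 * (1 / ((pr x : ℝ) * ((pr x : ℝ) - 2))) := by
        field_simp
        ring
      have e2 : 1 / ((pr x : ℝ) * ((pr x : ℝ) - 2)) ≤ 2 * (1 / ((pr x : ℝ) * ((pr x : ℝ) - 1))) := by
        rw [mul_one_div, div_le_div_iff₀ (mul_pos h3 h2) (mul_pos h3 h4)]
        nlinarith
      rw [e1]
      linarith
    calc Real.exp (-(1 / (pr x : ℝ) + 4 * (1 / ((pr x : ℝ) * ((pr x : ℝ) - 1)))))
        ≤ Real.exp (-(1 / ((pr x : ℝ) - 2))) := Real.exp_le_exp.mpr (by linarith)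
      _ = (Real.exp (1 / ((pr x : ℝ) - 2)))⁻¹ := Real.exp_neg _
      _ ≤ (((pr x : ℝ) - 1) / ((pr x : ℝ) - 2))⁻¹ := by
          apply inv_anti₀ (div_pos h4 h2) h8
      _ = ((pr x : ℝ) - 2) / ((pr x : ℝ) - 1) := inv_div _ _
      _ = 1 - 1 / ((pr x : ℝ) - 1) := h7.symm
      _ ≤ 1 - qc u pr x := by linarith
  have htel : ∀ A : Finset π, ∑ x ∈ A, 1 / ((pr x : ℝ) * ((pr x : ℝ) - 1)) ≤ 1 / (z : ℝ) := by
    intro A
    have e1 : ∑ x ∈ A, 1 / ((pr x : ℝ) * ((pr x : ℝ) - 1)) =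
        ∑ n ∈ A.image pr, 1 / ((n : ℝ) * ((n : ℝ) - 1)) := by
      rw [Finset.sum_image (fun x _ y _ h => hP.inj h)]
    rw [e1]
    apply BMR_tel_le z hz1
    intro n hn
    obtain ⟨x, -, rfl⟩ := Finset.mem_image.mp hn
    exact hprz x
  -- the sum of `1 / p`
  have himg2 : (univ.filter (fun x => b x < j)).image pr ⊆
      (Ioc z (z ^ (2 ^ j))).filter Nat.Prime := by
    intro p hp
    obtain ⟨x, hx, rfl⟩ := Finset.mem_image.mp hp
    have hbx : b x < j := (Finset.mem_filter.mp hx).2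
    rw [Finset.mem_filter, Finset.mem_Ioc]
    refine ⟨⟨hprz x, le_trans (hP.bhi x) ?_⟩, hprp x⟩
    exact Nat.pow_le_pow_right hz1 (Nat.pow_le_pow_right (by norm_num) hbx)
  have hzj : z ≤ z ^ (2 ^ j) := by
    calc z = z ^ 1 := (pow_one z).symm
      _ ≤ z ^ (2 ^ j) := Nat.pow_le_pow_right hz1 Nat.one_le_two_pow
  have h1 := (abs_le.mp (hM z (z ^ (2 ^ j)) hz2 hzj)).2
  rw [BMR_loglog hz2] at h1
  have h2 : ∑ x ∈ univ.filter (fun x => b x < j), 1 / (pr x : ℝ) ≤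
      ∑ p ∈ (Ioc z (z ^ (2 ^ j))).filter Nat.Prime, 1 / (p : ℝ) := by
    calc ∑ x ∈ univ.filter (fun x => b x < j), 1 / (pr x : ℝ)
        = ∑ p ∈ (univ.filter (fun x => b x < j)).image pr, 1 / (p : ℝ) := by
          rw [Finset.sum_image (fun x _ y _ h => hP.inj h)]
      _ ≤ _ := Finset.sum_le_sum_of_subset_of_nonneg himg2 (fun p _ _ => by positivity)
  have h3 := htel (univ.filter (fun x => b x < j))
  have h4 : 1 / (z : ℝ) ≤ 0.1 := by
    rw [div_le_iff₀ (by linarith)]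
    linarith
  have h5 : ∑ x ∈ univ.filter (fun x => b x < j),
      (1 / (pr x : ℝ) + 4 * (1 / ((pr x : ℝ) * ((pr x : ℝ) - 1)))) ≤ 1 + j * Real.log 2 := by
    rw [Finset.sum_add_distrib, ← Finset.mul_sum]
    linarith
  have e1 : Real.exp (-(j * Real.log 2)) = (1 / 2 : ℝ) ^ j := by
    rw [Real.exp_neg, mul_comm, Real.exp_mul, Real.exp_log (by norm_num), Real.rpow_natCast]
    rw [one_div, inv_pow]
  calc Real.exp (-1) * (1 / 2 : ℝ) ^ j = Real.exp (-(1 + j * Real.log 2)) := by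
        rw [← e1, ← Real.exp_add]
        congr 1
        ring
    _ ≤ Real.exp (∑ x ∈ univ.filter (fun x => b x < j),
          -(1 / (pr x : ℝ) + 4 * (1 / ((pr x : ℝ) * ((pr x : ℝ) - 1))))) := by
        apply Real.exp_le_exp.mpr
        rw [Finset.sum_neg_distrib]
        linarith
    _ = ∏ x ∈ univ.filter (fun x => b x < j),
          Real.exp (-(1 / (pr x : ℝ) + 4 * (1 / ((pr x : ℝ) * ((pr x : ℝ) - 1))))) :=
        Real.exp_sum _ _
    _ ≤ fr (qc u pr) b j := by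
        unfold fr
        exact Finset.prod_le_prod (fun x _ => (Real.exp_pos _).le) (fun x _ => hfac x)

end Pool.PP
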