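import Pool.Agent.Work.MP_b0c12c_px.QTr

/-! # Block QFI: Theorem Q (helper7) -/

set_option autoImplicit false

namespace Pool.PP

open Finset Filter

theorem p_QFI (h1 : Stmt_QEM) : Stmt_QFI := by
  classical
  intro lam del m hlam hdel
  obtain ⟨c, hc, hev⟩ := h1 (del / 2) (2 * lam + 2 * del + 1) m (by positivity) (by linarith)
  obtain ⟨X1, hX1⟩ := eventually_atTop.mp hev
  refine ⟨c / 6, by positivity, ?_⟩
  have hlog : Tendsto (fun X : ℕ => Real.log X) atTop atTop :=
    Real.tendsto_log_atTop.comp tendsto_natCast_atTop_atTop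
  have hε : (0 : ℝ) < 1 / (6 * (lam + del + 1)) := by positivity
  have hlo : ∀ᶠ X : ℕ in atTop, Real.log X ≤ 1 / (6 * (lam + del + 1)) * X := by
    have h2 := (Real.isLittleO_log_id_atTop.def hε)
    have h3 := tendsto_natCast_atTop_atTop (R := ℝ) |>.eventually h2
    filter_upwards [h3] with X hX
    have h4 : ‖(X : ℝ)‖ = X := by
      rw [Real.norm_eq_abs, abs_of_nonneg (Nat.cast_nonneg X)]
    simp only [id] at hX
    rw [h4] at hX
    exact (le_abs_self _).trans hX
  filter_upwards [eventually_ge_atTop (3 * X1 + 30), hlog.eventually_ge_atTop (2 / del + 2), hlo]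
    with X hX hL hlX
  set X0 := X / 3 with hX0
  set L := Real.log X with hLdef
  set H1 := ⌊del * L⌋₊ with hH1
  set H3 := ⌈lam * L⌉₊ with hH3
  have hX0a : 3 * X0 ≤ X := by omega
  have hX0b : X < 3 * X0 + 3 := by omega
  have hX01 : X1 ≤ X0 := by omega
  have hX05 : 10 ≤ X0 := by omega
  have hL2 : 2 ≤ L := by
    have : 0 < 2 / del := by positivity
    linarith
  have hdL : 2 ≤ del * L := by
    have h5 : del * (2 / del + 2) ≤ del * L := mul_le_mul_of_nonneg_left hL hdel.le
    have h6 : del * (2 / del + 2) = 2 + 2 * del := by field_simp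
    linarith
  have hXpos : (0 : ℝ) < X := by
    have : 0 < X := by omega
    exact_mod_cast this
  have hX0pos : (0 : ℝ) < X0 := by
    have : 0 < X0 := by omega
    exact_mod_cast this
  have hL0 : L ≤ 2 * Real.log X0 := by
    have h7 : (X : ℝ) ≤ (X0 : ℝ) ^ 2 := by
      have : X ≤ X0 ^ 2 := by nlinarith
      exact_mod_cast this
    have h8 := Real.log_le_log hXpos h7
    rw [Real.log_pow] at h8
    exact_mod_cast h8
  have hL0' : Real.log X0 ≤ L := by
    apply Real.log_le_log hX0pos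
    have : X0 ≤ X := by omega
    exact_mod_cast this
  have hl1 : 1 ≤ Real.log X0 := by linarith
  -- sizes
  have hH1a : (H1 : ℝ) ≤ del * L := Nat.floor_le (by linarith)
  have hH1b : del * L < H1 + 1 := Nat.lt_floor_add_one _
  have hH3a : lam * L ≤ H3 := Nat.le_ceil _
  have hH3b : (H3 : ℝ) < lam * L + 1 := Nat.ceil_lt_add_one (by positivity)
  have hsize : ((lam + del) * L) ≤ X / 6 := by
    have h9 : (lam + del) * L ≤ (lam + del + 1) * L := by nlinarith
    have h10 : (lam + del + 1) * L ≤ (lam + del + 1) * (1 / (6 * (lam + del + 1)) * X) :=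
      mul_le_mul_of_nonneg_left hlX (by positivity)
    have h11 : (lam + del + 1) * (1 / (6 * (lam + del + 1)) * X) = X / 6 := by field_simp
    linarith
  have hsum : H1 + H3 ≤ X0 := by
    have h12 : (H1 : ℝ) + H3 < X / 6 + 1 := by nlinarith
    have h13 : (X : ℝ) < 3 * X0 + 3 := by exact_mod_cast hX0b
    have h14 : (10 : ℝ) ≤ X0 := by exact_mod_cast hX05
    have h15 : (H1 : ℝ) + H3 ≤ X0 := by linarith
    exact_mod_cast h15
  -- the theorem for `X0`
  have h16 := hX1 X0 hX01 H3 H1 (by nlinarith) (by nlinarith) (by nlinarith)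
  have hsub : exQ X0 H3 H1 m ⊆ (Icc 1 X).filter (fun n : ℕ =>
      (∀ p : ℕ, p.Prime → p ≤ n → (p : ℝ) ≤ n - lam * L) ∧
      ((Ioc n (n + H1)).filter Nat.Prime).card = m) := by
    intro n hn
    rw [exQ, Finset.mem_filter, Finset.mem_Ioc] at hn
    rw [Finset.mem_filter, Finset.mem_Icc]
    obtain ⟨⟨hn1, hn2⟩, hn3, hn4⟩ := hn
    refine ⟨⟨by omega, by omega⟩, ?_, hn4⟩
    intro p hp hpn
    have h17 : p ≤ n - H3 := by
      by_contra h18
      exact hn3 p (Finset.mem_Ioc.mpr ⟨by omega, hpn⟩) hp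
    have h19 : p + H3 ≤ n := by omega
    have h20 : (p : ℝ) + H3 ≤ n := by exact_mod_cast h19
    linarith
  have h21 : ((exQ X0 H3 H1 m).card : ℝ) ≤ (((Icc 1 X).filter (fun n : ℕ =>
      (∀ p : ℕ, p.Prime → p ≤ n → (p : ℝ) ≤ n - lam * L) ∧
      ((Ioc n (n + H1)).filter Nat.Prime).card = m)).card : ℝ) := by
    exact_mod_cast Finset.card_le_card hsub
  have h22 : c / 6 * X ≤ c * X0 := by
    have h13 : (X : ℝ) < 3 * X0 + 3 := by exact_mod_cast hX0b
    have h14 : (10 : ℝ) ≤ X0 := by exact_mod_cast hX05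
    have h23 : (X : ℝ) / 6 ≤ X0 := by linarith
    have h24 := mul_le_mul_of_nonneg_left h23 hc.le
    linarith
  exact h22.trans (h16.trans h21)

end Pool.PP
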