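import Pool.Agent.Work.MP_b0c12c_px.QLoc

/-! # Theorem Q, local part: block QFM (helper60) -/

set_option autoImplicit false

namespace Pool.PP

open Finset

theorem p_QFM (h1 : Stmt_FMU) : Stmt_QFM := by
  intro π ι _ _ _ _ J f S KK k Θ h0 t a
  unfold PrQ
  refine Finset.sum_congr rfl (fun A _ => ?_)
  rw [h1 π ι J f S (cM (cQ KK A Θ) h0) h0 t a (fun κ hκ => if_neg hκ)]

end Pool.PP
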