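import Pool.Agent.Work.MP_b0c12c_px.QTr

/-! # Theorem Q, block QRU (helper63) -/

set_option autoImplicit false

namespace Pool.PP

open Finset Filter

/-- The number of primes up to `n`. -/
def QRU_P (n : ℕ) : ℕ := ((range (n + 1)).filter Nat.Prime).card

theorem QRU_P_diff {a b : ℕ} (hab : a ≤ b) :
    ((Ioc a b).filter Nat.Prime).card + QRU_P a = QRU_P b := by
  unfold QRU_P
  have h1 : (range (b + 1)).filter Nat.Prime =
      (Ioc a b).filter Nat.Prime ∪ (range (a + 1)).filter Nat.Prime := by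
    ext x
    simp only [Finset.mem_filter, Finset.mem_union, Finset.mem_Ioc, Finset.mem_range]
    constructor
    · rintro ⟨h, hp⟩
      rcases Nat.lt_or_ge a x with h' | h'
      · exact Or.inl ⟨⟨h', by omega⟩, hp⟩
      · exact Or.inr ⟨by omega, hp⟩
    · rintro (⟨⟨_, h⟩, hp⟩ | ⟨h, hp⟩)
      · exact ⟨by omega, hp⟩
      · exact ⟨by omega, hp⟩
  rw [h1, Finset.card_union_of_disjoint]
  rw [Finset.disjoint_left]
  intro x hx hx'
  simp only [Finset.mem_filter, Finset.mem_Ioc, Finset.mem_range] at hx hx'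
  omega

theorem QRU_P_succ (n : ℕ) : QRU_P (n + 1) = QRU_P n + if (n + 1).Prime then 1 else 0 := by
  unfold QRU_P
  rw [Finset.range_add_one (n := n + 1), Finset.filter_insert]
  split_ifs with h
  · rw [Finset.card_insert_of_notMem]
    simp
  · simp

/-- The number of primes in `(n, n + H]`. -/
def QRU_N (H n : ℕ) : ℕ := ((Ioc n (n + H)).filter Nat.Prime).card

theorem QRU_step (H n : ℕ) :
    QRU_N H (n + 1) + (if (n + 1).Prime then 1 else 0) =
      QRU_N H n + if (n + 1 + H).Prime then 1 else 0 := by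
  have h1 := QRU_P_diff (a := n + 1) (b := n + 1 + H) (by omega)
  have h2 := QRU_P_diff (a := n) (b := n + H) (by omega)
  have h3 := QRU_P_succ n
  have h4 := QRU_P_succ (n + H)
  have e : n + H + 1 = n + 1 + H := by omega
  rw [e] at h4
  unfold QRU_N
  omega

theorem p_QRU : Stmt_QRU := by
  classical
  intro X H3 H2 H1 m l hm hl hlH hH hX
  set E1 : Finset ℕ := (exQ X H3 H1 m).filter
    (fun n => n ≤ 2 * X ∧ 1 ≤ n ∧ (n + H1).Prime ∧ QRU_N H1 (n - 1) + 1 = m) with hE1
  -- step 1: the good integers are near `E1`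
  have hsub : gdQ X H2 H1 m ⊆ E1.biUnion (fun n => Icc n (n + H1)) := by
    intro n0 hn0
    unfold gdQ at hn0
    rw [Finset.mem_filter, Finset.mem_Ioc] at hn0
    obtain ⟨⟨hn1, hn2⟩, hfree, hmany⟩ := hn0
    have hN0 : QRU_N H1 (n0 - H1) = 0 := by
      unfold QRU_N
      rw [Finset.card_eq_zero, Finset.filter_eq_empty_iff]
      intro p hp
      rw [Finset.mem_Ioc] at hp
      exact hfree p (Finset.mem_Ioc.2 ⟨by omega, by omega⟩)
    have hex : ∃ t, m ≤ QRU_N H1 (n0 - H1 + t) := by
      refine ⟨H1, ?_⟩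
      have e : n0 - H1 + H1 = n0 := by omega
      rw [e]
      exact hmany
    set t := Nat.find hex with ht
    have ht1 : m ≤ QRU_N H1 (n0 - H1 + t) := Nat.find_spec hex
    have ht2 : t ≤ H1 := by
      apply Nat.find_min'
      have e : n0 - H1 + H1 = n0 := by omega
      rw [e]
      exact hmany
    have ht3 : t ≠ 0 := by
      intro h0
      rw [h0, Nat.add_zero, hN0] at ht1
      omega
    have ht4 : QRU_N H1 (n0 - H1 + (t - 1)) < m := by
      by_contra hcon
      have := Nat.find_min hex (m := t - 1) (by omega)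
      exact this (not_lt.1 hcon)
    have hst := QRU_step H1 (n0 - H1 + (t - 1))
    have e1 : n0 - H1 + (t - 1) + 1 = n0 - H1 + t := by omega
    rw [e1] at hst
    set n1 := n0 - H1 + t with hn1def
    have e2 : n0 - H1 + (t - 1) = n1 - 1 := by omega
    rw [e2] at ht4 hst
    have hpr : (n1 + H1).Prime := by
      by_contra hcon
      rw [if_neg hcon] at hst
      split_ifs at hst <;> omega
    have hNn1 : QRU_N H1 n1 = m ∧ QRU_N H1 (n1 - 1) + 1 = m := by
      rw [if_pos hpr] at hst
      split_ifs at hst <;> omega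
    rw [Finset.mem_biUnion]
    refine ⟨n1, ?_, Finset.mem_Icc.2 ⟨by omega, by omega⟩⟩
    rw [hE1, Finset.mem_filter]
    refine ⟨?_, by omega, by omega, hpr, hNn1.2⟩
    unfold exQ
    rw [Finset.mem_filter, Finset.mem_Ioc]
    refine ⟨⟨by omega, by omega⟩, ?_, hNn1.1⟩
    intro p hp
    rw [Finset.mem_Ioc] at hp
    exact hfree p (Finset.mem_Ioc.2 ⟨by omega, by omega⟩)
  have hcard1 : (gdQ X H2 H1 m).card ≤ E1.card * (H1 + 1) := by
    refine (Finset.card_le_card hsub).trans ?_
    refine Finset.card_biUnion_le_card_mul _ _ _ fun n _ => ?_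
    rw [Nat.card_Icc]
    omega
  -- step 2: splitting of `E1`
  set E2 : Finset ℕ := E1.filter (fun n => n + H1 ∉ paQ X H1 l) with hE2
  have hcard2 : E1.card ≤ (paQ X H1 l).card + E2.card := by
    have h1 : (E1.filter (fun n => n + H1 ∈ paQ X H1 l)).card ≤ (paQ X H1 l).card := by
      apply Finset.card_le_card_of_injOn (fun n => n + H1)
      · intro n hn
        rw [Finset.mem_coe, Finset.mem_filter] at hn
        exact hn.2
      · intro n _ n' _ h
        have h' : n + H1 = n' + H1 := h
        omega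
    have h2 := Finset.card_filter_add_card_filter_not (s := E1)
      (fun n => n + H1 ∈ paQ X H1 l)
    rw [hE2]
    omega
  -- step 3: runs
  have hrun : ∀ n ∈ E2, ∀ j, j < l → QRU_N H1 (n + j) = m ∧
      ∀ i, 1 ≤ i → i ≤ j → ¬ (n + i).Prime := by
    intro n hn
    rw [hE2, Finset.mem_filter, hE1, Finset.mem_filter] at hn
    obtain ⟨⟨hex, hn2X, hn1, hpr, hN⟩, hpa⟩ := hn
    unfold exQ at hex
    rw [Finset.mem_filter, Finset.mem_Ioc] at hex
    obtain ⟨⟨hr1, hr2⟩, hfree, hcm⟩ := hex
    have hno : ∀ j, 1 ≤ j → j < l → ¬ (n + H1 + j).Prime ∧ ¬ (n + j).Prime := by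
      intro j hj1 hj2
      by_contra hcon
      apply hpa
      unfold paQ
      rw [Finset.mem_filter, Finset.mem_filter, Finset.mem_Ioc]
      refine ⟨⟨⟨by omega, by omega⟩, hpr⟩, j, Finset.mem_Ico.2 ⟨hj1, hj2⟩, ?_⟩
      have e : n + H1 + j - H1 = n + j := by omega
      rw [e]
      tauto
    intro j
    induction j with
    | zero =>
      intro _
      refine ⟨hcm, ?_⟩
      intro i hi1 hi2
      omega
    | succ j ih =>
      intro hj
      obtain ⟨h1, h2⟩ := ih (by omega)
      have h3 := hno (j + 1) (by omega) hj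
      have hst := QRU_step H1 (n + j)
      have e1 : n + j + 1 = n + (j + 1) := by omega
      rw [e1] at hst
      have e2 : n + (j + 1) + H1 = n + H1 + (j + 1) := by omega
      rw [e2, if_neg h3.1, if_neg h3.2] at hst
      refine ⟨by omega, ?_⟩
      intro i hi1 hi2
      rcases Nat.lt_or_ge j i with h | h
      · have : i = j + 1 := by omega
        rw [this]
        exact h3.2
      · exact h2 i hi1 h
  have hcard3 : E2.card * l ≤ (exQ X H3 H1 m).card := by
    have h1 : (E2 ×ˢ range l).card ≤ (exQ X H3 H1 m).card := by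
      apply Finset.card_le_card_of_injOn (fun z : ℕ × ℕ => z.1 + z.2)
      · intro z hz
        rw [Finset.mem_coe, Finset.mem_product, Finset.mem_range] at hz
        obtain ⟨hz1, hz2⟩ := hz
        obtain ⟨hN, hnp⟩ := hrun z.1 hz1 z.2 hz2
        rw [hE2, Finset.mem_filter, hE1, Finset.mem_filter] at hz1
        obtain ⟨⟨hex, hn2X, hn1, hpr, hNz⟩, hpa⟩ := hz1
        unfold exQ at hex
        rw [Finset.mem_filter, Finset.mem_Ioc] at hex
        obtain ⟨⟨hr1, hr2⟩, hfree, hcm⟩ := hex
        rw [Finset.mem_coe]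
        beta_reduce
        unfold exQ
        rw [Finset.mem_filter, Finset.mem_Ioc]
        refine ⟨⟨by omega, by omega⟩, ?_, hN⟩
        intro p hp
        rw [Finset.mem_Ioc] at hp
        rcases Nat.lt_or_ge z.1 p with h | h
        · have e : p = z.1 + (p - z.1) := by omega
          rw [e]
          exact hnp (p - z.1) (by omega) (by omega)
        · exact hfree p (Finset.mem_Ioc.2 ⟨by omega, by omega⟩)
      · have key : ∀ n ∈ E2, ∀ n' ∈ E2, ∀ j j' : ℕ, j < l → n + j = n' + j' → ¬ n < n' := by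
          intro n hn n' hn' j j' hj heq hlt
          have h1 := (hrun n hn (n' - 1 - n) (by omega)).1
          have e : n + (n' - 1 - n) = n' - 1 := by omega
          rw [e] at h1
          rw [hE2, Finset.mem_filter, hE1, Finset.mem_filter] at hn'
          have h2 := hn'.1.2.2.2.2
          omega
        intro z hz z' hz' heq
        rw [Finset.mem_coe, Finset.mem_product, Finset.mem_range] at hz hz'
        have heq' : z.1 + z.2 = z'.1 + z'.2 := heq
        have k1 := key z.1 hz.1 z'.1 hz'.1 z.2 z'.2 hz.2 heq'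
        have k2 := key z'.1 hz'.1 z.1 hz.1 z'.2 z.2 hz'.2 heq'.symm
        exact Prod.ext (by omega) (by omega)
    rwa [Finset.card_product, Finset.card_range] at h1
  -- conclusion
  have hlr : (0 : ℝ) < l := by exact_mod_cast hl
  have r1 : ((gdQ X H2 H1 m).card : ℝ) ≤ E1.card * ((H1 : ℝ) + 1) := by exact_mod_cast hcard1
  have r2 : (E1.card : ℝ) ≤ (paQ X H1 l).card + E2.card := by exact_mod_cast hcard2
  have r3 : (E2.card : ℝ) * l ≤ (exQ X H3 H1 m).card := by exact_mod_cast hcard3
  have r4 : (E2.card : ℝ) ≤ (exQ X H3 H1 m).card / (l : ℝ) := by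
    rw [le_div_iff₀ hlr]
    exact r3
  calc ((gdQ X H2 H1 m).card : ℝ) ≤ E1.card * ((H1 : ℝ) + 1) := r1
    _ ≤ ((paQ X H1 l).card + (exQ X H3 H1 m).card / (l : ℝ)) * ((H1 : ℝ) + 1) := by
        apply mul_le_mul_of_nonneg_right _ (by positivity)
        linarith
    _ = ((H1 : ℝ) + 1) * ((paQ X H1 l).card + (exQ X H3 H1 m).card / (l : ℝ)) := by ring

end Pool.PP
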