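import Pool.Agent.Work.MP_b0c12c_px.QTr
import Pool.Agent.Work.MP_b0c12c_px.B_QRU
import Pool.Agent.Work.MP_b0c12c_gaps.B_CHB

/-! # Theorem Q, block QGA (helper63) -/

set_option autoImplicit false

namespace Pool.PP

open Finset Filter

theorem QGA_P_eq (n : ℕ) : QRU_P n = Nat.count Nat.Prime (n + 1) := by
  unfold QRU_P
  rw [Nat.count_eq_card_filter_range]

/-- The choice of `X` for given `N`. -/
noncomputable def QGA_X (c2 : ℝ) (N : ℕ) : ℕ := ⌊c2 * (N * Real.log N)⌋₊

theorem QGA_X_tendsto (c2 : ℝ) (hc2 : 0 < c2) : Tendsto (QGA_X c2) atTop atTop := by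
  have h1 : Tendsto (fun N : ℕ => (N : ℝ) * Real.log N) atTop atTop :=
    (tendsto_natCast_atTop_atTop (R := ℝ)).atTop_mul_atTop₀
      (Real.tendsto_log_atTop.comp tendsto_natCast_atTop_atTop)
  have h2 : Tendsto (fun N : ℕ => c2 * ((N : ℝ) * Real.log N)) atTop atTop :=
    h1.const_mul_atTop hc2
  exact tendsto_nat_floor_atTop.comp h2

theorem QGA_X_prop (C : ℝ) (hC : 0 < C)
    (hCHB : ∀ x : ℝ, 2 ≤ x → (Nat.primeCounting ⌊x⌋₊ : ℝ) ≤ C * (x / Real.log x)) :
    ∀ᶠ N : ℕ in atTop, Nat.count Nat.Prime (QGA_X (1 / (C + 1)) N + 1) ≤ N ∧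
      1 / (C + 1) / 4 * N * Real.log (QGA_X (1 / (C + 1)) N) ≤ QGA_X (1 / (C + 1)) N ∧
      N ≤ QGA_X (1 / (C + 1)) N := by
  set c2 : ℝ := 1 / (C + 1) with hc2
  have hc2pos : 0 < c2 := by positivity
  have hc2C : C * c2 ≤ 1 := by
    rw [hc2, mul_one_div, div_le_one (by positivity)]
    linarith
  have hc2one : c2 ≤ 1 := by
    rw [hc2, div_le_one (by positivity)]
    linarith
  have hlog : Tendsto (fun N : ℕ => Real.log (N : ℝ)) atTop atTop :=
    Real.tendsto_log_atTop.comp tendsto_natCast_atTop_atTop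
  filter_upwards [hlog.eventually_ge_atTop (2 / c2), eventually_ge_atTop 2] with N hN hN2
  have hNr : (2 : ℝ) ≤ N := by exact_mod_cast hN2
  have hlogN : 0 < Real.log N := Real.log_pos (by linarith)
  set u : ℝ := c2 * (N * Real.log N) with hu
  have hu2 : 2 * (N : ℝ) ≤ u := by
    have h1 : c2 * (2 / c2) ≤ c2 * Real.log N := mul_le_mul_of_nonneg_left hN hc2pos.le
    have h2 : c2 * (2 / c2) = 2 := by field_simp
    have h3 : 2 * (N : ℝ) ≤ (c2 * Real.log N) * N :=
      mul_le_mul_of_nonneg_right (by linarith) (by linarith)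
    calc 2 * (N : ℝ) ≤ (c2 * Real.log N) * N := h3
      _ = u := by rw [hu]; ring
  have hXdef : QGA_X c2 N = ⌊u⌋₊ := rfl
  have hXle : (QGA_X c2 N : ℝ) ≤ u := by
    rw [hXdef]
    exact Nat.floor_le (by linarith)
  have hXge : u / 2 ≤ (QGA_X c2 N : ℝ) := by
    have h1 : u < (QGA_X c2 N : ℝ) + 1 := by
      rw [hXdef]
      exact Nat.lt_floor_add_one u
    linarith
  have hXN : (N : ℝ) ≤ QGA_X c2 N := by linarith
  have hX2 : (2 : ℝ) ≤ QGA_X c2 N := by linarith
  have hlogX1 : Real.log N ≤ Real.log (QGA_X c2 N) := Real.log_le_log (by linarith) hXN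
  have hlogX2 : Real.log (QGA_X c2 N) ≤ 2 * Real.log N := by
    have h1 : u ≤ (N : ℝ) ^ 2 := by
      have h2 : Real.log N ≤ N := (Real.log_le_sub_one_of_pos (by linarith)).trans (by linarith)
      calc u = c2 * (N * Real.log N) := hu
        _ ≤ 1 * (N * Real.log N) := mul_le_mul_of_nonneg_right hc2one (by positivity)
        _ ≤ 1 * (N * N) := by
            apply mul_le_mul_of_nonneg_left _ zero_le_one
            exact mul_le_mul_of_nonneg_left h2 (by linarith)
        _ = (N : ℝ) ^ 2 := by ring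
    calc Real.log (QGA_X c2 N) ≤ Real.log ((N : ℝ) ^ 2) :=
          Real.log_le_log (by linarith) (hXle.trans h1)
      _ = 2 * Real.log N := by
          rw [Real.log_pow]
          push_cast
          ring
  have hlogXpos : 0 < Real.log (QGA_X c2 N) := by linarith
  refine ⟨?_, ?_, by exact_mod_cast hXN⟩
  · have h1 := hCHB (QGA_X c2 N : ℝ) hX2
    rw [Nat.floor_natCast] at h1
    have h2 : C * ((QGA_X c2 N : ℝ) / Real.log (QGA_X c2 N)) ≤ N := by
      calc C * ((QGA_X c2 N : ℝ) / Real.log (QGA_X c2 N))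
          ≤ C * (u / Real.log N) := by
            apply mul_le_mul_of_nonneg_left _ hC.le
            exact div_le_div₀ (by linarith) hXle hlogN hlogX1
        _ = C * c2 * N := by
            rw [hu]
            field_simp
        _ ≤ 1 * N := mul_le_mul_of_nonneg_right hc2C (by linarith)
        _ = N := one_mul _
    have h3 : (Nat.primeCounting (QGA_X c2 N) : ℝ) ≤ N := h1.trans h2
    have h4 : Nat.primeCounting (QGA_X c2 N) ≤ N := by exact_mod_cast h3
    exact h4
  · calc c2 / 4 * N * Real.log (QGA_X c2 N) ≤ c2 / 4 * N * (2 * Real.log N) := by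
          apply mul_le_mul_of_nonneg_left hlogX2 (by positivity)
      _ = u / 2 := by
          rw [hu]
          ring
      _ ≤ QGA_X c2 N := hXge

theorem p_QGA (h1 : Stmt_QFI) : Stmt_QGA := by
  classical
  intro lam del r hlam hdel
  obtain ⟨c, hc, hev⟩ := h1 lam (del / 2) (r + 1) hlam (by positivity)
  obtain ⟨C, hC, hCHB⟩ := Pool.LGP.p_CHB
  set c2 : ℝ := 1 / (C + 1) with hc2
  have hc2pos : 0 < c2 := by positivity
  refine ⟨c / del * (c2 / 4), by positivity, ?_⟩
  have hXt := QGA_X_tendsto c2 hc2pos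
  -- further conditions on `X`
  have hev2 : ∀ᶠ X : ℕ in atTop, 4 ≤ c / 2 * X ∧ -2 * Real.log (c / 4) ≤ Real.log X ∧
      (2 : ℝ) ≤ X := by
    have hlog : Tendsto (fun N : ℕ => Real.log (N : ℝ)) atTop atTop :=
      Real.tendsto_log_atTop.comp tendsto_natCast_atTop_atTop
    have hlin : Tendsto (fun N : ℕ => c / 2 * (N : ℝ)) atTop atTop :=
      (tendsto_natCast_atTop_atTop (R := ℝ)).const_mul_atTop (by positivity)
    filter_upwards [hlin.eventually_ge_atTop 4, hlog.eventually_ge_atTop _,
      eventually_ge_atTop 2] with X h1 h2 h3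
    exact ⟨h1, h2, by exact_mod_cast h3⟩
  filter_upwards [hXt.eventually hev, hXt.eventually hev2, QGA_X_prop C hC hCHB] with N hG hX hN
  rw [← hc2] at hN
  set X := QGA_X c2 N with hXdef
  obtain ⟨hX1, hX2, hX3⟩ := hX
  obtain ⟨hN1, hN2, hN3⟩ := hN
  set h := ⌊del / 2 * Real.log X⌋₊ with hh
  have hlogX : 0 < Real.log X := Real.log_pos (by linarith)
  have hhle : (h : ℝ) ≤ del / 2 * Real.log X := Nat.floor_le (by positivity)
  set G : Finset ℕ := (Icc 1 X).filter (fun n : ℕ =>
      (∀ p : ℕ, p.Prime → p ≤ n → (p : ℝ) ≤ n - lam * Real.log X) ∧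
      ((Ioc n (n + h)).filter Nat.Prime).card = r + 1) with hGdef
  have hGcard : c * X ≤ (G.card : ℝ) := by
    refine hG.trans (le_of_eq ?_)
    rw [hGdef]
  set T : Finset ℕ := (range N).filter (fun i : ℕ =>
      lam * Real.log (Nat.nth Nat.Prime i) ≤
        (Nat.nth Nat.Prime (i + 1) : ℝ) - Nat.nth Nat.Prime i ∧
      (Nat.nth Nat.Prime (i + 1 + r) : ℝ) - Nat.nth Nat.Prime (i + 1) ≤
        del * Real.log (Nat.nth Nat.Prime i)) with hTdef
  set G' : Finset ℕ := G.filter (fun n : ℕ => c / 2 * X < (n : ℝ)) with hG'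
  have hG'card : c / 2 * X ≤ (G'.card : ℝ) := by
    have e1 := Finset.card_filter_add_card_filter_not (s := G)
      (fun n : ℕ => c / 2 * X < (n : ℝ))
    have e2 : ((G.filter (fun n : ℕ => ¬ c / 2 * X < (n : ℝ))).card : ℝ) ≤ c / 2 * X := by
      have e3 : G.filter (fun n : ℕ => ¬ c / 2 * X < (n : ℝ)) ⊆ Icc 1 ⌊c / 2 * X⌋₊ := by
        intro n hn
        rw [Finset.mem_filter, hGdef, Finset.mem_filter, Finset.mem_Icc] at hn
        rw [Finset.mem_Icc]
        exact ⟨hn.1.1.1, Nat.le_floor (not_lt.1 hn.2)⟩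
      have e4 := Finset.card_le_card e3
      rw [Nat.card_Icc] at e4
      have e5 : ((G.filter (fun n : ℕ => ¬ c / 2 * X < (n : ℝ))).card : ℝ) ≤
          (⌊c / 2 * X⌋₊ : ℝ) := by
        have : (G.filter (fun n : ℕ => ¬ c / 2 * X < (n : ℝ))).card ≤ ⌊c / 2 * X⌋₊ := by omega
        exact_mod_cast this
      exact e5.trans (Nat.floor_le (by linarith))
    have e6 : (G'.card : ℝ) + ((G.filter (fun n : ℕ => ¬ c / 2 * X < (n : ℝ))).card : ℝ) =
        G.card := by exact_mod_cast e1
    linarith
  have hinf := Nat.infinite_setOf_prime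
  -- the covering
  have hcov : G' ⊆ T.biUnion (fun i => Ico (Nat.nth Nat.Prime (i + 1) - h)
      (Nat.nth Nat.Prime (i + 1))) := by
    intro n hn
    rw [hG', Finset.mem_filter, hGdef, Finset.mem_filter, Finset.mem_Icc] at hn
    obtain ⟨⟨⟨hn1, hnX⟩, hfree, hcm⟩, hnbig⟩ := hn
    have hn4 : 4 ≤ n := by
      have : (4 : ℝ) ≤ n := by linarith
      exact_mod_cast this
    obtain ⟨q, hq, hq1, hq2⟩ := Nat.exists_prime_lt_and_le_two_mul (n / 2) (by omega)
    have hqn : q ≤ n := by omega
    have hqr : (n : ℝ) / 2 ≤ q := by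
      have : n ≤ 2 * q := by omega
      have : (n : ℝ) ≤ 2 * q := by exact_mod_cast this
      linarith
    set K := Nat.count Nat.Prime (n + 1) with hK
    have hqK : Nat.count Nat.Prime q < K := Nat.count_strict_mono hq (by omega)
    set i := K - 1 with hi
    have hiK : i + 1 = K := by omega
    -- the prime before
    have hpi1 : Nat.nth Nat.Prime i < n + 1 := Nat.nth_lt_of_lt_count (by omega)
    have hpi2 : q ≤ Nat.nth Nat.Prime i := by
      have e1 : Nat.nth Nat.Prime (Nat.count Nat.Prime q) = q := Nat.nth_count hq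
      rw [← e1]
      exact Nat.nth_monotone hinf (by omega)
    have hpip : (Nat.nth Nat.Prime i).Prime := Nat.nth_mem_of_infinite hinf i
    -- the prime after
    have hpK : n + 1 ≤ Nat.nth Nat.Prime K := Nat.le_nth_count hinf (n + 1)
    -- the counts
    have hdiff := QRU_P_diff (a := n) (b := n + h) (by omega)
    rw [QGA_P_eq, QGA_P_eq, hcm, ← hK] at hdiff
    have hlast : Nat.nth Nat.Prime (K + r) < n + h + 1 :=
      Nat.nth_lt_of_lt_count (by omega)
    have hfirst : Nat.nth Nat.Prime K ≤ Nat.nth Nat.Prime (K + r) :=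
      Nat.nth_monotone hinf (by omega)
    rw [Finset.mem_biUnion]
    refine ⟨i, ?_, ?_⟩
    · rw [hTdef, Finset.mem_filter, Finset.mem_range]
      refine ⟨?_, ?_, ?_⟩
      · have e1 : K ≤ Nat.count Nat.Prime (X + 1) := Nat.count_monotone _ (by omega)
        omega
      · rw [hiK]
        have e1 := hfree _ hpip (by omega)
        have e2 : ((n : ℝ) + 1) ≤ Nat.nth Nat.Prime K := by exact_mod_cast hpK
        have e3 : (Nat.nth Nat.Prime i : ℝ) ≤ X := by
          have : Nat.nth Nat.Prime i ≤ X := by omega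
          exact_mod_cast this
        have e4 : (0 : ℝ) < Nat.nth Nat.Prime i := by exact_mod_cast hpip.pos
        have e5 := Real.log_le_log e4 e3
        have e6 := mul_le_mul_of_nonneg_left e5 hlam.le
        linarith
      · rw [hiK]
        have e1 : (Nat.nth Nat.Prime (K + r) : ℝ) ≤ n + h := by
          have : Nat.nth Nat.Prime (K + r) ≤ n + h := by omega
          exact_mod_cast this
        have e2 : ((n : ℝ) + 1) ≤ Nat.nth Nat.Prime K := by exact_mod_cast hpK
        have e3 : c / 4 * X ≤ Nat.nth Nat.Prime i := by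
          have : (q : ℝ) ≤ Nat.nth Nat.Prime i := by exact_mod_cast hpi2
          linarith
        have e4 : Real.log X ≤ 2 * Real.log (Nat.nth Nat.Prime i) := by
          have f1 : Real.log (c / 4 * X) ≤ Real.log (Nat.nth Nat.Prime i) :=
            Real.log_le_log (by positivity) e3
          rw [Real.log_mul (by positivity) (by positivity)] at f1
          linarith
        have e5 := mul_le_mul_of_nonneg_left e4 hdel.le
        linarith
    · rw [hiK, Finset.mem_Ico]
      constructor
      · omega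
      · omega
  have hcard : G'.card ≤ T.card * h := by
    refine (Finset.card_le_card hcov).trans ?_
    refine Finset.card_biUnion_le_card_mul _ _ _ fun i _ => ?_
    rw [Nat.card_Ico]
    omega
  have hcardr : (G'.card : ℝ) ≤ T.card * (h : ℝ) := by exact_mod_cast hcard
  have hfin : c / 2 * X ≤ T.card * (del / 2 * Real.log X) := by
    refine hG'card.trans (hcardr.trans ?_)
    exact mul_le_mul_of_nonneg_left hhle (Nat.cast_nonneg _)
  have hN2' : c / del * (c2 / 4 * N * Real.log X) ≤ c / del * X :=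
    mul_le_mul_of_nonneg_left hN2 (by positivity)
  have hkey : c / del * (c2 / 4) * N * Real.log X ≤ T.card * Real.log X := by
    calc c / del * (c2 / 4) * N * Real.log X = c / del * (c2 / 4 * N * Real.log X) := by ring
      _ ≤ c / del * X := hN2'
      _ = 2 / del * (c / 2 * X) := by field_simp
      _ ≤ 2 / del * (T.card * (del / 2 * Real.log X)) :=
          mul_le_mul_of_nonneg_left hfin (by positivity)
      _ = T.card * Real.log X := by field_simp
  have hres := le_of_mul_le_mul_right hkey hlogX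
  refine hres.trans (le_of_eq ?_)
  rw [hTdef]

end Pool.PP
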