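import Pool.Agent.Work.MP_b0c12c_px.QTr

/-! # Block QGD: the good integers have positive density (helper38) -/

set_option autoImplicit false

namespace Pool.PP

open Finset Filter

theorem QGD_om_nonneg (w z I J k Θ H2 H1 n : ℕ) : 0 ≤ omN w z I J k Θ H2 H1 n := by
  unfold omN OmQ
  exact Finset.sum_nonneg fun _ _ => sq_nonneg _

theorem QGD_pr_nonneg (w z I J k Θ H2 H1 : ℕ) (h0 : SH H2 H1) (p : ℕ) :
    0 ≤ prN w z I J k Θ H2 H1 h0 p := by
  unfold prN PrQ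
  exact Finset.sum_nonneg fun _ _ => sq_nonneg _

/-- From pairs (shift, prime) to integers. -/
theorem QGD_swap (w z I J k Θ H2 H1 X : ℕ) (hX : H1 ≤ X) :
    ∑ h0 ∈ univ \ KQ H2 H1, ∑ p ∈ (Ioc X (2 * X)).filter Nat.Prime,
        prN w z I J k Θ H2 H1 h0 p ≤
      ∑ n ∈ Ioc (X - H1) (2 * X),
        ∑ h0 ∈ (univ \ KQ H2 H1).filter (fun h0 : SH H2 H1 => ((n : ℤ) + h0).toNat.Prime),
          prN w z I J k Θ H2 H1 h0 ((n : ℤ) + h0).toNat := by
  have e1 : ∑ n ∈ Ioc (X - H1) (2 * X),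
        ∑ h0 ∈ (univ \ KQ H2 H1).filter (fun h0 : SH H2 H1 => ((n : ℤ) + h0).toNat.Prime),
          prN w z I J k Θ H2 H1 h0 ((n : ℤ) + h0).toNat =
      ∑ h0 ∈ univ \ KQ H2 H1, ∑ n ∈ Ioc (X - H1) (2 * X),
        if ((n : ℤ) + h0).toNat.Prime then
          prN w z I J k Θ H2 H1 h0 ((n : ℤ) + h0).toNat else 0 := by
    rw [Finset.sum_comm]
    apply Finset.sum_congr rfl
    intro n _
    rw [Finset.sum_filter]
  rw [e1]
  apply Finset.sum_le_sum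
  intro h0 hh0
  have hpos : 0 < (h0 : ℤ) := by
    rw [Finset.mem_sdiff] at hh0
    unfold KQ at hh0
    rw [Finset.mem_filter] at hh0
    by_contra hcon
    exact hh0.2 ⟨Finset.mem_univ _, by omega⟩
  have hle : (h0 : ℤ) ≤ H1 := (Finset.mem_Ioc.mp h0.2).2
  obtain ⟨h, hh⟩ : ∃ h : ℕ, (h0 : ℤ) = h := ⟨(h0 : ℤ).toNat, by omega⟩
  rw [← Finset.sum_filter]
  have hinj : Set.InjOn (fun p : ℕ => p - h) ((Ioc X (2 * X)).filter Nat.Prime : Finset ℕ) := by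
    intro p hp q hq hpq
    have h1 := (Finset.mem_Ioc.mp (Finset.mem_filter.mp (Finset.mem_coe.mp hp)).1).1
    have h2 := (Finset.mem_Ioc.mp (Finset.mem_filter.mp (Finset.mem_coe.mp hq)).1).1
    have h3 : p - h = q - h := hpq
    omega
  have e2 : ∑ p ∈ (Ioc X (2 * X)).filter Nat.Prime, prN w z I J k Θ H2 H1 h0 p =
      ∑ n ∈ ((Ioc X (2 * X)).filter Nat.Prime).image (fun p : ℕ => p - h),
        prN w z I J k Θ H2 H1 h0 ((n : ℤ) + h0).toNat := by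
    rw [Finset.sum_image hinj]
    apply Finset.sum_congr rfl
    intro p hp
    have h1 := (Finset.mem_Ioc.mp (Finset.mem_filter.mp hp).1).1
    have : (((p - h : ℕ) : ℤ) + h0).toNat = p := by
      rw [hh]
      omega
    rw [this]
  rw [e2]
  apply Finset.sum_le_sum_of_subset_of_nonneg
  · intro n hn
    rw [Finset.mem_image] at hn
    obtain ⟨p, hp, rfl⟩ := hn
    rw [Finset.mem_filter, Finset.mem_Ioc] at hp
    rw [Finset.mem_filter, Finset.mem_Ioc]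
    refine ⟨⟨by omega, by omega⟩, ?_⟩
    have : (((p - h : ℕ) : ℤ) + h0).toNat = p := by
      rw [hh]
      omega
    rw [this]
    exact hp.2
  · intro n _ _
    exact QGD_pr_nonneg _ _ _ _ _ _ _ _ _ _

/-- The main numerical inequality. -/
theorem QGD_num (A1 X Y U ε m κ cU e : ℝ) (hX : 0 < X) (hY : X ≤ Y) (hm : 1 ≤ m) (hκ : 0 ≤ κ)
    (hε : 0 < ε) (hcU : 0 < cU) (hU : cU ≤ U) (hY2 : Y ≤ X * (1 + 1 / (8 * m)))
    (hA1 : (m + 1 - 1 / 8) * (X * U) ≤ A1) (he : κ * e ≤ 1 / 4) (hε2 : ε * (1 + 2 * m + 2 * κ) ≤ cU / 2) :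
    X * cU / 2 ≤ A1 - ε * X - (m - 1) * (Y * (U + ε)) - κ * (Y * (e * U + ε)) := by
  have hU0 : 0 < U := by linarith
  have hXU : 0 < X * U := by positivity
  have h8 : 1 / (8 * m) ≤ 1 / 8 := by
    apply div_le_div_of_nonneg_left (by norm_num) (by norm_num)
    linarith
  have hY3 : Y ≤ 2 * X := by
    have : X * (1 + 1 / (8 * m)) ≤ X * (1 + 1 / 8) := mul_le_mul_of_nonneg_left (by linarith) hX.le
    linarith
  have f1 : (m - 1) * (Y * U) ≤ (m - 1) * (X * U) + X * U / 8 := by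
    have g1 : Y * U ≤ X * (1 + 1 / (8 * m)) * U := mul_le_mul_of_nonneg_right hY2 hU0.le
    have g2 : (m - 1) * (Y * U) ≤ (m - 1) * (X * (1 + 1 / (8 * m)) * U) :=
      mul_le_mul_of_nonneg_left g1 (by linarith)
    have g3 : (m - 1) * (X * (1 + 1 / (8 * m)) * U) =
        (m - 1) * (X * U) + (X * U) * ((m - 1) / (8 * m)) := by ring
    have g4 : (m - 1) / (8 * m) ≤ 1 / 8 := by
      rw [div_le_div_iff₀ (by positivity) (by norm_num)]
      linarith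
    have g5 := mul_le_mul_of_nonneg_left g4 hXU.le
    linarith
  have f2 : (m - 1) * (Y * ε) ≤ 2 * m * (X * ε) := by
    have g1 : Y * ε ≤ 2 * X * ε := mul_le_mul_of_nonneg_right hY3 hε.le
    have g2 : (m - 1) * (Y * ε) ≤ (m - 1) * (2 * X * ε) :=
      mul_le_mul_of_nonneg_left g1 (by linarith)
    have g3 : 0 ≤ X * ε := by positivity
    linarith
  have f3 : κ * (Y * ε) ≤ 2 * κ * (X * ε) := by
    have g1 : Y * ε ≤ 2 * X * ε := mul_le_mul_of_nonneg_right hY3 hε.le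
    have g2 : κ * (Y * ε) ≤ κ * (2 * X * ε) := mul_le_mul_of_nonneg_left g1 hκ
    linarith
  have f4 : κ * (Y * (e * U)) ≤ 9 / 32 * (X * U) := by
    rcases le_or_gt (κ * e) 0 with h0 | h0
    · have : κ * (Y * (e * U)) = (κ * e) * (Y * U) := by ring
      rw [this]
      have hY0 : 0 < Y := by linarith
      have g1 : (κ * e) * (Y * U) ≤ 0 := mul_nonpos_of_nonpos_of_nonneg h0 (by positivity)
      linarith
    · have g1 : κ * (Y * (e * U)) = (κ * e) * (Y * U) := by ring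
      have g2 : Y * U ≤ X * (1 + 1 / 8) * U := by
        apply mul_le_mul_of_nonneg_right _ hU0.le
        refine hY2.trans ?_
        exact mul_le_mul_of_nonneg_left (by linarith) hX.le
      have g3 : (κ * e) * (Y * U) ≤ (κ * e) * (X * (1 + 1 / 8) * U) :=
        mul_le_mul_of_nonneg_left g2 h0.le
      have g4 : (κ * e) * (X * (1 + 1 / 8) * U) ≤ 1 / 4 * (X * (1 + 1 / 8) * U) :=
        mul_le_mul_of_nonneg_right he (by positivity)
      rw [g1]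
      linarith
  have f5 : X * (ε * (1 + 2 * m + 2 * κ)) ≤ X * (cU / 2) := mul_le_mul_of_nonneg_left hε2 hX.le
  have f6 : X * cU ≤ X * U := mul_le_mul_of_nonneg_left hU hX.le
  have f7 : (m + 1 - 1 / 8) * (X * U) = m * (X * U) + 7 / 8 * (X * U) := by ring
  have f8 : (m - 1) * (X * U) = m * (X * U) - X * U := by ring
  have f9 : (m - 1) * (Y * (U + ε)) = (m - 1) * (Y * U) + (m - 1) * (Y * ε) := by ring
  have f10 : κ * (Y * (e * U + ε)) = κ * (Y * (e * U)) + κ * (Y * ε) := by ring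
  have f11 : X * (ε * (1 + 2 * m + 2 * κ)) = ε * X + 2 * m * (X * ε) + 2 * κ * (X * ε) := by ring
  rw [f9, f10]
  linarith

/-- The final counting. -/
theorem QGD_fin (hQNW : Stmt_QNW) (w z I J k Θ H2 H1 X m : ℕ) (κ ε U B e A1 cU c Y : ℝ)
    (hz2 : 2 ≤ z) (hwz : w ≤ z) (hJ : 1 ≤ J) (hJI : J ≤ I) (hm : 1 ≤ m)
    (hBlk : Blk (dQ 0 z I) (bQ z I) I) (hzX : ((z ^ 2 ^ I : ℕ) : ℝ) ≤ X / 4)
    (hH1X : (H1 : ℝ) ≤ X / 8) (hH2X : (H2 : ℝ) ≤ X / 8) (hX0 : (0 : ℝ) < X)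
    (hκ : κ = ((k + 1 : ℕ) : ℝ)) (hB0 : 0 < B) (hcU : 0 < cU) (hY2 : Y ≤ 2 * X)
    (s1 : ∑ n ∈ Ioc (X - H1) (2 * X), omN w z I J (k + 1) Θ H2 H1 n ≤ Y * (U + ε))
    (s2 : ∑ n ∈ Ioc (X - H1) (2 * X), omN w z I J (k + 1) Θ H2 H1 n ^ 2 ≤ Y * B)
    (s3 : ∑ n ∈ Ioc (X - H1) (2 * X), bdN w z I J (k + 1) Θ H2 H1 n ≤ Y * (e * U + ε))
    (s4 : A1 - ε * X ≤ ∑ h0 ∈ univ \ KQ H2 H1, ∑ p ∈ (Ioc X (2 * X)).filter Nat.Prime,
        prN w z I J (k + 1) Θ H2 H1 h0 p)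
    (hnum : X * cU / 2 ≤ A1 - ε * X - ((m : ℝ) - 1) * (Y * (U + ε)) - κ * (Y * (e * U + ε)))
    (hc : c = cU ^ 2 / (16 * κ ^ 2 * B)) (hH1c : (H1 : ℝ) ≤ c * X) :
    c * X ≤ ((gdQ X H2 H1 m).card : ℝ) := by
  classical
  have hκ1 : 1 ≤ κ := by
    rw [hκ]
    push_cast
    have : (0 : ℝ) ≤ k := Nat.cast_nonneg _
    linarith
  have hκ0 : 0 < κ := by linarith
  have hmr : (1 : ℝ) ≤ m := by exact_mod_cast hm
  have hH1X' : H1 ≤ X := by
    have : (H1 : ℝ) ≤ X := by linarith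
    exact_mod_cast this
  obtain ⟨G, hG⟩ : ∃ G : Finset ℕ, G = (Ioc (X - H1) (2 * X)).filter (fun n =>
    (∀ p ∈ Ioc (n - H2) n, ¬ p.Prime) ∧ m ≤ ((Ioc n (n + H1)).filter Nat.Prime).card) := ⟨_, rfl⟩
  have hpt : ∀ n ∈ Ioc (X - H1) (2 * X),
      (∑ h0 ∈ (univ \ KQ H2 H1).filter (fun h0 : SH H2 H1 => ((n : ℤ) + h0).toNat.Prime),
        prN w z I J (k + 1) Θ H2 H1 h0 ((n : ℤ) + h0).toNat) -
        ((m : ℝ) - 1) * omN w z I J (k + 1) Θ H2 H1 n - κ * bdN w z I J (k + 1) Θ H2 H1 n ≤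
      if (∀ p ∈ Ioc (n - H2) n, ¬ p.Prime) ∧ m ≤ ((Ioc n (n + H1)).filter Nat.Prime).card then
        κ * omN w z I J (k + 1) Θ H2 H1 n else 0 := by
    intro n hn
    rw [Finset.mem_Ioc] at hn
    have hnr : (X : ℝ) < n + H1 := by
      have : X < n + H1 := by omega
      exact_mod_cast this
    have f1 : z ^ 2 ^ I + H2 < n := by
      have : ((z ^ 2 ^ I + H2 : ℕ) : ℝ) < n := by
        rw [Nat.cast_add]
        linarith
      exact_mod_cast this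
    have f2 := hQNW w z I J (k + 1) m Θ H2 H1 n hz2 hwz hJ hJI hm (by omega) hBlk f1
    rw [← hκ] at f2
    convert f2 using 2
  have hsum := Finset.sum_le_sum hpt
  rw [Finset.sum_sub_distrib, Finset.sum_sub_distrib, ← Finset.mul_sum, ← Finset.mul_sum,
    ← Finset.sum_filter, ← hG, ← Finset.mul_sum] at hsum
  have hsw := QGD_swap w z I J (k + 1) Θ H2 H1 X hH1X'
  have g1 := mul_le_mul_of_nonneg_left s1 (show 0 ≤ (m : ℝ) - 1 by linarith)
  have g2 := mul_le_mul_of_nonneg_left s3 hκ0.le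
  have g3 : X * cU / 2 ≤ κ * ∑ n ∈ G, omN w z I J (k + 1) Θ H2 H1 n := by linarith
  have g4 : (∑ n ∈ G, omN w z I J (k + 1) Θ H2 H1 n) ^ 2 ≤ G.card * (2 * X * B) := by
    have f1 : (∑ n ∈ G, omN w z I J (k + 1) Θ H2 H1 n) ^ 2 ≤
        G.card * ∑ n ∈ G, omN w z I J (k + 1) Θ H2 H1 n ^ 2 := sq_sum_le_card_mul_sum_sq
    have f2 : ∑ n ∈ G, omN w z I J (k + 1) Θ H2 H1 n ^ 2 ≤ Y * B := by
      refine le_trans ?_ s2
      apply Finset.sum_le_sum_of_subset_of_nonneg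
      · rw [hG]
        exact Finset.filter_subset _ _
      · intro n _ _
        exact sq_nonneg _
    have f3 : Y * B ≤ 2 * X * B := mul_le_mul_of_nonneg_right hY2 hB0.le
    have f4 := mul_le_mul_of_nonneg_left (f2.trans f3) (show (0 : ℝ) ≤ G.card by positivity)
    linarith
  have g5 : (X * cU / 2) ^ 2 ≤ κ ^ 2 * (G.card * (2 * X * B)) := by
    calc (X * cU / 2) ^ 2 ≤ (κ * ∑ n ∈ G, omN w z I J (k + 1) Θ H2 H1 n) ^ 2 :=
          pow_le_pow_left₀ (by positivity) g3 2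
      _ = κ ^ 2 * (∑ n ∈ G, omN w z I J (k + 1) Θ H2 H1 n) ^ 2 := by ring
      _ ≤ _ := mul_le_mul_of_nonneg_left g4 (by positivity)
  have g6 : 2 * (c * X) ≤ G.card := by
    have f1 : (2 * (c * X)) * (X * (2 * κ ^ 2 * B)) ≤ G.card * (X * (2 * κ ^ 2 * B)) := by
      have f2 : (2 * (c * X)) * (X * (2 * κ ^ 2 * B)) = (X * cU / 2) ^ 2 := by
        rw [hc]
        field_simp
        ring
      rw [f2]
      refine g5.trans (le_of_eq ?_)
      ring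
    exact le_of_mul_le_mul_right f1 (by positivity)
  have g7 : G.card ≤ (gdQ X H2 H1 m).card + H1 := by
    have f1 : G ⊆ gdQ X H2 H1 m ∪ Ioc (X - H1) X := by
      intro n hn
      rw [hG, Finset.mem_filter, Finset.mem_Ioc] at hn
      rw [Finset.mem_union]
      by_cases hnX : X < n
      · left
        unfold gdQ
        rw [Finset.mem_filter, Finset.mem_Ioc]
        exact ⟨⟨hnX, hn.1.2⟩, hn.2⟩
      · right
        rw [Finset.mem_Ioc]
        exact ⟨hn.1.1, by omega⟩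
    have f2 := (Finset.card_le_card f1).trans (Finset.card_union_le _ _)
    rw [Nat.card_Ioc] at f2
    omega
  have g8 : (G.card : ℝ) ≤ ((gdQ X H2 H1 m).card : ℝ) + H1 := by exact_mod_cast g7
  linarith

/-- The main term. -/
theorem QGD_main (X L cL Cx : ℝ) (J Θ : ℕ) (κ sx cU ε δ m U P Mt : ℝ) (hX0 : 0 < X) (hL0 : 0 < L)
    (hlL : 0 < Real.log L) (hcL : 0 < cL) (hCx : 0 < Cx) (hJ : (1 : ℝ) ≤ J) (hΘ : (1 : ℝ) ≤ Θ)
    (hκ : 1 ≤ κ) (hsx0 : 0 < sx)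
    (hsx : sx ≤ Cx * (2 ^ J * (Θ * (Real.log L / L)) / (J : ℝ) ^ 2)) (hcU : 0 < cU)
    (hε : 0 < ε) (hm : 1 ≤ m) (hU : cU ≤ U) (hP : cL * (X / L) ≤ P) (hMt : Real.log L / 2 ≤ Mt)
    (hlogL : Real.log L ≤ δ * L) (hδ : δ = cU / (16 * (m + 1) * ε * Cx * 2 ^ J * Θ))
    (hpar : m + 1 ≤ cL / (4 * Cx) * (κ * (J : ℝ) ^ 2 / (2 ^ J * Θ))) :
    (m + 1 - 1 / 8) * (X * U) ≤ P * Mt * (κ / (2 * sx) * U - ε) := by
  have hU0 : 0 < U := by linarith
  have hP0 : 0 ≤ P := le_trans (by positivity) hP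
  have hMt0 : 0 ≤ Mt := le_trans (by positivity) hMt
  -- lower bound for κ / (2 sx)
  have e1 : κ * (J : ℝ) ^ 2 * L / (2 * Cx * 2 ^ J * Θ * Real.log L) ≤ κ / (2 * sx) := by
    rw [div_le_div_iff₀ (by positivity) (by positivity)]
    have f1 : sx * ((J : ℝ) ^ 2 * L) ≤ Cx * 2 ^ J * Θ * Real.log L := by
      have := mul_le_mul_of_nonneg_right hsx (show 0 ≤ (J : ℝ) ^ 2 * L by positivity)
      refine this.trans (le_of_eq ?_)
      field_simp
    have f2 := mul_le_mul_of_nonneg_left f1 (show 0 ≤ 2 * κ by linarith)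
    linarith
  -- ε is small
  have e2 : ε ≤ 1 / (8 * (m + 1)) * (κ / (2 * sx) * U) := by
    have f1 : ε ≤ 1 / (8 * (m + 1)) *
        (κ * (J : ℝ) ^ 2 * L / (2 * Cx * 2 ^ J * Θ * Real.log L) * cU) := by
      have g1 : Real.log L * (16 * (m + 1) * ε * Cx * 2 ^ J * Θ) ≤ cU * L := by
        have := mul_le_mul_of_nonneg_right hlogL
          (show 0 ≤ 16 * (m + 1) * ε * Cx * 2 ^ J * (Θ : ℝ) by positivity)
        refine this.trans (le_of_eq ?_)
        rw [hδ]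
        field_simp
      have g2 : ε * (8 * (m + 1) * (2 * Cx * 2 ^ J * Θ * Real.log L)) ≤
          κ * (J : ℝ) ^ 2 * L * cU := by
        have h1 : ε * (8 * (m + 1) * (2 * Cx * 2 ^ J * Θ * Real.log L)) =
            Real.log L * (16 * (m + 1) * ε * Cx * 2 ^ J * Θ) := by ring
        rw [h1]
        refine g1.trans ?_
        have h2 : 1 ≤ κ * (J : ℝ) ^ 2 := by
          have : 1 ≤ (J : ℝ) ^ 2 := one_le_pow₀ hJ
          nlinarith only [this, hκ]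
        have h3 := mul_le_mul_of_nonneg_right h2 (show 0 ≤ L * cU by positivity)
        linarith
      have g3 : 1 / (8 * (m + 1)) *
          (κ * (J : ℝ) ^ 2 * L / (2 * Cx * 2 ^ J * Θ * Real.log L) * cU) =
          κ * (J : ℝ) ^ 2 * L * cU / (8 * (m + 1) * (2 * Cx * 2 ^ J * Θ * Real.log L)) := by
        field_simp
      rw [g3, le_div_iff₀ (by positivity)]
      exact g2
    refine f1.trans ?_
    apply mul_le_mul_of_nonneg_left _ (by positivity)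
    exact mul_le_mul e1 hU hcU.le (by positivity)
  -- P Mt κ / (2 sx) ≥ (m + 1) X
  have e3 : (m + 1) * X ≤ P * Mt * (κ / (2 * sx)) := by
    have f1 : cL * (X / L) * (Real.log L / 2) ≤ P * Mt :=
      mul_le_mul hP hMt (by positivity) hP0
    have f2 : cL * (X / L) * (Real.log L / 2) *
        (κ * (J : ℝ) ^ 2 * L / (2 * Cx * 2 ^ J * Θ * Real.log L)) ≤ P * Mt * (κ / (2 * sx)) :=
      mul_le_mul f1 e1 (by positivity) (by positivity)
    refine le_trans ?_ f2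
    have f3 : cL * (X / L) * (Real.log L / 2) *
        (κ * (J : ℝ) ^ 2 * L / (2 * Cx * 2 ^ J * Θ * Real.log L)) =
        cL / (4 * Cx) * (κ * (J : ℝ) ^ 2 / (2 ^ J * Θ)) * X := by
      field_simp
      ring
    rw [f3]
    exact mul_le_mul_of_nonneg_right hpar hX0.le
  have e4 : (1 - 1 / (8 * (m + 1))) * (κ / (2 * sx) * U) ≤ κ / (2 * sx) * U - ε := by linarith
  have e5 : P * Mt * ((1 - 1 / (8 * (m + 1))) * (κ / (2 * sx) * U)) ≤
      P * Mt * (κ / (2 * sx) * U - ε) := mul_le_mul_of_nonneg_left e4 (by positivity)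
  refine le_trans ?_ e5
  have e6 : 0 ≤ 1 - 1 / (8 * (m + 1)) := by
    have : 1 / (8 * (m + 1)) ≤ 1 := by
      rw [div_le_one (by positivity)]
      linarith
    linarith
  have e7 := mul_le_mul_of_nonneg_left e3 (show 0 ≤ (1 - 1 / (8 * (m + 1))) * U by positivity)
  have e8 : (m + 1 - 1 / 8) * (X * U) = (1 - 1 / (8 * (m + 1))) * U * ((m + 1) * X) := by
    field_simp
  rw [e8]
  refine e7.trans (le_of_eq ?_)
  ring

/-- MAIN: the good integers have positive density. -/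
theorem p_QGD (h1 : Stmt_QNW) (h2 : Stmt_QSA) (h3 : Stmt_QSP) (h4 : Stmt_QSX) (h5 : Stmt_QUL)
    (h6 : Stmt_QPM) (h7 : Stmt_QSC) (h8 : Stmt_QSZ) (h9 : Stmt_QMT) (h10 : Stmt_PLB)
    (h11 : Stmt_BMR) (h12 : Stmt_QPB) : Stmt_QGD := by
  classical
  intro a b m ha hab hm
  obtain ⟨CA, hCA, hA⟩ := h2
  obtain ⟨CP, hCP, hP⟩ := h3
  obtain ⟨Cx, hCx, hx⟩ := h4
  obtain ⟨Cz, hCz, hz⟩ := h8
  obtain ⟨CM, hCM, hM⟩ := h9
  obtain ⟨cL, hcL, hL⟩ := h10
  obtain ⟨CB, z0, hz0, hB⟩ := h11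
  have hb : 0 < b := by linarith
  obtain ⟨C1, hC1, hsc⟩ := h7 b hb
  obtain ⟨D, hD⟩ : ∃ D : ℝ, D = (C1 + 1) * Cz := ⟨_, rfl⟩
  have hD1 : 1 ≤ D := by rw [hD]; nlinarith only [hC1, hCz]
  have hDC : C1 * Cz ≤ D := by rw [hD]; nlinarith only [hC1, hCz]
  obtain ⟨C, hC⟩ : ∃ C : ℝ, C = 16 * (CA + CP) * D := ⟨_, rfl⟩
  have hCAD : 16 * (CA * D) ≤ C := by
    have : 0 ≤ CP * D := by positivity
    rw [hC]
    linarith only [this]
  have hCPD : 16 * (CP * D) ≤ C := by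
    have : 0 ≤ CA * D := by positivity
    rw [hC]
    linarith only [this]
  have hCA0 : CA ≤ CA * D := by nlinarith only [hD1, hCA]
  have hCP0 : CP ≤ CP * D := by nlinarith only [hD1, hCP]
  have hCAle : CA ≤ C := by linarith
  have hCPle : CP ≤ C := by linarith
  have hC1' : 1 ≤ C := by linarith
  obtain ⟨J, k, Θ, hJ, hΘ, hCJ, hp1, hp2, hp3, hp4⟩ := h6 C (cL / (4 * Cx)) m hC1' (by positivity)
  have hmr : (1 : ℝ) ≤ m := by exact_mod_cast hm
  have hJr : (1 : ℝ) ≤ J := by exact_mod_cast hJ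
  have hΘr : (1 : ℝ) ≤ Θ := by exact_mod_cast hΘ
  obtain ⟨R, hR⟩ : ∃ R : ℝ, R = C1 * Cz * Θ := ⟨_, rfl⟩
  have hR0 : 0 < R := by rw [hR]; positivity
  have hRD : R ≤ D * Θ := by
    rw [hR]
    exact mul_le_mul_of_nonneg_right hDC (by linarith)
  have hcA1 : CA * R / J ≤ Θ / 16 := by
    rw [div_le_div_iff₀ (by linarith) (by norm_num)]
    have e1 : CA * R * 16 ≤ 16 * (CA * D) * Θ := by
      have := mul_le_mul_of_nonneg_left hRD (show 0 ≤ 16 * CA by linarith)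
      linarith
    have e2 : 16 * (CA * D) * Θ ≤ J * Θ :=
      mul_le_mul_of_nonneg_right (hCAD.trans hCJ) (by linarith)
    linarith
  have hcP1 : CP * R / J ≤ Θ / 16 := by
    rw [div_le_div_iff₀ (by linarith) (by norm_num)]
    have e1 : CP * R * 16 ≤ 16 * (CP * D) * Θ := by
      have := mul_le_mul_of_nonneg_left hRD (show 0 ≤ 16 * CP by linarith)
      linarith
    have e2 : 16 * (CP * D) * Θ ≤ J * Θ :=
      mul_le_mul_of_nonneg_right (hCPD.trans hCJ) (by linarith)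
    linarith
  have hkJ : 0 ≤ ((k : ℝ) + 1) * J / 2 ^ J := by positivity
  have hcA2 : CA * ((k : ℝ) + 1) * J / 2 ^ J ≤ Θ / 16 := by
    refine le_trans ?_ hp1
    have := mul_le_mul_of_nonneg_right hCAle hkJ
    calc CA * ((k : ℝ) + 1) * J / 2 ^ J = CA * (((k : ℝ) + 1) * J / 2 ^ J) := by ring
      _ ≤ C * (((k : ℝ) + 1) * J / 2 ^ J) := this
      _ = C * ((k : ℝ) + 1) * J / 2 ^ J := by ring
  have hcP2 : CP * ((k : ℝ) + 1) * J / 2 ^ J ≤ Θ / 16 := by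
    refine le_trans ?_ hp1
    have := mul_le_mul_of_nonneg_right hCPle hkJ
    calc CP * ((k : ℝ) + 1) * J / 2 ^ J = CP * (((k : ℝ) + 1) * J / 2 ^ J) := by ring
      _ ≤ C * (((k : ℝ) + 1) * J / 2 ^ J) := this
      _ = C * ((k : ℝ) + 1) * J / 2 ^ J := by ring
  obtain ⟨cU, hcU, hU⟩ := h5 J (k + 1) Θ a b hJ hΘ ha hb
  obtain ⟨κ, hκ⟩ : ∃ κ : ℝ, κ = (k : ℝ) + 1 := ⟨_, rfl⟩
  have hκ1 : 1 ≤ κ := by
    rw [hκ]
    have : (0 : ℝ) ≤ k := Nat.cast_nonneg _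
    linarith
  obtain ⟨ε, hε⟩ : ∃ ε : ℝ, ε = cU / (2 * (1 + 2 * m + 2 * κ)) := ⟨_, rfl⟩
  have hε0 : 0 < ε := by rw [hε]; positivity
  have hε2 : ε * (1 + 2 * m + 2 * κ) ≤ cU / 2 := by
    rw [hε]
    apply le_of_eq
    field_simp
  obtain ⟨B, hB0, hSA⟩ := hA J k Θ b R ε hJ hΘ hb hR0 hε0 hcA1 hcA2
  have hSP := hP J k Θ b R ε hJ hΘ hb hR0 hε0 hcP1 hcP2 hp2
  obtain ⟨e, he⟩ : ∃ e : ℝ, e = CA * R * Real.exp (1 - 3 * (Θ : ℝ) / 4) := ⟨_, rfl⟩
  have hκe : κ * e ≤ 1 / 4 := by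
    refine le_trans ?_ hp3
    rw [he, hκ]
    have e1 : CA * R ≤ C * Θ := by
      have f1 := mul_le_mul_of_nonneg_left hRD (show 0 ≤ CA by linarith)
      have f2 : CA * D * Θ ≤ C * Θ := by
        apply mul_le_mul_of_nonneg_right _ (by linarith)
        have : 0 ≤ CA * D := by positivity
        linarith
      linarith
    have e2 := mul_le_mul_of_nonneg_right e1
      (show 0 ≤ Real.exp (1 - 3 * (Θ : ℝ) / 4) * ((k : ℝ) + 1) by positivity)
    linarith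
  obtain ⟨c, hc⟩ : ∃ c : ℝ, c = cU ^ 2 / (16 * κ ^ 2 * B) := ⟨_, rfl⟩
  have hc0 : 0 < c := by rw [hc]; positivity
  refine ⟨c, hc0, ?_⟩
  -- the conditions on X
  have hlog : Tendsto (fun X : ℕ => Real.log X) atTop atTop :=
    Real.tendsto_log_atTop.comp tendsto_natCast_atTop_atTop
  obtain ⟨δ, hδ⟩ : ∃ δ : ℝ, δ = cU / (16 * (m + 1) * ε * Cx * 2 ^ J * Θ) := ⟨_, rfl⟩
  have hδ0 : 0 < δ := by rw [hδ]; positivity
  have n1 := hlog.eventually ((Real.isLittleO_log_id_atTop).bound hδ0)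
  obtain ⟨δ', hδ'⟩ : ∃ δ' : ℝ, δ' = min (1 / (8 * m * b)) (c / b) := ⟨_, rfl⟩
  have hδ'0 : 0 < δ' := by rw [hδ']; positivity
  have n2 := (tendsto_natCast_atTop_atTop (R := ℝ)).eventually
    ((Real.isLittleO_log_id_atTop).bound hδ'0)
  have n3 := hlog.eventually_ge_atTop (max (z0 : ℝ) 4)
  filter_upwards [hlog.eventually (hz Θ hΘ J), hlog.eventually hsc, hlog.eventually (hx J Θ hJ hΘ),
    hlog.eventually hM, hL, hlog.eventually hU, hlog.eventually hSA, hSP, n1, n2, n3,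
    eventually_gt_atTop 0] with X e1 e2 e3 e4 e5 e6 e7 e8 e9 e10 e11 e12
  intro H2 H1 hH2 hH1a hH1
  obtain ⟨L, hLdef⟩ : ∃ L : ℝ, L = Real.log X := ⟨_, rfl⟩
  rw [← hLdef] at e1 e2 e3 e4 e5 e6 e7 e8 e9 e10 e11 hH2 hH1a hH1
  have hX0 : (0 : ℝ) < X := by exact_mod_cast e12
  have hXL : (X : ℝ) = Real.exp L := by rw [hLdef, Real.exp_log hX0]
  have hL4 : 4 ≤ L := (le_max_right _ _).trans e11
  have hLz0 : (z0 : ℝ) ≤ L := (le_max_left _ _).trans e11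
  have hL0 : 0 < L := by linarith
  have hlL : 0 < Real.log L := Real.log_pos (by linarith)
  -- sizes
  rw [Real.norm_of_nonneg hlL.le, id, Real.norm_of_nonneg hL0.le] at e9
  rw [Real.norm_of_nonneg hL0.le, id, Real.norm_of_nonneg hX0.le] at e10
  have hbL1 : b * L ≤ X / (8 * m) := by
    have f1 : L ≤ 1 / (8 * m * b) * X := by
      refine e10.trans ?_
      apply mul_le_mul_of_nonneg_right _ hX0.le
      rw [hδ']
      exact min_le_left _ _
    have f2 := mul_le_mul_of_nonneg_left f1 hb.le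
    refine f2.trans (le_of_eq ?_)
    field_simp
  have hbL2 : b * L ≤ c * X := by
    have f1 : L ≤ c / b * X := by
      refine e10.trans ?_
      apply mul_le_mul_of_nonneg_right _ hX0.le
      rw [hδ']
      exact min_le_right _ _
    have f2 := mul_le_mul_of_nonneg_left f1 hb.le
    refine f2.trans (le_of_eq ?_)
    field_simp
  have h8m : (X : ℝ) / (8 * m) ≤ X / 8 := by
    apply div_le_div_of_nonneg_left hX0.le (by norm_num)
    linarith
  have hH1X : (H1 : ℝ) ≤ X / 8 := by linarith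
  have hH2X : (H2 : ℝ) ≤ X / 8 := by linarith
  have hH1X' : H1 ≤ X := by
    have : (H1 : ℝ) ≤ X := by linarith
    exact_mod_cast this
  -- the local bound
  obtain ⟨z1, z2, z3, z4, z5, z6, z7⟩ := e1
  have hsw : ∀ ω : SPt (wL L) → ℕ,
      ((swQ H2 H1 ω).card : ℝ) * (1 / 2 : ℝ) ^ (iL Θ L) ≤ R := by
    intro ω
    have f1 := e2 H2 H1 hH2 hH1 ω
    calc ((swQ H2 H1 ω).card : ℝ) * (1 / 2 : ℝ) ^ (iL Θ L) ≤
        C1 * (L / Real.log L) * (Cz * (Θ * (Real.log L / L))) :=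
          mul_le_mul f1 z4 (by positivity) (by positivity)
      _ = R := by
        rw [hR]
        field_simp
  obtain ⟨Y, hY⟩ : ∃ Y : ℕ, Y = X + H1 := ⟨_, rfl⟩
  have hYr : (Y : ℝ) = X + H1 := by rw [hY]; push_cast; rfl
  have hxY : X - H1 + Y = 2 * X := by omega
  have hYexp : Real.exp (L / 2) ≤ Y := by
    rw [hYr, hXL]
    have f1 : Real.exp (L / 2) ≤ Real.exp L := by
      apply Real.exp_le_exp.mpr
      linarith
    have : (0 : ℝ) ≤ H1 := Nat.cast_nonneg _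
    linarith
  obtain ⟨s1, s2, s3⟩ := e7 H2 H1 (X - H1) Y hH2 hH1 hYexp hsw
  rw [hxY] at s1 s2 s3
  have s4 := e8 H2 H1 hH2 hH1 hsw
  have hUc := e6 H2 H1 hH2 hH1a hH1
  have hz0z : z0 ≤ zL L := by
    have f1 : (z0 : ℝ) ≤ zL L := by
      have : L ≤ L ^ 12 := by
        calc L = L ^ 1 := (pow_one L).symm
          _ ≤ L ^ 12 := pow_le_pow_right₀ (by linarith) (by norm_num)
      linarith
    exact_mod_cast f1
  have hz2 : 2 ≤ zL L := hz0.trans hz0z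
  have hBlk : Blk (dQ 0 (zL L) (iL Θ L)) (bQ (zL L) (iL Θ L)) (iL Θ L) :=
    (hB (zL L) (iL Θ L) hz0z _ (fun x : LPt (zL L) (iL Θ L) => (x : ℕ)) (bQ (zL L) (iL Θ L))
      (h12 _ _ hz2) 0 (by norm_num)).1
  have hzX : (((zL L) ^ 2 ^ (iL Θ L) : ℕ) : ℝ) ≤ X / 4 := by
    push_cast
    refine z2.trans ?_
    have f1 : Real.exp (L / (512 * Θ)) ≤ Real.exp (L / 2) := by
      apply Real.exp_le_exp.mpr
      apply div_le_div_of_nonneg_left hL0.le (by norm_num)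
      linarith
    have f2 : Real.exp (L / 2) * Real.exp (L / 2) = X := by
      rw [← Real.exp_add, hXL]
      ring_nf
    have f3 : 4 ≤ Real.exp (L / 2) := by
      have g1 : (2 : ℝ) ≤ Real.exp 1 := by
        have := Real.add_one_le_exp (1 : ℝ)
        linarith
      have g2 : Real.exp 2 = Real.exp 1 * Real.exp 1 := by
        rw [← Real.exp_add]
        norm_num
      have g3 : Real.exp 2 ≤ Real.exp (L / 2) := by
        apply Real.exp_le_exp.mpr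
        linarith
      nlinarith only [g1, g2, g3]
    nlinarith only [f1, f2, f3]
  -- the main term
  have hU0 : 0 < UQ (wL L) (zL L) (iL Θ L) J (k + 1) H2 H1 := by linarith
  obtain ⟨sx, hsx⟩ : ∃ sx : ℝ, sx = sX (xQ (zL L) (iL Θ L) J) := ⟨_, rfl⟩
  rw [← hsx] at s4 e3
  have hsx0 : 0 < sx := by
    refine lt_of_lt_of_le ?_ e3.1
    positivity
  have hA1 := QGD_main X L cL Cx J Θ κ sx cU ε δ m (UQ (wL L) (zL L) (iL Θ L) J (k + 1) H2 H1)
    (((Ioc X (2 * X)).filter Nat.Prime).card : ℝ)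
    (∏ y : SPt (wL L), (y : ℝ) / ((y : ℝ) - 1)) hX0 hL0 hlL hcL (by linarith) hJr hΘr hκ1 hsx0
    e3.2 hcU hε0 hmr hUc e5 e4.1 e9 hδ (by rw [hκ]; exact hp4)
  have hYle : (Y : ℝ) ≤ X * (1 + 1 / (8 * m)) := by
    rw [hYr]
    have : (X : ℝ) * (1 + 1 / (8 * m)) = X + X / (8 * m) := by ring
    rw [this]
    linarith
  have hnum := QGD_num _ X Y (UQ (wL L) (zL L) (iL Θ L) J (k + 1) H2 H1) ε m κ cU e hX0
    (by rw [hYr]; have : (0 : ℝ) ≤ H1 := Nat.cast_nonneg _; linarith) hmr (by linarith)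
    hε0 hcU hUc hYle hA1 hκe hε2
  rw [← hκ] at s4
  rw [← he] at s3
  exact QGD_fin h1 (wL L) (zL L) (iL Θ L) J k Θ H2 H1 X m κ ε
    (UQ (wL L) (zL L) (iL Θ L) J (k + 1) H2 H1) B e _ cU c Y hz2 z5 hJ z1 hm hBlk hzX hH1X hH2X
    hX0 (by rw [hκ]; push_cast; rfl) hB0 hcU (by rw [hYr]; linarith) s1 s2 s3 s4 hnum hc
    (hH1.trans hbL2)

end Pool.PP
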