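import Pool.Agent.Work.MP_b0c12c_px.QLoc
import Pool.Agent.Work.MP_b0c12c_pp.B_MOM

/-! # Block QGM: moments of the majorant (helper74) -/

set_option autoImplicit false

namespace Pool.PP

open Finset

theorem p_QGM (h1 : Stmt_PMU) : Stmt_QGM := by
  intro π ι _ _ _ _ q J f S A r hJ hq0 hq1 hA hf
  classical
  have hJ' : (J : ℝ) ≠ 0 := by positivity
  have hg0 : ∀ T, 0 ≤ gt f T := fun T => by unfold gt; positivity
  have hge : ∀ T, gt f T = ∑ s, (1 / (J : ℝ)) * |f s T| := by
    intro T
    unfold gt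
    rw [Finset.mul_sum]
  have hw : ∑ _s : Fin J, (1 / (J : ℝ)) = 1 := by
    rw [Finset.sum_const, Finset.card_univ, Fintype.card_fin, nsmul_eq_mul]
    field_simp
  -- moments of `gt`
  have hmom : ∀ j, 1 ≤ j → j ≤ r → E1 q (fun T => gt f T ^ j) ≤ A := by
    intro j hj1 hjr
    have hjen : ∀ T, gt f T ^ j ≤ ∑ s : Fin J, (1 / (J : ℝ)) * |f s T| ^ j := by
      intro T
      rw [hge]
      exact Real.pow_arith_mean_le_arith_mean_pow (univ : Finset (Fin J))
        (fun _ => 1 / (J : ℝ)) (fun s => |f s T|) (fun _ _ => by positivity) hw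
        (fun _ _ => abs_nonneg _) j
    refine (MOM_E1_mono q hq0 hq1 _ _ hjen).trans ?_
    rw [MOM_E1_sum q (univ : Finset (Fin J)) (fun _ => 1 / (J : ℝ)) (fun s T => |f s T| ^ j)]
    have h3 : ∑ s : Fin J, (1 / (J : ℝ)) * E1 q (fun T => |f s T| ^ j) ≤
        ∑ s : Fin J, (1 / (J : ℝ)) * A :=
      Finset.sum_le_sum (fun s _ => mul_le_mul_of_nonneg_left (hf s j hj1 hjr) (by positivity))
    refine h3.trans ?_
    rw [← Finset.sum_mul, hw, one_mul]
  -- one site
  have hsite : E1 q (fun T => (1 + gt f T) ^ r) ≤ Real.exp (2 ^ r * A) := by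
    have e1 : (fun T => (1 + gt f T) ^ r) =
        (fun T => ∑ i ∈ range (r + 1), (r.choose i : ℝ) * gt f T ^ i) := by
      funext T
      rw [add_comm (1 : ℝ), add_pow]
      refine Finset.sum_congr rfl (fun i _ => ?_)
      rw [one_pow]
      ring
    rw [e1, MOM_E1_sum q (range (r + 1)) (fun i => (r.choose i : ℝ)) (fun i T => gt f T ^ i),
      Finset.sum_range_succ']
    have e2 : E1 q (fun T => gt f T ^ 0) = 1 := by
      simp only [pow_zero]
      exact MOM_E1_one q
    rw [e2]
    have h4 : ∑ i ∈ range r, (r.choose (i + 1) : ℝ) * E1 q (fun T => gt f T ^ (i + 1)) ≤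
        ∑ i ∈ range r, (r.choose (i + 1) : ℝ) * A := by
      refine Finset.sum_le_sum (fun i hi => ?_)
      rw [mem_range] at hi
      exact mul_le_mul_of_nonneg_left (hmom (i + 1) (by omega) (by omega)) (by positivity)
    have e3 : (∑ i ∈ range r, (r.choose (i + 1) : ℝ)) = 2 ^ r - 1 := by
      have h5 := Nat.sum_range_choose r
      rw [Finset.sum_range_succ'] at h5
      simp only [Nat.choose_zero_right] at h5
      have h6 : ((∑ k ∈ range r, r.choose (k + 1) : ℕ) : ℝ) + 1 = 2 ^ r := by
        exact_mod_cast h5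
      push_cast at h6
      linarith
    rw [← Finset.sum_mul, e3] at h4
    have h6 := Real.add_one_le_exp (2 ^ r * A)
    simp only [Nat.choose_zero_right, Nat.cast_one, mul_one]
    linarith
  -- all sites
  set F : ι → Finset π → ℝ := fun h T => if h ∈ S then (1 + gt f T) ^ r else 1 with hF
  have hfun : (fun t : ι → Finset π => (∏ h ∈ S, (1 + gt f (t h))) ^ r) =
      (fun t : ι → Finset π => ∏ h, F h (t h)) := by
    funext t
    simp only [hF]
    rw [Finset.prod_ite_mem, Finset.univ_inter, Finset.prod_pow]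
  rw [hfun, h1 π ι q F]
  have hprod : ∏ h, E1 q (F h) ≤ ∏ h : ι, (if h ∈ S then Real.exp (2 ^ r * A) else 1) := by
    refine Finset.prod_le_prod (fun h _ => ?_) (fun h _ => ?_)
    · refine Finset.sum_nonneg (fun T _ => mul_nonneg (MOM_w1_nonneg q hq0 hq1 T) ?_)
      simp only [hF]
      split_ifs
      · exact pow_nonneg (by linarith [hg0 T]) r
      · norm_num
    · by_cases hh : h ∈ S
      · simp only [hF, hh, if_true]
        exact hsite
      · simp only [hF, hh, if_false]
        rw [MOM_E1_one]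
  refine hprod.trans (le_of_eq ?_)
  rw [Finset.prod_ite_mem, Finset.univ_inter, Finset.prod_const, ← Real.exp_nat_mul]
  congr 1
  ring

end Pool.PP
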