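import Pool.Agent.Work.MP_b0c12c_px.QLoc

/-! # Block QI1: the mean of the weight (helper7) -/

set_option autoImplicit false

namespace Pool.PP

open Finset

theorem QI1_w1_nonneg {π : Type} [Fintype π] [DecidableEq π] (q : π → ℝ) (h0 : ∀ x, 0 ≤ q x)
    (h1 : ∀ x, q x ≤ 1) (T : Finset π) : 0 ≤ w1 q T := by
  unfold w1
  apply mul_nonneg
  · exact Finset.prod_nonneg fun x _ => h0 x
  · exact Finset.prod_nonneg fun x _ => sub_nonneg.mpr (h1 x)

theorem QI1_xs_nonneg {π : Type} [Fintype π] [DecidableEq π] (q : π → ℝ) (h0 : ∀ x, 0 ≤ q x)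
    (h1 : ∀ x, q x ≤ 1) {J : ℕ} (f : Fin J → Finset π → ℝ) (s : Fin J) : 0 ≤ xs q f s := by
  unfold xs E1
  apply div_nonneg _ (sq_nonneg _)
  exact Finset.sum_nonneg fun T _ => mul_nonneg (QI1_w1_nonneg q h0 h1 T) (sq_nonneg _)

theorem QI1_ym_nonneg {ι : Type} [Fintype ι] [DecidableEq ι] {J : ℕ} (x : Fin J → ℝ)
    (hx : ∀ s, 0 ≤ x s) (S : Finset ι) (κ : ι → Option (Fin J)) : 0 ≤ ym x S κ := by
  unfold ym
  apply Finset.prod_nonneg
  intro h _
  rcases κ h with _ | s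
  · exact zero_le_one
  · simp only [yy]
    split_ifs
    · exact hx s
    · exact le_refl _

theorem p_QI1 (h1 : Stmt_SQM) (h2 : Stmt_QMA) : Stmt_QI1 := by
  intro π ι _ _ _ _ q J f S KK k Θ hq0 hq1 hO
  classical
  have hxs : ∀ s, 0 ≤ xs q f s := QI1_xs_nonneg q hq0 hq1 f
  have hEM : EM q (OmQ f S KK k Θ) =
      ∑ A ∈ AA KK k, EM q (fun t : ι → Finset π => PF (cQ KK A Θ) (tab f S t) ^ 2) := by
    unfold EM OmQ
    simp only [Finset.mul_sum]
    rw [Finset.sum_comm]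
  rw [hEM]
  have hterm : ∀ A ∈ AA KK k,
      EM q (fun t : ι → Finset π => PF (cQ KK A Θ) (tab f S t) ^ 2) ≤
        if A ⊆ S then mU (xs q f) S KK k else 0 := by
    intro A hA
    have hA' := Finset.mem_powersetCard.mp hA
    have hdis : Disjoint A KK := by
      rw [Finset.disjoint_left]
      intro a ha hk
      exact (Finset.mem_sdiff.mp (hA'.1 ha)).2 hk
    rw [h1 π ι q J f S (cQ KK A Θ) hO]
    have h3 := (h2 ι J (xs q f) S KK A hxs hdis).1
    rw [hA'.2] at h3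
    rw [← h3]
    apply Finset.sum_le_sum
    intro κ _
    have h4 := QI1_ym_nonneg (xs q f) hxs S κ
    by_cases hm : mat KK A κ
    · rw [if_pos hm]
      have h5 : cQ KK A Θ κ ^ 2 ≤ 1 := by
        unfold cQ
        split_ifs <;> norm_num
      nlinarith
    · rw [if_neg hm]
      have h5 : cQ KK A Θ κ = 0 := by
        unfold cQ
        rw [if_neg]
        exact fun h => hm h.1
      rw [h5]
      simp
  refine (Finset.sum_le_sum hterm).trans ?_
  rw [← Finset.sum_filter, Finset.sum_const, nsmul_eq_mul]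
  apply le_of_eq
  congr 2
  rw [← Finset.card_powersetCard]
  congr 1
  ext A
  rw [Finset.mem_filter, AA, Finset.mem_powersetCard, Finset.mem_powersetCard]
  constructor
  · rintro ⟨⟨ha, hc⟩, hs⟩
    refine ⟨?_, hc⟩
    intro a haA
    exact Finset.mem_sdiff.mpr ⟨hs haA, (Finset.mem_sdiff.mp (ha haA)).2⟩
  · rintro ⟨ha, hc⟩
    refine ⟨⟨?_, hc⟩, ?_⟩
    · intro a haA
      exact Finset.mem_sdiff.mpr ⟨Finset.mem_univ _, (Finset.mem_sdiff.mp (ha haA)).2⟩
    · intro a haA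
      exact (Finset.mem_sdiff.mp (ha haA)).1

end Pool.PP
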