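import Pool.Agent.Work.MP_b0c12c_px.QLoc

/-! # Block QMA (helper84) -/

set_option autoImplicit false

namespace Pool.PP

open Finset

theorem QMA_fac {ι : Type} [Fintype ι] [DecidableEq ι] {J : ℕ} (KK A : Finset ι)
    (w : ι → Option (Fin J) → ℝ) [DecidablePred (mat KK A : (ι → Option (Fin J)) → Prop)] :
    (∑ κ : ι → Option (Fin J), if mat KK A κ then ∏ h, w h (κ h) else 0) =
      ∏ h, (if h ∈ KK then ∑ o, w h o else if h ∈ A then ∑ s, w h (some s) else w h none) := by
  classical
  set m : ι → Option (Fin J) → ℝ := fun h o =>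
    if h ∈ KK then 1 else if h ∈ A then (if o = none then 0 else 1)
      else (if o = none then 1 else 0) with hm
  have h1 : ∀ κ : ι → Option (Fin J), (if mat KK A κ then ∏ h, w h (κ h) else 0) =
      ∏ h, (m h (κ h) * w h (κ h)) := by
    intro κ
    by_cases hk : mat KK A κ
    · rw [if_pos hk]
      refine Finset.prod_congr rfl (fun h _ => ?_)
      have : m h (κ h) = 1 := by
        simp only [hm]
        by_cases a : h ∈ KK
        · simp [a]
        · have := hk h a
          by_cases b : h ∈ A
          · simp [a, b, this.mpr b]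
          · have c : κ h = none := by
              by_contra hc
              exact b (this.mp hc)
            simp [a, b, c]
      rw [this, one_mul]
    · rw [if_neg hk]
      unfold mat at hk
      push Not at hk
      obtain ⟨h, a, hh⟩ := hk
      symm
      apply Finset.prod_eq_zero (Finset.mem_univ h)
      have : m h (κ h) = 0 := by
        simp only [hm]
        rcases hh with ⟨c, b⟩ | ⟨c, b⟩
        · simp [a, b, c]
        · simp [a, b, c]
      rw [this, zero_mul]
  rw [Finset.sum_congr rfl (fun κ _ => h1 κ)]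
  have h2 := Finset.prod_univ_sum (fun _ : ι => (univ : Finset (Option (Fin J))))
    (fun h o => m h o * w h o)
  rw [Fintype.piFinset_univ] at h2
  rw [← h2]
  refine Finset.prod_congr rfl (fun h _ => ?_)
  simp only [hm]
  by_cases a : h ∈ KK
  · simp [a]
  · by_cases b : h ∈ A
    · simp [a, b, Fintype.sum_option]
    · simp [a, b]

theorem QMA_val {ι : Type} [Fintype ι] [DecidableEq ι] {J : ℕ} (x : Fin J → ℝ)
    (S KK A : Finset ι) (hd : Disjoint A KK) (e : Option (Fin J) → ℝ) (he : e none = 1) :
    (∏ h, (if h ∈ KK then ∑ o, yy x S h o * e o else if h ∈ A then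
      ∑ s, yy x S h (some s) * e (some s) else yy x S h none * e none)) =
      if A ⊆ S then (∑ s, x s * e (some s)) ^ A.card *
        (1 + ∑ s, x s * e (some s)) ^ (KK ∩ S).card else 0 := by
  set X : ℝ := ∑ s, x s * e (some s) with hX
  have hsome : ∀ h, ∑ s, yy x S h (some s) * e (some s) = if h ∈ S then X else 0 := by
    intro h
    unfold yy
    by_cases a : h ∈ S
    · simp [a, hX]
    · simp [a]
  have hall : ∀ h, ∑ o, yy x S h o * e o = if h ∈ S then 1 + X else 1 := by
    intro h
    rw [Fintype.sum_option, hsome]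
    have : yy x S h none = 1 := rfl
    rw [this, he]
    by_cases a : h ∈ S
    · simp [a]
    · simp [a]
  have hnone : ∀ h, yy x S h none * e none = 1 := by
    intro h
    have : yy x S h none = 1 := rfl
    rw [this, he, one_mul]
  simp only [hsome, hall, hnone]
  by_cases hA : A ⊆ S
  · rw [if_pos hA]
    have h1 : ∀ h : ι, (if h ∈ KK then (if h ∈ S then 1 + X else 1) else
        if h ∈ A then (if h ∈ S then X else 0) else 1) =
        (if h ∈ A then X else 1) * (if h ∈ KK ∩ S then 1 + X else 1) := by
      intro h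
      by_cases a : h ∈ KK
      · have b : h ∉ A := fun hb => Finset.disjoint_left.mp hd hb a
        by_cases c : h ∈ S <;> simp [a, b, c]
      · by_cases b : h ∈ A
        · have c := hA b
          simp [a, b, c]
        · simp [a, b]
    rw [Finset.prod_congr rfl (fun h _ => h1 h), Finset.prod_mul_distrib, Finset.prod_ite_mem,
      Finset.prod_ite_mem, Finset.univ_inter, Finset.univ_inter, Finset.prod_const,
      Finset.prod_const]
  · rw [if_neg hA]
    obtain ⟨h, ha, hs⟩ := Finset.not_subset.mp hA
    apply Finset.prod_eq_zero (Finset.mem_univ h)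
    have a : h ∉ KK := fun hb => Finset.disjoint_left.mp hd ha hb
    simp [a, ha, hs]

theorem QMA_exp {u : ℝ} (h0 : 0 ≤ u) (h1 : u ≤ 1) : Real.exp u ≤ 1 + 2 * u := by
  have h3 : Real.exp u ≤ 1 + u + u ^ 2 := by
    have h4 := Real.abs_exp_sub_one_sub_id_le (x := u) (by rw [abs_of_nonneg h0]; exact h1)
    have := (abs_le.mp h4).2
    linarith
  nlinarith

theorem p_QMA : Stmt_QMA := by
  classical
  intro ι _ _ J x S KK A hx hd
  have hyy : ∀ h o, 0 ≤ yy x S h o := by
    intro h o
    cases o with
    | none => simp [yy]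
    | some s =>
      simp only [yy]
      split_ifs
      · exact hx s
      · exact le_rfl
  have hym : ∀ κ, 0 ≤ ym x S κ := fun κ => Finset.prod_nonneg (fun h _ => hyy _ _)
  constructor
  · have h1 := QMA_fac KK A (fun h o => yy x S h o * (1 : ℝ))
    have h2 := QMA_val x S KK A hd (fun _ => (1 : ℝ)) rfl
    rw [h2] at h1
    simp only [mul_one] at h1
    unfold mU sX ym
    exact h1
  · intro R hX hA
    have h1 := QMA_fac KK A (fun h o => yy x S h o * Real.exp (lev1 o))
    have h2 := QMA_val x S KK A hd (fun o => Real.exp (lev1 o)) (by simp [lev1])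
    rw [h2, if_pos hA] at h1
    set X1 : ℝ := ∑ s, x s * Real.exp (lev1 (some s)) with hX1
    have hY0 : 0 ≤ sY x := Finset.sum_nonneg (fun s _ => mul_nonneg (by positivity) (hx s))
    have hX10 : 0 ≤ X1 := Finset.sum_nonneg (fun s _ => mul_nonneg (hx s) (Real.exp_pos _).le)
    have hX1le : X1 ≤ sX x + 2 * sY x := by
      rw [hX1]
      unfold sX sY
      rw [Finset.mul_sum, ← Finset.sum_add_distrib]
      refine Finset.sum_le_sum (fun s _ => ?_)
      have hl0 : (0 : ℝ) ≤ (1 / 2) ^ (s : ℕ) := by positivity
      have hl1 : (1 / 2 : ℝ) ^ (s : ℕ) ≤ 1 := pow_le_one₀ (by norm_num) (by norm_num)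
      have := mul_le_mul_of_nonneg_left (QMA_exp hl0 hl1) (hx s)
      simp only [lev1]
      linarith
    have h3 : (∑ κ : ι → Option (Fin J), if mat KK A κ ∧ R < lev κ then ym x S κ else 0) ≤
        Real.exp (-R) * (X1 ^ A.card * (1 + X1) ^ (KK ∩ S).card) := by
      rw [← h1, Finset.mul_sum]
      refine Finset.sum_le_sum (fun κ _ => ?_)
      by_cases a : mat KK A κ
      · rw [if_pos a, Finset.prod_mul_distrib, ← Real.exp_sum]
        by_cases b : R < lev κ
        · rw [if_pos ⟨a, b⟩]
          have e1 : 1 ≤ Real.exp (-R) * Real.exp (∑ h, lev1 (κ h)) := by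
            rw [← Real.exp_add]
            apply Real.one_le_exp
            unfold lev at b
            linarith
          have e2 := mul_le_mul_of_nonneg_left e1 (hym κ)
          unfold ym at e2 ⊢
          linarith
        · rw [if_neg (fun h => b h.2)]
          exact mul_nonneg (Real.exp_pos _).le (mul_nonneg (hym κ) (Real.exp_pos _).le)
      · rw [if_neg a, if_neg (fun h => a h.1), mul_zero]
    refine h3.trans ?_
    have h4 : X1 ≤ sX x * Real.exp (2 * (sY x / sX x)) := by
      have e1 := Real.add_one_le_exp (2 * (sY x / sX x))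
      have e2 := mul_le_mul_of_nonneg_left e1 hX.le
      have e3 : sX x * (2 * (sY x / sX x) + 1) = sX x + 2 * sY x := by
        field_simp
        ring
      linarith
    have h5 : 1 + X1 ≤ (1 + sX x) * Real.exp (2 * sY x) := by
      have e1 := Real.add_one_le_exp (2 * sY x)
      have e2 := mul_le_mul_of_nonneg_left e1 (show 0 ≤ 1 + sX x by linarith)
      nlinarith
    have h6 : X1 ^ A.card ≤ sX x ^ A.card * Real.exp (2 * (sY x / sX x)) ^ A.card := by
      rw [← mul_pow]
      exact pow_le_pow_left₀ hX10 h4 _
    have h7 : (1 + X1) ^ (KK ∩ S).card ≤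
        (1 + sX x) ^ (KK ∩ S).card * Real.exp (2 * sY x) ^ (KK ∩ S).card := by
      rw [← mul_pow]
      exact pow_le_pow_left₀ (by linarith) h5 _
    have h8 : X1 ^ A.card * (1 + X1) ^ (KK ∩ S).card ≤
        (sX x ^ A.card * Real.exp (2 * (sY x / sX x)) ^ A.card) *
        ((1 + sX x) ^ (KK ∩ S).card * Real.exp (2 * sY x) ^ (KK ∩ S).card) :=
      mul_le_mul h6 h7 (by positivity) (by positivity)
    calc Real.exp (-R) * (X1 ^ A.card * (1 + X1) ^ (KK ∩ S).card)
        ≤ Real.exp (-R) * ((sX x ^ A.card * Real.exp (2 * (sY x / sX x)) ^ A.card) *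
        ((1 + sX x) ^ (KK ∩ S).card * Real.exp (2 * sY x) ^ (KK ∩ S).card)) :=
          mul_le_mul_of_nonneg_left h8 (Real.exp_pos _).le
      _ = tl x S KK A.card R * mU x S KK A.card := by
          unfold tl mU
          rw [← Real.exp_nat_mul, ← Real.exp_nat_mul]
          have e1 : Real.exp (2 * (↑A.card * (sY x / sX x) + ↑(KK ∩ S).card * sY x) - R) =
              Real.exp (-R) * Real.exp (↑A.card * (2 * (sY x / sX x))) *
                Real.exp (↑(KK ∩ S).card * (2 * sY x)) := by
            rw [← Real.exp_add, ← Real.exp_add]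
            congr 1
            ring
          rw [e1]
          ring

end Pool.PP
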