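import Pool.Agent.Work.MP_b0c12c_px.QLoc

/-! # Block QMJ: majorants (helper10) -/

set_option autoImplicit false

namespace Pool.PP

open Finset

namespace QMJ

section
variable {ι : Type} [Fintype ι] [DecidableEq ι] {J : ℕ}

/-- Sum of the absolute values of the monomials. -/
noncomputable def ab (G : ι → Fin J → ℝ) (κ : ι → Option (Fin J)) : ℝ :=
  ∏ h, |fac (G h) (κ h)|

omit [DecidableEq ι] in
lemma ab_nonneg (G : ι → Fin J → ℝ) (κ : ι → Option (Fin J)) : 0 ≤ ab G κ :=
  Finset.prod_nonneg fun _ _ => abs_nonneg _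

lemma sum_ab (G : ι → Fin J → ℝ) :
    ∑ κ, ab G κ = ∏ h, (1 + (1 / J : ℝ) * ∑ s, |G h s|) := by
  have h1 : ∏ h : ι, ∑ o : Option (Fin J), |fac (G h) o| = ∑ κ, ab G κ := by
    rw [Finset.prod_univ_sum, Fintype.piFinset_univ]; rfl
  rw [← h1]
  refine Finset.prod_congr rfl fun h _ => ?_
  rw [Fintype.sum_option]
  congr 1
  · simp [fac]
  · rw [Finset.mul_sum]
    refine Finset.sum_congr rfl fun s _ => ?_
    simp only [fac]
    rw [abs_div, abs_neg, Nat.abs_cast]
    ring

lemma abs_PF_le (c : (ι → Option (Fin J)) → ℝ) (G : ι → Fin J → ℝ) :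
    |PF c G| ≤ ∑ κ, |c κ| * ab G κ := by
  unfold PF
  refine (Finset.abs_sum_le_sum_abs _ _).trans (Finset.sum_le_sum fun κ _ => ?_)
  rw [abs_mul, Finset.abs_prod]; rfl

lemma sum_sq_le (AAA : Finset (Finset ι)) (c : Finset ι → (ι → Option (Fin J)) → ℝ)
    (d : (ι → Option (Fin J)) → ℝ) (hd : ∀ κ, ∑ A ∈ AAA, |c A κ| ≤ d κ) (G : ι → Fin J → ℝ) :
    ∑ A ∈ AAA, PF (c A) G ^ 2 ≤ (∑ κ, d κ * ab G κ) ^ 2 := by
  have h1 : ∑ A ∈ AAA, |PF (c A) G| ≤ ∑ κ, d κ * ab G κ := by
    calc ∑ A ∈ AAA, |PF (c A) G| ≤ ∑ A ∈ AAA, ∑ κ, |c A κ| * ab G κ :=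
          Finset.sum_le_sum fun A _ => abs_PF_le _ _
      _ = ∑ κ, (∑ A ∈ AAA, |c A κ|) * ab G κ := by
          rw [Finset.sum_comm]
          exact Finset.sum_congr rfl fun κ _ => by rw [Finset.sum_mul]
      _ ≤ ∑ κ, d κ * ab G κ :=
          Finset.sum_le_sum fun κ _ => mul_le_mul_of_nonneg_right (hd κ) (ab_nonneg G κ)
  have h0 : 0 ≤ ∑ A ∈ AAA, |PF (c A) G| := Finset.sum_nonneg fun _ _ => abs_nonneg _
  have h2 : ∑ A ∈ AAA, PF (c A) G ^ 2 ≤ (∑ A ∈ AAA, |PF (c A) G|) ^ 2 := by
    calc ∑ A ∈ AAA, PF (c A) G ^ 2 = ∑ A ∈ AAA, |PF (c A) G| * |PF (c A) G| :=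
          Finset.sum_congr rfl fun A _ => by rw [← sq, sq_abs]
      _ ≤ ∑ A ∈ AAA, |PF (c A) G| * ∑ A ∈ AAA, |PF (c A) G| := by
          refine Finset.sum_le_sum fun A hA => mul_le_mul_of_nonneg_left ?_ (abs_nonneg _)
          exact Finset.single_le_sum (f := fun A => |PF (c A) G|) (fun _ _ => abs_nonneg _) hA
      _ = (∑ A ∈ AAA, |PF (c A) G|) ^ 2 := by rw [← Finset.sum_mul, sq]
  exact h2.trans (pow_le_pow_left₀ h0 h1 2)

lemma one_A (AAA : Finset (Finset ι)) (P : Finset ι → Prop) (c : Finset ι → ℝ)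
    (hP : ∀ A ∈ AAA, ∀ A' ∈ AAA, P A → P A' → A = A')
    (hc : ∀ A ∈ AAA, |c A| ≤ 1) (hc0 : ∀ A ∈ AAA, ¬ P A → c A = 0) :
    ∑ A ∈ AAA, |c A| ≤ 1 := by
  classical
  have h1 : ∑ A ∈ AAA, |c A| = ∑ A ∈ AAA.filter P, |c A| := by
    rw [Finset.sum_filter]
    refine Finset.sum_congr rfl fun A hA => ?_
    split_ifs with h
    · rfl
    · rw [hc0 A hA h, abs_zero]
  rw [h1]
  have h2 : (AAA.filter P).card ≤ 1 := by
    rw [Finset.card_le_one]
    intro A hA A' hA'
    rw [Finset.mem_filter] at hA hA'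
    exact hP A hA.1 A' hA'.1 hA.2 hA'.2
  calc ∑ A ∈ AAA.filter P, |c A| ≤ ∑ _A ∈ AAA.filter P, (1 : ℝ) :=
        Finset.sum_le_sum fun A hA => hc A (Finset.mem_filter.mp hA).1
    _ = ((AAA.filter P).card : ℝ) := by simp
    _ ≤ 1 := by exact_mod_cast h2

lemma mem_AA {KK : Finset ι} {k : ℕ} {A : Finset ι} (h : A ∈ AA KK k) : ∀ x ∈ A, x ∉ KK := by
  intro x hx hK
  have := (Finset.mem_powersetCard.mp h).1 hx
  exact (Finset.mem_sdiff.mp this).2 hK

lemma mat_unique {KK : Finset ι} {k : ℕ} {A A' : Finset ι} {κ : ι → Option (Fin J)}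
    (h : A ∈ AA KK k) (h' : A' ∈ AA KK k) (hm : mat KK A κ) (hm' : mat KK A' κ) : A = A' := by
  ext x
  constructor
  · intro hx
    exact (hm' x (mem_AA h x hx)).mp ((hm x (mem_AA h x hx)).mpr hx)
  · intro hx
    exact (hm x (mem_AA h' x hx)).mp ((hm' x (mem_AA h' x hx)).mpr hx)

lemma cQ_mem (KK A : Finset ι) (Θ : ℝ) (κ : ι → Option (Fin J)) :
    0 ≤ cQ KK A Θ κ ∧ cQ KK A Θ κ ≤ 1 := by
  unfold cQ; split_ifs <;> simp

lemma cM_abs (hJ : 0 < J) (KK A : Finset ι) (Θ : ℝ) (m : ι) (κ : ι → Option (Fin J)) :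
    |cM (cQ KK A Θ) m κ| ≤ 1 := by
  unfold cM
  split_ifs with h
  · have h1 := cQ_mem KK A Θ κ
    have hJ' : (0 : ℝ) < J := by exact_mod_cast hJ
    have h2 : 0 ≤ (1 / J : ℝ) * ∑ s : Fin J, cQ KK A Θ (Function.update κ m (some s)) :=
      mul_nonneg (by positivity) (Finset.sum_nonneg fun s _ => (cQ_mem _ _ _ _).1)
    have h3 : (1 / J : ℝ) * ∑ s : Fin J, cQ KK A Θ (Function.update κ m (some s)) ≤ 1 := by
      calc (1 / J : ℝ) * ∑ s : Fin J, cQ KK A Θ (Function.update κ m (some s))
          ≤ (1 / J : ℝ) * ∑ _s : Fin J, (1 : ℝ) := by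
            apply mul_le_mul_of_nonneg_left _ (by positivity)
            exact Finset.sum_le_sum fun s _ => (cQ_mem _ _ _ _).2
        _ = 1 := by simp; field_simp
    rw [abs_le]; constructor <;> linarith
  · simp

lemma mat_update {KK A : Finset ι} {m : ι} (hm : m ∈ KK) (κ : ι → Option (Fin J))
    (o : Option (Fin J)) : mat KK A (Function.update κ m o) ↔ mat KK A κ := by
  unfold mat
  refine forall_congr' fun h => forall_congr' fun hh => ?_
  have : h ≠ m := fun e => hh (e ▸ hm)
  rw [Function.update_of_ne this]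

end

end QMJ

open QMJ

theorem p_QMJ : Stmt_QMJ := by
  intro π ι _ _ _ _ J f r S KK k Θ t hJ hr
  have hJ' : (0 : ℝ) < J := by exact_mod_cast hJ
  have hgt : ∀ T, 0 ≤ gt f T := fun T =>
    mul_nonneg (by positivity) (Finset.sum_nonneg fun _ _ => abs_nonneg _)
  -- products
  have hprod : ∀ S' : Finset ι, ∏ h, (1 + (1 / J : ℝ) * ∑ s, |tab f S' t h s|) =
      ∏ h ∈ S', (1 + gt f (t h)) := by
    intro S'
    rw [← Finset.prod_subset (Finset.subset_univ S')]
    · refine Finset.prod_congr rfl fun h hh => ?_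
      unfold gt
      congr 2
      refine Finset.sum_congr rfl fun s _ => ?_
      unfold tab; rw [if_pos hh]
    · intro h _ hh
      have : ∀ s : Fin J, tab f S' t h s = 0 := fun s => by unfold tab; rw [if_neg hh]
      simp [this]
  refine ⟨Finset.sum_nonneg fun _ _ => sq_nonneg _, ?_, ?_, ?_, ?_⟩
  · -- Om
    have h := sum_sq_le (AA KK k) (fun A => cQ KK A Θ) (fun _ => 1) (fun κ =>
      one_A (AA KK k) (fun A => mat KK A κ) (fun A => cQ KK A Θ κ)
        (fun A hA A' hA' h1 h2 => mat_unique hA hA' h1 h2)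
        (fun A _ => by
          have := cQ_mem KK A Θ κ
          rw [abs_of_nonneg this.1]; exact this.2)
        (fun A _ hn => by unfold cQ; rw [if_neg (fun h => hn h.1)])) (tab f S t)
    simp only [one_mul] at h
    rw [sum_ab, hprod] at h
    exact h
  · exact Finset.sum_nonneg fun A _ => Finset.sum_nonneg fun m _ =>
      mul_nonneg (sq_nonneg _) (hr _)
  · -- Bd
    unfold BdQ
    rw [Finset.sum_comm]
    refine Finset.sum_le_sum fun m hm => ?_
    rw [← Finset.sum_mul]
    refine mul_le_mul_of_nonneg_right ?_ (hr _)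
    have hmK : m ∈ KK := (Finset.mem_inter.mp hm).1
    have h := sum_sq_le (AA KK k) (fun A => cM (cQ KK A Θ) m)
      (fun κ => if κ m = none then 1 else 0) (fun κ => by
        show _ ≤ if κ m = none then (1 : ℝ) else 0
        split_ifs with h0
        · exact one_A (AA KK k) (fun A => mat KK A κ) (fun A => cM (cQ KK A Θ) m κ)
            (fun A hA A' hA' h1 h2 => mat_unique hA hA' h1 h2)
            (fun A _ => cM_abs hJ KK A Θ m κ)
            (fun A _ hn => by
              unfold cM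
              rw [if_pos h0]
              have e1 : cQ KK A Θ κ = 0 := by unfold cQ; rw [if_neg (fun h => hn h.1)]
              have e2 : ∀ s : Fin J, cQ KK A Θ (Function.update κ m (some s)) = 0 := by
                intro s; unfold cQ
                rw [if_neg (fun h => hn ((mat_update hmK κ _).mp h.1))]
              simp [e1, e2])
        · refine le_of_eq (Finset.sum_eq_zero fun A _ => ?_)
          show |cM (cQ KK A Θ) m κ| = 0
          unfold cM; rw [if_neg h0, abs_zero]) (tab f S t)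
    refine h.trans (le_of_eq ?_)
    congr 1
    rw [← hprod, ← sum_ab]
    refine Finset.sum_congr rfl fun κ _ => ?_
    by_cases h0 : κ m = none
    · rw [if_pos h0, one_mul]
      unfold ab
      refine Finset.prod_congr rfl fun h _ => ?_
      by_cases hhm : h = m
      · subst hhm; rw [h0]; simp [fac]
      · congr 2
        funext s
        unfold tab
        by_cases hS : h ∈ S
        · rw [if_pos hS, if_pos (Finset.mem_erase.mpr ⟨hhm, hS⟩)]
        · rw [if_neg hS, if_neg (fun h => hS (Finset.mem_erase.mp h).2)]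
    · rw [if_neg h0, zero_mul]
      symm
      unfold ab
      apply Finset.prod_eq_zero (Finset.mem_univ m)
      obtain ⟨s, hs⟩ := Option.ne_none_iff_exists'.mp h0
      rw [hs]
      simp [fac, tab]
  · intro h0 hh0
    refine ⟨Finset.sum_nonneg fun _ _ => sq_nonneg _, ?_⟩
    have h := sum_sq_le ((AA KK k).filter (fun A => h0 ∈ A)) (fun A => cM (cQ KK A Θ) h0)
      (fun _ => 1) (fun κ => by
        by_cases hk : κ h0 = none
        · refine one_A _ (fun A => ∃ s : Fin J, mat KK A (Function.update κ h0 (some s)))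
            (fun A => cM (cQ KK A Θ) h0 κ) ?_ (fun A _ => cM_abs hJ KK A Θ h0 κ) ?_
          · rintro A hA A' hA' ⟨s, hs⟩ ⟨s', hs'⟩
            rw [Finset.mem_filter] at hA hA'
            ext x
            have key : ∀ (B B' : Finset ι) (u u' : Fin J), B ∈ AA KK k → h0 ∈ B' →
                mat KK B (Function.update κ h0 (some u)) →
                mat KK B' (Function.update κ h0 (some u')) → x ∈ B → x ∈ B' := by
              intro B B' u u' hB hB' h1 h2 hx
              by_cases hx0 : x = h0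
              · rw [hx0]; exact hB'
              · have h3 := (h1 x (mem_AA hB x hx)).mpr hx
                rw [Function.update_of_ne hx0] at h3
                refine (h2 x (mem_AA hB x hx)).mp ?_
                rw [Function.update_of_ne hx0]; exact h3
            exact ⟨key A A' s s' hA.1 hA'.2 hs hs', key A' A s' s hA'.1 hA.2 hs' hs⟩
          · intro A hA hn
            rw [Finset.mem_filter] at hA
            unfold cM
            rw [if_pos hk]
            have e1 : cQ KK A Θ κ = 0 := by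
              unfold cQ
              rw [if_neg]
              rintro ⟨h1, -⟩
              exact ((h1 h0 hh0).mpr hA.2) hk
            have e2 : ∀ s : Fin J, cQ KK A Θ (Function.update κ h0 (some s)) = 0 := by
              intro s; unfold cQ
              rw [if_neg (fun h => hn ⟨s, h.1⟩)]
            simp [e1, e2]
        · have : ∀ A, cM (cQ KK A Θ) h0 κ = 0 := fun A => by unfold cM; rw [if_neg hk]
          simp [this]) (tab f S t)
    simp only [one_mul] at h
    rw [sum_ab, hprod] at h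
    exact h

end Pool.PP
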