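import Pool.Agent.Work.MP_b0c12c_px.QTr
import Pool.Agent.Work.MP_1ea053_nt.MER

/-! # Theorem Q, block QMT (helper64) -/

set_option autoImplicit false

namespace Pool.PP

open Finset Filter Topology

theorem QMT_prod (w : ℕ) : ∏ y : SPt w, (y : ℝ) / ((y : ℝ) - 1) =
    (Pool.Agent.Work.MP_b0c12c_nt.Vz w)⁻¹ := by
  have h1 : ∏ y : SPt w, (y : ℝ) / ((y : ℝ) - 1) = ∏ p ∈ SP w, (p : ℝ) / ((p : ℝ) - 1) :=
    Finset.prod_coe_sort (SP w) (fun p : ℕ => (p : ℝ) / ((p : ℝ) - 1))
  rw [h1]
  unfold Pool.Agent.Work.MP_b0c12c_nt.Vz SP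
  rw [← Finset.prod_inv_distrib]
  refine Finset.prod_congr rfl fun p hp => ?_
  have hp2 := (mem_filter.mp hp).2.two_le
  have hp3 : (2 : ℝ) ≤ p := by exact_mod_cast hp2
  have h2 : (p : ℝ) ≠ 0 := by linarith
  have h3 : (p : ℝ) - 1 ≠ 0 := by
    intro h
    linarith
  rw [eq_comm, inv_eq_iff_eq_inv, inv_div]
  field_simp

theorem p_QMT : Stmt_QMT := by
  have hE0 : 0 < Real.exp (-Real.eulerMascheroniConstant) := Real.exp_pos _
  have hE1 : Real.exp (-Real.eulerMascheroniConstant) < 1 := by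
    rw [Real.exp_lt_one_iff]
    have := Real.one_half_lt_eulerMascheroniConstant
    linarith
  set E : ℝ := Real.exp (-Real.eulerMascheroniConstant) with hE
  have h0 := Pool.Agent.GapTwoMER.tendsto_Vz
  rw [Pool.Agent.Work.MP_b0c12c_nt.pp_one_eq] at h0
  have hw : Tendsto wL atTop atTop := by
    unfold wL
    exact tendsto_nat_floor_atTop.comp (tendsto_id.atTop_div_const (by norm_num))
  have h1 := h0.comp hw
  have h2 := (tendsto_order.1 h1).1 (E / 2) (by rw [hE] at *; linarith)
  have h3 := (tendsto_order.1 h1).2 1 hE1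
  -- comparison of the logarithms
  have h4 : ∀ᶠ L : ℝ in atTop, Real.log L / 2 ≤ Real.log (wL L) ∧ Real.log (wL L) ≤ Real.log L ∧
      0 < Real.log (wL L) := by
    filter_upwards [eventually_ge_atTop (40000 : ℝ), hw.eventually_ge_atTop 2] with L hL hw2
    have hL0 : 0 < L := by linarith
    have hwr : (2 : ℝ) ≤ wL L := by exact_mod_cast hw2
    have a1 : L / 100 - 1 < wL L := by
      have := Nat.sub_one_lt_floor (L / 100)
      unfold wL
      exact this
    have a2 : (wL L : ℝ) ≤ L / 100 := Nat.floor_le (by positivity)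
    have a3 : L / 200 ≤ wL L := by linarith
    refine ⟨?_, Real.log_le_log (by linarith) (by linarith), Real.log_pos (by linarith)⟩
    have a4 : Real.sqrt L ≤ wL L := by
      refine le_trans ?_ a3
      rw [Real.sqrt_le_left (by positivity)]
      nlinarith
    have a5 : Real.log (Real.sqrt L) ≤ Real.log (wL L) :=
      Real.log_le_log (Real.sqrt_pos.2 hL0) a4
    rw [Real.log_sqrt hL0.le] at a5
    exact a5
  refine ⟨2 / E, ?_, ?_⟩
  · rw [le_div_iff₀ hE0]
    linarith
  · filter_upwards [h2, h3, h4, hw.eventually_ge_atTop 2] with L b2 b3 b4 b5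
    simp only [Function.comp_apply] at b2 b3
    rw [QMT_prod]
    have hV : 0 < Pool.Agent.Work.MP_b0c12c_nt.Vz (wL L) := by
      unfold Pool.Agent.Work.MP_b0c12c_nt.Vz
      apply Finset.prod_pos
      intro p hp
      have hp2 := (mem_filter.mp hp).2.two_le
      have hp3 : (2 : ℝ) ≤ p := by exact_mod_cast hp2
      rw [sub_pos, div_lt_one (by linarith)]
      linarith
    obtain ⟨c1, c2, c3⟩ := b4
    constructor
    · rw [← one_div, le_div_iff₀ hV]
      nlinarith
    · rw [inv_le_iff_one_le_mul₀ hV]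
      have d1 : E / 2 ≤ Pool.Agent.Work.MP_b0c12c_nt.Vz (wL L) * Real.log L := by
        refine b2.le.trans (mul_le_mul_of_nonneg_left c2 hV.le)
      calc (1 : ℝ) = 2 / E * (E / 2) := by field_simp
        _ ≤ 2 / E * (Pool.Agent.Work.MP_b0c12c_nt.Vz (wL L) * Real.log L) :=
          mul_le_mul_of_nonneg_left d1 (by positivity)
        _ = 2 / E * Real.log L * Pool.Agent.Work.MP_b0c12c_nt.Vz (wL L) := by ring

end Pool.PP
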