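import Pool.Agent.Work.MP_b0c12c_px.QTr

/-! # (QNW) The pointwise inequality at the integer `n` (helper78) -/

set_option autoImplicit false

namespace Pool.PP

open Finset Filter

/-- The integer `n + h` is large. -/
private theorem qnw_big {Z H2 H1 n : ℕ} (hn : Z + H2 < n) (h : SH H2 H1) :
    Z < ((n : ℤ) + h).toNat ∧ ((((n : ℤ) + h).toNat : ℕ) : ℤ) = (n : ℤ) + h := by
  have h2 := mem_Ioc.1 h.2
  obtain ⟨h3, h4⟩ := h2
  constructor
  · omega
  · omega

/-- A prime of the table is too small to divide the prime `n + h`. -/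
private theorem qnw_ndvd {Z H2 H1 n p : ℕ} (hn : Z + H2 < n) (h : SH H2 H1)
    (hq : ((n : ℤ) + h).toNat.Prime) (hp : p.Prime) (hpZ : p ≤ Z) : ¬ (p : ℤ) ∣ (n : ℤ) + h := by
  obtain ⟨h1, h2⟩ := qnw_big hn h
  rw [← h2]
  intro h3
  have h4 : p ∣ ((n : ℤ) + h).toNat := by exact_mod_cast h3
  have h5 : p = ((n : ℤ) + h).toNat := (Nat.prime_dvd_prime_iff_eq hp hq).1 h4
  omega

/-- The primes after `n`. -/
private theorem qnw_card {Z H2 H1 n : ℕ} (hn : Z + H2 < n) :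
    ((univ.filter (fun h : SH H2 H1 => ((n : ℤ) + h).toNat.Prime)) \ KQ H2 H1).card =
      ((Ioc n (n + H1)).filter Nat.Prime).card := by
  refine Finset.card_bij (fun h _ => ((n : ℤ) + h).toNat) ?_ ?_ ?_
  · intro h hh
    simp only [KQ, Finset.mem_sdiff, mem_filter, mem_univ, true_and, not_le] at hh
    obtain ⟨h3, h4⟩ := mem_Ioc.1 h.2
    rw [mem_filter, mem_Ioc]
    refine ⟨⟨?_, ?_⟩, hh.1⟩
    · have := hh.2
      omega
    · omega
  · intro a _ b _ hab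
    have h1 := (qnw_big hn a).2
    have h2 := (qnw_big hn b).2
    apply Subtype.ext
    have h3 : ((((n : ℤ) + a).toNat : ℕ) : ℤ) = ((((n : ℤ) + b).toNat : ℕ) : ℤ) := by
      exact_mod_cast hab
    rw [h1, h2] at h3
    omega
  · intro p hp
    rw [mem_filter, mem_Ioc] at hp
    obtain ⟨⟨h1, h2⟩, h3⟩ := hp
    have h4 : ((p : ℤ) - n) ∈ Ioc (-(H2 : ℤ)) (H1 : ℤ) := by
      rw [mem_Ioc]
      constructor <;> omega
    refine ⟨⟨(p : ℤ) - n, h4⟩, ?_, ?_⟩
    · simp only [KQ, Finset.mem_sdiff, mem_filter, mem_univ, true_and, not_le]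
      refine ⟨?_, by omega⟩
      have h5 : ((n : ℤ) + ((p : ℤ) - n)).toNat = p := by omega
      rw [h5]
      exact h3
    · show ((n : ℤ) + ((p : ℤ) - n)).toNat = p
      omega

/-- The primes before `n`. -/
private theorem qnw_emp {Z H2 H1 n : ℕ} (hn : Z + H2 < n) (hH : H2 ≤ n) :
    (univ.filter (fun h : SH H2 H1 => ((n : ℤ) + h).toNat.Prime)) ∩ KQ H2 H1 = ∅ ↔
      ∀ p ∈ Ioc (n - H2) n, ¬ p.Prime := by
  rw [Finset.eq_empty_iff_forall_notMem]
  constructor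
  · intro h p hp hpp
    rw [mem_Ioc] at hp
    have h4 : ((p : ℤ) - n) ∈ Ioc (-(H2 : ℤ)) (H1 : ℤ) := by
      rw [mem_Ioc]
      constructor <;> omega
    apply h ⟨(p : ℤ) - n, h4⟩
    simp only [KQ, Finset.mem_inter, mem_filter, mem_univ, true_and]
    refine ⟨?_, by omega⟩
    have h5 : ((n : ℤ) + ((p : ℤ) - n)).toNat = p := by omega
    rw [h5]
    exact hpp
  · intro h a ha
    simp only [KQ, Finset.mem_inter, mem_filter, mem_univ, true_and] at ha
    obtain ⟨h3, h4⟩ := mem_Ioc.1 a.2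
    refine h _ ?_ ha.1
    rw [mem_Ioc]
    have := ha.2
    constructor <;> omega

theorem p_QNW (hQPW : Stmt_QPW) (hQIN : Stmt_QIN) (hFRE : Stmt_FRE) : Stmt_QNW := by
  classical
  intro w z I J k m Θ H2 H1 n hz hwz hJ hJI hm hH2 hBlk hn
  obtain ⟨hF1, hF2, hF3⟩ := hFRE (LPt z I) (dQ 0 z I) (bQ z I) I hBlk
  have hzZ : z ≤ z ^ 2 ^ I := by
    calc z = z ^ 1 := (pow_one z).symm
      _ ≤ z ^ 2 ^ I := Nat.pow_le_pow_right (by omega) Nat.one_le_two_pow
  have hPS : univ.filter (fun h : SH H2 H1 => ((n : ℤ) + h).toNat.Prime) ⊆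
      Sset (tb (prQ w z I) (fun h : SH H2 H1 => (h : ℤ)) n) := by
    intro h hh
    rw [mem_filter] at hh
    simp only [Sset, mem_filter, mem_univ, true_and]
    intro y hy
    simp only [tb, mem_filter, mem_univ, true_and, prQ, Sum.elim_inl] at hy
    have hy2 := y.2
    simp only [SP, mem_filter, mem_Icc] at hy2
    exact qnw_ndvd hn h hh.2 hy2.2 (by omega) hy
  have hPt : ∀ h ∈ univ.filter (fun h : SH H2 H1 => ((n : ℤ) + h).toNat.Prime),
      lg (tb (prQ w z I) (fun h : SH H2 H1 => (h : ℤ)) n) h = ∅ := by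
    intro h hh
    rw [mem_filter] at hh
    rw [Finset.eq_empty_iff_forall_notMem]
    intro x hx
    simp only [lg, tb, mem_filter, mem_univ, true_and, prQ, Sum.elim_inr] at hx
    have hx2 := x.2
    simp only [LP, mem_filter, mem_Ioc] at hx2
    exact qnw_ndvd hn h hh.2 hx2.2 hx2.1.2 hx
  have key := hQPW (LPt z I) (SH H2 H1) J (fQ z I J) (rQ z I)
    (Sset (tb (prQ w z I) (fun h : SH H2 H1 => (h : ℤ)) n)) (KQ H2 H1)
    (univ.filter (fun h : SH H2 H1 => ((n : ℤ) + h).toNat.Prime)) k m Θ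
    (lg (tb (prQ w z I) (fun h : SH H2 H1 => (h : ℤ)) n)) (by omega) hm
    (fun s => hF1 s (by have := s.2; omega)) hF2 hF3 hPS hPt
  have hset : (univ \ KQ H2 H1).filter (fun h0 : SH H2 H1 => ((n : ℤ) + h0).toNat.Prime) =
      (univ.filter (fun h : SH H2 H1 => ((n : ℤ) + h).toNat.Prime)) \ KQ H2 H1 := by
    ext h
    simp only [Finset.mem_sdiff, mem_filter, mem_univ, true_and]
    tauto
  have hsum : ∑ h0 ∈ (univ \ KQ H2 H1).filter
        (fun h0 : SH H2 H1 => ((n : ℤ) + h0).toNat.Prime),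
        prN w z I J k Θ H2 H1 h0 ((n : ℤ) + h0).toNat =
      ∑ h0 ∈ (univ.filter (fun h : SH H2 H1 => ((n : ℤ) + h).toNat.Prime)) \ KQ H2 H1,
        PrQ (fQ z I J) (Sset (tb (prQ w z I) (fun h : SH H2 H1 => (h : ℤ)) n)) (KQ H2 H1) k Θ h0
          (lg (tb (prQ w z I) (fun h : SH H2 H1 => (h : ℤ)) n)) := by
    rw [hset]
    refine Finset.sum_congr rfl ?_
    intro h hh
    rw [Finset.mem_sdiff, mem_filter] at hh
    exact hQIN w z I J k Θ H2 H1 h n _ hz hwz (qnw_big hn h).2.symm hh.1.2 (qnw_big hn h).1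
  have hc := qnw_card (H1 := H1) hn
  have he := qnw_emp (H1 := H1) hn hH2
  rw [hsum]
  refine key.trans (le_of_eq ?_)
  have hiff : ((univ.filter (fun h : SH H2 H1 => ((n : ℤ) + h).toNat.Prime)) ∩ KQ H2 H1 = ∅ ∧
      m ≤ ((univ.filter (fun h : SH H2 H1 => ((n : ℤ) + h).toNat.Prime)) \ KQ H2 H1).card) ↔
      ((∀ p ∈ Ioc (n - H2) n, ¬ p.Prime) ∧ m ≤ ((Ioc n (n + H1)).filter Nat.Prime).card) := by
    rw [he, hc]
  by_cases hcond : (∀ p ∈ Ioc (n - H2) n, ¬ p.Prime) ∧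
      m ≤ ((Ioc n (n + H1)).filter Nat.Prime).card
  · rw [if_pos hcond, if_pos (hiff.2 hcond)]
    rfl
  · rw [if_neg hcond, if_neg (fun h => hcond (hiff.1 h))]

end Pool.PP
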