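import Pool.Agent.Work.MP_b0c12c_px.QTr
import Pool.Agent.Work.PS.PAIR

/-! # Block QPA: the number of close pairs (helper97)

From the upper bound sieve `Pool.Agent.PS.PAIR.pairCount_bound`. -/

set_option autoImplicit false

namespace Pool.PP

open Finset Filter

open Pool.Agent.PS.PAIR (pairCount pairCount_bound card_modEq)

/-- `∑_{d | h} 1/d`. -/
noncomputable def QPA_S (h : ℕ) : ℝ := ∑ d ∈ h.divisors, (1 : ℝ) / d

lemma QPA_S_nonneg (h : ℕ) : 0 ≤ QPA_S h := Finset.sum_nonneg fun _ _ => by positivity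

lemma QPA_sq (n : ℕ) : ∑ d ∈ Icc 1 n, (1 : ℝ) / ((d : ℝ) * d) ≤ 2 := by
  have h := sum_Ioo_inv_sq_le (α := ℝ) 0 (n + 1)
  have e : Ioo 0 (n + 1) = Icc 1 n := by ext x; simp only [mem_Ioo, mem_Icc]; omega
  rw [e] at h
  refine le_trans (le_of_eq ?_) (h.trans (by norm_num))
  refine Finset.sum_congr rfl fun d _ => ?_
  rw [one_div, pow_two]

lemma QPA_har (n : ℕ) : ∑ d ∈ Icc 1 n, (1 : ℝ) / (d : ℝ) ≤ 1 + Real.log n := by
  have h := harmonic_le_one_add_log n
  simp_rw [harmonic_eq_sum_Icc, Rat.cast_sum, Rat.cast_inv, Rat.cast_natCast] at h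
  refine le_trans (le_of_eq ?_) h
  exact Finset.sum_congr rfl fun d _ => one_div _

lemma QPA_dvd (a l d : ℕ) (hd : 0 < d) :
    (((Ioc a (a + l)).filter fun h => d ∣ h).card : ℝ) ≤ l / d + 1 := by
  have h := card_modEq a l d 0 hd
  have e : ((Ioc a (a + l)).filter fun h => d ∣ h) =
      ((Ioc a (a + l)).filter fun x => x ≡ 0 [MOD d]) := by
    refine Finset.filter_congr fun x _ => ?_
    exact (Nat.modEq_zero_iff_dvd).symm
  rw [e]
  have := (abs_le.1 h).2
  linarith

lemma QPA_sum (a l n : ℕ) (h : a + l ≤ n) :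
    ∑ h ∈ Ioc a (a + l), QPA_S h ≤ 2 * l + (1 + Real.log n) := by
  have h1 : ∀ h ∈ Ioc a (a + l), QPA_S h = ∑ d ∈ Icc 1 n, if d ∣ h then (1 : ℝ) / d else 0 := by
    intro x hx
    rw [mem_Ioc] at hx
    unfold QPA_S
    rw [← Finset.sum_filter]
    refine Finset.sum_congr ?_ fun _ _ => rfl
    ext d
    simp only [Nat.mem_divisors, mem_filter, mem_Icc]
    constructor
    · rintro ⟨h2, h3⟩
      have := Nat.le_of_dvd (by omega) h2
      have h4 : 0 < d := Nat.pos_of_dvd_of_pos h2 (by omega)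
      exact ⟨⟨h4, by omega⟩, h2⟩
    · rintro ⟨_, h2⟩
      exact ⟨h2, by omega⟩
  rw [Finset.sum_congr rfl h1, Finset.sum_comm]
  have h2 : ∀ d ∈ Icc 1 n, (∑ h ∈ Ioc a (a + l), if d ∣ h then (1 : ℝ) / d else 0) ≤
      l * ((1 : ℝ) / ((d : ℝ) * d)) + (1 : ℝ) / d := by
    intro d hd
    rw [mem_Icc] at hd
    have hd0 : (0 : ℝ) < d := by exact_mod_cast hd.1
    rw [← Finset.sum_filter, Finset.sum_const, nsmul_eq_mul]
    have h3 := mul_le_mul_of_nonneg_right (QPA_dvd a l d hd.1) (by positivity : (0 : ℝ) ≤ 1 / d)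
    refine h3.trans (le_of_eq ?_)
    field_simp
  refine (Finset.sum_le_sum h2).trans ?_
  rw [Finset.sum_add_distrib, ← Finset.mul_sum]
  have h4 := QPA_sq n
  have h5 := QPA_har n
  have h6 := mul_le_mul_of_nonneg_left h4 (Nat.cast_nonneg l : (0 : ℝ) ≤ l)
  linarith

lemma QPA_pair (A N h : ℕ) (hA : 2 ≤ A) (hN : 2 ≤ N) (hh : 1 ≤ h) :
    (pairCount A N h : ℝ) ≤ 8224 * QPA_S h * (N / (Real.log N) ^ 2) := by
  rcases Nat.even_or_odd h with he | ho
  · have h1 := pairCount_bound A N h hN he (by omega)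
    unfold Pool.Agent.Work.MP_484fb8_nt.FF at h1
    exact h1
  · have h0 : pairCount A N h = 0 := by
      unfold pairCount
      rw [Finset.card_eq_zero, Finset.filter_eq_empty_iff]
      rintro x hx ⟨hp, hq⟩
      rw [mem_Ioc] at hx
      have hxo := hp.odd_of_ne_two (by omega)
      have he : Even (x + h) := hxo.add_odd ho
      have := hq.odd_of_ne_two (by omega)
      exact (Nat.not_even_iff_odd.2 this) he
    rw [h0]
    have := QPA_S_nonneg h
    push_cast
    positivity

/-- The pairs, as a sum over the shifts. -/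
lemma QPA_card (X H1 l : ℕ) (hl : l ≤ H1) (hX : H1 ≤ X) :
    (paQ X H1 l).card ≤ ∑ j ∈ Ico 1 l,
      (pairCount X (X + H1) j + pairCount (X - (H1 - j)) (X + H1) (H1 - j)) := by
  classical
  have hsub : paQ X H1 l ⊆ (Ico 1 l).biUnion (fun j =>
      ((Ioc X (X + (X + H1))).filter fun x => x.Prime ∧ (x + j).Prime) ∪
      ((Ioc (X - (H1 - j)) (X - (H1 - j) + (X + H1))).filter
        fun x => x.Prime ∧ (x + (H1 - j)).Prime).image (fun x => x + (H1 - j))) := by
    intro p hp
    unfold paQ at hp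
    rw [mem_filter, mem_filter, mem_Ioc] at hp
    obtain ⟨⟨⟨h1, h2⟩, h3⟩, j, hj, h4⟩ := hp
    rw [mem_biUnion]
    refine ⟨j, hj, ?_⟩
    rw [mem_Ico] at hj
    rw [mem_union]
    rcases h4 with h4 | h4
    · left
      rw [mem_filter, mem_Ioc]
      exact ⟨⟨h1, by omega⟩, h3, h4⟩
    · right
      rw [mem_image]
      refine ⟨p + j - H1, ?_, by omega⟩
      rw [mem_filter, mem_Ioc]
      refine ⟨⟨by omega, by omega⟩, h4, ?_⟩
      have e : p + j - H1 + (H1 - j) = p := by omega
      rw [e]; exact h3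
  refine (card_le_card hsub).trans (card_biUnion_le.trans (Finset.sum_le_sum fun j hj => ?_))
  refine (card_union_le _ _).trans (add_le_add (le_of_eq rfl) ?_)
  exact card_image_le

lemma QPA_S1 (l n : ℕ) (h : l ≤ n) : ∑ j ∈ Ico 1 l, QPA_S j ≤ 2 * l + (1 + Real.log n) := by
  refine le_trans ?_ (QPA_sum 0 l n (by omega))
  refine Finset.sum_le_sum_of_subset_of_nonneg ?_ fun _ _ _ => QPA_S_nonneg _
  intro x hx
  rw [mem_Ico] at hx
  rw [mem_Ioc]
  omega

lemma QPA_S2 (H1 l : ℕ) (h : l ≤ H1) :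
    ∑ j ∈ Ico 1 l, QPA_S (H1 - j) ≤ 2 * l + (1 + Real.log H1) := by
  classical
  refine le_trans ?_ (QPA_sum (H1 - l) l H1 (by omega))
  have hinj : ∀ x ∈ Ico 1 l, ∀ y ∈ Ico 1 l, H1 - x = H1 - y → x = y := by
    intro x hx y hy hxy
    rw [mem_Ico] at hx hy
    omega
  rw [← Finset.sum_image (f := QPA_S) (g := fun j => H1 - j) hinj]
  refine Finset.sum_le_sum_of_subset_of_nonneg ?_ fun _ _ _ => QPA_S_nonneg _
  intro x hx
  rw [mem_image] at hx
  obtain ⟨j, hj, rfl⟩ := hx
  rw [mem_Ico] at hj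
  rw [mem_Ioc]
  omega

theorem p_QPA : Stmt_QPA := by
  intro b hb
  refine ⟨98688, by norm_num, fun η hη => ?_⟩
  have hlog : Tendsto (fun X : ℕ => Real.log (X : ℝ)) atTop atTop :=
    Real.tendsto_log_atTop.comp tendsto_natCast_atTop_atTop
  -- b log X + 2 ≤ X
  have ev1 : ∀ᶠ X : ℕ in atTop, b * Real.log X + 2 ≤ (X : ℝ) := by
    have h1 : Tendsto (fun x : ℝ => Real.log x / x) atTop (nhds 0) := by
      have := Real.isLittleO_log_id_atTop
      have h2 := this.tendsto_div_nhds_zero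
      simpa using h2
    have h2 : ∀ᶠ x : ℝ in atTop, b * Real.log x + 2 ≤ x := by
      have h3 : ∀ᶠ x : ℝ in atTop, Real.log x / x < 1 / (2 * b) :=
        h1.eventually_lt_const (by positivity)
      filter_upwards [h3, eventually_ge_atTop 4] with x hx hx4
      have hx0 : 0 < x := by linarith
      rw [div_lt_div_iff₀ hx0 (by positivity)] at hx
      nlinarith
    exact tendsto_natCast_atTop_atTop.eventually h2
  -- 1 + log (b log X + 1) ≤ η log X
  have ev2 : ∀ᶠ X : ℕ in atTop, 1 + Real.log (b * Real.log X + 1) ≤ η * Real.log X := by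
    have h2 : ∀ᶠ L : ℝ in atTop, 1 + Real.log (b * L + 1) ≤ η * L := by
      have h1 : Tendsto (fun x : ℝ => Real.log x / x) atTop (nhds 0) := by
        have := Real.isLittleO_log_id_atTop
        have h2 := this.tendsto_div_nhds_zero
        simpa using h2
      have h4 : Tendsto (fun L : ℝ => b * L + 1) atTop atTop :=
        tendsto_atTop_add_const_right _ _ (tendsto_id.const_mul_atTop hb)
      have h5 := h4.eventually (h1.eventually_lt_const (by positivity : 0 < η / (4 * b)))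
      filter_upwards [h5, eventually_ge_atTop (2 / η), eventually_ge_atTop (1 / b),
        eventually_gt_atTop 0] with L hL h6 h7 h8
      have h9 : 0 < b * L + 1 := by positivity
      rw [div_lt_div_iff₀ h9 (by positivity)] at hL
      have h10 : 1 ≤ b * L := by
        rw [div_le_iff₀ hb] at h7
        linarith
      have h11 : 2 ≤ η * L := by
        rw [div_le_iff₀ hη] at h6
        linarith
      have h12 : Real.log (b * L + 1) * (4 * b) < η * (2 * (b * L)) := by
        refine lt_of_lt_of_le hL ?_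
        exact mul_le_mul_of_nonneg_left (by linarith) hη.le
      have h13 : Real.log (b * L + 1) * 4 < η * (2 * L) := by
        have : Real.log (b * L + 1) * 4 * b < η * (2 * L) * b := by nlinarith
        exact lt_of_mul_lt_mul_right this hb.le
      linarith
    exact hlog.eventually h2
  have ev3 : ∀ᶠ X : ℕ in atTop, 1 < Real.log (X : ℝ) := hlog.eventually (eventually_gt_atTop 1)
  filter_upwards [ev1, ev2, ev3, eventually_ge_atTop 4] with X hX1 hX2 hX3 hX4 H1 l hH hl hlH
  set L : ℝ := Real.log X with hL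
  have hXpos : (0 : ℝ) < X := by exact_mod_cast (by omega : 0 < X)
  have hHX : H1 + 2 ≤ X := by
    have h1 : (H1 : ℝ) + 2 ≤ X := by linarith
    exact_mod_cast h1
  rcases Nat.eq_zero_or_pos l with hl0 | hl0
  · have : paQ X H1 l = ∅ := by
      unfold paQ
      rw [Finset.filter_eq_empty_iff]
      rintro p _ ⟨j, hj, _⟩
      rw [hl0, mem_Ico] at hj
      omega
    rw [this]
    have : (0 : ℝ) < L := by linarith
    simp only [card_empty, Nat.cast_zero]
    positivity
  have hc := QPA_card X H1 l hlH (by omega)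
  have hNX : X ≤ X + H1 := by omega
  set N : ℕ := X + H1 with hN
  have hQ0 : (N : ℝ) / (Real.log N) ^ 2 ≤ 2 * X / L ^ 2 := by
    have h1 : L ≤ Real.log N := Real.log_le_log hXpos (by exact_mod_cast hNX)
    have h2 : L ^ 2 ≤ Real.log N ^ 2 := pow_le_pow_left₀ (by linarith) h1 2
    have h3 : (N : ℝ) ≤ 2 * X := by
      rw [hN]; push_cast
      have : (H1 : ℝ) ≤ X := by exact_mod_cast (by omega : H1 ≤ X)
      linarith
    have h4 : (0 : ℝ) < L ^ 2 := by
      have : (0 : ℝ) < L := by linarith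
      positivity
    exact div_le_div₀ (by positivity) h3 h4 h2
  have hb1 : ∀ j ∈ Ico 1 l, ((pairCount X N j + pairCount (X - (H1 - j)) N (H1 - j) : ℕ) : ℝ) ≤
      (QPA_S j + QPA_S (H1 - j)) * (8224 * (2 * X / L ^ 2)) := by
    intro j hj
    rw [mem_Ico] at hj
    have h1 := QPA_pair X N j (by omega) (by omega) hj.1
    have h2 := QPA_pair (X - (H1 - j)) N (H1 - j) (by omega) (by omega) (by omega)
    have h3 := mul_le_mul_of_nonneg_left hQ0 (QPA_S_nonneg j)
    have h4 := mul_le_mul_of_nonneg_left hQ0 (QPA_S_nonneg (H1 - j))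
    push_cast
    nlinarith
  have hsum : ((∑ j ∈ Ico 1 l, (pairCount X N j + pairCount (X - (H1 - j)) N (H1 - j)) : ℕ) : ℝ) ≤
      (∑ j ∈ Ico 1 l, (QPA_S j + QPA_S (H1 - j))) * (8224 * (2 * X / L ^ 2)) := by
    rw [Finset.sum_mul, Nat.cast_sum]
    exact Finset.sum_le_sum hb1
  have hc' : ((paQ X H1 l).card : ℝ) ≤
      ((∑ j ∈ Ico 1 l, (pairCount X N j + pairCount (X - (H1 - j)) N (H1 - j)) : ℕ) : ℝ) := by
    exact_mod_cast hc
  have hlogH : Real.log H1 ≤ Real.log (b * L + 1) := by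
    have hH0 : (0 : ℝ) < H1 := by exact_mod_cast (by omega : 0 < H1)
    exact Real.log_le_log hH0 (by linarith)
  have hS : ∑ j ∈ Ico 1 l, (QPA_S j + QPA_S (H1 - j)) ≤ 6 * (η * L) := by
    rw [Finset.sum_add_distrib]
    have h1 := QPA_S1 l H1 hlH
    have h2 := QPA_S2 H1 l hlH
    linarith
  have hP : (0 : ℝ) ≤ 8224 * (2 * X / L ^ 2) := by positivity
  have hfin := mul_le_mul_of_nonneg_right hS hP
  have hLpos : (0 : ℝ) < L := by linarith
  have e : 6 * (η * L) * (8224 * (2 * X / L ^ 2)) = 98688 * η * (X / L) := by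
    field_simp
    ring
  rw [e] at hfin
  exact hc'.trans (hsum.trans hfin)

end Pool.PP
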