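import Pool.Agent.Work.MP_b0c12c_px.QTr

/-! # Theorem Q, block QPM (helper64) -/

set_option autoImplicit false

namespace Pool.PP

theorem QPM_exp {J : ℕ} (hJ : 4 ≤ J) :
    (J : ℝ) * 2 ^ J * Real.exp (1 - 3 * J) ≤ 1 / 4 := by
  have h1 : (J : ℝ) ≤ 2 ^ J := by exact_mod_cast Nat.lt_two_pow_self.le
  have h2 : (4 : ℝ) ≤ Real.exp 2 := by
    have h := Real.add_one_le_exp (1 : ℝ)
    have h3 : Real.exp 2 = Real.exp 1 * Real.exp 1 := by rw [← Real.exp_add]; norm_num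
    rw [h3]
    nlinarith
  have h3 : (J : ℝ) * 2 ^ J ≤ Real.exp (2 * J) := by
    calc (J : ℝ) * 2 ^ J ≤ 2 ^ J * 2 ^ J := mul_le_mul_of_nonneg_right h1 (by positivity)
      _ = 4 ^ J := by rw [← mul_pow]; norm_num
      _ ≤ (Real.exp 2) ^ J := pow_le_pow_left₀ (by norm_num) h2 J
      _ = Real.exp (2 * J) := by rw [← Real.exp_nat_mul]; ring_nf
  have hJr : (4 : ℝ) ≤ J := by exact_mod_cast hJ
  calc (J : ℝ) * 2 ^ J * Real.exp (1 - 3 * J) ≤ Real.exp (2 * J) * Real.exp (1 - 3 * J) :=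
        mul_le_mul_of_nonneg_right h3 (Real.exp_pos _).le
    _ = Real.exp (1 - J) := by rw [← Real.exp_add]; ring_nf
    _ ≤ Real.exp (-3) := Real.exp_le_exp.2 (by linarith)
    _ ≤ 1 / 4 := by
        rw [Real.exp_neg, ← one_div]
        have := Real.add_one_le_exp (3 : ℝ)
        exact one_div_le_one_div_of_le (by norm_num) (by linarith)

theorem p_QPM : Stmt_QPM := by
  intro C c m hC hc
  obtain ⟨J, hJ⟩ := exists_nat_ge (max (8 * C) (max 4 (32 * C * ((m : ℝ) + 1) / c)))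
  have hJ1 : 8 * C ≤ J := (le_max_left _ _).trans hJ
  have hJ2 : (4 : ℝ) ≤ J := (le_max_left _ _).trans ((le_max_right _ _).trans hJ)
  have hJ3 : 32 * C * ((m : ℝ) + 1) / c ≤ J :=
    (le_max_right _ _).trans ((le_max_right _ _).trans hJ)
  have hJn : 4 ≤ J := by exact_mod_cast hJ2
  have hC0 : 0 < C := by linarith
  have hp : (J : ℝ) ≤ 2 ^ J := by exact_mod_cast Nat.lt_two_pow_self.le
  have hp0 : (0 : ℝ) < 2 ^ J := by positivity
  set x : ℝ := 2 ^ J / (4 * C) with hx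
  have hx2 : 2 ≤ x := by
    rw [hx, le_div_iff₀ (by positivity)]
    linarith
  have hf1 : (⌊x⌋₊ : ℝ) ≤ x := Nat.floor_le (by linarith)
  have hf2 : x - 1 < ⌊x⌋₊ := Nat.sub_one_lt_floor x
  have hf3 : 1 ≤ ⌊x⌋₊ := Nat.le_floor (by norm_num; linarith)
  have hk : ((⌊x⌋₊ - 1 : ℕ) : ℝ) + 1 = ⌊x⌋₊ := by
    have : (⌊x⌋₊ - 1 : ℕ) + 1 = ⌊x⌋₊ := by omega
    exact_mod_cast this
  have hΘ : ((4 * J : ℕ) : ℝ) = 4 * J := by push_cast; ring
  have he : 1 - 3 * ((4 * J : ℕ) : ℝ) / 4 = 1 - 3 * J := by rw [hΘ]; ring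
  refine ⟨J, ⌊x⌋₊ - 1, 4 * J, by omega, by omega, by linarith, ?_, ?_, ?_, ?_⟩
  · rw [hk, hΘ, div_le_iff₀ hp0]
    calc C * (⌊x⌋₊ : ℝ) * J ≤ C * x * J := by gcongr
      _ = 4 * J / 16 * 2 ^ J := by rw [hx]; field_simp; ring
  · rw [he]
    calc Real.exp (1 - 3 * J) ≤ Real.exp (-1) := Real.exp_le_exp.2 (by linarith)
      _ ≤ 1 / 2 := by
        rw [Real.exp_neg, ← one_div]
        have := Real.add_one_le_exp (1 : ℝ)
        exact one_div_le_one_div_of_le (by norm_num) (by linarith)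
  · rw [hk, he, hΘ]
    calc C * (4 * J) * Real.exp (1 - 3 * J) * (⌊x⌋₊ : ℝ)
        ≤ C * (4 * J) * Real.exp (1 - 3 * J) * x := by gcongr
      _ = J * 2 ^ J * Real.exp (1 - 3 * J) := by rw [hx]; field_simp
      _ ≤ 1 / 4 := QPM_exp hJn
  · rw [hk, hΘ]
    have h1 : x / 2 ≤ (⌊x⌋₊ : ℝ) := by linarith
    have h2 : (m : ℝ) + 1 ≤ c * J / (32 * C) := by
      rw [div_le_iff₀ hc] at hJ3
      rw [le_div_iff₀ (by positivity)]
      linarith
    have hJ0 : (0 : ℝ) < J := by linarith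
    calc (m : ℝ) + 1 ≤ c * J / (32 * C) := h2
      _ = c * (x / 2 * J ^ 2 / (2 ^ J * (4 * J))) := by rw [hx]; field_simp; ring
      _ ≤ c * ((⌊x⌋₊ : ℝ) * J ^ 2 / (2 ^ J * (4 * J))) := by gcongr

end Pool.PP
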