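import Pool.Agent.Work.MP_b0c12c_px.QTr

set_option autoImplicit false

namespace Pool.PP

open Finset

/-- Extension of a choice by `none` at the site `h0`. -/
def QPS_ex {ι β : Type} [DecidableEq ι] (h0 : ι) (κ : {h : ι // h ≠ h0} → Option β) (h : ι) :
    Option β := if H : h ≠ h0 then κ ⟨h, H⟩ else none

theorem QPS_ex_ne {ι β : Type} [DecidableEq ι] (h0 : ι) (κ : {h : ι // h ≠ h0} → Option β)
    (h : {h : ι // h ≠ h0}) : QPS_ex h0 κ h = κ h := by
  unfold QPS_ex
  rw [dif_pos h.2]

theorem QPS_ex_eq {ι β : Type} [DecidableEq ι] (h0 : ι) (κ : {h : ι // h ≠ h0} → Option β) :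
    QPS_ex h0 κ h0 = none := by
  unfold QPS_ex
  rw [dif_neg (by simp)]

/-- **Block QPS.** -/
theorem p_QPS : Stmt_QPS := by
  intro ι _ _ J c h0 hc
  refine ⟨fun G => ?_, fun κ => ?_⟩
  · unfold PF
    rw [← (Equiv.funSplitAt h0 (Option (Fin J))).symm.sum_comp, Fintype.sum_prod_type]
    rw [Fintype.sum_eq_single (none : Option (Fin J))]
    · refine Fintype.sum_congr _ _ fun κ => ?_
      have e : (Equiv.funSplitAt h0 (Option (Fin J))).symm (none, κ) = QPS_ex h0 κ := by
        funext h
        by_cases H : h = h0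
        · subst H
          rw [QPS_ex_eq]
          simp [Equiv.funSplitAt, Equiv.piSplitAt]
        · have := QPS_ex_ne h0 κ ⟨h, H⟩
          rw [this]
          simp [Equiv.funSplitAt, Equiv.piSplitAt, H]
      rw [e]
      change c (QPS_ex h0 κ) * _ = c (QPS_ex h0 κ) * _
      congr 1
      rw [Fintype.prod_eq_mul_prod_subtype_ne _ h0, QPS_ex_eq]
      simp only [fac, one_mul, QPS_ex_ne]
    · intro b hb
      refine Finset.sum_eq_zero fun κ _ => ?_
      rw [hc, zero_mul]
      simpa [Equiv.funSplitAt, Equiv.piSplitAt] using hb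
  · change lev (QPS_ex h0 κ) = lev κ
    unfold lev
    have := Fintype.sum_eq_add_sum_subtype_ne (fun h => lev1 (QPS_ex h0 κ h)) h0
    rw [this, QPS_ex_eq]
    simp only [lev1, zero_add, QPS_ex_ne]

end Pool.PP
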