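import Pool.Agent.Work.MP_b0c12c_px.QLoc

/-! # Block QPW (helper24) -/

set_option autoImplicit false

namespace Pool.PP

open Finset

theorem p_QPW (h1 : Stmt_RID) : Stmt_QPW := by
  intro π ι _ _ _ _ J f r S KK P k m Θ t hJ hm hf hr0 hr hPS hPt
  classical
  set W : Finset ι → ℝ := fun A => PF (cQ KK A Θ) (tab f S t) ^ 2 with hW
  have hW0 : ∀ A, 0 ≤ W A := fun A => sq_nonneg _
  have hOm : OmQ f S KK k Θ t = ∑ A ∈ AA KK k, W A := rfl
  have hOm0 : 0 ≤ ∑ A ∈ AA KK k, W A := Finset.sum_nonneg fun A _ => hW0 A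
  have hG : ∀ h ∈ P, ∀ s, tab f S t h s = 1 := by
    intro h hh s
    simp [tab, hPS hh, hPt h hh, hf s]
  have hR : ∀ h ∈ P, ∀ A, PF (cM (cQ KK A Θ) h) (tab f S t) ^ 2 = W A := by
    intro h hh A
    show _ = PF (cQ KK A Θ) (tab f S t) ^ 2
    rw [h1 ι J (cQ KK A Θ) h (tab f S t) (hG h hh)]
  -- the sum over the primes
  have hsum : ∑ h0 ∈ P \ KK, PrQ f S KK k Θ h0 t =
      ∑ A ∈ AA KK k, ((A ∩ (P \ KK)).card : ℝ) * W A := by
    have e1 : ∑ h0 ∈ P \ KK, PrQ f S KK k Θ h0 t =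
        ∑ h0 ∈ P \ KK, ∑ A ∈ AA KK k, if h0 ∈ A then W A else 0 := by
      refine Finset.sum_congr rfl fun h hh => ?_
      have hhP : h ∈ P := (Finset.mem_sdiff.1 hh).1
      unfold PrQ
      rw [Finset.sum_filter]
      refine Finset.sum_congr rfl fun A _ => ?_
      rw [hR h hhP A]
    rw [e1, Finset.sum_comm]
    refine Finset.sum_congr rfl fun A _ => ?_
    rw [← Finset.sum_filter, Finset.sum_const, nsmul_eq_mul]
    congr 2
    rw [Finset.inter_comm, ← Finset.filter_mem_eq_inter]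
  have hAk : ∀ A ∈ AA KK k, A.card = k := by
    intro A hA
    exact (Finset.mem_powersetCard.1 hA).2
  have hle1 : ∑ h0 ∈ P \ KK, PrQ f S KK k Θ h0 t ≤ k * ∑ A ∈ AA KK k, W A := by
    rw [hsum, Finset.mul_sum]
    refine Finset.sum_le_sum fun A hA => ?_
    have : ((A ∩ (P \ KK)).card : ℝ) ≤ k := by
      exact_mod_cast (Finset.card_le_card Finset.inter_subset_left).trans (hAk A hA).le
    exact mul_le_mul_of_nonneg_right this (hW0 A)
  have hle2 : ∑ h0 ∈ P \ KK, PrQ f S KK k Θ h0 t ≤ ((P \ KK).card : ℝ) * ∑ A ∈ AA KK k, W A := by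
    rw [hsum, Finset.mul_sum]
    refine Finset.sum_le_sum fun A hA => ?_
    have : ((A ∩ (P \ KK)).card : ℝ) ≤ ((P \ KK).card : ℝ) := by
      exact_mod_cast Finset.card_le_card Finset.inter_subset_right
    exact mul_le_mul_of_nonneg_right this (hW0 A)
  -- the killed sites
  have hB : ((P ∩ KK).card : ℝ) * ∑ A ∈ AA KK k, W A ≤ BdQ f r S KK k Θ t := by
    unfold BdQ
    rw [Finset.mul_sum]
    refine Finset.sum_le_sum fun A _ => ?_
    have hsub : P ∩ KK ⊆ KK ∩ S := by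
      intro h hh
      rw [Finset.mem_inter] at hh ⊢
      exact ⟨hh.2, hPS hh.1⟩
    calc ((P ∩ KK).card : ℝ) * W A = ∑ h ∈ P ∩ KK,
          PF (cM (cQ KK A Θ) h) (tab f S t) ^ 2 * r (t h) := by
          rw [Finset.sum_congr rfl (g := fun _ => W A)]
          · rw [Finset.sum_const, nsmul_eq_mul]
          · intro h hh
            have hhP : h ∈ P := (Finset.mem_inter.1 hh).1
            rw [hR h hhP A, hPt h hhP, hr0, mul_one]
      _ ≤ _ := Finset.sum_le_sum_of_subset_of_nonneg hsub fun h _ _ =>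
          mul_nonneg (sq_nonneg _) (hr _)
  have hB0 : 0 ≤ BdQ f r S KK k Θ t := le_trans (by positivity) hB
  have hk0 : (0 : ℝ) ≤ k := Nat.cast_nonneg k
  have hm1 : (0 : ℝ) ≤ (m : ℝ) - 1 := by
    have : (1 : ℝ) ≤ m := by exact_mod_cast hm
    linarith
  rw [hOm]
  set O := ∑ A ∈ AA KK k, W A with hO
  by_cases hPK : P ∩ KK = ∅
  · by_cases hc : m ≤ (P \ KK).card
    · rw [if_pos ⟨hPK, hc⟩]
      nlinarith [mul_nonneg hm1 hOm0, mul_nonneg hk0 hB0]
    · rw [if_neg (fun h => hc h.2)]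
      have hc' : ((P \ KK).card : ℝ) ≤ (m : ℝ) - 1 := by
        have : (P \ KK).card + 1 ≤ m := by omega
        have : (((P \ KK).card + 1 : ℕ) : ℝ) ≤ m := by exact_mod_cast this
        push_cast at this
        linarith
      have := mul_le_mul_of_nonneg_right hc' hOm0
      nlinarith [mul_nonneg hk0 hB0]
  · rw [if_neg (fun h => hPK h.1)]
    have h1c : (1 : ℝ) ≤ ((P ∩ KK).card : ℝ) := by
      have : 0 < (P ∩ KK).card := Finset.card_pos.2 (Finset.nonempty_iff_ne_empty.2 hPK)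
      exact_mod_cast this
    have h2 : O ≤ BdQ f r S KK k Θ t := le_trans (by nlinarith) hB
    have h3 := mul_le_mul_of_nonneg_left h2 hk0
    nlinarith [mul_nonneg hm1 hOm0]

end Pool.PP
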