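import Pool.Agent.Work.MP_b0c12c_px.QLoc

/-! Block QRE (helper85): independent sites without the site `h0`. -/

set_option autoImplicit false

namespace Pool.PP

open Finset

theorem p_QRE (h1 : Stmt_W1S) : Stmt_QRE := by
  intro π ι _ _ _ _ q Φ h0 hΦ
  unfold EM
  rw [← Equiv.sum_comp (Equiv.funSplitAt h0 (Finset π)).symm, Fintype.sum_prod_type,
    Finset.sum_comm]
  refine Finset.sum_congr rfl fun t _ => ?_
  have key : ∀ a : Finset π,
      (∏ h, w1 q ((Equiv.funSplitAt h0 (Finset π)).symm (a, t) h)) *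
        Φ ((Equiv.funSplitAt h0 (Finset π)).symm (a, t)) =
      w1 q a * ((∏ h : {h : ι // h ≠ h0}, w1 q (t h)) * Φ (ext h0 t)) := by
    intro a
    have hP : (∏ h, w1 q ((Equiv.funSplitAt h0 (Finset π)).symm (a, t) h)) =
        w1 q a * ∏ h : {h : ι // h ≠ h0}, w1 q (t h) := by
      rw [← Finset.mul_prod_erase univ _ (mem_univ h0)]
      congr 1
      · simp [Equiv.funSplitAt, Equiv.piSplitAt]
      · rw [Finset.prod_subtype (univ.erase h0) (p := fun h => h ≠ h0)
          (f := fun h => w1 q ((Equiv.funSplitAt h0 (Finset π)).symm (a, t) h)) (by simp)]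
        refine Finset.prod_congr rfl fun h _ => ?_
        simp [Equiv.funSplitAt, Equiv.piSplitAt, h.2]
    have hF : Φ ((Equiv.funSplitAt h0 (Finset π)).symm (a, t)) = Φ (ext h0 t) := by
      rw [← hΦ (ext h0 t) a]
      congr 1
      funext h
      by_cases hh : h = h0
      · subst hh
        simp [Equiv.funSplitAt, Equiv.piSplitAt]
      · simp [Equiv.funSplitAt, Equiv.piSplitAt, hh, ext, Function.update_of_ne]
    rw [hP, hF, mul_assoc]
  rw [Finset.sum_congr rfl fun a _ => key a, ← Finset.sum_mul, (h1 π q).1, one_mul]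

end Pool.PP
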