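import Pool.Agent.Work.MP_b0c12c_px.QTr

/-! # Block QSA (helper4): the sums over all integers -/

set_option autoImplicit false

namespace Pool.PP

open Finset Filter

/-- The small primes are prime. -/
theorem QSA_SP (w : ℕ) (y : SPt w) : (y : ℕ).Prime ∧ (y : ℕ) ≤ w := by
  have := y.2
  unfold SP at this
  rw [Finset.mem_filter, Finset.mem_Icc] at this
  exact ⟨this.2, this.1.2⟩

/-- The large primes are prime. -/
theorem QSA_LP (z I : ℕ) (x : LPt z I) : (x : ℕ).Prime ∧ z < (x : ℕ) ∧ (x : ℕ) ≤ z ^ 2 ^ I := by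
  have := x.2
  unfold LP at this
  rw [Finset.mem_filter, Finset.mem_Ioc] at this
  exact ⟨this.2, this.1.1, this.1.2⟩

/-- Monotonicity of the mean over the residues. -/
theorem QSA_avQ (w : ℕ) (G G' : (SPt w → ℕ) → ℝ) (c e : ℝ)
    (h : ∀ ω, G ω ≤ c * G' ω + e) : avQ 0 w G ≤ c * avQ 0 w G' + e := by
  have hP : ∏ y : SPt w, ((y : ℝ) - ((0 : ℕ) : ℝ)) =
      ((Fintype.piFinset (fun y : SPt w => Ico 0 (y : ℕ))).card : ℝ) := by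
    rw [Fintype.card_piFinset]
    push_cast
    apply Finset.prod_congr rfl
    intro y _
    rw [Nat.card_Ico]
    simp
  have hP0 : 0 < ∏ y : SPt w, ((y : ℝ) - ((0 : ℕ) : ℝ)) := by
    apply Finset.prod_pos
    intro y _
    have : 0 < (y : ℕ) := (QSA_SP w y).1.pos
    have h2 : (0 : ℝ) < ((y : ℕ) : ℝ) := by exact_mod_cast this
    simpa using h2
  unfold avQ
  rw [div_le_iff₀ hP0]
  calc ∑ ω ∈ Fintype.piFinset (fun y : SPt w => Ico 0 (y : ℕ)), G ω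
      ≤ ∑ ω ∈ Fintype.piFinset (fun y : SPt w => Ico 0 (y : ℕ)), (c * G' ω + e) :=
        Finset.sum_le_sum (fun ω _ => h ω)
    _ = c * (∑ ω ∈ Fintype.piFinset (fun y : SPt w => Ico 0 (y : ℕ)), G' ω) +
        ((Fintype.piFinset (fun y : SPt w => Ico 0 (y : ℕ))).card : ℝ) * e := by
        rw [Finset.sum_add_distrib, ← Finset.mul_sum, Finset.sum_const, nsmul_eq_mul]
    _ = (c * ((∑ ω ∈ Fintype.piFinset (fun y : SPt w => Ico 0 (y : ℕ)), G' ω) /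
          ∏ y : SPt w, ((y : ℝ) - ((0 : ℕ) : ℝ))) + e) *
          ∏ y : SPt w, ((y : ℝ) - ((0 : ℕ) : ℝ)) := by
        rw [← hP]
        have hne := hP0.ne'
        field_simp

/-- The coefficients of the site functions, for the concrete primes. -/
theorem QSA_coef (h5 : Stmt_COE) (h6 : Stmt_SIZ) (z I J : ℕ) (hz : 2 ≤ z) (hJI : J ≤ I)
    (hPB : PB z I (fun x : LPt z I => (x : ℕ)) (bQ z I))
    (hBlk : Blk (dQ 0 z I) (bQ z I) I) :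
    ∃ (a : Fin J → Finset (LPt z I) → ℝ) (aρ : Finset (LPt z I) → ℝ),
      (∀ s U, |a s U| ≤ 3) ∧ (∀ U, |aρ U| ≤ 3) ∧
      (∀ s U, a s U ≠ 0 → ∏ x ∈ U, (((x : LPt z I) : ℕ) : ℝ) ≤
        ((z : ℝ) ^ 2 ^ (I + 3)) ^ ((1 / 2 : ℝ) ^ (s : ℕ))) ∧
      (∀ U, aρ U ≠ 0 → ∏ x ∈ U, (((x : LPt z I) : ℕ) : ℝ) ≤ (z : ℝ) ^ 2 ^ (I + 3)) ∧
      (∀ s T, fQ z I J s T = ∑ U ∈ T.powerset, a s U) ∧
      (∀ T, rQ z I T = ∑ U ∈ T.powerset, aρ U) := by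
  have hz1r : (1 : ℝ) ≤ z := by
    have : 1 ≤ z := by omega
    exact_mod_cast this
  obtain ⟨hco, aρ, hρ1, hρ2⟩ := h5 (LPt z I) (dQ 0 z I) (bQ z I) I hBlk
  have hco' := fun s : Fin J => hco (I - 1 - s) (by have := s.2; omega)
  choose a ha1 ha2 using hco'
  obtain ⟨hs1, hs2⟩ := h6 (LPt z I) z I (fun x : LPt z I => (x : ℕ)) (bQ z I) hz hPB
  refine ⟨a, aρ, fun s U => (ha2 s U).1, fun U => (hρ2 U).1.trans (by norm_num), ?_, ?_,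
    fun s T => ha1 s T, hρ1⟩
  · intro s U hU
    have hsJ := s.2
    have e1 := hs1 (I - 1 - s) (by omega) U ((ha2 s U).2 hU).1 ((ha2 s U).2 hU).2
    have e2 : ∏ x ∈ U, (((x : LPt z I) : ℕ) : ℝ) ≤ (z : ℝ) ^ 2 ^ (I - 1 - (s : ℕ) + 4) := by
      exact_mod_cast e1
    refine e2.trans (le_of_eq ?_)
    have e3 : (2 : ℝ) ^ (I + 3) * (1 / 2 : ℝ) ^ (s : ℕ) =
        ((2 ^ (I - 1 - (s : ℕ) + 4) : ℕ) : ℝ) := by
      have : I + 3 = (I - 1 - (s : ℕ) + 4) + (s : ℕ) := by omega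
      rw [this, pow_add]
      push_cast
      rw [mul_assoc, ← mul_pow]
      norm_num
    rw [← Real.rpow_natCast (z : ℝ) (2 ^ (I + 3)), ← Real.rpow_mul (by linarith)]
    have e4 : ((2 ^ (I + 3) : ℕ) : ℝ) * (1 / 2 : ℝ) ^ (s : ℕ) =
        ((2 ^ (I - 1 - (s : ℕ) + 4) : ℕ) : ℝ) := by
      rw [← e3]; push_cast; ring
    rw [e4, Real.rpow_natCast]
  · intro U hU
    have e1 := hs2 U ((hρ2 U).2 hU)
    exact_mod_cast e1

/-- The elementary inequalities for large `L`. -/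
theorem QSA_large (C2 ε : ℝ) (z0 z1 N : ℕ) (hC2 : 0 < C2) (hε : 0 < ε) :
    ∀ᶠ L : ℝ in atTop, 1 ≤ L ∧ (z0 : ℝ) ≤ L ^ 12 ∧ (z1 : ℝ) ≤ L ^ 12 ∧ 2 ≤ L ^ 12 ∧
      2 * C2 * L ≤ L ^ 12 ∧ (2 * C2 * L) ^ 4 * z0 ≤ L ^ 12 ∧
      (2 + 2 * C2 * L) ^ N ≤ ε * L ^ (N + 1) := by
  filter_upwards [eventually_ge_atTop (2 : ℝ), eventually_ge_atTop (z0 : ℝ),
    eventually_ge_atTop (z1 : ℝ), eventually_ge_atTop (2 * C2),
    eventually_ge_atTop ((2 * C2) ^ 4 * z0),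
    eventually_ge_atTop ((2 + 2 * C2) ^ N / ε)] with L a1 a2 a3 a4 a5 a6
  have hL1 : 1 ≤ L := by linarith
  have hL0 : 0 < L := by linarith
  have hL12 : L ≤ L ^ 12 := by
    calc L = L ^ 1 := (pow_one L).symm
      _ ≤ L ^ 12 := pow_le_pow_right₀ hL1 (by norm_num)
  refine ⟨hL1, a2.trans hL12, a3.trans hL12, a1.trans hL12, ?_, ?_, ?_⟩
  · calc 2 * C2 * L ≤ L * L := by gcongr
      _ = L ^ 2 := by ring
      _ ≤ L ^ 12 := pow_le_pow_right₀ hL1 (by norm_num)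
  · calc (2 * C2 * L) ^ 4 * z0 = ((2 * C2) ^ 4 * z0) * L ^ 4 := by ring
      _ ≤ L * L ^ 4 := by gcongr
      _ = L ^ 5 := by ring
      _ ≤ L ^ 12 := pow_le_pow_right₀ hL1 (by norm_num)
  · have h1 : (2 + 2 * C2) ^ N ≤ ε * L := by
      have := (div_le_iff₀ hε).1 a6
      linarith
    calc (2 + 2 * C2 * L) ^ N ≤ ((2 + 2 * C2) * L) ^ N := by
          gcongr
          nlinarith
      _ = (2 + 2 * C2) ^ N * L ^ N := by rw [mul_pow]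
      _ ≤ (ε * L) * L ^ N := by gcongr
      _ = ε * L ^ (N + 1) := by ring

/-- The size of the level. -/
theorem QSA_lev (z I Θ : ℕ) (L P : ℝ) (hL : 0 < L) (hΘ : 1 ≤ Θ)
    (h : (z : ℝ) ^ 2 ^ I ≤ Real.exp (L / (512 * Θ))) (hP : P ≤ Real.exp (L / 50)) :
    P * ((z : ℝ) ^ 2 ^ (I + 3)) ^ (4 * Θ + 1) ≤ Real.exp (L / 8) := by
  have hΘ1 : (1 : ℝ) ≤ Θ := by exact_mod_cast hΘ
  have h1 : ((z : ℝ) ^ 2 ^ (I + 3)) ^ (4 * Θ + 1) ≤ Real.exp (5 * L / 64) := by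
    have e1 : ((z : ℝ) ^ 2 ^ (I + 3)) ^ (4 * Θ + 1) = ((z : ℝ) ^ 2 ^ I) ^ (8 * (4 * Θ + 1)) := by
      rw [← pow_mul, ← pow_mul]
      congr 1
      rw [pow_add]; ring
    rw [e1]
    calc ((z : ℝ) ^ 2 ^ I) ^ (8 * (4 * Θ + 1))
        ≤ Real.exp (L / (512 * Θ)) ^ (8 * (4 * Θ + 1)) := by gcongr
      _ = Real.exp (((8 * (4 * Θ + 1) : ℕ) : ℝ) * (L / (512 * Θ))) := by
          rw [Real.exp_nat_mul]
      _ ≤ Real.exp (5 * L / 64) := by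
          apply Real.exp_le_exp.2
          push_cast
          rw [mul_div_assoc', div_le_div_iff₀ (by positivity) (by norm_num)]
          nlinarith
  calc P * ((z : ℝ) ^ 2 ^ (I + 3)) ^ (4 * Θ + 1)
      ≤ Real.exp (L / 50) * Real.exp (5 * L / 64) := by
        apply mul_le_mul hP h1 (by positivity) (Real.exp_pos _).le
    _ = Real.exp (L / 50 + 5 * L / 64) := by rw [Real.exp_add]
    _ ≤ Real.exp (L / 8) := Real.exp_le_exp.2 (by linarith)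

theorem p_QSA (h1 : Stmt_QCT) (h2 : Stmt_QEX) (h3 : Stmt_LOCQ) (h4 : Stmt_LDA) (h5 : Stmt_COE)
    (h6 : Stmt_SIZ) (h7 : Stmt_QPB) (h8 : Stmt_QSZ) (h9 : Stmt_BMR) : Stmt_QSA := by
  classical
  obtain ⟨C, hC1, hLOC0⟩ := h3
  refine ⟨C, hC1, ?_⟩
  intro J k Θ C2 R ε hJ hΘ hC2 hR hε hc1 hc2
  obtain ⟨z0, B0, hz0, hLOC⟩ := hLOC0 J k Θ R (ε / 2) hJ hΘ hR (by positivity) hc1 hc2
  obtain ⟨Cb, z1, hz1, hBM⟩ := h9
  obtain ⟨N, hEX⟩ := h2 J Θ (k + 1) 3 (by norm_num) hJ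
  obtain ⟨C3, hC3, hSZ⟩ := h8
  refine ⟨max B0 0 + ε, by positivity, ?_⟩
  filter_upwards [hSZ Θ hΘ J, h4 N (N + 1), QSA_large C2 (ε / 2) z0 z1 N hC2 (by positivity)]
    with L ⟨s1, s2, s3, s4, s5, s6, s7⟩ hLDA ⟨b1, b2, b3, b4, b5, b6, b7⟩
  intro H2 H1 x Y hH2 hH1 hY hcard
  have hL0 : 0 < L := by linarith
  set w := wL L with hw
  set z := zL L with hz
  set I := iL Θ L with hI
  have hz2 : 2 ≤ z := by
    have : ((2 : ℕ) : ℝ) ≤ z := by push_cast; linarith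
    exact_mod_cast this
  have hz0z : z0 ≤ z := by
    have : (z0 : ℝ) ≤ z := b2.trans s6
    exact_mod_cast this
  have hz1z : z1 ≤ z := by
    have : (z1 : ℝ) ≤ z := b3.trans s6
    exact_mod_cast this
  have hPB := h7 z I hz2
  obtain ⟨hBlk, -, -⟩ := hBM z I hz1z (LPt z I) (fun x : LPt z I => (x : ℕ)) (bQ z I) hPB 0
    (by norm_num)
  obtain ⟨a, aρ, ha3, hρ3, haD, hρD, haf, hρf⟩ := QSA_coef h5 h6 z I J hz2 s1 hPB hBlk
  have hz1r : (1 : ℝ) ≤ z := by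
    have : 1 ≤ z := by omega
    exact_mod_cast this
  have hcardι : (Fintype.card (SH H2 H1) : ℝ) ≤ 2 * C2 * L := by
    have e1 : Fintype.card (SH H2 H1) = H1 + H2 := by
      rw [Fintype.card_coe, Int.card_Ioc]
      omega
    rw [e1]
    push_cast
    linarith
  have hcard4 : Fintype.card (SH H2 H1) ^ 4 * z0 ≤ z := by
    have e1 : ((Fintype.card (SH H2 H1) ^ 4 * z0 : ℕ) : ℝ) ≤ z := by
      push_cast
      calc (Fintype.card (SH H2 H1) : ℝ) ^ 4 * z0 ≤ (2 * C2 * L) ^ 4 * z0 := by gcongr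
        _ ≤ L ^ 12 := b6
        _ ≤ z := s6
    exact_mod_cast e1
  have hsh : ∀ h h' : SH H2 H1, h ≠ h' → (h : ℤ) ≠ (h' : ℤ) ∧ |(h : ℤ) - (h' : ℤ)| ≤ (z : ℤ) := by
    intro h h' hne
    refine ⟨fun he => hne (Subtype.ext he), ?_⟩
    have m1 := Finset.mem_Ioc.1 h.2
    have m2 := Finset.mem_Ioc.1 h'.2
    have e1 : ((H1 + H2 : ℕ) : ℝ) ≤ z := by
      push_cast
      linarith
    have e2 : H1 + H2 ≤ z := by exact_mod_cast e1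
    rw [abs_le]
    constructor <;> omega
  obtain ⟨x1, x2, x3, -⟩ := hEX (SPt w) (LPt z I) (SH H2 H1) (fun x : LPt z I => (x : ℕ))
    (KQ H2 H1) (fQ z I J) (rQ z I) a aρ ((z : ℝ) ^ 2 ^ (I + 3))
    (fun x => (QSA_LP z I x).1.one_lt.le) (one_le_pow₀ hz1r) ha3 hρ3 haD hρD haf hρf
  have hKδ : (2 + (Fintype.card (SH H2 H1) : ℝ)) ^ N * ((Y : ℝ) / L ^ (N + 1)) ≤ Y * (ε / 2) := by
    have e1 : (2 + (Fintype.card (SH H2 H1) : ℝ)) ^ N ≤ ε / 2 * L ^ (N + 1) :=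
      le_trans (by gcongr) b7
    calc (2 + (Fintype.card (SH H2 H1) : ℝ)) ^ N * ((Y : ℝ) / L ^ (N + 1))
        ≤ (ε / 2 * L ^ (N + 1)) * ((Y : ℝ) / L ^ (N + 1)) := by gcongr
      _ = Y * (ε / 2) := by field_simp
  have hmain : ∀ Ψ : Finset (SH H2 H1) → (SH H2 H1 → Finset (LPt z I)) → ℝ,
      Ex (rr (σ := SPt w) (fun x : LPt z I => (x : ℕ)))
        (fun t : SH H2 H1 → Finset (SPt w ⊕ LPt z I) => Ψ (Sset t) (lg t))
        ((2 + (Fintype.card (SH H2 H1) : ℝ)) ^ N) (2 ^ N)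
        (((z : ℝ) ^ 2 ^ (I + 3)) ^ (4 * Θ + 1)) →
      ∑ n ∈ Ioc x (x + Y), Ψ (Sset (tb (prQ w z I) (fun h : SH H2 H1 => (h : ℤ)) n))
          (lg (tb (prQ w z I) (fun h : SH H2 H1 => (h : ℤ)) n)) ≤
        Y * (avQ 0 w (fun ω => EN (dQ 0 z I) (Ψ (swQ H2 H1 ω))) + ε / 2) := by
    intro Ψ hΨ
    have e1 := h1 N w z I 0 (SH H2 H1) (fun h : SH H2 H1 => (h : ℤ)) (Ioc x (x + Y)) (Y : ℝ)
      ((2 + (Fintype.card (SH H2 H1) : ℝ)) ^ N) (((z : ℝ) ^ 2 ^ (I + 3)) ^ (4 * Θ + 1))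
      (Real.exp (L / 8)) ((Y : ℝ) / L ^ (N + 1)) Ψ (by norm_num) hz2 s5 hsh
      (fun h0 => absurd h0 (by norm_num)) (fun h0 => absurd h0 (by norm_num)) (by positivity)
      (by positivity) (QSA_lev z I Θ L _ hL0 hΘ s2 s7) hΨ (fun VV hVV a' ha' =>
        hLDA x Y hY VV hVV a' ha')
    have e2 := (abs_le.1 e1).2
    have e3 : Y * (avQ 0 w (fun ω => EN (dQ 0 z I) (Ψ (swQ H2 H1 ω))) + ε / 2) =
        Y * avQ 0 w (fun ω => EN (dQ 0 z I) (Ψ (swQ H2 H1 ω))) + Y * (ε / 2) := by ring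
    rw [e3]
    have e4 : avQ 0 w (fun ω => EN (dQ 0 z I)
        (Ψ (Sw (fun y : SPt w => (y : ℕ)) (fun h : SH H2 H1 => (h : ℤ)) ω))) =
        avQ 0 w (fun ω => EN (dQ 0 z I) (Ψ (swQ H2 H1 ω))) := rfl
    rw [e4] at e2
    linarith
  have hloc := fun ω : SPt w → ℕ => hLOC z I (LPt z I) (SH H2 H1) (fun x : LPt z I => (x : ℕ))
    (bQ z I) (swQ H2 H1 ω) (KQ H2 H1) hz0z s1 hPB (hcard ω) hcard4
  have hUQ : ∀ c e : ℝ, ∀ G : (SPt w → ℕ) → ℝ,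
      (∀ ω, G ω ≤ c * mQ z I J (k + 1) H2 H1 (swQ H2 H1 ω) + e) →
      avQ 0 w G ≤ c * UQ w z I J (k + 1) H2 H1 + e := by
    intro c e G hG
    exact QSA_avQ w G (fun ω => mQ z I J (k + 1) H2 H1 (swQ H2 H1 ω)) c e hG
  have hY0 : (0 : ℝ) ≤ Y := Nat.cast_nonneg Y
  refine ⟨?_, ?_, ?_⟩
  · have e1 := hmain (fun S t => OmQ (fQ z I J) S (KQ H2 H1) (k + 1) Θ t) x1
    have e2 := hUQ 1 (ε / 2) (fun ω => EN (dQ 0 z I)
      (fun t => OmQ (fQ z I J) (swQ H2 H1 ω) (KQ H2 H1) (k + 1) Θ t)) (fun ω => by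
        have := (hloc ω).1
        rw [one_mul]
        exact this)
    calc ∑ n ∈ Ioc x (x + Y), omN w z I J (k + 1) Θ H2 H1 n
        ≤ Y * (avQ 0 w (fun ω => EN (dQ 0 z I)
            (fun t => OmQ (fQ z I J) (swQ H2 H1 ω) (KQ H2 H1) (k + 1) Θ t)) + ε / 2) := e1
      _ ≤ Y * ((1 * UQ w z I J (k + 1) H2 H1 + ε / 2) + ε / 2) := by gcongr
      _ = Y * (UQ w z I J (k + 1) H2 H1 + ε) := by ring
  · have e1 := hmain (fun S t => OmQ (fQ z I J) S (KQ H2 H1) (k + 1) Θ t ^ 2) x2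
    have e2 := hUQ 0 (max B0 0) (fun ω => EN (dQ 0 z I)
      (fun t => OmQ (fQ z I J) (swQ H2 H1 ω) (KQ H2 H1) (k + 1) Θ t ^ 2)) (fun ω => by
        have := (hloc ω).2.1
        rw [zero_mul, zero_add]
        exact le_trans this (le_max_left _ _))
    calc ∑ n ∈ Ioc x (x + Y), omN w z I J (k + 1) Θ H2 H1 n ^ 2
        ≤ Y * (avQ 0 w (fun ω => EN (dQ 0 z I)
            (fun t => OmQ (fQ z I J) (swQ H2 H1 ω) (KQ H2 H1) (k + 1) Θ t ^ 2)) + ε / 2) := e1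
      _ ≤ Y * ((0 * UQ w z I J (k + 1) H2 H1 + max B0 0) + ε / 2) := by gcongr
      _ ≤ Y * (max B0 0 + ε) := by
          apply mul_le_mul_of_nonneg_left _ hY0
          linarith
  · have e1 := hmain (fun S t => BdQ (fQ z I J) (rQ z I) S (KQ H2 H1) (k + 1) Θ t) x3
    have e2 := hUQ (C * R * Real.exp (1 - 3 * (Θ : ℝ) / 4)) (ε / 2) (fun ω => EN (dQ 0 z I)
      (fun t => BdQ (fQ z I J) (rQ z I) (swQ H2 H1 ω) (KQ H2 H1) (k + 1) Θ t)) (fun ω => by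
        have := (hloc ω).2.2.1
        exact this)
    calc ∑ n ∈ Ioc x (x + Y), bdN w z I J (k + 1) Θ H2 H1 n
        ≤ Y * (avQ 0 w (fun ω => EN (dQ 0 z I)
            (fun t => BdQ (fQ z I J) (rQ z I) (swQ H2 H1 ω) (KQ H2 H1) (k + 1) Θ t)) + ε / 2) := e1
      _ ≤ Y * ((C * R * Real.exp (1 - 3 * (Θ : ℝ) / 4) * UQ w z I J (k + 1) H2 H1 + ε / 2) +
            ε / 2) := by gcongr
      _ = Y * (C * R * Real.exp (1 - 3 * (Θ : ℝ) / 4) * UQ w z I J (k + 1) H2 H1 + ε) := by ring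

end Pool.PP
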