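import Pool.Agent.Work.MP_b0c12c_px.QTr

set_option autoImplicit false

namespace Pool.PP

open Finset Filter

theorem p_QSC (hSVB : Stmt_SVB) : Stmt_QSC := by
  classical
  intro C2 hC2
  obtain ⟨C1, hC1, hs⟩ := hSVB C2 hC2
  refine ⟨C1, hC1, ?_⟩
  filter_upwards [hs, eventually_ge_atTop (0 : ℝ)] with L h hL H2 H1 hH2 hH1 ω
  set ω' : ℕ → ℕ := fun p => if hp : p ∈ SP (wL L) then ω ⟨p, hp⟩ else 0 with hω
  set B : Finset ℤ := (swQ H2 H1 ω).map (Function.Embedding.subtype _) with hB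
  have hcard : B.card = (swQ H2 H1 ω).card := Finset.card_map _
  rw [← hcard]
  refine h ω' B ?_ ?_
  · intro x hx
    rw [hB, Finset.mem_map] at hx
    obtain ⟨y, _, rfl⟩ := hx
    have hy := y.2
    rw [Finset.mem_Ioc] at hy
    rw [abs_le]
    have h1 : (-(H2 : ℝ)) < ((y : ℤ) : ℝ) := by exact_mod_cast hy.1
    have h2 : ((y : ℤ) : ℝ) ≤ (H1 : ℝ) := by exact_mod_cast hy.2
    exact ⟨by simpa using (by linarith : -(C2 * L) ≤ ((y : ℤ) : ℝ)),
      by simpa using (by linarith : ((y : ℤ) : ℝ) ≤ C2 * L)⟩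
  · intro x hx p hp hpL
    rw [hB, Finset.mem_map] at hx
    obtain ⟨y, hy, rfl⟩ := hx
    unfold swQ Sw at hy
    rw [Finset.mem_filter] at hy
    have hpm : p ∈ SP (wL L) := by
      unfold SP wL
      rw [Finset.mem_filter, Finset.mem_Icc]
      exact ⟨⟨hp.one_lt.le, Nat.le_floor hpL⟩, hp⟩
    have h3 := hy.2 ⟨p, hpm⟩
    have h4 : ω' p = ω ⟨p, hpm⟩ := by
      rw [hω]
      simp only [hpm, dif_pos]
    rw [h4]
    exact h3

end Pool.PP
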