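import Pool.Agent.Work.MP_b0c12c_px.B_QSPa

/-! # Block QSP (helper98): the sums over the primes of `(X, 2X]` -/

set_option autoImplicit false

namespace Pool.PP

open Finset Filter

/-- The elementary inequalities for large `L`. -/
theorem QSP_large (C2 Cl ε : ℝ) (z0 zb N : ℕ) (hC2 : 0 < C2) (hCl : 0 < Cl) (hε : 0 < ε) :
    ∀ᶠ L : ℝ in atTop, 2 ≤ L ∧ (z0 : ℝ) ≤ L ^ 12 ∧ (zb : ℝ) ≤ L ^ 12 ∧ 2 * C2 * L ≤ L ^ 12 ∧
      (2 * C2 * L + 1) ^ 4 * z0 ≤ L ^ 12 ∧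
      (2 * C2 * L + 1) * ((2 + (2 * C2 * L + 1)) ^ N * (Cl / L ^ (N + 2))) ≤ ε := by
  filter_upwards [eventually_ge_atTop (2 : ℝ), eventually_ge_atTop (z0 : ℝ),
    eventually_ge_atTop (zb : ℝ), eventually_ge_atTop (2 * C2),
    eventually_ge_atTop ((2 * C2 + 1) ^ 4 * z0),
    eventually_ge_atTop ((2 * C2 + 1) * (3 + 2 * C2) ^ N * Cl / ε)] with L a1 a2 a3 a4 a5 a6
  have hL0 : 0 < L := by linarith
  have hL1 : 1 ≤ L := by linarith
  have hLp : L ≤ L ^ 12 := by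
    calc L = L ^ 1 := (pow_one L).symm
      _ ≤ L ^ 12 := pow_le_pow_right₀ hL1 (by norm_num)
  refine ⟨a1, by linarith, by linarith, ?_, ?_, ?_⟩
  · calc 2 * C2 * L ≤ L * L := by gcongr
      _ = L ^ 2 := by ring
      _ ≤ L ^ 12 := pow_le_pow_right₀ hL1 (by norm_num)
  · calc (2 * C2 * L + 1) ^ 4 * z0 ≤ ((2 * C2 + 1) * L) ^ 4 * z0 := by
          gcongr
          nlinarith
      _ = ((2 * C2 + 1) ^ 4 * z0) * L ^ 4 := by ring
      _ ≤ L * L ^ 4 := by gcongr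
      _ = L ^ 5 := by ring
      _ ≤ L ^ 12 := pow_le_pow_right₀ hL1 (by norm_num)
  · have h1 : (2 * C2 * L + 1) ≤ (2 * C2 + 1) * L := by nlinarith
    have h2 : 2 + (2 * C2 * L + 1) ≤ (3 + 2 * C2) * L := by nlinarith
    calc (2 * C2 * L + 1) * ((2 + (2 * C2 * L + 1)) ^ N * (Cl / L ^ (N + 2))) ≤
        ((2 * C2 + 1) * L) * (((3 + 2 * C2) * L) ^ N * (Cl / L ^ (N + 2))) := by gcongr
      _ = (2 * C2 + 1) * (3 + 2 * C2) ^ N * Cl / L := by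
          rw [mul_pow]
          field_simp
          ring
      _ ≤ ε := by
          rw [div_le_iff₀ hL0]
          rw [div_le_iff₀ hε] at a6
          linarith

theorem QSP_card (H2 H1 : ℕ) : Fintype.card (SH H2 H1) = H1 + H2 := by
  rw [Fintype.card_coe, Int.card_Ioc]
  omega

theorem QSP_SH (H2 H1 : ℕ) (h : SH H2 H1) : -(H2 : ℤ) < (h : ℤ) ∧ (h : ℤ) ≤ H1 :=
  Finset.mem_Ioc.1 h.2

/-- The data of the expansions. -/
theorem QSP_data (h5 : Stmt_COE) (h6 : Stmt_SIZ) (h7 : Stmt_QPB) (z I J : ℕ) (hz : 2 ≤ z)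
    (hJI : J ≤ I) (hBlk : Blk (dQ 0 z I) (bQ z I) I) :
    ∃ (a : Fin J → Finset (LPt z I) → ℝ) (aρ : Finset (LPt z I) → ℝ),
      (∀ s U, |a s U| ≤ 3) ∧ (∀ U, |aρ U| ≤ 3) ∧
      (∀ s U, a s U ≠ 0 → ∏ x ∈ U, (((x : LPt z I) : ℕ) : ℝ) ≤
        ((z : ℝ) ^ 2 ^ (I + 3)) ^ ((1 / 2 : ℝ) ^ (s : ℕ))) ∧
      (∀ U, aρ U ≠ 0 → ∏ x ∈ U, (((x : LPt z I) : ℕ) : ℝ) ≤ (z : ℝ) ^ 2 ^ (I + 3)) ∧
      (∀ s T, fQ z I J s T = ∑ U ∈ T.powerset, a s U) ∧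
      (∀ T, rQ z I T = ∑ U ∈ T.powerset, aρ U) := by
  have hPB := h7 z I hz
  obtain ⟨hco, aρ, hρ1, hρ2⟩ := h5 (LPt z I) (dQ 0 z I) (bQ z I) I hBlk
  have hco' := fun s : Fin J => hco (I - 1 - s) (by have := s.2; omega)
  choose a ha1 ha2 using hco'
  obtain ⟨hs1, hs2⟩ := h6 (LPt z I) z I (fun x : LPt z I => (x : ℕ)) (bQ z I) hz hPB
  have hz1r : (1 : ℝ) ≤ z := by
    have : 1 ≤ z := by omega
    exact_mod_cast this
  refine ⟨a, aρ, fun s U => (ha2 s U).1, fun U => (hρ2 U).1.trans (by norm_num), ?_, ?_, ?_, hρ1⟩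
  · intro s U hU
    have hsJ := s.2
    have e1 := hs1 (I - 1 - s) (by omega) U ((ha2 s U).2 hU).1 ((ha2 s U).2 hU).2
    have e2 : ∏ x ∈ U, (((x : LPt z I) : ℕ) : ℝ) ≤ (z : ℝ) ^ 2 ^ (I - 1 - (s : ℕ) + 4) := by
      exact_mod_cast e1
    refine e2.trans (le_of_eq ?_)
    have e3 : (2 : ℝ) ^ (I + 3) * (1 / 2 : ℝ) ^ (s : ℕ) =
        ((2 ^ (I - 1 - (s : ℕ) + 4) : ℕ) : ℝ) := by
      have : I + 3 = (I - 1 - (s : ℕ) + 4) + (s : ℕ) := by omega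
      rw [this, pow_add]
      push_cast
      rw [mul_assoc, ← mul_pow]
      norm_num
    rw [← Real.rpow_natCast (z : ℝ) (2 ^ (I + 3)), ← Real.rpow_mul (by linarith)]
    have e4 : ((2 ^ (I + 3) : ℕ) : ℝ) * (1 / 2 : ℝ) ^ (s : ℕ) =
        ((2 ^ (I - 1 - (s : ℕ) + 4) : ℕ) : ℝ) := by
      rw [← e3]; push_cast; ring
    rw [e4, Real.rpow_natCast]
  · intro U hU
    have e1 := hs2 U ((hρ2 U).2 hU)
    exact_mod_cast e1
  · intro s T
    exact ha1 s T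

/-- The size of the moduli. -/
theorem QSP_Q (w z I Θ : ℕ) (L : ℝ) (hΘ : 1 ≤ Θ) (hL : 0 ≤ L)
    (h1 : (z : ℝ) ^ 2 ^ I ≤ Real.exp (L / (512 * Θ)))
    (h2 : (∏ p ∈ SP w, (p : ℝ)) ≤ Real.exp (L / 50)) :
    (∏ p ∈ SP w, (p : ℝ)) * ((z : ℝ) ^ 2 ^ (I + 3)) ^ (4 * Θ + 1) ≤ Real.exp (L / 4) := by
  have hΘ0 : (1 : ℝ) ≤ Θ := by exact_mod_cast hΘ
  have h3 : ((z : ℝ) ^ 2 ^ (I + 3)) ^ (4 * Θ + 1) ≤ Real.exp (5 * L / 64) := by
    have e1 : ((z : ℝ) ^ 2 ^ (I + 3)) ^ (4 * Θ + 1) = ((z : ℝ) ^ 2 ^ I) ^ (8 * (4 * Θ + 1)) := by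
      rw [← pow_mul, ← pow_mul]
      congr 1
      rw [pow_add]; ring
    rw [e1]
    calc ((z : ℝ) ^ 2 ^ I) ^ (8 * (4 * Θ + 1)) ≤
        Real.exp (L / (512 * Θ)) ^ (8 * (4 * Θ + 1)) := by gcongr
      _ = Real.exp (((8 * (4 * Θ + 1) : ℕ) : ℝ) * (L / (512 * Θ))) := by
          rw [← Real.exp_nat_mul]
      _ ≤ Real.exp (5 * L / 64) := by
          apply Real.exp_le_exp.2
          push_cast
          have e2 : 8 * (4 * (Θ : ℝ) + 1) ≤ 40 * Θ := by linarith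
          calc 8 * (4 * (Θ : ℝ) + 1) * (L / (512 * Θ)) ≤ 40 * Θ * (L / (512 * Θ)) := by gcongr
            _ = 5 * L / 64 := by field_simp; ring
  calc (∏ p ∈ SP w, (p : ℝ)) * ((z : ℝ) ^ 2 ^ (I + 3)) ^ (4 * Θ + 1) ≤
      Real.exp (L / 50) * Real.exp (5 * L / 64) := by gcongr
    _ = Real.exp (L / 50 + 5 * L / 64) := by rw [Real.exp_add]
    _ ≤ Real.exp (L / 4) := Real.exp_le_exp.2 (by linarith)

theorem p_QSP (h1 : Stmt_QCT) (h2 : Stmt_QEX) (h3 : Stmt_LOCQ) (h4 : Stmt_LDP) (h5 : Stmt_COE)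
    (h6 : Stmt_SIZ) (h7 : Stmt_QPB) (h8 : Stmt_QSZ) (h9 : Stmt_QAV) (h10 : Stmt_BMR) :
    Stmt_QSP := by
  obtain ⟨C, hC1, hLQ⟩ := h3
  obtain ⟨Cb, zb, hzb, hBM⟩ := h10
  obtain ⟨Cz, hCz, hSZ⟩ := h8
  refine ⟨C, hC1, ?_⟩
  intro J k Θ C2 R ε hJ hΘ hC2 hR hε hc1 hc2 hexp
  obtain ⟨z0, B0, hz0, hLOC⟩ := hLQ J k Θ R ε hJ hΘ hR hε hc1 hc2
  obtain ⟨N, hEX⟩ := h2 J Θ (k + 1) 3 (by norm_num) hJ
  obtain ⟨Cl, hCl, hLD⟩ := h4 N (N + 2)
  have hlog : Tendsto (fun X : ℕ => Real.log X) atTop atTop :=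
    Real.tendsto_log_atTop.comp tendsto_natCast_atTop_atTop
  filter_upwards [hLD, hlog.eventually (hSZ Θ hΘ J),
    hlog.eventually (QSP_large C2 Cl ε z0 zb N hC2 hCl hε), eventually_ge_atTop 1]
    with X hLDX ⟨s1, s2, s3, s4, s5, s6, s7⟩ ⟨l1, l2, l3, l4, l5, l6⟩ hX
  intro H2 H1 hH2 hH1 hRR
  obtain ⟨L, hLdef⟩ : ∃ L : ℝ, L = Real.log X := ⟨_, rfl⟩
  rw [← hLdef] at hLDX s1 s2 s3 s4 s5 s6 s7 l1 l2 l3 l4 l5 l6 hH2 hH1 hRR ⊢
  obtain ⟨z, hz⟩ : ∃ z : ℕ, z = zL L := ⟨_, rfl⟩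
  obtain ⟨w, hw⟩ : ∃ w : ℕ, w = wL L := ⟨_, rfl⟩
  obtain ⟨I, hI⟩ : ∃ I : ℕ, I = iL Θ L := ⟨_, rfl⟩
  rw [← hI] at s1 s2 s3 s4 hRR ⊢
  rw [← hz] at s2 s5 s6 ⊢
  rw [← hw] at s5 s7 hRR ⊢
  have hX1 : (1 : ℝ) ≤ X := by exact_mod_cast hX
  have hX0 : (0 : ℝ) < X := by linarith
  have hexpL : Real.exp L = X := by rw [hLdef, Real.exp_log hX0]
  have hL0 : 0 < L := by linarith
  have hzr : (2 : ℝ) ≤ z := by
    have : L ≤ L ^ 12 := by
      calc L = L ^ 1 := (pow_one L).symm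
        _ ≤ L ^ 12 := pow_le_pow_right₀ (by linarith) (by norm_num)
    linarith
  have hz2 : 2 ≤ z := by exact_mod_cast hzr
  have hz0z : z0 ≤ z := by exact_mod_cast l2.trans s6
  have hzbz : zb ≤ z := by exact_mod_cast l3.trans s6
  have hPB := h7 z I hz2
  obtain ⟨hBlk, -, -⟩ := hBM z I hzbz (LPt z I) (fun x : LPt z I => (x : ℕ)) (bQ z I) hPB 0
    (by norm_num)
  obtain ⟨a, aρ, d1, d2, d3, d4, d5, d6⟩ := QSP_data h5 h6 h7 z I J hz2 s1 hBlk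
  have hx : 0 ≤ sX (xQ z I J) := by
    unfold sX xQ xs E1
    refine Finset.sum_nonneg fun s _ => ?_
    apply div_nonneg _ (by positivity)
    refine Finset.sum_nonneg fun T _ => ?_
    apply mul_nonneg _ (sq_nonneg _)
    unfold w1
    apply mul_nonneg
    · exact Finset.prod_nonneg fun x _ => hBlk.nonneg x
    · exact Finset.prod_nonneg fun x _ => by
        have := hBlk.half x
        change 0 ≤ 1 - dQ 0 z I x
        change dQ 0 z I x ≤ 1 / 2 at this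
        linarith
  have hcardN : Fintype.card (SH H2 H1) = H1 + H2 := QSP_card H2 H1
  have hcard : (Fintype.card (SH H2 H1) : ℝ) ≤ 2 * C2 * L + 1 := by
    rw [hcardN]
    push_cast
    linarith
  set NN : Finset ℕ := (Ioc X (2 * X)).filter Nat.Prime with hNN
  set M : ℝ := (NN.card : ℝ) with hM
  have hM0 : 0 ≤ M := Nat.cast_nonneg _
  set K : ℝ := (2 + (Fintype.card (SH H2 H1) : ℝ)) ^ N with hK
  set δ : ℝ := Cl * (X / L ^ (N + 2)) with hδ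
  have hδ0 : 0 ≤ δ := by positivity
  have hK0 : 0 ≤ K := by positivity
  have hdiff : ∀ h h' : SH H2 H1, |(h : ℤ) - (h' : ℤ)| ≤ z := by
    intro h h'
    have q1 := QSP_SH H2 H1 h
    have q2 := QSP_SH H2 H1 h'
    have q3 : ((H1 + H2 : ℕ) : ℝ) ≤ z := by
      push_cast
      have : 2 * C2 * L ≤ z := l4.trans s6
      linarith
    have q4 : ((H1 + H2 : ℕ) : ℤ) ≤ z := by exact_mod_cast q3
    push_cast at q4
    rw [abs_le]
    constructor <;> linarith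
  have hQQ : (∏ p ∈ SP w, (p : ℝ)) * ((z : ℝ) ^ 2 ^ (I + 3)) ^ (4 * Θ + 1) ≤
      (X : ℝ) ^ (1 / 4 : ℝ) := by
    have := QSP_Q w z I Θ L hΘ hL0.le s2 s7
    rw [Real.rpow_def_of_pos hX0, ← hLdef]
    rwa [show L * (1 / 4) = L / 4 by ring]
  have hzX : (z : ℝ) ^ 2 ^ I < X := by
    refine lt_of_le_of_lt s2 ?_
    rw [← hexpL]
    apply Real.exp_lt_exp.2
    have hΘ1 : (1 : ℝ) ≤ Θ := by exact_mod_cast hΘ
    rw [div_lt_iff₀ (by positivity)]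
    nlinarith
  have hcore := QSP_core h9 w z I J k Θ H2 H1 NN M ε (K * δ) R (Real.exp (1 - 3 * (Θ : ℝ) / 4))
    hM0 hε.le (mul_nonneg hK0 hδ0) hexp hx
    (by
      intro h0 hh0
      have hh0K : h0 ∉ KQ H2 H1 := (Finset.mem_sdiff.1 hh0).2
      have hE := (hEX (SPt w) (LPt z I) (SH H2 H1) (fun x : LPt z I => (x : ℕ)) (KQ H2 H1)
        (fQ z I J) (rQ z I) a aρ ((z : ℝ) ^ 2 ^ (I + 3))
        (fun x => by
          have hx := x.2
          unfold LP at hx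
          exact (Finset.mem_filter.1 hx).2.one_lt.le)
        (one_le_pow₀ (by linarith)) d1 d2 d3 d4 d5 d6).2.2.2 h0 hh0K
      exact h1 N w z I 1 {h : SH H2 H1 // h ≠ h0}
        (fun h : {h : SH H2 H1 // h ≠ h0} => (h.1 : ℤ) - h0) NN M K
        (((z : ℝ) ^ 2 ^ (I + 3)) ^ (4 * Θ + 1)) ((X : ℝ) ^ (1 / 4 : ℝ)) δ
        (fun S t => PrQ (fQ z I J) (exS h0 S) (KQ H2 H1) (k + 1) Θ h0 (ext h0 t)) le_rfl hz2 s5
        (by
          intro h h' hne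
          constructor
          · intro heq
            apply hne
            apply Subtype.ext
            apply Subtype.ext
            linarith
          · have := hdiff h.1 h'.1
            rwa [sub_sub_sub_cancel_right])
        (by
          intro _ h
          constructor
          · intro heq
            apply h.2
            apply Subtype.ext
            linarith
          · exact hdiff h.1 h0)
        (by
          intro _ n hn p hp hpz hd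
          rw [hNN, Finset.mem_filter, Finset.mem_Ioc] at hn
          have h1 := (Nat.prime_dvd_prime_iff_eq hp hn.2).1 hd
          have h2 : (n : ℝ) ≤ (z : ℝ) ^ 2 ^ I := by
            rw [← h1]
            exact_mod_cast hpz
          have h3 : (X : ℝ) < n := by exact_mod_cast hn.1.1
          linarith)
        hK0 (by positivity) hQQ hE hLDX)
    (by
      intro h0 hh0 S hS hSR
      have hh0S : h0 ∈ S \ KQ H2 H1 := Finset.mem_sdiff.2 ⟨hS, (Finset.mem_sdiff.1 hh0).2⟩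
      have e2 : Fintype.card (SH H2 H1) ^ 4 * z0 ≤ z := by
        have e3 : ((Fintype.card (SH H2 H1) ^ 4 * z0 : ℕ) : ℝ) ≤ z := by
          push_cast
          calc (Fintype.card (SH H2 H1) : ℝ) ^ 4 * z0 ≤ (2 * C2 * L + 1) ^ 4 * z0 := by gcongr
            _ ≤ L ^ 12 := l5
            _ ≤ z := s6
        exact_mod_cast e3
      exact (hLOC z I (LPt z I) (SH H2 H1) (fun x : LPt z I => (x : ℕ)) (bQ z I) S
        (KQ H2 H1) hz0z s1 hPB hSR e2).2.2.2 h0 hh0S)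
    hRR
  refine le_trans ?_ hcore
  have hfin : (Fintype.card (SH H2 H1) : ℝ) * (K * δ) ≤ ε * X := by
    calc (Fintype.card (SH H2 H1) : ℝ) * (K * δ) ≤
        (2 * C2 * L + 1) * ((2 + (2 * C2 * L + 1)) ^ N * δ) := by
          rw [hK]
          gcongr
      _ = ((2 * C2 * L + 1) * ((2 + (2 * C2 * L + 1)) ^ N * (Cl / L ^ (N + 2)))) * X := by
          rw [hδ]; ring
      _ ≤ ε * X := by gcongr
  linarith

end Pool.PP
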