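import Pool.Agent.Work.MP_b0c12c_px.QTr

/-! # Block QSP, part a (helper98): averages over residues and the sum over the shifts -/

set_option autoImplicit false

namespace Pool.PP

open Finset Filter

theorem QSP_prime {w : ℕ} (y : SPt w) : (y : ℕ).Prime := by
  have h := y.2
  unfold SP at h
  exact (Finset.mem_filter.1 h).2

theorem QSP_pos {w : ℕ} (u : ℕ) (hu : u ≤ 1) (y : SPt w) : (0 : ℝ) < (y : ℝ) - u := by
  have h1 : 2 ≤ (y : ℕ) := (QSP_prime y).two_le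
  have h2 : (2 : ℝ) ≤ ((y : ℕ) : ℝ) := by exact_mod_cast h1
  have h3 : (u : ℝ) ≤ 1 := by exact_mod_cast hu
  linarith

theorem QSP_av_mono (u w : ℕ) (hu : u ≤ 1) (G G' : (SPt w → ℕ) → ℝ)
    (h : ∀ ω ∈ Fintype.piFinset (fun y : SPt w => Ico u (y : ℕ)), G ω ≤ G' ω) :
    avQ u w G ≤ avQ u w G' := by
  unfold avQ
  have h0 : 0 < ∏ y : SPt w, ((y : ℝ) - u) := Finset.prod_pos fun y _ => QSP_pos u hu y
  exact div_le_div_of_nonneg_right (Finset.sum_le_sum h) h0.le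

theorem QSP_av_const (u w : ℕ) (hu : u ≤ 1) (c : ℝ) : avQ u w (fun _ => c) = c := by
  unfold avQ
  have h0 : 0 < ∏ y : SPt w, ((y : ℝ) - u) := Finset.prod_pos fun y _ => QSP_pos u hu y
  rw [Finset.sum_const, Fintype.card_piFinset, nsmul_eq_mul]
  have h1 : ((∏ y : SPt w, (Ico u (y : ℕ)).card : ℕ) : ℝ) = ∏ y : SPt w, ((y : ℝ) - u) := by
    push_cast
    refine Finset.prod_congr rfl fun y _ => ?_
    rw [Nat.card_Ico, Nat.cast_sub]
    have := (QSP_prime y).two_le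
    omega
  rw [h1]
  field_simp

theorem QSP_av_sum (u w : ℕ) {β : Type} (s : Finset β) (G : β → (SPt w → ℕ) → ℝ) :
    ∑ a ∈ s, avQ u w (G a) = avQ u w (fun ω => ∑ a ∈ s, G a ω) := by
  unfold avQ
  rw [← Finset.sum_div, Finset.sum_comm]

theorem QSP_av_mul (u w : ℕ) (c : ℝ) (G : (SPt w → ℕ) → ℝ) :
    avQ u w (fun ω => c * G ω) = c * avQ u w G := by
  unfold avQ
  rw [← Finset.mul_sum, mul_div_assoc]

theorem QSP_av_sub (u w : ℕ) (hu : u ≤ 1) (c : ℝ) (G : (SPt w → ℕ) → ℝ) :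
    avQ u w (fun ω => G ω - c) = avQ u w G - c := by
  have h1 : avQ u w (fun ω => G ω - c) = avQ u w G - avQ u w (fun _ => c) := by
    unfold avQ
    rw [Finset.sum_sub_distrib, sub_div]
  rw [h1, QSP_av_const u w hu]

/-- The surviving shifts at a prime are the surviving shifts of other residues. -/
theorem QSP_exS (w H2 H1 : ℕ) (h0 : SH H2 H1) (ω : SPt w → ℕ)
    (hω : ω ∈ Fintype.piFinset (fun y : SPt w => Ico 1 (y : ℕ))) :
    ∃ ω' : SPt w → ℕ, exS h0 (Sw (fun y : SPt w => (y : ℕ))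
      (fun h : {h : SH H2 H1 // h ≠ h0} => (h.1 : ℤ) - h0) ω) = swQ H2 H1 ω' := by
  refine ⟨fun y => (((ω y : ℤ) - (h0 : ℤ)) % ((y : ℕ) : ℤ)).toNat, ?_⟩
  have key : ∀ (y : SPt w) (h : ℤ), (((y : ℕ) : ℤ) ∣
      (((((ω y : ℤ) - (h0 : ℤ)) % ((y : ℕ) : ℤ)).toNat : ℕ) : ℤ) + h) ↔
      ((y : ℕ) : ℤ) ∣ (ω y : ℤ) + (h - (h0 : ℤ)) := by
    intro y h
    have hy : ((y : ℕ) : ℤ) ≠ 0 := by exact_mod_cast (QSP_prime y).ne_zero
    rw [Int.toNat_of_nonneg (Int.emod_nonneg _ hy)]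
    rw [Int.emod_def]
    have e1 : (ω y : ℤ) - (h0 : ℤ) - ((y : ℕ) : ℤ) * (((ω y : ℤ) - (h0 : ℤ)) / ((y : ℕ) : ℤ)) + h =
        ((ω y : ℤ) + (h - (h0 : ℤ))) - ((y : ℕ) : ℤ) * (((ω y : ℤ) - (h0 : ℤ)) / ((y : ℕ) : ℤ)) := by
      ring
    rw [e1]
    exact (dvd_sub_left (Dvd.intro _ rfl))
  ext h
  unfold exS swQ Sw
  rw [Finset.mem_insert, Finset.mem_image, Finset.mem_filter]
  constructor
  · rintro (rfl | ⟨h', hh', rfl⟩)
    · refine ⟨Finset.mem_univ _, fun y => ?_⟩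
      rw [key y]
      have h1 := Finset.mem_Ico.1 ((Fintype.mem_piFinset.1 hω) y)
      intro hd
      rw [sub_self, add_zero] at hd
      have h2 := Int.le_of_dvd (by exact_mod_cast h1.1) hd
      have h3 : ((ω y : ℕ) : ℤ) < ((y : ℕ) : ℤ) := by exact_mod_cast h1.2
      omega
    · rw [Finset.mem_filter] at hh'
      refine ⟨Finset.mem_univ _, fun y => ?_⟩
      rw [key y]
      exact hh'.2 y
  · rintro ⟨-, hh⟩
    by_cases hne : h = h0
    · exact Or.inl hne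
    · refine Or.inr ⟨⟨h, hne⟩, ?_, rfl⟩
      rw [Finset.mem_filter]
      refine ⟨Finset.mem_univ _, fun y => ?_⟩
      have := hh y
      rwa [key y] at this

/-- The sum over the shifts of the local masses. -/
theorem QSP_mass (x e : ℝ) (n k c : ℕ) (hx : 0 ≤ x) (he : e ≤ 1 / 2) :
    ((k : ℝ) + 1) / (2 * x) * ((n.choose (k + 1) : ℝ) * (x ^ (k + 1) * (1 + x) ^ c)) ≤
      (n : ℝ) * ((1 - e) * ((n - 1).choose k : ℝ) * (x ^ k * (1 + x) ^ c)) := by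
  have hcomb : (n : ℝ) * ((n - 1).choose k : ℝ) = ((k : ℝ) + 1) * (n.choose (k + 1) : ℝ) := by
    rcases n with _ | n
    · simp
    · have := Nat.add_one_mul_choose_eq n k
      rw [Nat.add_sub_cancel]
      have h2 : (((n + 1) * n.choose k : ℕ) : ℝ) = (((n + 1).choose (k + 1) * (k + 1) : ℕ) : ℝ) := by
        exact_mod_cast this
      push_cast at h2 ⊢
      linarith
  have hW : 0 ≤ x ^ k * (1 + x) ^ c := by positivity
  have hN : 0 ≤ ((k : ℝ) + 1) * (n.choose (k + 1) : ℝ) := by positivity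
  have hR : (n : ℝ) * ((1 - e) * ((n - 1).choose k : ℝ) * (x ^ k * (1 + x) ^ c)) =
      (1 - e) * ((((k : ℝ) + 1) * (n.choose (k + 1) : ℝ)) * (x ^ k * (1 + x) ^ c)) := by
    rw [← hcomb]; ring
  rw [hR]
  have hR2 : 0 ≤ (((k : ℝ) + 1) * (n.choose (k + 1) : ℝ)) * (x ^ k * (1 + x) ^ c) :=
    mul_nonneg hN hW
  have hL : ((k : ℝ) + 1) / (2 * x) * ((n.choose (k + 1) : ℝ) * (x ^ (k + 1) * (1 + x) ^ c)) ≤
      1 / 2 * ((((k : ℝ) + 1) * (n.choose (k + 1) : ℝ)) * (x ^ k * (1 + x) ^ c)) := by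
    rcases hx.eq_or_lt with h0 | h0
    · rw [← h0]
      simp only [mul_zero, div_zero, zero_mul]
      rw [← h0] at hR2
      positivity
    · apply le_of_eq
      rw [pow_succ]
      field_simp
  refine hL.trans ?_
  have : 1 / 2 ≤ 1 - e := by linarith
  gcongr

/-- The core of the block. -/
theorem QSP_core (hA : Stmt_QAV) (w z I J k Θ H2 H1 : ℕ) (NN : Finset ℕ) (M ε E R e : ℝ)
    (hM : 0 ≤ M) (hε : 0 ≤ ε) (hE : 0 ≤ E) (he : e ≤ 1 / 2) (hx : 0 ≤ sX (xQ z I J))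
    (hQ : ∀ h0 ∈ univ \ KQ H2 H1, |∑ p ∈ NN, prN w z I J (k + 1) Θ H2 H1 h0 p -
      M * avQ 1 w (fun ω => EN (dQ 1 z I) (fun t : {h : SH H2 H1 // h ≠ h0} → Finset (LPt z I) =>
        PrQ (fQ z I J) (exS h0 (Sw (fun y : SPt w => (y : ℕ))
          (fun h : {h : SH H2 H1 // h ≠ h0} => (h.1 : ℤ) - h0) ω)) (KQ H2 H1) (k + 1) Θ h0
            (ext h0 t)))| ≤ E)
    (hL : ∀ h0 ∈ univ \ KQ H2 H1, ∀ S : Finset (SH H2 H1), h0 ∈ S →
      (S.card : ℝ) * (1 / 2 : ℝ) ^ I ≤ R →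
      (1 - e) * (((S \ KQ H2 H1).card - 1).choose k : ℝ) * mU (xQ z I J) S (KQ H2 H1) k -
        ε / (Fintype.card (SH H2 H1) : ℝ) ≤
      EN (dQ 1 z I) (fun t : {h : SH H2 H1 // h ≠ h0} → Finset (LPt z I) =>
        PrQ (fQ z I J) S (KQ H2 H1) (k + 1) Θ h0 (ext h0 t)))
    (hR : ∀ ω : SPt w → ℕ, ((swQ H2 H1 ω).card : ℝ) * (1 / 2 : ℝ) ^ I ≤ R) :
    M * (∏ y : SPt w, (y : ℝ) / ((y : ℝ) - 1)) *
        (((k : ℝ) + 1) / (2 * sX (xQ z I J)) * UQ w z I J (k + 1) H2 H1 - ε) -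
        (Fintype.card (SH H2 H1) : ℝ) * E ≤
      ∑ h0 ∈ univ \ KQ H2 H1, ∑ p ∈ NN, prN w z I J (k + 1) Θ H2 H1 h0 p := by
  set P : ℝ := ∏ y : SPt w, (y : ℝ) / ((y : ℝ) - 1) with hP
  have hP1 : 1 ≤ P := by
    rw [hP]
    calc (1 : ℝ) = ∏ _y : SPt w, (1 : ℝ) := by simp
      _ ≤ ∏ y : SPt w, (y : ℝ) / ((y : ℝ) - 1) := by
        refine Finset.prod_le_prod (fun _ _ => zero_le_one) fun y _ => ?_
        have h1 := QSP_pos 1 le_rfl y
        push_cast at h1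
        rw [le_div_iff₀ h1]
        linarith
  set G : Finset (SH H2 H1) → ℝ := fun S =>
    (1 - e) * (((S \ KQ H2 H1).card - 1).choose k : ℝ) * mU (xQ z I J) S (KQ H2 H1) k with hG
  set c : ℝ := (Fintype.card (SH H2 H1) : ℝ) with hc
  have hone : ∀ h0 ∈ univ \ KQ H2 H1,
      M * (P * avQ 0 w (fun ω => if h0 ∈ swQ H2 H1 ω then G (swQ H2 H1 ω) else 0) - ε / c) - E ≤
        ∑ p ∈ NN, prN w z I J (k + 1) Θ H2 H1 h0 p := by
    intro h0 hh0
    have h1 := (abs_le.1 (hQ h0 hh0)).1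
    have h2 : avQ 1 w (fun ω => G (exS h0 (Sw (fun y : SPt w => (y : ℕ))
        (fun h : {h : SH H2 H1 // h ≠ h0} => (h.1 : ℤ) - h0) ω)) - ε / c) ≤
        avQ 1 w (fun ω => EN (dQ 1 z I)
          (fun t : {h : SH H2 H1 // h ≠ h0} → Finset (LPt z I) =>
        PrQ (fQ z I J) (exS h0 (Sw (fun y : SPt w => (y : ℕ))
          (fun h : {h : SH H2 H1 // h ≠ h0} => (h.1 : ℤ) - h0) ω)) (KQ H2 H1) (k + 1) Θ h0
            (ext h0 t))) := by
      refine QSP_av_mono 1 w le_rfl _ _ fun ω hω => ?_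
      refine hL h0 hh0 _ (Finset.mem_insert_self _ _) ?_
      obtain ⟨ω', hω'⟩ := QSP_exS w H2 H1 h0 ω hω
      rw [hω']
      exact hR ω'
    rw [QSP_av_sub 1 w le_rfl, hA w H2 H1 h0 G] at h2
    have h3 := mul_le_mul_of_nonneg_left h2 hM
    linarith
  have hsum := Finset.sum_le_sum hone
  refine le_trans ?_ hsum
  rw [Finset.sum_sub_distrib, ← Finset.mul_sum, Finset.sum_sub_distrib, ← Finset.mul_sum,
    Finset.sum_const, Finset.sum_const, nsmul_eq_mul, nsmul_eq_mul]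
  have hcard : (((univ \ KQ H2 H1).card : ℕ) : ℝ) ≤ c := by
    rw [hc]
    exact_mod_cast Finset.card_le_univ _
  have hav : ((k : ℝ) + 1) / (2 * sX (xQ z I J)) * UQ w z I J (k + 1) H2 H1 ≤
      ∑ h0 ∈ univ \ KQ H2 H1,
        avQ 0 w (fun ω => if h0 ∈ swQ H2 H1 ω then G (swQ H2 H1 ω) else 0) := by
    rw [QSP_av_sum]
    unfold UQ
    rw [← QSP_av_mul]
    refine QSP_av_mono 0 w (by norm_num) _ _ fun ω _ => ?_
    have e1 : ∑ h0 ∈ univ \ KQ H2 H1, (if h0 ∈ swQ H2 H1 ω then G (swQ H2 H1 ω) else 0) =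
        ((swQ H2 H1 ω \ KQ H2 H1).card : ℝ) * G (swQ H2 H1 ω) := by
      rw [← Finset.sum_filter, Finset.sum_const, nsmul_eq_mul]
      congr 2
      congr 1
      ext h
      simp only [Finset.mem_filter, Finset.mem_sdiff, Finset.mem_univ, true_and]
      tauto
    rw [e1, hG]
    unfold mQ mU
    exact QSP_mass (sX (xQ z I J)) e _ k _ hx he
  have h5 : (((univ \ KQ H2 H1).card : ℕ) : ℝ) * (ε / c) ≤ ε := by
    have hc0 : 0 ≤ c := by rw [hc]; exact Nat.cast_nonneg _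
    rcases hc0.eq_or_lt with h0 | h0
    · rw [← h0, div_zero, mul_zero]
      exact hε
    · calc (((univ \ KQ H2 H1).card : ℕ) : ℝ) * (ε / c) ≤ c * (ε / c) := by gcongr
        _ = ε := by field_simp
  have h6 : (((univ \ KQ H2 H1).card : ℕ) : ℝ) * E ≤ c * E := by gcongr
  have h7 : P * (((k : ℝ) + 1) / (2 * sX (xQ z I J)) * UQ w z I J (k + 1) H2 H1) ≤
      P * ∑ h0 ∈ univ \ KQ H2 H1,
        avQ 0 w (fun ω => if h0 ∈ swQ H2 H1 ω then G (swQ H2 H1 ω) else 0) := by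
    gcongr
  have h8 : ε ≤ P * ε := by nlinarith
  have h9 : P * (((k : ℝ) + 1) / (2 * sX (xQ z I J)) * UQ w z I J (k + 1) H2 H1 - ε) ≤
      P * ∑ h0 ∈ univ \ KQ H2 H1,
        avQ 0 w (fun ω => if h0 ∈ swQ H2 H1 ω then G (swQ H2 H1 ω) else 0) -
        (((univ \ KQ H2 H1).card : ℕ) : ℝ) * (ε / c) := by
    rw [mul_sub]
    linarith
  have h10 := mul_le_mul_of_nonneg_left h9 hM
  rw [mul_assoc]
  linarith

end Pool.PP
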