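import Pool.Agent.Work.MP_b0c12c_px.QTr

set_option autoImplicit false

namespace Pool.PP

open Finset Filter

theorem p_QSX (hQXB : Stmt_QXB) (hQPB : Stmt_QPB) (hQSZ : Stmt_QSZ) : Stmt_QSX := by
  obtain ⟨C0, z0, hC0, hz0, hx⟩ := hQXB
  obtain ⟨C1, hC1, hs⟩ := hQSZ
  refine ⟨C0 * C1, one_le_mul_of_one_le_of_one_le hC0 hC1, fun J Θ hJ hΘ => ?_⟩
  filter_upwards [hs Θ hΘ J, eventually_ge_atTop (z0 : ℝ), eventually_ge_atTop (1 : ℝ)]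
    with L h1 hL0 hL1
  obtain ⟨a1, a2, a3, a4, a5, a6, a7⟩ := h1
  have hz : z0 ≤ zL L := by
    have h2 : (z0 : ℝ) ≤ L ^ 12 := hL0.trans (le_self_pow₀ hL1 (by norm_num))
    exact_mod_cast h2.trans a6
  have h2z : 2 ≤ zL L := hz0.trans hz
  have key := hx (zL L) (iL Θ L) J (LPt (zL L) (iL Θ L)) (fun x => (x : ℕ))
    (bQ (zL L) (iL Θ L)) hz hJ a1 (hQPB (zL L) (iL Θ L) h2z)
  obtain ⟨_, _, _, _, _, _, _, _, k1, k2, _⟩ := key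
  have hC0' : 0 < C0 := by linarith
  have hC1' : 0 < C1 := by linarith
  have hJ0 : (0 : ℝ) < J := by exact_mod_cast hJ
  refine ⟨le_trans ?_ k1, le_trans k2 ?_⟩
  · calc 1 / (C0 * C1) * (2 ^ J * (Θ * (Real.log L / L)) / (J : ℝ) ^ 2)
        = 1 / C0 * (2 ^ J * (1 / C1 * (Θ * (Real.log L / L))) / (J : ℝ) ^ 2) := by
          field_simp
      _ ≤ 1 / C0 * (2 ^ J * (1 / 2 : ℝ) ^ (iL Θ L) / (J : ℝ) ^ 2) := by gcongr
  · calc C0 * (2 ^ J * (1 / 2 : ℝ) ^ (iL Θ L) / (J : ℝ) ^ 2)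
        ≤ C0 * (2 ^ J * (C1 * (Θ * (Real.log L / L))) / (J : ℝ) ^ 2) := by gcongr
      _ = C0 * C1 * (2 ^ J * (Θ * (Real.log L / L)) / (J : ℝ) ^ 2) := by ring

end Pool.PP
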