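import Pool.Agent.Work.MP_b0c12c_px.QTr

/-! # Block QSZ: sizes of the parameters (helper57) -/

set_option autoImplicit false

namespace Pool.PP

open Finset Filter

namespace QSZ

theorem pow_le_exp_iff {z y : ℝ} (hz : 0 < z) (n : ℕ) :
    z ^ n ≤ Real.exp y ↔ (n : ℝ) * Real.log z ≤ y := by
  rw [← Real.log_le_iff_le_exp (pow_pos hz n), Real.log_pow]

theorem prod_SP_le (w : ℕ) : (∏ p ∈ SP w, (p : ℝ)) ≤ 4 ^ w := by
  have h : (∏ p ∈ SP w, p) ≤ 4 ^ w := by
    refine le_trans (le_of_eq ?_) (primorial_le_four_pow w)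
    unfold primorial SP
    refine Finset.prod_congr ?_ fun _ _ => rfl
    ext p
    simp only [mem_filter, mem_Icc, mem_range]
    constructor
    · rintro ⟨⟨_, h2⟩, h3⟩; exact ⟨by omega, h3⟩
    · rintro ⟨h2, h3⟩; exact ⟨⟨h3.one_lt.le, by omega⟩, h3⟩
  calc (∏ p ∈ SP w, (p : ℝ)) = ((∏ p ∈ SP w, p : ℕ) : ℝ) := by push_cast; rfl
    _ ≤ ((4 ^ w : ℕ) : ℝ) := by exact_mod_cast h
    _ = 4 ^ w := by push_cast; rfl

end QSZ

open QSZ in
theorem p_QSZ : Stmt_QSZ := by
  refine ⟨13312, by norm_num, fun Θ hΘ J => ?_⟩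
  have hΘ' : (1 : ℝ) ≤ Θ := by exact_mod_cast hΘ
  -- the eventual conditions
  have hc : (0 : ℝ) < 1 / (2 ^ J * 13 * (512 * Θ)) := by positivity
  have e1 : ∀ᶠ L : ℝ in atTop, ‖Real.log L‖ ≤ 1 / (2 ^ J * 13 * (512 * Θ)) * ‖(L : ℝ)‖ := by
    have := Real.isLittleO_log_id_atTop.def hc
    simpa using this
  filter_upwards [e1, eventually_ge_atTop (3 : ℝ)] with L h1 hL
  have hL0 : 0 < L := by linarith
  have hlog1 : 1 ≤ Real.log L := by
    rw [Real.le_log_iff_exp_le hL0]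
    exact (Real.exp_one_lt_d9.le.trans (by norm_num)).trans hL
  rw [Real.norm_of_nonneg (by linarith), Real.norm_of_nonneg hL0.le] at h1
  set z : ℕ := zL L with hzdef
  have hz1 : L ^ 12 ≤ (z : ℝ) := Nat.le_ceil _
  have hL12 : (1 : ℝ) ≤ L ^ 12 := one_le_pow₀ (by linarith)
  have hz2 : (z : ℝ) ≤ 2 * L ^ 12 := by
    have := (Nat.ceil_lt_add_one (by positivity : (0 : ℝ) ≤ L ^ 12)).le
    have h' : (z : ℝ) ≤ L ^ 12 + 1 := this
    linarith
  have hzpos : (0 : ℝ) < z := by linarith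
  have hlz1 : 12 * Real.log L ≤ Real.log z := by
    have := Real.log_le_log (by positivity) hz1
    rwa [Real.log_pow] at this
  have hlz2 : Real.log z ≤ 13 * Real.log L := by
    have := Real.log_le_log hzpos hz2
    rw [Real.log_mul (by norm_num) (by positivity), Real.log_pow] at this
    have h2 : Real.log 2 ≤ 1 := by
      have := Real.log_two_lt_d9; linarith
    push_cast at this
    linarith
  have hlzpos : 0 < Real.log z := by linarith
  -- the predicate
  set P : ℕ → Prop := fun I => (z : ℝ) ^ 2 ^ I ≤ Real.exp (L / (512 * Θ)) with hP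
  have hPiff : ∀ I, P I ↔ (2 : ℝ) ^ I * Real.log z ≤ L / (512 * Θ) := by
    intro I
    show (z : ℝ) ^ 2 ^ I ≤ Real.exp (L / (512 * Θ)) ↔ _
    rw [pow_le_exp_iff hzpos]
    push_cast
    rfl
  have hiL' : ∃ inst : DecidablePred P, iL Θ L = @Nat.findGreatest P inst ⌈L⌉₊ := ⟨_, rfl⟩
  obtain ⟨inst, hiL⟩ := hiL'
  have hPJ : P J := by
    rw [hPiff]
    have h3 : (2 : ℝ) ^ J * Real.log z ≤ 2 ^ J * (13 * Real.log L) := by gcongr
    refine h3.trans ?_
    have h4 : (2 : ℝ) ^ J * (13 * Real.log L) ≤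
        2 ^ J * (13 * (1 / (2 ^ J * 13 * (512 * Θ)) * L)) := by gcongr
    refine h4.trans (le_of_eq ?_)
    field_simp
  have hlt : ∀ I, P I → I < ⌈L⌉₊ := by
    intro I hI
    rw [hPiff] at hI
    have h3 : (2 : ℝ) ^ I ≤ L := by
      have h4 : (2 : ℝ) ^ I * 1 ≤ 2 ^ I * Real.log z := by
        gcongr; linarith
      have h5 : L / (512 * Θ) ≤ L := by
        rw [div_le_iff₀ (by positivity)]
        nlinarith
      linarith
    have h4 : (I : ℝ) < 2 ^ I := by
      exact_mod_cast Nat.lt_two_pow_self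
    have h5 : (I : ℝ) < ⌈L⌉₊ := lt_of_lt_of_le (lt_of_lt_of_le h4 h3) (Nat.le_ceil L)
    exact_mod_cast h5
  have hJle : J ≤ iL Θ L := by
    rw [hiL]
    exact Nat.le_findGreatest (hlt J hPJ).le hPJ
  have hPi : P (iL Θ L) := by
    rw [hiL]
    exact Nat.findGreatest_spec (hlt J hPJ).le hPJ
  have hnP : ¬ P (iL Θ L + 1) := by
    have := hlt _ hPi
    have h6 := hiL
    refine Nat.findGreatest_is_greatest (n := ⌈L⌉₊) ?_ (by omega)
    rw [← h6]; exact Nat.lt_succ_self _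
  have hup := (hPiff _).1 hPi
  have hlo : L / (512 * Θ) < 2 ^ (iL Θ L + 1) * Real.log z := by
    rw [hPiff] at hnP
    exact not_le.1 hnP
  have hpi : (0 : ℝ) < 2 ^ (iL Θ L) := by positivity
  have hhalf : (1 / 2 : ℝ) ^ (iL Θ L) = 1 / 2 ^ (iL Θ L) := by
    rw [div_pow, one_pow]
  refine ⟨hJle, hPi, ?_, ?_, ?_, hz1, ?_⟩
  · -- lower bound
    rw [hhalf]
    have h3 : (2 : ℝ) ^ (iL Θ L) * (12 * Real.log L) ≤ L / (512 * Θ) :=
      le_trans (by gcongr) hup
    rw [le_div_iff₀ (by positivity)] at h3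
    rw [le_div_iff₀ hpi]
    have h4 : (1 / 13312 : ℝ) * (Θ * (Real.log L / L)) * 2 ^ (iL Θ L) =
        (2 ^ (iL Θ L) * (12 * Real.log L) * (512 * Θ)) * (1 / (13312 * 12 * 512 * L)) := by
      field_simp
    rw [h4]
    calc _ ≤ L * (1 / (13312 * 12 * 512 * L)) := by gcongr
      _ ≤ 1 := by
        rw [show L * (1 / (13312 * 12 * 512 * L)) = 1 / (13312 * 12 * 512) from by field_simp]
        norm_num
  · rw [hhalf, div_le_iff₀ hpi]
    have h3 : L / (512 * Θ) < 2 ^ (iL Θ L + 1) * (13 * Real.log L) :=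
      lt_of_lt_of_le hlo (by gcongr)
    rw [div_lt_iff₀ (by positivity), pow_succ] at h3
    have h4 : (13312 : ℝ) * (Θ * (Real.log L / L)) * 2 ^ (iL Θ L) =
        (2 ^ (iL Θ L) * 2 * (13 * Real.log L) * (512 * Θ)) * (1 / L) := by
      field_simp
      ring
    rw [h4]
    have h5 : L * (1 / L) ≤ (2 ^ (iL Θ L) * 2 * (13 * Real.log L) * (512 * Θ)) * (1 / L) := by
      gcongr
    have h6 : L * (1 / L) = 1 := by field_simp
    linarith
  · have h3 : (wL L : ℝ) ≤ z := by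
      have h4 : (wL L : ℝ) ≤ L / 100 := Nat.floor_le (by positivity)
      have h5 : L ≤ L ^ 12 := le_self_pow₀ (by linarith) (by norm_num)
      linarith
    exact_mod_cast h3
  · refine (prod_SP_le _).trans ?_
    have h4 : (wL L : ℝ) ≤ L / 100 := Nat.floor_le (by positivity)
    have h5 : (4 : ℝ) ^ (wL L) = Real.exp ((wL L : ℝ) * Real.log 4) := by
      rw [mul_comm, Real.exp_mul, Real.exp_log (by norm_num), Real.rpow_natCast]
    rw [h5]
    refine Real.exp_le_exp.2 ?_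
    have h6 : Real.log 4 ≤ 2 := by
      have : Real.log 4 = 2 * Real.log 2 := by
        rw [show (4 : ℝ) = 2 ^ 2 by norm_num, Real.log_pow]; norm_num
      rw [this]
      have := Real.log_two_lt_d9; linarith
    calc (wL L : ℝ) * Real.log 4 ≤ (L / 100) * 2 := by gcongr
      _ = L / 50 := by ring

end Pool.PP
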