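import Pool.Agent.Work.MP_b0c12c_px.QTr

set_option autoImplicit false

namespace Pool.PP

open Finset Filter

namespace QUL

lemma dvd_iff (y : ℕ) (hy : 0 < y) (h : ℤ) (r : ℕ) (hr : r < y) :
    (y : ℤ) ∣ (r : ℤ) + h ↔ r = ((-h) % (y : ℤ)).toNat := by
  have hy' : (0 : ℤ) < y := by exact_mod_cast hy
  have h1 := Int.emod_nonneg (-h) hy'.ne'
  have h2 := Int.emod_lt_of_pos (-h) hy'
  constructor
  · intro hd
    have h3 : (-h) % (y : ℤ) = (r : ℤ) % (y : ℤ) := by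
      apply Int.ModEq.eq
      apply Int.modEq_iff_dvd.2
      have e : (r : ℤ) - (-h) = r + h := by ring
      rw [e]
      exact hd
    have h4 : (r : ℤ) % (y : ℤ) = r :=
      Int.emod_eq_of_lt (Int.natCast_nonneg r) (by exact_mod_cast hr)
    omega
  · intro he
    have h5 : (r : ℤ) = (-h) % (y : ℤ) := by omega
    rw [h5, Int.emod_def]
    exact ⟨-(-h / (y : ℤ)), by ring⟩

lemma card_res (y : ℕ) (hy : 0 < y) (h : ℤ) :
    ((Ico 0 y).filter (fun r : ℕ => ¬ (y : ℤ) ∣ (r : ℤ) + h)).card = y - 1 := by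
  have hy' : (0 : ℤ) < y := by exact_mod_cast hy
  have h1 := Int.emod_nonneg (-h) hy'.ne'
  have h2 := Int.emod_lt_of_pos (-h) hy'
  have e : (Ico 0 y).filter (fun r : ℕ => ¬ (y : ℤ) ∣ (r : ℤ) + h) =
      (Ico 0 y).erase ((-h) % (y : ℤ)).toNat := by
    ext r
    simp only [mem_filter, mem_erase, mem_Ico]
    constructor
    · rintro ⟨hr, hd⟩
      exact ⟨fun he => hd ((dvd_iff y hy h r hr.2).2 he), hr⟩
    · rintro ⟨hd, hr⟩
      exact ⟨hr, fun he => hd ((dvd_iff y hy h r hr.2).1 he)⟩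
  rw [e, card_erase_of_mem, Nat.card_Ico, Nat.sub_zero]
  rw [mem_Ico]
  omega

lemma card_pi (w : ℕ) (h : ℤ) :
    ((Fintype.piFinset (fun y : SPt w => Ico 0 (y : ℕ))).filter
      (fun ω => ∀ y : SPt w, ¬ ((y : ℕ) : ℤ) ∣ (ω y : ℤ) + h)).card =
        ∏ y : SPt w, ((y : ℕ) - 1) := by
  classical
  have h1 : (Fintype.piFinset (fun y : SPt w => Ico 0 (y : ℕ))).filter
      (fun ω => ∀ y : SPt w, ¬ ((y : ℕ) : ℤ) ∣ (ω y : ℤ) + h) =
      Fintype.piFinset (fun y : SPt w =>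
        (Ico 0 (y : ℕ)).filter (fun r : ℕ => ¬ ((y : ℕ) : ℤ) ∣ (r : ℤ) + h)) := by
    ext ω
    simp only [mem_filter, Fintype.mem_piFinset]
    exact ⟨fun H y => ⟨H.1 y, H.2 y⟩, fun H => ⟨fun y => (H y).1, fun y => (H y).2⟩⟩
  rw [h1, Fintype.card_piFinset]
  refine Finset.prod_congr rfl fun y _ => card_res _ ?_ _
  have := y.2
  simp only [SP, mem_filter, mem_Icc] at this
  omega

lemma sum_T (w H2 H1 : ℕ) :
    ∑ ω ∈ Fintype.piFinset (fun y : SPt w => Ico 0 (y : ℕ)),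
        ((swQ H2 H1 ω \ KQ H2 H1).card : ℝ) =
      ((univ \ KQ H2 H1).card : ℝ) * ∏ y : SPt w, ((y : ℝ) - 1) := by
  classical
  have h1 : ∀ ω : SPt w → ℕ, ((swQ H2 H1 ω \ KQ H2 H1).card : ℝ) =
      ∑ h ∈ univ \ KQ H2 H1,
        if (∀ y : SPt w, ¬ ((y : ℕ) : ℤ) ∣ (ω y : ℤ) + (h : ℤ)) then (1 : ℝ) else 0 := by
    intro ω
    rw [Finset.sum_boole]
    congr 2
    ext h
    simp only [swQ, Sw, Finset.mem_sdiff, Finset.mem_filter, Finset.mem_univ, true_and]
    exact and_comm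
  rw [Finset.sum_congr rfl fun ω _ => h1 ω, Finset.sum_comm, Finset.card_eq_sum_ones]
  push_cast
  rw [Finset.sum_mul]
  apply Finset.sum_congr rfl
  intro h _
  rw [Finset.sum_boole, card_pi, one_mul, Nat.cast_prod]
  apply Finset.prod_congr rfl
  intro y _
  have := y.2
  simp only [SP, mem_filter, mem_Icc] at this
  rw [Nat.cast_sub (by omega), Nat.cast_one]

lemma card_KQ (H2 H1 : ℕ) : H1 ≤ (univ \ KQ H2 H1).card := by
  have h1 : (Ioc (0 : ℤ) (H1 : ℤ)).card ≤ (univ \ KQ H2 H1).card := by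
    apply Finset.card_le_card_of_surjOn (fun h : SH H2 H1 => (h : ℤ))
    intro x hx
    have hx' : 0 < x ∧ x ≤ (H1 : ℤ) := by simpa using hx
    have hm : x ∈ Ioc (-(H2 : ℤ)) (H1 : ℤ) := by
      rw [mem_Ioc]
      omega
    refine ⟨⟨x, hm⟩, ?_, rfl⟩
    simp only [KQ, coe_sdiff, Set.mem_sdiff, mem_coe, mem_univ, mem_filter, true_and, not_le]
    exact hx'.1
  simpa using h1

lemma mU_lower (x : ℝ) (hx : 0 ≤ x) (n k : ℕ) : x ^ k ≤ x ^ k * (1 + x) ^ n :=
  le_mul_of_one_le_right (pow_nonneg hx k) (one_le_pow₀ (by linarith))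

lemma choose_lower (T k : ℕ) (h : 2 * k ≤ T) :
    ((T : ℝ) / 2) ^ k / (k.factorial : ℝ) ≤ (T.choose k : ℝ) := by
  have h1 := Nat.pow_le_choose (α := ℝ) k T
  have h0 : (0 : ℝ) < (k.factorial : ℝ) := by exact_mod_cast k.factorial_pos
  have h2 : ((T : ℝ) / 2) ^ k ≤ ((T + 1 - k : ℕ) : ℝ) ^ k := by
    apply pow_le_pow_left₀ (by positivity)
    rw [Nat.cast_sub (by omega)]
    push_cast
    have : (2 : ℝ) * k ≤ T := by exact_mod_cast h
    linarith
  exact (div_le_div_of_nonneg_right h2 h0.le).trans h1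

/-- the averaging argument -/
lemma markov {α : Type} (Om : Finset α) (T : α → ℝ) (t M : ℝ) (hM : 0 < M)
    (hT : ∀ ω ∈ Om, T ω ≤ M) (ht0 : 0 ≤ t)
    (hs : 2 * t * Om.card ≤ ∑ ω ∈ Om, T ω) :
    t / M * Om.card ≤ ((Om.filter (fun ω => t ≤ T ω)).card : ℝ) := by
  classical
  have h1 : ∑ ω ∈ Om, T ω ≤ ∑ ω ∈ Om, (t + if t ≤ T ω then M else 0) := by
    apply Finset.sum_le_sum
    intro ω hω
    split_ifs with h
    · linarith [hT ω hω]
    · linarith
  have h2 : ∑ ω ∈ Om, (t + if t ≤ T ω then M else 0) =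
      t * Om.card + M * ((Om.filter (fun ω => t ≤ T ω)).card : ℝ) := by
    rw [Finset.sum_add_distrib, Finset.sum_const, nsmul_eq_mul, ← Finset.sum_filter,
      Finset.sum_const, nsmul_eq_mul]
    ring
  rw [div_mul_eq_mul_div, div_le_iff₀ hM]
  linarith

end QUL

open QUL in
theorem p_QUL (h1 : Stmt_QSC) (h2 : Stmt_QMT) (h3 : Stmt_QSX) : Stmt_QUL := by
  classical
  intro J k Θ a C2 hJ hΘ ha hC2
  obtain ⟨C1, hC1, hsc⟩ := h1 C2 hC2
  obtain ⟨C, hC, hmt⟩ := h2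
  obtain ⟨C3, hC3, hsx⟩ := h3
  have hJ' : (0 : ℝ) < J := by exact_mod_cast hJ
  have hΘ' : (0 : ℝ) < Θ := by exact_mod_cast hΘ
  have hC0 : 0 < C := by linarith
  have hC30 : 0 < C3 := by linarith
  set c1 : ℝ := a * (2 ^ J * Θ) / (2 * C * C3 * (J : ℝ) ^ 2) with hc1
  have hc1p : 0 < c1 := by positivity
  refine ⟨a / (2 * C * C1) * ((c1 / 2) ^ k / (k.factorial : ℝ)), by positivity, ?_⟩
  have hlo : ∀ᶠ L : ℝ in atTop, Real.log L ≤ a / (4 * C * (k + 1)) * L := by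
    have h4 : (0 : ℝ) < a / (4 * C * (k + 1)) := by positivity
    have h5 := Real.isLittleO_log_id_atTop.bound h4
    filter_upwards [h5, eventually_ge_atTop (1 : ℝ)] with L hL hL1
    have h6 : ‖Real.log L‖ = Real.log L := by
      rw [Real.norm_eq_abs, abs_of_nonneg (Real.log_nonneg hL1)]
    have h7 : ‖(id L : ℝ)‖ = L := by
      rw [id, Real.norm_eq_abs, abs_of_nonneg (by linarith)]
    rw [h6, h7] at hL
    exact hL
  filter_upwards [hsc, hmt, hsx J Θ hJ hΘ, hlo, eventually_ge_atTop (3 : ℝ)] with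
    L hL1 hL2 hL3 hL4 hL5 H2 H1 hH2 hH1a hH1
  have hLpos : 0 < L := by linarith
  have hlog : 0 < Real.log L := Real.log_pos (by linarith)
  set w := wL L with hw
  set x := sX (xQ (zL L) (iL Θ L) J) with hx
  have hx0 : 0 < x := by
    refine lt_of_lt_of_le ?_ hL3.1
    positivity
  set Om := Fintype.piFinset (fun y : SPt w => Ico 0 (y : ℕ)) with hOm
  have hypos : ∀ y : SPt w, 2 ≤ (y : ℕ) := by
    intro y
    have := y.2
    simp only [SP, mem_filter, mem_Icc] at this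
    exact this.2.two_le
  have hypos' : ∀ y : SPt w, (2 : ℝ) ≤ ((y : ℕ) : ℝ) := fun y => by exact_mod_cast hypos y
  have hcard : (Om.card : ℝ) = ∏ y : SPt w, (y : ℝ) := by
    rw [hOm, Fintype.card_piFinset]
    simp
  set P : ℝ := ∏ y : SPt w, (y : ℝ) with hP
  have hP0 : 0 < P := Finset.prod_pos fun y _ => by linarith [hypos' y]
  set t : ℝ := a * L / (2 * C * Real.log L) with ht
  have ht0 : 0 < t := by positivity
  set M : ℝ := C1 * (L / Real.log L) with hM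
  have hM0 : 0 < M := by positivity
  have htM : t / M = a / (2 * C * C1) := by
    rw [ht, hM]
    field_simp
  have htk : 2 * ((k : ℝ) + 1) ≤ t := by
    rw [ht, le_div_iff₀ (by positivity)]
    have h6 : 2 * ((k : ℝ) + 1) * (2 * C * Real.log L) ≤
        2 * ((k : ℝ) + 1) * (2 * C * (a / (4 * C * (k + 1)) * L)) := by
      gcongr
    refine h6.trans (le_of_eq ?_)
    field_simp
    ring
  have hTM : ∀ ω ∈ Om, ((swQ H2 H1 ω \ KQ H2 H1).card : ℝ) ≤ M := by
    intro ω _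
    refine le_trans ?_ (hL1 H2 H1 hH2 hH1 ω)
    exact_mod_cast Finset.card_le_card Finset.sdiff_subset
  have hmean : 2 * t * Om.card ≤ ∑ ω ∈ Om, ((swQ H2 H1 ω \ KQ H2 H1).card : ℝ) := by
    rw [hOm, sum_T]
    rw [← hOm, hcard]
    have h7 : (∏ y : SPt w, (y : ℝ) / ((y : ℝ) - 1)) * ∏ y : SPt w, ((y : ℝ) - 1) = P := by
      rw [← Finset.prod_mul_distrib]
      apply Finset.prod_congr rfl
      intro y _
      have := hypos' y
      have h8 : ((y : ℕ) : ℝ) - 1 ≠ 0 := by linarith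
      field_simp
    have h9 : 0 < ∏ y : SPt w, ((y : ℝ) - 1) := Finset.prod_pos fun y _ => by
      have := hypos' y
      linarith
    have h10 : P ≤ C * Real.log L * ∏ y : SPt w, ((y : ℝ) - 1) := by
      rw [← h7]
      exact mul_le_mul_of_nonneg_right hL2.2 h9.le
    have h11 : a * L ≤ ((univ \ KQ H2 H1).card : ℝ) :=
      hH1a.trans (by exact_mod_cast card_KQ H2 H1)
    calc 2 * t * P ≤ 2 * t * (C * Real.log L * ∏ y : SPt w, ((y : ℝ) - 1)) := by gcongr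
      _ = a * L * ∏ y : SPt w, ((y : ℝ) - 1) := by
          rw [ht]
          field_simp
      _ ≤ _ := by gcongr
  have hgood := markov Om (fun ω => ((swQ H2 H1 ω \ KQ H2 H1).card : ℝ)) t M hM0 hTM ht0.le hmean
  rw [htM, hcard] at hgood
  have hval : ∀ ω ∈ Om.filter (fun ω => t ≤ ((swQ H2 H1 ω \ KQ H2 H1).card : ℝ)),
      (c1 / 2) ^ k / (k.factorial : ℝ) ≤
        mQ (zL L) (iL Θ L) J k H2 H1 (swQ H2 H1 ω) := by
    intro ω hω
    rw [mem_filter] at hω
    have hT := hω.2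
    set T := (swQ H2 H1 ω \ KQ H2 H1).card with hTd
    have h12 : 2 * k ≤ T := by
      have : (2 * (k : ℝ)) ≤ T := by linarith
      exact_mod_cast this
    have h13 := choose_lower T k h12
    have h14 : c1 ≤ T * x := by
      calc c1 = t * (1 / C3 * (2 ^ J * (Θ * (Real.log L / L)) / (J : ℝ) ^ 2)) := by
            rw [hc1, ht]
            field_simp
        _ ≤ T * x := by
            apply mul_le_mul hT hL3.1 (by positivity) (by positivity)
    unfold mQ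
    rw [← hTd]
    unfold mU
    rw [← hx]
    calc (c1 / 2) ^ k / (k.factorial : ℝ) ≤ (T * x / 2) ^ k / (k.factorial : ℝ) := by
          gcongr
      _ = ((T : ℝ) / 2) ^ k / (k.factorial : ℝ) * x ^ k := by
          have : (T : ℝ) * x / 2 = (T : ℝ) / 2 * x := by ring
          rw [this, mul_pow]
          ring
      _ ≤ (T.choose k : ℝ) * (x ^ k * (1 + x) ^ (KQ H2 H1 ∩ swQ H2 H1 ω).card) := by
          apply mul_le_mul h13 (mU_lower x hx0.le _ k) (by positivity) (by positivity)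
  have hnn : ∀ ω ∈ Om, 0 ≤ mQ (zL L) (iL Θ L) J k H2 H1 (swQ H2 H1 ω) := by
    intro ω _
    unfold mQ mU
    rw [← hx]
    positivity
  have hden : (∏ y : SPt w, ((y : ℝ) - ((0 : ℕ) : ℝ))) = P := by
    rw [hP]
    simp
  unfold UQ avQ
  rw [hden, le_div_iff₀ hP0, ← hOm]
  set v : ℝ := (c1 / 2) ^ k / (k.factorial : ℝ) with hv
  have hv0 : 0 ≤ v := by positivity
  calc a / (2 * C * C1) * v * P = a / (2 * C * C1) * P * v := by ring
    _ ≤ ((Om.filter (fun ω => t ≤ ((swQ H2 H1 ω \ KQ H2 H1).card : ℝ))).card : ℝ) * v :=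
        mul_le_mul_of_nonneg_right hgood hv0
    _ = ∑ ω ∈ Om.filter (fun ω => t ≤ ((swQ H2 H1 ω \ KQ H2 H1).card : ℝ)), v := by
        rw [Finset.sum_const, nsmul_eq_mul]
    _ ≤ ∑ ω ∈ Om.filter (fun ω => t ≤ ((swQ H2 H1 ω \ KQ H2 H1).card : ℝ)),
          mQ (zL L) (iL Θ L) J k H2 H1 (swQ H2 H1 ω) := Finset.sum_le_sum hval
    _ ≤ ∑ ω ∈ Om, mQ (zL L) (iL Θ L) J k H2 H1 (swQ H2 H1 ω) :=
        Finset.sum_le_sum_of_subset_of_nonneg (Finset.filter_subset _ _) fun ω hω _ => hnn ω hω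

end Pool.PP
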