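import Pool.Agent.Work.MP_b0c12c_px.QLoc

/-! # Block QXB (helper4) -/

set_option autoImplicit false

namespace Pool.PP

open Finset

theorem p_QXB (h1 : Stmt_GMO) (h2 : Stmt_BMR) (h3 : Stmt_ORT) (h4 : Stmt_FRE) (h5 : Stmt_QFA)
    (h6 : Stmt_QFB) : Stmt_QXB := by
  obtain ⟨C1, hC1, hG⟩ := h1
  obtain ⟨C2, z1, hz1, hB⟩ := h2
  obtain ⟨c, z2, hc, hz2, hF⟩ := h6
  obtain ⟨C2', hC2', hC21⟩ : ∃ C2' : ℝ, C2 ≤ C2' ∧ 1 ≤ C2' :=
    ⟨max C2 1, le_max_left _ _, le_max_right _ _⟩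
  have hK0 : 0 < 2 * (C1 * C2') := by positivity
  obtain ⟨C, hCa, hCb, hCc⟩ : ∃ C : ℝ, 2 * (C1 * C2') ≤ C ∧ 2 / c ≤ C ∧ 1 ≤ C :=
    ⟨max (max (2 * (C1 * C2')) (2 / c)) 1, le_trans (le_max_left _ _) (le_max_left _ _),
      le_trans (le_max_right _ _) (le_max_left _ _), le_max_right _ _⟩
  refine ⟨C, max z1 z2, hCc, le_trans hz1 (le_max_left _ _), ?_⟩
  intro z I J π _ _ pr b hz hJ hJI hPB
  have hzz1 : z1 ≤ z := le_trans (le_max_left _ _) hz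
  have hzz2 : z2 ≤ z := le_trans (le_max_right _ _) hz
  have hz2' : 2 ≤ z := le_trans hz1 hzz1
  have hprz : ∀ x, z < pr x := fun x => ((hPB.range (pr x)).1 ⟨x, rfl⟩).2.1
  obtain ⟨hBlk0, hfr0, hq0⟩ := hB z I hzz1 π pr b hPB 0 (by norm_num)
  obtain ⟨hBlk1, hfr1, hq1⟩ := hB z I hzz1 π pr b hPB 1 le_rfl
  have hI1 : 1 ≤ I := le_trans hJ hJI
  have hz0R : (0 : ℝ) < z := by
    have : 0 < z := by omega
    exact_mod_cast this
  have hpow : ∀ s : ℕ, s < I → (1 / 2 : ℝ) ^ (I - 1 - s) = 2 * (2 ^ s * (1 / 2 : ℝ) ^ I) := by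
    intro s hs
    have hI : (1 / 2 : ℝ) ^ I = (1 / 2 : ℝ) ^ (I - 1 - s) * (1 / 2 : ℝ) ^ (s + 1) := by
      rw [← pow_add]; congr 1; omega
    rw [hI]
    have h2 : (2 : ℝ) ^ (s + 1) * (1 / 2 : ℝ) ^ (s + 1) = 1 := by
      rw [← mul_pow]; norm_num
    calc (1 / 2 : ℝ) ^ (I - 1 - s) = (1 / 2 : ℝ) ^ (I - 1 - s) *
          ((2 : ℝ) ^ (s + 1) * (1 / 2 : ℝ) ^ (s + 1)) := by rw [h2, mul_one]
      _ = 2 * (2 ^ s * ((1 / 2 : ℝ) ^ (I - 1 - s) * (1 / 2 : ℝ) ^ (s + 1))) := by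
          rw [pow_succ 2 s]; ring
  have hhalf : ∀ n : ℕ, (0 : ℝ) < (1 / 2 : ℝ) ^ n := fun n => by positivity
  -- moments
  have hmom : ∀ r : ℕ, 1 ≤ r → r ≤ 8 → ∀ s : Fin J,
      E1 (qc 0 pr) (fun T => |gs (qc 0 pr) b I s T| ^ r) ≤
        2 * (C1 * C2') * 2 ^ (s : ℕ) * (1 / 2 : ℝ) ^ I := by
    intro r hr1 hr8 s
    have hsI : (s : ℕ) < I := lt_of_lt_of_le s.2 hJI
    have e1 := (hG π (qc 0 pr) b I hBlk0 r hr1 hr8).1 (I - 1 - s) (by omega)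
    have e2 := hfr0 (I - 1 - s) (by omega)
    have e3 := hpow s hsI
    calc E1 (qc 0 pr) (fun T => |gs (qc 0 pr) b I s T| ^ r)
        ≤ C1 * fr (qc 0 pr) b (I - 1 - s) := e1
      _ ≤ C1 * (C2 * (1 / 2 : ℝ) ^ (I - 1 - s)) := by gcongr
      _ ≤ C1 * (C2' * (1 / 2 : ℝ) ^ (I - 1 - s)) := by gcongr
      _ = 2 * (C1 * C2') * 2 ^ (s : ℕ) * (1 / 2 : ℝ) ^ I := by rw [e3]; ring
  have hx : ∀ s : Fin J, xs (qc 0 pr) (fun s : Fin J => gs (qc 0 pr) b I s) s ≤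
      2 * (C1 * C2') * 2 ^ (s : ℕ) * (1 / 2 : ℝ) ^ I / (J : ℝ) ^ 2 := by
    intro s
    have e := hmom 2 (by norm_num) (by norm_num) s
    simp only [sq_abs] at e
    unfold xs
    gcongr
  have hJ0 : (0 : ℝ) < J := by exact_mod_cast (by omega : 0 < J)
  have hxlo : ∀ s : Fin J, c * (2 ^ (s : ℕ) * (1 / 2 : ℝ) ^ I) / (J : ℝ) ^ 2 ≤
      xs (qc 0 pr) (fun s : Fin J => gs (qc 0 pr) b I s) s := by
    intro s
    have hsI : (s : ℕ) < I := lt_of_lt_of_le s.2 hJI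
    have e1 := h5 π (qc 0 pr) b I hBlk0 s hsI
    have e2 := hF z I hzz2 π pr b hPB 0 (by norm_num) (I - s) (by omega)
    have e3 : (1 / 2 : ℝ) ^ (I - s) = 2 ^ (s : ℕ) * (1 / 2 : ℝ) ^ I := by
      have hI : (1 / 2 : ℝ) ^ I = (1 / 2 : ℝ) ^ (I - s) * (1 / 2 : ℝ) ^ (s : ℕ) := by
        rw [← pow_add]; congr 1; omega
      rw [hI]
      have h2 : (2 : ℝ) ^ (s : ℕ) * (1 / 2 : ℝ) ^ (s : ℕ) = 1 := by
        rw [← mul_pow]; norm_num
      calc (1 / 2 : ℝ) ^ (I - s) = (1 / 2 : ℝ) ^ (I - s) *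
            ((2 : ℝ) ^ (s : ℕ) * (1 / 2 : ℝ) ^ (s : ℕ)) := by rw [h2, mul_one]
        _ = _ := by ring
    rw [e3] at e2
    unfold xs
    gcongr
    exact le_trans e2 e1
  have hx0 : ∀ s : Fin J, 0 ≤ xs (qc 0 pr) (fun s : Fin J => gs (qc 0 pr) b I s) s := by
    intro s
    exact le_trans (by positivity) (hxlo s)
  have hgeo : ∑ s : Fin J, (2 : ℝ) ^ (s : ℕ) = 2 ^ J - 1 := by
    rw [Fin.sum_univ_eq_sum_range (fun s => (2 : ℝ) ^ s) J]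
    have := geom_sum_eq (x := (2 : ℝ)) (by norm_num) J
    rw [this]; norm_num
  have h2J : (2 : ℝ) ≤ 2 ^ J := by
    calc (2 : ℝ) = 2 ^ 1 := by norm_num
      _ ≤ 2 ^ J := pow_le_pow_right₀ (by norm_num) hJ
  refine ⟨h3 π (qc 0 pr) b I J hBlk0 hJI, fun s => (h4 π (qc 0 pr) b I hBlk0).1 s
    (lt_of_lt_of_le s.2 hJI), (h4 π (qc 0 pr) b I hBlk0).2.1, (h4 π (qc 0 pr) b I hBlk0).2.2,
    ?_, ?_, hq0, ?_, ?_, ?_, ?_, ?_⟩
  · intro x
    have hp : (z : ℝ) < pr x := by exact_mod_cast hprz x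
    refine ⟨hBlk0.nonneg x, ?_⟩
    unfold qc
    rw [Nat.cast_zero, sub_zero]
    exact one_div_le_one_div_of_le hz0R hp.le
  · intro x
    have hp : (z : ℝ) < pr x := by exact_mod_cast hprz x
    have hz2R : (2 : ℝ) ≤ z := by exact_mod_cast hz2'
    have hp0 : (0 : ℝ) < pr x := by linarith
    have hp1 : (0 : ℝ) < (pr x : ℝ) - 1 := by linarith
    unfold qc
    rw [Nat.cast_zero, sub_zero, Nat.cast_one]
    have e : 1 / ((pr x : ℝ) - 1) - 1 / (pr x : ℝ) = 1 / (((pr x : ℝ) - 1) * pr x) := by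
      field_simp
      ring
    rw [e, abs_of_nonneg (by positivity)]
    rw [div_pow, one_pow, mul_one_div, div_le_div_iff₀ (by positivity) (by positivity)]
    nlinarith
  · intro r hr1 hr8
    refine ⟨fun s => ?_, ?_, ?_⟩
    · calc E1 (qc 0 pr) (fun T => |gs (qc 0 pr) b I s T| ^ r)
          ≤ 2 * (C1 * C2') * 2 ^ (s : ℕ) * (1 / 2 : ℝ) ^ I := hmom r hr1 hr8 s
        _ ≤ C * 2 ^ (s : ℕ) * (1 / 2 : ℝ) ^ I := by gcongr
    · have e1 := (hG π (qc 0 pr) b I hBlk0 r hr1 hr8).2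
      have e2 := hfr0 I le_rfl
      calc E1 (qc 0 pr) (fun T => rho b I T ^ r) ≤ C1 * fr (qc 0 pr) b I := e1
        _ ≤ C1 * (C2 * (1 / 2 : ℝ) ^ I) := by gcongr
        _ ≤ C1 * (C2' * (1 / 2 : ℝ) ^ I) := by gcongr
        _ = (C1 * C2') * (1 / 2 : ℝ) ^ I := by ring
        _ ≤ C * (1 / 2 : ℝ) ^ I := by
            have : C1 * C2' ≤ C := by
              have : 0 < C1 * C2' := by positivity
              linarith
            gcongr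
    · have e1 := (hG π (qc 1 pr) b I hBlk1 r hr1 hr8).2
      have e2 := hfr1 I le_rfl
      calc E1 (qc 1 pr) (fun T => rho b I T ^ r) ≤ C1 * fr (qc 1 pr) b I := e1
        _ ≤ C1 * (C2 * (1 / 2 : ℝ) ^ I) := by gcongr
        _ ≤ C1 * (C2' * (1 / 2 : ℝ) ^ I) := by gcongr
        _ = (C1 * C2') * (1 / 2 : ℝ) ^ I := by ring
        _ ≤ C * (1 / 2 : ℝ) ^ I := by
            have : C1 * C2' ≤ C := by
              have : 0 < C1 * C2' := by positivity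
              linarith
            gcongr
  · -- lower bound for the sum
    have hsum : ∑ s : Fin J, c * (2 ^ (s : ℕ) * (1 / 2 : ℝ) ^ I) / (J : ℝ) ^ 2 =
        c * ((2 ^ J - 1) * (1 / 2 : ℝ) ^ I) / (J : ℝ) ^ 2 := by
      rw [← Finset.sum_div, ← Finset.mul_sum, ← Finset.sum_mul, hgeo]
    have e1 : c * ((2 ^ J - 1) * (1 / 2 : ℝ) ^ I) / (J : ℝ) ^ 2 ≤
        sX (xs (qc 0 pr) (fun s : Fin J => gs (qc 0 pr) b I s)) := by
      rw [← hsum]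
      unfold sX
      exact Finset.sum_le_sum (fun s _ => hxlo s)
    refine le_trans ?_ e1
    have hcC : 1 / C ≤ c / 2 := by
      have hC0 : 0 < C := by linarith
      rw [div_le_div_iff₀ hC0 (by norm_num)]
      have := (div_le_iff₀ hc).1 hCb
      linarith
    calc (1 / C) * (2 ^ J * (1 / 2 : ℝ) ^ I / (J : ℝ) ^ 2)
        ≤ (c / 2) * (2 ^ J * (1 / 2 : ℝ) ^ I / (J : ℝ) ^ 2) := by gcongr
      _ = c * ((2 ^ J / 2) * (1 / 2 : ℝ) ^ I) / (J : ℝ) ^ 2 := by ring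
      _ ≤ c * ((2 ^ J - 1) * (1 / 2 : ℝ) ^ I) / (J : ℝ) ^ 2 := by
          gcongr
          linarith
  · have hsum : ∑ s : Fin J, 2 * (C1 * C2') * 2 ^ (s : ℕ) * (1 / 2 : ℝ) ^ I / (J : ℝ) ^ 2 =
        2 * (C1 * C2') * ((2 ^ J - 1) * (1 / 2 : ℝ) ^ I) / (J : ℝ) ^ 2 := by
      rw [← Finset.sum_div, ← Finset.sum_mul, ← Finset.mul_sum, hgeo]
      ring
    calc sX (xs (qc 0 pr) (fun s : Fin J => gs (qc 0 pr) b I s))
        ≤ ∑ s : Fin J, 2 * (C1 * C2') * 2 ^ (s : ℕ) * (1 / 2 : ℝ) ^ I / (J : ℝ) ^ 2 := by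
          unfold sX
          exact Finset.sum_le_sum (fun s _ => hx s)
      _ = 2 * (C1 * C2') * ((2 ^ J - 1) * (1 / 2 : ℝ) ^ I) / (J : ℝ) ^ 2 := hsum
      _ ≤ C * (2 ^ J * (1 / 2 : ℝ) ^ I) / (J : ℝ) ^ 2 := by
          have h0 : (0 : ℝ) ≤ 2 ^ J - 1 := by linarith
          gcongr
          linarith
      _ = C * (2 ^ J * (1 / 2 : ℝ) ^ I / (J : ℝ) ^ 2) := by ring
  · unfold sY
    exact Finset.sum_nonneg (fun s _ => mul_nonneg (by positivity) (hx0 s))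
  · unfold sY
    calc ∑ s : Fin J, (1 / 2 : ℝ) ^ (s : ℕ) *
          xs (qc 0 pr) (fun s : Fin J => gs (qc 0 pr) b I s) s
        ≤ ∑ s : Fin J, (1 / 2 : ℝ) ^ (s : ℕ) *
            (2 * (C1 * C2') * 2 ^ (s : ℕ) * (1 / 2 : ℝ) ^ I / (J : ℝ) ^ 2) := by
          apply Finset.sum_le_sum
          intro s _
          exact mul_le_mul_of_nonneg_left (hx s) (by positivity)
      _ = ∑ s : Fin J, 2 * (C1 * C2') * (1 / 2 : ℝ) ^ I / (J : ℝ) ^ 2 := by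
          apply Finset.sum_congr rfl
          intro s _
          have h2 : (1 / 2 : ℝ) ^ (s : ℕ) * (2 : ℝ) ^ (s : ℕ) = 1 := by
            rw [← mul_pow]; norm_num
          calc (1 / 2 : ℝ) ^ (s : ℕ) *
                (2 * (C1 * C2') * 2 ^ (s : ℕ) * (1 / 2 : ℝ) ^ I / (J : ℝ) ^ 2)
              = ((1 / 2 : ℝ) ^ (s : ℕ) * (2 : ℝ) ^ (s : ℕ)) *
                (2 * (C1 * C2') * (1 / 2 : ℝ) ^ I / (J : ℝ) ^ 2) := by ring
            _ = _ := by rw [h2, one_mul]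
      _ = 2 * (C1 * C2') * (1 / 2 : ℝ) ^ I / J := by
          rw [Finset.sum_const, Finset.card_univ, Fintype.card_fin, nsmul_eq_mul]
          field_simp
      _ ≤ C * (1 / 2 : ℝ) ^ I / J := by gcongr

end Pool.PP
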