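import Pool.Agent.Work.MP_b0c12c_px.B_UCI

/-! # Block UCD: decreasing chains (helper30, mirror image of B_UCI) -/

set_option autoImplicit false

namespace Pool.PP

open Finset Filter

/-- The mirrored positions. -/
noncomputable def UCD_b (lam M : ℝ) (J₁ i : ℕ) : ℝ := UCI_a lam M J₁ - UCI_a lam M (J₁ - 1 - i)

theorem UCD_b_nonneg (lam M : ℝ) (hl : 0 < lam) (hM : 0 < M) (J₁ i : ℕ) :
    0 ≤ UCD_b lam M J₁ i := by
  unfold UCD_b
  have h := UCI_a_mono lam M hl hM (show J₁ - 1 - i ≤ J₁ by omega)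
  linarith

theorem UCD_b_far (lam M : ℝ) (hl : 0 < lam) (hM : 0 < M) (J₁ i i' : ℕ) (h : i < i')
    (hi' : i' < J₁) :
    M * (UCI_a lam M (J₁ - 1 - i') + 1) ≤ UCD_b lam M J₁ i' - UCD_b lam M J₁ i - 1 ∧
      2 * lam ≤ UCD_b lam M J₁ i' - UCD_b lam M J₁ i - 1 := by
  have h1 := UCI_a_far lam M hl hM (J₁ - 1 - i') (J₁ - 1 - i) (by omega)
  have h0 := UCI_a_nonneg lam M hl hM (J₁ - 1 - i')
  unfold UCD_b
  constructor
  · nlinarith
  · nlinarith [mul_nonneg hM.le h0]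

/-- The main step: a good integer `n` gives an index. -/
theorem UCD_main (k J₁ n : ℕ) (lam M L : ℝ) (hl : 0 < lam) (hM : 0 < M) (hL : 0 < L)
    (K : ℝ) (hK : K = UCI_a lam M J₁ + 1) (l : ℕ → ℝ)
    (hlo : ∀ j, n < Nat.nth Nat.Prime j → Nat.nth Nat.Prime j ≤ n + ⌊K * L⌋₊ →
      L ≤ l j ∧ l j ≤ 2 * L)
    (hG : Gd J₁ (fun i => ⌊UCD_b lam M J₁ i * L⌋₊) ⌊(1 : ℝ) * L⌋₊ ⌊K * L⌋₊ (k + 1) n) :
    ∃ j, n < Nat.nth Nat.Prime j ∧ (Nat.nth Nat.Prime j : ℝ) ≤ n + K * L ∧
      (∀ i ≤ k, lam * l j ≤ gN (j + i) ∧ gN (j + i) ≤ K * l j) ∧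
        ∀ i < k, M * gN (j + i + 1) ≤ gN (j + i) := by
  obtain ⟨hG1, hG2, hG3⟩ := hG
  set H := ⌊K * L⌋₊ with hH
  have hinf := Nat.infinite_setOfPred_prime
  have ha0 := UCI_a_nonneg lam M hl hM
  have hb0 := UCD_b_nonneg lam M hl hM J₁
  have hK0 : 0 < K := by rw [hK]; linarith [ha0 J₁]
  set j := Nat.count Nat.Prime (n + 1) with hj
  -- the primes after `n`
  have hp1 : ∀ r, n < Nat.nth Nat.Prime (j + r) := by
    intro r
    have h1 : n + 1 ≤ Nat.nth Nat.Prime j := Nat.le_nth_count hinf (n + 1)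
    have h2 : Nat.nth Nat.Prime j ≤ Nat.nth Nat.Prime (j + r) :=
      (Nat.nth_monotone hinf) (Nat.le_add_right _ _)
    omega
  have hp2 : ∀ r ≤ k + 1, Nat.nth Nat.Prime (j + r) ≤ n + H := by
    intro r hr
    have h1 := UCI_count n H
    have h2 : j + r < Nat.count Nat.Prime (n + H + 1) := by omega
    have h3 := Nat.nth_lt_of_lt_count h2
    omega
  -- the shifts
  have hs : ∀ r ≤ k + 1, ∃ h, Nat.nth Nat.Prime (j + r) = n + h ∧ 1 ≤ h ∧ h ≤ H := by
    intro r hr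
    refine ⟨Nat.nth Nat.Prime (j + r) - n, ?_, ?_, ?_⟩
    · have := hp1 r; omega
    · have := hp1 r; omega
    · have := hp2 r hr; omega
  -- clusters
  have hcl : ∀ r ≤ k + 1, ∃ h i, Nat.nth Nat.Prime (j + r) = n + h ∧ i < J₁ ∧
      ⌊UCD_b lam M J₁ i * L⌋₊ < h ∧ h ≤ ⌊UCD_b lam M J₁ i * L⌋₊ + ⌊(1 : ℝ) * L⌋₊ := by
    intro r hr
    obtain ⟨h, h1, h2, h3⟩ := hs r hr
    have hpr : (n + h).Prime := by rw [← h1]; exact Nat.prime_nth_prime _
    obtain ⟨i, hi, hi1, hi2⟩ := hG1 h (Finset.mem_Icc.2 ⟨h2, h3⟩) hpr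
    exact ⟨h, i, h1, hi, hi1, hi2⟩
  choose! h ic hh hi hi1 hi2 using hcl
  have hlt : ∀ r < k + 1, h r < h (r + 1) := by
    intro r hr
    have h1 := hh r (by omega)
    have h2 := hh (r + 1) (by omega)
    have h3 : Nat.nth Nat.Prime (j + r) < Nat.nth Nat.Prime (j + (r + 1)) :=
      (Nat.nth_strictMono hinf) (by omega)
    omega
  have hprime : ∀ r ≤ k + 1, (n + h r).Prime := by
    intro r hr
    rw [← hh r hr]; exact Nat.prime_nth_prime _
  have hic : ∀ r < k + 1, ic r < ic (r + 1) := by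
    intro r hr
    by_contra hcon
    rcases Nat.lt_or_ge (ic (r + 1)) (ic r) with hlt' | hge
    · -- the later cluster lies before
      have e1 := UCD_b_far lam M hl hM J₁ _ _ hlt' (hi r (by omega))
      have e2 := UCI_gap (UCD_b lam M J₁ (ic (r + 1))) (UCD_b lam M J₁ (ic r)) L hL (hb0 _) (hb0 _)
        (h (r + 1)) (h r) (hi1 (r + 1) (by omega)) (hi2 (r + 1) (by omega)) (hi1 r (by omega))
        (hi2 r (by omega))
      have e3 : (h r : ℝ) < h (r + 1) := by exact_mod_cast hlt r hr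
      have e4 : 0 ≤ UCD_b lam M J₁ (ic r) - UCD_b lam M J₁ (ic (r + 1)) - 1 := by
        linarith [e1.2]
      have e5 : 0 ≤ L * (UCD_b lam M J₁ (ic r) - UCD_b lam M J₁ (ic (r + 1)) - 1) :=
        mul_nonneg hL.le e4
      linarith [e2.1]
    · have heq : ic (r + 1) = ic r := by omega
      have hc := hG2 (ic r) (hi r (by omega))
      have m1 : h r ∈ (Ioc ⌊UCD_b lam M J₁ (ic r) * L⌋₊
          (⌊UCD_b lam M J₁ (ic r) * L⌋₊ + ⌊(1 : ℝ) * L⌋₊)).filter (fun h => (n + h).Prime) :=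
        Finset.mem_filter.2 ⟨Finset.mem_Ioc.2 ⟨hi1 r (by omega), hi2 r (by omega)⟩,
          hprime r (by omega)⟩
      have m2 : h (r + 1) ∈ (Ioc ⌊UCD_b lam M J₁ (ic r) * L⌋₊
          (⌊UCD_b lam M J₁ (ic r) * L⌋₊ + ⌊(1 : ℝ) * L⌋₊)).filter (fun h => (n + h).Prime) := by
        refine Finset.mem_filter.2 ⟨Finset.mem_Ioc.2 ⟨?_, ?_⟩, hprime (r + 1) (by omega)⟩
        · rw [← heq]; exact hi1 (r + 1) (by omega)
        · rw [← heq]; exact hi2 (r + 1) (by omega)
      have := Finset.card_le_one.1 hc _ m1 _ m2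
      have := hlt r hr
      omega
  -- the gaps
  have hg : ∀ r < k + 1, gN (j + r) = (h (r + 1) : ℝ) - h r := by
    intro r hr
    unfold gN
    have h1 := hh r (by omega)
    have h2 := hh (r + 1) (by omega)
    have e : j + r + 1 = j + (r + 1) := by ring
    rw [e, h1, h2]
    push_cast; ring
  have hgap : ∀ r < k + 1,
      L * (UCD_b lam M J₁ (ic (r + 1)) - UCD_b lam M J₁ (ic r) - 1) ≤ gN (j + r) ∧
      gN (j + r) ≤ L * (UCD_b lam M J₁ (ic (r + 1)) + 1 - UCD_b lam M J₁ (ic r)) := by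
    intro r hr
    rw [hg r hr]
    exact UCI_gap _ _ L hL (hb0 _) (hb0 _) _ _ (hi1 r (by omega)) (hi2 r (by omega))
      (hi1 (r + 1) (by omega)) (hi2 (r + 1) (by omega))
  have hl2 := hlo j (hp1 0) (hp2 0 (by omega))
  refine ⟨j, hp1 0, ?_, ?_, ?_⟩
  · have h1 : Nat.nth Nat.Prime j ≤ n + H := hp2 0 (by omega)
    have h2 : (Nat.nth Nat.Prime j : ℝ) ≤ n + H := by exact_mod_cast h1
    have h3 : (H : ℝ) ≤ K * L := Nat.floor_le (by positivity)
    linarith
  · intro i hik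
    have h1 := hgap i (by omega)
    have h2 := UCD_b_far lam M hl hM J₁ _ _ (hic i (by omega)) (hi (i + 1) (by omega))
    constructor
    · have h3 : 2 * lam ≤ UCD_b lam M J₁ (ic (i + 1)) - UCD_b lam M J₁ (ic i) - 1 := by
        linarith [h2.2]
      have h4 : L * (2 * lam) ≤ L * (UCD_b lam M J₁ (ic (i + 1)) - UCD_b lam M J₁ (ic i) - 1) :=
        mul_le_mul_of_nonneg_left h3 hL.le
      have h5 : lam * l j ≤ lam * (2 * L) := mul_le_mul_of_nonneg_left hl2.2 hl.le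
      linarith [h1.1]
    · have h4 : UCD_b lam M J₁ (ic (i + 1)) + 1 - UCD_b lam M J₁ (ic i) ≤ K := by
        have h5 : UCD_b lam M J₁ (ic (i + 1)) + 1 ≤ K := by
          rw [hK]
          unfold UCD_b
          linarith [ha0 (J₁ - 1 - ic (i + 1))]
        linarith [hb0 (ic i)]
      have h5 : L * (UCD_b lam M J₁ (ic (i + 1)) + 1 - UCD_b lam M J₁ (ic i)) ≤ L * K :=
        mul_le_mul_of_nonneg_left h4 hL.le
      have h6 : K * L ≤ K * l j := mul_le_mul_of_nonneg_left hl2.1 hK0.le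
      linarith [h1.2]
  · intro i hik
    have h1 := hgap i (by omega)
    have h1' := hgap (i + 1) (by omega)
    have h2 := UCD_b_far lam M hl hM J₁ _ _ (hic i (by omega)) (hi (i + 1) (by omega))
    have e : j + (i + 1) = j + i + 1 := by ring
    rw [e] at h1'
    have h3 : M * gN (j + i + 1) ≤
        M * (L * (UCD_b lam M J₁ (ic (i + 1 + 1)) + 1 - UCD_b lam M J₁ (ic (i + 1)))) :=
      mul_le_mul_of_nonneg_left h1'.2 hM.le
    -- the last factor is at most `A m + 1`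
    have h6 : UCD_b lam M J₁ (ic (i + 1 + 1)) + 1 - UCD_b lam M J₁ (ic (i + 1)) ≤
        UCI_a lam M (J₁ - 1 - ic (i + 1)) + 1 := by
      unfold UCD_b
      linarith [ha0 (J₁ - 1 - ic (i + 1 + 1))]
    have h7 : M * (UCD_b lam M J₁ (ic (i + 1 + 1)) + 1 - UCD_b lam M J₁ (ic (i + 1))) ≤
        UCD_b lam M J₁ (ic (i + 1)) - UCD_b lam M J₁ (ic i) - 1 := by
      have h8 := mul_le_mul_of_nonneg_left h6 hM.le
      linarith [h2.1]
    have h5 : L * (M * (UCD_b lam M J₁ (ic (i + 1 + 1)) + 1 - UCD_b lam M J₁ (ic (i + 1)))) ≤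
        L * (UCD_b lam M J₁ (ic (i + 1)) - UCD_b lam M J₁ (ic i) - 1) :=
      mul_le_mul_of_nonneg_left h7 hL.le
    linarith [h1.1, h3, h5]

theorem p_UCD (hC : Stmt_CCU) (hX : Stmt_UIX) : Stmt_UCD := by
  classical
  intro k lam M hl hM
  obtain ⟨C, hC0, hX1, hX2, hX3⟩ := hX
  obtain ⟨J₁, hJ, hCC⟩ := hC (k + 1)
  have ha0 := UCI_a_nonneg lam M hl hM
  obtain ⟨K, hK⟩ : ∃ K, K = UCI_a lam M J₁ + 1 := ⟨_, rfl⟩
  have hK0 : 0 < K := by rw [hK]; linarith [ha0 J₁]
  obtain ⟨c, hc0, hcc⟩ := hCC 1 K (UCD_b lam M J₁) one_pos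
    (fun i _ => UCD_b_nonneg lam M hl hM J₁ i)
    (fun i hi => by
      have h1 := UCD_b_far lam M hl hM J₁ i (i + 1) (Nat.lt_succ_self i) hi
      linarith [h1.2])
    (fun i hi => by
      rw [hK]
      unfold UCD_b
      linarith [ha0 (J₁ - 1 - i)])
  obtain ⟨c', hc', hcc'⟩ := hX3 K c hK0 hc0
  refine ⟨c' / C, K, by positivity, hK0, ?_⟩
  -- the statement for `X`
  have hev : ∀ᶠ X : ℕ in atTop, c' * (X / Real.log X) ≤
      (((range (Nat.primeCounting (3 * X))).filter (fun j : ℕ =>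
        X < Nat.nth Nat.Prime j ∧ Nat.nth Nat.Prime j ≤ 3 * X ∧
        ((∀ i ≤ k, lam * lN j ≤ gN (j + i) ∧ gN (j + i) ≤ K * lN j) ∧
          ∀ i < k, M * gN (j + i + 1) ≤ gN (j + i)))).card : ℝ) := by
    have hsm : ∀ᶠ X : ℕ in atTop, K * Real.log X ≤ X := by
      have h1 : Tendsto (fun x : ℝ => Real.log x / x) atTop (nhds 0) := by
        have := Real.isLittleO_log_id_atTop.tendsto_div_nhds_zero
        simpa using this
      have h2 : Tendsto (fun X : ℕ => Real.log (X : ℝ) / (X : ℝ)) atTop (nhds 0) :=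
        h1.comp tendsto_natCast_atTop_atTop
      have h3 : ∀ᶠ X : ℕ in atTop, Real.log (X : ℝ) / (X : ℝ) < 1 / K :=
        h2.eventually (gt_mem_nhds (by positivity))
      filter_upwards [h3, eventually_gt_atTop 0] with X h4 h5
      have h6 : (0 : ℝ) < X := by exact_mod_cast h5
      rw [div_lt_div_iff₀ h6 hK0] at h4
      linarith
    filter_upwards [hcc, hcc', hsm, eventually_ge_atTop 3] with X h1 h2 h3 h4
    refine (h2 (fun j => (∀ i ≤ k, lam * lN j ≤ gN (j + i) ∧ gN (j + i) ≤ K * lN j) ∧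
          ∀ i < k, M * gN (j + i + 1) ≤ gN (j + i)) ?_).trans ?_
    · refine h1.trans ?_
      have hX3 : (3 : ℝ) ≤ X := by exact_mod_cast h4
      have hL : 0 < Real.log X := Real.log_pos (by linarith)
      refine Nat.cast_le.2 (Finset.card_le_card ?_)
      intro n hn
      have hn' := Finset.mem_filter.1 hn
      have hn1 := Finset.mem_Ioc.1 hn'.1
      refine Finset.mem_filter.2 ⟨hn'.1, ?_⟩
      refine UCD_main k J₁ n lam M (Real.log X) hl hM hL K hK lN ?_ hn'.2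
      · intro j hj1 hj2
        have hf : (⌊K * Real.log X⌋₊ : ℝ) ≤ K * Real.log X := Nat.floor_le (by positivity)
        have hj2' : (Nat.nth Nat.Prime j : ℝ) ≤ n + (⌊K * Real.log X⌋₊ : ℝ) := by
          exact_mod_cast hj2
        have hn2 : (n : ℝ) ≤ 2 * X := by exact_mod_cast hn1.2
        have hlow : (X : ℝ) ≤ Nat.nth Nat.Prime j := by
          have : X ≤ Nat.nth Nat.Prime j := by omega
          exact_mod_cast this
        have hup : (Nat.nth Nat.Prime j : ℝ) ≤ X * X := by nlinarith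
        unfold lN
        constructor
        · exact Real.log_le_log (by linarith) hlow
        · have := Real.log_le_log (by linarith) hup
          rw [Real.log_mul (by linarith) (by linarith)] at this
          linarith
    · refine Nat.cast_le.2 (Finset.card_le_card ?_)
      intro j hj
      simp only [Finset.mem_filter] at hj ⊢
      exact hj
  obtain ⟨X0, hX0⟩ := eventually_atTop.1 hev
  filter_upwards [hX2, eventually_ge_atTop X0] with N h1 h2
  obtain ⟨X, hX1', hX2', hX3'⟩ := h1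
  have h3 := hX0 X (by omega)
  have h4 : c' / C * N ≤ c' * (X / Real.log X) := by
    rw [div_mul_eq_mul_div, div_le_iff₀ hC0]
    calc c' * N ≤ c' * (C * (X / Real.log X)) := mul_le_mul_of_nonneg_left hX3' hc'.le
      _ = c' * (X / Real.log X) * C := by ring
  refine h4.trans (h3.trans ?_)
  refine Nat.cast_le.2 (Finset.card_le_card ?_)
  intro j hj
  have hj' := Finset.mem_filter.1 hj
  have hj1 := Finset.mem_range.1 hj'.1
  exact Finset.mem_filter.2 ⟨Finset.mem_range.2 (by omega), hj'.2.2.2⟩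

end Pool.PP
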