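import Pool.Agent.Work.MP_b0c12c_px.UDefs

set_option autoImplicit false

namespace Pool.PP

open Finset Filter

/-- the lacunary positions -/
noncomputable def UCI_a (lam M : ℝ) : ℕ → ℝ
  | 0 => 0
  | i + 1 => (M + 2) * (UCI_a lam M i + 1) + 2 * lam + 2

theorem UCI_a_nonneg (lam M : ℝ) (hl : 0 < lam) (hM : 0 < M) : ∀ i, 0 ≤ UCI_a lam M i
  | 0 => le_refl _
  | i + 1 => by
    have := UCI_a_nonneg lam M hl hM i
    change 0 ≤ (M + 2) * (UCI_a lam M i + 1) + 2 * lam + 2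
    positivity

theorem UCI_a_step (lam M : ℝ) (hl : 0 < lam) (hM : 0 < M) (i : ℕ) :
    UCI_a lam M i + 1 ≤ UCI_a lam M (i + 1) := by
  have h := UCI_a_nonneg lam M hl hM i
  change UCI_a lam M i + 1 ≤ (M + 2) * (UCI_a lam M i + 1) + 2 * lam + 2
  nlinarith

theorem UCI_a_mono (lam M : ℝ) (hl : 0 < lam) (hM : 0 < M) : Monotone (UCI_a lam M) :=
  monotone_nat_of_le_succ fun i => by linarith [UCI_a_step lam M hl hM i]

theorem UCI_a_far (lam M : ℝ) (hl : 0 < lam) (hM : 0 < M) (i i' : ℕ) (h : i < i') :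
    (M + 2) * (UCI_a lam M i + 1) + 2 * lam + 2 ≤ UCI_a lam M i' :=
  UCI_a_mono lam M hl hM (Nat.succ_le_of_lt h)

/-- two primes of different clusters -/
theorem UCI_gap (x y L : ℝ) (hL : 0 < L) (hx : 0 ≤ x) (hy : 0 ≤ y) (h h' : ℕ)
    (h1 : ⌊x * L⌋₊ < h) (h2 : h ≤ ⌊x * L⌋₊ + ⌊(1 : ℝ) * L⌋₊) (h3 : ⌊y * L⌋₊ < h')
    (h4 : h' ≤ ⌊y * L⌋₊ + ⌊(1 : ℝ) * L⌋₊) :
    L * (y - x - 1) ≤ (h' : ℝ) - h ∧ (h' : ℝ) - h ≤ L * (y + 1 - x) := by
  have e1 : x * L < (⌊x * L⌋₊ : ℝ) + 1 := Nat.lt_floor_add_one _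
  have e2 : y * L < (⌊y * L⌋₊ : ℝ) + 1 := Nat.lt_floor_add_one _
  have e3 : (⌊x * L⌋₊ : ℝ) ≤ x * L := Nat.floor_le (by positivity)
  have e4 : (⌊y * L⌋₊ : ℝ) ≤ y * L := Nat.floor_le (by positivity)
  have e5 : (⌊(1 : ℝ) * L⌋₊ : ℝ) ≤ 1 * L := Nat.floor_le (by positivity)
  have f1 : (⌊x * L⌋₊ : ℝ) + 1 ≤ h := by exact_mod_cast h1
  have f2 : (h : ℝ) ≤ (⌊x * L⌋₊ : ℝ) + (⌊(1 : ℝ) * L⌋₊ : ℝ) := by exact_mod_cast h2
  have f3 : (⌊y * L⌋₊ : ℝ) + 1 ≤ h' := by exact_mod_cast h3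
  have f4 : (h' : ℝ) ≤ (⌊y * L⌋₊ : ℝ) + (⌊(1 : ℝ) * L⌋₊ : ℝ) := by exact_mod_cast h4
  constructor <;> nlinarith

/-- the number of primes in `(n, n + H]` -/
theorem UCI_count (n H : ℕ) :
    ((Icc 1 H).filter (fun h => (n + h).Prime)).card + Nat.count Nat.Prime (n + 1) ≤
      Nat.count Nat.Prime (n + H + 1) := by
  have e : n + H + 1 = n + 1 + H := by ring
  rw [e, Nat.count_add Nat.Prime (n + 1) H,
    Nat.count_eq_card_filter_range (fun k => (n + 1 + k).Prime) H]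
  have : ((Icc 1 H).filter (fun h => (n + h).Prime)).card ≤
      ((range H).filter (fun k => (n + 1 + k).Prime)).card := by
    refine Finset.card_le_card_of_injOn (fun h => h - 1) ?_ ?_
    · intro h hh
      have hh' := Finset.mem_filter.1 (Finset.mem_coe.1 hh)
      have h1 := Finset.mem_Icc.1 hh'.1
      have hr : h - 1 < H := by omega
      refine Finset.mem_coe.2 (Finset.mem_filter.2 ⟨Finset.mem_range.2 hr, ?_⟩)
      have : n + 1 + (h - 1) = n + h := by omega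
      rw [this]; exact hh'.2
    · intro h hh h' hh' hEq
      have h1 := Finset.mem_Icc.1 (Finset.mem_filter.1 (Finset.mem_coe.1 hh)).1
      have h2 := Finset.mem_Icc.1 (Finset.mem_filter.1 (Finset.mem_coe.1 hh')).1
      simp only at hEq
      omega
  omega

/-- The main step: a good integer `n` gives an index. -/
theorem UCI_main (k J₁ n : ℕ) (lam M L : ℝ) (hl : 0 < lam) (hM : 0 < M) (hL : 0 < L)
    (K : ℝ) (hK : K = UCI_a lam M J₁ + 1) (l : ℕ → ℝ)
    (hlo : ∀ j, n < Nat.nth Nat.Prime j → Nat.nth Nat.Prime j ≤ n + ⌊K * L⌋₊ →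
      L ≤ l j ∧ l j ≤ 2 * L)
    (hG : Gd J₁ (fun i => ⌊UCI_a lam M i * L⌋₊) ⌊(1 : ℝ) * L⌋₊ ⌊K * L⌋₊ (k + 1) n) :
    ∃ j, n < Nat.nth Nat.Prime j ∧ (Nat.nth Nat.Prime j : ℝ) ≤ n + K * L ∧
      (∀ i ≤ k, lam * l j ≤ gN (j + i) ∧ gN (j + i) ≤ K * l j) ∧
        ∀ i < k, M * gN (j + i) ≤ gN (j + i + 1) := by
  obtain ⟨hG1, hG2, hG3⟩ := hG
  set H := ⌊K * L⌋₊ with hH
  have hinf := Nat.infinite_setOfPred_prime
  have ha0 := UCI_a_nonneg lam M hl hM
  have hK0 : 0 < K := by rw [hK]; linarith [ha0 J₁]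
  set j := Nat.count Nat.Prime (n + 1) with hj
  -- the primes after `n`
  have hp1 : ∀ r, n < Nat.nth Nat.Prime (j + r) := by
    intro r
    have h1 : n + 1 ≤ Nat.nth Nat.Prime j := Nat.le_nth_count hinf (n + 1)
    have h2 : Nat.nth Nat.Prime j ≤ Nat.nth Nat.Prime (j + r) :=
      (Nat.nth_monotone hinf) (Nat.le_add_right _ _)
    omega
  have hp2 : ∀ r ≤ k + 1, Nat.nth Nat.Prime (j + r) ≤ n + H := by
    intro r hr
    have h1 := UCI_count n H
    have h2 : j + r < Nat.count Nat.Prime (n + H + 1) := by omega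
    have h3 := Nat.nth_lt_of_lt_count h2
    omega
  -- the shifts
  have hs : ∀ r ≤ k + 1, ∃ h, Nat.nth Nat.Prime (j + r) = n + h ∧ 1 ≤ h ∧ h ≤ H := by
    intro r hr
    refine ⟨Nat.nth Nat.Prime (j + r) - n, ?_, ?_, ?_⟩
    · have := hp1 r; omega
    · have := hp1 r; omega
    · have := hp2 r hr; omega
  -- clusters
  have hcl : ∀ r ≤ k + 1, ∃ h i, Nat.nth Nat.Prime (j + r) = n + h ∧ i < J₁ ∧
      ⌊UCI_a lam M i * L⌋₊ < h ∧ h ≤ ⌊UCI_a lam M i * L⌋₊ + ⌊(1 : ℝ) * L⌋₊ := by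
    intro r hr
    obtain ⟨h, h1, h2, h3⟩ := hs r hr
    have hpr : (n + h).Prime := by rw [← h1]; exact Nat.prime_nth_prime _
    obtain ⟨i, hi, hi1, hi2⟩ := hG1 h (Finset.mem_Icc.2 ⟨h2, h3⟩) hpr
    exact ⟨h, i, h1, hi, hi1, hi2⟩
  choose! h ic hh hi hi1 hi2 using hcl
  have hlt : ∀ r < k + 1, h r < h (r + 1) := by
    intro r hr
    have h1 := hh r (by omega)
    have h2 := hh (r + 1) (by omega)
    have h3 : Nat.nth Nat.Prime (j + r) < Nat.nth Nat.Prime (j + (r + 1)) :=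
      (Nat.nth_strictMono hinf) (by omega)
    omega
  have hprime : ∀ r ≤ k + 1, (n + h r).Prime := by
    intro r hr
    rw [← hh r hr]; exact Nat.prime_nth_prime _
  have hic : ∀ r < k + 1, ic r < ic (r + 1) := by
    intro r hr
    by_contra hcon
    rcases Nat.lt_or_ge (ic (r + 1)) (ic r) with hlt' | hge
    · -- the later cluster lies before
      have e1 := UCI_a_far lam M hl hM _ _ hlt'
      have e2 := UCI_gap (UCI_a lam M (ic (r + 1))) (UCI_a lam M (ic r)) L hL (ha0 _) (ha0 _)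
        (h (r + 1)) (h r) (hi1 (r + 1) (by omega)) (hi2 (r + 1) (by omega)) (hi1 r (by omega))
        (hi2 r (by omega))
      have e3 : (h r : ℝ) < h (r + 1) := by exact_mod_cast hlt r hr
      have e4 : 0 ≤ UCI_a lam M (ic r) - UCI_a lam M (ic (r + 1)) - 1 := by
        nlinarith [ha0 (ic (r + 1))]
      have e5 : 0 ≤ L * (UCI_a lam M (ic r) - UCI_a lam M (ic (r + 1)) - 1) :=
        mul_nonneg hL.le e4
      linarith [e2.1]
    · have heq : ic (r + 1) = ic r := by omega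
      have hc := hG2 (ic r) (hi r (by omega))
      have m1 : h r ∈ (Ioc ⌊UCI_a lam M (ic r) * L⌋₊
          (⌊UCI_a lam M (ic r) * L⌋₊ + ⌊(1 : ℝ) * L⌋₊)).filter (fun h => (n + h).Prime) :=
        Finset.mem_filter.2 ⟨Finset.mem_Ioc.2 ⟨hi1 r (by omega), hi2 r (by omega)⟩,
          hprime r (by omega)⟩
      have m2 : h (r + 1) ∈ (Ioc ⌊UCI_a lam M (ic r) * L⌋₊
          (⌊UCI_a lam M (ic r) * L⌋₊ + ⌊(1 : ℝ) * L⌋₊)).filter (fun h => (n + h).Prime) := by
        refine Finset.mem_filter.2 ⟨Finset.mem_Ioc.2 ⟨?_, ?_⟩, hprime (r + 1) (by omega)⟩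
        · rw [← heq]; exact hi1 (r + 1) (by omega)
        · rw [← heq]; exact hi2 (r + 1) (by omega)
      have := Finset.card_le_one.1 hc _ m1 _ m2
      have := hlt r hr
      omega
  -- the gaps
  have hg : ∀ r < k + 1, gN (j + r) = (h (r + 1) : ℝ) - h r := by
    intro r hr
    unfold gN
    have h1 := hh r (by omega)
    have h2 := hh (r + 1) (by omega)
    have e : j + r + 1 = j + (r + 1) := by ring
    rw [e, h1, h2]
    push_cast; ring
  have hgap : ∀ r < k + 1, L * (UCI_a lam M (ic (r + 1)) - UCI_a lam M (ic r) - 1) ≤ gN (j + r) ∧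
      gN (j + r) ≤ L * (UCI_a lam M (ic (r + 1)) + 1 - UCI_a lam M (ic r)) := by
    intro r hr
    rw [hg r hr]
    exact UCI_gap _ _ L hL (ha0 _) (ha0 _) _ _ (hi1 r (by omega)) (hi2 r (by omega))
      (hi1 (r + 1) (by omega)) (hi2 (r + 1) (by omega))
  have hl2 := hlo j (hp1 0) (hp2 0 (by omega))
  refine ⟨j, hp1 0, ?_, ?_, ?_⟩
  · have h1 : Nat.nth Nat.Prime j ≤ n + H := hp2 0 (by omega)
    have h2 : (Nat.nth Nat.Prime j : ℝ) ≤ n + H := by exact_mod_cast h1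
    have h3 : (H : ℝ) ≤ K * L := Nat.floor_le (by positivity)
    linarith
  · intro i hik
    have h1 := hgap i (by omega)
    have h2 := UCI_a_far lam M hl hM _ _ (hic i (by omega))
    constructor
    · have h3 : 2 * lam ≤ UCI_a lam M (ic (i + 1)) - UCI_a lam M (ic i) - 1 := by
        nlinarith [ha0 (ic i)]
      have h4 : L * (2 * lam) ≤ L * (UCI_a lam M (ic (i + 1)) - UCI_a lam M (ic i) - 1) :=
        mul_le_mul_of_nonneg_left h3 hL.le
      have h5 : lam * l j ≤ lam * (2 * L) := mul_le_mul_of_nonneg_left hl2.2 hl.le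
      linarith [h1.1]
    · have h3 : UCI_a lam M (ic (i + 1)) ≤ UCI_a lam M J₁ :=
        UCI_a_mono lam M hl hM (hi (i + 1) (by omega)).le
      have h4 : UCI_a lam M (ic (i + 1)) + 1 - UCI_a lam M (ic i) ≤ K := by
        rw [hK]; linarith [ha0 (ic i)]
      have h5 : L * (UCI_a lam M (ic (i + 1)) + 1 - UCI_a lam M (ic i)) ≤ L * K :=
        mul_le_mul_of_nonneg_left h4 hL.le
      have h6 : K * L ≤ K * l j := mul_le_mul_of_nonneg_left hl2.1 hK0.le
      linarith [h1.2]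
  · intro i hik
    have h1 := hgap i (by omega)
    have h1' := hgap (i + 1) (by omega)
    have h2 := UCI_a_far lam M hl hM _ _ (hic (i + 1) (by omega))
    have e : j + (i + 1) = j + i + 1 := by ring
    rw [e] at h1'
    have h3 : M * gN (j + i) ≤ M * (L * (UCI_a lam M (ic (i + 1)) + 1 - UCI_a lam M (ic i))) :=
      mul_le_mul_of_nonneg_left h1.2 hM.le
    have h4 : M * (UCI_a lam M (ic (i + 1)) + 1 - UCI_a lam M (ic i)) ≤
        UCI_a lam M (ic (i + 1 + 1)) - UCI_a lam M (ic (i + 1)) - 1 := by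
      nlinarith [ha0 (ic i), ha0 (ic (i + 1)), mul_nonneg hM.le (ha0 (ic i))]
    have h5 : L * (M * (UCI_a lam M (ic (i + 1)) + 1 - UCI_a lam M (ic i))) ≤
        L * (UCI_a lam M (ic (i + 1 + 1)) - UCI_a lam M (ic (i + 1)) - 1) :=
      mul_le_mul_of_nonneg_left h4 hL.le
    linarith [h1'.1, h3, h5]

theorem p_UCI (hC : Stmt_CCU) (hX : Stmt_UIX) : Stmt_UCI := by
  classical
  intro k lam M hl hM
  obtain ⟨C, hC0, hX1, hX2, hX3⟩ := hX
  obtain ⟨J₁, hJ, hCC⟩ := hC (k + 1)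
  have ha0 := UCI_a_nonneg lam M hl hM
  obtain ⟨K, hK⟩ : ∃ K, K = UCI_a lam M J₁ + 1 := ⟨_, rfl⟩
  have hK0 : 0 < K := by rw [hK]; linarith [ha0 J₁]
  obtain ⟨c, hc0, hcc⟩ := hCC 1 K (UCI_a lam M) one_pos (fun i _ => ha0 i)
    (fun i _ => UCI_a_step lam M hl hM i)
    (fun i hi => by rw [hK]; linarith [UCI_a_mono lam M hl hM hi.le])
  obtain ⟨c', hc', hcc'⟩ := hX3 K c hK0 hc0
  refine ⟨c' / C, K, by positivity, hK0, ?_⟩
  -- the statement for `X`
  have hev : ∀ᶠ X : ℕ in atTop, c' * (X / Real.log X) ≤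
      (((range (Nat.primeCounting (3 * X))).filter (fun j : ℕ =>
        X < Nat.nth Nat.Prime j ∧ Nat.nth Nat.Prime j ≤ 3 * X ∧
        ((∀ i ≤ k, lam * lN j ≤ gN (j + i) ∧ gN (j + i) ≤ K * lN j) ∧
          ∀ i < k, M * gN (j + i) ≤ gN (j + i + 1)))).card : ℝ) := by
    have hsm : ∀ᶠ X : ℕ in atTop, K * Real.log X ≤ X := by
      have h1 : Tendsto (fun x : ℝ => Real.log x / x) atTop (nhds 0) := by
        have := Real.isLittleO_log_id_atTop.tendsto_div_nhds_zero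
        simpa using this
      have h2 : Tendsto (fun X : ℕ => Real.log (X : ℝ) / (X : ℝ)) atTop (nhds 0) :=
        h1.comp tendsto_natCast_atTop_atTop
      have h3 : ∀ᶠ X : ℕ in atTop, Real.log (X : ℝ) / (X : ℝ) < 1 / K :=
        h2.eventually (gt_mem_nhds (by positivity))
      filter_upwards [h3, eventually_gt_atTop 0] with X h4 h5
      have h6 : (0 : ℝ) < X := by exact_mod_cast h5
      rw [div_lt_div_iff₀ h6 hK0] at h4
      linarith
    filter_upwards [hcc, hcc', hsm, eventually_ge_atTop 3] with X h1 h2 h3 h4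
    refine (h2 (fun j => (∀ i ≤ k, lam * lN j ≤ gN (j + i) ∧ gN (j + i) ≤ K * lN j) ∧
          ∀ i < k, M * gN (j + i) ≤ gN (j + i + 1)) ?_).trans ?_
    · refine h1.trans ?_
      have hX3 : (3 : ℝ) ≤ X := by exact_mod_cast h4
      have hL : 0 < Real.log X := Real.log_pos (by linarith)
      refine Nat.cast_le.2 (Finset.card_le_card ?_)
      intro n hn
      have hn' := Finset.mem_filter.1 hn
      have hn1 := Finset.mem_Ioc.1 hn'.1
      refine Finset.mem_filter.2 ⟨hn'.1, ?_⟩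
      refine UCI_main k J₁ n lam M (Real.log X) hl hM hL K hK lN ?_ hn'.2
      · intro j hj1 hj2
        have hf : (⌊K * Real.log X⌋₊ : ℝ) ≤ K * Real.log X := Nat.floor_le (by positivity)
        have hj2' : (Nat.nth Nat.Prime j : ℝ) ≤ n + (⌊K * Real.log X⌋₊ : ℝ) := by
          exact_mod_cast hj2
        have hn2 : (n : ℝ) ≤ 2 * X := by exact_mod_cast hn1.2
        have hlow : (X : ℝ) ≤ Nat.nth Nat.Prime j := by
          have : X ≤ Nat.nth Nat.Prime j := by omega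
          exact_mod_cast this
        have hup : (Nat.nth Nat.Prime j : ℝ) ≤ X * X := by nlinarith
        unfold lN
        constructor
        · exact Real.log_le_log (by linarith) hlow
        · have := Real.log_le_log (by linarith) hup
          rw [Real.log_mul (by linarith) (by linarith)] at this
          linarith
    · refine Nat.cast_le.2 (Finset.card_le_card ?_)
      intro j hj
      simp only [Finset.mem_filter] at hj ⊢
      exact hj
  obtain ⟨X0, hX0⟩ := eventually_atTop.1 hev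
  filter_upwards [hX2, eventually_ge_atTop X0] with N h1 h2
  obtain ⟨X, hX1', hX2', hX3'⟩ := h1
  have h3 := hX0 X (by omega)
  have h4 : c' / C * N ≤ c' * (X / Real.log X) := by
    rw [div_mul_eq_mul_div, div_le_iff₀ hC0]
    calc c' * N ≤ c' * (C * (X / Real.log X)) := mul_le_mul_of_nonneg_left hX3' hc'.le
      _ = c' * (X / Real.log X) * C := by ring
  refine h4.trans (h3.trans ?_)
  refine Nat.cast_le.2 (Finset.card_le_card ?_)
  intro j hj
  have hj' := Finset.mem_filter.1 hj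
  have hj1 := Finset.mem_range.1 hj'.1
  exact Finset.mem_filter.2 ⟨Finset.mem_range.2 (by omega), hj'.2.2.2⟩

end Pool.PP
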