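import Pool.Agent.Work.MP_b0c12c_px.UDefs

/-! # Block UEX (helper86) -/

set_option autoImplicit false

namespace Pool.PP

open Finset Filter

theorem p_UEX (h1 : Stmt_EXM) (h2 : Stmt_EXS) (h3 : Stmt_EXC) (h4 : Stmt_EXI) (h5 : Stmt_QEX) :
    Stmt_UEX := by
  classical
  intro J k A hA hJ
  obtain ⟨N₁, hN₁⟩ := h5 J 2 k A hA hJ
  obtain ⟨N₂, hN₂⟩ := pow_unbounded_of_one_lt A (one_lt_two)
  refine ⟨N₁ + 3 * N₂ + 4, ?_⟩
  intro σ π ι _ _ _ _ _ _ pr KK f r α a aρ D hpr hD haA haρ hα hsz hszρ hf hrr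
  have hOm := (hN₁ σ π ι pr KK f r a aρ D hpr hD haA haρ hsz hszρ hf hrr).1
  rw [Nat.cast_ofNat] at hOm
  set n : ℝ := (Fintype.card ι : ℝ) with hn
  have hn0 : 0 ≤ n := Nat.cast_nonneg _
  have hn2 : (1 : ℝ) ≤ 2 + n := by linarith
  have hA0 : 0 ≤ A := by linarith
  set K₁ : ℝ := (2 + n) ^ N₁ with hK₁
  set κ₁ : ℝ := (2 : ℝ) ^ N₁ with hκ₁
  have hK₁1 : 1 ≤ K₁ := one_le_pow₀ hn2
  have hκ₁1 : 1 ≤ κ₁ := one_le_pow₀ one_le_two
  have hD0 : 0 ≤ D := by linarith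
  have hr : ∀ x : σ ⊕ π, 1 ≤ rr (σ := σ) pr x := by
    intro x
    rcases x with y | x
    · simp [rr]
    · simp only [rr, Sum.elim_inr]
      exact_mod_cast hpr x
  have hAn : A ≤ (2 + n) ^ N₂ := hN₂.le.trans (pow_le_pow_left₀ (by norm_num) (by linarith) _)
  -- one pair
  have hone : ∀ p : ι × ι, Ex (rr (σ := σ) pr) (fun t : ι → Finset (σ ⊕ π) =>
      OmQ f (Sset t) KK k 2 (lg t) *
        ((if p.1 ∈ Sset t then ∑ U ∈ (lg t p.1).powerset, aρ U else 0) *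
          (if p.2 ∈ Sset t then ∑ U ∈ (lg t p.2).powerset, aρ U else 0)))
      (K₁ * (A * A)) ((1 + κ₁) * (1 + (1 + 1) * (1 + 1))) (D ^ (4 * 2 + 1) * (D * D)) := by
    intro p
    have e1 := h1 (σ ⊕ π) ι (rr (σ := σ) pr) _ _ A A 1 1 D D hr hA0 hA0 zero_le_one zero_le_one
      hD0 hD0 (h4 σ π ι pr aρ A D p.1 hA0 haρ hszρ) (h4 σ π ι pr aρ A D p.2 hA0 haρ hszρ)
    have e2 := h1 (σ ⊕ π) ι (rr (σ := σ) pr) _ _ K₁ (A * A) κ₁ ((1 + 1) * (1 + 1))
      (D ^ (4 * 2 + 1)) (D * D) hr (by positivity) (by positivity) (by positivity)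
      (by positivity) (by positivity) (by positivity) hOm e1
    have e3 : (fun t : ι → Finset (σ ⊕ π) => OmQ f (Sset t) KK k 2 (lg t) *
        ((if p.1 ∈ Sset t then ∑ U ∈ (lg t p.1).powerset, aρ U else 0) *
          (if p.2 ∈ Sset t then ∑ U ∈ (lg t p.2).powerset, aρ U else 0))) =
        fun t : ι → Finset (σ ⊕ π) => OmQ f (Sset t) KK k 2 (lg t) *
        ((open Classical in if p.1 ∈ Sset t then ∑ U ∈ (lg t p.1).powerset, aρ U else 0) *
          (open Classical in if p.2 ∈ Sset t then ∑ U ∈ (lg t p.2).powerset, aρ U else 0)) := by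
      funext t
      congr 1
    rw [e3]
    exact e2
  have hsum := h2 (σ ⊕ π) ι (ι × ι) (rr (σ := σ) pr) ((univ \ KK) ×ˢ (univ \ KK))
    (fun p => α p.1 p.2)
    (fun p (t : ι → Finset (σ ⊕ π)) => OmQ f (Sset t) KK k 2 (lg t) *
        ((if p.1 ∈ Sset t then ∑ U ∈ (lg t p.1).powerset, aρ U else 0) *
          (if p.2 ∈ Sset t then ∑ U ∈ (lg t p.2).powerset, aρ U else 0)))
    (fun _ => K₁ * (A * A)) ((1 + κ₁) * (1 + (1 + 1) * (1 + 1))) (D ^ (4 * 2 + 1) * (D * D))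
    (by positivity) (fun p _ _ => hone p)
  have hfun : (fun t : ι → Finset (σ ⊕ π) => PaQ f r α (Sset t) KK k 2 (lg t)) =
      fun t => ∑ p ∈ (univ \ KK) ×ˢ (univ \ KK), α p.1 p.2 *
        (OmQ f (Sset t) KK k 2 (lg t) *
        ((if p.1 ∈ Sset t then ∑ U ∈ (lg t p.1).powerset, aρ U else 0) *
          (if p.2 ∈ Sset t then ∑ U ∈ (lg t p.2).powerset, aρ U else 0))) := by
    funext t
    have hS : Sset t \ KK = (univ \ KK).filter (fun b => b ∈ Sset t) := by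
      ext b
      simp only [Finset.mem_sdiff, Finset.mem_filter, Finset.mem_univ, true_and]
      tauto
    unfold PaQ
    rw [Finset.sum_product, hS, Finset.sum_filter]
    apply Finset.sum_congr rfl
    intro b _
    by_cases hb : b ∈ Sset t
    · rw [if_pos hb, Finset.sum_filter]
      apply Finset.sum_congr rfl
      intro b' _
      by_cases hb' : b' ∈ Sset t
      · rw [if_pos hb', hrr, hrr]
        simp only [hb, hb', if_true]
      · rw [if_neg hb']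
        simp only [hb', if_false, mul_zero]
    · rw [if_neg hb]
      symm
      apply Finset.sum_eq_zero
      intro b' _
      simp only [hb, if_false, zero_mul, mul_zero]
  rw [hfun]
  refine (h3 (σ ⊕ π) ι (rr (σ := σ) pr)).2 _ _ _ _ _ _ _ ?_ ?_ (by positivity) ?_ ?_ hsum
  · apply Finset.sum_nonneg
    intro p _
    positivity
  · have e4 : ∑ p ∈ (univ \ KK) ×ˢ (univ \ KK), |α p.1 p.2| * (K₁ * (A * A)) ≤
        ∑ _p ∈ (univ \ KK) ×ˢ (univ \ KK), A * (K₁ * (A * A)) := by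
      apply Finset.sum_le_sum
      intro p _
      exact mul_le_mul_of_nonneg_right (hα p.1 p.2) (by positivity)
    refine e4.trans ?_
    rw [Finset.sum_const, nsmul_eq_mul, Finset.card_product, Nat.cast_mul]
    have e5 : ((univ \ KK).card : ℝ) ≤ 2 + n := by
      have : ((univ \ KK).card : ℝ) ≤ n := by
        rw [hn]
        exact_mod_cast Finset.card_le_univ _
      linarith
    calc ((univ \ KK).card : ℝ) * ((univ \ KK).card : ℝ) * (A * (K₁ * (A * A)))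
        ≤ (2 + n) * (2 + n) * ((2 + n) ^ N₂ * (K₁ * ((2 + n) ^ N₂ * (2 + n) ^ N₂))) := by
          gcongr
      _ = (2 + n) ^ (N₁ + 3 * N₂ + 2) := by rw [hK₁]; ring
      _ ≤ (2 + n) ^ (N₁ + 3 * N₂ + 4) := pow_le_pow_right₀ hn2 (by omega)
  · calc (1 + κ₁) * (1 + (1 + 1) * (1 + 1)) ≤ (κ₁ * 2) * 8 := by
          have : 1 + κ₁ ≤ κ₁ * 2 := by linarith
          gcongr
          norm_num
      _ = 2 ^ (N₁ + 4) := by rw [hκ₁]; ring
      _ ≤ 2 ^ (N₁ + 3 * N₂ + 4) := pow_le_pow_right₀ one_le_two (by omega)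
  · exact le_of_eq (by ring)

end Pool.PP
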