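import Pool.Agent.Work.MP_b0c12c_px.UDefs

/-! # Block UGD: at least `m` primes after an empty window (helper62) -/

set_option autoImplicit false

namespace Pool.PP

open Finset Filter

theorem UGD_growth (b c : ℝ) (hc : 0 < c) :
    ∀ᶠ X : ℕ in atTop, b * Real.log X ≤ c * X := by
  have h1 : Tendsto (fun X : ℕ => (X : ℝ)) atTop atTop := tendsto_natCast_atTop_atTop
  have h2 := (Real.isLittleO_log_id_atTop.comp_tendsto h1).def
    (show (0 : ℝ) < c / (|b| + 1) by positivity)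
  filter_upwards [h2, eventually_ge_atTop 1] with X hX hX1
  have hX1' : (1 : ℝ) ≤ X := by exact_mod_cast hX1
  have hlog : 0 ≤ Real.log X := Real.log_nonneg hX1'
  simp only [Function.comp_apply, Real.norm_eq_abs, id_eq, abs_of_nonneg hlog] at hX
  rw [abs_of_nonneg (by linarith : (0 : ℝ) ≤ X)] at hX
  have hb : (0 : ℝ) < |b| + 1 := by positivity
  calc b * Real.log X ≤ (|b| + 1) * Real.log X :=
        mul_le_mul_of_nonneg_right (by linarith [le_abs_self b]) hlog
    _ ≤ (|b| + 1) * (c / (|b| + 1) * X) := mul_le_mul_of_nonneg_left hX hb.le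
    _ = c * X := by field_simp

theorem p_UGD (hC : Stmt_CCU) : Stmt_UGD := by
  classical
  intro a b m ha hab hm
  obtain ⟨J₁, hJ, hU⟩ := hC (m - 1)
  have hJr : (0 : ℝ) < (J₁ : ℝ) + 1 := by positivity
  set η : ℝ := a / ((J₁ : ℝ) + 1) with hη
  have hη0 : 0 < η := by positivity
  have hηJ : ((J₁ : ℝ) + 1) * η = a := by rw [hη]; field_simp
  have hb0 : 0 < b := by linarith
  obtain ⟨c, hc, hev⟩ := hU (η / 2) (a + b) (fun i => b + i * η) (by positivity)
    (fun i _ => by positivity)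
    (fun i _ => by push_cast; nlinarith)
    (fun i hi => by
      have hi' : (i : ℝ) + 1 ≤ J₁ := by exact_mod_cast hi
      have : ((i : ℝ) + 1) * η ≤ J₁ * η := mul_le_mul_of_nonneg_right hi' hη0.le
      nlinarith)
  refine ⟨c / 2, by positivity, ?_⟩
  have hlog : ∀ᶠ X : ℕ in atTop, 1 ≤ η * Real.log X := by
    have h1 : Tendsto (fun X : ℕ => η * Real.log (X : ℝ)) atTop atTop :=
      (Real.tendsto_log_atTop.comp tendsto_natCast_atTop_atTop).const_mul_atTop hη0
    exact h1.eventually_ge_atTop 1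
  filter_upwards [hev, hlog, UGD_growth b (c / 2) (by positivity), eventually_ge_atTop 1] with
    X h1 h2 h3 hX1
  intro H2 H1 hH2 hH1 _
  have hX1' : (1 : ℝ) ≤ X := by exact_mod_cast hX1
  have hL : 0 ≤ Real.log X := Real.log_nonneg hX1'
  set s : ℕ := ⌊b * Real.log X⌋₊ with hs
  have hsb : (s : ℝ) ≤ b * Real.log X := Nat.floor_le (by positivity)
  have hsb' : b * Real.log X < s + 1 := Nat.lt_floor_add_one _
  have hH2s : H2 ≤ s := Nat.le_floor hH2
  set Gs : Finset ℕ := (Ioc X (2 * X)).filter (fun n : ℕ =>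
      Gd J₁ (fun i => ⌊(b + i * η) * Real.log X⌋₊) ⌊η / 2 * Real.log X⌋₊
        ⌊(a + b) * Real.log X⌋₊ (m - 1) n) with hGs
  have h1' : c * X ≤ (Gs.card : ℝ) := h1
  have hsplit : Gs.card ≤ (Gs.filter (fun n => n + s ≤ 2 * X)).card + s := by
    have hsub : Gs ⊆ Gs.filter (fun n => n + s ≤ 2 * X) ∪ Ioc (2 * X - s) (2 * X) := by
      intro n hn
      by_cases hns : n + s ≤ 2 * X
      · exact mem_union_left _ (mem_filter.2 ⟨hn, hns⟩)
      · have hn0 := mem_Ioc.1 (mem_filter.1 hn).1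
        exact mem_union_right _ (mem_Ioc.2 ⟨by omega, hn0.2⟩)
    calc Gs.card ≤ (Gs.filter (fun n => n + s ≤ 2 * X) ∪ Ioc (2 * X - s) (2 * X)).card :=
          card_le_card hsub
      _ ≤ (Gs.filter (fun n => n + s ≤ 2 * X)).card + (Ioc (2 * X - s) (2 * X)).card :=
          card_union_le _ _
      _ ≤ _ := by rw [Nat.card_Ioc]; omega
  have hinj : (Gs.filter (fun n => n + s ≤ 2 * X)).card ≤ (gdQ X H2 H1 m).card := by
    refine card_le_card_of_injOn (fun n => n + s) ?_ (fun x _ y _ hxy => by simpa using hxy)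
    intro n hn
    obtain ⟨hn1, hn2⟩ := mem_filter.1 (mem_coe.1 hn)
    obtain ⟨hn3, hg1, _, hg3⟩ := mem_filter.1 hn1
    obtain ⟨hn4, hn5⟩ := mem_Ioc.1 hn3
    -- positions of the clusters
    have hpos : ∀ i < J₁, s ≤ ⌊(b + i * η) * Real.log X⌋₊ := by
      intro i _
      refine Nat.floor_le_floor ?_
      have : 0 ≤ (i : ℝ) * η * Real.log X := by positivity
      nlinarith
    have hend : ∀ i < J₁, ⌊(b + i * η) * Real.log X⌋₊ + ⌊η / 2 * Real.log X⌋₊ ≤ s + H1 := by
      intro i hi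
      have e1 : ((⌊(b + i * η) * Real.log X⌋₊ : ℕ) : ℝ) ≤ (b + i * η) * Real.log X :=
        Nat.floor_le (by positivity)
      have e2 : ((⌊η / 2 * Real.log X⌋₊ : ℕ) : ℝ) ≤ η / 2 * Real.log X :=
        Nat.floor_le (by positivity)
      have hi' : (i : ℝ) + 1 ≤ J₁ := by exact_mod_cast hi
      have e3 : (i : ℝ) * η + η / 2 ≤ a - η := by
        have : ((i : ℝ) + 1) * η ≤ J₁ * η := mul_le_mul_of_nonneg_right hi' hη0.le
        nlinarith
      have e4 : ((i : ℝ) * η + η / 2) * Real.log X ≤ (a - η) * Real.log X :=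
        mul_le_mul_of_nonneg_right e3 hL
      have e5 : ((⌊(b + i * η) * Real.log X⌋₊ : ℕ) : ℝ) + ((⌊η / 2 * Real.log X⌋₊ : ℕ) : ℝ) <
          (s : ℝ) + H1 := by nlinarith
      have e6 : ⌊(b + i * η) * Real.log X⌋₊ + ⌊η / 2 * Real.log X⌋₊ < s + H1 := by
        exact_mod_cast e5
      exact e6.le
    have hsH : s ≤ ⌊(a + b) * Real.log X⌋₊ := Nat.floor_le_floor (by nlinarith)
    have hXn : X < n + s := by omega
    refine mem_coe.2 (mem_filter.2 ⟨mem_Ioc.2 ⟨hXn, hn2⟩, ?_, ?_⟩)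
    · intro p hp hpp
      obtain ⟨hp1, hp2⟩ := mem_Ioc.1 hp
      replace hp1 : n + s - H2 < p := hp1
      replace hp2 : p ≤ n + s := hp2
      obtain ⟨h, rfl⟩ : ∃ h, p = n + h := ⟨p - n, by omega⟩
      have hh1 : 1 ≤ h := by omega
      have hh2 : h ≤ s := by omega
      obtain ⟨i, hi, hi1, _⟩ := hg1 h (mem_Icc.2 ⟨hh1, hh2.trans hsH⟩) hpp
      have k1 := hpos i hi
      have hi1' : ⌊(b + i * η) * Real.log X⌋₊ < h := hi1
      omega
    · have hcard : ((Icc 1 ⌊(a + b) * Real.log X⌋₊).filter (fun h => (n + h).Prime)).card ≤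
          ((Ioc (n + s) (n + s + H1)).filter Nat.Prime).card := by
        refine card_le_card_of_injOn (fun h => n + h) ?_ (fun x _ y _ hxy => by simpa using hxy)
        intro h hh
        obtain ⟨hh1, hh2⟩ := mem_filter.1 (mem_coe.1 hh)
        obtain ⟨i, hi, hi1, hi2⟩ := hg1 h hh1 hh2
        have k1 := hpos i hi
        have k2 := hend i hi
        have hi2' : h ≤ ⌊(b + i * η) * Real.log X⌋₊ + ⌊η / 2 * Real.log X⌋₊ := hi2
        have hi1' : ⌊(b + i * η) * Real.log X⌋₊ < h := hi1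
        have k3 : n + s < n + h := by omega
        have k4 : n + h ≤ n + s + H1 := by omega
        exact mem_coe.2 (mem_filter.2 ⟨mem_Ioc.2 ⟨k3, k4⟩, hh2⟩)
      show m ≤ ((Ioc (n + s) (n + s + H1)).filter Nat.Prime).card
      omega
  have e1 : (Gs.card : ℝ) ≤ ((Gs.filter (fun n => n + s ≤ 2 * X)).card : ℝ) + s := by
    exact_mod_cast hsplit
  have e2 : ((Gs.filter (fun n => n + s ≤ 2 * X)).card : ℝ) ≤ ((gdQ X H2 H1 m).card : ℝ) := by
    exact_mod_cast hinj
  linarith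

end Pool.PP
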