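import Pool.Agent.Work.MP_b0c12c_px.UDefs

set_option autoImplicit false

/-! Theorem U, block UI2: the mean of the weight at the free killed sites. -/

namespace Pool.PP

open Finset

theorem p_UI2 (hSQM : Stmt_SQM) (hIND : Stmt_IND) (hFMU : Stmt_FMU) (hQMA : Stmt_QMA)
    (hUMA : Stmt_UMA) (hQCK : Stmt_QCK) : Stmt_UI2 := by
  intro π ι _ _ _ _ q J f r S KK k hq0 hq1 hOrth hJ hr hsX
  classical
  have hw1 : ∀ T : Finset π, 0 ≤ w1 q T := by
    intro T
    unfold w1
    exact mul_nonneg (Finset.prod_nonneg fun x _ => hq0 x)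
      (Finset.prod_nonneg fun x _ => by linarith [hq1 x])
  have hE1 : ∀ g : Finset π → ℝ, (∀ T, 0 ≤ g T) → 0 ≤ E1 q g := by
    intro g hg
    unfold E1
    exact Finset.sum_nonneg fun T _ => mul_nonneg (hw1 T) (hg T)
  have hE1r : 0 ≤ E1 q r := hE1 r hr
  have hx0 : ∀ s, 0 ≤ xs q f s := by
    intro s
    unfold xs
    exact div_nonneg (hE1 _ fun T => sq_nonneg _) (sq_nonneg _)
  have hym : ∀ κ : ι → Option (Fin J), 0 ≤ ym (xs q f) S κ := by
    intro κ
    unfold ym
    apply Finset.prod_nonneg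
    intro h _
    cases hκ : κ h with
    | none => simp [yy]
    | some s =>
      simp only [yy]
      split_ifs
      · exact hx0 s
      · exact le_refl 0
  have hterm : ∀ A ∈ AA KK k, ∀ m ∈ KK ∩ S,
      EM q (fun t => PF (cM (cQ KK A 2) m) (tab f S t) ^ 2 * r (t m)) ≤
        if A ⊆ S then E1 q r * (tm (xs q f) S KK k * mU (xs q f) S KK k) else 0 := by
    intro A hA m hm
    have hmK : m ∈ KK := (Finset.mem_inter.mp hm).1
    unfold AA at hA
    rw [Finset.mem_powersetCard] at hA
    have hdisj : Disjoint A KK := by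
      rw [Finset.disjoint_left]
      intro h hh hh'
      exact (Finset.mem_sdiff.mp (hA.1 hh)).2 hh'
    have hc := fun κ => hQCK ι J KK A 2 m κ hJ hmK
    have hind := hIND π ι q (fun t => PF (cM (cQ KK A 2) m) (tab f S t) ^ 2) r m (by
      intro t a
      have := hFMU π ι J f S (cM (cQ KK A 2) m) m t a (by
        intro κ hκ
        unfold cM
        rw [if_neg hκ])
      simp only [this])
    rw [hind, hSQM π ι q J f S _ hOrth]
    have hsq : ∀ κ : ι → Option (Fin J), cM (cQ KK A 2) m κ ^ 2 * ym (xs q f) S κ ≤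
        if mat KK A κ ∧ 1 < lev κ then ym (xs q f) S κ else 0 := by
      intro κ
      obtain ⟨h0, h1, h2⟩ := hc κ
      by_cases hz : cM (cQ KK A 2) m κ = 0
      · rw [hz, zero_pow two_ne_zero, zero_mul]
        split_ifs
        · exact hym κ
        · exact le_refl 0
      · obtain ⟨_, h3, h4⟩ := h2 hz
        rw [if_pos ⟨h3, by linarith⟩]
        have : cM (cQ KK A 2) m κ ^ 2 ≤ 1 := by nlinarith
        calc cM (cQ KK A 2) m κ ^ 2 * ym (xs q f) S κ ≤ 1 * ym (xs q f) S κ :=
              mul_le_mul_of_nonneg_right this (hym κ)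
          _ = _ := one_mul _
    have hQ := hQMA ι J (xs q f) S KK A hx0 hdisj
    by_cases hAS : A ⊆ S
    · rw [if_pos hAS, mul_comm]
      apply mul_le_mul_of_nonneg_left _ hE1r
      refine (Finset.sum_le_sum fun κ _ => hsq κ).trans ?_
      have := hUMA ι J (xs q f) S KK A hx0 hdisj hsX hAS
      rw [hA.2] at this
      exact this
    · rw [if_neg hAS]
      have h5 := hQ.1
      rw [if_neg hAS] at h5
      have h6 : ∑ κ : ι → Option (Fin J), cM (cQ KK A 2) m κ ^ 2 * ym (xs q f) S κ ≤
          ∑ κ : ι → Option (Fin J), if mat KK A κ then ym (xs q f) S κ else 0 := by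
        apply Finset.sum_le_sum
        intro κ _
        refine (hsq κ).trans ?_
        by_cases h7 : mat KK A κ
        · rw [if_pos h7]
          split_ifs
          · exact le_refl _
          · exact hym κ
        · rw [if_neg h7, if_neg (fun h => h7 h.1)]
      have h8 : ∑ κ : ι → Option (Fin J), cM (cQ KK A 2) m κ ^ 2 * ym (xs q f) S κ ≤ 0 :=
        h6.trans (le_of_eq h5)
      exact mul_nonpos_of_nonpos_of_nonneg h8 hE1r
  have hEM : EM q (BdQ f r S KK k 2) = ∑ A ∈ AA KK k, ∑ m ∈ KK ∩ S,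
      EM q (fun t => PF (cM (cQ KK A 2) m) (tab f S t) ^ 2 * r (t m)) := by
    unfold EM BdQ
    simp_rw [Finset.mul_sum]
    rw [Finset.sum_comm]
    apply Finset.sum_congr rfl
    intro A _
    rw [Finset.sum_comm]
  rw [hEM]
  have hcard : ((AA KK k).filter (fun A => A ⊆ S)).card = (S \ KK).card.choose k := by
    rw [← Finset.card_powersetCard]
    congr 1
    ext A
    unfold AA
    rw [Finset.mem_filter, Finset.mem_powersetCard, Finset.mem_powersetCard]
    constructor
    · rintro ⟨⟨h1, h2⟩, h3⟩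
      refine ⟨?_, h2⟩
      intro h hh
      rw [Finset.mem_sdiff]
      exact ⟨h3 hh, (Finset.mem_sdiff.mp (h1 hh)).2⟩
    · rintro ⟨h1, h2⟩
      refine ⟨⟨?_, h2⟩, ?_⟩
      · intro h hh
        rw [Finset.mem_sdiff]
        exact ⟨Finset.mem_univ _, (Finset.mem_sdiff.mp (h1 hh)).2⟩
      · intro h hh
        exact (Finset.mem_sdiff.mp (h1 hh)).1
  calc ∑ A ∈ AA KK k, ∑ m ∈ KK ∩ S,
        EM q (fun t => PF (cM (cQ KK A 2) m) (tab f S t) ^ 2 * r (t m))
      ≤ ∑ A ∈ AA KK k, ∑ _m ∈ KK ∩ S,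
        (if A ⊆ S then E1 q r * (tm (xs q f) S KK k * mU (xs q f) S KK k) else 0) :=
        Finset.sum_le_sum fun A hA => Finset.sum_le_sum fun m hm => hterm A hA m hm
    _ = ∑ A ∈ AA KK k, (if A ⊆ S then ((KK ∩ S).card : ℝ) *
          (E1 q r * (tm (xs q f) S KK k * mU (xs q f) S KK k)) else 0) := by
        apply Finset.sum_congr rfl
        intro A _
        rw [Finset.sum_const, nsmul_eq_mul]
        split_ifs
        · rfl
        · rw [mul_zero]
    _ = (((AA KK k).filter (fun A => A ⊆ S)).card : ℝ) * (((KK ∩ S).card : ℝ) *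
          (E1 q r * (tm (xs q f) S KK k * mU (xs q f) S KK k))) := by
        rw [← Finset.sum_filter, Finset.sum_const, nsmul_eq_mul]
    _ = _ := by
        rw [hcard]
        unfold ZU
        ring

end Pool.PP
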