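import Pool.Agent.Work.MP_b0c12c_px.UDefs

/-! # Block UI3 (helper52, after B_QI3 of helper24) -/

set_option autoImplicit false

namespace Pool.PP

open Finset

private lemma UI3_EM_sum {π ι α : Type} [Fintype π] [DecidableEq π] [Fintype ι] [DecidableEq ι]
    (q : π → ℝ) (s : Finset α) (Φ : α → (ι → Finset π) → ℝ) :
    EM q (fun t => ∑ a ∈ s, Φ a t) = ∑ a ∈ s, EM q (Φ a) := by
  unfold EM
  rw [Finset.sum_comm]
  refine Finset.sum_congr rfl fun t _ => ?_
  rw [Finset.mul_sum]

private lemma UI3_ym_nonneg {ι : Type} [Fintype ι] [DecidableEq ι] {J : ℕ} (x : Fin J → ℝ)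
    (hx : ∀ s, 0 ≤ x s) (S : Finset ι) (κ : ι → Option (Fin J)) : 0 ≤ ym x S κ := by
  unfold ym
  refine Finset.prod_nonneg fun h _ => ?_
  cases κ h with
  | none => simp [yy]
  | some s =>
    simp only [yy]
    split_ifs
    · exact hx s
    · exact le_refl _

theorem p_UI3 (h1 : Stmt_SQM) (h2 : Stmt_QMA) (hU : Stmt_UMA) (h3 : Stmt_QCA) : Stmt_UI3 := by
  intro π ι _ _ _ _ q J f S KK k h0 hq0 hq1 hO hJ hX hS hK
  classical
  set x := xs q f with hx
  have hE1 : ∀ g : Finset π → ℝ, (∀ T, 0 ≤ g T) → 0 ≤ E1 q g := by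
    intro g hg
    unfold E1 w1
    refine Finset.sum_nonneg fun T _ => mul_nonneg (mul_nonneg ?_ ?_) (hg T)
    · exact Finset.prod_nonneg fun y _ => hq0 y
    · exact Finset.prod_nonneg fun y _ => by linarith [hq1 y]
  have hx0 : ∀ s, 0 ≤ x s := fun s => div_nonneg (hE1 _ fun T => sq_nonneg _) (sq_nonneg _)
  have hym := UI3_ym_nonneg x hx0 S
  -- the mean as a sum
  set E : Finset ι → ℝ := fun A =>
    ∑ κ : ι → Option (Fin J), cM (cQ KK A 2) h0 κ ^ 2 * ym x S κ with hE
  have hE0 : ∀ A, 0 ≤ E A := fun A => Finset.sum_nonneg fun κ _ => mul_nonneg (sq_nonneg _) (hym κ)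
  have hPr : EM q (PrQ f S KK (k + 1) 2 h0) =
      ∑ A ∈ (AA KK (k + 1)).filter (fun A => h0 ∈ A), E A := by
    have : PrQ f S KK (k + 1) 2 h0 = fun t : ι → Finset π =>
        ∑ A ∈ (AA KK (k + 1)).filter (fun A => h0 ∈ A),
          PF (cM (cQ KK A 2) h0) (tab f S t) ^ 2 := rfl
    rw [this, UI3_EM_sum]
    refine Finset.sum_congr rfl fun A _ => ?_
    exact h1 π ι q J f S (cM (cQ KK A 2) h0) hO
  -- the sets
  set B := powersetCard k ((S \ KK).erase h0) with hB
  have hBmem : ∀ C ∈ B, C ⊆ (S \ KK).erase h0 ∧ C.card = k := fun C hC =>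
    Finset.mem_powersetCard.1 hC
  have hinj : Set.InjOn (fun C : Finset ι => insert h0 C) (B : Set (Finset ι)) := by
    intro C hC D hD hCD
    have hC' : h0 ∉ C := fun h => Finset.notMem_erase h0 _ ((hBmem C hC).1 h)
    have hD' : h0 ∉ D := fun h => Finset.notMem_erase h0 _ ((hBmem D hD).1 h)
    have := congrArg (fun F : Finset ι => F.erase h0) hCD
    simpa [Finset.erase_insert hC', Finset.erase_insert hD'] using this
  have hsub : B.image (fun C => insert h0 C) ⊆ (AA KK (k + 1)).filter (fun A => h0 ∈ A) := by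
    intro A hA
    obtain ⟨C, hC, rfl⟩ := Finset.mem_image.1 hA
    obtain ⟨hC1, hC2⟩ := hBmem C hC
    have hC' : h0 ∉ C := fun h => Finset.notMem_erase h0 _ (hC1 h)
    rw [Finset.mem_filter]
    refine ⟨?_, Finset.mem_insert_self _ _⟩
    unfold AA
    rw [Finset.mem_powersetCard]
    refine ⟨?_, by rw [Finset.card_insert_of_notMem hC', hC2]⟩
    intro y hy
    rw [Finset.mem_sdiff]
    refine ⟨Finset.mem_univ _, ?_⟩
    rcases Finset.mem_insert.1 hy with rfl | hy
    · exact hK
    · exact (Finset.mem_sdiff.1 (Finset.mem_of_mem_erase (hC1 hy))).2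
  have hcard : B.card = ((S \ KK).card - 1).choose k := by
    rw [hB, Finset.card_powersetCard, Finset.card_erase_of_mem (Finset.mem_sdiff.2 ⟨hS, hK⟩)]
  -- one set
  have hone : ∀ C ∈ B, (1 - tm x S KK k) * mU x S KK k ≤ E (insert h0 C) := by
    intro C hC
    obtain ⟨hC1, hC2⟩ := hBmem C hC
    have hC' : h0 ∉ C := fun h => Finset.notMem_erase h0 _ (hC1 h)
    have hCS : C ⊆ S := fun y hy => (Finset.mem_sdiff.1 (Finset.mem_of_mem_erase (hC1 hy))).1
    have hCK : Disjoint C KK := by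
      rw [Finset.disjoint_left]
      intro y hy
      exact (Finset.mem_sdiff.1 (Finset.mem_of_mem_erase (hC1 hy))).2
    obtain ⟨m1, -⟩ := h2 ι J x S KK C hx0 hCK
    rw [if_pos hCS, hC2] at m1
    have m3 := hU ι J x S KK C hx0 hCK hX hCS
    rw [hC2] at m3
    have hle : (∑ κ : ι → Option (Fin J), if mat KK C κ then ym x S κ else 0) -
        (∑ κ : ι → Option (Fin J), if mat KK C κ ∧ 1 < lev κ then ym x S κ else 0) ≤
        E (insert h0 C) := by
      rw [← Finset.sum_sub_distrib]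
      refine Finset.sum_le_sum fun κ _ => ?_
      have hnn : 0 ≤ cM (cQ KK (insert h0 C) 2) h0 κ ^ 2 * ym x S κ :=
        mul_nonneg (sq_nonneg _) (hym κ)
      by_cases ha : mat KK C κ
      · by_cases hb : 1 < lev κ
        · rw [if_pos ha, if_pos ⟨ha, hb⟩, sub_self]
          exact hnn
        · rw [if_pos ha, if_neg (fun h => hb h.2), sub_zero]
          have := (h3 ι J KK (insert h0 C) 2 h0 κ hJ (Finset.mem_insert_self _ _) hK).2.2.2
            (by rw [Finset.erase_insert hC']; exact ha) (by linarith [not_lt.1 hb])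
          rw [this]
          norm_num
      · rw [if_neg ha, if_neg (fun h => ha h.1), sub_zero]
        exact hnn
    have m1' : (∑ κ : ι → Option (Fin J), if mat KK C κ then ym x S κ else 0) =
        mU x S KK k := by
      rw [← m1]
    have m3' : (∑ κ : ι → Option (Fin J), if mat KK C κ ∧ 1 < lev κ then ym x S κ else 0) ≤
        tm x S KK k * mU x S KK k := m3
    linarith
  calc (1 - tm x S KK k) * (((S \ KK).card - 1).choose k : ℝ) * mU x S KK k
      = ∑ _C ∈ B, (1 - tm x S KK k) * mU x S KK k := by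
        rw [Finset.sum_const, nsmul_eq_mul, hcard]
        ring
    _ ≤ ∑ C ∈ B, E (insert h0 C) := Finset.sum_le_sum hone
    _ = ∑ A ∈ B.image (fun C => insert h0 C), E A := by
        rw [Finset.sum_image hinj]
    _ ≤ ∑ A ∈ (AA KK (k + 1)).filter (fun A => h0 ∈ A), E A :=
        Finset.sum_le_sum_of_subset_of_nonneg hsub fun A _ _ => hE0 A
    _ = EM q (PrQ f S KK (k + 1) 2 h0) := hPr.symm

end Pool.PP
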