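import Pool.Agent.Work.MP_b0c12c_px.UDefs
import Pool.Agent.Work.MP_b0c12c_gaps.B_CHB

set_option autoImplicit false

namespace Pool.PP

open Finset Filter

theorem UIX_idx (n j : ℕ) (h : Nat.nth Nat.Prime j ≤ n) : j < Nat.primeCounting n := by
  by_contra hc
  push Not at hc
  have h1 : Nat.count Nat.Prime (n + 1) ≤ j := hc
  have h2 : n + 1 ≤ Nat.nth Nat.Prime j := by
    have h3 : Nat.nth Nat.Prime (Nat.count Nat.Prime (n + 1)) ≤ Nat.nth Nat.Prime j :=
      Nat.nth_monotone Nat.infinite_setOfPred_prime h1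
    exact (Nat.le_nth_count Nat.infinite_setOfPred_prime (n + 1)).trans h3
  omega

theorem UIX_C (K c : ℝ) (hK : 0 < K) (hc : 0 < c) : open Classical in
    ∃ c' : ℝ, 0 < c' ∧ ∀ᶠ X : ℕ in atTop, ∀ P : ℕ → Prop,
      c * X ≤ (((Ioc X (2 * X)).filter (fun n : ℕ => ∃ j, n < Nat.nth Nat.Prime j ∧
        (Nat.nth Nat.Prime j : ℝ) ≤ n + K * Real.log X ∧ P j)).card : ℝ) →
      c' * (X / Real.log X) ≤ (((range (Nat.primeCounting (3 * X))).filter (fun j : ℕ =>
        X < Nat.nth Nat.Prime j ∧ Nat.nth Nat.Prime j ≤ 3 * X ∧ P j)).card : ℝ) := by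
  classical
  refine ⟨c / K, by positivity, ?_⟩
  have hlog : ∀ᶠ X : ℕ in atTop, K * Real.log X ≤ (X : ℝ) := by
    have h1 : (fun x : ℝ => Real.log x) =o[atTop] (fun x : ℝ => x) := Real.isLittleO_log_id_atTop
    have h2 := (h1.def (c := 1 / K) (by positivity))
    have h3 := tendsto_natCast_atTop_atTop (R := ℝ) |>.eventually h2
    filter_upwards [h3, eventually_ge_atTop 1] with X hX hX1
    have hX1' : (1 : ℝ) ≤ X := by exact_mod_cast hX1
    rw [Real.norm_eq_abs, Real.norm_eq_abs, abs_of_nonneg (Real.log_nonneg hX1'),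
      abs_of_nonneg (by linarith)] at hX
    calc K * Real.log X ≤ K * (1 / K * X) := by gcongr
      _ = X := by field_simp
  filter_upwards [hlog, eventually_ge_atTop 2] with X hX hX2 P hP
  have hX2' : (2 : ℝ) ≤ X := by exact_mod_cast hX2
  have hlX : 0 < Real.log (X : ℝ) := Real.log_pos (by linarith)
  set s := (Ioc X (2 * X)).filter (fun n : ℕ => ∃ j, n < Nat.nth Nat.Prime j ∧
        (Nat.nth Nat.Prime j : ℝ) ≤ n + K * Real.log X ∧ P j) with hs
  set t := (range (Nat.primeCounting (3 * X))).filter (fun j : ℕ =>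
        X < Nat.nth Nat.Prime j ∧ Nat.nth Nat.Prime j ≤ 3 * X ∧ P j) with ht
  set F : ℕ := ⌊K * Real.log X⌋₊ with hF
  have hFle : (F : ℝ) ≤ K * Real.log X := Nat.floor_le (by positivity)
  have hch : ∀ n : ℕ, ∃ j : ℕ, n ∈ s → (n < Nat.nth Nat.Prime j ∧
        (Nat.nth Nat.Prime j : ℝ) ≤ n + K * Real.log X ∧ P j) := by
    intro n
    by_cases hn : n ∈ s
    · obtain ⟨j, hj⟩ := (Finset.mem_filter.1 hn).2
      exact ⟨j, fun _ => hj⟩
    · exact ⟨0, fun h => absurd h hn⟩
  choose f hf using hch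
  have hmaps : ∀ n ∈ s, f n ∈ t := by
    intro n hn
    obtain ⟨h1, h2, h3⟩ := hf n hn
    have hn' := Finset.mem_Ioc.1 (Finset.mem_filter.1 hn).1
    have h4 : Nat.nth Nat.Prime (f n) ≤ 3 * X := by
      have h5 : (n : ℝ) ≤ 2 * X := by exact_mod_cast hn'.2
      have h6 : (Nat.nth Nat.Prime (f n) : ℝ) ≤ 3 * X := by linarith
      exact_mod_cast h6
    rw [ht, Finset.mem_filter, Finset.mem_range]
    exact ⟨UIX_idx _ _ h4, by omega, h4, h3⟩
  have hfib : ∀ j ∈ t, (s.filter (fun n => f n = j)).card ≤ F := by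
    intro j _
    have hsub : s.filter (fun n => f n = j) ⊆
        Ico (Nat.nth Nat.Prime j - F) (Nat.nth Nat.Prime j) := by
      intro n hn
      obtain ⟨hn1, hn2⟩ := Finset.mem_filter.1 hn
      obtain ⟨h1, h2, -⟩ := hf n hn1
      rw [hn2] at h1 h2
      rw [Finset.mem_Ico]
      refine ⟨?_, h1⟩
      have h3 : ((Nat.nth Nat.Prime j - n : ℕ) : ℝ) ≤ K * Real.log X := by
        rw [Nat.cast_sub h1.le]
        linarith
      have h4 : Nat.nth Nat.Prime j - n ≤ F := Nat.le_floor h3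
      omega
    refine (Finset.card_le_card hsub).trans ?_
    rw [Nat.card_Ico]
    omega
  have hcard := Finset.card_le_mul_card_image_of_maps_to hmaps F hfib
  have hcard' : (s.card : ℝ) ≤ F * t.card := by exact_mod_cast hcard
  have h7 : c * X ≤ K * Real.log X * t.card := by
    calc c * X ≤ (s.card : ℝ) := hP
      _ ≤ F * t.card := hcard'
      _ ≤ K * Real.log X * t.card := by gcongr
  have h8 : c / K * (X / Real.log X) = (c * X) / (K * Real.log X) := by
    field_simp
  rw [h8, div_le_iff₀ (by positivity)]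
  linarith

theorem p_UIX : Stmt_UIX := by
  unfold Stmt_UIX
  classical
  obtain ⟨C₀, hC₀, hCHB⟩ := Pool.LGP.p_CHB
  have hA : ∀ X : ℕ, 2 ≤ X → (Nat.primeCounting (3 * X) : ℝ) ≤ 3 * C₀ * (X / Real.log X) := by
    intro X hX
    have hX' : (2 : ℝ) ≤ X := by exact_mod_cast hX
    have hlX : 0 < Real.log (X : ℝ) := Real.log_pos (by linarith)
    have h := hCHB (3 * X : ℝ) (by linarith)
    have h2 : ⌊(3 * X : ℝ)⌋₊ = 3 * X := by
      have : (3 * X : ℝ) = ((3 * X : ℕ) : ℝ) := by push_cast; ring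
      rw [this, Nat.floor_natCast]
    rw [h2] at h
    have h3 : Real.log X ≤ Real.log (3 * X) := Real.log_le_log (by linarith) (by linarith)
    calc (Nat.primeCounting (3 * X) : ℝ) ≤ C₀ * (3 * X / Real.log (3 * X)) := h
      _ ≤ C₀ * (3 * X / Real.log X) := by gcongr
      _ = 3 * C₀ * (X / Real.log X) := by ring
  refine ⟨6 * C₀, by positivity, ?_, ?_, ?_⟩
  · filter_upwards [eventually_ge_atTop 2] with X hX
    have hX' : (2 : ℝ) ≤ X := by exact_mod_cast hX
    have hlX : 0 < Real.log (X : ℝ) := Real.log_pos (by linarith)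
    refine (hA X hX).trans ?_
    gcongr
    norm_num
  · have hL : Tendsto (fun X : ℕ => Real.log X) atTop atTop :=
      Real.tendsto_log_atTop.comp tendsto_natCast_atTop_atTop
    filter_upwards [hL.eventually (eventually_ge_atTop (3 * C₀)), eventually_ge_atTop 2]
      with N hN hN2
    have hN2' : (2 : ℝ) ≤ N := by exact_mod_cast hN2
    have hlN : 0 < Real.log (N : ℝ) := Real.log_pos (by linarith)
    have hpiN : Nat.primeCounting (3 * N) ≤ N := by
      have h1 := hA N hN2
      have h2 : 3 * C₀ * (N / Real.log N) ≤ N := by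
        rw [← mul_div_assoc, div_le_iff₀ hlN]
        nlinarith
      exact_mod_cast h1.trans h2
    have hex : ∃ Y : ℕ, N < Nat.primeCounting (3 * Y) := by
      have h1 := Nat.tendsto_primeCounting.eventually (eventually_gt_atTop N)
      obtain ⟨Y, hY⟩ := h1.exists_forall_of_atTop
      exact ⟨Y, hY (3 * Y) (by omega)⟩
    obtain ⟨Y, hY, hmin⟩ : ∃ Y : ℕ, N < Nat.primeCounting (3 * Y) ∧
        ∀ Z < Y, ¬ N < Nat.primeCounting (3 * Z) :=
      ⟨Nat.find hex, Nat.find_spec hex, fun Z hZ => Nat.find_min hex hZ⟩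
    have hNY : N < Y := by
      by_contra h
      push Not at h
      have : Nat.primeCounting (3 * Y) ≤ Nat.primeCounting (3 * N) :=
        Nat.monotone_primeCounting (by omega)
      omega
    obtain ⟨X, rfl⟩ : ∃ X, Y = X + 1 := ⟨Y - 1, by omega⟩
    refine ⟨X, by omega, ?_, ?_⟩
    · have := hmin X (by omega)
      omega
    · have hX2 : 2 ≤ X := by omega
      have hX2' : (2 : ℝ) ≤ X := by exact_mod_cast hX2
      have hlX : 0 < Real.log (X : ℝ) := Real.log_pos (by linarith)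
      have h1 := hA (X + 1) (by omega)
      have h2 : (N : ℝ) ≤ Nat.primeCounting (3 * (X + 1)) := by exact_mod_cast hY.le
      have h3 : Real.log X ≤ Real.log ((X + 1 : ℕ) : ℝ) :=
        Real.log_le_log (by linarith) (by push_cast; linarith)
      have h4 : ((X + 1 : ℕ) : ℝ) ≤ 2 * X := by push_cast; linarith
      calc (N : ℝ) ≤ 3 * C₀ * (((X + 1 : ℕ) : ℝ) / Real.log ((X + 1 : ℕ) : ℝ)) := h2.trans h1
        _ ≤ 3 * C₀ * ((2 * X) / Real.log X) := by gcongr
        _ = 6 * C₀ * (X / Real.log X) := by ring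
  · intro K c hK hc
    exact UIX_C K c hK hc

end Pool.PP
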