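import Pool.Agent.Work.MP_b0c12c_px.UDefs

/-! # Block ULM: limit points of positive upper density (MP_b0c12c) -/

set_option autoImplicit false

namespace Pool.PP

open Finset Filter

theorem ULM_next {q₁ q₂ : ℕ} (h1 : q₁.Prime) (h2 : q₂.Prime) (h : q₁ < q₂)
    (hno : ∀ q, q₁ < q → q < q₂ → ¬ q.Prime) :
    Nat.nth Nat.Prime (Nat.count Nat.Prime q₁) = q₁ ∧
      Nat.nth Nat.Prime (Nat.count Nat.Prime q₁ + 1) = q₂ := by
  refine ⟨Nat.nth_count h1, ?_⟩
  have h3 : ∀ q, q₁ + 1 ≤ q → q ≤ q₂ →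
      Nat.count Nat.Prime q = Nat.count Nat.Prime q₁ + 1 := by
    intro q hq
    induction q, hq using Nat.le_induction with
    | base => intro _; rw [Nat.count_succ, if_pos h1]
    | succ q hq ih =>
      intro hq2
      rw [Nat.count_succ, if_neg (hno q (by omega) (by omega)), add_zero]
      exact ih (by omega)
  rw [← h3 q₂ h le_rfl]
  exact Nat.nth_count h2

theorem ULM_key {J₁ : ℕ} {b : ℕ → ℝ} {δ K L ε : ℝ} {X n : ℕ} (hδ : 0 < δ)
    (hb0 : ∀ i < J₁, 0 ≤ b i) (hbm : ∀ i j, i < j → j < J₁ → b i + δ ≤ b j)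
    (hbK : ∀ i < J₁, b i + δ ≤ K) (hL : L = Real.log X) (hL0 : 0 < L) (hXn : X < n)
    (hn2 : n ≤ 2 * X) (hKX : K * L ≤ X) (hε : δ ≤ ε / 4) (hLε : 1 + 2 * K ≤ ε / 4 * L)
    (hG : Gd J₁ (fun i => ⌊b i * L⌋₊) ⌊δ * L⌋₊ ⌊K * L⌋₊ 1 n) :
    ∃ i j, i < j ∧ j < J₁ ∧ ∃ l, n < Nat.nth Nat.Prime l ∧
      (Nat.nth Nat.Prime l : ℝ) ≤ n + K * L ∧ |gN l / lN l - (b j - b i)| ≤ ε := by
  obtain ⟨hG1, hG2, hG3⟩ := hG
  set T := (Icc 1 ⌊K * L⌋₊).filter (fun h => (n + h).Prime) with hT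
  have hTne : T.Nonempty := Finset.card_pos.1 (by omega)
  set h₁ := T.min' hTne with hh₁
  have hT2 : (T.erase h₁).Nonempty := by
    apply Finset.card_pos.1
    rw [Finset.card_erase_of_mem (Finset.min'_mem T hTne)]
    omega
  set h₂ := (T.erase h₁).min' hT2 with hh₂
  have m1 : h₁ ∈ T := Finset.min'_mem T hTne
  have m2' : h₂ ∈ T.erase h₁ := Finset.min'_mem _ hT2
  have m2 : h₂ ∈ T := Finset.mem_of_mem_erase m2'
  have hne : h₂ ≠ h₁ := Finset.ne_of_mem_erase m2'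
  have hlt : h₁ < h₂ := lt_of_le_of_ne (Finset.min'_le T h₂ m2) (Ne.symm hne)
  obtain ⟨m1a, m1b⟩ := Finset.mem_filter.1 m1
  obtain ⟨m2a, m2b⟩ := Finset.mem_filter.1 m2
  have m1c := Finset.mem_Icc.1 m1a
  have m2c := Finset.mem_Icc.1 m2a
  have hno : ∀ q, n + h₁ < q → q < n + h₂ → ¬ q.Prime := by
    intro q hq1 hq2 hq
    have hm : q - n ∈ T.erase h₁ := by
      rw [Finset.mem_erase]
      refine ⟨by omega, Finset.mem_filter.2 ⟨Finset.mem_Icc.2 ⟨by omega, by omega⟩, ?_⟩⟩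
      rw [show n + (q - n) = q from by omega]
      exact hq
    have := Finset.min'_le _ _ hm
    rw [← hh₂] at this
    omega
  obtain ⟨hl1, hl2⟩ := ULM_next m1b m2b (by omega) hno
  obtain ⟨i, hi, hi1, hi2⟩ := hG1 h₁ m1a m1b
  obtain ⟨j, hj, hj1, hj2⟩ := hG1 h₂ m2a m2b
  simp only at hi1 hi2 hj1 hj2
  have hij : i < j := by
    rcases lt_trichotomy i j with h | h | h
    · exact h
    · exfalso
      subst h
      have h5 := hG2 i hi
      have h6 : ({h₁, h₂} : Finset ℕ) ⊆ (Ioc ⌊b i * L⌋₊ (⌊b i * L⌋₊ + ⌊δ * L⌋₊)).filter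
          (fun h => (n + h).Prime) := by
        intro x hx
        rw [Finset.mem_insert, Finset.mem_singleton] at hx
        rcases hx with rfl | rfl
        · exact Finset.mem_filter.2 ⟨Finset.mem_Ioc.2 ⟨hi1, hi2⟩, m1b⟩
        · exact Finset.mem_filter.2 ⟨Finset.mem_Ioc.2 ⟨hj1, hj2⟩, m2b⟩
      have h7 := Finset.card_le_card h6
      rw [Finset.card_pair (Ne.symm hne)] at h7
      simp only at h5
      omega
    · exfalso
      have h8 : ⌊b j * L⌋₊ + ⌊δ * L⌋₊ ≤ ⌊b i * L⌋₊ := by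
        apply Nat.le_floor
        push_cast
        have e1 : (⌊b j * L⌋₊ : ℝ) ≤ b j * L := Nat.floor_le (mul_nonneg (hb0 j hj) hL0.le)
        have e2 : (⌊δ * L⌋₊ : ℝ) ≤ δ * L := Nat.floor_le (mul_nonneg hδ.le hL0.le)
        have e3 : (b j + δ) * L ≤ b i * L := mul_le_mul_of_nonneg_right (hbm j i h hi) hL0.le
        linarith
      omega
  refine ⟨i, j, hij, hj, Nat.count Nat.Prime (n + h₁), ?_, ?_, ?_⟩
  · rw [hl1]
    omega
  · rw [hl1]
    push_cast
    have h9 : (h₁ : ℝ) ≤ K * L := by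
      have h10 : (h₁ : ℝ) ≤ (⌊K * L⌋₊ : ℝ) := by exact_mod_cast m1c.2
      refine le_trans h10 (Nat.floor_le ?_)
      have := hbK i hi
      have := hb0 i hi
      exact mul_nonneg (by linarith) hL0.le
    linarith
  · -- the estimate
    have hK0 : 0 < K := by
      have := hbK i hi
      have := hb0 i hi
      linarith
    have eg : gN (Nat.count Nat.Prime (n + h₁)) = (h₂ : ℝ) - h₁ := by
      unfold gN
      rw [hl1, hl2]
      push_cast
      ring
    have el : lN (Nat.count Nat.Prime (n + h₁)) = Real.log ((n + h₁ : ℕ) : ℝ) := by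
      unfold lN
      rw [hl1]
    have hfl : ∀ s : ℕ, s < J₁ → (b s * L - 1 < (⌊b s * L⌋₊ : ℝ)) ∧
        ((⌊b s * L⌋₊ : ℝ) ≤ b s * L) := by
      intro s hs
      exact ⟨by linarith [Nat.lt_floor_add_one (b s * L)],
        Nat.floor_le (mul_nonneg (hb0 s hs) hL0.le)⟩
    have hfδ : (⌊δ * L⌋₊ : ℝ) ≤ δ * L := Nat.floor_le (mul_nonneg hδ.le hL0.le)
    have r1 : (⌊b i * L⌋₊ : ℝ) < h₁ := by exact_mod_cast hi1
    have r2 : (h₁ : ℝ) ≤ ⌊b i * L⌋₊ + ⌊δ * L⌋₊ := by exact_mod_cast hi2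
    have r3 : (⌊b j * L⌋₊ : ℝ) < h₂ := by exact_mod_cast hj1
    have r4 : (h₂ : ℝ) ≤ ⌊b j * L⌋₊ + ⌊δ * L⌋₊ := by exact_mod_cast hj2
    have f1 := hfl i hi
    have f2 := hfl j hj
    have hg1 : |((h₂ : ℝ) - h₁) - (b j - b i) * L| ≤ δ * L + 1 := by
      rw [abs_le]
      constructor
      · nlinarith
      · nlinarith
    have hX0 : (0 : ℝ) < X := by
      by_contra h
      have : (X : ℝ) = 0 := le_antisymm (not_lt.1 h) (Nat.cast_nonneg X)
      rw [hL, this, Real.log_zero] at hL0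
      exact lt_irrefl _ hL0
    have hq1 : (X : ℝ) ≤ ((n + h₁ : ℕ) : ℝ) := by exact_mod_cast (by omega : X ≤ n + h₁)
    have hq2 : ((n + h₁ : ℕ) : ℝ) ≤ 3 * X := by
      have h10 : (h₁ : ℝ) ≤ (⌊K * L⌋₊ : ℝ) := by exact_mod_cast m1c.2
      have h11 : (⌊K * L⌋₊ : ℝ) ≤ K * L := Nat.floor_le (mul_nonneg hK0.le hL0.le)
      have h12 : (n : ℝ) ≤ 2 * X := by exact_mod_cast hn2
      push_cast
      linarith
    have hlog1 : L ≤ Real.log ((n + h₁ : ℕ) : ℝ) := by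
      rw [hL]
      exact Real.log_le_log hX0 hq1
    have hlog2 : Real.log ((n + h₁ : ℕ) : ℝ) ≤ L + 2 := by
      have h13 : Real.log ((n + h₁ : ℕ) : ℝ) ≤ Real.log (3 * X) :=
        Real.log_le_log (by linarith) hq2
      rw [Real.log_mul (by norm_num) hX0.ne', ← hL] at h13
      have h14 : Real.log 3 ≤ 2 := by
        have := Real.log_le_sub_one_of_pos (show (0 : ℝ) < 3 by norm_num)
        linarith
      linarith
    rw [eg, el]
    set Λ := Real.log ((n + h₁ : ℕ) : ℝ) with hΛ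
    have hΛ0 : 0 < Λ := lt_of_lt_of_le hL0 hlog1
    have hβ0 : 0 ≤ b j - b i := by
      have := hbm i j hij hj
      linarith
    have hβK : b j - b i ≤ K := by
      have := hbK j hj
      have := hb0 i hi
      linarith
    have e5 : ((h₂ : ℝ) - h₁) / Λ - (b j - b i) =
        ((((h₂ : ℝ) - h₁) - (b j - b i) * L) - (b j - b i) * (Λ - L)) / Λ := by
      field_simp
      ring
    rw [e5, abs_div, abs_of_pos hΛ0, div_le_iff₀ hΛ0]
    have e6 : |(b j - b i) * (Λ - L)| ≤ K * 2 := by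
      rw [abs_of_nonneg (mul_nonneg hβ0 (by linarith))]
      exact mul_le_mul hβK (by linarith) (by linarith) hK0.le
    have e7 := abs_sub (((h₂ : ℝ) - h₁) - (b j - b i) * L) ((b j - b i) * (Λ - L))
    have e8 : δ * L ≤ ε / 4 * L := mul_le_mul_of_nonneg_right hε hL0.le
    have hε0 : 0 < ε := by linarith
    have e9 : ε * L ≤ ε * Λ := mul_le_mul_of_nonneg_left hlog1 hε0.le
    nlinarith

theorem ULM_core {J₁ : ℕ} (hJ : 0 < J₁)
    (hC : open Classical in ∀ (δ K : ℝ) (a : ℕ → ℝ), 0 < δ → (∀ i < J₁, 0 ≤ a i) →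
      (∀ i, i + 1 < J₁ → a i + δ ≤ a (i + 1)) → (∀ i < J₁, a i + δ ≤ K) → ∃ c : ℝ, 0 < c ∧
      ∀ᶠ X : ℕ in atTop, c * X ≤ (((Ioc X (2 * X)).filter (fun n : ℕ =>
        Gd J₁ (fun i => ⌊a i * Real.log X⌋₊) ⌊δ * Real.log X⌋₊ ⌊K * Real.log X⌋₊ 1 n)).card : ℝ))
    (h2 : Stmt_UIX) (a : ℕ → ℝ) (ha : StrictMono a) (ε : ℝ) (hε : 0 < ε) :
    open Classical in
    ∃ c₁ : ℝ, 0 < c₁ ∧ ∀ᶠ X : ℕ in atTop, ∃ i j : ℕ, i < j ∧ j < J₁ ∧
      c₁ * (Nat.primeCounting (3 * X) : ℝ) ≤ (((range (Nat.primeCounting (3 * X))).filter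
        (fun l : ℕ => |gN l / lN l - (a j - a i)| ≤ ε)).card : ℝ) := by
  classical
  obtain ⟨i₀, -, hi₀⟩ := Finset.exists_min_image (range J₁) (fun i => a (i + 1) - a i)
    ⟨0, Finset.mem_range.2 hJ⟩
  have hgap : 0 < a (i₀ + 1) - a i₀ := by
    have := ha (Nat.lt_succ_self i₀)
    simp only [Nat.succ_eq_add_one] at this
    linarith
  obtain ⟨δ, hδ, hδ1, hδ2⟩ : ∃ δ : ℝ, 0 < δ ∧ δ ≤ ε / 4 ∧ δ ≤ a (i₀ + 1) - a i₀ :=
    ⟨min (ε / 4) (a (i₀ + 1) - a i₀), lt_min (by positivity) hgap, min_le_left _ _,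
      min_le_right _ _⟩
  have hst : ∀ i j, i < j → j < J₁ → a i + δ ≤ a j := by
    intro i j hij hj
    have e1 := hi₀ i (Finset.mem_range.2 (by omega))
    have e2 : a (i + 1) ≤ a j := ha.monotone hij
    linarith
  set b : ℕ → ℝ := fun i => a i - a 0 with hb
  set K : ℝ := b (J₁ - 1) + δ with hK
  have hb0 : ∀ i < J₁, 0 ≤ b i := by
    intro i _
    have : a 0 ≤ a i := ha.monotone (Nat.zero_le i)
    simp only [hb]
    linarith
  have hbm : ∀ i j, i < j → j < J₁ → b i + δ ≤ b j := by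
    intro i j hij hj
    have := hst i j hij hj
    simp only [hb]
    linarith
  have hbK : ∀ i < J₁, b i + δ ≤ K := by
    intro i hi
    have : a i ≤ a (J₁ - 1) := ha.monotone (by omega)
    simp only [hK, hb]
    linarith
  have hK0 : 0 < K := by
    have e1 := hbK 0 hJ
    have e2 := hb0 0 hJ
    linarith
  obtain ⟨c, hc, hev⟩ := hC δ K b hδ hb0 (fun i hi => hbm i (i + 1) (Nat.lt_succ_self i) hi) hbK
  obtain ⟨C, hC0, hup, -, hconv⟩ := h2
  have hJr : (0 : ℝ) < J₁ := by exact_mod_cast hJ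
  have hcJ : 0 < c / (J₁ : ℝ) ^ 2 := by positivity
  obtain ⟨c', hc', hev2⟩ := hconv K (c / (J₁ : ℝ) ^ 2) hK0 hcJ
  refine ⟨c' / C, by positivity, ?_⟩
  have htlog : Tendsto (fun X : ℕ => Real.log (X : ℝ)) atTop atTop :=
    Real.tendsto_log_atTop.comp tendsto_natCast_atTop_atTop
  have e1 : ∀ᶠ X : ℕ in atTop, (1 + 2 * K) / (ε / 4) + 1 ≤ Real.log X :=
    htlog.eventually (Filter.eventually_ge_atTop _)
  have e2 : ∀ᶠ X : ℕ in atTop, K * Real.log X ≤ X := by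
    have h3 := (Real.isLittleO_log_id_atTop.def (show (0 : ℝ) < 1 / K by positivity))
    have h4 := tendsto_natCast_atTop_atTop.eventually h3
    filter_upwards [h4, Filter.eventually_ge_atTop 1] with X hX hX1
    have hX1' : (1 : ℝ) ≤ X := by exact_mod_cast hX1
    simp only [id] at hX
    rw [Real.norm_of_nonneg (Real.log_nonneg hX1'), Real.norm_of_nonneg (by linarith)] at hX
    rw [div_mul_eq_mul_div, one_mul, le_div_iff₀ hK0] at hX
    linarith
  filter_upwards [hev, hup, hev2, e1, e2, Filter.eventually_ge_atTop 1] with X h3 h4 h5 h6 h7 h8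
  have hX0 : (0 : ℝ) < X := by exact_mod_cast h8
  have hq : 0 < (1 + 2 * K) / (ε / 4) := by positivity
  have hL0 : 0 < Real.log X := by linarith
  have hLε : 1 + 2 * K ≤ ε / 4 * Real.log X := by
    have h9 : (1 + 2 * K) / (ε / 4) ≤ Real.log X := by linarith
    rw [div_le_iff₀ (by positivity)] at h9
    linarith
  -- the sets of the pairs
  set P : ℕ × ℕ → ℕ → Prop := fun s l => s.1 < s.2 ∧ |gN l / lN l - (a s.2 - a s.1)| ≤ ε with hP
  set F : ℕ × ℕ → Finset ℕ := fun s => (Ioc X (2 * X)).filter (fun n : ℕ =>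
    ∃ j, n < Nat.nth Nat.Prime j ∧ (Nat.nth Nat.Prime j : ℝ) ≤ n + K * Real.log X ∧ P s j) with hF
  have hsub : (Ioc X (2 * X)).filter (fun n : ℕ =>
      Gd J₁ (fun i => ⌊b i * Real.log X⌋₊) ⌊δ * Real.log X⌋₊ ⌊K * Real.log X⌋₊ 1 n) ⊆
      (range J₁ ×ˢ range J₁).biUnion F := by
    intro n hn
    obtain ⟨hn1, hn2⟩ := Finset.mem_filter.1 hn
    have hn3 := Finset.mem_Ioc.1 hn1
    obtain ⟨i, j, hij, hj, l, hl1, hl2, hl3⟩ := ULM_key hδ hb0 hbm hbK rfl hL0 hn3.1 hn3.2 h7 hδ1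
      hLε hn2
    rw [Finset.mem_biUnion]
    refine ⟨(i, j), Finset.mem_product.2 ⟨Finset.mem_range.2 (by omega),
      Finset.mem_range.2 hj⟩, Finset.mem_filter.2 ⟨hn1, l, hl1, hl2, hij, ?_⟩⟩
    have e3 : b j - b i = a j - a i := by
      simp only [hb]
      ring
    rw [e3] at hl3
    exact hl3
  have hex : ∃ s ∈ range J₁ ×ˢ range J₁, c / (J₁ : ℝ) ^ 2 * X ≤ ((F s).card : ℝ) := by
    by_contra hno
    push Not at hno
    have h9 : (((Ioc X (2 * X)).filter (fun n : ℕ =>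
        Gd J₁ (fun i => ⌊b i * Real.log X⌋₊) ⌊δ * Real.log X⌋₊ ⌊K * Real.log X⌋₊ 1 n)).card : ℝ) ≤
        ∑ s ∈ range J₁ ×ˢ range J₁, ((F s).card : ℝ) := by
      have := le_trans (Finset.card_le_card hsub) Finset.card_biUnion_le
      exact_mod_cast this
    have h10 : ∑ s ∈ range J₁ ×ˢ range J₁, ((F s).card : ℝ) <
        ∑ s ∈ range J₁ ×ˢ range J₁, c / (J₁ : ℝ) ^ 2 * X := by
      apply Finset.sum_lt_sum_of_nonempty
      · exact ⟨(0, 0), Finset.mem_product.2 ⟨Finset.mem_range.2 hJ, Finset.mem_range.2 hJ⟩⟩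
      · exact hno
    rw [Finset.sum_const, Finset.card_product, Finset.card_range, nsmul_eq_mul] at h10
    have h11 : ((J₁ * J₁ : ℕ) : ℝ) * (c / (J₁ : ℝ) ^ 2 * X) = c * X := by
      push_cast
      field_simp
    rw [h11] at h10
    linarith
  obtain ⟨s, hs, hs2⟩ := hex
  obtain ⟨hs3, hs4⟩ := Finset.mem_product.1 hs
  have h12 := h5 (P s) hs2
  have hpos : 0 < c' * (X / Real.log X) := by positivity
  have hlt : s.1 < s.2 := by
    have h13 := lt_of_lt_of_le hpos h12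
    obtain ⟨l, hl⟩ := Finset.card_pos.1 (Nat.cast_pos.1 h13)
    simp only [Finset.mem_filter] at hl
    exact hl.2.2.2.1
  refine ⟨s.1, s.2, hlt, Finset.mem_range.1 hs4, ?_⟩
  calc c' / C * (Nat.primeCounting (3 * X) : ℝ) ≤ c' / C * (C * (X / Real.log X)) :=
        mul_le_mul_of_nonneg_left h4 (by positivity)
    _ = c' * (X / Real.log X) := by
        field_simp
    _ ≤ _ := h12
    _ ≤ _ := by
        apply Nat.cast_le.2
        apply Finset.card_le_card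
        intro l hl
        simp only [Finset.mem_filter] at hl ⊢
        exact ⟨hl.1, hl.2.2.2.2⟩

theorem p_ULM (h1 : Stmt_CCU) (h2 : Stmt_UIX) : Stmt_ULM := by
  classical
  obtain ⟨J₁, hJ, hC⟩ := h1 1
  refine ⟨J₁, fun a ha => ?_⟩
  by_contra hcon
  have hall : ∀ᶠ ε : ℝ in nhdsWithin 0 (Set.Ioi 0), ∀ s ∈ range J₁ ×ˢ range J₁, s.1 < s.2 →
      ∀ c : ℝ, 0 < c → ∀ᶠ N : ℕ in atTop, (((range N).filter
        (fun l : ℕ => |gN l / lN l - (a s.2 - a s.1)| ≤ ε)).card : ℝ) < c * N := by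
    rw [Filter.eventually_all_finset]
    intro s hs
    by_cases hlt : s.1 < s.2
    · have h3 : ¬ PLim (a s.2 - a s.1) := fun h =>
        hcon ⟨s.1, s.2, hlt, Finset.mem_range.1 (Finset.mem_product.1 hs).2, h⟩
      unfold PLim at h3
      push Not at h3
      obtain ⟨ε, hε, h3⟩ := h3
      filter_upwards [Ioo_mem_nhdsGT hε] with ε' hε' _ c hc
      have h4 := h3 c hc
      filter_upwards [h4] with N hN
      refine lt_of_le_of_lt ?_ hN
      have h5 : (range N).filter (fun l : ℕ => |gN l / lN l - (a s.2 - a s.1)| ≤ ε') ⊆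
          (range N).filter (fun l : ℕ => |gN l / lN l - (a s.2 - a s.1)| ≤ ε) := by
        intro l hl
        obtain ⟨hl1, hl2⟩ := Finset.mem_filter.1 hl
        exact Finset.mem_filter.2 ⟨hl1, le_trans hl2 hε'.2.le⟩
      exact_mod_cast Finset.card_le_card h5
    · exact Filter.Eventually.of_forall (fun ε h => absurd h hlt)
  obtain ⟨ε, hε1, hε⟩ := (hall.and self_mem_nhdsWithin).exists
  obtain ⟨c₁, hc₁, hcore⟩ := ULM_core hJ hC h2 a ha ε hε
  have hN : ∀ᶠ N : ℕ in atTop, ∀ s ∈ range J₁ ×ˢ range J₁, s.1 < s.2 → (((range N).filter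
        (fun l : ℕ => |gN l / lN l - (a s.2 - a s.1)| ≤ ε)).card : ℝ) < c₁ * N := by
    rw [Filter.eventually_all_finset]
    intro s hs
    by_cases hlt : s.1 < s.2
    · filter_upwards [hε1 s hs hlt c₁ hc₁] with N h _
      exact h
    · exact Filter.Eventually.of_forall (fun N h => absurd h hlt)
  have ht : Tendsto (fun X : ℕ => Nat.primeCounting (3 * X)) atTop atTop :=
    Nat.tendsto_primeCounting.comp (Filter.tendsto_id.const_mul_atTop' (by norm_num))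
  obtain ⟨X, h6, i, j, hij, hj, h7⟩ := ((ht.eventually hN).and hcore).exists
  have h8 := h6 (i, j) (Finset.mem_product.2 ⟨Finset.mem_range.2 (by omega),
    Finset.mem_range.2 hj⟩) hij
  simp only at h8
  linarith

end Pool.PP
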