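import Pool.Agent.Work.MP_b0c12c_px.UDefs
import Pool.Agent.Work.MP_b0c12c_px.B_QMA

/-! # Block UMA (helper28) -/

set_option autoImplicit false

namespace Pool.PP

open Finset

theorem UMA_one {ι : Type} [Fintype ι] [DecidableEq ι] {J : ℕ} (x : Fin J → ℝ)
    (S KK A : Finset ι) (hx : ∀ s, 0 ≤ x s) (hd : Disjoint A KK) (hX : 0 < sX x) (hA : A ⊆ S)
    (h0 : ι) [DecidablePred (mat KK A : (ι → Option (Fin J)) → Prop)] :
    (∑ κ : ι → Option (Fin J), if mat KK A κ then lev1 (κ h0) * ym x S κ else 0) ≤
      ((if h0 ∈ A then sY x / sX x else 0) + (if h0 ∈ KK ∩ S then sY x else 0)) *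
        mU x S KK A.card := by
  classical
  set F : ι → ℝ := fun h => if h ∈ KK then ∑ o, yy x S h o else
    if h ∈ A then ∑ s, yy x S h (some s) else yy x S h none with hF
  have hFm : ∏ h, F h = mU x S KK A.card := by
    have h2 := QMA_val x S KK A hd (fun _ => (1 : ℝ)) rfl
    simp only [mul_one] at h2
    rw [if_pos hA] at h2
    rw [hF, h2]
    rfl
  have hsome : ∀ h, ∑ s, yy x S h (some s) = if h ∈ S then sX x else 0 := by
    intro h
    by_cases a : h ∈ S
    · simp [yy, a, sX]
    · simp [yy, a]
  have hsomeY : ∀ h, ∑ s, yy x S h (some s) * lev1 (some s) = if h ∈ S then sY x else 0 := by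
    intro h
    by_cases a : h ∈ S
    · simp only [yy, a, if_true, sY, lev1]
      exact Finset.sum_congr rfl (fun s _ => mul_comm _ _)
    · simp [yy, a]
  have hX0 : 0 ≤ sX x := hX.le
  have hY0 : 0 ≤ sY x := Finset.sum_nonneg (fun s _ => mul_nonneg (by positivity) (hx s))
  have hF0 : ∀ h, 0 ≤ F h := by
    intro h
    simp only [hF]
    by_cases a : h ∈ KK
    · rw [if_pos a, Fintype.sum_option, hsome]
      have : yy x S h none = 1 := rfl
      rw [this]
      by_cases b : h ∈ S
      · simp only [b, if_true]; linarith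
      · simp [b]
    · rw [if_neg a]
      by_cases b : h ∈ A
      · rw [if_pos b, hsome]
        split_ifs
        · exact hX0
        · exact le_rfl
      · rw [if_neg b]
        have : yy x S h none = 1 := rfl
        rw [this]
        norm_num
  have hmU : 0 ≤ mU x S KK A.card := by
    unfold mU
    positivity
  have h1 : (∑ κ : ι → Option (Fin J), if mat KK A κ then lev1 (κ h0) * ym x S κ else 0) =
      ∏ h, (if h ∈ KK then ∑ o, yy x S h o * (if h = h0 then lev1 o else 1) else
        if h ∈ A then ∑ s, yy x S h (some s) * (if h = h0 then lev1 (some s) else 1) else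
          yy x S h none * (if h = h0 then lev1 (none : Option (Fin J)) else 1)) := by
    rw [← QMA_fac KK A (fun h o => yy x S h o * (if h = h0 then lev1 o else 1))]
    refine Finset.sum_congr rfl (fun κ _ => ?_)
    by_cases a : mat KK A κ
    · rw [if_pos a, if_pos a, Finset.prod_mul_distrib, Finset.prod_ite_eq' univ h0,
        if_pos (mem_univ _), mul_comm]
      rfl
    · rw [if_neg a, if_neg a]
  rw [h1, ← Finset.mul_prod_erase univ _ (mem_univ h0)]
  have h2 : ∏ h ∈ univ.erase h0, (if h ∈ KK then ∑ o, yy x S h o * (if h = h0 then lev1 o else 1)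
      else if h ∈ A then ∑ s, yy x S h (some s) * (if h = h0 then lev1 (some s) else 1) else
          yy x S h none * (if h = h0 then lev1 (none : Option (Fin J)) else 1)) = ∏ h ∈ univ.erase h0, F h := by
    refine Finset.prod_congr rfl (fun h hh => ?_)
    have hne : h ≠ h0 := (Finset.mem_erase.mp hh).1
    simp only [hne, if_false, mul_one, hF]
  rw [h2]
  have h3 : F h0 * ∏ h ∈ univ.erase h0, F h = mU x S KK A.card := by
    rw [Finset.mul_prod_erase univ F (mem_univ h0), hFm]
  set P : ℝ := ∏ h ∈ univ.erase h0, F h with hP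
  have hP0 : 0 ≤ P := Finset.prod_nonneg (fun h _ => hF0 h)
  by_cases a : h0 ∈ KK
  · have b : h0 ∉ A := fun hb => Finset.disjoint_left.mp hd hb a
    rw [if_pos a, if_neg b]
    simp only [if_true]
    rw [Fintype.sum_option, hsomeY]
    by_cases c : h0 ∈ S
    · rw [if_pos c, if_pos (Finset.mem_inter.mpr ⟨a, c⟩)]
      have e1 : F h0 = 1 + sX x := by
        simp only [hF, a, if_true]
        rw [Fintype.sum_option, hsome, if_pos c]
        rfl
      have e2 : P ≤ mU x S KK A.card := by
        rw [← h3, e1]
        nlinarith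
      have e3 : yy x S h0 none * lev1 (none : Option (Fin J)) = 0 := by simp [lev1]
      rw [e3]
      simp only [zero_add]
      exact mul_le_mul_of_nonneg_left e2 hY0
    · rw [if_neg c]
      have e3 : yy x S h0 none * lev1 (none : Option (Fin J)) = 0 := by simp [lev1]
      rw [e3, if_neg (fun h => c (Finset.mem_inter.mp h).2)]
      simp
  · have a' : h0 ∉ KK ∩ S := fun h => a (Finset.mem_inter.mp h).1
    rw [if_neg a, if_neg a']
    by_cases b : h0 ∈ A
    · rw [if_pos b, if_pos b]
      simp only [if_true]
      rw [hsomeY, if_pos (hA b)]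
      have e1 : F h0 = sX x := by
        simp only [hF, a, b, if_true, if_false]
        rw [hsome, if_pos (hA b)]
      rw [add_zero, ← h3, e1]
      apply le_of_eq
      field_simp
    · rw [if_neg b, if_neg b]
      simp only [if_true]
      have e3 : lev1 (none : Option (Fin J)) = 0 := by simp [lev1]
      rw [e3]
      simp

theorem p_UMA : Stmt_UMA := by
  classical
  intro ι _ _ J x S KK A hx hd hX hA
  have hyy : ∀ h o, 0 ≤ yy x S h o := by
    intro h o
    cases o with
    | none => simp [yy]
    | some s =>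
      simp only [yy]
      split_ifs
      · exact hx s
      · exact le_rfl
  have hym : ∀ κ, 0 ≤ ym x S κ := fun κ => Finset.prod_nonneg (fun h _ => hyy _ _)
  have hl0 : ∀ o : Option (Fin J), 0 ≤ lev1 o := by
    intro o
    cases o with
    | none => simp [lev1]
    | some s => simp [lev1]
  have h1 : (∑ κ : ι → Option (Fin J), if mat KK A κ ∧ 1 < lev κ then ym x S κ else 0) ≤
      ∑ κ : ι → Option (Fin J), ∑ h0 : ι, if mat KK A κ then lev1 (κ h0) * ym x S κ else 0 := by
    refine Finset.sum_le_sum (fun κ _ => ?_)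
    by_cases a : mat KK A κ
    · simp only [a, if_true, true_and]
      rw [← Finset.sum_mul]
      change _ ≤ lev κ * ym x S κ
      split_ifs with b
      · nlinarith [hym κ]
      · exact mul_nonneg (Finset.sum_nonneg (fun h _ => hl0 _)) (hym κ)
    · simp [a]
  refine h1.trans ?_
  rw [Finset.sum_comm]
  refine (Finset.sum_le_sum (fun h0 _ => UMA_one x S KK A hx hd hX hA h0)).trans ?_
  rw [← Finset.sum_mul, Finset.sum_add_distrib, Finset.sum_ite_mem, Finset.sum_ite_mem,
    Finset.univ_inter, Finset.univ_inter, Finset.sum_const, Finset.sum_const, nsmul_eq_mul,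
    nsmul_eq_mul]
  rfl

end Pool.PP
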