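import Pool.Agent.Work.MP_b0c12c_px.UDefs

/-! # Block UPA: the mean of the weight with two majorants (helper30) -/

set_option autoImplicit false

namespace Pool.PP

open Finset

theorem UPA_w1_nonneg {π : Type} [Fintype π] [DecidableEq π] (q : π → ℝ) (h0 : ∀ x, 0 ≤ q x)
    (h1 : ∀ x, q x ≤ 1) (T : Finset π) : 0 ≤ w1 q T := by
  unfold w1
  apply mul_nonneg
  · exact Finset.prod_nonneg fun x _ => h0 x
  · exact Finset.prod_nonneg fun x _ => sub_nonneg.mpr (h1 x)

theorem UPA_xs_nonneg {π : Type} [Fintype π] [DecidableEq π] (q : π → ℝ) (h0 : ∀ x, 0 ≤ q x)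
    (h1 : ∀ x, q x ≤ 1) {J : ℕ} (f : Fin J → Finset π → ℝ) (s : Fin J) : 0 ≤ xs q f s := by
  unfold xs E1
  apply div_nonneg _ (sq_nonneg _)
  exact Finset.sum_nonneg fun T _ => mul_nonneg (UPA_w1_nonneg q h0 h1 T) (sq_nonneg _)

theorem UPA_ym_nonneg {ι : Type} [Fintype ι] [DecidableEq ι] {J : ℕ} (x : Fin J → ℝ)
    (hx : ∀ s, 0 ≤ x s) (S : Finset ι) (κ : ι → Option (Fin J)) : 0 ≤ ym x S κ := by
  unfold ym
  apply Finset.prod_nonneg
  intro h _
  rcases κ h with _ | s
  · exact zero_le_one
  · simp only [yy]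
    split_ifs
    · exact hx s
    · exact le_refl _

theorem UPA_EM_nonneg {π ι : Type} [Fintype π] [DecidableEq π] [Fintype ι] [DecidableEq ι]
    (q : π → ℝ) (h0 : ∀ x, 0 ≤ q x) (h1 : ∀ x, q x ≤ 1) (Φ : (ι → Finset π) → ℝ)
    (h : ∀ t, 0 ≤ Φ t) : 0 ≤ EM q Φ := by
  unfold EM
  apply Finset.sum_nonneg
  intro t _
  exact mul_nonneg (Finset.prod_nonneg fun x _ => UPA_w1_nonneg q h0 h1 _) (h t)

/-! ## Counting -/

theorem UPA_cnt1 {ι : Type} [DecidableEq ι] (B : Finset ι) (a : ι) (ha : a ∈ B) (k : ℕ) :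
    (B.card : ℝ) * (((powersetCard k B).filter (fun A => a ∈ A)).card : ℝ) =
      k * (B.card.choose k : ℝ) := by
  rcases k with _ | k
  · simp
  · have h1 := card_filter_powersetCard_subset {a} B (k + 1) (by simpa using ha) (by simp)
    simp only [singleton_subset_iff, card_singleton, Nat.add_sub_cancel] at h1
    rw [h1]
    obtain ⟨n, hn⟩ : ∃ n, B.card = n + 1 :=
      ⟨B.card - 1, by have := Finset.card_pos.mpr ⟨a, ha⟩; omega⟩
    rw [hn, Nat.add_sub_cancel]
    have h2 := Nat.add_one_mul_choose_eq n k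
    have h3 : ((n + 1 : ℕ) : ℝ) * (n.choose k : ℝ) =
        ((n + 1).choose (k + 1) : ℝ) * ((k + 1 : ℕ) : ℝ) := by exact_mod_cast h2
    rw [h3]; ring

theorem UPA_cnt2 {ι : Type} [DecidableEq ι] (B : Finset ι) (a a' : ι) (ha : a ∈ B) (ha' : a' ∈ B)
    (hne : a ≠ a') (k : ℕ) :
    (B.card : ℝ) ^ 2 * (((powersetCard k B).filter (fun A => a ∈ A ∧ a' ∈ A)).card : ℝ) ≤
      (k : ℝ) ^ 2 * (B.card.choose k : ℝ) := by
  have hpair : ({a, a'} : Finset ι).card = 2 := Finset.card_pair hne
  by_cases hk : 2 ≤ k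
  · have hsub : ({a, a'} : Finset ι) ⊆ B := by
      intro x hx
      simp only [mem_insert, mem_singleton] at hx
      rcases hx with rfl | rfl
      · exact ha
      · exact ha'
    have h1 := card_filter_powersetCard_subset {a, a'} B k hsub (by rw [hpair]; exact hk)
    rw [hpair] at h1
    have h1' : (powersetCard k B).filter (fun A => a ∈ A ∧ a' ∈ A) =
        (powersetCard k B).filter (fun A => {a, a'} ⊆ A) := by
      apply Finset.filter_congr
      intro A _
      simp [Finset.insert_subset_iff]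
    rw [h1', h1]
    have hn2 : 2 ≤ B.card := by rw [← hpair]; exact Finset.card_le_card hsub
    obtain ⟨n, hn⟩ : ∃ n, B.card = n + 2 := ⟨B.card - 2, by omega⟩
    obtain ⟨l, rfl⟩ : ∃ l, k = l + 2 := ⟨k - 2, by omega⟩
    rw [hn, Nat.add_sub_cancel, Nat.add_sub_cancel]
    by_cases hln : l ≤ n
    · have h2 := Nat.add_one_mul_choose_eq n l
      have h3 := Nat.add_one_mul_choose_eq (n + 1) (l + 1)
      have h2' : ((n : ℝ) + 1) * (n.choose l : ℝ) =
          ((n + 1).choose (l + 1) : ℝ) * ((l : ℝ) + 1) := by exact_mod_cast h2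
      have h3' : ((n : ℝ) + 2) * ((n + 1).choose (l + 1) : ℝ) =
          ((n + 2).choose (l + 2) : ℝ) * ((l : ℝ) + 2) := by
        have h3'' : (((n + 1 + 1 : ℕ)) : ℝ) * ((n + 1).choose (l + 1) : ℝ) =
            ((n + 1 + 1).choose (l + 1 + 1) : ℝ) * (((l + 1 + 1 : ℕ)) : ℝ) := by exact_mod_cast h3
        push_cast at h3''
        have e1 : (n : ℝ) + 1 + 1 = n + 2 := by ring
        have e2 : (l : ℝ) + 1 + 1 = l + 2 := by ring
        rw [e1, e2] at h3''
        exact h3''
      push_cast
      have hc : (0 : ℝ) ≤ ((n + 2).choose (l + 2) : ℝ) := by positivity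
      have hlr : (l : ℝ) ≤ n := by exact_mod_cast hln
      have hn0 : (0 : ℝ) ≤ n := by positivity
      have hl0 : (0 : ℝ) ≤ l := by positivity
      -- multiply by n + 1
      have h4 : ((n : ℝ) + 1) * (((n : ℝ) + 2) ^ 2 * (n.choose l : ℝ)) ≤
          ((n : ℝ) + 1) * (((l : ℝ) + 2) ^ 2 * ((n + 2).choose (l + 2) : ℝ)) := by
        have e1 : ((n : ℝ) + 1) * (((n : ℝ) + 2) ^ 2 * (n.choose l : ℝ)) =
            ((n : ℝ) + 2) * (((l : ℝ) + 2) * ((l : ℝ) + 1)) * ((n + 2).choose (l + 2) : ℝ) := by
          calc ((n : ℝ) + 1) * (((n : ℝ) + 2) ^ 2 * (n.choose l : ℝ))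
              = ((n : ℝ) + 2) ^ 2 * (((n : ℝ) + 1) * (n.choose l : ℝ)) := by ring
            _ = ((n : ℝ) + 2) ^ 2 * (((n + 1).choose (l + 1) : ℝ) * ((l : ℝ) + 1)) := by rw [h2']
            _ = ((n : ℝ) + 2) * ((l : ℝ) + 1) * (((n : ℝ) + 2) * ((n + 1).choose (l + 1) : ℝ)) := by
              ring
            _ = _ := by rw [h3']; ring
        have e2 : ((n : ℝ) + 1) * (((l : ℝ) + 2) ^ 2 * ((n + 2).choose (l + 2) : ℝ)) =
            (((n : ℝ) + 1) * ((l : ℝ) + 2) ^ 2) * ((n + 2).choose (l + 2) : ℝ) := by ring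
        rw [e1, e2]
        apply mul_le_mul_of_nonneg_right _ hc
        nlinarith
      exact le_of_mul_le_mul_left h4 (by positivity)
    · have h2 : n.choose l = 0 := Nat.choose_eq_zero_of_lt (by omega)
      rw [h2]
      simp only [Nat.cast_zero, mul_zero]
      positivity
  · have h0 : (powersetCard k B).filter (fun A => a ∈ A ∧ a' ∈ A) = ∅ := by
      rw [Finset.filter_eq_empty_iff]
      rintro A hA ⟨h1, h2⟩
      have h3 := (mem_powersetCard.mp hA).2
      have h4 : ({a, a'} : Finset ι) ⊆ A := by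
        intro x hx
        simp only [mem_insert, mem_singleton] at hx
        rcases hx with rfl | rfl
        · exact h1
        · exact h2
      have h5 := Finset.card_le_card h4
      rw [hpair, h3] at h5
      exact hk h5
    rw [h0]
    simp only [card_empty, Nat.cast_zero, mul_zero]
    positivity

theorem UPA_cnt {ι : Type} [DecidableEq ι] (B : Finset ι) (a a' : ι) (ha : a ∈ B) (ha' : a' ∈ B)
    (hne : a ≠ a') (k : ℕ) (X : ℝ) (hX : 0 < X) :
    ∑ A ∈ powersetCard k B, X ^ ((A.erase a).erase a').card ≤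
      (1 + k / (B.card * X)) ^ 2 * ((B.card.choose k : ℝ) * X ^ k) := by
  have hpt : ∀ A ∈ powersetCard k B, X ^ ((A.erase a).erase a').card ≤
      X ^ k * (1 + (1 / X) * (if a ∈ A then 1 else 0) + (1 / X) * (if a' ∈ A then 1 else 0) +
        (1 / X) ^ 2 * (if a ∈ A ∧ a' ∈ A then 1 else 0)) := by
    intro A hA
    have hAk := (mem_powersetCard.mp hA).2
    by_cases h1 : a ∈ A
    · by_cases h2 : a' ∈ A
      · have h3 : a' ∈ A.erase a := Finset.mem_erase.mpr ⟨fun h => hne h.symm, h2⟩
        have h4 : ((A.erase a).erase a').card + 2 = k := by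
          have e1 := Finset.card_erase_add_one h3
          have e2 := Finset.card_erase_add_one h1
          omega
        rw [← h4]
        simp only [h1, h2, if_true, and_self]
        have h5 : X ^ (((A.erase a).erase a').card + 2) * (1 + 1 / X * 1 + 1 / X * 1 +
            (1 / X) ^ 2 * 1) = X ^ ((A.erase a).erase a').card * (X ^ 2 + 2 * X + 1) := by
          rw [pow_add]
          field_simp
          ring
        rw [h5]
        have h6 : 0 < X ^ ((A.erase a).erase a').card := by positivity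
        nlinarith
      · have h3 : ((A.erase a).erase a') = A.erase a :=
          Finset.erase_eq_of_notMem (fun h => h2 (Finset.mem_of_mem_erase h))
        rw [h3]
        have h4 : (A.erase a).card + 1 = k := by
          have e2 := Finset.card_erase_add_one h1
          omega
        rw [← h4]
        simp only [h1, h2, if_true, if_false, and_false, mul_zero, add_zero]
        have h5 : X ^ ((A.erase a).card + 1) * (1 + 1 / X * 1) =
            X ^ (A.erase a).card * (X + 1) := by
          rw [pow_succ]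
          field_simp
        rw [h5]
        have h6 : 0 < X ^ (A.erase a).card := by positivity
        nlinarith
    · by_cases h2 : a' ∈ A
      · have h3 : A.erase a = A := Finset.erase_eq_of_notMem h1
        rw [h3]
        have h4 : (A.erase a').card + 1 = k := by
          have e2 := Finset.card_erase_add_one h2
          omega
        rw [← h4]
        simp only [h1, h2, if_true, if_false, false_and, mul_zero, add_zero]
        have h5 : X ^ ((A.erase a').card + 1) * (1 + 1 / X * 1) =
            X ^ (A.erase a').card * (X + 1) := by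
          rw [pow_succ]
          field_simp
        rw [h5]
        have h6 : 0 < X ^ (A.erase a').card := by positivity
        nlinarith
      · have h3 : (A.erase a).erase a' = A := by
          rw [Finset.erase_eq_of_notMem h1, Finset.erase_eq_of_notMem h2]
        rw [h3, hAk]
        simp [h1, h2]
  refine (Finset.sum_le_sum hpt).trans ?_
  rw [← Finset.mul_sum]
  simp only [Finset.sum_add_distrib, ← Finset.mul_sum]
  have hs : ∀ P : Finset ι → Prop, ∀ [DecidablePred P],
      ∑ A ∈ powersetCard k B, (if P A then (1 : ℝ) else 0) =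
        (((powersetCard k B).filter P).card : ℝ) := by
    intro P _
    rw [Finset.card_filter]
    push_cast
    rfl
  rw [hs (fun A => a ∈ A), hs (fun A => a' ∈ A), hs (fun A => a ∈ A ∧ a' ∈ A)]
  rw [Finset.sum_const, card_powersetCard, nsmul_eq_mul, mul_one]
  have hn : (0 : ℝ) < B.card := by exact_mod_cast Finset.card_pos.mpr ⟨a, ha⟩
  have c1 := UPA_cnt1 B a ha k
  have c2 := UPA_cnt1 B a' ha' k
  have c3 := UPA_cnt2 B a a' ha ha' hne k
  set N : ℝ := (B.card : ℝ) with hN
  set C : ℝ := (B.card.choose k : ℝ) with hC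
  set n1 : ℝ := (((powersetCard k B).filter (fun A => a ∈ A)).card : ℝ)
  set n2 : ℝ := (((powersetCard k B).filter (fun A => a' ∈ A)).card : ℝ)
  set n3 : ℝ := (((powersetCard k B).filter (fun A => a ∈ A ∧ a' ∈ A)).card : ℝ)
  have d1 : n1 = k * C / N := by rw [eq_div_iff hn.ne']; linarith
  have d2 : n2 = k * C / N := by rw [eq_div_iff hn.ne']; linarith
  have d3 : n3 ≤ (k : ℝ) ^ 2 * C / N ^ 2 := by rw [le_div_iff₀ (by positivity)]; linarith
  have hXk : 0 < X ^ k := by positivity
  have e : (1 + (k : ℝ) / (N * X)) ^ 2 * (C * X ^ k) =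
      X ^ k * (C + 1 / X * (k * C / N) + 1 / X * (k * C / N) +
        (1 / X) ^ 2 * ((k : ℝ) ^ 2 * C / N ^ 2)) := by
    field_simp
    ring
  rw [e, d1, d2]
  apply mul_le_mul_of_nonneg_left _ hXk.le
  have h7 : (1 / X) ^ 2 * n3 ≤ (1 / X) ^ 2 * ((k : ℝ) ^ 2 * C / N ^ 2) :=
    mul_le_mul_of_nonneg_left d3 (by positivity)
  linarith

/-! ## One site -/

theorem UPA_step (hIND : Stmt_IND) (hFMU : Stmt_FMU) (hUPS : Stmt_UPS) {π ι : Type} [Fintype π]
    [DecidableEq π] [Fintype ι] [DecidableEq ι] (q : π → ℝ) (J : ℕ) (f : Fin J → Finset π → ℝ)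
    (r : Finset π → ℝ) (S KK A : Finset ι) (G M : ℝ) (a : ι) (Ψ : (ι → Finset π) → ℝ)
    (c : (ι → Option (Fin J)) → ℝ) (hq0 : ∀ x, 0 ≤ q x) (hq1 : ∀ x, q x ≤ 1) (hJ : 0 < J)
    (hr : ∀ T, 0 ≤ r T) (hΨ : ∀ t, 0 ≤ Ψ t) (hΨa : ∀ t T, Ψ (Function.update t a T) = Ψ t)
    (hG1 : ∀ s, E1 q (fun T => f s T ^ 2 * r T) ≤ G) (hG2 : E1 q r ≤ G) (haK : a ∉ KK)
    (hcs : ∀ κ, c κ ≠ 0 → mat KK A κ) (hc1 : ∀ κ, |c κ| ≤ 1)
    (hM : ∀ c' : (ι → Option (Fin J)) → ℝ, (∀ κ, c' κ ≠ 0 → mat KK (A.erase a) κ) →
      (∀ κ, |c' κ| ≤ 1) → EM q (fun t => PF c' (tab f S t) ^ 2 * Ψ t) ≤ M) :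
    EM q (fun t => PF c (tab f S t) ^ 2 * (r (t a) * Ψ t)) ≤ G * M := by
  have hr0 : 0 ≤ E1 q r := by
    unfold E1
    exact Finset.sum_nonneg fun T _ => mul_nonneg (UPA_w1_nonneg q hq0 hq1 T) (hr T)
  have hG0 : 0 ≤ G := hr0.trans hG2
  have hEM0 : ∀ c' : (ι → Option (Fin J)) → ℝ,
      0 ≤ EM q (fun t => PF c' (tab f S t) ^ 2 * Ψ t) := fun c' =>
    UPA_EM_nonneg q hq0 hq1 _ fun t => mul_nonneg (sq_nonneg _) (hΨ t)
  by_cases haA : a ∈ A
  · have hc : ∀ κ, κ a = none → c κ = 0 := by
      intro κ hκ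
      by_contra h
      exact ((hcs κ h a haK).mpr haA) hκ
    refine (hUPS π ι q J f r S c a Ψ hq0 hq1 hJ hr hΨ hΨa hc).trans ?_
    have hJr : (0 : ℝ) < J := by exact_mod_cast hJ
    have hterm : ∀ s : Fin J, E1 q (fun T => f s T ^ 2 * r T) *
        EM q (fun t => PF (fun κ => if κ a = none then c (Function.update κ a (some s)) else 0)
          (tab f S t) ^ 2 * Ψ t) ≤ G * M := by
      intro s
      apply mul_le_mul (hG1 s) _ (hEM0 _) hG0
      apply hM
      · intro κ hκ
        have h1 : κ a = none := by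
          by_contra h
          simp only [if_neg h] at hκ
          exact hκ rfl
        simp only [if_pos h1] at hκ
        have h2 := hcs _ hκ
        intro h hh
        have h3 := h2 h hh
        by_cases hha : h = a
        · subst hha
          simp [h1]
        · rw [Function.update_of_ne hha] at h3
          rw [h3, Finset.mem_erase]
          exact ⟨fun h4 => ⟨hha, h4⟩, fun h4 => h4.2⟩
      · intro κ
        split_ifs
        · exact hc1 _
        · simp
    calc (1 / J : ℝ) * ∑ s : Fin J, E1 q (fun T => f s T ^ 2 * r T) *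
        EM q (fun t => PF (fun κ => if κ a = none then c (Function.update κ a (some s)) else 0)
          (tab f S t) ^ 2 * Ψ t)
        ≤ (1 / J : ℝ) * ∑ _s : Fin J, G * M :=
          mul_le_mul_of_nonneg_left (Finset.sum_le_sum fun s _ => hterm s) (by positivity)
      _ = G * M := by
          rw [Finset.sum_const, card_univ, Fintype.card_fin, nsmul_eq_mul]
          field_simp
  · have hc : ∀ κ, κ a ≠ none → c κ = 0 := by
      intro κ hκ
      by_contra h
      exact haA ((hcs κ h a haK).mp hκ)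
    have h1 := hIND π ι q (fun t => PF c (tab f S t) ^ 2 * Ψ t) r a (by
      intro t T
      rw [hΨa, hFMU π ι J f S c a t T hc])
    have h2 : EM q (fun t => PF c (tab f S t) ^ 2 * (r (t a) * Ψ t)) =
        EM q (fun t => PF c (tab f S t) ^ 2 * Ψ t) * E1 q r := by
      rw [← h1]
      congr 1
      funext t
      ring
    rw [h2, mul_comm G M]
    apply mul_le_mul _ hG2 hr0
    · refine (hEM0 c).trans ?_
      apply hM _ _ hc1
      rw [Finset.erase_eq_of_notMem haA]
      exact hcs
    · apply hM _ _ hc1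
      rw [Finset.erase_eq_of_notMem haA]
      exact hcs

theorem p_UPA (hSQM : Stmt_SQM) (hIND : Stmt_IND) (hFMU : Stmt_FMU) (hQMA : Stmt_QMA)
    (hUPS : Stmt_UPS) : Stmt_UPA := by
  classical
  intro π ι _ _ _ _ q J f r S KK k Θ G a a' hq0 hq1 hO hJ hsX hr hG1 hG2 hne ha ha'
  have hxs : ∀ s, 0 ≤ xs q f s := UPA_xs_nonneg q hq0 hq1 f
  have haS := Finset.mem_sdiff.mp ha
  have haS' := Finset.mem_sdiff.mp ha'
  set X := sX (xs q f) with hX
  set E := (KK ∩ S).card with hE
  have hterm : ∀ A ∈ AA KK k,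
      EM q (fun t : ι → Finset π => PF (cQ KK A Θ) (tab f S t) ^ 2 * (r (t a) * r (t a'))) ≤
        G * (G * (if A ⊆ S then X ^ ((A.erase a).erase a').card * (1 + X) ^ E else 0)) := by
    intro A hA
    have hA' := Finset.mem_powersetCard.mp hA
    have hdis : Disjoint ((A.erase a).erase a') KK := by
      rw [Finset.disjoint_left]
      intro b hb hk
      exact (Finset.mem_sdiff.mp (hA'.1 (Finset.mem_of_mem_erase (Finset.mem_of_mem_erase hb)))).2 hk
    apply UPA_step hIND hFMU hUPS q J f r S KK A G _ a (fun t => r (t a')) (cQ KK A Θ) hq0 hq1 hJ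
      hr (fun t => hr _) _ hG1 hG2 haS.2
    · intro κ hκ
      unfold cQ at hκ
      by_contra h
      rw [if_neg (fun h' => h h'.1)] at hκ
      exact hκ rfl
    · intro κ
      unfold cQ
      split_ifs <;> simp
    · intro c' hc' hc1'
      have hstep := UPA_step hIND hFMU hUPS q J f r S KK (A.erase a) G
        (if A ⊆ S then X ^ ((A.erase a).erase a').card * (1 + X) ^ E else 0) a'
        (fun _ => 1) c' hq0 hq1 hJ hr (fun _ => zero_le_one) (fun _ _ => rfl) hG1 hG2 haS'.2
        hc' hc1' (by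
          intro c'' hc'' hc1''
          have e1 : EM q (fun t : ι → Finset π => PF c'' (tab f S t) ^ 2 * 1) =
              ∑ κ, c'' κ ^ 2 * ym (xs q f) S κ := by
            rw [← hSQM π ι q J f S c'' hO]
            congr 1
            funext t
            ring
          rw [e1]
          have h3 := (hQMA ι J (xs q f) S KK ((A.erase a).erase a') hxs hdis).1
          have h4 : ((A.erase a).erase a' ⊆ S) ↔ A ⊆ S := by
            constructor
            · intro h x hx
              by_cases hxa : x = a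
              · rw [hxa]; exact haS.1
              · by_cases hxa' : x = a'
                · rw [hxa']; exact haS'.1
                · exact h (Finset.mem_erase.mpr ⟨hxa', Finset.mem_erase.mpr ⟨hxa, hx⟩⟩)
            · intro h x hx
              exact h (Finset.mem_of_mem_erase (Finset.mem_of_mem_erase hx))
          have h5 : (if A ⊆ S then X ^ ((A.erase a).erase a').card * (1 + X) ^ E else 0) =
              ∑ κ : ι → Option (Fin J),
                if mat KK ((A.erase a).erase a') κ then ym (xs q f) S κ else 0 := by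
            rw [h3]
            by_cases hAS : A ⊆ S
            · rw [if_pos hAS, if_pos (h4.mpr hAS)]
              rfl
            · rw [if_neg hAS, if_neg (fun h => hAS (h4.mp h))]
          rw [h5]
          apply Finset.sum_le_sum
          intro κ _
          have h6 := UPA_ym_nonneg (xs q f) hxs S κ
          by_cases hm : mat KK ((A.erase a).erase a') κ
          · rw [if_pos hm]
            have h7 : c'' κ ^ 2 ≤ 1 := by
              have h8 := abs_le.mp (hc1'' κ)
              nlinarith [h8.1, h8.2]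
            nlinarith
          · rw [if_neg hm]
            have h7 : c'' κ = 0 := by
              by_contra h
              exact hm (hc'' κ h)
            rw [h7]
            simp)
      refine le_trans (le_of_eq ?_) hstep
      congr 1
      funext t
      ring
    · intro t T
      rw [Function.update_of_ne (fun h => hne h.symm)]
  have hlin : EM q (fun t : ι → Finset π => OmQ f S KK k Θ t * (r (t a) * r (t a'))) =
      ∑ A ∈ AA KK k, EM q (fun t : ι → Finset π =>
        PF (cQ KK A Θ) (tab f S t) ^ 2 * (r (t a) * r (t a'))) := by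
    unfold EM OmQ
    simp only [Finset.sum_mul, Finset.mul_sum]
    rw [Finset.sum_comm]
  rw [hlin]
  refine (Finset.sum_le_sum hterm).trans ?_
  rw [← Finset.mul_sum, ← Finset.mul_sum]
  have hG0 : 0 ≤ G := by
    refine le_trans ?_ hG2
    unfold E1
    exact Finset.sum_nonneg fun T _ => mul_nonneg (UPA_w1_nonneg q hq0 hq1 T) (hr T)
  have hset : (AA KK k).filter (fun A => A ⊆ S) = powersetCard k (S \ KK) := by
    ext A
    simp only [AA, mem_filter, mem_powersetCard]
    constructor
    · rintro ⟨⟨h1, h2⟩, h3⟩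
      refine ⟨fun x hx => Finset.mem_sdiff.mpr ⟨h3 hx, (Finset.mem_sdiff.mp (h1 hx)).2⟩, h2⟩
    · rintro ⟨h1, h2⟩
      exact ⟨⟨fun x hx => Finset.mem_sdiff.mpr ⟨mem_univ _, (Finset.mem_sdiff.mp (h1 hx)).2⟩, h2⟩,
        fun x hx => (Finset.mem_sdiff.mp (h1 hx)).1⟩
  rw [← Finset.sum_filter, hset, ← Finset.sum_mul]
  have hcnt := UPA_cnt (S \ KK) a a' ha ha' hne k X hsX
  have hE0 : 0 ≤ (1 + X) ^ E := by positivity
  have h9 : G * (G * ((∑ A ∈ powersetCard k (S \ KK), X ^ ((A.erase a).erase a').card) *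
      (1 + X) ^ E)) ≤ G * (G * (((1 + k / ((S \ KK).card * X)) ^ 2 *
        (((S \ KK).card.choose k : ℝ) * X ^ k)) * (1 + X) ^ E)) := by
    apply mul_le_mul_of_nonneg_left _ hG0
    apply mul_le_mul_of_nonneg_left _ hG0
    exact mul_le_mul_of_nonneg_right hcnt hE0
  refine h9.trans (le_of_eq ?_)
  unfold ZU mU
  rw [← hX, ← hE]
  ring

end Pool.PP
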