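import Pool.Agent.Work.MP_b0c12c_px.UDefs

/-! # Block UPS: one site with a majorant (helper30) -/

set_option autoImplicit false

namespace Pool.PP

open Finset

theorem UPS_split {ι γ : Type} [Fintype ι] [DecidableEq ι] [Fintype γ] [DecidableEq γ] (m : ι)
    (a₀ : γ) (F : (ι → γ) → ℝ) :
    ∑ t : ι → γ, F t =
      ∑ t ∈ univ.filter (fun t : ι → γ => t m = a₀), ∑ a : γ, F (Function.update t m a) := by
  rw [← Finset.sum_product']
  refine Finset.sum_bij' (fun t _ => (Function.update t m a₀, t m))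
    (fun z _ => Function.update z.1 m z.2) ?_ ?_ ?_ ?_ ?_
  · intro t _
    simp
  · intro z _
    simp
  · intro t _
    simp
  · intro z hz
    simp only [mem_product, mem_filter, mem_univ, true_and, and_true] at hz
    obtain ⟨z1, z2⟩ := z
    simp only [Function.update_idem, Function.update_self, Prod.mk.injEq, and_true]
    simp only at hz
    rw [← hz]
    exact Function.update_eq_self _ _
  · intro t _
    simp

theorem UPS_w1_nonneg {π : Type} [Fintype π] [DecidableEq π] (q : π → ℝ) (h0 : ∀ x, 0 ≤ q x)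
    (h1 : ∀ x, q x ≤ 1) (T : Finset π) : 0 ≤ w1 q T := by
  unfold w1
  apply mul_nonneg
  · exact Finset.prod_nonneg fun x _ => h0 x
  · exact Finset.prod_nonneg fun x _ => sub_nonneg.mpr (h1 x)

theorem UPS_EM_mono {π ι : Type} [Fintype π] [DecidableEq π] [Fintype ι] [DecidableEq ι]
    (q : π → ℝ) (h0 : ∀ x, 0 ≤ q x) (h1 : ∀ x, q x ≤ 1) (Φ Φ' : (ι → Finset π) → ℝ)
    (h : ∀ t, Φ t ≤ Φ' t) : EM q Φ ≤ EM q Φ' := by
  unfold EM
  apply Finset.sum_le_sum
  intro t _
  exact mul_le_mul_of_nonneg_left (h t)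
    (Finset.prod_nonneg fun x _ => UPS_w1_nonneg q h0 h1 _)

/-- The function with coefficients on `κ a ≠ none` as a combination. -/
theorem UPS_decomp {ι : Type} [Fintype ι] [DecidableEq ι] {J : ℕ}
    (c : (ι → Option (Fin J)) → ℝ) (a : ι) (G : ι → Fin J → ℝ) (hc : ∀ κ, κ a = none → c κ = 0) :
    PF c G = ∑ s : Fin J, -(G a s) / J *
      PF (fun κ => if κ a = none then c (Function.update κ a (some s)) else 0) G := by
  have hP : ∀ (κ : ι → Option (Fin J)) (o : Option (Fin J)),
      ∏ h, fac (G h) (Function.update κ a o h) =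
        fac (G a) o * ∏ h ∈ univ.erase a, fac (G h) (κ h) := by
    intro κ o
    rw [← Finset.mul_prod_erase univ _ (mem_univ a), Function.update_self]
    congr 1
    refine Finset.prod_congr rfl fun h hh => ?_
    rw [Function.update_of_ne (Finset.ne_of_mem_erase hh)]
  have h4 : fac (G a) none = 1 := rfl
  unfold PF
  simp only [Finset.mul_sum]
  rw [Finset.sum_comm, UPS_split a none, UPS_split a none]
  refine Finset.sum_congr rfl fun κ hκ => ?_
  simp only [mem_filter, mem_univ, true_and] at hκ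
  rw [Fintype.sum_option, Fintype.sum_option]
  have h1 : Function.update κ a none = κ := by
    rw [← hκ]
    exact Function.update_eq_self _ _
  have h5 : ∏ h, fac (G h) (κ h) = ∏ h ∈ univ.erase a, fac (G h) (κ h) := by
    rw [← Finset.mul_prod_erase univ _ (mem_univ a), hκ, h4, one_mul]
  simp only [hP, Function.update_self, Function.update_idem, if_true, reduceCtorEq, if_false,
    zero_mul, mul_zero, Finset.sum_const_zero, add_zero, h1]
  rw [hc κ hκ, zero_mul, zero_add]
  refine Finset.sum_congr rfl fun s _ => ?_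
  rw [h5]
  have h6 : fac (G a) (some s) = -(G a s) / J := rfl
  rw [h6]
  ring

theorem p_UPS (hIND : Stmt_IND) (hFMU : Stmt_FMU) : Stmt_UPS := by
  intro π ι _ _ _ _ q J f r S c a Ψ hq0 hq1 hJ hr hΨ hΨa hc
  have hJr : (0 : ℝ) < J := by exact_mod_cast hJ
  set cs : Fin J → (ι → Option (Fin J)) → ℝ := fun s κ =>
    if κ a = none then c (Function.update κ a (some s)) else 0 with hcs
  have hpt : ∀ t : ι → Finset π, PF c (tab f S t) ^ 2 * (r (t a) * Ψ t) ≤
      ∑ s : Fin J, (1 / J : ℝ) * ((PF (cs s) (tab f S t) ^ 2 * Ψ t) *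
        (fun T => f s T ^ 2 * r T) (t a)) := by
    intro t
    have hd := UPS_decomp c a (tab f S t) hc
    have hsq : PF c (tab f S t) ^ 2 ≤
        (1 / J : ℝ) * ∑ s : Fin J, f s (t a) ^ 2 * PF (cs s) (tab f S t) ^ 2 := by
      rw [hd]
      have h2 : (∑ s : Fin J, -(tab f S t a s) / J * PF (cs s) (tab f S t)) ^ 2 ≤
          (J : ℝ) * ∑ s : Fin J, (-(tab f S t a s) / J * PF (cs s) (tab f S t)) ^ 2 := by
        have h3 := sq_sum_le_card_mul_sum_sq (s := (univ : Finset (Fin J)))
          (f := fun s => -(tab f S t a s) / J * PF (cs s) (tab f S t))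
        simpa using h3
      refine h2.trans ?_
      rw [Finset.mul_sum, Finset.mul_sum]
      apply Finset.sum_le_sum
      intro s _
      have h4 : tab f S t a s ^ 2 ≤ f s (t a) ^ 2 := by
        unfold tab
        split_ifs
        · exact le_refl _
        · simpa using sq_nonneg (f s (t a))
      have h5 : (J : ℝ) * (-(tab f S t a s) / J * PF (cs s) (tab f S t)) ^ 2 =
          (1 / J : ℝ) * (tab f S t a s ^ 2 * PF (cs s) (tab f S t) ^ 2) := by
        field_simp
      rw [h5]
      apply mul_le_mul_of_nonneg_left _ (by positivity)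
      exact mul_le_mul_of_nonneg_right h4 (sq_nonneg _)
    have h6 : 0 ≤ r (t a) * Ψ t := mul_nonneg (hr _) (hΨ _)
    refine (mul_le_mul_of_nonneg_right hsq h6).trans (le_of_eq ?_)
    rw [Finset.mul_sum, Finset.sum_mul]
    refine Finset.sum_congr rfl fun s _ => ?_
    ring
  refine (UPS_EM_mono q hq0 hq1 _ _ hpt).trans (le_of_eq ?_)
  have hlin : EM q (fun t : ι → Finset π => ∑ s : Fin J, (1 / J : ℝ) *
      ((PF (cs s) (tab f S t) ^ 2 * Ψ t) * (fun T => f s T ^ 2 * r T) (t a))) =
      ∑ s : Fin J, (1 / J : ℝ) * EM q (fun t : ι → Finset π =>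
        (PF (cs s) (tab f S t) ^ 2 * Ψ t) * (fun T => f s T ^ 2 * r T) (t a)) := by
    unfold EM
    simp only [Finset.mul_sum]
    rw [Finset.sum_comm]
    refine Finset.sum_congr rfl fun s _ => Finset.sum_congr rfl fun t _ => ?_
    ring
  rw [hlin, ← Finset.mul_sum]
  congr 1
  refine Finset.sum_congr rfl fun s _ => ?_
  rw [hIND π ι q (fun t => PF (cs s) (tab f S t) ^ 2 * Ψ t) (fun T => f s T ^ 2 * r T) a]
  · ring
  · intro t T
    rw [hΨa, hFMU π ι J f S (cs s) a t T]
    intro κ hκ
    simp only [hcs]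
    rw [if_neg hκ]

end Pool.PP
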