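import Pool.Agent.Work.MP_b0c12c_px.UDefs

set_option autoImplicit false

namespace Pool.PP

open Finset Filter

/-- The choice of the small radius. -/
theorem UWP_rad (K : ℕ) (Lam del : ℝ) (b : Fin K → ℝ) (hb : StrictMono b) (hL : ∀ i, |b i| < Lam)
    (hd : 0 < del) : ∃ d : ℝ, 0 < d ∧ 4 * d ≤ del ∧ (∀ i, |b i| + 3 * d ≤ Lam) ∧
      ∀ i j, i < j → 2 * d ≤ b j - b i := by
  have key : ∀ c : ℝ, 0 < c → ∀ᶠ d : ℝ in nhdsWithin 0 (Set.Ioi 0), d ≤ c := by
    intro c hc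
    filter_upwards [Ioc_mem_nhdsGT hc] with d hd using hd.2
  have h1 : ∀ᶠ d : ℝ in nhdsWithin 0 (Set.Ioi 0), ∀ i, d ≤ (Lam - |b i|) / 3 :=
    eventually_all.2 fun i => key _ (by linarith [hL i])
  have h2 : ∀ᶠ d : ℝ in nhdsWithin 0 (Set.Ioi 0), ∀ i j, i < j → d ≤ (b j - b i) / 2 := by
    refine eventually_all.2 fun i => eventually_all.2 fun j => ?_
    by_cases hij : i < j
    · filter_upwards [key ((b j - b i) / 2) (by linarith [hb hij])] with d hd _ using hd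
    · exact Eventually.of_forall fun d h => absurd h hij
  have h3 : ∀ᶠ d : ℝ in nhdsWithin 0 (Set.Ioi 0), 0 < d := eventually_mem_nhdsWithin
  obtain ⟨d, hd1, hd2, hd3, hd4⟩ := (h1.and (h2.and (h3.and (key (del / 4) (by linarith))))).exists
  exact ⟨d, hd3, by linarith, fun i => by linarith [hd1 i], fun i j hij => by linarith [hd2 i j hij]⟩

/-- The pointwise statement. -/
theorem UWP_pt (J₁ k : ℕ) (hJ : 0 < J₁) (Lam del d L LX : ℝ) (b : Fin J₁ → ℝ) (a : ℕ → ℝ) (n F : ℕ)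
    (hd : 0 < d) (hdel : 4 * d ≤ del) (hL : ∀ i, |b i| + 3 * d ≤ Lam) (hLam : 0 ≤ Lam)
    (hgap : ∀ i j, i < j → 2 * d ≤ b j - b i) (ha : ∀ i : Fin J₁, a i = Lam + b i)
    (hL0 : 0 < L) (hLX : L ≤ LX) (hLX2 : LX ≤ L + 2) (hbig : 2 * Lam + 3 ≤ d * L)
    (hF : F = ⌊(Lam + d) * L⌋₊)
    (hG : Gd J₁ (fun i => ⌊a i * L⌋₊) ⌊(2 * d) * L⌋₊ ⌊(2 * Lam + 4 * d) * L⌋₊ k n) :
    ∃ (I : Finset (Fin J₁)) (p : Fin J₁ → ℕ), k + 1 ≤ I.card ∧ StrictMonoOn p I ∧
      (∀ i ∈ I, |(p i : ℝ) - (((n + F : ℕ) : ℝ) + b i * LX)| ≤ del * LX) ∧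
      ∀ q : ℕ, (q.Prime ∧ |(q : ℝ) - ((n + F : ℕ) : ℝ)| ≤ Lam * LX) ↔ ∃ i ∈ I, q = p i := by
  classical
  obtain ⟨h1, h2, h3⟩ := hG
  set x : ℕ → ℕ := fun i => ⌊a i * L⌋₊ with hx
  set len : ℕ := ⌊(2 * d) * L⌋₊ with hlen
  set H : ℕ := ⌊(2 * Lam + 4 * d) * L⌋₊ with hH
  have ha0 : ∀ i : Fin J₁, 0 ≤ a i := by
    intro i
    rw [ha i]
    have := hL i
    have := neg_abs_le (b i)
    linarith
  -- sizes
  have hFl : ((Lam + d) * L : ℝ) - 1 < F := by
    have := Nat.lt_floor_add_one ((Lam + d) * L)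
    rw [← hF] at this
    linarith
  have hFu : (F : ℝ) ≤ (Lam + d) * L := by
    rw [hF]
    exact Nat.floor_le (by positivity)
  have hlenu : (len : ℝ) ≤ 2 * d * L := Nat.floor_le (by positivity)
  have hxu : ∀ i : Fin J₁, (x i : ℝ) ≤ a i * L := fun i =>
    Nat.floor_le (mul_nonneg (ha0 i) hL0.le)
  have hxl : ∀ i : Fin J₁, a i * L < (x i : ℝ) + 1 := fun i => Nat.lt_floor_add_one _
  -- bounds for the sites of a cluster
  have hcl : ∀ (i : Fin J₁) (h : ℕ), h ∈ Ioc (x i) (x i + len) →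
      |(h : ℝ) - F - b i * L| ≤ d * L + 1 := by
    intro i h hh
    rw [Finset.mem_Ioc] at hh
    have h5 : (x i : ℝ) + 1 ≤ h := by exact_mod_cast hh.1
    have h6 : (h : ℝ) ≤ x i + len := by exact_mod_cast hh.2
    have h7 := hxu i
    have h8 := hxl i
    rw [ha i] at h7 h8
    rw [abs_le]
    constructor
    · nlinarith
    · nlinarith
  have hbL : ∀ i, |b i| * L + 3 * d * L ≤ Lam * L := by
    intro i
    have := mul_le_mul_of_nonneg_right (hL i) hL0.le
    nlinarith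
  -- the clusters with a prime
  set P : Fin J₁ → Finset ℕ := fun i => (Ioc (x i) (x i + len)).filter (fun h => (n + h).Prime)
    with hP
  set I : Finset (Fin J₁) := univ.filter fun i => (P i).Nonempty with hI
  have hPI : ∀ i ∈ I, ∃ h, h ∈ P i := fun i hi => (Finset.mem_filter.1 hi).2
  choose! f hf using hPI
  set p : Fin J₁ → ℕ := fun i => n + f i with hp
  have huniq : ∀ (i : Fin J₁) (h h' : ℕ), h ∈ P i → h' ∈ P i → h = h' := by
    intro i h h' hh hh'
    exact Finset.card_le_one.1 (h2 i i.2) h hh h' hh'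
  have hmono : ∀ i j : Fin J₁, i < j → x i + len ≤ x j := by
    intro i j hij
    have h5 : (a i * L + 2 * d * L : ℝ) ≤ a j * L := by
      rw [ha i, ha j]
      have := mul_le_mul_of_nonneg_right (hgap i j hij) hL0.le
      nlinarith
    have h6 : ((x i + len : ℕ) : ℝ) ≤ a j * L := by
      push_cast
      have := hxu i
      linarith
    exact Nat.le_floor h6
  refine ⟨I, p, ?_, ?_, ?_, ?_⟩
  · -- many clusters
    have h4 : ∀ h ∈ (Icc 1 H).filter (fun h => (n + h).Prime), ∃ i : Fin J₁, i ∈ I ∧ h ∈ P i := by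
      intro h hh
      rw [Finset.mem_filter] at hh
      obtain ⟨i, hi, hi1, hi2⟩ := h1 h hh.1 hh.2
      have h5 : h ∈ P ⟨i, hi⟩ := Finset.mem_filter.2 ⟨Finset.mem_Ioc.2 ⟨hi1, hi2⟩, hh.2⟩
      exact ⟨⟨i, hi⟩, Finset.mem_filter.2 ⟨Finset.mem_univ _, ⟨h, h5⟩⟩, h5⟩
    have : Nonempty (Fin J₁) := ⟨⟨0, hJ⟩⟩
    choose! g hg using h4
    refine h3.trans ?_
    apply Finset.card_le_card_of_injOn g
    · intro h hh
      exact (hg h hh).1
    · intro h hh h' hh' he
      have h5 := (hg h hh).2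
      have h6 := (hg h' hh').2
      rw [← he] at h6
      exact huniq _ _ _ h5 h6
  · intro i hi j hj hij
    have h5 := (Finset.mem_Ioc.1 (Finset.mem_filter.1 (hf i hi)).1).2
    have h6 := (Finset.mem_Ioc.1 (Finset.mem_filter.1 (hf j hj)).1).1
    have h7 := hmono i j hij
    show n + f i < n + f j
    omega
  · intro i hi
    have h5 := hcl i (f i) (Finset.mem_filter.1 (hf i hi)).1
    have h6 : |b i * L - b i * LX| ≤ 2 * Lam := by
      rw [← mul_sub, abs_mul]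
      have h7 : |L - LX| ≤ 2 := by
        rw [abs_le]
        constructor <;> linarith
      have h8 : |b i| ≤ Lam := by linarith [hL i]
      calc |b i| * |L - LX| ≤ Lam * 2 := mul_le_mul h8 h7 (abs_nonneg _) hLam
        _ = 2 * Lam := by ring
    have h7 : (p i : ℝ) - (((n + F : ℕ) : ℝ) + b i * LX) =
        ((f i : ℝ) - F - b i * L) + (b i * L - b i * LX) := by
      simp only [hp]
      push_cast
      ring
    rw [h7]
    have h8 : del * LX ≥ 4 * d * L := by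
      have h9 : 4 * d * L ≤ del * L := by nlinarith
      have h10 : del * L ≤ del * LX := by
        apply mul_le_mul_of_nonneg_left hLX
        linarith
      linarith
    calc |((f i : ℝ) - F - b i * L) + (b i * L - b i * LX)|
        ≤ |(f i : ℝ) - F - b i * L| + |b i * L - b i * LX| := abs_add_le _ _
      _ ≤ (d * L + 1) + 2 * Lam := add_le_add h5 h6
      _ ≤ del * LX := by nlinarith
  · intro q
    constructor
    · rintro ⟨hq, hq2⟩
      rw [abs_le] at hq2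
      push_cast at hq2
      have h5 : Lam * LX ≤ Lam * L + 2 * Lam := by nlinarith
      have h6 : (n : ℝ) + 1 ≤ q := by nlinarith [hq2.1]
      have h7 : n + 1 ≤ q := by exact_mod_cast h6
      obtain ⟨h, rfl⟩ : ∃ h, q = n + h := ⟨q - n, by omega⟩
      have h8 : 1 ≤ h := by omega
      have h9 : h ≤ H := by
        apply Nat.le_floor
        have := hq2.2
        push_cast at this
        nlinarith
      obtain ⟨i, hi, hi1, hi2⟩ := h1 h (Finset.mem_Icc.2 ⟨h8, h9⟩) hq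
      have h10 : h ∈ P ⟨i, hi⟩ := Finset.mem_filter.2 ⟨Finset.mem_Ioc.2 ⟨hi1, hi2⟩, hq⟩
      have h11 : (⟨i, hi⟩ : Fin J₁) ∈ I := Finset.mem_filter.2 ⟨Finset.mem_univ _, ⟨h, h10⟩⟩
      refine ⟨⟨i, hi⟩, h11, ?_⟩
      show n + h = n + f ⟨i, hi⟩
      rw [huniq _ _ _ h10 (hf _ h11)]
    · rintro ⟨i, hi, rfl⟩
      refine ⟨(Finset.mem_filter.1 (hf i hi)).2, ?_⟩
      have h5 := hcl i (f i) (Finset.mem_filter.1 (hf i hi)).1
      have h6 : ((p i : ℕ) : ℝ) - ((n + F : ℕ) : ℝ) = ((f i : ℝ) - F - b i * L) + b i * L := by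
        simp only [hp]
        push_cast
        ring
      rw [h6]
      have h7 : |b i * L| = |b i| * L := by
        rw [abs_mul, abs_of_pos hL0]
      calc |((f i : ℝ) - F - b i * L) + b i * L|
          ≤ |(f i : ℝ) - F - b i * L| + |b i * L| := abs_add_le _ _
        _ ≤ (d * L + 1) + |b i| * L := by
            rw [h7]
            linarith
        _ ≤ Lam * L := by nlinarith [hbL i]
        _ ≤ Lam * LX := mul_le_mul_of_nonneg_left hLX hLam

theorem p_UWP (h1 : Stmt_CCU) : Stmt_UWP := by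
  classical
  intro m
  obtain ⟨J₁, hJ, h2⟩ := h1 m
  refine ⟨J₁, ?_⟩
  intro Lam del b hb hL hdel
  obtain ⟨d, hd, hd4, hd3, hgap⟩ := UWP_rad J₁ Lam del b hb hL hdel
  have hLam : 0 ≤ Lam := by
    have := hd3 ⟨0, hJ⟩
    have := abs_nonneg (b ⟨0, hJ⟩)
    linarith
  set a : ℕ → ℝ := fun i => if h : i < J₁ then Lam + b ⟨i, h⟩ else 0 with ha
  have ha' : ∀ i : Fin J₁, a i = Lam + b i := by
    intro i
    simp [ha]
  have haI : ∀ (i : ℕ) (h : i < J₁), a i = Lam + b ⟨i, h⟩ := by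
    intro i h
    simp [ha, h]
  obtain ⟨c, hc, h3⟩ := h2 (2 * d) (2 * Lam + 4 * d) a (by linarith)
    (by
      intro i hi
      rw [haI i hi]
      have := hd3 ⟨i, hi⟩
      have := neg_abs_le (b ⟨i, hi⟩)
      linarith)
    (by
      intro i hi
      rw [haI i (by omega), haI (i + 1) hi]
      have := hgap ⟨i, by omega⟩ ⟨i + 1, hi⟩ (by simp)
      linarith)
    (by
      intro i hi
      rw [haI i hi]
      have := hd3 ⟨i, hi⟩
      have := le_abs_self (b ⟨i, hi⟩)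
      linarith)
  refine ⟨c / 4, by positivity, ?_⟩
  have h4 := (Nat.tendsto_div_const_atTop (show (3 : ℕ) ≠ 0 by norm_num)).eventually h3
  -- size conditions
  have h5 : ∀ᶠ X : ℕ in atTop, 2 * Lam + 3 ≤ d * Real.log ((X / 3 : ℕ) : ℝ) := by
    have h6 : Tendsto (fun Y : ℕ => d * Real.log (Y : ℝ)) atTop atTop :=
      (Real.tendsto_log_atTop.comp tendsto_natCast_atTop_atTop).const_mul_atTop hd
    exact (Nat.tendsto_div_const_atTop (show (3 : ℕ) ≠ 0 by norm_num)).eventually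
      (h6.eventually_ge_atTop _)
  have h6 : ∀ᶠ X : ℕ in atTop, (Lam + d) * Real.log ((X / 3 : ℕ) : ℝ) ≤ ((X / 3 : ℕ) : ℝ) := by
    have h7 : ∀ᶠ Y : ℕ in atTop, (Lam + d) * Real.log (Y : ℝ) ≤ (Y : ℝ) := by
      have h8 := (Real.isLittleO_log_id_atTop.bound (show (0 : ℝ) < 1 / (Lam + d + 1) by positivity))
      have h9 := tendsto_natCast_atTop_atTop (R := ℝ) |>.eventually h8
      filter_upwards [h9, eventually_ge_atTop 1] with Y hY hY1
      have h10 : 0 ≤ Real.log (Y : ℝ) := Real.log_nonneg (by exact_mod_cast hY1)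
      simp only [id, Real.norm_eq_abs] at hY
      rw [abs_of_nonneg h10, abs_of_nonneg (by positivity)] at hY
      have h11 : 0 < Lam + d + 1 := by positivity
      rw [div_mul_eq_mul_div, one_mul, le_div_iff₀ h11] at hY
      nlinarith
    exact (Nat.tendsto_div_const_atTop (show (3 : ℕ) ≠ 0 by norm_num)).eventually h7
  filter_upwards [h4, h5, h6, eventually_ge_atTop 12] with X hX1 hX2 hX3 hX4
  set Y : ℕ := X / 3 with hY
  have hY4 : 4 ≤ Y := by omega
  have hYX : X ≤ 4 * Y := by omega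
  have hYX2 : 3 * Y ≤ X := by omega
  set L : ℝ := Real.log (Y : ℝ) with hLdef
  set LX : ℝ := Real.log (X : ℝ) with hLXdef
  have hYpos : (0 : ℝ) < Y := by
    have : 0 < Y := by omega
    exact_mod_cast this
  have hL0 : 0 < L := Real.log_pos (by
    have : 1 < Y := by omega
    exact_mod_cast this)
  have hLLX : L ≤ LX := Real.log_le_log hYpos (by
    have : Y ≤ X := by omega
    exact_mod_cast this)
  have hLX2 : LX ≤ L + 2 := by
    have h7 : (X : ℝ) ≤ 4 * Y := by exact_mod_cast hYX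
    have h8 : LX ≤ Real.log (4 * Y) := Real.log_le_log (by
      have : 0 < X := by omega
      exact_mod_cast this) h7
    rw [Real.log_mul (by norm_num) hYpos.ne'] at h8
    have h9 : Real.log 4 ≤ 2 := by
      have : (4 : ℝ) = 2 * 2 := by norm_num
      rw [this, Real.log_mul (by norm_num) (by norm_num)]
      have := Real.log_two_lt_d9
      linarith
    linarith
  set F : ℕ := ⌊(Lam + d) * L⌋₊ with hF
  have hFY : F ≤ Y := by
    have : (F : ℝ) ≤ Y := (Nat.floor_le (by positivity)).trans hX3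
    exact_mod_cast this
  have hcard : ((Ioc Y (2 * Y)).filter (fun n : ℕ =>
      Gd J₁ (fun i => ⌊a i * L⌋₊) ⌊(2 * d) * L⌋₊ ⌊(2 * Lam + 4 * d) * L⌋₊ m n)).card ≤
      ((Icc 1 X).filter (fun n : ℕ => ∃ (I : Finset (Fin J₁)) (p : Fin J₁ → ℕ),
      m ≤ I.card ∧ StrictMonoOn p I ∧
      (∀ i ∈ I, |(p i : ℝ) - (n + b i * LX)| ≤ del * LX) ∧
      ∀ q : ℕ, (q.Prime ∧ |(q : ℝ) - n| ≤ Lam * LX) ↔ ∃ i ∈ I, q = p i)).card := by
    apply Finset.card_le_card_of_injOn (fun n => n + F)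
    · intro n hn
      have hn' := Finset.mem_filter.1 (Finset.mem_coe.1 hn)
      rw [Finset.mem_Ioc] at hn'
      obtain ⟨I, p, hI, hp1, hp2, hp3⟩ := UWP_pt J₁ m hJ Lam del d L LX b a n F hd hd4 hd3 hLam hgap ha'
        hL0 hLLX hLX2 hX2 rfl hn'.2
      refine Finset.mem_coe.2 (Finset.mem_filter.2 ⟨Finset.mem_Icc.2 ⟨?_, ?_⟩, I, p, ?_, hp1, hp2, hp3⟩)
      · have := hn'.1.1
        show 1 ≤ n + F
        omega
      · have := hn'.1.2
        show n + F ≤ X
        omega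
      · omega
    · intro n _ n' _ he
      have : n + F = n' + F := he
      omega
  have hcard' : (((Ioc Y (2 * Y)).filter (fun n : ℕ =>
      Gd J₁ (fun i => ⌊a i * L⌋₊) ⌊(2 * d) * L⌋₊ ⌊(2 * Lam + 4 * d) * L⌋₊ m n)).card : ℝ) ≤
      (((Icc 1 X).filter (fun n : ℕ => ∃ (I : Finset (Fin J₁)) (p : Fin J₁ → ℕ),
      m ≤ I.card ∧ StrictMonoOn p I ∧
      (∀ i ∈ I, |(p i : ℝ) - (n + b i * LX)| ≤ del * LX) ∧
      ∀ q : ℕ, (q.Prime ∧ |(q : ℝ) - n| ≤ Lam * LX) ↔ ∃ i ∈ I, q = p i)).card : ℝ) := by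
    exact_mod_cast hcard
  have h7 : c / 4 * (X : ℝ) ≤ c * Y := by
    have h8 : (X : ℝ) ≤ 4 * Y := by exact_mod_cast hYX
    nlinarith
  exact h7.trans (le_trans hX1 hcard')

end Pool.PP
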