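import Pool.Agent.Work.MP_b0c12c_px.PartQ
import Pool.Agent.Work.MP_b0c12c_px.B_QAV
import Pool.Agent.Work.MP_b0c12c_px.B_QEM
import Pool.Agent.Work.MP_b0c12c_px.B_QFI
import Pool.Agent.Work.MP_b0c12c_px.B_QGA
import Pool.Agent.Work.MP_b0c12c_px.B_QGD
import Pool.Agent.Work.MP_b0c12c_px.B_QPA
import Pool.Agent.Work.MP_b0c12c_px.B_QSP
import Pool.Agent.Work.MP_b0c12c_px.B_QUL

/-! # Theorem Q: final assembly (helper13) -/

set_option autoImplicit false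

namespace Pool.PP

theorem q_QSP : Stmt_QSP :=
  p_QSP q_QCT q_QEX q_LOCQ p_LDP COE_green p_SIZ p_QPB p_QSZ p_QAV BMR_holds

theorem q_QUL : Stmt_QUL := p_QUL q_QSC p_QMT q_QSX

theorem q_QGD : Stmt_QGD :=
  p_QGD q_QNW q_QSA q_QSP q_QSX q_QUL p_QPM q_QSC p_QSZ p_QMT p_PLB BMR_holds p_QPB

theorem q_QEM : Stmt_QEM := p_QEM q_QGD p_QRU p_QPA

theorem q_QFI : Stmt_QFI := p_QFI q_QEM

theorem q_QGA : Stmt_QGA := p_QGA q_QFI

end Pool.PP
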