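import Pool.Agent.Work.MP_b0c12c_pp.PartL
import Pool.Agent.Work.MP_b0c12c_pp.B_EXC
import Pool.Agent.Work.MP_b0c12c_pp.B_EXI
import Pool.Agent.Work.MP_b0c12c_pp.B_EXM
import Pool.Agent.Work.MP_b0c12c_pp.B_EXO
import Pool.Agent.Work.MP_b0c12c_pp.B_EXP
import Pool.Agent.Work.MP_b0c12c_pp.B_EXS
import Pool.Agent.Work.MP_b0c12c_pp.B_LDA
import Pool.Agent.Work.MP_b0c12c_pp.B_LDP
import Pool.Agent.Work.MP_b0c12c_pp.B_MOD
import Pool.Agent.Work.MP_b0c12c_pp.B_MOL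
import Pool.Agent.Work.MP_b0c12c_pp.B_PLB
import Pool.Agent.Work.MP_b0c12c_pp.B_RID
import Pool.Agent.Work.MP_b0c12c_pp.B_SVB
import Pool.Agent.Work.MP_b0c12c_pp.B_TRA
import Pool.Agent.Work.MP_b0c12c_pp.B_TRM
import Pool.Agent.Work.MP_b0c12c_px.B_EXT
import Pool.Agent.Work.MP_b0c12c_px.B_LOCQ
import Pool.Agent.Work.MP_b0c12c_px.B_NUT
import Pool.Agent.Work.MP_b0c12c_px.B_QCA
import Pool.Agent.Work.MP_b0c12c_px.B_QCK
import Pool.Agent.Work.MP_b0c12c_px.B_QCM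
import Pool.Agent.Work.MP_b0c12c_px.B_QCT
import Pool.Agent.Work.MP_b0c12c_px.B_QEX
import Pool.Agent.Work.MP_b0c12c_px.B_QFA
import Pool.Agent.Work.MP_b0c12c_px.B_QFB
import Pool.Agent.Work.MP_b0c12c_px.B_QFM
import Pool.Agent.Work.MP_b0c12c_px.B_QGM
import Pool.Agent.Work.MP_b0c12c_px.B_QI1
import Pool.Agent.Work.MP_b0c12c_px.B_QI2
import Pool.Agent.Work.MP_b0c12c_px.B_QI3
import Pool.Agent.Work.MP_b0c12c_px.B_QIN
import Pool.Agent.Work.MP_b0c12c_px.B_QMA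
import Pool.Agent.Work.MP_b0c12c_px.B_QMJ
import Pool.Agent.Work.MP_b0c12c_px.B_QMT
import Pool.Agent.Work.MP_b0c12c_px.B_QNW
import Pool.Agent.Work.MP_b0c12c_px.B_QPB
import Pool.Agent.Work.MP_b0c12c_px.B_QPM
import Pool.Agent.Work.MP_b0c12c_px.B_QPS
import Pool.Agent.Work.MP_b0c12c_px.B_QPW
import Pool.Agent.Work.MP_b0c12c_px.B_QRE
import Pool.Agent.Work.MP_b0c12c_px.B_QRU
import Pool.Agent.Work.MP_b0c12c_px.B_QSA
import Pool.Agent.Work.MP_b0c12c_px.B_QSC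
import Pool.Agent.Work.MP_b0c12c_px.B_QSX
import Pool.Agent.Work.MP_b0c12c_px.B_QSZ
import Pool.Agent.Work.MP_b0c12c_px.B_QXB

/-! # Theorem Q: assembly, first part (helper13) -/

set_option autoImplicit false

namespace Pool.PP

theorem q_EXI : Stmt_EXI := p_EXI p_EXO

theorem q_EXP : Stmt_EXP := p_EXP p_EXM p_EXC

theorem q_EXT : Stmt_EXT := p_EXT p_NUT q_EXI q_EXP p_EXS p_EXC

theorem q_QEX : Stmt_QEX := p_QEX p_EXM p_EXS p_EXC q_EXI q_EXT p_QPS p_QCK p_QCA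

theorem q_TRA : Stmt_TRA := p_TRA p_TRM

theorem q_MOD : Stmt_MOD := p_MOD p_MOL

theorem q_QCT : Stmt_QCT := p_QCT q_TRA q_MOD

theorem q_QI1 : Stmt_QI1 := p_QI1 SQM_green p_QMA

theorem q_QI2 : Stmt_QI2 := p_QI2 SQM_green IND_green p_FMU p_QMA p_QCK

theorem q_QI3 : Stmt_QI3 := p_QI3 SQM_green p_QMA p_QCA

theorem q_QGM : Stmt_QGM := p_QGM p_PMU

theorem q_QFM : Stmt_QFM := p_QFM p_FMU

theorem q_QRE : Stmt_QRE := p_QRE p_W1S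

theorem q_QPW : Stmt_QPW := p_QPW p_RID

theorem q_QFA : Stmt_QFA := p_QFA FRE_green

theorem q_QXB : Stmt_QXB := p_QXB GMO_green BMR_holds ORT_green FRE_green q_QFA p_QFB

theorem q_LOCQ : Stmt_LOCQ :=
  p_LOCQ q_QI1 q_QI2 q_QI3 p_QMJ q_QGM q_QFM q_QRE p_QCM q_QXB

theorem q_QSC : Stmt_QSC := p_QSC p_SVB

theorem q_QNW : Stmt_QNW := p_QNW q_QPW p_QIN FRE_green

theorem q_QSA : Stmt_QSA :=
  p_QSA q_QCT q_QEX q_LOCQ p_LDA COE_green p_SIZ p_QPB p_QSZ BMR_holds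

theorem q_QSX : Stmt_QSX := p_QSX q_QXB p_QPB p_QSZ

end Pool.PP
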