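import Pool.Agent.Work.MP_b0c12c_px.PartQ
import Pool.Agent.Work.MP_b0c12c_px.B_GRO
import Pool.Agent.Work.MP_b0c12c_px.B_LDPS
import Pool.Agent.Work.MP_b0c12c_px.B_LOCU
import Pool.Agent.Work.MP_b0c12c_px.B_PWU
import Pool.Agent.Work.MP_b0c12c_px.B_PWV
import Pool.Agent.Work.MP_b0c12c_px.B_SVL
import Pool.Agent.Work.MP_b0c12c_px.B_UAV
import Pool.Agent.Work.MP_b0c12c_px.B_UEX
import Pool.Agent.Work.MP_b0c12c_px.B_UI2
import Pool.Agent.Work.MP_b0c12c_px.B_UI3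
import Pool.Agent.Work.MP_b0c12c_px.B_UIN
import Pool.Agent.Work.MP_b0c12c_px.B_UMA
import Pool.Agent.Work.MP_b0c12c_px.B_UPA
import Pool.Agent.Work.MP_b0c12c_px.B_UPM
import Pool.Agent.Work.MP_b0c12c_px.B_UPS

/-! # Theorems U, V, W: assembly, first part (helper13) -/

set_option autoImplicit false

namespace Pool.PP

theorem q_UI2 : Stmt_UI2 := p_UI2 SQM_green IND_green p_FMU p_QMA p_UMA p_QCK

theorem q_UI3 : Stmt_UI3 := p_UI3 SQM_green p_QMA p_UMA p_QCA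

theorem q_UPS : Stmt_UPS := p_UPS IND_green p_FMU

theorem q_UPA : Stmt_UPA := p_UPA SQM_green IND_green p_FMU p_QMA q_UPS

theorem q_GRO : Stmt_GRO := p_GRO PRB_green BLM_green EBJ_green p_TAU

theorem q_LOCU : Stmt_LOCU :=
  p_LOCU q_QI1 q_UI2 q_UI3 q_UPA p_QMJ q_QGM q_QFM q_QRE p_QCM q_QXB q_GRO BMR_holds

theorem q_UEX : Stmt_UEX := p_UEX p_EXM p_EXS p_EXC q_EXI q_QEX

theorem q_PWU : Stmt_PWU := p_PWU p_RID

theorem q_PWV : Stmt_PWV := p_PWV p_RID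

end Pool.PP
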