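import Pool.Agent.Work.MP_b0c12c_pp.Loc

/-! # Theorem Q (window counts), local part: definitions and interface (helper13)

Three kinds of sites: the sites of `KK` are killed (factor `1 - g`), the sites of a set `A`
outside `KK` carry the factor `g = (1/J) ∑ f_s`, all other sites carry no factor. -/

set_option autoImplicit false

namespace Pool.PP

open Finset

/-! ## Definitions -/

section defsQ

variable {ι : Type} [Fintype ι] [DecidableEq ι] {J : ℕ}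

/-- Outside `KK` exactly the sites of `A` are active. -/
def mat (KK A : Finset ι) (κ : ι → Option (Fin J)) : Prop :=
  ∀ h, h ∉ KK → (κ h ≠ none ↔ h ∈ A)

/-- The coefficients: `κ` matches `A` and has level at most `Θ`. -/
noncomputable def cQ (KK A : Finset ι) (Θ : ℝ) (κ : ι → Option (Fin J)) : ℝ :=
  open Classical in if mat KK A κ ∧ lev κ ≤ Θ then 1 else 0

/-- The sets `A`. -/
def AA (KK : Finset ι) (k : ℕ) : Finset (Finset ι) := powersetCard k (univ \ KK)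

/-- `∑ x s`. -/
noncomputable def sX (x : Fin J → ℝ) : ℝ := ∑ s, x s

/-- `∑ 2 ^ (-s) x s`. -/
noncomputable def sY (x : Fin J → ℝ) : ℝ := ∑ s : Fin J, (1 / 2 : ℝ) ^ (s : ℕ) * x s

/-- Mass of one set `A` together with the killed sites. -/
noncomputable def mU (x : Fin J → ℝ) (S KK : Finset ι) (k : ℕ) : ℝ :=
  sX x ^ k * (1 + sX x) ^ (KK ∩ S).card

/-- Tail of the level. -/
noncomputable def tl (x : Fin J → ℝ) (S KK : Finset ι) (k : ℕ) (R : ℝ) : ℝ :=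
  Real.exp (2 * (k * (sY x / sX x) + (KK ∩ S).card * sY x) - R)

variable {π : Type}

/-- The weight. -/
noncomputable def OmQ (f : Fin J → Finset π → ℝ) (S KK : Finset ι) (k : ℕ) (Θ : ℝ)
    (t : ι → Finset π) : ℝ :=
  ∑ A ∈ AA KK k, PF (cQ KK A Θ) (tab f S t) ^ 2

/-- The weight at the killed sites which are free. -/
noncomputable def BdQ (f : Fin J → Finset π → ℝ) (r : Finset π → ℝ) (S KK : Finset ι) (k : ℕ)
    (Θ : ℝ) (t : ι → Finset π) : ℝ :=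
  ∑ A ∈ AA KK k, ∑ m ∈ KK ∩ S, PF (cM (cQ KK A Θ) m) (tab f S t) ^ 2 * r (t m)

/-- The weight if the site `h0` is free. -/
noncomputable def PrQ (f : Fin J → Finset π → ℝ) (S KK : Finset ι) (k : ℕ) (Θ : ℝ) (h0 : ι)
    (t : ι → Finset π) : ℝ :=
  ∑ A ∈ (AA KK k).filter (fun A => h0 ∈ A), PF (cM (cQ KK A Θ) h0) (tab f S t) ^ 2

/-- Mean absolute value of the site functions. -/
noncomputable def gt (f : Fin J → Finset π → ℝ) (T : Finset π) : ℝ := (1 / J : ℝ) * ∑ s, |f s T|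

/-- Extension of a table by the empty set at the site `h0`. -/
def ext {α : Type} (h0 : ι) (t : {h : ι // h ≠ h0} → Finset α) (h : ι) : Finset α :=
  if H : h ≠ h0 then t ⟨h, H⟩ else ∅

/-- Extension of a set of sites by the site `h0`. -/
def exS (h0 : ι) (S : Finset {h : ι // h ≠ h0}) : Finset ι := insert h0 (S.image Subtype.val)

end defsQ

/-! ## Masses -/

/-- (QMA) Mass of the matchings, and its tail. -/
def Stmt_QMA : Prop :=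
  open Classical in
  ∀ (ι : Type) [Fintype ι] [DecidableEq ι] (J : ℕ) (x : Fin J → ℝ) (S KK A : Finset ι),
    (∀ s, 0 ≤ x s) → Disjoint A KK →
    (∑ κ : ι → Option (Fin J), if mat KK A κ then ym x S κ else 0) =
      (if A ⊆ S then mU x S KK A.card else 0) ∧
    ∀ R : ℝ, 0 < sX x → A ⊆ S →
      (∑ κ : ι → Option (Fin J), if mat KK A κ ∧ R < lev κ then ym x S κ else 0) ≤
        tl x S KK A.card R * mU x S KK A.card

/-- (QCK) The coefficients after removing a killed site. -/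
def Stmt_QCK : Prop :=
  ∀ (ι : Type) [Fintype ι] [DecidableEq ι] (J : ℕ) (KK A : Finset ι) (Θ : ℝ) (m : ι)
    (κ : ι → Option (Fin J)), 0 < J → m ∈ KK →
    0 ≤ cM (cQ KK A Θ) m κ ∧ cM (cQ KK A Θ) m κ ≤ 1 ∧
      (cM (cQ KK A Θ) m κ ≠ 0 → κ m = none ∧ mat KK A κ ∧ Θ - 1 < lev κ)

/-- (QCA) The coefficients after removing a site of `A`. -/
def Stmt_QCA : Prop :=
  ∀ (ι : Type) [Fintype ι] [DecidableEq ι] (J : ℕ) (KK A : Finset ι) (Θ : ℝ) (h0 : ι)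
    (κ : ι → Option (Fin J)), 0 < J → h0 ∈ A → h0 ∉ KK →
    -1 ≤ cM (cQ KK A Θ) h0 κ ∧ cM (cQ KK A Θ) h0 κ ≤ 0 ∧
      (cM (cQ KK A Θ) h0 κ ≠ 0 → mat KK (A.erase h0) κ ∧ lev κ ≤ Θ) ∧
      (mat KK (A.erase h0) κ → lev κ ≤ Θ - 1 → cM (cQ KK A Θ) h0 κ = -1)

/-! ## Independent sites -/

/-- (QI1) The mean of the weight. -/
def Stmt_QI1 : Prop :=
  ∀ (π ι : Type) [Fintype π] [DecidableEq π] [Fintype ι] [DecidableEq ι] (q : π → ℝ) (J : ℕ)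
    (f : Fin J → Finset π → ℝ) (S KK : Finset ι) (k : ℕ) (Θ : ℝ),
    (∀ x, 0 ≤ q x) → (∀ x, q x ≤ 1) → Orth q f →
    EM q (OmQ f S KK k Θ) ≤ ((S \ KK).card.choose k : ℝ) * mU (xs q f) S KK k

/-- (QI2) The mean of the weight at the free killed sites. -/
def Stmt_QI2 : Prop :=
  ∀ (π ι : Type) [Fintype π] [DecidableEq π] [Fintype ι] [DecidableEq ι] (q : π → ℝ) (J : ℕ)
    (f : Fin J → Finset π → ℝ) (r : Finset π → ℝ) (S KK : Finset ι) (k : ℕ) (Θ : ℝ),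
    (∀ x, 0 ≤ q x) → (∀ x, q x ≤ 1) → Orth q f → 0 < J → (∀ T, 0 ≤ r T) →
    0 < sX (xs q f) →
    EM q (BdQ f r S KK k Θ) ≤
      ((KK ∩ S).card : ℝ) * E1 q r * tl (xs q f) S KK k (Θ - 1) *
        (((S \ KK).card.choose k : ℝ) * mU (xs q f) S KK k)

/-- (QI3) The mean of the weight if the site `h0` is free. -/
def Stmt_QI3 : Prop :=
  ∀ (π ι : Type) [Fintype π] [DecidableEq π] [Fintype ι] [DecidableEq ι] (q : π → ℝ) (J : ℕ)
    (f : Fin J → Finset π → ℝ) (S KK : Finset ι) (k : ℕ) (Θ : ℝ) (h0 : ι),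
    (∀ x, 0 ≤ q x) → (∀ x, q x ≤ 1) → Orth q f → 0 < J → 0 < sX (xs q f) →
    h0 ∈ S → h0 ∉ KK →
    (1 - tl (xs q f) S KK k (Θ - 1)) *
        (((S \ KK).card - 1).choose k : ℝ) * mU (xs q f) S KK k ≤
      EM q (PrQ f S KK (k + 1) Θ h0)

/-- (QMJ) Majorants. -/
def Stmt_QMJ : Prop :=
  ∀ (π ι : Type) [Fintype π] [DecidableEq π] [Fintype ι] [DecidableEq ι] (J : ℕ)
    (f : Fin J → Finset π → ℝ) (r : Finset π → ℝ) (S KK : Finset ι) (k : ℕ) (Θ : ℝ)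
    (t : ι → Finset π), 0 < J → (∀ T, 0 ≤ r T) →
    0 ≤ OmQ f S KK k Θ t ∧ OmQ f S KK k Θ t ≤ (∏ h ∈ S, (1 + gt f (t h))) ^ 2 ∧
    0 ≤ BdQ f r S KK k Θ t ∧
      BdQ f r S KK k Θ t ≤ ∑ m ∈ KK ∩ S, (∏ h ∈ S.erase m, (1 + gt f (t h))) ^ 2 * r (t m) ∧
    ∀ h0, h0 ∉ KK → 0 ≤ PrQ f S KK k Θ h0 t ∧
      PrQ f S KK k Θ h0 t ≤ (∏ h ∈ S, (1 + gt f (t h))) ^ 2

/-- (QGM) Moments of the majorant. -/
def Stmt_QGM : Prop :=
  ∀ (π ι : Type) [Fintype π] [DecidableEq π] [Fintype ι] [DecidableEq ι] (q : π → ℝ) (J : ℕ)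
    (f : Fin J → Finset π → ℝ) (S : Finset ι) (A : ℝ) (r : ℕ), 0 < J →
    (∀ x, 0 ≤ q x) → (∀ x, q x ≤ 1) → 0 ≤ A →
    (∀ s, ∀ j, 1 ≤ j → j ≤ r → E1 q (fun T => |f s T| ^ j) ≤ A) →
    EM q (fun t => (∏ h ∈ S, (1 + gt f (t h))) ^ r) ≤ Real.exp (2 ^ r * A * S.card)

/-- (QFM) The functions with a free site do not see this site. -/
def Stmt_QFM : Prop :=
  ∀ (π ι : Type) [Fintype π] [DecidableEq π] [Fintype ι] [DecidableEq ι] (J : ℕ)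
    (f : Fin J → Finset π → ℝ) (S KK : Finset ι) (k : ℕ) (Θ : ℝ) (h0 : ι) (t : ι → Finset π)
    (a : Finset π),
    PrQ f S KK k Θ h0 (Function.update t h0 a) = PrQ f S KK k Θ h0 t

/-- (QRE) Independent sites without the site `h0`. -/
def Stmt_QRE : Prop :=
  ∀ (π ι : Type) [Fintype π] [DecidableEq π] [Fintype ι] [DecidableEq ι] (q : π → ℝ)
    (Φ : (ι → Finset π) → ℝ) (h0 : ι),
    (∀ t a, Φ (Function.update t h0 a) = Φ t) →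
    EM q (fun t : {h : ι // h ≠ h0} → Finset π => Φ (ext h0 t)) = EM q Φ

/-- (QCM) Comparison of a label model with independent sites, with two slightly different
densities. -/
def Stmt_QCM : Prop :=
  ∀ (π ι : Type) [Fintype π] [DecidableEq π] [Fintype ι] [DecidableEq ι] (q q' : π → ℝ)
    (Φ : (ι → Finset π) → ℝ), (∀ x, 0 ≤ q x) → (∀ x, q x ≤ 1 / 2) →
    (∀ x, 0 ≤ q' x) → (∀ x, |q' x - q x| ≤ 2 * q x ^ 2) →
    (∀ x, (Fintype.card ι : ℝ) * q x ≤ 1 / 10) → (Fintype.card ι : ℝ) ^ 2 * q2 q ≤ 1 / 10 →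
    (EN q' Φ - EM q Φ) ^ 2 ≤
      64 * (Fintype.card ι : ℝ) ^ 2 * q2 q * EM q (fun t => Φ t ^ 2)

/-! ## The pointwise inequality -/

/-- (QPW) `P` is the set of the free sites which count (the sites with a prime). -/
def Stmt_QPW : Prop :=
  ∀ (π ι : Type) [Fintype π] [DecidableEq π] [Fintype ι] [DecidableEq ι] (J : ℕ)
    (f : Fin J → Finset π → ℝ) (r : Finset π → ℝ) (S KK P : Finset ι) (k m : ℕ) (Θ : ℝ)
    (t : ι → Finset π), 0 < J → 1 ≤ m → (∀ s, f s ∅ = 1) → r ∅ = 1 → (∀ T, 0 ≤ r T) →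
    P ⊆ S → (∀ h ∈ P, t h = ∅) →
    ∑ h0 ∈ P \ KK, PrQ f S KK k Θ h0 t - ((m : ℝ) - 1) * OmQ f S KK k Θ t -
        k * BdQ f r S KK k Θ t ≤
      if P ∩ KK = ∅ ∧ m ≤ (P \ KK).card then k * OmQ f S KK k Θ t else 0

/-! ## The primes -/

/-- (QFA) Lower bound for the second moments. -/
def Stmt_QFA : Prop :=
  ∀ (π : Type) [Fintype π] [DecidableEq π] (q : π → ℝ) (b : π → ℕ) (I : ℕ), Blk q b I →
    ∀ s < I, fr q b (I - s) ≤ E1 q (fun T => gs q b I s T ^ 2)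

/-- (QFB) Mertens, lower bound. -/
def Stmt_QFB : Prop :=
  ∃ (c : ℝ) (z0 : ℕ), 0 < c ∧ 2 ≤ z0 ∧ ∀ z I : ℕ, z0 ≤ z →
    ∀ (π : Type) [Fintype π] [DecidableEq π] (pr b : π → ℕ), PB z I pr b → ∀ u : ℕ, u ≤ 1 →
      ∀ j ≤ I, c * (1 / 2 : ℝ) ^ j ≤ fr (qc u pr) b j

/-- (QXB) All one site bounds for the primes in `(z, z ^ (2 ^ I)]`; the functions are built with
`q = 1 / p`. -/
def Stmt_QXB : Prop :=
  ∃ (C : ℝ) (z0 : ℕ), 1 ≤ C ∧ 2 ≤ z0 ∧ ∀ (z I J : ℕ) (π : Type) [Fintype π] [DecidableEq π]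
    (pr b : π → ℕ), z0 ≤ z → 1 ≤ J → J ≤ I → PB z I pr b →
    Orth (qc 0 pr) (fun s : Fin J => gs (qc 0 pr) b I s) ∧
    (∀ s : Fin J, gs (qc 0 pr) b I s ∅ = 1) ∧ rho b I ∅ = 1 ∧ (∀ T, 0 ≤ rho b I T) ∧
    (∀ x, 0 ≤ qc 0 pr x ∧ qc 0 pr x ≤ 1 / z) ∧
    (∀ x, |qc 1 pr x - qc 0 pr x| ≤ 2 * qc 0 pr x ^ 2) ∧ q2 (qc 0 pr) ≤ 4 / z ∧
    (∀ r : ℕ, 1 ≤ r → r ≤ 8 →
      (∀ s : Fin J, E1 (qc 0 pr) (fun T => |gs (qc 0 pr) b I s T| ^ r) ≤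
        C * 2 ^ (s : ℕ) * (1 / 2 : ℝ) ^ I) ∧
      E1 (qc 0 pr) (fun T => rho b I T ^ r) ≤ C * (1 / 2 : ℝ) ^ I ∧
      E1 (qc 1 pr) (fun T => rho b I T ^ r) ≤ C * (1 / 2 : ℝ) ^ I) ∧
    (1 / C) * (2 ^ J * (1 / 2 : ℝ) ^ I / (J : ℝ) ^ 2) ≤
      sX (xs (qc 0 pr) (fun s : Fin J => gs (qc 0 pr) b I s)) ∧
    sX (xs (qc 0 pr) (fun s : Fin J => gs (qc 0 pr) b I s)) ≤
      C * (2 ^ J * (1 / 2 : ℝ) ^ I / (J : ℝ) ^ 2) ∧
    0 ≤ sY (xs (qc 0 pr) (fun s : Fin J => gs (qc 0 pr) b I s)) ∧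
    sY (xs (qc 0 pr) (fun s : Fin J => gs (qc 0 pr) b I s)) ≤ C * (1 / 2 : ℝ) ^ I / J

/-- (LOCQ) The local statement for the primes in `(z, z ^ (2 ^ I)]`. The functions are built with
`q = 1 / p`. -/
def Stmt_LOCQ : Prop :=
  ∃ C : ℝ, 1 ≤ C ∧ ∀ (J k Θ : ℕ) (R ε : ℝ), 1 ≤ J → 1 ≤ Θ → 0 < R → 0 < ε →
    C * R / J ≤ Θ / 16 → C * ((k : ℝ) + 1) * J / 2 ^ J ≤ Θ / 16 →
    ∃ (z0 : ℕ) (B : ℝ), 2 ≤ z0 ∧
    ∀ (z I : ℕ) (π ι : Type) [Fintype π] [DecidableEq π] [Fintype ι] [DecidableEq ι]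
      (pr b : π → ℕ) (S KK : Finset ι), z0 ≤ z → J ≤ I → PB z I pr b →
      (S.card : ℝ) * (1 / 2 : ℝ) ^ I ≤ R → Fintype.card ι ^ 4 * z0 ≤ z →
      EN (qc 0 pr) (OmQ (fun s : Fin J => gs (qc 0 pr) b I s) S KK (k + 1) Θ) ≤
        ((S \ KK).card.choose (k + 1) : ℝ) *
          mU (xs (qc 0 pr) (fun s : Fin J => gs (qc 0 pr) b I s)) S KK (k + 1) + ε ∧
      EN (qc 0 pr)
        (fun t => OmQ (fun s : Fin J => gs (qc 0 pr) b I s) S KK (k + 1) Θ t ^ 2) ≤ B ∧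
      EN (qc 0 pr) (BdQ (fun s : Fin J => gs (qc 0 pr) b I s) (rho b I) S KK (k + 1) Θ) ≤
        C * R * Real.exp (1 - 3 * (Θ : ℝ) / 4) * (((S \ KK).card.choose (k + 1) : ℝ) *
          mU (xs (qc 0 pr) (fun s : Fin J => gs (qc 0 pr) b I s)) S KK (k + 1)) + ε ∧
      ∀ h0 ∈ S \ KK,
        (1 - Real.exp (1 - 3 * (Θ : ℝ) / 4)) * (((S \ KK).card - 1).choose k : ℝ) *
          mU (xs (qc 0 pr) (fun s : Fin J => gs (qc 0 pr) b I s)) S KK k -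
            ε / (Fintype.card ι : ℝ) ≤
        EN (qc 1 pr) (fun t : {h : ι // h ≠ h0} → Finset π =>
          PrQ (fun s : Fin J => gs (qc 0 pr) b I s) S KK (k + 1) Θ h0 (ext h0 t))

end Pool.PP
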