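import Pool.Agent.Work.MP_b0c12c_pp.Arith
import Pool.Agent.Work.MP_b0c12c_px.QLoc

/-! # Theorem Q (window counts), transfer, arithmetic and final statements (helper13) -/

set_option autoImplicit false

namespace Pool.PP

open Finset Filter

/-! ## Expansions -/

/-- (NUT) The number of `κ` of level at most `Θ`, and their number of active shifts. -/
def Stmt_NUT : Prop :=
  ∀ (ι : Type) [Fintype ι] [DecidableEq ι] (J Θ : ℕ),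
    (∀ κ : ι → Option (Fin J), lev κ ≤ Θ →
      (univ.filter (fun h => κ h ≠ none)).card ≤ Θ * 2 ^ J) ∧
    open Classical in ((univ.filter (fun κ : ι → Option (Fin J) => lev κ ≤ Θ)).card : ℝ) ≤
      (1 + (Fintype.card ι : ℝ) * J) ^ (Θ * 2 ^ J)

/-- (EXT) The functions `PF c` with coefficients of level at most `Θ` (as `Stmt_EXF`). -/
def Stmt_EXT : Prop :=
  ∀ (J Θ : ℕ) (A : ℝ), 1 ≤ A → ∃ N : ℕ, ∀ (σ π ι : Type) [Fintype σ] [DecidableEq σ] [Fintype π]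
    [DecidableEq π] [Fintype ι] [DecidableEq ι] (pr : π → ℕ) (a : Fin J → Finset π → ℝ) (D : ℝ)
    (c : (ι → Option (Fin J)) → ℝ), (∀ x, 1 ≤ pr x) → 1 ≤ D → (∀ s U, |a s U| ≤ A) →
    (∀ s U, a s U ≠ 0 → ∏ x ∈ U, (pr x : ℝ) ≤ D ^ ((1 / 2 : ℝ) ^ (s : ℕ))) →
    (∀ κ, |c κ| ≤ 1) → (∀ κ, c κ ≠ 0 → lev κ ≤ Θ) →
    Ex (rr (σ := σ) pr) (fun t : ι → Finset (σ ⊕ π) =>
      PF c (fun h s => open Classical in
        if h ∈ Sset t then ∑ U ∈ (lg t h).powerset, a s U else 0))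
      ((2 + (Fintype.card ι : ℝ)) ^ N) (2 ^ N) (D ^ Θ)

/-- (QPS) `PF` for coefficients which live on `κ h0 = none` is a `PF` over the other sites. -/
def Stmt_QPS : Prop :=
  ∀ (ι : Type) [Fintype ι] [DecidableEq ι] (J : ℕ) (c : (ι → Option (Fin J)) → ℝ) (h0 : ι),
    (∀ κ, κ h0 ≠ none → c κ = 0) →
    (∀ G : ι → Fin J → ℝ, PF c G =
      PF (fun κ : {h : ι // h ≠ h0} → Option (Fin J) =>
        c (fun h => if H : h ≠ h0 then κ ⟨h, H⟩ else none)) (fun h => G h)) ∧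
    ∀ κ : {h : ι // h ≠ h0} → Option (Fin J),
      lev (fun h => if H : h ≠ h0 then κ ⟨h, H⟩ else none) = lev κ

/-- (QEX) Expansions of the four functions of the main argument. -/
def Stmt_QEX : Prop :=
  ∀ (J Θ k : ℕ) (A : ℝ), 1 ≤ A → 1 ≤ J → ∃ N : ℕ, ∀ (σ π ι : Type) [Fintype σ] [DecidableEq σ]
    [Fintype π] [DecidableEq π] [Fintype ι] [DecidableEq ι] (pr : π → ℕ) (KK : Finset ι)
    (f : Fin J → Finset π → ℝ) (r : Finset π → ℝ)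
    (a : Fin J → Finset π → ℝ) (aρ : Finset π → ℝ) (D : ℝ),
    (∀ x, 1 ≤ pr x) → 1 ≤ D → (∀ s U, |a s U| ≤ A) → (∀ U, |aρ U| ≤ A) →
    (∀ s U, a s U ≠ 0 → ∏ x ∈ U, (pr x : ℝ) ≤ D ^ ((1 / 2 : ℝ) ^ (s : ℕ))) →
    (∀ U, aρ U ≠ 0 → ∏ x ∈ U, (pr x : ℝ) ≤ D) →
    (∀ s T, f s T = ∑ U ∈ T.powerset, a s U) → (∀ T, r T = ∑ U ∈ T.powerset, aρ U) →
    Ex (rr (σ := σ) pr) (fun t : ι → Finset (σ ⊕ π) => OmQ f (Sset t) KK k Θ (lg t))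
      ((2 + (Fintype.card ι : ℝ)) ^ N) (2 ^ N) (D ^ (4 * Θ + 1)) ∧
    Ex (rr (σ := σ) pr) (fun t : ι → Finset (σ ⊕ π) => OmQ f (Sset t) KK k Θ (lg t) ^ 2)
      ((2 + (Fintype.card ι : ℝ)) ^ N) (2 ^ N) (D ^ (4 * Θ + 1)) ∧
    Ex (rr (σ := σ) pr) (fun t : ι → Finset (σ ⊕ π) => BdQ f r (Sset t) KK k Θ (lg t))
      ((2 + (Fintype.card ι : ℝ)) ^ N) (2 ^ N) (D ^ (4 * Θ + 1)) ∧
    ∀ h0, h0 ∉ KK →
      Ex (rr (σ := σ) pr) (fun t : {h : ι // h ≠ h0} → Finset (σ ⊕ π) =>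
          PrQ f (exS h0 (Sset t)) KK k Θ h0 (ext h0 (lg t)))
        ((2 + (Fintype.card ι : ℝ)) ^ N) (2 ^ N) (D ^ (4 * Θ + 1))

/-! ## The concrete primes and shifts -/

/-- The shifts `-H2 < h ≤ H1`. -/
abbrev SH (H2 H1 : ℕ) : Type := {h : ℤ // h ∈ Ioc (-(H2 : ℤ)) (H1 : ℤ)}

/-- The killed shifts. -/
noncomputable def KQ (H2 H1 : ℕ) : Finset (SH H2 H1) := univ.filter (fun h => (h : ℤ) ≤ 0)

/-- The small primes. -/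
abbrev SPt (w : ℕ) : Type := {p : ℕ // p ∈ SP w}

/-- The large primes. -/
abbrev LPt (z I : ℕ) : Type := {p : ℕ // p ∈ LP z I}

/-- All primes. -/
def prQ (w z I : ℕ) : SPt w ⊕ LPt z I → ℕ := Sum.elim (fun y => (y : ℕ)) (fun x => (x : ℕ))

/-- The density `1 / (p - u)` of the large primes. -/
noncomputable def dQ (u z I : ℕ) : LPt z I → ℝ := qc u (fun x : LPt z I => (x : ℕ))

/-- The block of a large prime. -/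
noncomputable def bQ (z I : ℕ) (x : LPt z I) : ℕ := sInf {i : ℕ | (x : ℕ) ≤ z ^ 2 ^ (i + 1)}

/-- The site functions. -/
noncomputable def fQ (z I J : ℕ) (s : Fin J) : Finset (LPt z I) → ℝ :=
  gs (dQ 0 z I) (bQ z I) I s

/-- The function `ρ`. -/
noncomputable def rQ (z I : ℕ) : Finset (LPt z I) → ℝ := rho (bQ z I) I

/-- The normalised second moments. -/
noncomputable def xQ (z I J : ℕ) : Fin J → ℝ := xs (dQ 0 z I) (fQ z I J)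

/-- The mean over the residues `u ≤ ω p < p` of the small primes. -/
noncomputable def avQ (u w : ℕ) (G : (SPt w → ℕ) → ℝ) : ℝ :=
  (∑ ω ∈ Fintype.piFinset (fun y : SPt w => Ico u (y : ℕ)), G ω) / ∏ y : SPt w, ((y : ℝ) - u)

/-- The surviving shifts of the residues `ω`. -/
noncomputable def swQ {w : ℕ} (H2 H1 : ℕ) (ω : SPt w → ℕ) : Finset (SH H2 H1) :=
  Sw (fun y : SPt w => (y : ℕ)) (fun h : SH H2 H1 => (h : ℤ)) ω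

/-- The mass for the surviving shifts `S`. -/
noncomputable def mQ (z I J k H2 H1 : ℕ) (S : Finset (SH H2 H1)) : ℝ :=
  ((S \ KQ H2 H1).card.choose k : ℝ) * mU (xQ z I J) S (KQ H2 H1) k

/-- The total mass. -/
noncomputable def UQ (w z I J k H2 H1 : ℕ) : ℝ :=
  avQ 0 w (fun ω => mQ z I J k H2 H1 (swQ H2 H1 ω))

/-- The weight at the integer `n`. -/
noncomputable def omN (w z I J k Θ H2 H1 n : ℕ) : ℝ :=
  OmQ (fQ z I J) (Sset (tb (prQ w z I) (fun h : SH H2 H1 => (h : ℤ)) n)) (KQ H2 H1) k Θ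
    (lg (tb (prQ w z I) (fun h : SH H2 H1 => (h : ℤ)) n))

/-- The weight of the killed sites at the integer `n`. -/
noncomputable def bdN (w z I J k Θ H2 H1 n : ℕ) : ℝ :=
  BdQ (fQ z I J) (rQ z I) (Sset (tb (prQ w z I) (fun h : SH H2 H1 => (h : ℤ)) n)) (KQ H2 H1) k Θ
    (lg (tb (prQ w z I) (fun h : SH H2 H1 => (h : ℤ)) n))

/-- The weight at the prime `p = n + h0`. -/
noncomputable def prN (w z I J k Θ H2 H1 : ℕ) (h0 : SH H2 H1) (p : ℕ) : ℝ :=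
  PrQ (fQ z I J)
    (exS h0 (Sset (tb (prQ w z I) (fun h : {h : SH H2 H1 // h ≠ h0} => (h.1 : ℤ) - h0) p)))
    (KQ H2 H1) k Θ h0
    (ext h0 (lg (tb (prQ w z I) (fun h : {h : SH H2 H1 // h ≠ h0} => (h.1 : ℤ) - h0) p)))

/-- The parameters for `L = log X`. -/
noncomputable def wL (L : ℝ) : ℕ := ⌊L / 100⌋₊
noncomputable def zL (L : ℝ) : ℕ := ⌈L ^ 12⌉₊
noncomputable def iL (Θ : ℕ) (L : ℝ) : ℕ :=
  open Classical in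
  Nat.findGreatest (fun I => (zL L : ℝ) ^ 2 ^ I ≤ Real.exp (L / (512 * Θ))) ⌈L⌉₊

/-! ## Transfer -/

/-- (QCT) The transfer for the concrete primes. `u = 0`: all integers, `u = 1`: primes. -/
def Stmt_QCT : Prop :=
  ∀ (N w z I u : ℕ) (ι : Type) [Fintype ι] [DecidableEq ι] (sh : ι → ℤ) (NN : Finset ℕ)
    (M K D Q δ : ℝ) (Ψ : Finset ι → (ι → Finset (LPt z I)) → ℝ), u ≤ 1 → 2 ≤ z → w ≤ z →
    (∀ h h', h ≠ h' → sh h ≠ sh h' ∧ |sh h - sh h'| ≤ z) →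
    (u = 1 → ∀ h, sh h ≠ 0 ∧ |sh h| ≤ z) →
    (u = 1 → ∀ n ∈ NN, ∀ p : ℕ, p.Prime → p ≤ z ^ 2 ^ I → ¬ p ∣ n) → 0 ≤ K → 0 < D →
    (∏ p ∈ SP w, (p : ℝ)) * D ≤ Q →
    Ex (rr (σ := SPt w) (fun x : LPt z I => (x : ℕ)))
      (fun t : ι → Finset (SPt w ⊕ LPt z I) => Ψ (Sset t) (lg t)) K (2 ^ N) D →
    (∀ (VV : Finset (Finset ℕ)),
      (∀ V ∈ VV, (∀ p ∈ V, p.Prime) ∧ ∏ p ∈ V, (p : ℝ) ≤ Q) →
      ∀ a : Finset ℕ → ℕ → ℕ, (∀ V p, p.Prime → a V p ∈ Ico u p) →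
      ∑ V ∈ VV, (2 ^ N : ℝ) ^ V.card *
        err (fun p : ℕ => p) (fun p => Ico u p) NN M (a V) V ≤ δ) →
    |∑ n ∈ NN, Ψ (Sset (tb (prQ w z I) sh n)) (lg (tb (prQ w z I) sh n)) -
      M * avQ u w (fun ω => EN (dQ u z I) (Ψ (Sw (fun y : SPt w => (y : ℕ)) sh ω)))| ≤ K * δ

/-- (QAV) Change of variables: the residues of `p = n + h0` and the residues of `n`. -/
def Stmt_QAV : Prop :=
  ∀ (w H2 H1 : ℕ) (h0 : SH H2 H1) (G : Finset (SH H2 H1) → ℝ),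
    avQ 1 w (fun ω => G (exS h0 (Sw (fun y : SPt w => (y : ℕ))
      (fun h : {h : SH H2 H1 // h ≠ h0} => (h.1 : ℤ) - h0) ω))) =
    (∏ y : SPt w, (y : ℝ) / ((y : ℝ) - 1)) *
      avQ 0 w (fun ω => if h0 ∈ swQ H2 H1 ω then G (swQ H2 H1 ω) else 0)

/-- (QPB) The block data of the concrete primes. -/
def Stmt_QPB : Prop := ∀ z I : ℕ, 2 ≤ z → PB z I (fun x : LPt z I => (x : ℕ)) (bQ z I)

/-- (QSZ) Sizes of the parameters. The constant does not depend on `Θ`. -/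
def Stmt_QSZ : Prop :=
  ∃ C : ℝ, 1 ≤ C ∧ ∀ Θ : ℕ, 1 ≤ Θ → ∀ J : ℕ, ∀ᶠ L : ℝ in atTop,
    J ≤ iL Θ L ∧ (zL L : ℝ) ^ 2 ^ (iL Θ L) ≤ Real.exp (L / (512 * Θ)) ∧
    (1 / C) * (Θ * (Real.log L / L)) ≤ (1 / 2 : ℝ) ^ (iL Θ L) ∧
    (1 / 2 : ℝ) ^ (iL Θ L) ≤ C * (Θ * (Real.log L / L)) ∧
    wL L ≤ zL L ∧ L ^ 12 ≤ zL L ∧ (∏ p ∈ SP (wL L), (p : ℝ)) ≤ Real.exp (L / 50)

/-- (QSC) The surviving shifts are few, for all residues. -/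
def Stmt_QSC : Prop :=
  ∀ C2 : ℝ, 0 < C2 → ∃ C1 : ℝ, 0 < C1 ∧ ∀ᶠ L : ℝ in atTop, ∀ H2 H1 : ℕ, (H2 : ℝ) ≤ C2 * L →
    (H1 : ℝ) ≤ C2 * L → ∀ ω : SPt (wL L) → ℕ, ((swQ H2 H1 ω).card : ℝ) ≤ C1 * (L / Real.log L)

/-- (QMT) Mertens for the small primes. -/
def Stmt_QMT : Prop :=
  ∃ C : ℝ, 1 ≤ C ∧ ∀ᶠ L : ℝ in atTop,
    Real.log L / 2 ≤ ∏ y : SPt (wL L), (y : ℝ) / ((y : ℝ) - 1) ∧
    ∏ y : SPt (wL L), (y : ℝ) / ((y : ℝ) - 1) ≤ C * Real.log L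

/-- (QIN) At a prime `p = n + h0` the two descriptions of the table agree. -/
def Stmt_QIN : Prop :=
  ∀ (w z I J k Θ H2 H1 : ℕ) (h0 : SH H2 H1) (n p : ℕ), 2 ≤ z → w ≤ z → (n : ℤ) + h0 = p →
    p.Prime → z ^ 2 ^ I < p →
    prN w z I J k Θ H2 H1 h0 p =
      PrQ (fQ z I J) (Sset (tb (prQ w z I) (fun h : SH H2 H1 => (h : ℤ)) n)) (KQ H2 H1) k Θ h0
        (lg (tb (prQ w z I) (fun h : SH H2 H1 => (h : ℤ)) n))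

/-- (QNW) The pointwise inequality at the integer `n`. -/
def Stmt_QNW : Prop :=
  open Classical in
  ∀ (w z I J k m Θ H2 H1 n : ℕ), 2 ≤ z → w ≤ z → 1 ≤ J → J ≤ I → 1 ≤ m → H2 ≤ n →
    Blk (dQ 0 z I) (bQ z I) I → z ^ 2 ^ I + H2 < n →
    (∑ h0 ∈ (univ \ KQ H2 H1).filter (fun h0 : SH H2 H1 => ((n : ℤ) + h0).toNat.Prime),
      prN w z I J k Θ H2 H1 h0 ((n : ℤ) + h0).toNat) -
      ((m : ℝ) - 1) * omN w z I J k Θ H2 H1 n - k * bdN w z I J k Θ H2 H1 n ≤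
    if (∀ p ∈ Ioc (n - H2) n, ¬ p.Prime) ∧ m ≤ ((Ioc n (n + H1)).filter Nat.Prime).card then
      k * omN w z I J k Θ H2 H1 n else 0

/-- (QSA) The sums over all integers. -/
def Stmt_QSA : Prop :=
  ∃ C : ℝ, 1 ≤ C ∧ ∀ (J k Θ : ℕ) (C2 R ε : ℝ), 1 ≤ J → 1 ≤ Θ → 0 < C2 → 0 < R → 0 < ε →
    C * R / J ≤ Θ / 16 → C * ((k : ℝ) + 1) * J / 2 ^ J ≤ Θ / 16 →
    ∃ B : ℝ, 0 < B ∧ ∀ᶠ L : ℝ in atTop, ∀ H2 H1 x Y : ℕ, (H2 : ℝ) ≤ C2 * L →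
      (H1 : ℝ) ≤ C2 * L → Real.exp (L / 2) ≤ Y →
      (∀ ω : SPt (wL L) → ℕ, ((swQ H2 H1 ω).card : ℝ) * (1 / 2 : ℝ) ^ (iL Θ L) ≤ R) →
      ∑ n ∈ Ioc x (x + Y), omN (wL L) (zL L) (iL Θ L) J (k + 1) Θ H2 H1 n ≤
        Y * (UQ (wL L) (zL L) (iL Θ L) J (k + 1) H2 H1 + ε) ∧
      ∑ n ∈ Ioc x (x + Y), omN (wL L) (zL L) (iL Θ L) J (k + 1) Θ H2 H1 n ^ 2 ≤ Y * B ∧
      ∑ n ∈ Ioc x (x + Y), bdN (wL L) (zL L) (iL Θ L) J (k + 1) Θ H2 H1 n ≤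
        Y * (C * R * Real.exp (1 - 3 * (Θ : ℝ) / 4) *
          UQ (wL L) (zL L) (iL Θ L) J (k + 1) H2 H1 + ε)

/-- (QSP) The sums over the primes of `(X, 2X]`. -/
def Stmt_QSP : Prop :=
  ∃ C : ℝ, 1 ≤ C ∧ ∀ (J k Θ : ℕ) (C2 R ε : ℝ), 1 ≤ J → 1 ≤ Θ → 0 < C2 → 0 < R → 0 < ε →
    C * R / J ≤ Θ / 16 → C * ((k : ℝ) + 1) * J / 2 ^ J ≤ Θ / 16 →
    Real.exp (1 - 3 * (Θ : ℝ) / 4) ≤ 1 / 2 →
    ∀ᶠ X : ℕ in atTop, ∀ H2 H1 : ℕ, (H2 : ℝ) ≤ C2 * Real.log X →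
      (H1 : ℝ) ≤ C2 * Real.log X →
      (∀ ω : SPt (wL (Real.log X)) → ℕ,
        ((swQ H2 H1 ω).card : ℝ) * (1 / 2 : ℝ) ^ (iL Θ (Real.log X)) ≤ R) →
      (((Ioc X (2 * X)).filter Nat.Prime).card : ℝ) *
          (∏ y : SPt (wL (Real.log X)), (y : ℝ) / ((y : ℝ) - 1)) *
          (((k : ℝ) + 1) / (2 * sX (xQ (zL (Real.log X)) (iL Θ (Real.log X)) J)) *
            UQ (wL (Real.log X)) (zL (Real.log X)) (iL Θ (Real.log X)) J (k + 1) H2 H1 - ε) -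
          ε * X ≤
        ∑ h0 ∈ univ \ KQ H2 H1, ∑ p ∈ (Ioc X (2 * X)).filter Nat.Prime,
          prN (wL (Real.log X)) (zL (Real.log X)) (iL Θ (Real.log X)) J (k + 1) Θ H2 H1 h0 p

/-- (QSX) Bounds for `∑ x_s`. -/
def Stmt_QSX : Prop :=
  ∃ C : ℝ, 1 ≤ C ∧ ∀ J Θ : ℕ, 1 ≤ J → 1 ≤ Θ → ∀ᶠ L : ℝ in atTop,
    (1 / C) * (2 ^ J * (Θ * (Real.log L / L)) / (J : ℝ) ^ 2) ≤ sX (xQ (zL L) (iL Θ L) J) ∧
    sX (xQ (zL L) (iL Θ L) J) ≤ C * (2 ^ J * (Θ * (Real.log L / L)) / (J : ℝ) ^ 2)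

/-- (QUL) Lower bound for the total mass. -/
def Stmt_QUL : Prop :=
  ∀ (J k Θ : ℕ) (a C2 : ℝ), 1 ≤ J → 1 ≤ Θ → 0 < a → 0 < C2 → ∃ c : ℝ, 0 < c ∧
    ∀ᶠ L : ℝ in atTop, ∀ H2 H1 : ℕ, (H2 : ℝ) ≤ C2 * L → a * L ≤ H1 → (H1 : ℝ) ≤ C2 * L →
      c ≤ UQ (wL L) (zL L) (iL Θ L) J k H2 H1

/-- (QPM) Choice of the parameters. -/
def Stmt_QPM : Prop :=
  ∀ (C c : ℝ) (m : ℕ), 1 ≤ C → 0 < c → ∃ J k Θ : ℕ, 1 ≤ J ∧ 1 ≤ Θ ∧ C ≤ J ∧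
    C * ((k : ℝ) + 1) * J / 2 ^ J ≤ Θ / 16 ∧ Real.exp (1 - 3 * (Θ : ℝ) / 4) ≤ 1 / 2 ∧
    C * Θ * Real.exp (1 - 3 * (Θ : ℝ) / 4) * ((k : ℝ) + 1) ≤ 1 / 4 ∧
    (m : ℝ) + 1 ≤ c * (((k : ℝ) + 1) * (J : ℝ) ^ 2 / (2 ^ J * Θ))

/-! ## The good integers and the final statements -/

/-- The integers of `(X, 2X]` after an empty window and before a window with at least `m`
primes. -/
def gdQ (X H2 H1 m : ℕ) : Finset ℕ :=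
  (Ioc X (2 * X)).filter (fun n => (∀ p ∈ Ioc (n - H2) n, ¬ p.Prime) ∧
    m ≤ ((Ioc n (n + H1)).filter Nat.Prime).card)

/-- (QGD) The good integers have positive density. -/
def Stmt_QGD : Prop :=
  ∀ (a b : ℝ) (m : ℕ), 0 < a → a ≤ b → 1 ≤ m → ∃ c : ℝ, 0 < c ∧ ∀ᶠ X : ℕ in atTop,
    ∀ H2 H1 : ℕ, (H2 : ℝ) ≤ b * Real.log X → a * Real.log X ≤ H1 → (H1 : ℝ) ≤ b * Real.log X →
      c * X ≤ ((gdQ X H2 H1 m).card : ℝ)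

/-- The integers of `(X, 3X]` after an empty window and before a window with exactly `m`
primes. -/
def exQ (X H3 H1 m : ℕ) : Finset ℕ :=
  (Ioc (X - H1) (2 * X + H1)).filter (fun n => (∀ p ∈ Ioc (n - H3) n, ¬ p.Prime) ∧
    ((Ioc n (n + H1)).filter Nat.Prime).card = m)

/-- The primes with a second prime close to `p` or to `p - H1`. -/
def paQ (X H1 l : ℕ) : Finset ℕ :=
  ((Ioc X (2 * X + H1)).filter Nat.Prime).filter (fun p =>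
    ∃ j ∈ Ico 1 l, (p + j).Prime ∨ (p + j - H1).Prime)

/-- (QRU) From at least `m` to exactly `m`. -/
def Stmt_QRU : Prop :=
  ∀ X H3 H2 H1 m l : ℕ, 1 ≤ m → 1 ≤ l → l ≤ H1 → H1 + H3 ≤ H2 → H2 ≤ X →
    ((gdQ X H2 H1 m).card : ℝ) ≤
      ((H1 : ℝ) + 1) * ((paQ X H1 l).card + (exQ X H3 H1 m).card / (l : ℝ))

/-- (QPA) The number of close pairs. -/
def Stmt_QPA : Prop :=
  ∀ b : ℝ, 0 < b → ∃ C : ℝ, 0 < C ∧ ∀ η : ℝ, 0 < η → ∀ᶠ X : ℕ in atTop, ∀ H1 l : ℕ,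
    (H1 : ℝ) ≤ b * Real.log X → (l : ℝ) ≤ η * Real.log X → l ≤ H1 →
    ((paQ X H1 l).card : ℝ) ≤ C * η * (X / Real.log X)

/-- (QEX1) Exactly `m` primes, window lengths as integers. -/
def Stmt_QEM : Prop :=
  ∀ (a b : ℝ) (m : ℕ), 0 < a → a ≤ b → ∃ c : ℝ, 0 < c ∧ ∀ᶠ X : ℕ in atTop,
    ∀ H3 H1 : ℕ, (H3 : ℝ) ≤ b * Real.log X → a * Real.log X ≤ H1 → (H1 : ℝ) ≤ b * Real.log X →
      c * X ≤ ((exQ X H3 H1 m).card : ℝ)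

/-- (QFI) THEOREM Q. -/
def Stmt_QFI : Prop :=
  open Classical in
  ∀ (lam del : ℝ) (m : ℕ), 0 < lam → 0 < del → ∃ c : ℝ, 0 < c ∧ ∀ᶠ X : ℕ in atTop,
    c * X ≤ (((Icc 1 X).filter (fun n : ℕ =>
      (∀ p : ℕ, p.Prime → p ≤ n → (p : ℝ) ≤ n - lam * Real.log X) ∧
      ((Ioc n (n + ⌊del * Real.log X⌋₊)).filter Nat.Prime).card = m)).card : ℝ)

/-- (QGA) The gaps: a positive proportion of the gaps is long and followed by `r` short gaps. -/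
def Stmt_QGA : Prop :=
  open Classical in
  ∀ (lam del : ℝ) (r : ℕ), 0 < lam → 0 < del → ∃ c : ℝ, 0 < c ∧ ∀ᶠ N : ℕ in atTop,
    c * N ≤ (((range N).filter (fun i : ℕ =>
      lam * Real.log (Nat.nth Nat.Prime i) ≤
        (Nat.nth Nat.Prime (i + 1) : ℝ) - Nat.nth Nat.Prime i ∧
      (Nat.nth Nat.Prime (i + 1 + r) : ℝ) - Nat.nth Nat.Prime (i + 1) ≤
        del * Real.log (Nat.nth Nat.Prime i))).card : ℝ)

end Pool.PP
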