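import Pool.Agent.Work.MP_b0c12c_px.QTr

/-! # Theorem U (prescribed clusters): definitions and statements (helper19)

Master theorem for chains of large gaps, monotone chains, window counts and limit points: for every
`k` there is `J₁` such that for all `J₁` disjoint intervals `(a i log X, (a i + δ) log X]` inside
`(0, K log X]` a positive proportion of the `n` has its primes of `(n, n + K log X]` all in the
clusters, at most one in each of them and at least `k + 1` together. The weight is the one of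
Theorem Q (`OmQ`, level `Θ = 2`), the tails are bounded by Markov, the pairs of primes by `ρ`. -/

set_option autoImplicit false

namespace Pool.PP

open Finset Filter

/-! ## Definitions -/

section defsU

variable {ι π : Type} [Fintype ι] [DecidableEq ι] {J : ℕ}

/-- The pairs of neutral sites. -/
noncomputable def PaQ (f : Fin J → Finset π → ℝ) (r : Finset π → ℝ) (α : ι → ι → ℝ)
    (S KK : Finset ι) (k : ℕ) (Θ : ℝ) (t : ι → Finset π) : ℝ :=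
  ∑ a ∈ S \ KK, ∑ a' ∈ S \ KK, α a a' * (OmQ f S KK k Θ t * (r (t a) * r (t a')))

/-- The coefficients of the pairs: `θ` for all pairs, `A` more for the pairs of one cluster. -/
noncomputable def alU {ι : Type} [DecidableEq ι] (θ A : ℝ) (cl : ι → ℕ) (a a' : ι) : ℝ :=
  if a = a' then 0 else θ + if cl a = cl a' then A else 0

/-- Total mass. -/
noncomputable def ZU (x : Fin J → ℝ) (S KK : Finset ι) (k : ℕ) : ℝ :=
  ((S \ KK).card.choose k : ℝ) * mU x S KK k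

/-- Mean of the level (Markov). -/
noncomputable def tm (x : Fin J → ℝ) (S KK : Finset ι) (k : ℕ) : ℝ :=
  k * (sY x / sX x) + (KK ∩ S).card * sY x

end defsU

/-! ## Local part -/

/-- (UMA) Markov for the level. -/
def Stmt_UMA : Prop :=
  open Classical in
  ∀ (ι : Type) [Fintype ι] [DecidableEq ι] (J : ℕ) (x : Fin J → ℝ) (S KK A : Finset ι),
    (∀ s, 0 ≤ x s) → Disjoint A KK → 0 < sX x → A ⊆ S →
    (∑ κ : ι → Option (Fin J), if mat KK A κ ∧ 1 < lev κ then ym x S κ else 0) ≤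
      tm x S KK A.card * mU x S KK A.card

/-- (UI2) The mean of the weight at the free killed sites. -/
def Stmt_UI2 : Prop :=
  ∀ (π ι : Type) [Fintype π] [DecidableEq π] [Fintype ι] [DecidableEq ι] (q : π → ℝ) (J : ℕ)
    (f : Fin J → Finset π → ℝ) (r : Finset π → ℝ) (S KK : Finset ι) (k : ℕ),
    (∀ x, 0 ≤ q x) → (∀ x, q x ≤ 1) → Orth q f → 0 < J → (∀ T, 0 ≤ r T) →
    0 < sX (xs q f) →
    EM q (BdQ f r S KK k 2) ≤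
      ((KK ∩ S).card : ℝ) * E1 q r * tm (xs q f) S KK k * ZU (xs q f) S KK k

/-- (UI3) The mean of the weight if the site `h0` is free. -/
def Stmt_UI3 : Prop :=
  ∀ (π ι : Type) [Fintype π] [DecidableEq π] [Fintype ι] [DecidableEq ι] (q : π → ℝ) (J : ℕ)
    (f : Fin J → Finset π → ℝ) (S KK : Finset ι) (k : ℕ) (h0 : ι),
    (∀ x, 0 ≤ q x) → (∀ x, q x ≤ 1) → Orth q f → 0 < J → 0 < sX (xs q f) →
    h0 ∈ S → h0 ∉ KK →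
    (1 - tm (xs q f) S KK k) * (((S \ KK).card - 1).choose k : ℝ) * mU (xs q f) S KK k ≤
      EM q (PrQ f S KK (k + 1) 2 h0)

/-- (UPS) One site with a majorant `r`. -/
def Stmt_UPS : Prop :=
  ∀ (π ι : Type) [Fintype π] [DecidableEq π] [Fintype ι] [DecidableEq ι] (q : π → ℝ) (J : ℕ)
    (f : Fin J → Finset π → ℝ) (r : Finset π → ℝ) (S : Finset ι) (c : (ι → Option (Fin J)) → ℝ)
    (a : ι) (Ψ : (ι → Finset π) → ℝ),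
    (∀ x, 0 ≤ q x) → (∀ x, q x ≤ 1) → 0 < J → (∀ T, 0 ≤ r T) → (∀ t, 0 ≤ Ψ t) →
    (∀ t T, Ψ (Function.update t a T) = Ψ t) → (∀ κ, κ a = none → c κ = 0) →
    EM q (fun t => PF c (tab f S t) ^ 2 * (r (t a) * Ψ t)) ≤
      (1 / J : ℝ) * ∑ s : Fin J, E1 q (fun T => f s T ^ 2 * r T) *
        EM q (fun t => PF (fun κ => if κ a = none then c (Function.update κ a (some s)) else 0)
          (tab f S t) ^ 2 * Ψ t)

/-- (UPA) The mean of the weight with two majorants. -/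
def Stmt_UPA : Prop :=
  ∀ (π ι : Type) [Fintype π] [DecidableEq π] [Fintype ι] [DecidableEq ι] (q : π → ℝ) (J : ℕ)
    (f : Fin J → Finset π → ℝ) (r : Finset π → ℝ) (S KK : Finset ι) (k : ℕ) (Θ G : ℝ) (a a' : ι),
    (∀ x, 0 ≤ q x) → (∀ x, q x ≤ 1) → Orth q f → 0 < J → 0 < sX (xs q f) → (∀ T, 0 ≤ r T) →
    (∀ s, E1 q (fun T => f s T ^ 2 * r T) ≤ G) → E1 q r ≤ G → a ≠ a' → a ∈ S \ KK →
    a' ∈ S \ KK →
    EM q (fun t => OmQ f S KK k Θ t * (r (t a) * r (t a'))) ≤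
      G ^ 2 * (1 + k / ((S \ KK).card * sX (xs q f))) ^ 2 * ZU (xs q f) S KK k

/-- (GRO) The second moments of the site functions against `ρ`. -/
def Stmt_GRO : Prop :=
  ∃ C : ℝ, 0 < C ∧ ∀ (π : Type) [Fintype π] [DecidableEq π] (q : π → ℝ) (b : π → ℕ)
    (I : ℕ), Blk q b I → ∀ j < I,
    E1 q (fun T => gj q b j T ^ 2 * rho b I T) ≤ C * fr q b I

/-- (LOCU) The local statement for the primes in `(z, z ^ (2 ^ I)]`. The functions are built with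
`q = 1 / p`. -/
def Stmt_LOCU : Prop :=
  ∃ C : ℝ, 1 ≤ C ∧ ∀ (J k : ℕ) (R ε A : ℝ), 1 ≤ J → 0 < R → 0 < ε → 0 ≤ A →
    ∃ (z0 : ℕ) (B : ℝ), 2 ≤ z0 ∧
    ∀ (z I : ℕ) (π ι : Type) [Fintype π] [DecidableEq π] [Fintype ι] [DecidableEq ι]
      (pr b : π → ℕ) (S KK : Finset ι) (x : Fin J → ℝ) (t₀ : ℝ), z0 ≤ z → J ≤ I → PB z I pr b →
      (S.card : ℝ) * (1 / 2 : ℝ) ^ I ≤ R → Fintype.card ι ^ 8 * z0 ≤ z →
      x = xs (qc 0 pr) (fun s : Fin J => gs (qc 0 pr) b I s) →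
      t₀ = C * ((k + 1) * J / 2 ^ J + R / J) →
      EN (qc 0 pr) (OmQ (fun s : Fin J => gs (qc 0 pr) b I s) S KK (k + 1) 2) ≤
        ZU x S KK (k + 1) + ε ∧
      EN (qc 0 pr)
        (fun t => OmQ (fun s : Fin J => gs (qc 0 pr) b I s) S KK (k + 1) 2 t ^ 2) ≤ B ∧
      EN (qc 0 pr) (BdQ (fun s : Fin J => gs (qc 0 pr) b I s) (rho b I) S KK (k + 1) 2) ≤
        C * R * t₀ * ZU x S KK (k + 1) + ε ∧
      (∀ α : ι → ι → ℝ, (∀ a a', 0 ≤ α a a' ∧ α a a' ≤ A) → (∀ a, α a a = 0) →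
        EN (qc 0 pr) (PaQ (fun s : Fin J => gs (qc 0 pr) b I s) (rho b I) α S KK (k + 1) 2) ≤
          C * ((1 / 4 : ℝ) ^ I * ∑ a ∈ S \ KK, ∑ a' ∈ S \ KK, α a a') *
            (1 + (k + 1) / ((S \ KK).card * sX x)) ^ 2 * ZU x S KK (k + 1) + ε) ∧
      ∀ h0 ∈ S \ KK,
        (1 - t₀) * (((S \ KK).card - 1).choose k : ℝ) * mU x S KK k -
            ε / (Fintype.card ι : ℝ) ≤
        EN (qc 1 pr) (fun t : {h : ι // h ≠ h0} → Finset π =>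
          PrQ (fun s : Fin J => gs (qc 0 pr) b I s) S KK (k + 1) 2 h0 (ext h0 t))

/-- (PWU) The pointwise inequality. `P` is the set of the sites with a prime. -/
def Stmt_PWU : Prop :=
  open Classical in
  ∀ (π ι : Type) [Fintype π] [DecidableEq π] [Fintype ι] [DecidableEq ι] (J : ℕ)
    (f : Fin J → Finset π → ℝ) (r : Finset π → ℝ) (S KK P : Finset ι) (k m : ℕ) (Θ θ A : ℝ)
    (cl : ι → ℕ) (t : ι → Finset π), 0 < J → (∀ s, f s ∅ = 1) → r ∅ = 1 → (∀ T, 0 ≤ r T) →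
    0 < θ → θ ≤ 1 → 1 / θ ≤ A → P ⊆ S → (∀ h ∈ P, t h = ∅) →
    ∑ h0 ∈ P \ KK, PrQ f S KK k Θ h0 t - (m * OmQ f S KK k Θ t +
        PaQ f r (alU θ A cl) S KK k Θ t + A * BdQ f r S KK k Θ t) ≤
      if P ∩ KK = ∅ ∧ (∀ i, ((P \ KK).filter (fun h => cl h = i)).card ≤ 1) ∧
          m + 1 ≤ (P \ KK).card then A * OmQ f S KK k Θ t else 0

/-! ## Transfer -/

/-- (UEX) Expansions of the pair function. -/
def Stmt_UEX : Prop :=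
  ∀ (J k : ℕ) (A : ℝ), 1 ≤ A → 1 ≤ J → ∃ N : ℕ, ∀ (σ π ι : Type) [Fintype σ] [DecidableEq σ]
    [Fintype π] [DecidableEq π] [Fintype ι] [DecidableEq ι] (pr : π → ℕ) (KK : Finset ι)
    (f : Fin J → Finset π → ℝ) (r : Finset π → ℝ) (α : ι → ι → ℝ)
    (a : Fin J → Finset π → ℝ) (aρ : Finset π → ℝ) (D : ℝ),
    (∀ x, 1 ≤ pr x) → 1 ≤ D → (∀ s U, |a s U| ≤ A) → (∀ U, |aρ U| ≤ A) →
    (∀ c c', |α c c'| ≤ A) →
    (∀ s U, a s U ≠ 0 → ∏ x ∈ U, (pr x : ℝ) ≤ D ^ ((1 / 2 : ℝ) ^ (s : ℕ))) →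
    (∀ U, aρ U ≠ 0 → ∏ x ∈ U, (pr x : ℝ) ≤ D) →
    (∀ s T, f s T = ∑ U ∈ T.powerset, a s U) → (∀ T, r T = ∑ U ∈ T.powerset, aρ U) →
    Ex (rr (σ := σ) pr) (fun t : ι → Finset (σ ⊕ π) => PaQ f r α (Sset t) KK k 2 (lg t))
      ((2 + (Fintype.card ι : ℝ)) ^ N) (2 ^ N) (D ^ 11)

/-- The shifts which survive the residues `ω` of the small primes. -/
noncomputable abbrev SwU {w : ℕ} {ι : Type} [Fintype ι] (sh : ι → ℤ) (ω : SPt w → ℕ) : Finset ι :=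
  Sw (fun y : SPt w => (y : ℕ)) sh ω

/-- The weight at the prime `p = n + sh h0`. -/
noncomputable def prU {ι : Type} [Fintype ι] [DecidableEq ι] (w z I J k : ℕ) (KK : Finset ι)
    (sh : ι → ℤ) (h0 : ι) (p : ℕ) : ℝ :=
  PrQ (fQ z I J)
    (exS h0 (Sset (tb (prQ w z I) (fun h : {h : ι // h ≠ h0} => sh h.1 - sh h0) p))) KK k 2 h0
    (ext h0 (lg (tb (prQ w z I) (fun h : {h : ι // h ≠ h0} => sh h.1 - sh h0) p)))

/-- (UAV) Change of variables: the residues of `p = n + sh h0` and the residues of `n`. -/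
def Stmt_UAV : Prop :=
  ∀ (w : ℕ) (ι : Type) [Fintype ι] [DecidableEq ι] (sh : ι → ℤ) (h0 : ι) (G : Finset ι → ℝ),
    avQ 1 w (fun ω => G (exS h0 (SwU (fun h : {h : ι // h ≠ h0} => sh h.1 - sh h0) ω))) =
    (∏ y : SPt w, (y : ℝ) / ((y : ℝ) - 1)) *
      avQ 0 w (fun ω => if h0 ∈ SwU sh ω then G (SwU sh ω) else 0)

/-- (UIN) At a prime `p = n + sh h0` the two descriptions of the table agree. -/
def Stmt_UIN : Prop :=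
  ∀ (w z I J k : ℕ) (ι : Type) [Fintype ι] [DecidableEq ι] (KK : Finset ι) (sh : ι → ℤ) (h0 : ι)
    (n p : ℕ), 2 ≤ z → w ≤ z → (n : ℤ) + sh h0 = p → p.Prime → z ^ 2 ^ I < p →
    prU w z I J k KK sh h0 p =
      PrQ (fQ z I J) (Sset (tb (prQ w z I) sh n)) KK k 2 h0 (lg (tb (prQ w z I) sh n))

/-- The level of distribution hypothesis. -/
def LV (N u : ℕ) (NN : Finset ℕ) (M Q δ : ℝ) : Prop :=
  ∀ (VV : Finset (Finset ℕ)), (∀ V ∈ VV, (∀ p ∈ V, p.Prime) ∧ ∏ p ∈ V, (p : ℝ) ≤ Q) →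
    ∀ a : Finset ℕ → ℕ → ℕ, (∀ V p, p.Prime → a V p ∈ Ico u p) →
    ∑ V ∈ VV, (2 ^ N : ℝ) ^ V.card *
      err (fun p : ℕ => p) (fun p => Ico u p) NN M (a V) V ≤ δ

/-- (USA) The sums over the integers. -/
def Stmt_USA : Prop :=
  ∀ (J k : ℕ) (A : ℝ), 1 ≤ A → 1 ≤ J → ∃ N : ℕ, ∀ (w z I : ℕ) (ι : Type) [Fintype ι]
    [DecidableEq ι] (sh : ι → ℤ) (KK : Finset ι) (α : ι → ι → ℝ) (NN : Finset ℕ) (M Q δ : ℝ),
    2 ≤ z → w ≤ z → J ≤ I → Blk (dQ 0 z I) (bQ z I) I →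
    (∀ h h', h ≠ h' → sh h ≠ sh h' ∧ |sh h - sh h'| ≤ z) → (∀ a a', |α a a'| ≤ A) →
    (∏ p ∈ SP w, (p : ℝ)) * (z : ℝ) ^ 2 ^ (I + 7) ≤ Q → LV N 0 NN M Q δ →
    |∑ n ∈ NN, OmQ (fQ z I J) (Sset (tb (prQ w z I) sh n)) KK k 2 (lg (tb (prQ w z I) sh n)) -
      M * avQ 0 w (fun ω => EN (dQ 0 z I) (OmQ (fQ z I J) (SwU sh ω) KK k 2))| ≤
        (2 + (Fintype.card ι : ℝ)) ^ N * δ ∧
    |∑ n ∈ NN,
        OmQ (fQ z I J) (Sset (tb (prQ w z I) sh n)) KK k 2 (lg (tb (prQ w z I) sh n)) ^ 2 -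
      M * avQ 0 w (fun ω => EN (dQ 0 z I) (fun t => OmQ (fQ z I J) (SwU sh ω) KK k 2 t ^ 2))| ≤
        (2 + (Fintype.card ι : ℝ)) ^ N * δ ∧
    |∑ n ∈ NN, BdQ (fQ z I J) (rQ z I) (Sset (tb (prQ w z I) sh n)) KK k 2
        (lg (tb (prQ w z I) sh n)) -
      M * avQ 0 w (fun ω => EN (dQ 0 z I) (BdQ (fQ z I J) (rQ z I) (SwU sh ω) KK k 2))| ≤
        (2 + (Fintype.card ι : ℝ)) ^ N * δ ∧
    |∑ n ∈ NN, PaQ (fQ z I J) (rQ z I) α (Sset (tb (prQ w z I) sh n)) KK k 2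
        (lg (tb (prQ w z I) sh n)) -
      M * avQ 0 w (fun ω => EN (dQ 0 z I) (PaQ (fQ z I J) (rQ z I) α (SwU sh ω) KK k 2))| ≤
        (2 + (Fintype.card ι : ℝ)) ^ N * δ

/-- (USP) The sums over the primes `p = n + sh h0`. -/
def Stmt_USP : Prop :=
  ∀ (J k : ℕ), 1 ≤ J → ∃ N : ℕ, ∀ (w z I : ℕ) (ι : Type) [Fintype ι]
    [DecidableEq ι] (sh : ι → ℤ) (KK : Finset ι) (h0 : ι) (NN : Finset ℕ) (M Q δ : ℝ),
    2 ≤ z → w ≤ z → J ≤ I → Blk (dQ 0 z I) (bQ z I) I → h0 ∉ KK →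
    (∀ h h', h ≠ h' → sh h ≠ sh h' ∧ |sh h - sh h'| ≤ z) →
    (∀ n ∈ NN, ∀ p : ℕ, p.Prime → p ≤ z ^ 2 ^ I → ¬ p ∣ n) →
    (∏ p ∈ SP w, (p : ℝ)) * (z : ℝ) ^ 2 ^ (I + 7) ≤ Q → LV N 1 NN M Q δ →
    |∑ p ∈ NN, prU w z I J k KK sh h0 p -
      M * ((∏ y : SPt w, (y : ℝ) / ((y : ℝ) - 1)) *
        avQ 0 w (fun ω => if h0 ∈ SwU sh ω then
          EN (dQ 1 z I) (fun t : {h : ι // h ≠ h0} → Finset (LPt z I) =>
            PrQ (fQ z I J) (SwU sh ω) KK k 2 h0 (ext h0 t)) else 0))| ≤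
      (2 + (Fintype.card ι : ℝ)) ^ N * δ

/-! ## The general theorem -/

/-- The good integers: no prime at the sites of `KK`, at most one in every cluster, at least
`m + 1` together. -/
def GoodU {ι : Type} [Fintype ι] [DecidableEq ι] (sh : ι → ℤ) (KK : Finset ι) (cl : ι → ℕ)
    (m n : ℕ) : Prop :=
  (∀ h ∈ KK, ¬ ((n : ℤ) + sh h).toNat.Prime) ∧
  (∀ i, ((univ \ KK).filter (fun h => cl h = i ∧ ((n : ℤ) + sh h).toNat.Prime)).card ≤ 1) ∧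
  m + 1 ≤ ((univ \ KK).filter (fun h => ((n : ℤ) + sh h).toNat.Prime)).card

/-- (GENU) The general theorem. -/
def Stmt_GENU : Prop :=
  open Classical in
  ∀ (J k m : ℕ) (A : ℝ), 1 ≤ J → 1 ≤ A → ∃ N : ℕ, ∀ (w z I X : ℕ) (ι : Type) [Fintype ι]
    [DecidableEq ι] (sh : ι → ℤ) (KK : Finset ι) (cl : ι → ℕ) (θ M₁ B c₀ Q : ℝ),
    2 ≤ z → w ≤ z → J ≤ I → z ^ 2 ^ I ≤ X → Fintype.card ι < z →
    Blk (dQ 0 z I) (bQ z I) I →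
    (∀ h h', h ≠ h' → sh h ≠ sh h' ∧ |sh h - sh h'| ≤ z) → (∀ h, 1 ≤ sh h) →
    0 < θ → θ ≤ 1 → 1 / θ ≤ A → (m : ℝ) ≤ A → 0 < M₁ → 0 ≤ B → 0 < c₀ → c₀ ≤ 1 →
    (∏ p ∈ SP w, (p : ℝ)) * (z : ℝ) ^ 2 ^ (I + 7) ≤ Q →
    (∀ ω : SPt w → ℕ,
      c₀ + (m * EN (dQ 0 z I) (OmQ (fQ z I J) (SwU sh ω) KK k 2) +
          EN (dQ 0 z I) (PaQ (fQ z I J) (rQ z I) (alU θ A cl) (SwU sh ω) KK k 2) +
          A * EN (dQ 0 z I) (BdQ (fQ z I J) (rQ z I) (SwU sh ω) KK k 2)) ≤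
        M₁ / X * (∏ y : SPt w, (y : ℝ) / ((y : ℝ) - 1)) *
          ∑ h0 ∈ SwU sh ω \ KK, EN (dQ 1 z I) (fun t : {h : ι // h ≠ h0} → Finset (LPt z I) =>
            PrQ (fQ z I J) (SwU sh ω) KK k 2 h0 (ext h0 t)) ∧
      EN (dQ 0 z I) (fun t => OmQ (fQ z I J) (SwU sh ω) KK k 2 t ^ 2) ≤ B) →
    LV N 0 (Ioc X (2 * X)) X Q (c₀ * X / (2 + (Fintype.card ι : ℝ)) ^ N) →
    (∀ h0, h0 ∉ KK → ∃ M' : ℝ, M₁ ≤ M' ∧
      LV N 1 ((Ioc (X + (sh h0).toNat) (2 * X + (sh h0).toNat)).filter Nat.Prime) M' Q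
        (c₀ * X / (2 + (Fintype.card ι : ℝ)) ^ N)) →
    c₀ ^ 2 * X / (16 * A ^ 2 * (B + 2)) ≤
      (((Ioc X (2 * X)).filter (fun n : ℕ => GoodU sh KK cl m n)).card : ℝ)

/-! ## Arithmetic -/

/-- (SVL) Every pattern of small classes leaves the right number of sites in every interval. -/
def Stmt_SVL : Prop :=
  ∃ β c C : ℝ, 0 < β ∧ β ≤ 1 / 2 ∧ 0 < c ∧ 0 < C ∧
    (∀ᶠ L : ℝ in atTop,
      c * Real.log L ≤ ∏ y : SPt ⌊L ^ β⌋₊, (y : ℝ) / ((y : ℝ) - 1)) ∧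
    ∀ δ : ℝ, 0 < δ → ∀ᶠ L : ℝ in atTop, ∀ (ω : ℕ → ℕ) (x : ℤ) (len : ℕ), δ * L ≤ len →
      (len : ℝ) ≤ L ^ 2 →
      c * (len / Real.log L) ≤
        (((Ioc x (x + len)).filter (fun h : ℤ => ∀ p ∈ SP ⌊L ^ β⌋₊,
          ¬ (p : ℤ) ∣ (ω p : ℤ) + h)).card : ℝ) ∧
      (((Ioc x (x + len)).filter (fun h : ℤ => ∀ p ∈ SP ⌊L ^ β⌋₊,
          ¬ (p : ℤ) ∣ (ω p : ℤ) + h)).card : ℝ) ≤ C * (len / Real.log L)

/-- (LDPS) Equidistribution of the primes of `(X + s, 2X + s]`. -/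
def Stmt_LDPS : Prop :=
  ∀ N B : ℕ, ∃ C : ℝ, 0 < C ∧ ∀ᶠ X : ℕ in atTop, ∀ s : ℕ, s ≤ X →
    LV N 1 ((Ioc (X + s) (2 * X + s)).filter Nat.Prime)
      (((Ioc (X + s) (2 * X + s)).filter Nat.Prime).card : ℝ) ((X : ℝ) ^ (1 / 4 : ℝ))
      (C * (X / Real.log X ^ B))

/-- (PLBS) Many primes in `(X + s, 2X + s]`. -/
def Stmt_PLBS : Prop :=
  ∃ c : ℝ, 0 < c ∧ ∀ᶠ X : ℕ in atTop, ∀ s : ℕ, (s : ℝ) ≤ √X →
    c * (X / Real.log X) ≤ (((Ioc (X + s) (2 * X + s)).filter Nat.Prime).card : ℝ)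

/-- (UPM) The parameters: with `t = 1 / 2 ^ I`, `|T| t ≤ 1`, mass `sX` between `2 ^ J t / (C J ^ 2)`
and `C 2 ^ J t / J ^ 2`. -/
def Stmt_UPM : Prop :=
  ∀ (C c : ℝ) (m : ℕ), 1 ≤ C → 0 < c → c ≤ 1 → 1 ≤ m →
    ∃ (θ A μ : ℝ) (J₁ : ℕ), 0 < θ ∧ θ ≤ 1 ∧ 1 / θ ≤ A ∧ (m : ℝ) ≤ A ∧ 3 ≤ A ∧ 0 < μ ∧ 1 ≤ J₁ ∧
      c * μ = 16 * m ∧ C * θ * (1 + C * μ) ^ 2 ≤ m ∧ C * A / J₁ * (1 + C * μ) ^ 2 ≤ m ∧
      ∀ R : ℝ, 0 < R → ∃ J k : ℕ, 1 ≤ J ∧ C * R * A * (C * (((k : ℝ) + 1) * J / 2 ^ J + R / J)) ≤ m ∧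
        C * (((k : ℝ) + 1) * J / 2 ^ J + R / J) ≤ 1 / 2 ∧
        μ ≤ ((k : ℝ) + 1) * J ^ 2 / 2 ^ J ∧ ((k : ℝ) + 1) * J ^ 2 / 2 ^ J ≤ 2 * μ

/-- The good integers: the primes of `(n, n + H]` lie in the clusters `(x i, x i + len]`, `i < J₁`,
at most one in each of them, and there are at least `k + 1`. -/
def Gd (J₁ : ℕ) (x : ℕ → ℕ) (len H k n : ℕ) : Prop :=
  (∀ h ∈ Icc 1 H, (n + h).Prime → ∃ i < J₁, x i < h ∧ h ≤ x i + len) ∧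
  (∀ i < J₁, ((Ioc (x i) (x i + len)).filter (fun h => (n + h).Prime)).card ≤ 1) ∧
  k + 1 ≤ ((Icc 1 H).filter (fun h => (n + h).Prime)).card

/-- (CCU) THEOREM U. -/
def Stmt_CCU : Prop :=
  open Classical in
  ∀ k : ℕ, ∃ J₁ : ℕ, 0 < J₁ ∧ ∀ (δ K : ℝ) (a : ℕ → ℝ), 0 < δ → (∀ i < J₁, 0 ≤ a i) →
    (∀ i, i + 1 < J₁ → a i + δ ≤ a (i + 1)) → (∀ i < J₁, a i + δ ≤ K) → ∃ c : ℝ, 0 < c ∧
    ∀ᶠ X : ℕ in atTop, c * X ≤ (((Ioc X (2 * X)).filter (fun n : ℕ =>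
      Gd J₁ (fun i => ⌊a i * Real.log X⌋₊) ⌊δ * Real.log X⌋₊ ⌊K * Real.log X⌋₊ k n)).card : ℝ)

/-! ## Consequences -/

/-- The gap after the prime of index `j`. -/
noncomputable def gN (j : ℕ) : ℝ := (Nat.nth Nat.Prime (j + 1) : ℝ) - Nat.nth Nat.Prime j

/-- The logarithm of the prime of index `j`. -/
noncomputable def lN (j : ℕ) : ℝ := Real.log (Nat.nth Nat.Prime j)

/-- (UIX) From integers to indices. -/
def Stmt_UIX : Prop :=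
  open Classical in
  ∃ C : ℝ, 0 < C ∧
    (∀ᶠ X : ℕ in atTop, (Nat.primeCounting (3 * X) : ℝ) ≤ C * (X / Real.log X)) ∧
    (∀ᶠ N : ℕ in atTop, ∃ X : ℕ, N ≤ X ∧ Nat.primeCounting (3 * X) ≤ N ∧
      (N : ℝ) ≤ C * (X / Real.log X)) ∧
    ∀ K c : ℝ, 0 < K → 0 < c → ∃ c' : ℝ, 0 < c' ∧ ∀ᶠ X : ℕ in atTop, ∀ P : ℕ → Prop,
      c * X ≤ (((Ioc X (2 * X)).filter (fun n : ℕ => ∃ j, n < Nat.nth Nat.Prime j ∧
        (Nat.nth Nat.Prime j : ℝ) ≤ n + K * Real.log X ∧ P j)).card : ℝ) →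
      c' * (X / Real.log X) ≤ (((range (Nat.primeCounting (3 * X))).filter (fun j : ℕ =>
        X < Nat.nth Nat.Prime j ∧ Nat.nth Nat.Prime j ≤ 3 * X ∧ P j)).card : ℝ)

/-- (UCI) Increasing chains. -/
def Stmt_UCI : Prop :=
  open Classical in
  ∀ (k : ℕ) (lam M : ℝ), 0 < lam → 0 < M → ∃ c C : ℝ, 0 < c ∧ 0 < C ∧ ∀ᶠ N : ℕ in atTop,
    c * N ≤ (((range N).filter (fun j : ℕ => (∀ i ≤ k, lam * lN j ≤ gN (j + i) ∧
      gN (j + i) ≤ C * lN j) ∧ ∀ i < k, M * gN (j + i) ≤ gN (j + i + 1))).card : ℝ)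

/-- (UCD) Decreasing chains. -/
def Stmt_UCD : Prop :=
  open Classical in
  ∀ (k : ℕ) (lam M : ℝ), 0 < lam → 0 < M → ∃ c C : ℝ, 0 < c ∧ 0 < C ∧ ∀ᶠ N : ℕ in atTop,
    c * N ≤ (((range N).filter (fun j : ℕ => (∀ i ≤ k, lam * lN j ≤ gN (j + i) ∧
      gN (j + i) ≤ C * lN j) ∧ ∀ i < k, M * gN (j + i + 1) ≤ gN (j + i))).card : ℝ)

/-- `β` is a limit point of positive upper density of the normalised gaps. -/
def PLim (β : ℝ) : Prop :=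
  open Classical in
  ∀ ε : ℝ, 0 < ε → ∃ c : ℝ, 0 < c ∧ ∃ᶠ N : ℕ in atTop,
    c * N ≤ (((range N).filter (fun j : ℕ => |gN j / lN j - β| ≤ ε)).card : ℝ)

/-- (ULM) Limit points of positive upper density. -/
def Stmt_ULM : Prop :=
  ∃ J₁ : ℕ, ∀ a : ℕ → ℝ, StrictMono a → ∃ i j : ℕ, i < j ∧ j < J₁ ∧ PLim (a j - a i)

/-- (UWP) THEOREM W: window patterns. -/
def Stmt_UWP : Prop :=
  open Classical in
  ∀ m : ℕ, ∃ K : ℕ, ∀ (Lam del : ℝ) (b : Fin K → ℝ), StrictMono b → (∀ i, |b i| < Lam) →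
    0 < del → ∃ c : ℝ, 0 < c ∧ ∀ᶠ X : ℕ in atTop,
    c * X ≤ (((Icc 1 X).filter (fun n : ℕ => ∃ (I : Finset (Fin K)) (p : Fin K → ℕ),
      m ≤ I.card ∧ StrictMonoOn p I ∧
      (∀ i ∈ I, |(p i : ℝ) - (n + b i * Real.log X)| ≤ del * Real.log X) ∧
      ∀ q : ℕ, (q.Prime ∧ |(q : ℝ) - n| ≤ Lam * Real.log X) ↔ ∃ i ∈ I, q = p i)).card : ℝ)

/-- (UGD) At least `m` primes after an empty window. -/
def Stmt_UGD : Prop :=
  ∀ (a b : ℝ) (m : ℕ), 0 < a → a ≤ b → 1 ≤ m → ∃ c : ℝ, 0 < c ∧ ∀ᶠ X : ℕ in atTop,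
    ∀ H2 H1 : ℕ, (H2 : ℝ) ≤ b * Real.log X → a * Real.log X ≤ H1 → (H1 : ℝ) ≤ b * Real.log X →
      c * X ≤ ((gdQ X H2 H1 m).card : ℝ)

end Pool.PP
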