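import Pool.Agent.Work.MP_b0c12c_px.UDefs

/-! # Theorem W with small prime factors (helper37)

The same weight as in `UDefs.lean`. The weight only sees the integers without prime factor
`≤ z ^ 2 ^ I` (rough integers), so the good integers have at most one rough integer in every
cluster and none elsewhere, and `m + 1` of the rough integers are primes. -/

set_option autoImplicit false

namespace Pool.PP

open Finset Filter

/-- (PWV) The pointwise inequality. `P` is the set of all sites with an empty table which count,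
`P'` the set of the sites with a prime. -/
def Stmt_PWV : Prop :=
  open Classical in
  ∀ (π ι : Type) [Fintype π] [DecidableEq π] [Fintype ι] [DecidableEq ι] (J : ℕ)
    (f : Fin J → Finset π → ℝ) (r : Finset π → ℝ) (S KK P P' : Finset ι) (k m : ℕ)
    (Θ θ A : ℝ) (cl : ι → ℕ) (t : ι → Finset π), 0 < J → (∀ s, f s ∅ = 1) → r ∅ = 1 →
    (∀ T, 0 ≤ r T) → 0 < θ → θ ≤ 1 → 1 / θ ≤ A → P' ⊆ P → P ⊆ S → (∀ h ∈ P, t h = ∅) →
    ∑ h0 ∈ P' \ KK, PrQ f S KK k Θ h0 t - (m * OmQ f S KK k Θ t +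
        PaQ f r (alU θ A cl) S KK k Θ t + A * BdQ f r S KK k Θ t) ≤
      if P ∩ KK = ∅ ∧ (∀ i, ((P \ KK).filter (fun h => cl h = i)).card ≤ 1) ∧
          m + 1 ≤ P'.card then A * OmQ f S KK k Θ t else 0

/-- The good integers: every `n + sh h`, `h ∈ KK`, has a prime factor `≤ y`, at most one integer
of every cluster has none, and there are at least `m + 1` primes. -/
def GoodV {ι : Type} [Fintype ι] [DecidableEq ι] (sh : ι → ℤ) (KK : Finset ι) (cl : ι → ℕ)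
    (m y n : ℕ) : Prop :=
  open Classical in
  (∀ h ∈ KK, ∃ p : ℕ, p.Prime ∧ p ≤ y ∧ (p : ℤ) ∣ (n : ℤ) + sh h) ∧
  (∀ i, ((univ \ KK).filter (fun h => cl h = i ∧
    ¬ ∃ p : ℕ, p.Prime ∧ p ≤ y ∧ (p : ℤ) ∣ (n : ℤ) + sh h)).card ≤ 1) ∧
  m + 1 ≤ ((univ \ KK).filter (fun h => ((n : ℤ) + sh h).toNat.Prime)).card

/-- (GENV) The general theorem: the hypotheses of `Stmt_GENU`. -/
def Stmt_GENV : Prop :=
  open Classical in
  ∀ (J k m : ℕ) (A : ℝ), 1 ≤ J → 1 ≤ A → ∃ N : ℕ, ∀ (w z I X : ℕ) (ι : Type) [Fintype ι]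
    [DecidableEq ι] (sh : ι → ℤ) (KK : Finset ι) (cl : ι → ℕ) (θ M₁ B c₀ Q : ℝ),
    2 ≤ z → w ≤ z → J ≤ I → z ^ 2 ^ I ≤ X → Fintype.card ι < z →
    Blk (dQ 0 z I) (bQ z I) I →
    (∀ h h', h ≠ h' → sh h ≠ sh h' ∧ |sh h - sh h'| ≤ z) → (∀ h, 1 ≤ sh h) →
    0 < θ → θ ≤ 1 → 1 / θ ≤ A → (m : ℝ) ≤ A → 0 < M₁ → 0 ≤ B → 0 < c₀ → c₀ ≤ 1 →
    (∏ p ∈ SP w, (p : ℝ)) * (z : ℝ) ^ 2 ^ (I + 7) ≤ Q →
    (∀ ω : SPt w → ℕ,
      c₀ + (m * EN (dQ 0 z I) (OmQ (fQ z I J) (SwU sh ω) KK k 2) +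
          EN (dQ 0 z I) (PaQ (fQ z I J) (rQ z I) (alU θ A cl) (SwU sh ω) KK k 2) +
          A * EN (dQ 0 z I) (BdQ (fQ z I J) (rQ z I) (SwU sh ω) KK k 2)) ≤
        M₁ / X * (∏ y : SPt w, (y : ℝ) / ((y : ℝ) - 1)) *
          ∑ h0 ∈ SwU sh ω \ KK, EN (dQ 1 z I) (fun t : {h : ι // h ≠ h0} → Finset (LPt z I) =>
            PrQ (fQ z I J) (SwU sh ω) KK k 2 h0 (ext h0 t)) ∧
      EN (dQ 0 z I) (fun t => OmQ (fQ z I J) (SwU sh ω) KK k 2 t ^ 2) ≤ B) →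
    LV N 0 (Ioc X (2 * X)) X Q (c₀ * X / (2 + (Fintype.card ι : ℝ)) ^ N) →
    (∀ h0, h0 ∉ KK → ∃ M' : ℝ, M₁ ≤ M' ∧
      LV N 1 ((Ioc (X + (sh h0).toNat) (2 * X + (sh h0).toNat)).filter Nat.Prime) M' Q
        (c₀ * X / (2 + (Fintype.card ι : ℝ)) ^ N)) →
    c₀ ^ 2 * X / (16 * A ^ 2 * (B + 2)) ≤
      (((Ioc X (2 * X)).filter (fun n : ℕ => GoodV sh KK cl m (z ^ 2 ^ I) n)).card : ℝ)

/-- The good integers: every integer of `(n, n + H]` outside the clusters `(x i, x i + len]`,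
`i < J₁`, has a prime factor `≤ y`, at most one integer of every cluster has no such prime factor,
and there are at least `k + 1` primes. -/
def GdV (J₁ : ℕ) (x : ℕ → ℕ) (len H k : ℕ) (y : ℝ) (n : ℕ) : Prop :=
  open Classical in
  (∀ h ∈ Icc 1 H, (∃ p : ℕ, p.Prime ∧ (p : ℝ) ≤ y ∧ p ∣ n + h) ∨
    ∃ i < J₁, x i < h ∧ h ≤ x i + len) ∧
  (∀ i < J₁, ((Ioc (x i) (x i + len)).filter (fun h =>
    ¬ ∃ p : ℕ, p.Prime ∧ (p : ℝ) ≤ y ∧ p ∣ n + h)).card ≤ 1) ∧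
  k + 1 ≤ ((Icc 1 H).filter (fun h => (n + h).Prime)).card

/-- (CCV) THEOREM U with small prime factors. `J₁` depends on `k` and `eps` only. -/
def Stmt_CCV : Prop :=
  open Classical in
  ∀ (k : ℕ) (eps : ℝ), 0 < eps → ∃ J₁ : ℕ, 0 < J₁ ∧ ∀ (δ K : ℝ) (a : ℕ → ℝ), 0 < δ →
    (∀ i < J₁, 0 ≤ a i) → (∀ i, i + 1 < J₁ → a i + δ ≤ a (i + 1)) →
    (∀ i < J₁, a i + δ ≤ K) → ∃ c : ℝ, 0 < c ∧
    ∀ᶠ X : ℕ in atTop, c * X ≤ (((Ioc X (2 * X)).filter (fun n : ℕ =>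
      GdV J₁ (fun i => ⌊a i * Real.log X⌋₊) ⌊δ * Real.log X⌋₊ ⌊K * Real.log X⌋₊ k
        ((X : ℝ) ^ eps) n)).card : ℝ)

/-- (CVU) `Stmt_CCU` is the case `eps = 1 / 2`. -/
def Stmt_CVU : Prop := Stmt_CCV → Stmt_CCU

/-- (UWV) THEOREM W, the statement of the hand-in. -/
def Stmt_UWV : Prop :=
  open Classical in
  ∀ (m : ℕ) (eps : ℝ), 0 < eps → ∃ K : ℕ, ∀ (b : Fin K → ℝ) (Lam del : ℝ), StrictMono b →
    0 < del → ∃ c : ℝ, 0 < c ∧ ∀ᶠ X : ℕ in atTop,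
    c * X ≤ (((Icc 1 X).filter (fun n : ℕ => ∃ a : Fin K → ℕ, StrictMono a ∧
      (∀ j, |(a j : ℝ) - (n + b j * Real.log X)| ≤ del * Real.log X) ∧
      m ≤ (univ.filter (fun j => (a j).Prime)).card ∧
      ∀ q : ℕ, |(q : ℝ) - n| ≤ Lam * Real.log X → (∀ j, q ≠ a j) →
        ∃ p : ℕ, p.Prime ∧ (p : ℝ) ≤ (X : ℝ) ^ eps ∧ p ∣ q)).card : ℝ)

end Pool.PP
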